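import Pool.Agent.Lib.MP_528ca9_co.BDefs

namespace MP528

open Set

private theorem B1_L (m n : ℕ) : (2 * (m : ℝ) + 1) ^ 2 ≤ bL m n ∧ 1 ≤ bL m n := by
  have hm : (0 : ℝ) ≤ m := Nat.cast_nonneg m
  have hn : (0 : ℝ) ≤ n := Nat.cast_nonneg n
  unfold bL bY bT
  set u : ℝ := 20 * ((m : ℝ) + 1) + n with hu
  have hu1 : 2 * (m : ℝ) + 1 ≤ u := by rw [hu]; linarith
  have hu2 : 1 ≤ u := by linarith
  have h2 : (2 * (m : ℝ) + 1) ^ 2 ≤ u ^ 2 := by gcongr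
  have h4 : u ^ 2 ≤ u ^ 4 := pow_le_pow_right₀ hu2 (by norm_num)
  have h0 : 0 ≤ u ^ 4 := by positivity
  constructor <;> linarith

private theorem B1_hull_le (m n par : ℕ) (a c : ℝ)
    (h1 : ∀ x : ℕ, x ≤ 2 * m + 1 → x % 2 = par → a * (x : ℝ) - (x : ℝ) ^ 2 ≤ c) (h2 : -bL m n ≤ c) :
    ∀ p ∈ bD m n par, a * p.1 + p.2 ≤ c := by
  have hconv : Convex ℝ {p : ℝ × ℝ | a * p.1 + p.2 ≤ c} := by
    rintro x hx y hy s t hs ht hst
    simp only [mem_ofPred_eq, Prod.fst_add, Prod.snd_add, Prod.smul_fst, Prod.smul_snd, smul_eq_mul] at *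
    have e : c = s * c + t * c := by rw [← add_mul, hst, one_mul]
    have := mul_le_mul_of_nonneg_left hx hs
    have := mul_le_mul_of_nonneg_left hy ht
    linarith
  intro p hp
  refine convexHull_min ?_ hconv hp
  rintro q (⟨x, hx, hpar, rfl⟩ | hq)
  · have := h1 x hx hpar
    simp only [mem_ofPred_eq]
    linarith
  · rw [mem_singleton_iff] at hq
    rw [hq]
    simpa using h2

private theorem B1_gen (m n par x : ℕ) (hx : x ≤ 2 * m + 1) (hp : x % 2 = par) :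
    ((x : ℝ), -(x : ℝ) ^ 2) ∈ bD m n par :=
  subset_convexHull ℝ _ (Or.inl ⟨x, hx, hp, rfl⟩)

/-- ROW B1a. Proof: the set `{p | (2t+1) p.1 + p.2 ≤ t (t+1)}` is convex (half-plane) and contains
the generators: `(2t+1) x - x^2 = t(t+1) - (x-t)(x-t-1)` and `(x-t)(x-t-1) ≥ 0` for integers; the
deep point has value `-L ≤ 0`. Use `convexHull_min`. -/
theorem bD_odd_le (m n par t : ℕ) :
    ∀ p ∈ bD m n par, (2 * (t : ℝ) + 1) * p.1 + p.2 ≤ t * (t + 1) := by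
  refine B1_hull_le m n par _ _ (fun x _ _ => ?_) ?_
  · have key : (0 : ℤ) ≤ ((x : ℤ) - t) * ((x : ℤ) - t - 1) := by
      rcases le_or_gt ((x : ℤ)) t with h | h
      · nlinarith
      · have : (0 : ℤ) ≤ (x : ℤ) - t - 1 := by omega
        exact mul_nonneg (by omega) this
    have key' : (0 : ℝ) ≤ ((x : ℝ) - t) * ((x : ℝ) - t - 1) := by exact_mod_cast key
    nlinarith
  · have := (B1_L m n).2
    have : (0 : ℝ) ≤ (t : ℝ) * (t + 1) := by positivity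
    linarith

/-- ROW B1b. Attained at `x = t` or `x = t + 1` (the one of parity `par`). -/
theorem bD_odd_attain (m n par t : ℕ) (ht : t ≤ 2 * m) (hp : par < 2) :
    ∃ p ∈ bD m n par, (2 * (t : ℝ) + 1) * p.1 + p.2 = t * (t + 1) := by
  by_cases h : t % 2 = par
  · exact ⟨_, B1_gen m n par t (by omega) h, by push_cast; ring⟩
  · exact ⟨_, B1_gen m n par (t + 1) (by omega) (by omega), by push_cast; ring⟩

/-- ROW B1c. `2 t x - x^2 = t^2 - (x-t)^2 ≤ t^2`. -/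
theorem bD_even_same_le (m n par t : ℕ) :
    ∀ p ∈ bD m n par, 2 * (t : ℝ) * p.1 + p.2 ≤ (t : ℝ) ^ 2 := by
  refine B1_hull_le m n par _ _ (fun x _ _ => ?_) ?_
  · nlinarith [sq_nonneg ((x : ℝ) - t)]
  · have := (B1_L m n).2
    have : (0 : ℝ) ≤ (t : ℝ) ^ 2 := by positivity
    linarith

/-- ROW B1d. -/
theorem bD_even_same_attain (m n t : ℕ) (ht : t ≤ 2 * m + 1) :
    ∃ p ∈ bD m n (t % 2), 2 * (t : ℝ) * p.1 + p.2 = (t : ℝ) ^ 2 :=
  ⟨_, B1_gen m n _ t ht rfl, by ring⟩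

/-- ROW B1e. For the other parity `(x-t)^2 ≥ 1`; the deep point has value `-L ≤ -1 ≤ t^2 - 1`. -/
theorem bD_even_other_le (m n t : ℕ) :
    ∀ p ∈ bD m n (1 - t % 2), 2 * (t : ℝ) * p.1 + p.2 ≤ (t : ℝ) ^ 2 - 1 := by
  refine B1_hull_le m n _ _ _ (fun x _ hx => ?_) ?_
  · have hne : (x : ℤ) - t ≠ 0 := by omega
    have key : (1 : ℤ) ≤ ((x : ℤ) - t) ^ 2 := by
      have := sq_pos_of_ne_zero hne
      omega
    have key' : (1 : ℝ) ≤ ((x : ℝ) - t) ^ 2 := by exact_mod_cast key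
    nlinarith
  · have := (B1_L m n).2
    have : (0 : ℝ) ≤ (t : ℝ) ^ 2 := by positivity
    linarith

/-- ROW B1f. Attained at `x = t - 1`. -/
theorem bD_even_other_attain (m n t : ℕ) (ht1 : 1 ≤ t) (ht : t ≤ 2 * m + 1) :
    ∃ p ∈ bD m n (1 - t % 2), 2 * (t : ℝ) * p.1 + p.2 = (t : ℝ) ^ 2 - 1 := by
  obtain ⟨s, rfl⟩ : ∃ s, t = s + 1 := ⟨t - 1, by omega⟩
  exact ⟨_, B1_gen m n _ s (by omega) (by omega), by push_cast; ring⟩

/-- ROW B1g. For the generators `z x - x^2 ≥ - x^2 ≥ -(2m+1)^2 ≥ -L`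
(`L = 4 Y ≥ 4 (20 (m+1))^4`). -/
theorem bD_min_le (m n par : ℕ) (z : ℝ) (hz : 0 ≤ z) :
    ∀ p ∈ bD m n par, -bL m n ≤ z * p.1 + p.2 := by
  have hconv : Convex ℝ {p : ℝ × ℝ | -bL m n ≤ z * p.1 + p.2} := by
    rintro x hx y hy s t hs ht hst
    simp only [mem_ofPred_eq, Prod.fst_add, Prod.snd_add, Prod.smul_fst, Prod.smul_snd, smul_eq_mul] at *
    have e : -bL m n = s * (-bL m n) + t * (-bL m n) := by rw [← add_mul, hst, one_mul]
    have := mul_le_mul_of_nonneg_left hx hs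
    have := mul_le_mul_of_nonneg_left hy ht
    linarith
  intro p hp
  refine convexHull_min ?_ hconv hp
  rintro q (⟨x, hx, hpar, rfl⟩ | hq)
  · have hx' : (x : ℝ) ≤ 2 * (m : ℝ) + 1 := by exact_mod_cast hx
    have hx0 : (0 : ℝ) ≤ x := Nat.cast_nonneg x
    have h1 : (x : ℝ) ^ 2 ≤ (2 * (m : ℝ) + 1) ^ 2 := by gcongr
    have h2 := (B1_L m n).1
    have h3 : 0 ≤ z * (x : ℝ) := mul_nonneg hz hx0
    simp only [mem_ofPred_eq]
    linarith
  · rw [mem_singleton_iff] at hq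
    rw [hq]
    simp

/-- ROW B1h. -/
theorem bD_deep (m n par : ℕ) : ((0 : ℝ), -bL m n) ∈ bD m n par :=
  subset_convexHull ℝ _ (Or.inr rfl)

/-- ROW B1i. -/
theorem bD_x (m n par : ℕ) : ∀ p ∈ bD m n par, 0 ≤ p.1 ∧ p.1 ≤ 2 * (m : ℝ) + 1 := by
  have hconv : Convex ℝ {p : ℝ × ℝ | 0 ≤ p.1 ∧ p.1 ≤ 2 * (m : ℝ) + 1} := by
    rintro x ⟨hx1, hx2⟩ y ⟨hy1, hy2⟩ s t hs ht hst
    simp only [mem_ofPred_eq, Prod.fst_add, Prod.smul_fst, smul_eq_mul]
    have e : 2 * (m : ℝ) + 1 = s * (2 * (m : ℝ) + 1) + t * (2 * (m : ℝ) + 1) := by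
      rw [← add_mul, hst, one_mul]
    have := mul_le_mul_of_nonneg_left hx2 hs
    have := mul_le_mul_of_nonneg_left hy2 ht
    have := mul_nonneg hs hx1
    have := mul_nonneg ht hy1
    constructor <;> linarith
  intro p hp
  refine convexHull_min ?_ hconv hp
  rintro q (⟨x, hx, hpar, rfl⟩ | hq)
  · have hx' : (x : ℝ) ≤ 2 * (m : ℝ) + 1 := by exact_mod_cast hx
    exact ⟨Nat.cast_nonneg x, hx'⟩
  · rw [mem_singleton_iff] at hq
    rw [hq]
    have hm : (0 : ℝ) ≤ m := Nat.cast_nonneg m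
    exact ⟨le_refl 0, by simp only; linarith⟩

/-- ROW B1j. The generating set is finite; `Set.Finite.isCompact_convexHull`. -/
theorem bD_compact (m n par : ℕ) : IsCompact (bD m n par) := by
  have hfin : ({p : ℝ × ℝ | ∃ x : ℕ, x ≤ 2 * m + 1 ∧ x % 2 = par ∧ p = ((x : ℝ), -(x : ℝ) ^ 2)} ∪
    {((0 : ℝ), -bL m n)}).Finite := by
    refine Set.Finite.union ?_ (Set.finite_singleton _)
    refine ((Finset.range (2 * m + 2)).finite_toSet.image fun x : ℕ => ((x : ℝ), -(x : ℝ) ^ 2)).subset ?_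
    rintro p ⟨x, hx, -, rfl⟩
    exact ⟨x, by simp only [Finset.coe_range, mem_Iio]; omega, rfl⟩
  exact hfin.isCompact_convexHull ℝ

end MP528
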