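import Pool.Agent.Lib.MP_528ca9_co.B1

namespace MP528

open Set

theorem b4_Y_nonneg (m n : ℕ) : 0 ≤ bY m n := by
  unfold bY bT
  positivity

theorem b4_cont2 (f : ℝ × ℝ → Fin 4 → ℝ) (hf : Continuous f) :
    Continuous (fun q => (WithLp.toLp 2 (f q) : E 4)) :=
  (PiLp.continuous_toLp 2 (fun _ : Fin 4 => ℝ)).comp hf

theorem b4_cont1 (f : ℝ → Fin 4 → ℝ) (hf : Continuous f) :
    Continuous (fun q => (WithLp.toLp 2 (f q) : E 4)) :=
  (PiLp.continuous_toLp 2 (fun _ : Fin 4 => ℝ)).comp hf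

theorem b4_seg0 (c0 c1 c3 : ℝ) (r : ℝ) :
    {p : E 4 | p 0 = c0 ∧ p 1 = c1 ∧ |p 2| ≤ r ∧ p 3 = c3} =
      (fun z : ℝ => (WithLp.toLp 2 ![c0, c1, z, c3] : E 4)) '' Icc (-r) r := by
  ext p
  simp only [mem_ofPred_eq, mem_image, mem_Icc]
  constructor
  · rintro ⟨h0, h1, h2, h3⟩
    refine ⟨p 2, abs_le.1 h2, ?_⟩
    ext j
    fin_cases j <;> simp [h0, h1, h3]
  · rintro ⟨z, hz, rfl⟩
    refine ⟨by simp, by simp, ?_, by simp⟩
    have : (WithLp.toLp 2 ![c0, c1, z, c3] : E 4) 2 = z := by simp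
    rw [this]
    exact abs_le.2 hz

theorem b4_seg1 (c0 c2 c3 : ℝ) (r : ℝ) :
    {p : E 4 | p 0 = c0 ∧ |p 1| ≤ r ∧ p 2 = c2 ∧ p 3 = c3} =
      (fun z : ℝ => (WithLp.toLp 2 ![c0, z, c2, c3] : E 4)) '' Icc (-r) r := by
  ext p
  simp only [mem_ofPred_eq, mem_image, mem_Icc]
  constructor
  · rintro ⟨h0, h1, h2, h3⟩
    refine ⟨p 1, abs_le.1 h1, ?_⟩
    ext j
    fin_cases j <;> simp [h0, h2, h3]
  · rintro ⟨z, hz, rfl⟩
    refine ⟨by simp, ?_, by simp, by simp⟩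
    have : (WithLp.toLp 2 ![c0, z, c2, c3] : E 4) 1 = z := by simp
    rw [this]
    exact abs_le.2 hz

theorem b4_poly (K : Set (ℝ × ℝ)) (c2 c3 : ℝ) :
    {p : E 4 | (p 0, p 1) ∈ K ∧ p 2 = c2 ∧ p 3 = c3} =
      (fun q : ℝ × ℝ => (WithLp.toLp 2 ![q.1, q.2, c2, c3] : E 4)) '' K := by
  ext p
  simp only [mem_ofPred_eq, mem_image]
  constructor
  · rintro ⟨h0, h2, h3⟩
    refine ⟨(p 0, p 1), h0, ?_⟩
    ext j
    fin_cases j <;> simp [h2, h3]
  · rintro ⟨q, hq, rfl⟩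
    refine ⟨?_, by simp, by simp⟩
    have : ((WithLp.toLp 2 ![q.1, q.2, c2, c3] : E 4) 0, (WithLp.toLp 2 ![q.1, q.2, c2, c3] : E 4) 1) = q := by
      simp
    rw [this]
    exact hq

theorem b4_vec1 (c0 c1 c3 : ℝ) : Continuous (fun z : ℝ => (![c0, c1, z, c3] : Fin 4 → ℝ)) := by
  refine continuous_pi fun j => ?_
  fin_cases j <;> simp <;> fun_prop

theorem b4_vec1' (c0 c2 c3 : ℝ) : Continuous (fun z : ℝ => (![c0, z, c2, c3] : Fin 4 → ℝ)) := by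
  refine continuous_pi fun j => ?_
  fin_cases j <;> simp <;> fun_prop

theorem b4_vec2 (c2 c3 : ℝ) : Continuous (fun q : ℝ × ℝ => (![q.1, q.2, c2, c3] : Fin 4 → ℝ)) := by
  refine continuous_pi fun j => ?_
  fin_cases j <;> simp <;> fun_prop

/-- ROW B4a. Each member is the image of a compact set of `ℝ × ℝ` (or `ℝ`) under a continuous map
into `E 4`, e.g. `{p | (p 0, p 1) ∈ D ∧ p 2 = 1 ∧ p 3 = 1}` is the image of `D` under
`q ↦ !₂[q.1, q.2, 1, 1]`. (Or: closed and bounded.) -/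
theorem bfam_compact (m n : ℕ) (i : Fin n) : IsCompact (bfam m n i) := by
  unfold bfam
  split_ifs
  · rw [b4_seg0]
    exact isCompact_Icc.image (b4_cont1 _ (b4_vec1 _ _ _))
  · rw [b4_poly]
    exact (bD_compact m n 0).image (b4_cont2 _ (b4_vec2 _ _))
  · rw [b4_poly]
    exact (bD_compact m n 1).image (b4_cont2 _ (b4_vec2 _ _))
  · rw [b4_seg1]
    exact isCompact_Icc.image (b4_cont1 _ (b4_vec1' _ _ _))

theorem b4_abs_conv {a b x y r : ℝ} (ha : 0 ≤ a) (hb : 0 ≤ b) (hab : a + b = 1) (hx : |x| ≤ r)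
    (hy : |y| ≤ r) : |a * x + b * y| ≤ r := by
  rw [abs_le] at *
  constructor
  · nlinarith [hx.1, hy.1]
  · nlinarith [hx.2, hy.2]

/-- ROW B4b. -/
theorem bfam_convex (m n : ℕ) (i : Fin n) : Convex ℝ (bfam m n i) := by
  have hco : ∀ (a b : ℝ) (x y : E 4) (j : Fin 4), (a • x + b • y) j = a * x j + b * y j := by
    intro a b x y j
    simp
  have hpoly : ∀ (K : Set (ℝ × ℝ)) (c2 c3 : ℝ), Convex ℝ K →
      Convex ℝ {p : E 4 | (p 0, p 1) ∈ K ∧ p 2 = c2 ∧ p 3 = c3} := by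
    intro K c2 c3 hK x hx y hy a b ha hb hab
    obtain ⟨x1, x2, x3⟩ := hx
    obtain ⟨y1, y2, y3⟩ := hy
    have h := hK x1 y1 ha hb hab
    refine ⟨?_, ?_, ?_⟩
    · have e : ((a • x + b • y) 0, (a • x + b • y) 1) = a • (x 0, x 1) + b • (y 0, y 1) := by
        rw [hco, hco]
        simp
      rw [e]
      exact h
    · rw [hco, x2, y2, ← add_mul, hab, one_mul]
    · rw [hco, x3, y3, ← add_mul, hab, one_mul]
  unfold bfam
  split_ifs
  · intro x hx y hy a b ha hb hab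
    obtain ⟨x1, x2, x3, x4⟩ := hx
    obtain ⟨y1, y2, y3, y4⟩ := hy
    refine ⟨?_, ?_, ?_, ?_⟩
    · rw [hco, x1, y1]; simp
    · rw [hco, x2, y2]; simp
    · rw [hco]; exact b4_abs_conv ha hb hab x3 y3
    · rw [hco, x4, y4]; simp
  · exact hpoly _ _ _ (convex_convexHull ℝ _)
  · exact hpoly _ _ _ (convex_convexHull ℝ _)
  · intro x hx y hy a b ha hb hab
    obtain ⟨x1, x2, x3, x4⟩ := hx
    obtain ⟨y1, y2, y3, y4⟩ := hy
    refine ⟨?_, ?_, ?_, ?_⟩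
    · rw [hco, x1, y1, ← add_mul, hab, one_mul]
    · rw [hco]; exact b4_abs_conv ha hb hab x2 y2
    · rw [hco, x3, y3, ← add_mul, hab, one_mul]
    · rw [hco, x4, y4, ← add_mul, hab, one_mul]

/-- ROW B4c. -/
theorem bfam_nonempty (m n : ℕ) (i : Fin n) : (bfam m n i).Nonempty := by
  unfold bfam
  split_ifs
  · rw [b4_seg0]
    exact Set.Nonempty.image _ ⟨0, by norm_num, by norm_num⟩
  · rw [b4_poly]
    exact Set.Nonempty.image _ ⟨_, bD_deep m n 0⟩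
  · rw [b4_poly]
    exact Set.Nonempty.image _ ⟨_, bD_deep m n 1⟩
  · rw [b4_seg1]
    have h := b4_Y_nonneg m n
    exact Set.Nonempty.image _ ⟨0, by linarith, by linarith⟩

end MP528
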