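import Pool.Agent.Lib.MP_528ca9_co.B1

namespace MP528

open Set

/-- the third coefficient of the hyperplane with slope `2t` -/
noncomputable def bc (t : ℕ) : ℝ := if t % 2 = 0 then -1 / 2 else 1 / 2

theorem bv_ne_zero (a c e : ℝ) : bv a 1 c e ≠ 0 := by
  intro h
  have := congrArg (fun v : E 4 => v 1) h
  simp [bv] at this

/-- The hyperplane of slope `2t`: equation `2t x + y + c z + (1/2 - t^2) w = 0`. -/
noncomputable def bH (t : ℕ) : Hyp 4 :=
  hypOf (bv (2 * t) 1 (bc t) (1 / 2 - (t : ℝ) ^ 2)) (bv_ne_zero _ _ _) 0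

theorem B5_c0 (a b c e : ℝ) : (bv a b c e) 0 = a := rfl
theorem B5_c1 (a b c e : ℝ) : (bv a b c e) 1 = b := rfl
theorem B5_c2 (a b c e : ℝ) : (bv a b c e) 2 = c := rfl
theorem B5_c3 (a b c e : ℝ) : (bv a b c e) 3 = e := rfl

theorem B5_fam0 {m n : ℕ} {i : Fin n} (hi : i.1 = 0) :
    bfam m n i = {p | p 0 = 0 ∧ p 1 = 0 ∧ |p 2| ≤ 1 ∧ p 3 = 0} := by
  simp only [bfam, hi, if_true]

theorem B5_fam1 {m n : ℕ} {i : Fin n} (hi : i.1 = 1) :
    bfam m n i = {p | (p 0, p 1) ∈ bD m n 0 ∧ p 2 = 1 ∧ p 3 = 1} := by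
  simp only [bfam, hi, if_true, one_ne_zero, if_false]

theorem B5_fam2 {m n : ℕ} {i : Fin n} (hi : i.1 = 2) :
    bfam m n i = {p | (p 0, p 1) ∈ bD m n 1 ∧ p 2 = -1 ∧ p 3 = 1} := by
  have h1 : i.1 ≠ 0 := by omega
  have h2 : i.1 ≠ 1 := by omega
  simp only [bfam, h1, h2, if_false]
  rw [if_pos hi]

theorem B5_fam3 {m n : ℕ} {i : Fin n} (hi : 3 ≤ i.1) :
    bfam m n i = {p | p 0 = -(bs m i.1) ^ 3 ∧ |p 1| ≤ bY m n ∧ p 2 = (bs m i.1) ^ 2 ∧
      p 3 = bs m i.1} := by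
  have h1 : i.1 ≠ 0 := by omega
  have h2 : i.1 ≠ 1 := by omega
  have h3 : i.1 ≠ 2 := by omega
  simp only [bfam, h1, h2, h3, if_false]

/-- values on the two polygons -/
theorem B5_poly (m n t par : ℕ) (ht1 : 1 ≤ t) (ht : t ≤ 2 * m) (hp : par < 2) :
    (∀ p ∈ bD m n par, 2 * (t : ℝ) * p.1 + p.2 + (if par = 0 then bc t else -bc t) +
      (1 / 2 - (t : ℝ) ^ 2) ≤ 0) ∧
    ∃ p ∈ bD m n par, 2 * (t : ℝ) * p.1 + p.2 + (if par = 0 then bc t else -bc t) +
      (1 / 2 - (t : ℝ) ^ 2) = 0 := by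
  rcases Nat.mod_two_eq_zero_or_one t with h | h
  · have hc : bc t = -1 / 2 := by simp [bc, h]
    have hpp : par = 0 ∨ par = 1 := by omega
    rcases hpp with rfl | rfl
    · have e1 := bD_even_same_attain m n t (by omega)
      rw [h] at e1
      obtain ⟨p, hp1, hp2⟩ := e1
      rw [if_pos rfl, hc]
      refine ⟨fun p hp => ?_, p, hp1, ?_⟩
      · have := bD_even_same_le m n 0 t p hp
        linarith
      · linarith
    · have e1 := bD_even_other_attain m n t ht1 (by omega)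
      have e2 := bD_even_other_le m n t
      rw [h] at e1 e2
      obtain ⟨p, hp1, hp2⟩ := e1
      rw [if_neg one_ne_zero, hc]
      refine ⟨fun p hp => ?_, p, hp1, ?_⟩
      · have := e2 p hp
        linarith
      · linarith
  · have hc : bc t = 1 / 2 := by simp [bc, h]
    have hpp : par = 0 ∨ par = 1 := by omega
    rcases hpp with rfl | rfl
    · have e1 := bD_even_other_attain m n t ht1 (by omega)
      have e2 := bD_even_other_le m n t
      rw [h] at e1 e2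
      obtain ⟨p, hp1, hp2⟩ := e1
      rw [if_pos rfl, hc]
      refine ⟨fun p hp => ?_, p, hp1, ?_⟩
      · have := e2 p hp
        linarith
      · linarith
    · have e1 := bD_even_same_attain m n t (by omega)
      rw [h] at e1
      obtain ⟨p, hp1, hp2⟩ := e1
      rw [if_neg one_ne_zero, hc]
      refine ⟨fun p hp => ?_, p, hp1, ?_⟩
      · have := bD_even_same_le m n 1 t p hp
        linarith
      · linarith

/-- the needle estimate -/
theorem B5_needle (m n t i : ℕ) (ht : t ≤ 2 * m) (hi : i < n) :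
    |2 * (t : ℝ) * (-(bs m i) ^ 3) + bc t * (bs m i) ^ 2 + (1 / 2 - (t : ℝ) ^ 2) * bs m i|
      < bY m n := by
  set s := bs m i with hs
  have hm0 : (0 : ℝ) ≤ m := Nat.cast_nonneg m
  have hi0 : (0 : ℝ) ≤ i := Nat.cast_nonneg i
  have ht0 : (0 : ℝ) ≤ t := Nat.cast_nonneg t
  have htm : (t : ℝ) ≤ 2 * m := by exact_mod_cast ht
  have hs1 : 20 * ((m : ℝ) + 1) ≤ s := by
    rw [hs, bs, bT]
    linarith
  have hs20 : 20 ≤ s := by linarith
  have hs0 : 0 ≤ s := by linarith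
  have hts : (t : ℝ) ≤ s / 10 := by linarith
  have hsn : s ≤ bT m + n := by
    rw [hs, bs]
    have : (i : ℝ) ≤ n := by exact_mod_cast hi.le
    linarith
  have hY : s ^ 4 < bY m n := by
    rw [bY]
    have : s ^ 4 ≤ (bT m + n) ^ 4 := pow_le_pow_left₀ hs0 hsn 4
    linarith
  have h2 : 20 * s ≤ s ^ 2 := by nlinarith
  have h3 : 20 * s ^ 2 ≤ s ^ 3 := by nlinarith [sq_nonneg s]
  have h4 : 20 * s ^ 3 ≤ s ^ 4 := by nlinarith [pow_nonneg hs0 3]
  have h5 : (t : ℝ) * s ^ 3 ≤ s / 10 * s ^ 3 := mul_le_mul_of_nonneg_right hts (pow_nonneg hs0 3)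
  have h6 : (t : ℝ) ^ 2 * s ≤ (s / 10) ^ 2 * s :=
    mul_le_mul_of_nonneg_right (pow_le_pow_left₀ ht0 hts 2) hs0
  have h7 : 0 ≤ (t : ℝ) * s ^ 3 := mul_nonneg ht0 (pow_nonneg hs0 3)
  have h8 : 0 ≤ (t : ℝ) ^ 2 * s := mul_nonneg (sq_nonneg _) hs0
  have hb : bc t = -1 / 2 ∨ bc t = 1 / 2 := by
    unfold bc
    split_ifs
    · exact Or.inl rfl
    · exact Or.inr rfl
  rw [abs_lt]
  rcases hb with hb | hb
  · rw [hb]
    constructor <;> nlinarith
  · rw [hb]
    constructor <;> nlinarith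

/-- ROW B5. The hyperplane `bH t` (`1 ≤ t ≤ 2m`) is a transversal tangent to exactly the members
with index 1 and 2.
Proof. Use `mem_transv_hypOf`, `tangent_hypOf`, `bv_inner`. Put `e = 1/2 - t^2`.
Index 0: the values on the segment are `c ζ`, `|ζ| ≤ 1`, `c = ± 1/2`: contains `0, 1/2, -1/2`, so it
is met and not tangent.
Index 1: the values are `2t x + y + c + e`, `(x,y) ∈ bD m n 0`. If `t` is even (`t % 2 = 0`) the
maximum of `2t x + y` is `t^2` (B1c, B1d) and `t^2 + c + e = t^2 - 1/2 + 1/2 - t^2 = 0`; if `t` is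
odd, `0 = 1 - t % 2` and the maximum is `t^2 - 1` (B1e, B1f), and `t^2 - 1 + 1/2 + 1/2 - t^2 = 0`.
So all values are `≤ 0` with equality attained: tangent.
Index 2: the values are `2t x + y - c + e`, `(x,y) ∈ bD m n 1`: the same with the parities
exchanged.
Index `i ≥ 3` (needle, `s = bs m i ≥ bT m = 20 (m+1)`): the values are `y + r`, `|y| ≤ Y`, with
`r = - 2t s^3 + c s^2 + e s`, and `|r| ≤ 2t s^3 + s^2 / 2 + t^2 s + s/2 ≤ s^4 < Y` since
`t ≤ 2m ≤ s/10`, `s ≥ 20`. So `y = -r` is in the interior: met, and values `Y + r > 0`,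
`-Y + r < 0`, so not tangent. (`Y = bY m n = (bT m + n)^4 + 1 > s^4` since `i < n`.) -/
theorem bH_mem (m n t : ℕ) (ht1 : 1 ≤ t) (ht : t ≤ 2 * m) :
    bH t ∈ stratum (bfam m n) {i | i.1 = 1 ∨ i.1 = 2} := by
  have hb0 : bc t ≠ 0 := by
    unfold bc
    split_ifs <;> norm_num
  have key : ∀ i : Fin n, (∃ x ∈ bfam m n i,
      inner ℝ (bv (2 * t) 1 (bc t) (1 / 2 - (t : ℝ) ^ 2)) x = 0) ∧
      (((∀ x ∈ bfam m n i, inner ℝ (bv (2 * t) 1 (bc t) (1 / 2 - (t : ℝ) ^ 2)) x ≤ 0) ∨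
        (∀ x ∈ bfam m n i, 0 ≤ inner ℝ (bv (2 * t) 1 (bc t) (1 / 2 - (t : ℝ) ^ 2)) x)) ↔
        (i.1 = 1 ∨ i.1 = 2)) := by
    intro i
    simp only [bv_inner]
    have hcases : i.1 = 0 ∨ i.1 = 1 ∨ i.1 = 2 ∨ 3 ≤ i.1 := by omega
    rcases hcases with hi | hi | hi | hi
    · rw [B5_fam0 hi]
      refine ⟨⟨bv 0 0 0 0, ⟨rfl, rfl, ?_, rfl⟩, ?_⟩, ?_⟩
      · rw [B5_c2, abs_zero]
        exact zero_le_one
      · rw [B5_c0, B5_c1, B5_c2, B5_c3]
        ring
      · constructor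
        · intro h
          exfalso
          have m1 : bv 0 0 1 0 ∈ {p : E 4 | p 0 = 0 ∧ p 1 = 0 ∧ |p 2| ≤ 1 ∧ p 3 = 0} :=
            ⟨rfl, rfl, by rw [B5_c2, abs_one], rfl⟩
          have m2 : bv 0 0 (-1) 0 ∈ {p : E 4 | p 0 = 0 ∧ p 1 = 0 ∧ |p 2| ≤ 1 ∧ p 3 = 0} :=
            ⟨rfl, rfl, by rw [B5_c2, abs_neg, abs_one], rfl⟩
          rcases h with h | h
          · have h1 := h _ m1
            have h2 := h _ m2
            rw [B5_c0, B5_c1, B5_c2, B5_c3] at h1 h2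
            exact hb0 (le_antisymm (by linarith) (by linarith))
          · have h1 := h _ m1
            have h2 := h _ m2
            rw [B5_c0, B5_c1, B5_c2, B5_c3] at h1 h2
            exact hb0 (le_antisymm (by linarith) (by linarith))
        · intro h
          omega
    · obtain ⟨h1, p, hp1, hp2⟩ := B5_poly m n t 0 ht1 ht (by norm_num)
      rw [if_pos rfl] at hp2
      simp only [if_true] at h1
      rw [B5_fam1 hi]
      refine ⟨⟨bv p.1 p.2 1 1, ⟨hp1, rfl, rfl⟩, ?_⟩, ?_⟩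
      · rw [B5_c0, B5_c1, B5_c2, B5_c3]
        linarith
      · refine ⟨fun _ => Or.inl hi, fun _ => Or.inl ?_⟩
        rintro x ⟨hx1, hx2, hx3⟩
        have := h1 _ hx1
        rw [hx2, hx3]
        dsimp only at this
        linarith
    · obtain ⟨h1, p, hp1, hp2⟩ := B5_poly m n t 1 ht1 ht (by norm_num)
      rw [if_neg one_ne_zero] at hp2
      simp only [one_ne_zero, if_false] at h1
      rw [B5_fam2 hi]
      refine ⟨⟨bv p.1 p.2 (-1) 1, ⟨hp1, rfl, rfl⟩, ?_⟩, ?_⟩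
      · rw [B5_c0, B5_c1, B5_c2, B5_c3]
        linarith
      · refine ⟨fun _ => Or.inr hi, fun _ => Or.inl ?_⟩
        rintro x ⟨hx1, hx2, hx3⟩
        have := h1 _ hx1
        rw [hx2, hx3]
        dsimp only at this
        linarith
    · have h1 := B5_needle m n t i.1 ht i.2
      rw [B5_fam3 hi]
      set s := bs m i.1 with hs
      set r := 2 * (t : ℝ) * (-s ^ 3) + bc t * s ^ 2 + (1 / 2 - (t : ℝ) ^ 2) * s with hr
      have h2 := abs_lt.1 h1
      have hY : 0 ≤ bY m n := (abs_nonneg _).trans h1.le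
      refine ⟨⟨bv (-s ^ 3) (-r) (s ^ 2) s, ⟨rfl, ?_, rfl, rfl⟩, ?_⟩, ?_⟩
      · rw [B5_c1, abs_neg]
        exact h1.le
      · rw [B5_c0, B5_c1, B5_c2, B5_c3, hr]
        ring
      · constructor
        · intro h
          exfalso
          have m1 : bv (-s ^ 3) (bY m n) (s ^ 2) s ∈
              {p : E 4 | p 0 = -s ^ 3 ∧ |p 1| ≤ bY m n ∧ p 2 = s ^ 2 ∧ p 3 = s} :=
            ⟨rfl, by rw [B5_c1, abs_of_nonneg hY], rfl, rfl⟩
          have m2 : bv (-s ^ 3) (-bY m n) (s ^ 2) s ∈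
              {p : E 4 | p 0 = -s ^ 3 ∧ |p 1| ≤ bY m n ∧ p 2 = s ^ 2 ∧ p 3 = s} :=
            ⟨rfl, by rw [B5_c1, abs_neg, abs_of_nonneg hY], rfl, rfl⟩
          rcases h with h | h
          · have h3 := h _ m1
            rw [B5_c0, B5_c1, B5_c2, B5_c3] at h3
            linarith
          · have h3 := h _ m2
            rw [B5_c0, B5_c1, B5_c2, B5_c3] at h3
            linarith
        · intro h
          omega
  refine ⟨(mem_transv_hypOf _ _ _ _).2 fun i => (key i).1, fun i => ?_⟩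
  rw [bH, tangent_hypOf]
  constructor
  · intro h
    exact (key i).2.1 h.2
  · intro h
    exact ⟨(key i).1, (key i).2.2 h⟩

end MP528
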