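import Pool.Agent.Lib.MP_528ca9_co.B1

namespace MP528

open Set

theorem B6_inner (v p : E 4) :
    inner ℝ v p = v 0 * p 0 + v 1 * p 1 + v 2 * p 2 + v 3 * p 3 := by
  simp [PiLp.inner_apply, Fin.sum_univ_four]
  ring

/-- The arithmetic part. -/
theorem B6_arith (z s Y h c e g y : ℝ) (hz : 0 ≤ z) (hs : 2 ≤ s) (hzs : z * s ^ 3 < Y)
    (hh : 0 ≤ h) (hg : |g| < |c|) (hy : |y| ≤ Y)
    (hn : -(z * s ^ 3) + y + c * s ^ 2 + e * s = g)
    (h1 : g = h + c + e ∨ g = -(4 * Y) + c + e)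
    (h2 : g = h - c + e ∨ g = -(4 * Y) - c + e) : False := by
  have hY : 0 < Y := lt_of_le_of_lt (by positivity) hzs
  have hy1 := (abs_le.1 hy).1
  have hy2 := (abs_le.1 hy).2
  have hc0 : c ≠ 0 := by
    rintro rfl
    rw [abs_zero] at hg
    exact absurd (abs_nonneg g) (not_le.2 hg)
  rcases h1 with h1 | h1 <;> rcases h2 with h2 | h2
  · exact hc0 (by linarith)
  · have hc : c = -((4 * Y + h) / 2) := by linarith
    have he : e = g + (4 * Y - h) / 2 := by linarith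
    have hca : |c| = (4 * Y + h) / 2 := by
      rw [hc, abs_neg, abs_of_nonneg (by linarith)]
    rw [hca] at hg
    have hg2 := (abs_lt.1 hg).2
    have hyv : y = z * s ^ 3 + g * (1 - s) + (4 * Y + h) / 2 * s ^ 2 - (4 * Y - h) / 2 * s := by
      rw [hc, he] at hn
      linarith
    have hk : 0 ≤ ((4 * Y + h) / 2 - g) * (s - 1) :=
      mul_nonneg (by linarith) (by linarith)
    have hk2 : 0 ≤ z * s ^ 3 := by positivity
    have hk3 : 0 ≤ h * (s ^ 2 + 1) := by positivity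
    have hk4 : 0 ≤ Y * ((s - 1) ^ 2 - 1) := mul_nonneg hY.le (by nlinarith)
    nlinarith
  · have hc : c = (4 * Y + h) / 2 := by linarith
    have he : e = g + (4 * Y - h) / 2 := by linarith
    have hca : |c| = (4 * Y + h) / 2 := by
      rw [hc, abs_of_nonneg (by linarith)]
    rw [hca] at hg
    have hg1 := (abs_lt.1 hg).1
    have hyv : y = z * s ^ 3 + g * (1 - s) - (4 * Y + h) / 2 * s ^ 2 - (4 * Y - h) / 2 * s := by
      rw [hc, he] at hn
      linarith
    have hk : 0 ≤ ((4 * Y + h) / 2 + g) * (s - 1) :=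
      mul_nonneg (by linarith) (by linarith)
    have hk3 : 0 ≤ h * (s - 1) ^ 2 := by positivity
    have hk4 : 0 ≤ Y * s ^ 2 := by positivity
    nlinarith
  · exact hc0 (by linarith)

/-- A tangent polygon: two possible levels. -/
theorem B6_level (m n par t : ℕ) (hp : par < 2) (ht : t ≤ 2 * m) (w k f : ℝ)
    (hmet : ∃ p ∈ bD m n par, w * ((2 * (t : ℝ) + 1) * p.1 + p.2) + k = f)
    (htan : (∀ p ∈ bD m n par, w * ((2 * (t : ℝ) + 1) * p.1 + p.2) + k ≤ f) ∨
      (∀ p ∈ bD m n par, f ≤ w * ((2 * (t : ℝ) + 1) * p.1 + p.2) + k)) :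
    f = w * (t * (t + 1)) + k ∨ f = w * (-bL m n) + k := by
  obtain ⟨p, hpD, hpv⟩ := hmet
  have hle := bD_odd_le m n par t
  obtain ⟨q, hq, hqv⟩ := bD_odd_attain m n par t ht hp
  have hz : (0 : ℝ) ≤ 2 * (t : ℝ) + 1 := by positivity
  have hge := bD_min_le m n par (2 * (t : ℝ) + 1) hz
  have hd := bD_deep m n par
  have a1 := hle p hpD
  have a2 := hge p hpD
  rcases htan with h | h
  · have b1 := h q hq
    have b2 := h _ hd
    rw [hqv] at b1
    simp only [mul_zero, zero_add] at b2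
    rcases le_total 0 w with hw | hw
    · left
      have := mul_le_mul_of_nonneg_left a1 hw
      linarith
    · right
      have := mul_le_mul_of_nonpos_left a2 hw
      linarith
  · have b1 := h q hq
    have b2 := h _ hd
    rw [hqv] at b1
    simp only [mul_zero, zero_add] at b2
    rcases le_total 0 w with hw | hw
    · right
      have := mul_le_mul_of_nonneg_left a2 hw
      linarith
    · left
      have := mul_le_mul_of_nonpos_left a1 hw
      linarith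

/-- ROW B6. No hyperplane of the stratum `{1,2}` has `v 1 = 0` or slope `v 0 / v 1 = 2t+1`.
Proof. Use `mem_transv_hypOf`, `tangent_hypOf`, and
`inner ℝ v p = v 0 * p 0 + v 1 * p 1 + v 2 * p 2 + v 3 * p 3`.
(1) The needle with index 3 (`n ≥ 4`), `s = bs m 3`: it is met and not tangent. If `v 1 = 0` the
functional is constant on the needle, equal to `f` at some point, so the whole needle satisfies
`≤ f`: tangent, contradiction. So `v 1 ≠ 0`.
(2) Suppose `v 0 = z * v 1`, `z = 2t + 1`. Put `c = v 2 / v 1`, `e = v 3 / v 1`, `g = f / v 1`; all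
conditions can be rewritten for the functional `Λ p = z p0 + p1 + c p2 + e p3` and level `g`
(dividing by `v 1`, the two alternatives of tangency are exchanged if `v 1 < 0`).
Index 0 is met and not tangent: values `c ζ`, `|ζ| ≤ 1`, so `|g| < |c|` (met gives `|g| ≤ |c|`;
if `|g| = |c|` then all values are on one side of `g`, tangent). So `c ≠ 0`.
Index 1 is tangent: values `z x + y + c + e`, `(x,y) ∈ bD m n 0`, with maximum `h + c + e`,
`h = t (t+1)` (B1a, B1b) and minimum `-L + c + e` (B1g, B1h, `z ≥ 0`), so `g = h + c + e` or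
`g = -L + c + e`. Index 2 likewise: `g = h - c + e` or `g = -L - c + e`.
Case `g = h + c + e = h - c + e`: `c = 0`, contradiction. Case `g = -L + c + e = -L - c + e`: same.
The needle is met: there is `y`, `|y| ≤ Y`, with `-z s^3 + y + c s^2 + e s = g`.
Case `g = h + c + e = -L - c + e`: `c = -(L+h)/2`, `e = g + (L-h)/2`, so
`y = z s^3 + g (1-s) + (L/2) (s^2 - s) + (h/2) (s^2 + s) ≥ (L/2) (s-1)^2 > Y`
(using `|g| < (L+h)/2`, `h ≥ 0`, `s ≥ 23`, `L = 4 Y`), contradiction.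
Case `g = -L + c + e = h - c + e`: `c = (L+h)/2`, `e = g + (L-h)/2`, so
`y = z s^3 + g (1-s) - (L+h)/2 s^2 - (L-h)/2 s ≤ z s^3 - L (s^2+1)/2 - (h/2)(s-1)^2 < -Y`,
because `z s^3 ≤ s^4 < Y` (`z ≤ 4m+1 ≤ s`, `s = bT m + 3 ≤ bT m + n`) and
`L (s^2+1)/2 ≥ 2 Y`. Contradiction. -/
theorem bfam_avoid (m n t : ℕ) (hn : 4 ≤ n) (ht : t ≤ 2 * m) (v : E 4) (hv : v ≠ 0) (f : ℝ)
    (h : hypOf v hv f ∈ stratum (bfam m n) {i | i.1 = 1 ∨ i.1 = 2}) :
    v 1 ≠ 0 ∧ v 0 ≠ (2 * (t : ℝ) + 1) * v 1 := by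
  have hT := (mem_transv_hypOf (bfam m n) v hv f).1 h.1
  have hS := h.2
  have hY0 : 0 < bY m n := by unfold bY bT; positivity
  -- the segment
  have h0n : 0 < n := by omega
  have h1n : 1 < n := by omega
  have h2n : 2 < n := by omega
  have h3n : 3 < n := by omega
  have hA0 : bfam m n ⟨0, h0n⟩ = {p | p 0 = 0 ∧ p 1 = 0 ∧ |p 2| ≤ 1 ∧ p 3 = 0} := rfl
  have hA1 : bfam m n ⟨1, h1n⟩ = {p | (p 0, p 1) ∈ bD m n 0 ∧ p 2 = 1 ∧ p 3 = 1} := rfl
  have hA2 : bfam m n ⟨2, h2n⟩ = {p | (p 0, p 1) ∈ bD m n 1 ∧ p 2 = -1 ∧ p 3 = 1} := rfl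
  have hA3 : bfam m n ⟨3, h3n⟩ = {p | p 0 = -(bs m 3) ^ 3 ∧ |p 1| ≤ bY m n ∧
      p 2 = (bs m 3) ^ 2 ∧ p 3 = bs m 3} := rfl
  have t0 : ¬ Tangent (hypOf v hv f) (bfam m n ⟨0, h0n⟩) := fun hc => by
    have := (hS ⟨0, h0n⟩).1 hc
    simp at this
  have t1 : Tangent (hypOf v hv f) (bfam m n ⟨1, h1n⟩) := (hS ⟨1, h1n⟩).2 (Or.inl rfl)
  have t2 : Tangent (hypOf v hv f) (bfam m n ⟨2, h2n⟩) := (hS ⟨2, h2n⟩).2 (Or.inr rfl)
  have t3 : ¬ Tangent (hypOf v hv f) (bfam m n ⟨3, h3n⟩) := fun hc => by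
    have := (hS ⟨3, h3n⟩).1 hc
    simp at this
  rw [tangent_hypOf] at t0 t1 t2 t3
  obtain ⟨p3, hp3, hv3⟩ := hT ⟨3, h3n⟩
  have hv1 : v 1 ≠ 0 := by
    intro hv1
    refine t3 ⟨⟨p3, hp3, hv3⟩, Or.inl fun x hx => ?_⟩
    rw [hA3] at hp3 hx
    obtain ⟨a1, -, a3, a4⟩ := hp3
    obtain ⟨b1, -, b3, b4⟩ := hx
    rw [← hv3, B6_inner, B6_inner, hv1, a1, a3, a4, b1, b3, b4]
    simp
  refine ⟨hv1, fun hv0 => ?_⟩
  have hg : |f| < |v 2| := by
    obtain ⟨p0, hp0, hv0'⟩ := hT ⟨0, h0n⟩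
    have c1 : ¬ ∀ x ∈ bfam m n ⟨0, h0n⟩, inner ℝ v x ≤ f := fun hc =>
      t0 ⟨⟨p0, hp0, hv0'⟩, Or.inl hc⟩
    have c2 : ¬ ∀ x ∈ bfam m n ⟨0, h0n⟩, f ≤ inner ℝ v x := fun hc =>
      t0 ⟨⟨p0, hp0, hv0'⟩, Or.inr hc⟩
    push Not at c1 c2
    obtain ⟨x, hx, hxf⟩ := c1
    obtain ⟨x', hx', hxf'⟩ := c2
    rw [hA0] at hx hx'
    obtain ⟨a1, a2, a3, a4⟩ := hx
    obtain ⟨b1, b2, b3, b4⟩ := hx'
    rw [B6_inner, a1, a2, a4] at hxf
    rw [B6_inner, b1, b2, b4] at hxf'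
    simp only [mul_zero, zero_add, add_zero] at hxf hxf'
    have d1 : |v 2 * x 2| ≤ |v 2| := by
      rw [abs_mul]
      exact mul_le_of_le_one_right (abs_nonneg _) a3
    have d2 : |v 2 * x' 2| ≤ |v 2| := by
      rw [abs_mul]
      exact mul_le_of_le_one_right (abs_nonneg _) b3
    rw [abs_lt]
    exact ⟨by linarith [(abs_le.1 d2).1], by linarith [(abs_le.1 d1).2]⟩
  -- the polygons
  have l1 : f = v 1 * ((t : ℝ) * (t + 1)) + (v 2 + v 3) ∨
      f = v 1 * (-bL m n) + (v 2 + v 3) := by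
    obtain ⟨⟨p, hp, hpf⟩, halt⟩ := t1
    rw [hA1] at hp
    refine B6_level m n 0 t (by norm_num) ht (v 1) (v 2 + v 3) f ⟨_, hp.1, ?_⟩ ?_
    · rw [B6_inner, hp.2.1, hp.2.2, hv0] at hpf
      rw [← hpf]
      ring
    · have key : ∀ q ∈ bD m n 0, ∃ x ∈ bfam m n ⟨1, h1n⟩,
          inner ℝ v x = v 1 * ((2 * (t : ℝ) + 1) * q.1 + q.2) + (v 2 + v 3) := by
        intro q hq
        refine ⟨bv q.1 q.2 1 1, ?_, ?_⟩
        · rw [hA1]
          refine ⟨?_, ?_, ?_⟩
          · simpa [bv] using hq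
          · simp [bv]
          · simp [bv]
        · rw [B6_inner, hv0]
          simp [bv]
          ring
      rcases halt with ha | ha
      · left
        intro q hq
        obtain ⟨x, hx, hxv⟩ := key q hq
        rw [← hxv]
        exact ha x hx
      · right
        intro q hq
        obtain ⟨x, hx, hxv⟩ := key q hq
        rw [← hxv]
        exact ha x hx
  have l2 : f = v 1 * ((t : ℝ) * (t + 1)) + (-v 2 + v 3) ∨
      f = v 1 * (-bL m n) + (-v 2 + v 3) := by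
    obtain ⟨⟨p, hp, hpf⟩, halt⟩ := t2
    rw [hA2] at hp
    refine B6_level m n 1 t (by norm_num) ht (v 1) (-v 2 + v 3) f ⟨_, hp.1, ?_⟩ ?_
    · rw [B6_inner, hp.2.1, hp.2.2, hv0] at hpf
      rw [← hpf]
      ring
    · have key : ∀ q ∈ bD m n 1, ∃ x ∈ bfam m n ⟨2, h2n⟩,
          inner ℝ v x = v 1 * ((2 * (t : ℝ) + 1) * q.1 + q.2) + (-v 2 + v 3) := by
        intro q hq
        refine ⟨bv q.1 q.2 (-1) 1, ?_, ?_⟩
        · rw [hA2]
          refine ⟨?_, ?_, ?_⟩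
          · simpa [bv] using hq
          · simp [bv]
          · simp [bv]
        · rw [B6_inner, hv0]
          simp [bv]
          ring
      rcases halt with ha | ha
      · left
        intro q hq
        obtain ⟨x, hx, hxv⟩ := key q hq
        rw [← hxv]
        exact ha x hx
      · right
        intro q hq
        obtain ⟨x, hx, hxv⟩ := key q hq
        rw [← hxv]
        exact ha x hx
  -- the needle
  rw [hA3] at hp3
  obtain ⟨a1, a2, a3, a4⟩ := hp3
  rw [B6_inner, a1, a3, a4, hv0] at hv3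
  have hm0 : (0 : ℝ) ≤ m := Nat.cast_nonneg m
  have htm : (t : ℝ) ≤ 2 * m := by exact_mod_cast ht
  have ht0 : (0 : ℝ) ≤ t := Nat.cast_nonneg t
  have hn4 : (4 : ℝ) ≤ n := by exact_mod_cast hn
  have hs : bs m 3 = 20 * ((m : ℝ) + 1) + 3 := by simp [bs, bT]
  refine B6_arith (2 * (t : ℝ) + 1) (bs m 3) (bY m n) ((t : ℝ) * (t + 1)) (v 2 / v 1)
    (v 3 / v 1) (f / v 1) (p3 1) (by positivity) (by rw [hs]; linarith) ?_ (by positivity) ?_ a2
    ?_ ?_ ?_
  · have e1 : (2 * (t : ℝ) + 1) * bs m 3 ^ 3 ≤ bs m 3 ^ 4 := by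
      have hs0 : 0 ≤ bs m 3 := by rw [hs]; linarith
      have : (2 * (t : ℝ) + 1) ≤ bs m 3 := by rw [hs]; linarith
      calc (2 * (t : ℝ) + 1) * bs m 3 ^ 3 ≤ bs m 3 * bs m 3 ^ 3 :=
            mul_le_mul_of_nonneg_right this (by positivity)
        _ = bs m 3 ^ 4 := by ring
    have e2 : bs m 3 ^ 4 ≤ (bT m + n) ^ 4 := by
      refine pow_le_pow_left₀ (by rw [hs]; linarith) ?_ 4
      rw [hs]
      unfold bT
      linarith
    unfold bY
    linarith
  · rw [abs_div, abs_div]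
    exact div_lt_div_of_pos_right hg (abs_pos.2 hv1)
  · field_simp
    linarith
  · rcases l1 with l | l
    · left
      rw [l]
      field_simp
      ring
    · right
      rw [l, bL]
      field_simp
      ring
  · rcases l2 with l | l
    · left
      rw [l]
      field_simp
      ring
    · right
      rw [l, bL]
      field_simp
      ring

end MP528
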