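import Pool.Agent.Lib.MP_528ca9_co.BDefs

namespace MP528

open Set

theorem B7b_bT (m : ℕ) {s : ℝ} (h : bT m ≤ s) : 20 ≤ s := by
  have h1 : (0 : ℝ) ≤ m := Nat.cast_nonneg m
  have h2 : (20 : ℝ) ≤ bT m := by unfold bT; linarith
  linarith

/-- ROW B7e. One of `I, J, K` (a point `(x, z, w)` with `x ≥ 0`, `|z| ≤ 1`, `w ∈ {0,1}`) and three
needles. `F = -x - σ1 z + σ2 w - σ3` (`σ1, σ2, σ3` elementary symmetric in `s1,s2,s3`) vanishes at
the needles and is negative at the point, because `σ1 + σ2 < σ3` (all `s ≥ 20`). So `c0 = 0`. Then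
the three needles: Vandermonde (use `F` with roots `s2,s3` etc.: the combination
`(s - s2)(s - s3)` of the equations `ez, ew, e0` gives `c1 (s1-s2)(s1-s3) = 0`). -/
theorem b7e (m : ℕ) (s1 s2 s3 x z w c0 c1 c2 c3 : ℝ) (hs1 : bT m ≤ s1) (hs2 : bT m ≤ s2)
    (hs3 : bT m ≤ s3) (h12 : s1 ≠ s2) (h13 : s1 ≠ s3) (h23 : s2 ≠ s3) (hx : 0 ≤ x)
    (hz : |z| ≤ 1) (hw : w = 0 ∨ w = 1)
    (e0 : c0 + c1 + c2 + c3 = 0) (ex : c0 * x - c1 * s1 ^ 3 - c2 * s2 ^ 3 - c3 * s3 ^ 3 = 0)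
    (ez : c0 * z + c1 * s1 ^ 2 + c2 * s2 ^ 2 + c3 * s3 ^ 2 = 0)
    (ew : c0 * w + c1 * s1 + c2 * s2 + c3 * s3 = 0) :
    c0 = 0 ∧ c1 = 0 ∧ c2 = 0 ∧ c3 = 0 := by
  have g1 := B7b_bT m hs1
  have g2 := B7b_bT m hs2
  have g3 := B7b_bT m hs3
  have p1 : 0 ≤ s1 - 20 := by linarith
  have p2 : 0 ≤ s2 - 20 := by linarith
  have p3 : 0 ≤ s3 - 20 := by linarith
  have q12 : 0 ≤ s1 * s2 := by positivity
  have q13 : 0 ≤ s1 * s3 := by positivity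
  have q23 : 0 ≤ s2 * s3 := by positivity
  have r12 : 20 * (s1 * s2) ≤ s1 * s2 * s3 := by nlinarith
  have r13 : 20 * (s1 * s3) ≤ s1 * s2 * s3 := by nlinarith
  have r23 : 20 * (s2 * s3) ≤ s1 * s2 * s3 := by nlinarith
  have t1 : 20 * s1 ≤ s1 * s2 := by nlinarith
  have t2 : 20 * s2 ≤ s2 * s3 := by nlinarith
  have t3 : 20 * s3 ≤ s1 * s3 := by nlinarith
  have hF : c0 * (-x - (s1 + s2 + s3) * z + (s1 * s2 + s1 * s3 + s2 * s3) * w - s1 * s2 * s3) = 0 := by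
    linear_combination -ex - (s1 + s2 + s3) * ez + (s1 * s2 + s1 * s3 + s2 * s3) * ew
      - s1 * s2 * s3 * e0
  have hneg : -x - (s1 + s2 + s3) * z + (s1 * s2 + s1 * s3 + s2 * s3) * w - s1 * s2 * s3 < 0 := by
    have hz1 := (abs_le.mp hz).1
    have h1 : -((s1 + s2 + s3) * z) ≤ s1 + s2 + s3 := by nlinarith
    have h2 : (s1 * s2 + s1 * s3 + s2 * s3) * w ≤ s1 * s2 + s1 * s3 + s2 * s3 := by
      rcases hw with hw | hw
      · rw [hw]; linarith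
      · rw [hw]; linarith
    have h3 : 0 < s1 * s2 * s3 := by positivity
    linarith
  have hc0 : c0 = 0 := by
    rcases mul_eq_zero.mp hF with h | h
    · exact h
    · exact absurd h hneg.ne
  subst hc0
  have k1 : c1 * ((s1 - s2) * (s1 - s3)) = 0 := by
    linear_combination ez - (s2 + s3) * ew + s2 * s3 * e0
  have k2 : c2 * ((s2 - s1) * (s2 - s3)) = 0 := by
    linear_combination ez - (s1 + s3) * ew + s1 * s3 * e0
  have hc1 : c1 = 0 := by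
    rcases mul_eq_zero.mp k1 with h | h
    · exact h
    · exact absurd h (mul_ne_zero (sub_ne_zero.mpr h12) (sub_ne_zero.mpr h13))
  have hc2 : c2 = 0 := by
    rcases mul_eq_zero.mp k2 with h | h
    · exact h
    · exact absurd h (mul_ne_zero (sub_ne_zero.mpr h12.symm) (sub_ne_zero.mpr h23))
  refine ⟨rfl, hc1, hc2, ?_⟩
  rw [hc1, hc2] at e0
  linarith

/-- ROW B7f. Four needles: Vandermonde. -/
theorem b7f (s0 s1 s2 s3 c0 c1 c2 c3 : ℝ) (h01 : s0 ≠ s1) (h02 : s0 ≠ s2) (h03 : s0 ≠ s3)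
    (h12 : s1 ≠ s2) (h13 : s1 ≠ s3) (h23 : s2 ≠ s3)
    (e0 : c0 + c1 + c2 + c3 = 0)
    (ex : c0 * s0 ^ 3 + c1 * s1 ^ 3 + c2 * s2 ^ 3 + c3 * s3 ^ 3 = 0)
    (ez : c0 * s0 ^ 2 + c1 * s1 ^ 2 + c2 * s2 ^ 2 + c3 * s3 ^ 2 = 0)
    (ew : c0 * s0 + c1 * s1 + c2 * s2 + c3 * s3 = 0) :
    c0 = 0 ∧ c1 = 0 ∧ c2 = 0 ∧ c3 = 0 := by
  have k0 : c0 * ((s0 - s1) * (s0 - s2) * (s0 - s3)) = 0 := by
    linear_combination ex - (s1 + s2 + s3) * ez + (s1 * s2 + s1 * s3 + s2 * s3) * ew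
      - s1 * s2 * s3 * e0
  have k1 : c1 * ((s1 - s0) * (s1 - s2) * (s1 - s3)) = 0 := by
    linear_combination ex - (s0 + s2 + s3) * ez + (s0 * s2 + s0 * s3 + s2 * s3) * ew
      - s0 * s2 * s3 * e0
  have k2 : c2 * ((s2 - s0) * (s2 - s1) * (s2 - s3)) = 0 := by
    linear_combination ex - (s0 + s1 + s3) * ez + (s0 * s1 + s0 * s3 + s1 * s3) * ew
      - s0 * s1 * s3 * e0
  have hc0 : c0 = 0 := by
    rcases mul_eq_zero.mp k0 with h | h
    · exact h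
    · exact absurd h (mul_ne_zero (mul_ne_zero (sub_ne_zero.mpr h01) (sub_ne_zero.mpr h02))
        (sub_ne_zero.mpr h03))
  have hc1 : c1 = 0 := by
    rcases mul_eq_zero.mp k1 with h | h
    · exact h
    · exact absurd h (mul_ne_zero (mul_ne_zero (sub_ne_zero.mpr h01.symm) (sub_ne_zero.mpr h12))
        (sub_ne_zero.mpr h13))
  have hc2 : c2 = 0 := by
    rcases mul_eq_zero.mp k2 with h | h
    · exact h
    · exact absurd h (mul_ne_zero (mul_ne_zero (sub_ne_zero.mpr h02.symm)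
        (sub_ne_zero.mpr h12.symm)) (sub_ne_zero.mpr h23))
  refine ⟨hc0, hc1, hc2, ?_⟩
  rw [hc0, hc1, hc2] at e0
  linarith

end MP528
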