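import Pool.Agent.Lib.MP_528ca9_co.B1

namespace MP528

open Set

/-- two equations in two unknowns -/
theorem B7a_cramer (a b c d u v : ℝ) (h1 : u * a + v * b = 0) (h2 : u * c + v * d = 0)
    (hd : a * d - b * c < 0) : u = 0 ∧ v = 0 := by
  have hu : u * (a * d - b * c) = 0 := by linear_combination d * h1 - b * h2
  have hv : v * (a * d - b * c) = 0 := by linear_combination a * h2 - c * h1
  exact ⟨(mul_eq_zero.1 hu).resolve_right hd.ne, (mul_eq_zero.1 hv).resolve_right hd.ne⟩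

theorem B7a_est (m : ℕ) (s1 s2 : ℝ) (hs1 : bT m ≤ s1) (hs2 : bT m ≤ s2) :
    20 ≤ s1 ∧ 20 ≤ s2 ∧ 2 * (m : ℝ) + 1 ≤ s1 / 10 ∧ 2 * (m : ℝ) + 1 ≤ s2 / 10 ∧
      10 * (s1 + s2) ≤ s1 * s2 ∧ 0 ≤ (m : ℝ) := by
  have hm : (0 : ℝ) ≤ m := Nat.cast_nonneg m
  unfold bT at hs1 hs2
  have h1 : 20 ≤ s1 := by nlinarith
  have h2 : 20 ≤ s2 := by nlinarith
  refine ⟨h1, h2, by linarith, by linarith, ?_, hm⟩
  nlinarith [mul_nonneg (sub_nonneg.2 h1) (sub_nonneg.2 h2)]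

theorem B7a_last (s1 s2 c2 c3 : ℝ) (hne : s1 ≠ s2) (h1 : c2 + c3 = 0)
    (h2 : c2 * s1 + c3 * s2 = 0) : c2 = 0 ∧ c3 = 0 := by
  have h : c2 * (s1 - s2) = 0 := by linear_combination h2 - s2 * h1
  have h3 := (mul_eq_zero.1 h).resolve_right (sub_ne_zero.2 hne)
  exact ⟨h3, by linarith⟩

/-- ROW B7a. The members `I, J, K` and one needle: four equations (coordinates 0, 2, 3 and the sum).
Proof. `c0 = (s-1) c3` (first and last equation), `c1 + c2 = -s c3`,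
`c1 - c2 = -s^2 c3 - (s-1) ζ c3`. If `c3 ≠ 0`, divide by it:
`c1 x1 + c2 x2 = s^3` but `|c1|, |c2| ≤ (s^2 + 2 s)/2`, so `s^3 ≤ X (s^2 + 2s)` with `X = 2m+1`,
contradiction with `s ≥ 20 (m+1)`. So `c3 = 0`, then `c0 = 0`, `c1 + c2 = 0`, `c1 = c2`. -/
theorem b7a (m : ℕ) (s ζ x1 x2 c0 c1 c2 c3 : ℝ) (hs : bT m ≤ s) (hζ : |ζ| ≤ 1)
    (h1 : 0 ≤ x1 ∧ x1 ≤ 2 * (m : ℝ) + 1) (h2 : 0 ≤ x2 ∧ x2 ≤ 2 * (m : ℝ) + 1)
    (e0 : c0 + c1 + c2 + c3 = 0) (ex : c1 * x1 + c2 * x2 - c3 * s ^ 3 = 0)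
    (ez : c0 * ζ + c1 - c2 + c3 * s ^ 2 = 0) (ew : c1 + c2 + c3 * s = 0) :
    c0 = 0 ∧ c1 = 0 ∧ c2 = 0 ∧ c3 = 0 := by
  obtain ⟨hs20, -, hX, -, -, hm⟩ := B7a_est m s s hs hs
  obtain ⟨hz1, hz2⟩ := abs_le.1 hζ
  have k0 : c0 = (s - 1) * c3 := by linear_combination e0 - ew
  have k1 : c1 = (-s - s ^ 2 - (s - 1) * ζ) / 2 * c3 := by
    linear_combination ew / 2 + ez / 2 - ζ / 2 * (e0 - ew)
  have k2 : c2 = (-s + s ^ 2 + (s - 1) * ζ) / 2 * c3 := by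
    linear_combination ew / 2 - ez / 2 + ζ / 2 * (e0 - ew)
  have key : c3 * ((-s - s ^ 2 - (s - 1) * ζ) / 2 * x1 + (-s + s ^ 2 + (s - 1) * ζ) / 2 * x2
      - s ^ 3) = 0 := by
    rw [k1, k2] at ex
    linear_combination ex
  have hA : (-s - s ^ 2 - (s - 1) * ζ) / 2 * x1 ≤ 0 := by
    have : (-s - s ^ 2 - (s - 1) * ζ) / 2 ≤ 0 := by nlinarith
    exact mul_nonpos_of_nonpos_of_nonneg this h1.1
  have hB : (-s + s ^ 2 + (s - 1) * ζ) / 2 * x2 ≤ s ^ 2 / 2 * (s / 10) := by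
    have h3 : (-s + s ^ 2 + (s - 1) * ζ) / 2 ≤ s ^ 2 / 2 := by nlinarith
    have h4 : x2 ≤ s / 10 := h2.2.trans hX
    exact mul_le_mul h3 h4 h2.1 (by positivity)
  have hneg : (-s - s ^ 2 - (s - 1) * ζ) / 2 * x1 + (-s + s ^ 2 + (s - 1) * ζ) / 2 * x2
      - s ^ 3 < 0 := by
    have : 0 < s ^ 3 := by positivity
    nlinarith
  have h3 : c3 = 0 := (mul_eq_zero.1 key).resolve_right hneg.ne
  exact ⟨by rw [k0, h3, mul_zero], by rw [k1, h3, mul_zero], by rw [k2, h3, mul_zero], h3⟩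

/-- ROW B7b. `I, J`, two needles. Combine the equations with the coefficients of the polynomial
`(s-s1)(s-s2)(α s + β)`: `F = -α x + (β - α σ1) z + (α σ2 - β σ1) w + β σ2` vanishes at the needles
(`σ1 = s1 + s2`, `σ2 = s1 s2`), so `c0 (-σ1 ζ) + c1 (σ2 - σ1 - x) = 0` (α = 1, β = 0) and
`c0 (ζ + σ2) + c1 (1 - σ1 + σ2) = 0` (α = 0, β = 1). The determinant
`-σ1 ζ (1 - σ1 + σ2) - (σ2 - σ1 - x)(ζ + σ2)` is negative (`s1,s2 ≥ 20 (m+1)`, so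
`σ1 ≤ σ2 / 10`, `x ≤ σ2 / 10`). So `c0 = c1 = 0`, and then `c2 = c3 = 0` as `s1 ≠ s2`. -/
theorem b7b (m : ℕ) (s1 s2 ζ x c0 c1 c2 c3 : ℝ) (hs1 : bT m ≤ s1) (hs2 : bT m ≤ s2)
    (hne : s1 ≠ s2) (hζ : |ζ| ≤ 1) (h1 : 0 ≤ x ∧ x ≤ 2 * (m : ℝ) + 1)
    (e0 : c0 + c1 + c2 + c3 = 0) (ex : c1 * x - c2 * s1 ^ 3 - c3 * s2 ^ 3 = 0)
    (ez : c0 * ζ + c1 + c2 * s1 ^ 2 + c3 * s2 ^ 2 = 0) (ew : c1 + c2 * s1 + c3 * s2 = 0) :
    c0 = 0 ∧ c1 = 0 ∧ c2 = 0 ∧ c3 = 0 := by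
  obtain ⟨a1, a2, a3, a4, a5, hm⟩ := B7a_est m s1 s2 hs1 hs2
  obtain ⟨hz1, hz2⟩ := abs_le.1 hζ
  have hx : x ≤ s1 / 10 := h1.2.trans a3
  have hs12 : s1 ≤ s1 * s2 / 20 := by nlinarith
  have hσ : 400 ≤ s1 * s2 := by nlinarith
  obtain ⟨h5, h6⟩ := B7a_cramer (-(s1 + s2) * ζ) (s1 * s2 - (s1 + s2) - x)
    (ζ + s1 * s2) (1 - (s1 + s2) + s1 * s2) c0 c1
    (by linear_combination -ex - (s1 + s2) * ez + s1 * s2 * ew)
    (by linear_combination ez - (s1 + s2) * ew + s1 * s2 * e0) (by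
      set σ := s1 * s2
      set τ := s1 + s2
      have hτ : 0 ≤ τ := by simp only [τ]; linarith
      have b1 : -τ * ζ * (1 - τ + σ) ≤ σ / 10 * σ := by
        have c1 : -τ * ζ ≤ σ / 10 := by nlinarith
        have c2 : 1 - τ + σ ≤ σ := by simp only [τ]; linarith
        have c3 : 0 ≤ 1 - τ + σ := by linarith
        have c4 : 0 ≤ σ / 10 := by linarith
        nlinarith [mul_le_mul_of_nonneg_right c1 c3, mul_le_mul_of_nonneg_left c2 c4]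
      have b2 : 8 / 10 * σ * (σ - 1) ≤ (σ - τ - x) * (ζ + σ) := by
        have c1 : 8 / 10 * σ ≤ σ - τ - x := by linarith
        have c2 : σ - 1 ≤ ζ + σ := by linarith
        exact mul_le_mul c1 c2 (by linarith) (by linarith)
      nlinarith)
  subst h5 h6
  obtain ⟨h7, h8⟩ := B7a_last s1 s2 c2 c3 hne (by linarith) (by linarith)
  exact ⟨rfl, rfl, h7, h8⟩

/-- ROW B7c. `I, K`, two needles: as B7b with
`c0 (-σ1 ζ) + c1 (σ1 + σ2 - x) = 0`, `c0 (ζ + σ2) + c1 (σ2 - σ1 - 1) = 0`. -/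
theorem b7c (m : ℕ) (s1 s2 ζ x c0 c1 c2 c3 : ℝ) (hs1 : bT m ≤ s1) (hs2 : bT m ≤ s2)
    (hne : s1 ≠ s2) (hζ : |ζ| ≤ 1) (h1 : 0 ≤ x ∧ x ≤ 2 * (m : ℝ) + 1)
    (e0 : c0 + c1 + c2 + c3 = 0) (ex : c1 * x - c2 * s1 ^ 3 - c3 * s2 ^ 3 = 0)
    (ez : c0 * ζ - c1 + c2 * s1 ^ 2 + c3 * s2 ^ 2 = 0) (ew : c1 + c2 * s1 + c3 * s2 = 0) :
    c0 = 0 ∧ c1 = 0 ∧ c2 = 0 ∧ c3 = 0 := by
  obtain ⟨a1, a2, a3, a4, a5, hm⟩ := B7a_est m s1 s2 hs1 hs2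
  obtain ⟨hz1, hz2⟩ := abs_le.1 hζ
  have hx : x ≤ s1 / 10 := h1.2.trans a3
  have hs12 : s1 ≤ s1 * s2 / 20 := by nlinarith
  have hσ : 400 ≤ s1 * s2 := by nlinarith
  obtain ⟨h5, h6⟩ := B7a_cramer (-(s1 + s2) * ζ) (s1 * s2 + (s1 + s2) - x)
    (ζ + s1 * s2) (-1 - (s1 + s2) + s1 * s2) c0 c1
    (by linear_combination -ex - (s1 + s2) * ez + s1 * s2 * ew)
    (by linear_combination ez - (s1 + s2) * ew + s1 * s2 * e0) (by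
      set σ := s1 * s2
      set τ := s1 + s2
      have hτ : 0 ≤ τ := by simp only [τ]; linarith
      have b1 : -τ * ζ * (-1 - τ + σ) ≤ σ / 10 * σ := by
        have c1 : -τ * ζ ≤ σ / 10 := by nlinarith
        have c2 : -1 - τ + σ ≤ σ := by simp only [τ]; linarith
        have c3 : 0 ≤ -1 - τ + σ := by linarith
        have c4 : 0 ≤ σ / 10 := by linarith
        nlinarith [mul_le_mul_of_nonneg_right c1 c3, mul_le_mul_of_nonneg_left c2 c4]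
      have b2 : 8 / 10 * σ * (σ - 1) ≤ (σ + τ - x) * (ζ + σ) := by
        have c1 : 8 / 10 * σ ≤ σ + τ - x := by linarith
        have c2 : σ - 1 ≤ ζ + σ := by linarith
        exact mul_le_mul c1 c2 (by linarith) (by linarith)
      nlinarith)
  subst h5 h6
  obtain ⟨h7, h8⟩ := B7a_last s1 s2 c2 c3 hne (by linarith) (by linarith)
  exact ⟨rfl, rfl, h7, h8⟩

/-- ROW B7d. `J, K`, two needles: as B7b with
`c0 (σ2 - σ1 - x0) + c1 (σ1 + σ2 - x1) = 0`, `c0 (1 - σ1 + σ2) + c1 (σ2 - σ1 - 1) = 0`,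
determinant `(σ2-σ1-x0)(σ2-σ1-1) - (σ1+σ2-x1)(1-σ1+σ2) < 0`. -/
theorem b7d (m : ℕ) (s1 s2 x0 x1 c0 c1 c2 c3 : ℝ) (hs1 : bT m ≤ s1) (hs2 : bT m ≤ s2)
    (hne : s1 ≠ s2) (h0 : 0 ≤ x0 ∧ x0 ≤ 2 * (m : ℝ) + 1) (h1 : 0 ≤ x1 ∧ x1 ≤ 2 * (m : ℝ) + 1)
    (e0 : c0 + c1 + c2 + c3 = 0) (ex : c0 * x0 + c1 * x1 - c2 * s1 ^ 3 - c3 * s2 ^ 3 = 0)
    (ez : c0 - c1 + c2 * s1 ^ 2 + c3 * s2 ^ 2 = 0) (ew : c0 + c1 + c2 * s1 + c3 * s2 = 0) :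
    c0 = 0 ∧ c1 = 0 ∧ c2 = 0 ∧ c3 = 0 := by
  obtain ⟨a1, a2, a3, a4, a5, hm⟩ := B7a_est m s1 s2 hs1 hs2
  have hx0 : x0 ≤ s1 / 10 := h0.2.trans a3
  have hx1 : x1 ≤ s1 / 10 := h1.2.trans a3
  have hs12 : s1 ≤ s1 * s2 / 20 := by nlinarith
  have hσ : 400 ≤ s1 * s2 := by nlinarith
  obtain ⟨h5, h6⟩ := B7a_cramer (s1 * s2 - (s1 + s2) - x0) (s1 * s2 + (s1 + s2) - x1)
    (1 - (s1 + s2) + s1 * s2) (-1 - (s1 + s2) + s1 * s2) c0 c1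
    (by linear_combination -ex - (s1 + s2) * ez + s1 * s2 * ew)
    (by linear_combination ez - (s1 + s2) * ew + s1 * s2 * e0) (by
      have e : (s1 * s2 - (s1 + s2) - x0) * (-1 - (s1 + s2) + s1 * s2) -
          (s1 * s2 + (s1 + s2) - x1) * (1 - (s1 + s2) + s1 * s2) =
          -2 * (s1 + s2) * (s1 * s2 - (s1 + s2)) - 2 * (s1 * s2) +
            (x1 - x0) * (s1 * s2 - (s1 + s2)) + x0 + x1 := by ring
      rw [e]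
      have hP : 0 ≤ s1 * s2 - (s1 + s2) := by linarith
      have b1 : (x1 - x0) * (s1 * s2 - (s1 + s2)) ≤ (s1 + s2) * (s1 * s2 - (s1 + s2)) := by
        apply mul_le_mul_of_nonneg_right _ hP
        linarith [h0.1]
      nlinarith [mul_nonneg (by linarith : (0:ℝ) ≤ s1 + s2) hP])
  subst h5 h6
  obtain ⟨h7, h8⟩ := B7a_last s1 s2 c2 c3 hne (by linarith) (by linarith)
  exact ⟨rfl, rfl, h7, h8⟩

end MP528
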