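import Pool.Agent.Lib.MP_528ca9_co.Basic

namespace MP528

open Set

/-- ROW R08b. Converse of R08a, in terms of coefficients.
Proof. Let `S.card = d` and `L` a nonempty flat with `finrank L.direction = d - 2`, and suppose
every `A i`, `i ∈ S`, meets `L`: choose `p i ∈ L ∩ A i`. Fix `i0 ∈ S` (`d ≥ 2`). The `d - 1` vectors
`p i - p i0`, `i ∈ S.erase i0`, lie in `L.direction` of dimension `d - 2`, hence are linearly
dependent: there are `c i` (`i ∈ S.erase i0`), not all zero, with `∑ c i • (p i - p i0) = 0`.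
Put `c i0 = - ∑ c i`. Then `h` gives `c i = 0` for all `i`, contradiction. -/
theorem separated_of_coeff {d n : ℕ} (hd : 2 ≤ d) (A : Fin n → Set (E d))
    (h : ∀ S : Finset (Fin n), S.card = d → ∀ p : Fin n → E d, (∀ i ∈ S, p i ∈ A i) →
      ∀ c : Fin n → ℝ, ∑ i ∈ S, c i = 0 → ∑ i ∈ S, c i • p i = 0 → ∀ i ∈ S, c i = 0) :
    Separated A := by
  classical
  intro S hS L hL hdim
  by_contra hcon
  push Not at hcon
  obtain ⟨q, hq⟩ := hL
  have hp : ∀ i, ∃ x : E d, i ∈ S → x ∈ (L : Set (E d)) ∩ A i := by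
    intro i
    by_cases hi : i ∈ S
    · obtain ⟨x, hx⟩ := hcon i hi
      exact ⟨x, fun _ => hx⟩
    · exact ⟨q, fun h => absurd h hi⟩
  choose p hp using hp
  have hne : S.Nonempty := by
    rw [← Finset.card_pos]
    omega
  obtain ⟨i0, hi0⟩ := hne
  have hmem : ∀ i : {x // x ∈ S.erase i0}, p i - p i0 ∈ L.direction := by
    intro i
    have h1 := (hp i (Finset.mem_of_mem_erase i.2)).1
    have h2 := (hp i0 hi0).1
    exact AffineSubspace.vsub_mem_direction h1 h2
  let v : {x // x ∈ S.erase i0} → L.direction := fun i => ⟨p i - p i0, hmem i⟩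
  have hdep : ¬ LinearIndependent ℝ v := by
    intro hli
    have h1 := hli.fintype_card_le_finrank
    rw [hdim, Fintype.card_coe, Finset.card_erase_of_mem hi0, hS] at h1
    omega
  obtain ⟨g, hg, j, hj⟩ := Fintype.not_linearIndependent_iff.1 hdep
  have hg' : ∑ i : {x // x ∈ S.erase i0}, g i • (p i - p i0) = 0 := by
    have := congrArg (L.direction.subtype) hg
    simpa [v, map_sum] using this
  let e : Fin n → ℝ := fun i => if hi : i ∈ S.erase i0 then g ⟨i, hi⟩ else 0
  have he : ∀ i : {x // x ∈ S.erase i0}, e i = g i := by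
    intro i
    simp only [e, dif_pos i.2]
  have hsum : ∑ i ∈ S.erase i0, e i • (p i - p i0) = 0 := by
    rw [← Finset.sum_coe_sort (S.erase i0) (fun i => e i • (p i - p i0)), ← hg']
    exact Finset.sum_congr rfl fun i _ => by rw [he i]
  let c : Fin n → ℝ := fun i => if i = i0 then - ∑ k ∈ S.erase i0, e k else e i
  have hc0 : c i0 = - ∑ k ∈ S.erase i0, e k := by simp [c]
  have hc1 : ∀ i ∈ S.erase i0, c i = e i := by
    intro i hi
    simp only [c, if_neg (Finset.ne_of_mem_erase hi)]
  have hs1 : ∑ i ∈ S, c i = 0 := by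
    rw [← Finset.add_sum_erase S c hi0, hc0, Finset.sum_congr rfl hc1]
    ring
  have hs2 : ∑ i ∈ S, c i • p i = 0 := by
    rw [← Finset.add_sum_erase S (fun i => c i • p i) hi0, hc0]
    have h1 : ∑ i ∈ S.erase i0, c i • p i = ∑ i ∈ S.erase i0, e i • p i :=
      Finset.sum_congr rfl fun i hi => by rw [hc1 i hi]
    rw [h1]
    simp only [smul_sub, Finset.sum_sub_distrib] at hsum
    rw [neg_smul, Finset.sum_smul, neg_add_eq_sub]
    exact hsum
  have hz := h S hS p (fun i hi => (hp i hi).2) c hs1 hs2 j (Finset.mem_of_mem_erase j.2)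
  rw [hc1 j j.2, he j] at hz
  exact hj hz

end MP528
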