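import Pool.Agent.Lib.MP_528ca9_co.B7
import Pool.Agent.Lib.MP_528ca9_co.R08b

namespace MP528

open Set

theorem B8_case0 {m n : ℕ} {i : Fin n} {p : E 4} (hp : p ∈ bfam m n i) (hi : i.1 = 0) :
    p 0 = 0 ∧ |p 2| ≤ 1 ∧ p 3 = 0 := by
  unfold bfam at hp
  rw [if_pos hi] at hp
  exact ⟨hp.1, hp.2.2.1, hp.2.2.2⟩

theorem B8_case1 {m n : ℕ} {i : Fin n} {p : E 4} (hp : p ∈ bfam m n i) (hi : i.1 = 1) :
    (0 ≤ p 0 ∧ p 0 ≤ 2 * (m : ℝ) + 1) ∧ p 2 = 1 ∧ p 3 = 1 := by
  unfold bfam at hp
  rw [if_neg (by omega), if_pos hi] at hp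
  exact ⟨bD_x m n 0 _ hp.1, hp.2.1, hp.2.2⟩

theorem B8_case2 {m n : ℕ} {i : Fin n} {p : E 4} (hp : p ∈ bfam m n i) (hi : i.1 = 2) :
    (0 ≤ p 0 ∧ p 0 ≤ 2 * (m : ℝ) + 1) ∧ p 2 = -1 ∧ p 3 = 1 := by
  unfold bfam at hp
  rw [if_neg (by omega), if_neg (by omega), if_pos hi] at hp
  exact ⟨bD_x m n 1 _ hp.1, hp.2.1, hp.2.2⟩

theorem B8_case3 {m n : ℕ} {i : Fin n} {p : E 4} (hp : p ∈ bfam m n i) (hi : 3 ≤ i.1) :
    p 0 = -(bs m i.1) ^ 3 ∧ p 2 = (bs m i.1) ^ 2 ∧ p 3 = bs m i.1 := by
  unfold bfam at hp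
  rw [if_neg (by omega), if_neg (by omega), if_neg (by omega)] at hp
  exact ⟨hp.1, hp.2.2.1, hp.2.2.2⟩

theorem B8_bs_ge (m i : ℕ) : bT m ≤ bs m i := by
  unfold bs
  have : (0 : ℝ) ≤ i := Nat.cast_nonneg _
  linarith

theorem B8_bs_ne (m : ℕ) {i j : ℕ} (h : i < j) : bs m i ≠ bs m j := by
  unfold bs
  have : (i : ℝ) < j := by exact_mod_cast h
  intro e
  linarith

/-- ROW B8. The family is separated.
Proof. `separated_of_coeff` with `d = 4`. Given `S`, `S.card = 4`, points `p i ∈ bfam m n i` and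
coefficients `c`. The vector equation gives the coordinate equations for coordinates `0, 2, 3`.
Sort the four elements of `S` (`Finset.card_eq_succ`, or
`S.orderEmbOfFin`: `i0 < i1 < i2 < i3`; sums over `S` become sums over `Fin 4`). According to how
many of `i0, i1, i2` have value `< 3` (the values are then in `{0,1,2}`), apply `b7a`
(values 0,1,2), `b7b` (0,1), `b7c` (0,2), `b7d` (1,2), `b7e` (one), `b7f` (none). For `b7e` with
`I`: `x = 0, |z| ≤ 1, w = 0`; `J`: `z = 1, w = 1`; `K`: `z = -1, w = 1`. Use `bD_x` for the bounds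
on `x`, and `bs m i` is injective in `i` and `≥ bT m`. -/
theorem bfam_separated (m n : ℕ) : Separated (bfam m n) := by
  refine separated_of_coeff (d := 4) (by norm_num) _ ?_
  intro S hS p hp c hc hv
  have hco : ∀ j : Fin 4, ∑ i ∈ S, c i * p i j = 0 := by
    intro j
    have h := congrArg (fun v : E 4 => v j) hv
    simpa using h
  set e := S.orderEmbOfFin hS with he
  have hmem : ∀ k : Fin 4, e k ∈ S := fun k => Finset.orderEmbOfFin_mem S hS k
  have hsum : ∀ f : Fin n → ℝ, ∑ i ∈ S, f i = f (e 0) + f (e 1) + f (e 2) + f (e 3) := by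
    intro f
    have h1 : S = Finset.univ.map e.toEmbedding := by
      rw [he]
      exact (Finset.map_orderEmbOfFin_univ S hS).symm
    conv_lhs => rw [h1]
    rw [Finset.sum_map, Fin.sum_univ_four]
    rfl
  have key : c (e 0) = 0 ∧ c (e 1) = 0 ∧ c (e 2) = 0 ∧ c (e 3) = 0 := by
    have e0 := hc
    have ex := hco 0
    have ez := hco 2
    have ew := hco 3
    rw [hsum] at e0 ex ez ew
    have l01 : (e 0).1 < (e 1).1 := e.strictMono (by decide)
    have l12 : (e 1).1 < (e 2).1 := e.strictMono (by decide)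
    have l23 : (e 2).1 < (e 3).1 := e.strictMono (by decide)
    have p0 := hp _ (hmem 0)
    have p1 := hp _ (hmem 1)
    have p2 := hp _ (hmem 2)
    have p3 := hp _ (hmem 3)
    obtain ⟨x3, z3, w3⟩ := B8_case3 p3 (by omega)
    by_cases h2 : (e 2).1 < 3
    · obtain ⟨a1, a2, a3⟩ := B8_case0 p0 (by omega)
      obtain ⟨b1, b2, b3⟩ := B8_case1 p1 (by omega)
      obtain ⟨c1, c2, c3⟩ := B8_case2 p2 (by omega)
      refine b7a m (bs m (e 3).1) (p (e 0) 2) (p (e 1) 0) (p (e 2) 0) _ _ _ _ (B8_bs_ge _ _) a2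
        b1 c1 e0 ?_ ?_ ?_
      · rw [a1, x3] at ex
        linear_combination ex
      · rw [b2, c2, z3] at ez
        linear_combination ez
      · rw [a3, b3, c3, w3] at ew
        linear_combination ew
    · obtain ⟨x2, z2, w2⟩ := B8_case3 p2 (by omega)
      have n23 := B8_bs_ne m l23
      by_cases h1 : (e 1).1 < 3
      · by_cases h0 : (e 0).1 = 0
        · obtain ⟨a1, a2, a3⟩ := B8_case0 p0 h0
          by_cases h11 : (e 1).1 = 1
          · obtain ⟨b1, b2, b3⟩ := B8_case1 p1 h11
            refine b7b m (bs m (e 2).1) (bs m (e 3).1) (p (e 0) 2) (p (e 1) 0) _ _ _ _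
              (B8_bs_ge _ _) (B8_bs_ge _ _) n23 a2 b1 e0 ?_ ?_ ?_
            · rw [a1, x2, x3] at ex
              linear_combination ex
            · rw [b2, z2, z3] at ez
              linear_combination ez
            · rw [a3, b3, w2, w3] at ew
              linear_combination ew
          · obtain ⟨b1, b2, b3⟩ := B8_case2 p1 (by omega)
            refine b7c m (bs m (e 2).1) (bs m (e 3).1) (p (e 0) 2) (p (e 1) 0) _ _ _ _
              (B8_bs_ge _ _) (B8_bs_ge _ _) n23 a2 b1 e0 ?_ ?_ ?_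
            · rw [a1, x2, x3] at ex
              linear_combination ex
            · rw [b2, z2, z3] at ez
              linear_combination ez
            · rw [a3, b3, w2, w3] at ew
              linear_combination ew
        · obtain ⟨a1, a2, a3⟩ := B8_case1 p0 (by omega)
          obtain ⟨b1, b2, b3⟩ := B8_case2 p1 (by omega)
          refine b7d m (bs m (e 2).1) (bs m (e 3).1) (p (e 0) 0) (p (e 1) 0) _ _ _ _
            (B8_bs_ge _ _) (B8_bs_ge _ _) n23 a1 b1 e0 ?_ ?_ ?_
          · rw [x2, x3] at ex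
            linear_combination ex
          · rw [a2, b2, z2, z3] at ez
            linear_combination ez
          · rw [a3, b3, w2, w3] at ew
            linear_combination ew
      · obtain ⟨x1, z1, w1⟩ := B8_case3 p1 (by omega)
        have n12 := B8_bs_ne m l12
        have n13 := B8_bs_ne m (l12.trans l23)
        by_cases h0 : (e 0).1 < 3
        · have hgen : 0 ≤ p (e 0) 0 ∧ |p (e 0) 2| ≤ 1 ∧ (p (e 0) 3 = 0 ∨ p (e 0) 3 = 1) := by
            rcases Nat.lt_or_ge (e 0).1 1 with h | h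
            · obtain ⟨a1, a2, a3⟩ := B8_case0 p0 (by omega)
              exact ⟨a1.ge, a2, Or.inl a3⟩
            · rcases Nat.lt_or_ge (e 0).1 2 with h' | h'
              · obtain ⟨a1, a2, a3⟩ := B8_case1 p0 (by omega)
                exact ⟨a1.1, by rw [a2]; norm_num, Or.inr a3⟩
              · obtain ⟨a1, a2, a3⟩ := B8_case2 p0 (by omega)
                exact ⟨a1.1, by rw [a2]; norm_num, Or.inr a3⟩
          refine b7e m (bs m (e 1).1) (bs m (e 2).1) (bs m (e 3).1) (p (e 0) 0) (p (e 0) 2)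
            (p (e 0) 3) _ _ _ _ (B8_bs_ge _ _) (B8_bs_ge _ _) (B8_bs_ge _ _) n12 n13 n23
            hgen.1 hgen.2.1 hgen.2.2 e0 ?_ ?_ ?_
          · rw [x1, x2, x3] at ex
            linear_combination ex
          · rw [z1, z2, z3] at ez
            linear_combination ez
          · rw [w1, w2, w3] at ew
            linear_combination ew
        · obtain ⟨x0, z0, w0⟩ := B8_case3 p0 (by omega)
          have n01 := B8_bs_ne m l01
          have n02 := B8_bs_ne m (l01.trans l12)
          have n03 := B8_bs_ne m (l01.trans (l12.trans l23))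
          refine b7f (bs m (e 0).1) (bs m (e 1).1) (bs m (e 2).1) (bs m (e 3).1) _ _ _ _
            n01 n02 n03 n12 n13 n23 e0 ?_ ?_ ?_
          · rw [x0, x1, x2, x3] at ex
            linear_combination -ex
          · rw [z0, z1, z2, z3] at ez
            linear_combination ez
          · rw [w0, w1, w2, w3] at ew
            linear_combination ew
  intro i hi
  have h1 : i ∈ Set.range e := by
    rw [he, Finset.range_orderEmbOfFin]
    exact hi
  obtain ⟨k, rfl⟩ := h1
  fin_cases k
  · exact key.1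
  · exact key.2.1
  · exact key.2.2.1
  · exact key.2.2.2

end MP528
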