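import Pool.Agent.Lib.MP_528ca9_co.B4
import Pool.Agent.Lib.MP_528ca9_co.B5
import Pool.Agent.Lib.MP_528ca9_co.B6
import Pool.Agent.Lib.MP_528ca9_co.B8

namespace MP528

open Set

/-- ROW B9a. A continuous function on `Hyp 4` with value `u 1 (u 0 - z u 1)` (by `even_descends`);
rewriting for `hypOf v hv f` the value is `v 1 (v 0 - z v 1) / ‖v‖^2`. -/
theorem b_phi (z : ℝ) : ∃ φ : Hyp 4 → ℝ, Continuous φ ∧ ∀ (v : E 4) (hv : v ≠ 0) (f : ℝ),
    φ (hypOf v hv f) = v 1 * (v 0 - z * v 1) / ‖v‖ ^ 2 := by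
  obtain ⟨φ, hφ, h⟩ := even_descends (d := 4) (fun u _ => u 1 * (u 0 - z * u 1))
    (by fun_prop)
    (by
      intro u t
      simp only [PiLp.neg_apply]
      ring)
  refine ⟨φ, hφ, fun v hv f => ?_⟩
  rw [hypOf_eq_mkHyp, h]
  simp only [PiLp.smul_apply, smul_eq_mul]
  have hn : ‖v‖ ≠ 0 := norm_ne_zero_iff.mpr hv
  field_simp

/-- ROW B9b. `bH t` and `bH t'` (`1 ≤ t < t' ≤ 2m`) lie in different components.
Proof. If the components agree, both lie in the preconnected set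
`C = connectedComponentIn (stratum ..) (bH t) ⊆ stratum ..`. Take `φ` from `b_phi (2t+1)`.
`φ (bH t) = (2t - (2t+1))/‖v‖^2 < 0`, `φ (bH t') = (2t' - 2t - 1)/‖v‖^2 > 0`, so by
`IsPreconnected.intermediate_value` there is `H ∈ C` with `φ H = 0`. Write `H = hypOf v hv f`
(`hypOf_surj`): `v 1 (v 0 - (2t+1) v 1) = 0`, contradicting `bfam_avoid`. -/
theorem bH_comp_ne (m n t t' : ℕ) (hn : 4 ≤ n) (ht1 : 1 ≤ t) (htt : t < t') (ht' : t' ≤ 2 * m) :
    connectedComponentIn (stratum (bfam m n) {i | i.1 = 1 ∨ i.1 = 2}) (bH t) ≠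
      connectedComponentIn (stratum (bfam m n) {i | i.1 = 1 ∨ i.1 = 2}) (bH t') := by
  intro heq
  obtain ⟨φ, hφ, hval⟩ := b_phi (2 * (t : ℝ) + 1)
  have hm1 := bH_mem m n t ht1 (by omega)
  have hm2 := bH_mem m n t' (by omega) ht'
  have hc1 := mem_connectedComponentIn hm1
  have hc2 := mem_connectedComponentIn hm2
  rw [← heq] at hc2
  have h1 : φ (bH t) < 0 := by
    unfold bH
    rw [hval]
    have hpos : (0 : ℝ) < ‖bv (2 * t) 1 (bc t) (1 / 2 - (t : ℝ) ^ 2)‖ ^ 2 :=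
      pow_pos (norm_pos_iff.mpr (bv_ne_zero _ _ _)) 2
    refine div_neg_of_neg_of_pos ?_ hpos
    simp [bv]
  have h2 : 0 < φ (bH t') := by
    unfold bH
    rw [hval]
    have hpos : (0 : ℝ) < ‖bv (2 * t') 1 (bc t') (1 / 2 - (t' : ℝ) ^ 2)‖ ^ 2 :=
      pow_pos (norm_pos_iff.mpr (bv_ne_zero _ _ _)) 2
    refine div_pos ?_ hpos
    have htt' : (t : ℝ) + 1 ≤ t' := by exact_mod_cast htt
    simp [bv]
    linarith
  obtain ⟨H, hH, hH0⟩ := isPreconnected_connectedComponentIn.intermediate_value hc1 hc2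
    hφ.continuousOn (show (0 : ℝ) ∈ Set.Icc _ _ from ⟨h1.le, h2.le⟩)
  have hHs := connectedComponentIn_subset _ _ hH
  obtain ⟨v, hv, f, -, rfl⟩ := hypOf_surj H
  rw [hval] at hH0
  obtain ⟨ha, hb⟩ := bfam_avoid m n t hn (by omega) v hv f hHs
  have hpos : ‖v‖ ^ 2 ≠ 0 := pow_ne_zero 2 (norm_ne_zero_iff.mpr hv)
  rw [div_eq_zero_iff] at hH0
  rcases hH0 with h | h
  · rcases mul_eq_zero.1 h with h | h
    · exact ha h
    · exact hb (sub_eq_zero.1 h)
  · exact hpos h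

/-- ROW B9c. Proof: `m = M`; the map `t ↦ connectedComponentIn .. (bH (t+1))` on `Fin (2m)` is
injective with values in `Faces`, so `encard ≥ 2 m ≥ M`. -/
theorem counterexample (n M : ℕ) (hn : 4 ≤ n) :
    ∃ A : Fin n → Set (E 4), (∀ i, (A i).Nonempty ∧ IsCompact (A i) ∧ Convex ℝ (A i)) ∧
      Separated A ∧ (M : ℕ∞) ≤ (Faces A).encard := by
  refine ⟨bfam M n, fun i => ⟨bfam_nonempty M n i, bfam_compact M n i, bfam_convex M n i⟩,
    bfam_separated M n, ?_⟩
  set g : Fin M → Set (Hyp 4) := fun t =>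
    connectedComponentIn (stratum (bfam M n) {i | i.1 = 1 ∨ i.1 = 2}) (bH (t.1 + 1)) with hg
  have hinj : Function.Injective g := by
    intro a b hab
    by_contra hne
    have h : a.1 ≠ b.1 := fun h => hne (Fin.ext h)
    have ha := a.2
    have hb := b.2
    rcases lt_or_gt_of_ne h with h | h
    · exact bH_comp_ne M n (a.1 + 1) (b.1 + 1) hn (by omega) (by omega) (by omega) hab
    · exact bH_comp_ne M n (b.1 + 1) (a.1 + 1) hn (by omega) (by omega) (by omega) hab.symm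
  have hsub : Set.range g ⊆ Faces (bfam M n) := by
    rintro _ ⟨t, rfl⟩
    have ht := t.2
    exact ⟨_, bH (t.1 + 1), bH_mem M n (t.1 + 1) (by omega) (by omega), rfl⟩
  refine le_trans ?_ (Set.encard_le_encard hsub)
  rw [← Set.image_univ, hinj.encard_image, Set.encard_univ]
  simp

end MP528
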