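import Pool.Agent.Lib.MP_528ca9_co.Basic

/-!
The counterexample family in `ℝ^4` for convex sets which are not strictly convex.
Coordinates `p 0, p 1, p 2, p 3` are called `x, y, z, w`.
-/

namespace MP528

open Set

/-- lower bound of the needle parameters -/
noncomputable def bT (m : ℕ) : ℝ := 20 * ((m : ℝ) + 1)

/-- needle parameter of index `i` -/
noncomputable def bs (m i : ℕ) : ℝ := bT m + i

/-- needle half length -/
noncomputable def bY (m n : ℕ) : ℝ := (bT m + n) ^ 4 + 1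

/-- depth -/
noncomputable def bL (m n : ℕ) : ℝ := 4 * bY m n

/-- planar polygon: hull of the points `(x,-x^2)`, `x ≤ 2m+1` of parity `par`, and a deep point -/
def bD (m n par : ℕ) : Set (ℝ × ℝ) :=
  convexHull ℝ ({p | ∃ x : ℕ, x ≤ 2 * m + 1 ∧ x % 2 = par ∧ p = ((x : ℝ), -(x : ℝ) ^ 2)} ∪
    {((0 : ℝ), -bL m n)})

/-- the family: a segment, two polygons, and needles -/
def bfam (m n : ℕ) : Fin n → Set (E 4) := fun i =>
  if i.1 = 0 then {p | p 0 = 0 ∧ p 1 = 0 ∧ |p 2| ≤ 1 ∧ p 3 = 0}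
  else if i.1 = 1 then {p | (p 0, p 1) ∈ bD m n 0 ∧ p 2 = 1 ∧ p 3 = 1}
  else if i.1 = 2 then {p | (p 0, p 1) ∈ bD m n 1 ∧ p 2 = -1 ∧ p 3 = 1}
  else {p | p 0 = -(bs m i.1) ^ 3 ∧ |p 1| ≤ bY m n ∧ p 2 = (bs m i.1) ^ 2 ∧ p 3 = bs m i.1}

/-- the normal vector with coordinates `a,b,c,e` -/
def bv (a b c e : ℝ) : E 4 := !₂[a, b, c, e]

theorem bv_inner (a b c e : ℝ) (p : E 4) :
    inner ℝ (bv a b c e) p = a * p 0 + b * p 1 + c * p 2 + e * p 3 := by
  simp [bv, PiLp.inner_apply, Fin.sum_univ_four]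
  ring

end MP528
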