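import Pool.Agent.Lib.MP_528ca9_co.Defs

/-!
Basic facts on hyperplanes.
-/

namespace MP528

open Set

/-- ROW R01. Two unit representations of the same hyperplane agree up to sign.
Proof. `x0 = t • u` satisfies `⟪u,x0⟫ = t`, so it lies in both. For every `y` with `⟪u,y⟫ = 0`
the point `x0 + y` lies in the first set, hence in the second, so `⟪u',y⟫ = 0`. Hence `u'` lies in
`(span u)ᗮᗮ = span u` (or: apply this to `y = u' - ⟪u,u'⟫ • u`, getting `⟪u',y⟫ = 0` and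
`⟪u,y⟫ = 0`, so `‖y‖^2 = 0`). So `u' = c • u` with `|c| = 1`, and `t' = ⟪u',x0⟫ = c * t`. -/
theorem hyp_eq {d : ℕ} {u u' : E d} {t t' : ℝ} (hu : ‖u‖ = 1) (hu' : ‖u'‖ = 1)
    (h : hyp u t = hyp u' t') : (u' = u ∧ t' = t) ∨ (u' = -u ∧ t' = -t) := by
  have huu : (inner ℝ u u : ℝ) = 1 := by
    rw [real_inner_self_eq_norm_sq, hu]
    norm_num
  have hx0 : t • u ∈ hyp u t := by
    show (inner ℝ u (t • u) : ℝ) = t
    rw [real_inner_smul_right, huu, mul_one]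
  have hx0' : (inner ℝ u' (t • u) : ℝ) = t' := by
    rw [h] at hx0
    exact hx0
  have key : ∀ y : E d, (inner ℝ u y : ℝ) = 0 → (inner ℝ u' y : ℝ) = 0 := by
    intro y hy
    have h1 : t • u + y ∈ hyp u t := by
      show (inner ℝ u (t • u + y) : ℝ) = t
      rw [inner_add_right, real_inner_smul_right, huu, hy]
      ring
    rw [h] at h1
    have h2 : (inner ℝ u' (t • u + y) : ℝ) = t' := h1
    rw [inner_add_right, hx0'] at h2
    linarith
  obtain ⟨c, hc⟩ : ∃ c : ℝ, c = inner ℝ u u' := ⟨_, rfl⟩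
  have hy1 : (inner ℝ u (u' - c • u) : ℝ) = 0 := by
    rw [inner_sub_right, real_inner_smul_right, huu, ← hc]
    ring
  have hy2 := key _ hy1
  have hy3 : (inner ℝ (u' - c • u) (u' - c • u) : ℝ) = 0 := by
    rw [inner_sub_left, hy2, real_inner_smul_left, hy1]
    ring
  have hy4 : u' - c • u = 0 := inner_self_eq_zero.1 hy3
  have hu2 : u' = c • u := sub_eq_zero.1 hy4
  have habs : |c| = 1 := by
    have := hu'
    rw [hu2, norm_smul, hu, mul_one, Real.norm_eq_abs] at this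
    exact this
  have ht : t' = c * t := by
    rw [← hx0', hu2, real_inner_smul_left, real_inner_smul_right, huu]
    ring
  rcases eq_or_eq_neg_of_abs_eq habs with h1 | h1
  · left
    rw [h1] at hu2 ht
    exact ⟨by rw [hu2, one_smul], by rw [ht, one_mul]⟩
  · right
    rw [h1] at hu2 ht
    exact ⟨by rw [hu2, neg_smul, one_smul], by rw [ht, neg_one_mul]⟩

/-- The hyperplane of an arbitrary nonzero normal vector. -/
def hypOf {d : ℕ} (v : E d) (hv : v ≠ 0) (f : ℝ) : Hyp d :=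
  ⟨{x | inner ℝ v x = f}, (‖v‖⁻¹ : ℝ) • v, ‖v‖⁻¹ * f, by
    rw [norm_smul, norm_inv, norm_norm, inv_mul_cancel₀ (norm_ne_zero_iff.mpr hv)], by
    ext x
    simp only [hyp, mem_setOf_eq, inner_smul_left]
    have : ‖v‖⁻¹ ≠ 0 := inv_ne_zero (norm_ne_zero_iff.mpr hv)
    simp [this]⟩

/-- ROW R02. Proof: by definition of `Hyp`. -/
theorem hypOf_surj {d : ℕ} (H : Hyp d) :
    ∃ (v : E d) (hv : v ≠ 0) (f : ℝ), ‖v‖ = 1 ∧ H = hypOf v hv f := by
  obtain ⟨S, u, t, hu, hS⟩ := H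
  refine ⟨u, fun h0 => ?_, t, hu, Subtype.ext hS⟩
  rw [h0, norm_zero] at hu
  exact zero_ne_one hu

/-- ROW R03. `hypOf` in terms of `mkHyp`. -/
theorem hypOf_eq_mkHyp {d : ℕ} (v : E d) (hv : v ≠ 0) (f : ℝ) :
    hypOf v hv f = mkHyp (⟨(‖v‖⁻¹ : ℝ) • v, by
      simp [norm_smul, inv_mul_cancel₀ (norm_ne_zero_iff.mpr hv)]⟩, ‖v‖⁻¹ * f) := by
  apply Subtype.ext
  show {x : E d | (inner ℝ v x : ℝ) = f} = hyp ((‖v‖⁻¹ : ℝ) • v) (‖v‖⁻¹ * f)
  ext x
  have : ‖v‖⁻¹ ≠ 0 := inv_ne_zero (norm_ne_zero_iff.mpr hv)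
  simp only [hyp, Set.mem_ofPred_eq, real_inner_smul_left]
  constructor
  · intro h
    rw [h]
  · intro h
    exact mul_left_cancel₀ this h

theorem Basic_hyp_neg {d : ℕ} (u : E d) (t : ℝ) : hyp (-u) (-t) = hyp u t := by
  ext x
  simp only [hyp, Set.mem_ofPred_eq, inner_neg_left, neg_inj]

theorem Basic_hypOf_val {d : ℕ} (v : E d) (hv : v ≠ 0) (f : ℝ) :
    (hypOf v hv f).1 = hyp ((‖v‖⁻¹ : ℝ) • v) (‖v‖⁻¹ * f) := by
  rw [hypOf_eq_mkHyp]
  rfl

theorem Basic_norm {d : ℕ} (v : E d) (hv : v ≠ 0) : ‖(‖v‖⁻¹ : ℝ) • v‖ = 1 := by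
  simp [norm_smul, inv_mul_cancel₀ (norm_ne_zero_iff.mpr hv)]

/-- ROW R04. Tangency in terms of an arbitrary equation.
Proof. If `H = hyp u t`, `‖u‖ = 1` and `H = {⟪v,x⟫ = f}` then by `hyp_eq` (applied to `u,t` and
`v/‖v‖, f/‖v‖`) `v = ‖v‖ • u, f = ‖v‖ t` or `v = -‖v‖ • u, f = -‖v‖ t`, and the inequality
`⟪u,x⟫ ≤ t` becomes the first or the second alternative. Conversely choose `u = ± v/‖v‖`. -/
theorem tangent_hypOf {d : ℕ} (v : E d) (hv : v ≠ 0) (f : ℝ) (a : Set (E d)) :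
    Tangent (hypOf v hv f) a ↔ (∃ x ∈ a, inner ℝ v x = f) ∧
      ((∀ x ∈ a, inner ℝ v x ≤ f) ∨ (∀ x ∈ a, f ≤ inner ℝ v x)) := by
  have hpos : 0 < ‖v‖⁻¹ := inv_pos.2 (norm_pos_iff.2 hv)
  constructor
  · rintro ⟨⟨x, hxH, hxa⟩, u, t, hu, hH, hle⟩
    refine ⟨⟨x, hxa, hxH⟩, ?_⟩
    rw [Basic_hypOf_val] at hH
    rcases hyp_eq hu (Basic_norm v hv) hH.symm with ⟨h1, h2⟩ | ⟨h1, h2⟩
    · left
      intro y hy
      have h3 := hle y hy
      rw [← h1, ← h2, real_inner_smul_left] at h3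
      exact le_of_mul_le_mul_left h3 hpos
    · right
      intro y hy
      have h3 := hle y hy
      have h4 : u = -((‖v‖⁻¹ : ℝ) • v) := by rw [h1, neg_neg]
      have h5 : t = -(‖v‖⁻¹ * f) := by rw [h2, neg_neg]
      rw [h4, h5, inner_neg_left, real_inner_smul_left, neg_le_neg_iff] at h3
      exact le_of_mul_le_mul_left h3 hpos
  · rintro ⟨⟨x, hxa, hxf⟩, h | h⟩
    · refine ⟨⟨x, hxf, hxa⟩, (‖v‖⁻¹ : ℝ) • v, ‖v‖⁻¹ * f, Basic_norm v hv,
        Basic_hypOf_val v hv f, ?_⟩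
      intro y hy
      rw [real_inner_smul_left]
      exact mul_le_mul_of_nonneg_left (h y hy) hpos.le
    · refine ⟨⟨x, hxf, hxa⟩, -((‖v‖⁻¹ : ℝ) • v), -(‖v‖⁻¹ * f), by
        rw [norm_neg, Basic_norm v hv], by
        rw [Basic_hyp_neg, Basic_hypOf_val v hv f], ?_⟩
      intro y hy
      rw [inner_neg_left, real_inner_smul_left, neg_le_neg_iff]
      exact mul_le_mul_of_nonneg_left (h y hy) hpos.le

/-- ROW R05. Continuity of the parametrisation by nonzero normals (composition of `mkHyp`, which is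
continuous by `continuous_coinduced_rng`, with a continuous map into `sphere × ℝ`). -/
theorem continuous_hypOf {d : ℕ} :
    Continuous (fun p : {v : E d // v ≠ 0} × ℝ => hypOf p.1.1 p.1.2 p.2) := by
  have h1 : (fun p : {v : E d // v ≠ 0} × ℝ => hypOf p.1.1 p.1.2 p.2) =
      mkHyp ∘ (fun p : {v : E d // v ≠ 0} × ℝ =>
        ((⟨(‖p.1.1‖⁻¹ : ℝ) • p.1.1, by
          simp [norm_smul, inv_mul_cancel₀ (norm_ne_zero_iff.mpr p.1.2)]⟩ :
          Metric.sphere (0 : E d) 1), ‖p.1.1‖⁻¹ * p.2)) := by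
    funext p
    exact hypOf_eq_mkHyp p.1.1 p.1.2 p.2
  rw [h1]
  have hm : Continuous (mkHyp (d := d)) := continuous_coinduced_rng
  refine hm.comp ?_
  have hn : Continuous (fun p : {v : E d // v ≠ 0} × ℝ => (‖p.1.1‖⁻¹ : ℝ)) :=
    Continuous.inv₀ (continuous_norm.comp (continuous_subtype_val.comp continuous_fst))
      (fun p => norm_ne_zero_iff.mpr p.1.2)
  refine Continuous.prodMk ?_ (hn.mul continuous_snd)
  exact Continuous.subtype_mk (hn.smul (continuous_subtype_val.comp continuous_fst)) _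

/-- ROW R06. A continuous even function on `sphere × ℝ` descends to a continuous function on `Hyp`.
Proof: define `φ H = f p` for a chosen `p` with `mkHyp p = H`; well defined by `hyp_eq`;
continuous by `continuous_coinduced_dom`. -/
theorem even_descends {d : ℕ} (f : E d → ℝ → ℝ)
    (hf : Continuous (fun p : Metric.sphere (0 : E d) 1 × ℝ => f p.1.1 p.2))
    (he : ∀ u t, f (-u) (-t) = f u t) :
    ∃ φ : Hyp d → ℝ, Continuous φ ∧
      ∀ p : Metric.sphere (0 : E d) 1 × ℝ, φ (mkHyp p) = f p.1.1 p.2 := by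
  classical
  have hfu : ∀ (u u' : E d) (t t' : ℝ), ‖u‖ = 1 → ‖u'‖ = 1 → hyp u t = hyp u' t' →
      f u' t' = f u t := by
    intro u u' t t' hu hu' h
    rcases hyp_eq hu hu' h with ⟨h2, h3⟩ | ⟨h2, h3⟩
    · rw [h2, h3]
    · rw [h2, h3, he]
  have hval : ∀ H : Hyp d, ∀ p : Metric.sphere (0 : E d) 1 × ℝ, mkHyp p = H →
      f H.2.choose H.2.choose_spec.choose = f p.1.1 p.2 := by
    intro H p hp
    have hs := H.2.choose_spec.choose_spec
    have hpn : ‖p.1.1‖ = 1 := by simp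
    have h1 : hyp p.1.1 p.2 = hyp H.2.choose H.2.choose_spec.choose := by
      rw [← hs.2, ← hp]
      rfl
    exact hfu _ _ _ _ hpn hs.1 h1
  refine ⟨fun H => f H.2.choose H.2.choose_spec.choose, ?_, fun p => hval _ p rfl⟩
  refine continuous_coinduced_dom.2 ?_
  have h2 : ((fun H : Hyp d => f H.2.choose H.2.choose_spec.choose) ∘ mkHyp) =
      fun p : Metric.sphere (0 : E d) 1 × ℝ => f p.1.1 p.2 := by
    funext p
    exact hval _ p rfl
  rw [h2]
  exact hf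

/-- ROW R07. `Transv` for `hypOf`. -/
theorem mem_transv_hypOf {d n : ℕ} (A : Fin n → Set (E d)) (v : E d) (hv : v ≠ 0) (f : ℝ) :
    hypOf v hv f ∈ Transv A ↔ ∀ i, ∃ x ∈ A i, inner ℝ v x = f := by
  constructor
  · intro h i
    obtain ⟨x, hx1, hx2⟩ := h i
    exact ⟨x, hx2, hx1⟩
  · intro h i
    obtain ⟨x, hx1, hx2⟩ := h i
    exact ⟨x, hx2, hx1⟩

end MP528
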