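import Pool.Agent.Lib.MP_528ca9_co.CB2

namespace MP528

open Finset

variable {V : Type*} [NormedAddCommGroup V] [InnerProductSpace ℝ V] [FiniteDimensional ℝ V] {n d : ℕ}
  {K : Fin n → Set V} {Om : Set V}

/-- the limit direction -/
theorem C1_dir (h : CF K Om d) (s : Finset (Fin n × Bool)) (w : V) (hw : w ∈ TT K)
    (hc : w ∈ closure (Str K s)) (hs : s ⊆ lab K w) (hne : w ∉ Str K s) :
    ∃ δ : V, δ ≠ 0 ∧ inner ℝ w δ = 0 ∧ (∀ i ∈ s, inner ℝ (ct K i w) δ = 0) ∧
      ∀ i ∈ lab K w, 0 ≤ inner ℝ (ct K i w) δ := by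
  have hw0 : w ≠ 0 := hw.1
  have hlab : ∀ i ∈ lab K w, gg K i w = 0 := by
    intro i hi
    simpa [lab] using hi
  have : (nhdsWithin w (Str K s)).NeBot := mem_closure_iff_nhdsWithin_neBot.1 hc
  set f : Ultrafilter V := Ultrafilter.of (nhdsWithin w (Str K s)) with hf
  have hfle : (f : Filter V) ≤ nhdsWithin w (Str K s) := Ultrafilter.of_le _
  have hid : Filter.Tendsto (fun l : V => l) f (nhds w) := hfle.trans inf_le_left
  have hmem : ∀ᶠ l in (f : Filter V), l ∈ Str K s :=
    hfle self_mem_nhdsWithin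
  have hinn : Filter.Tendsto (fun l : V => (inner ℝ l w : ℝ)) f (nhds (inner ℝ w w)) :=
    hid.inner tendsto_const_nhds
  have hww : (0 : ℝ) < inner ℝ w w := real_inner_self_pos.2 hw0
  have hpos : ∀ᶠ l in (f : Filter V), (0 : ℝ) < inner ℝ l w := hinn.eventually_const_lt hww
  set c : V → ℝ := fun l => inner ℝ w w / inner ℝ l w with hcdef
  have hct : Filter.Tendsto c f (nhds 1) := by
    have := (tendsto_const_nhds (x := (inner ℝ w w : ℝ)) (f := (f : Filter V))).div hinn hww.ne'
    rwa [div_self hww.ne'] at this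
  set m : V → V := fun l => c l • l with hmdef
  have hmt : Filter.Tendsto m f (nhds w) := by
    have := hct.smul hid
    rwa [one_smul] at this
  have hcpos : ∀ᶠ l in (f : Filter V), 0 < c l := by
    filter_upwards [hpos] with l hl
    exact div_pos hww hl
  have hmS : ∀ᶠ l in (f : Filter V), m l ∈ Str K s := by
    filter_upwards [hmem, hcpos] with l h1 h2
    exact Str_smul h s l h1 _ h2
  have hmo : ∀ᶠ l in (f : Filter V), inner ℝ w (m l - w) = (0 : ℝ) := by
    filter_upwards [hpos] with l hl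
    have : (inner ℝ w l : ℝ) ≠ 0 := by rw [real_inner_comm]; exact hl.ne'
    rw [inner_sub_right, hmdef]
    simp only [inner_smul_right, hcdef]
    rw [real_inner_comm w l]
    field_simp
    ring
  have hmne : ∀ᶠ l in (f : Filter V), m l ≠ w := by
    filter_upwards [hmS] with l hl heq
    exact hne (heq ▸ hl)
  set D : V → V := fun l => ‖m l - w‖⁻¹ • (m l - w) with hD
  have hDs : ∀ᶠ l in (f : Filter V), D l ∈ Metric.sphere (0 : V) 1 := by
    filter_upwards [hmne] with l hl
    have : ‖m l - w‖ ≠ 0 := norm_ne_zero_iff.2 (sub_ne_zero.2 hl)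
    simp [hD, norm_smul, this]
  obtain ⟨δ, hδ1, hδ2⟩ := (isCompact_sphere (0 : V) 1).ultrafilter_le_nhds (f.map D) (by
    rw [Filter.le_principal_iff]
    exact hDs)
  have hDt : Filter.Tendsto D f (nhds δ) := hδ2
  have hδn : ‖δ‖ = 1 := by simpa using hδ1
  have hge : ∀ i ∈ lab K w, 0 ≤ inner ℝ (ct K i w) δ := by
    intro i hi
    have h1 : Filter.Tendsto (fun l => ct K i (m l)) f (nhds (ct K i w)) :=
      (ct_cont h i w (h.omT w hw)).tendsto.comp hmt
    have h2 : Filter.Tendsto (fun l => (inner ℝ (ct K i (m l)) (D l) : ℝ)) f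
        (nhds (inner ℝ (ct K i w) δ)) := h1.inner hDt
    refine ge_of_tendsto h2 ?_
    filter_upwards [hmS] with l hl
    simp only [hD, inner_smul_right]
    refine mul_nonneg (inv_nonneg.2 (norm_nonneg _)) ?_
    rw [inner_sub_right, ct_inner h]
    have h3 := inner_le_gg h i w _ (ct_mem h i (m l))
    rw [hlab i hi] at h3
    have h4 := hl.1.2 i
    linarith
  refine ⟨δ, fun h0 => by rw [h0, norm_zero] at hδn; exact zero_ne_one hδn, ?_, ?_, hge⟩
  · have h2 : Filter.Tendsto (fun l => (inner ℝ w (D l) : ℝ)) f (nhds (inner ℝ w δ)) :=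
      tendsto_const_nhds.inner hDt
    refine tendsto_nhds_unique_of_eventuallyEq h2 (tendsto_const_nhds (x := (0 : ℝ))) ?_
    filter_upwards [hmo] with l hl
    simp only [hD, inner_smul_right, hl, mul_zero]
  · intro i hi
    refine le_antisymm ?_ (hge i (hs hi))
    have h2 : Filter.Tendsto (fun l => (inner ℝ (ct K i w) (D l) : ℝ)) f
        (nhds (inner ℝ (ct K i w) δ)) := tendsto_const_nhds.inner hDt
    refine le_of_tendsto h2 ?_
    filter_upwards [hmS] with l hl
    simp only [hD, inner_smul_right]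
    refine mul_nonpos_of_nonneg_of_nonpos (inv_nonneg.2 (norm_nonneg _)) ?_
    rw [inner_sub_right, ct_inner h, hlab i (hs hi)]
    have h3 := inner_le_gg h i (m l) _ (ct_mem h i w)
    have h4 : gg K i (m l) = 0 := by
      have : i ∈ lab K (m l) := by rw [hl.2]; exact hi
      simpa [lab] using this
    linarith

/-- dimension count -/
theorem C1_card (h : CF K Om d) (w : V) (hw : w ∈ TT K) (δ : V) (hδ : δ ≠ 0)
    (ho : inner ℝ w δ = 0) (A : Finset (Fin n × Bool)) (hA : A ⊆ lab K w)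
    (hAo : ∀ i ∈ A, inner ℝ (ct K i w) δ = 0) : A.card < d := by
  by_contra hcon
  push Not at hcon
  obtain ⟨B, hBA, hB⟩ := Finset.exists_subset_card_eq hcon
  have hlab : ∀ i ∈ lab K w, gg K i w = 0 := by
    intro i hi
    simpa [lab] using hi
  have hli := KK_sep h B hB.le (fun i hi i' hi' he =>
    lab_inj h w hw.1 i i' (hA (hBA hi)) (hA (hBA hi')) he) (fun i => ct K i w)
    (fun i _ => ct_mem h i w)
  have h1 : Module.finrank ℝ (Submodule.span ℝ (Set.range fun i : B => ct K (i : Fin n × Bool) w))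
      = d := by
    rw [finrank_span_eq_card hli, Fintype.card_coe, hB]
  have h2li : LinearIndependent ℝ ![w, δ] := by
    rw [LinearIndependent.pair_iff]
    intro a b hab
    have e1 : (inner ℝ (a • w + b • δ) w : ℝ) = 0 := by rw [hab, inner_zero_left]
    have e2 : (inner ℝ (a • w + b • δ) δ : ℝ) = 0 := by rw [hab, inner_zero_left]
    rw [inner_add_left, inner_smul_left, inner_smul_left, real_inner_comm w δ, ho] at e1
    rw [inner_add_left, inner_smul_left, inner_smul_left, ho] at e2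
    simp only [conj_trivial, mul_zero, add_zero, zero_add, mul_eq_zero, inner_self_eq_zero] at e1 e2
    exact ⟨e1.resolve_right hw.1, e2.resolve_right hδ⟩
  have h2 : Module.finrank ℝ (Submodule.span ℝ (Set.range ![w, δ])) = 2 := by
    rw [finrank_span_eq_card h2li]
    rfl
  have h3 := (Submodule.span ℝ (Set.range ![w, δ])).finrank_add_finrank_orthogonal
  have hle : Submodule.span ℝ (Set.range fun i : B => ct K (i : Fin n × Bool) w) ≤
      (Submodule.span ℝ (Set.range ![w, δ]))ᗮ := by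
    rw [Submodule.span_le]
    rintro _ ⟨i, rfl⟩
    rw [SetLike.mem_coe, Submodule.mem_orthogonal]
    intro u hu
    have hi := hBA i.2
    refine Submodule.span_induction (p := fun u _ => (inner ℝ u (ct K (i : Fin n × Bool) w) : ℝ) = 0)
      ?_ ?_ ?_ ?_ hu
    · rintro _ ⟨k, rfl⟩
      fin_cases k
      · simp only [Fin.zero_eta, Matrix.cons_val_zero]
        rw [real_inner_comm, ct_inner h, hlab _ (hA hi)]
      · simp only [Fin.mk_one, Matrix.cons_val_one, Matrix.cons_val_fin_one]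
        rw [real_inner_comm, hAo _ hi]
    · exact inner_zero_left _
    · intro x y _ _ hx hy
      rw [inner_add_left, hx, hy, add_zero]
    · intro a x _ hx
      rw [inner_smul_left, hx, mul_zero]
  have h4 := Submodule.finrank_mono hle
  have h5 := h.dim
  omega

/-- independent vectors: prescribed inner products -/
theorem C1_dual {A : Finset (Fin n × Bool)} {y : Fin n × Bool → V}
    (hli : LinearIndependent ℝ (fun i : A => y i)) (a : Fin n × Bool → ℝ) :
    ∃ δ : V, ∀ i ∈ A, inner ℝ (y i) δ = a i := by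
  set b := Module.Basis.span hli with hb
  set f0 : Submodule.span ℝ (Set.range fun i : A => y i) →ₗ[ℝ] ℝ :=
    b.constr ℝ (fun i : A => a i) with hf0
  obtain ⟨g, hg⟩ := LinearMap.exists_extend f0
  refine ⟨(InnerProductSpace.toDual ℝ V).symm (LinearMap.toContinuousLinearMap g), ?_⟩
  intro i hi
  rw [real_inner_comm, InnerProductSpace.toDual_symm_apply]
  have h1 : (b ⟨i, hi⟩ : V) = y i := by
    rw [hb, Module.Basis.span_apply]
  have h2 : g (b ⟨i, hi⟩ : V) = f0 (b ⟨i, hi⟩) := by
    rw [← hg]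
    rfl
  rw [← h1]
  change g _ = _
  rw [h2, hf0, Module.Basis.constr_basis]

/-- ROW C1. (paper L1) Limits of a stratum.
Proof. `s ⊆ lab K w` by `lab_of_closure`. If `s = lab K w` take `δ = 0`. Assume `s ≠ lab K w`, so
`w ∉ Str K s`. Choose `l_k ∈ Str K s`, `l_k → w` (`w ∈ closure`). `⟪l_k, w⟫ → ‖w‖^2 > 0`; replace `l_k` by
`(‖w‖^2 / ⟪l_k,w⟫) • l_k` (still in `Str K s` by `Str_smul`, still `→ w`), so `⟪l_k - w, w⟫ = 0`;
`l_k ≠ w`. Put `δ_k = (l_k - w)/‖l_k - w‖`, a unit vector orthogonal to `w`; pass to a subsequence with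
`δ_k → δs` (compact sphere), `‖δs‖ = 1`, `⟪δs, w⟫ = 0`. Let `y_i = ct K i w`, `y_i^k = ct K i l_k → y_i`
(`ct_cont`, `w ∈ TT ⊆ Om`). For `i ∈ lab K w`: `⟪y_i^k, l_k - w⟫ = gg i l_k - ⟪y_i^k, w⟫ ≥ gg i l_k ≥ 0`
because `⟪y_i^k, w⟫ ≤ gg i w = 0`. So `⟪y_i, δs⟫ ≥ 0`. For `i ∈ s`: `⟪y_i, l_k - w⟫ = ⟪y_i,l_k⟫ ≤
gg i l_k = 0`, so `⟪y_i, δs⟫ ≤ 0`, hence `= 0`. Let `J = {i ∈ lab K w \ s | ⟪y_i, δs⟫ = 0}`. All
`y_i`, `i ∈ s ∪ J`, are orthogonal to `w` and to `δs` (`⟪y_i,w⟫ = gg i w = 0`); `w, δs` are independent,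
so the `y_i`, `i ∈ s ∪ J`, span at most `d + 1 - 2 = d - 1` dimensions. If `|s ∪ J| ≥ d`, `d` of them are
independent by `KK_sep` (labels have distinct first components, `lab_inj`), contradiction. So
`|s ∪ J| ≤ d - 1`, in particular `s.card < d`, and the `y_i`, `i ∈ s ∪ J`, are independent: there is
`δ'` with `⟪y_i, δ'⟫ = 0` for `i ∈ s` and `= 1` for `i ∈ J` (independent functionals). For small
`t > 0` the vector `δ = δs + t • δ'` works: for `i ∈ lab \ (s ∪ J)`, `⟪y_i, δs⟫ > 0` (finitely many). -/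
theorem L1 (h : CF K Om d) (s : Finset (Fin n × Bool)) (w : V) (hw : w ∈ TT K)
    (hc : w ∈ closure (Str K s)) :
    s ⊆ lab K w ∧ (s ≠ lab K w → s.card < d) ∧
      ∃ δ : V, (∀ i ∈ s, inner ℝ (ct K i w) δ = 0) ∧
        ∀ i ∈ lab K w, i ∉ s → 0 < inner ℝ (ct K i w) δ := by
  have hsub := lab_of_closure h s w hc
  refine ⟨hsub, ?_⟩
  by_cases hEq : s = lab K w
  · refine ⟨fun hh => absurd hEq hh, 0, fun i _ => inner_zero_right _, fun i hi his => ?_⟩
    rw [← hEq] at hi
    exact absurd hi his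
  have hne : w ∉ Str K s := fun hh => hEq hh.2.symm
  obtain ⟨δs, hδ0, hδw, hδs, hδl⟩ := C1_dir h s w hw hc hsub hne
  classical
  set J : Finset (Fin n × Bool) :=
    (lab K w).filter (fun i => i ∉ s ∧ inner ℝ (ct K i w) δs = 0) with hJ
  have hA : s ∪ J ⊆ lab K w := Finset.union_subset hsub (Finset.filter_subset _ _)
  have hAo : ∀ i ∈ s ∪ J, inner ℝ (ct K i w) δs = 0 := by
    intro i hi
    rcases Finset.mem_union.1 hi with hi | hi
    · exact hδs i hi
    · exact (Finset.mem_filter.1 hi).2.2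
  have hcard := C1_card h w hw δs hδ0 hδw (s ∪ J) hA hAo
  have hscard : s.card < d := lt_of_le_of_lt (Finset.card_le_card Finset.subset_union_left) hcard
  refine ⟨fun _ => hscard, ?_⟩
  have hli := KK_sep h (s ∪ J) hcard.le (fun i hi i' hi' he =>
    lab_inj h w hw.1 i i' (hA hi) (hA hi') he) (fun i => ct K i w) (fun i _ => ct_mem h i w)
  obtain ⟨δ', hδ'⟩ := C1_dual (A := s ∪ J) (y := fun i => ct K i w) hli
    (fun i => if i ∈ s then 0 else 1)
  have hev : ∀ᶠ t in nhdsWithin (0 : ℝ) (Set.Ioi 0), ∀ i ∈ lab K w, i ∉ s →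
      0 < inner ℝ (ct K i w) δs + t * inner ℝ (ct K i w) δ' := by
    rw [Filter.eventually_all_finset]
    intro i hi
    by_cases his : i ∈ s
    · exact Filter.Eventually.of_forall fun t hh => absurd his hh
    by_cases hiJ : inner ℝ (ct K i w) δs = (0 : ℝ)
    · have hiA : i ∈ s ∪ J := Finset.mem_union_right _ (Finset.mem_filter.2 ⟨hi, his, hiJ⟩)
      have h1 := hδ' i hiA
      rw [if_neg his] at h1
      filter_upwards [self_mem_nhdsWithin] with t ht _
      rw [hiJ, h1]
      simpa using ht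
    · have hp : (0 : ℝ) < inner ℝ (ct K i w) δs := lt_of_le_of_ne (hδl i hi) (Ne.symm hiJ)
      have hcont : Filter.Tendsto
          (fun t : ℝ => (inner ℝ (ct K i w) δs : ℝ) + t * inner ℝ (ct K i w) δ')
          (nhdsWithin (0 : ℝ) (Set.Ioi 0)) (nhds (inner ℝ (ct K i w) δs)) := by
        have : Continuous
            (fun t : ℝ => (inner ℝ (ct K i w) δs : ℝ) + t * inner ℝ (ct K i w) δ') := by
          fun_prop
        have h0 := (this.tendsto 0).mono_left
          (nhdsWithin_le_nhds (s := Set.Ioi (0 : ℝ)))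
        simpa using h0
      filter_upwards [hcont.eventually_const_lt hp] with t ht _
      exact ht
  obtain ⟨t, ht⟩ := hev.exists
  refine ⟨δs + t • δ', ?_, ?_⟩
  · intro i hi
    have h1 := hδ' i (Finset.mem_union_left _ hi)
    rw [if_pos hi] at h1
    rw [inner_add_right, inner_smul_right, hδs i hi, h1]
    simp
  · intro i hi his
    rw [inner_add_right, inner_smul_right]
    exact ht i hi his

end MP528
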