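import Pool.Agent.Lib.MP_528ca9_co.CB2

namespace MP528

open Finset

variable {V : Type*} [NormedAddCommGroup V] [InnerProductSpace ℝ V] [FiniteDimensional ℝ V] {n d : ℕ}
  {K : Fin n → Set V} {Om : Set V}

/-- the abstract connecting argument -/
theorem C2_abs {N : Type*} [NormedAddCommGroup N] [NormedSpace ℝ N] {ι : Type*} (J : Finset ι)
    (f : ι → N → ℝ) (f' : ι → N →L[ℝ] ℝ) (hs : ∀ j ∈ J, HasStrictFDerivAt (f j) (f' j) 0)
    (h0 : ∀ j ∈ J, f j 0 = 0) (δ : N) (hδ : ∀ j ∈ J, 0 < f' j δ) {W : Set N}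
    (hW : W ∈ nhds (0 : N)) :
    ∃ W' ∈ nhds (0 : N), ∀ z₁ ∈ W', ∀ z₂ ∈ W', (∀ j ∈ J, 0 < f j z₁) → (∀ j ∈ J, 0 < f j z₂) →
      ∃ C : Set N, IsPreconnected C ∧ z₁ ∈ C ∧ z₂ ∈ C ∧ C ⊆ W ∧ ∀ z ∈ C, ∀ j ∈ J, 0 < f j z := by
  -- the radius of strict differentiability
  have h1 : ∀ᶠ p : N × N in nhds (0, 0), ∀ j ∈ J,
      |f j p.1 - f j p.2 - f' j (p.1 - p.2)| ≤ f' j δ / (2 * (‖δ‖ + 1)) * ‖p.1 - p.2‖ := by
    rw [Filter.eventually_all_finset]
    intro j hj
    have h2 := (hs j hj).isLittleO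
    have hpos : 0 < f' j δ / (2 * (‖δ‖ + 1)) := div_pos (hδ j hj) (by positivity)
    exact h2.def hpos
  rw [Metric.eventually_nhds_iff_ball] at h1
  obtain ⟨r₁, hr₁, h1⟩ := h1
  obtain ⟨r₂, hr₂, hW⟩ := Metric.mem_nhds_iff.1 hW
  set r := min r₁ r₂ with hr
  have hr0 : 0 < r := lt_min hr₁ hr₂
  set R := r / (2 * (1 + ‖δ‖)) with hR
  have hδ0 : 0 ≤ ‖δ‖ := norm_nonneg δ
  have hR0 : 0 < R := by positivity
  have hRr : R * (1 + ‖δ‖) < r := by
    have : R * (1 + ‖δ‖) = r / 2 := by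
      rw [hR]
      field_simp
    linarith
  have hRr' : R < r := by nlinarith
  -- points in the small box
  have hbox : ∀ z : N, ‖z‖ < R → ∀ u : ℝ, 0 ≤ u → u ≤ R → ‖z + u • δ‖ < r := by
    intro z hz u hu0 hu
    have e1 : ‖z + u • δ‖ ≤ ‖z‖ + u * ‖δ‖ := by
      have := norm_add_le z (u • δ)
      rwa [norm_smul, Real.norm_of_nonneg hu0] at this
    nlinarith
  have hmono : ∀ z : N, ‖z‖ < R → ∀ u : ℝ, 0 ≤ u → u ≤ R → ∀ j ∈ J,
      f j z + f' j δ / 2 * u ≤ f j (z + u • δ) := by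
    intro z hz u hu0 hu j hj
    have h2 := h1 (z + u • δ, z) (by
      rw [mem_ball_iff_norm, Prod.mk_sub_mk, sub_zero, sub_zero]
      exact max_lt ((hbox z hz u hu0 hu).trans_le (min_le_left _ _))
        (hz.trans (hRr'.trans_le (min_le_left _ _)))) j hj
    have e1 : z + u • δ - z = u • δ := by abel
    simp only [e1, map_smul, smul_eq_mul, norm_smul, Real.norm_of_nonneg hu0] at h2
    have h3 := (abs_le.1 h2).1
    have hD := hδ j hj
    have h4 : f' j δ / (2 * (‖δ‖ + 1)) * (u * ‖δ‖) ≤ f' j δ / 2 * u := by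
      have e2 : f' j δ / (2 * (‖δ‖ + 1)) * (u * ‖δ‖) = f' j δ / 2 * u * (‖δ‖ / (‖δ‖ + 1)) := by
        field_simp
      rw [e2]
      have e3 : ‖δ‖ / (‖δ‖ + 1) ≤ 1 := (div_le_one (by positivity)).2 (by linarith)
      have e4 : 0 ≤ f' j δ / 2 * u := by positivity
      nlinarith
    linarith
  -- the small ball
  have h5 : ∀ᶠ z : N in nhds 0, ∀ j ∈ J, |f j z| < f' j δ / 2 * R := by
    rw [Filter.eventually_all_finset]
    intro j hj
    have h6 : Filter.Tendsto (fun z => |f j z|) (nhds 0) (nhds |f j 0|) :=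
      ((hs j hj).continuousAt).abs
    rw [h0 j hj, abs_zero] at h6
    exact h6.eventually_lt_const (mul_pos (half_pos (hδ j hj)) hR0)
  rw [Metric.eventually_nhds_iff_ball] at h5
  obtain ⟨r₃, hr₃, h5⟩ := h5
  set R' := min R r₃ with hR'
  have hR'0 : 0 < R' := lt_min hR0 hr₃
  refine ⟨Metric.ball 0 R', Metric.ball_mem_nhds _ hR'0, ?_⟩
  intro z₁ hz₁ z₂ hz₂ hp₁ hp₂
  have hball : ∀ z ∈ Metric.ball (0 : N) R', ‖z‖ < R ∧ ∀ j ∈ J, |f j z| < f' j δ / 2 * R := by
    intro z hz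
    refine ⟨?_, h5 z (Metric.ball_subset_ball (min_le_right _ _) hz)⟩
    have := Metric.ball_subset_ball (min_le_left R r₃) hz
    rwa [mem_ball_zero_iff] at this
  have hcont : ∀ z : N, Continuous fun u : ℝ => z + u • δ := fun z => by fun_prop
  have hC : ∀ z : N, IsPreconnected ((fun u : ℝ => z + u • δ) '' Set.Icc 0 R) := fun z =>
    isPreconnected_Icc.image _ (hcont z).continuousOn
  have hseg : IsPreconnected ((fun z : N => z + R • δ) '' segment ℝ z₁ z₂) :=
    (convex_segment z₁ z₂).isPreconnected.image _ (by fun_prop)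
  have hsegball : segment ℝ z₁ z₂ ⊆ Metric.ball 0 R' :=
    (convex_ball (0 : N) R').segment_subset hz₁ hz₂
  have m1 : ∀ z : N, z + R • δ ∈ (fun u : ℝ => z + u • δ) '' Set.Icc 0 R := fun z =>
    ⟨R, ⟨hR0.le, le_rfl⟩, rfl⟩
  have m0 : ∀ z : N, z ∈ (fun u : ℝ => z + u • δ) '' Set.Icc 0 R := fun z =>
    ⟨0, ⟨le_rfl, hR0.le⟩, by simp⟩
  have hWball : ∀ z : N, ‖z‖ < r → z ∈ W := fun z hz => hW (by
    rw [mem_ball_zero_iff]
    exact hz.trans_le (min_le_right _ _))
  refine ⟨((fun u : ℝ => z₁ + u • δ) '' Set.Icc 0 R ∪ (fun z : N => z + R • δ) '' segment ℝ z₁ z₂) ∪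
    (fun u : ℝ => z₂ + u • δ) '' Set.Icc 0 R, ?_, Or.inl (Or.inl (m0 z₁)), Or.inr (m0 z₂), ?_, ?_⟩
  · refine IsPreconnected.union (z₂ + R • δ) (Or.inr ⟨z₂, right_mem_segment ℝ z₁ z₂, rfl⟩) (m1 z₂)
      (IsPreconnected.union (z₁ + R • δ) (m1 z₁) ⟨z₁, left_mem_segment ℝ z₁ z₂, rfl⟩ (hC z₁) hseg)
      (hC z₂)
  · rintro _ ((⟨u, hu, rfl⟩ | ⟨z, hz, rfl⟩) | ⟨u, hu, rfl⟩)
    · exact hWball _ (hbox z₁ (hball z₁ hz₁).1 u hu.1 hu.2)
    · exact hWball _ (hbox z (hball z (hsegball hz)).1 R hR0.le le_rfl)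
    · exact hWball _ (hbox z₂ (hball z₂ hz₂).1 u hu.1 hu.2)
  · rintro _ ((⟨u, hu, rfl⟩ | ⟨z, hz, rfl⟩) | ⟨u, hu, rfl⟩) j hj
    · have e1 := hmono z₁ (hball z₁ hz₁).1 u hu.1 hu.2 j hj
      have e2 := hp₁ j hj
      have e3 : 0 ≤ f' j δ / 2 * u := mul_nonneg (half_pos (hδ j hj)).le hu.1
      dsimp only
      linarith
    · have e1 := hmono z (hball z (hsegball hz)).1 R hR0.le le_rfl j hj
      have e2 := (abs_lt.1 ((hball z (hsegball hz)).2 j hj)).1
      dsimp only
      linarith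
    · have e1 := hmono z₂ (hball z₂ hz₂).1 u hu.1 hu.2 j hj
      have e2 := hp₂ j hj
      have e3 : 0 ≤ f' j δ / 2 * u := mul_nonneg (half_pos (hδ j hj)).le hu.1
      dsimp only
      linarith

/-- linearly independent vectors define a surjective map -/
theorem C2_surj {ι : Type*} [Fintype ι] {y : ι → V} (hy : LinearIndependent ℝ y) :
    (ContinuousLinearMap.pi fun i => innerSL ℝ (y i) : V →L[ℝ] (ι → ℝ)).range = ⊤ := by
  classical
  by_contra hne
  obtain ⟨f, hf0, hf⟩ := Submodule.exists_le_ker_of_lt_top _ (lt_top_iff_ne_top.2 hne)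
  apply hf0
  have h1 : ∀ v : V, ∑ i, inner ℝ (y i) v * f (fun j => if i = j then 1 else 0) = 0 := by
    intro v
    have h2 : f (fun i => inner ℝ (y i) v) = 0 := hf ⟨v, rfl⟩
    rw [LinearMap.pi_apply_eq_sum_univ] at h2
    simpa [smul_eq_mul] using h2
  have h3 : ∑ i, f (fun j => if i = j then 1 else 0) • y i = 0 := by
    apply ext_inner_right ℝ
    intro v
    rw [sum_inner, inner_zero_left]
    refine Eq.trans (Finset.sum_congr rfl fun i _ => ?_) (h1 v)
    rw [real_inner_smul_left, mul_comm]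
  have h4 := Fintype.linearIndependent_iff.1 hy _ h3
  ext i
  simp only [LinearMap.coe_comp, LinearMap.coe_single, Function.comp_apply, LinearMap.zero_apply]
  have h5 := h4 i
  have h6 : (fun j => if i = j then (1 : ℝ) else 0) = Pi.single i 1 := by
    funext j
    by_cases hj : i = j
    · subst hj
      simp
    · rw [if_neg hj, Pi.single_eq_of_ne (Ne.symm hj)]
  rw [h6] at h5
  exact h5

/-- ROW C2. (paper L2) Near `w` the stratum is contained in one component.
Proof. `y_i = ct K i w`. The functionals `⟪y_i, ·⟫`, `i ∈ s`, are linearly independent (`KK_sep`,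
`lab_inj`, `s.card ≤ d`), so `G : V → (s → ℝ)`, `G l = (gg i l)_i`, has at `w` the surjective strict
derivative `G' = (innerSL y_i)_i` (`gg_strict`, `hasStrictFDerivAt_pi`). Let
`ψ = hG.implicitFunction G G' hG hG' (G w) : ker G' → V` (`HasStrictFDerivAt.implicitFunction`):
`ψ 0 = w`, `ψ` is strictly differentiable at `0` with derivative the inclusion
(`HasStrictFDerivAt.to_implicitFunction`), `G (ψ z) = G w = 0` for `z` near `0`
(`map_implicitFunction_eq`), and for `x` near `w` with `G x = 0`, `ψ (π x) = x`, where `π x` (second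
component of `implicitToOpenPartialHomeomorph`) is continuous at `w` with `π w = 0`
(`eq_implicitFunction`). For `j ∈ lab K w \ s` the function `h_j z = gg j (ψ z)` is strictly
differentiable at `0` with derivative `⟪y_j, ·⟫`, `h_j 0 = 0`. Let `δ0 : ker G'` be `δ`. There are `c > 0`,
`R > 0` with `h_j (z + u δ0) ≥ h_j z + c u` for `‖z‖ ≤ R`, `0 ≤ u ≤ R` (strict differentiability with
error `ε = ⟪y_j,δ⟫ / (2 (‖δ‖+1))`), and such that `ψ z` is in the neighbourhood of `w` given by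
`eventually_pos` and `G (ψ z) = 0` for `‖z‖ ≤ R (1 + ‖δ‖)`. Choose `R' ≤ R` with `|h_j z| < c R` for
`‖z‖ ≤ R'`. Let `U` be a neighbourhood of `w` such that `‖π x‖ ≤ R'` and `ψ (π x) = x` for
`x ∈ U`, `G x = 0`. For `x, y ∈ U ∩ Str K s` the concatenation of `ψ (π x + u δ0)`, `0 ≤ u ≤ R`,
`ψ (z + R δ0)`, `z ∈ [π x, π y]`, and `ψ (π y + u δ0)`, `0 ≤ u ≤ R` (reversed), is a connected subset of
`Str K s` (labels: `gg i = 0` for `i ∈ s`; `gg j > 0` for `j ∈ lab K w \ s`; `gg j > 0` for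
`j ∉ lab K w`). If `lab K w = s` there is no condition on `j` and the segment alone suffices. So `x` and
`y` lie in the same component (`IsPreconnected.subset_connectedComponentIn`,
`connectedComponentIn_eq`). -/
theorem L2 (h : CF K Om d) (s : Finset (Fin n × Bool)) (w : V) (hw : w ∈ TT K)
    (hs : s ⊆ lab K w) (hcard : s.card ≤ d) (δ : V)
    (h1 : ∀ i ∈ s, inner ℝ (ct K i w) δ = 0)
    (h2 : ∀ i ∈ lab K w, i ∉ s → 0 < inner ℝ (ct K i w) δ) :
    ∃ U ∈ nhds w, ∀ x ∈ U, ∀ y ∈ U, x ∈ Str K s → y ∈ Str K s →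
      connectedComponentIn (Str K s) x = connectedComponentIn (Str K s) y := by
  classical
  have hwO : w ∈ Om := h.omT w hw
  have hlab : ∀ i (l : V), i ∈ lab K l ↔ gg K i l = 0 := fun i l => by simp [lab]
  let G : V → (s → ℝ) := fun l i => gg K i l
  let G' : V →L[ℝ] (s → ℝ) := ContinuousLinearMap.pi fun i => innerSL ℝ (ct K i w)
  have hG : HasStrictFDerivAt G G' w := hasStrictFDerivAt_pi.2 fun i => gg_strict h i w hwO
  have hLI : LinearIndependent ℝ (fun i : s => ct K i w) :=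
    KK_sep h s hcard (fun i hi i' hi' he => lab_inj h w hw.1 i i' (hs hi) (hs hi') he)
      (fun i => ct K i w) fun i _ => ct_mem h i w
  have hG' : G'.range = ⊤ := C2_surj hLI
  have hGw : G w = 0 := by
    funext i
    exact (hlab i w).1 (hs i.2)
  let ψ : G'.ker → V := hG.implicitFunction G G' hG' (G w)
  have hψ0 : ψ 0 = w := hG.implicitFunction_apply_image hG'
  have hψ' : HasStrictFDerivAt ψ G'.ker.subtypeL 0 := hG.to_implicitFunction hG'
  have hψG : ∀ᶠ z in nhds (0 : G'.ker), G (ψ z) = G w := by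
    have e1 := hG.map_implicitFunction_eq hG'
    have e2 : Filter.Tendsto (fun z : G'.ker => (G w, z)) (nhds 0) (nhds (G w, 0)) :=
      (continuous_const.prodMk continuous_id).tendsto' _ _ rfl
    exact e2.eventually e1
  have hψc : Filter.Tendsto ψ (nhds 0) (nhds w) := by
    have := hψ'.continuousAt
    rw [ContinuousAt, hψ0] at this
    exact this
  obtain ⟨Lc, T, hT, hLip⟩ := hψ'.exists_lipschitzOnWith
  let f : Fin n × Bool → G'.ker → ℝ := fun j z => gg K j (ψ z)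
  let f' : Fin n × Bool → G'.ker →L[ℝ] ℝ := fun j => (innerSL ℝ (ct K j w)).comp G'.ker.subtypeL
  have hf : ∀ j, HasStrictFDerivAt (f j) (f' j) 0 := fun j => by
    have e1 : HasStrictFDerivAt (gg K j) (innerSL ℝ (ct K j w)) (ψ 0) := by
      rw [hψ0]
      exact gg_strict h j w hwO
    exact e1.comp 0 hψ'
  have hδker : δ ∈ G'.ker := by
    rw [LinearMap.mem_ker]
    funext i
    exact h1 i i.2
  let δ0 : G'.ker := ⟨δ, hδker⟩
  let J : Finset (Fin n × Bool) := (lab K w).filter fun j => j ∉ s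
  let W : Set G'.ker := {z | z ∈ T ∧ G (ψ z) = G w ∧
    (ψ z ≠ 0 ∧ ψ z ∈ Om ∧ ∀ i ∉ lab K w, 0 < gg K i (ψ z))}
  have hW : W ∈ nhds (0 : G'.ker) := by
    filter_upwards [hT, hψG, hψc.eventually (eventually_pos h w hw)] with z a1 a2 a3
    exact ⟨a1, a2, a3⟩
  obtain ⟨W', hW', hconn⟩ := C2_abs J f f' (fun j _ => hf j) (fun j hj => by
      change gg K j (ψ 0) = 0
      rw [hψ0]
      exact (hlab j w).1 (Finset.mem_filter.1 hj).1) δ0 (fun j hj => by
      change 0 < inner ℝ (ct K j w) δ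
      exact h2 j (Finset.mem_filter.1 hj).1 (Finset.mem_filter.1 hj).2) hW
  -- the second component of the chart
  let π : V → G'.ker := fun x => (hG.implicitToOpenPartialHomeomorph G G' hG' x).2
  have hπw : π w = 0 := by
    change (hG.implicitToOpenPartialHomeomorph G G' hG' w).2 = 0
    rw [hG.implicitToOpenPartialHomeomorph_self hG']
  have hπc : Filter.Tendsto π (nhds w) (nhds 0) := by
    have e1 : ContinuousAt (hG.implicitToOpenPartialHomeomorph G G' hG') w :=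
      (hG.implicitToOpenPartialHomeomorph G G' hG').continuousAt
        (hG.mem_implicitToOpenPartialHomeomorph_source hG')
    have e2 : ContinuousAt π w := continuousAt_snd.comp e1
    rw [ContinuousAt, hπw] at e2
    exact e2
  have hU : ∀ᶠ x in nhds w, π x ∈ W' ∧ hG.implicitFunction G G' hG' (G x) (π x) = x :=
    (hπc.eventually hW').and (hG.eq_implicitFunction hG')
  refine ⟨_, hU, ?_⟩
  rintro x ⟨hx1, hx2⟩ y ⟨hy1, hy2⟩ hxs hys
  have hchart : ∀ x, x ∈ Str K s → hG.implicitFunction G G' hG' (G x) (π x) = x →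
      ψ (π x) = x ∧ ∀ j ∈ J, 0 < f j (π x) := by
    intro x hxs hx2
    have e1 : G x = G w := by
      rw [hGw]
      funext i
      refine (hlab i x).1 ?_
      rw [hxs.2]
      exact i.2
    rw [e1] at hx2
    refine ⟨hx2, fun j hj => ?_⟩
    change 0 < gg K j (ψ (π x))
    have e2 : ψ (π x) = x := hx2
    rw [e2]
    refine lt_of_le_of_ne (hxs.1.2 j) fun hne => ?_
    have e3 : j ∈ lab K x := (hlab j x).2 hne.symm
    rw [hxs.2] at e3
    exact (Finset.mem_filter.1 hj).2 e3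
  obtain ⟨ex1, ex2⟩ := hchart x hxs hx2
  obtain ⟨ey1, ey2⟩ := hchart y hys hy2
  obtain ⟨C, hC, hxC, hyC, hCW, hCpos⟩ := hconn _ hx1 _ hy1 ex2 ey2
  have hpre : IsPreconnected (ψ '' C) :=
    hC.image _ (hLip.continuousOn.mono fun z hz => (hCW hz).1)
  have hsub : ψ '' C ⊆ Str K s := by
    rintro _ ⟨z, hz, rfl⟩
    obtain ⟨-, b2, b3, b4, b5⟩ := hCW hz
    have b6 := hCpos z hz
    have hin : ∀ i ∈ s, gg K i (ψ z) = 0 := fun i hi => by
      have := congrFun b2 ⟨i, hi⟩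
      rw [hGw] at this
      exact this
    have hout : ∀ i, i ∉ s → 0 < gg K i (ψ z) := fun i hi => by
      by_cases hil : i ∈ lab K w
      · exact b6 i (Finset.mem_filter.2 ⟨hil, hi⟩)
      · exact b5 i hil
    refine ⟨⟨b3, fun i => ?_⟩, ?_⟩
    · by_cases hi : i ∈ s
      · exact (hin i hi).ge
      · exact (hout i hi).le
    · ext i
      rw [hlab]
      constructor
      · intro hi
        by_contra hns
        exact (hout i hns).ne' hi
      · exact hin i
  have hy' : y ∈ connectedComponentIn (Str K s) x :=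
    hpre.subset_connectedComponentIn ⟨π x, hxC, ex1⟩ hsub ⟨π y, hyC, ey1⟩
  exact connectedComponentIn_eq hy'

end MP528
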