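import Pool.Agent.Lib.MP_528ca9_co.CB2

namespace MP528

open Finset

variable {V : Type*} [NormedAddCommGroup V] [InnerProductSpace ℝ V] [FiniteDimensional ℝ V] {n d : ℕ}
  {K : Fin n → Set V} {Om : Set V}

/-- The functionals given by independent vectors are jointly onto. -/
theorem C3_surj {ι : Type*} [Fintype ι] [DecidableEq ι] (y : ι → V) (hy : LinearIndependent ℝ y) :
    (ContinuousLinearMap.pi (fun i => innerSL ℝ (y i)) : V →L[ℝ] (ι → ℝ)).range = ⊤ := by
  by_contra hne
  obtain ⟨f, hf0, hf⟩ := Submodule.exists_le_ker_of_lt_top _ (lt_top_iff_ne_top.2 hne)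
  apply hf0
  have h1 : ∀ l : V, ∑ i, inner ℝ (y i) l * f (fun j => if i = j then 1 else 0) = 0 := by
    intro l
    have h2 := hf (LinearMap.mem_range_self _ l)
    rw [LinearMap.mem_ker, LinearMap.pi_apply_eq_sum_univ] at h2
    simpa [smul_eq_mul] using h2
  have h3 : ∑ i, f (fun j => if i = j then (1 : ℝ) else 0) • y i = 0 := by
    apply ext_inner_right ℝ
    intro l
    rw [inner_zero_left, sum_inner]
    refine Eq.trans (Finset.sum_congr rfl fun i _ => ?_) (h1 l)
    rw [real_inner_smul_left, mul_comm]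
  have h4 := Fintype.linearIndependent_iff.1 hy _ h3
  apply LinearMap.ext
  intro v
  rw [LinearMap.pi_apply_eq_sum_univ, LinearMap.zero_apply]
  refine Finset.sum_eq_zero fun i _ => ?_
  rw [h4 i, smul_zero]

/-- ROW C3. (paper, density) If `w` has at most `d` labels, every stratum with fewer labels
accumulates at `w`.
Proof. `B = lab K w`. `G : V → (B → ℝ)`, `G l = (gg i l)_i`, has a surjective strict derivative at `w`
(contact vectors independent: `KK_sep`, `lab_inj`), so `map G (𝓝 w) = 𝓝 (G w) = 𝓝 0`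
(`HasStrictFDerivAt.map_nhds_eq_of_surj`). Given a neighbourhood `N` of `w` (inside the one of
`eventually_pos`), `G '' N` is a neighbourhood of `0`, so for small `t > 0` it contains the vector with
coordinates `0` (`i ∈ s`) and `t` (`i ∈ B \ s`): a point of `Str K s` in `N`. -/
theorem dens (h : CF K Om d) (s : Finset (Fin n × Bool)) (w : V) (hw : w ∈ TT K)
    (hs : s ⊆ lab K w) (hcard : (lab K w).card ≤ d) : w ∈ closure (Str K s) := by
  classical
  have : CompleteSpace V := FiniteDimensional.complete ℝ V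
  have hwO : w ∈ Om := h.omT w hw
  set B := lab K w with hB
  have hBmem : ∀ i, i ∈ B ↔ gg K i w = 0 := by
    intro i; rw [hB]; simp [lab]
  let G : V → (B → ℝ) := fun l i => gg K i.1 l
  let L : V →L[ℝ] (B → ℝ) := ContinuousLinearMap.pi (fun i : B => innerSL ℝ (ct K i.1 w))
  have hG : HasStrictFDerivAt G L w := by
    rw [hasStrictFDerivAt_pi']
    intro i
    exact gg_strict h i.1 w hwO
  have hli : LinearIndependent ℝ (fun i : B => ct K i.1 w) :=
    KK_sep h B hcard (fun i hi i' hi' he => lab_inj h w hw.1 i i' hi hi' he)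
      (fun i => ct K i w) (fun i _ => ct_mem h i w)
  have hsurj : L.range = ⊤ := C3_surj (fun i : B => ct K i.1 w) hli
  have hmap := hG.map_nhds_eq_of_surj hsurj
  have hGw : G w = 0 := by
    funext i
    exact (hBmem i.1).1 i.2
  rw [hGw] at hmap
  rw [mem_closure_iff_nhds]
  intro N hN
  have hN' : N ∩ {l | l ≠ 0 ∧ l ∈ Om ∧ ∀ i ∉ B, 0 < gg K i l} ∈ nhds w :=
    Filter.inter_mem hN (eventually_pos h w hw)
  have himg : G '' (N ∩ {l | l ≠ 0 ∧ l ∈ Om ∧ ∀ i ∉ B, 0 < gg K i l}) ∈ nhds (0 : B → ℝ) := by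
    rw [← hmap]; exact Filter.image_mem_map hN'
  let v : ℝ → (B → ℝ) := fun t i => if i.1 ∈ s then 0 else t
  have hvc : Continuous v := by
    refine continuous_pi fun i => ?_
    by_cases hi : i.1 ∈ s
    · simp only [v, hi, if_true]; exact continuous_const
    · simp only [v, hi, if_false]; exact continuous_id
  have hv0 : v 0 = 0 := by
    funext i; simp [v]
  have hev : ∀ᶠ t in nhds (0 : ℝ),
      v t ∈ G '' (N ∩ {l | l ≠ 0 ∧ l ∈ Om ∧ ∀ i ∉ B, 0 < gg K i l}) := by
    apply hvc.continuousAt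
    rw [hv0]; exact himg
  have hev' : ∀ᶠ t in nhdsWithin (0 : ℝ) (Set.Ioi 0),
      v t ∈ G '' (N ∩ {l | l ≠ 0 ∧ l ∈ Om ∧ ∀ i ∉ B, 0 < gg K i l}) ∧ 0 < t :=
    (hev.filter_mono nhdsWithin_le_nhds).and self_mem_nhdsWithin
  obtain ⟨t, ⟨l, ⟨hlN, hl0, hlO, hlpos⟩, hlt⟩, ht⟩ := hev'.exists
  have hval : ∀ i ∈ B, gg K i l = if i ∈ s then 0 else t := by
    intro i hi
    exact congrFun hlt ⟨i, hi⟩
  refine ⟨l, hlN, ⟨hl0, fun i => ?_⟩, ?_⟩
  · by_cases hi : i ∈ B
    · rw [hval i hi]
      split_ifs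
      · exact le_rfl
      · exact ht.le
    · exact (hlpos i hi).le
  · ext i
    have hmem : i ∈ lab K l ↔ gg K i l = 0 := by simp [lab]
    rw [hmem]
    by_cases hi : i ∈ B
    · rw [hval i hi]
      constructor
      · intro h0
        by_contra hs'
        rw [if_neg hs'] at h0
        exact ht.ne' h0
      · intro h0; rw [if_pos h0]
    · constructor
      · intro h0; exact absurd h0 (hlpos i hi).ne'
      · intro h0; exact absurd (hs h0) hi

end MP528
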