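import Pool.Agent.Lib.MP_528ca9_co.C1
import Pool.Agent.Lib.MP_528ca9_co.C2

namespace MP528

open Finset

variable {V : Type*} [NormedAddCommGroup V] [InnerProductSpace ℝ V] [FiniteDimensional ℝ V] {n d : ℕ}
  {K : Fin n → Set V} {Om : Set V}

/-- The Lagrange step of C4c. -/
theorem C4c_lagrange (h : CF K Om d) (s : Finset (Fin n × Bool)) (hs : s.card < d) (l1 : V)
    (hl1 : l1 ∈ Str K s) (j : Fin n) (hj : ∀ i ∈ s, i.1 ≠ j) (m : ℝ) (hm0 : 0 ≤ m) (hm1 : m ≤ 1)
    (hmin : IsLocalExtrOn (fun l => (1 - m) * gg K (j, true) l - m * gg K (j, false) l)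
      {l | ∀ i : s, gg K (i : Fin n × Bool) l = gg K (i : Fin n × Bool) l1} l1) : False := by
  classical
  have hOm : l1 ∈ Om := h.omT l1 hl1.1
  have hl0 : l1 ≠ 0 := hl1.1.1
  set z : V := (1 - m) • ct K (j, true) l1 - m • ct K (j, false) l1 with hz
  have hder : HasStrictFDerivAt (fun l => (1 - m) * gg K (j, true) l - m * gg K (j, false) l)
      (innerSL ℝ z) l1 := by
    have h1 := ((gg_strict h (j, true) l1 hOm).const_mul (1 - m)).sub
      ((gg_strict h (j, false) l1 hOm).const_mul m)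
    have h2 : (1 - m) • (innerSL ℝ) (ct K (j, true) l1) - m • (innerSL ℝ) (ct K (j, false) l1)
        = (innerSL ℝ z : V →L[ℝ] ℝ) := by
      rw [hz]; simp
    rw [← h2]; exact h1
  have : CompleteSpace V := FiniteDimensional.complete ℝ V
  obtain ⟨Λ, Λ0, hne, hsum⟩ := hmin.exists_multipliers_of_hasStrictFDerivAt
    (fun i : s => gg_strict h (i : Fin n × Bool) l1 hOm) hder
  have hsum' : ∑ i : s, Λ i • ct K (i : Fin n × Bool) l1 + Λ0 • z = 0 := by
    have h1 : (innerSL ℝ (∑ i : s, Λ i • ct K (i : Fin n × Bool) l1 + Λ0 • z) : V →L[ℝ] ℝ) = 0 := by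
      rw [map_add, map_sum, map_smul]
      simp only [map_smul]
      exact hsum
    have h2 := congrArg (fun f : V →L[ℝ] ℝ =>
      f (∑ i : s, Λ i • ct K (i : Fin n × Bool) l1 + Λ0 • z)) h1
    simp only [innerSL_apply_apply, ContinuousLinearMap.zero_apply] at h2
    exact inner_self_eq_zero.mp h2
  -- membership of z
  have hzmem : z ∈ KK K (j, true) := by
    have h1 : ct K (j, true) l1 ∈ K j := by
      have := ct_mem h (j, true) l1
      simpa [KK] using this
    have h2 : - ct K (j, false) l1 ∈ K j := by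
      have := ct_mem h (j, false) l1
      simp only [KK] at this
      obtain ⟨y, hy, hye⟩ := this
      rw [← hye]; simpa using hy
    have h3 : (1 - m) • ct K (j, true) l1 + m • (- ct K (j, false) l1) ∈ K j :=
      h.cvx j h1 h2 (by linarith) hm0 (by ring)
    have h4 : z = (1 - m) • ct K (j, true) l1 + m • (- ct K (j, false) l1) := by
      rw [hz, smul_neg, sub_eq_add_neg]
    rw [h4]; simpa [KK] using h3
  have ha : (j, true) ∉ s := fun hmem => hj _ hmem rfl
  have hlab : lab K l1 = s := hl1.2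
  have hcard : (insert (j, true) s).card ≤ d := by
    rw [Finset.card_insert_of_notMem ha]; omega
  have hinj : ∀ i ∈ insert (j, true) s, ∀ i' ∈ insert (j, true) s, i.1 = i'.1 → i = i' := by
    intro i hi i' hi' he
    rcases Finset.mem_insert.mp hi with hi1 | hi1 <;> rcases Finset.mem_insert.mp hi' with hi2 | hi2
    · rw [hi1, hi2]
    · exact absurd (by rw [← he, hi1]) (hj i' hi2)
    · exact absurd (by rw [he, hi2]) (hj i hi1)
    · exact lab_inj h l1 hl0 i i' (hlab ▸ hi1) (hlab ▸ hi2) he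
  let X : Fin n × Bool → V := fun i => if i = (j, true) then z else ct K i l1
  have hX : ∀ i ∈ insert (j, true) s, X i ∈ KK K i := by
    intro i _
    by_cases hi1 : i = (j, true)
    · simp only [X, hi1, if_true]; exact hzmem
    · simp only [X, hi1, if_false]; exact ct_mem h i l1
  have hind := KK_sep h (insert (j, true) s) hcard hinj X hX
  rw [Fintype.linearIndependent_iff] at hind
  let G : Fin n × Bool → ℝ := fun i => if i = (j, true) then Λ0 else
    if hi : i ∈ s then Λ ⟨i, hi⟩ else 0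
  have hG := hind (fun i => G i) (by
    have h1 : ∑ i : (insert (j, true) s : Finset (Fin n × Bool)), G i • X i
        = ∑ i ∈ insert (j, true) s, G i • X i := Finset.sum_coe_sort _ (fun i => G i • X i)
    rw [h1, Finset.sum_insert ha]
    have h2 : G (j, true) • X (j, true) = Λ0 • z := by simp [G, X]
    have h3 : ∑ i ∈ s, G i • X i = ∑ i : s, Λ i • ct K (i : Fin n × Bool) l1 := by
      rw [← Finset.sum_coe_sort s (fun i => G i • X i)]
      refine Finset.sum_congr rfl (fun i _ => ?_)
      have hi1 : (i : Fin n × Bool) ≠ (j, true) := fun he => ha (he ▸ i.2)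
      simp [G, X, hi1]
    rw [h2, h3, add_comm]; exact hsum')
  apply hne
  have hΛ0 : Λ0 = 0 := by
    have := hG ⟨(j, true), Finset.mem_insert_self _ _⟩
    simpa [G] using this
  have hΛ : Λ = 0 := by
    funext i
    have hi1 : (i : Fin n × Bool) ≠ (j, true) := fun he => ha (he ▸ i.2)
    have := hG ⟨(i : Fin n × Bool), Finset.mem_insert_of_mem i.2⟩
    simpa [G, hi1] using this
  rw [hΛ0, hΛ]; rfl

/-- ROW C4c. (paper F1) A component of a stratum with fewer than `d` labels is not closed in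
`V \ {0}`.
Proof. Suppose `closure Y \ {0} ⊆ Y`, `Y = connectedComponentIn (Str K s) x`. `C = Y ∩ sphere 0 1 =
closure Y ∩ sphere 0 1` is compact, nonempty (`comp_smul`). `s.card < d ≤ n`, so there is `j : Fin n` which
is not a first component of an element of `s`. On `Y` (labels `= s`) `gg (j,true) > 0` and
`gg (j,false) > 0`. Let `φ = gg (j,true) / (gg (j,true) + gg (j,false))`, continuous on `C`, and let
`l1 ∈ C` be a minimum point, `m = φ l1 ∈ (0,1)`. By homogeneity (`gg_smul`, `comp_smul`) `φ ≥ m` on all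
of `Y`, i.e. `ψ l := (1-m) gg (j,true) l - m gg (j,false) l ≥ 0` on `Y`, `ψ l1 = 0`. By C2 for `w = l1`,
`lab K l1 = s`, `δ = 0`, and `eventually_pos`, all `l` near `l1` with `gg i l = 0` (`i ∈ s`) lie in
`Str K s` and in the component `Y`. So `l1` is a local minimum of `ψ` on
`{l | ∀ i ∈ s, gg i l = gg i l1}`: by `IsLocalExtrOn.exists_multipliers_of_hasStrictFDerivAt` (index
type `s`, functions `gg i`, derivatives `innerSL (ct i l1)`, `gg_strict`) there are `Λ : s → ℝ`,
`Λ0`, not all zero, with `∑ Λ_i ct_i + Λ0 z = 0`, where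
`z = (1-m) ct (j,true) l1 - m ct (j,false) l1`. Since `- ct (j,false) l1 ∈ K j`, `z ∈ K j = KK (j,true)`
by convexity; by `KK_sep` for `insert (j,true) s` (card `≤ d`, distinct first components) all
coefficients vanish, contradiction. -/
theorem F1 (h : CF K Om d) (s : Finset (Fin n × Bool)) (hs : s.card < d) (x : V)
    (hx : x ∈ Str K s) :
    ∃ w ∈ closure (connectedComponentIn (Str K s) x), w ≠ 0 ∧
      w ∉ connectedComponentIn (Str K s) x := by
  classical
  by_contra hcon
  push Not at hcon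
  set Y : Set V := connectedComponentIn (Str K s) x with hY
  have hYs : Y ⊆ Str K s := connectedComponentIn_subset _ _
  have hxY : x ∈ Y := mem_connectedComponentIn hx
  have hYsm : ∀ y ∈ Y, ∀ c : ℝ, 0 < c → c • y ∈ Y := by
    intro y hy c hc
    have h1 := comp_smul h s y (hYs hy) c hc
    rw [hY, connectedComponentIn_eq hy]; exact h1
  set C : Set V := closure Y ∩ Metric.sphere (0 : V) 1 with hC
  have hCc : IsCompact C := (isCompact_sphere (0 : V) 1).inter_left isClosed_closure
  have hCY : ∀ l ∈ C, l ∈ Y := by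
    intro l hl
    refine hcon l hl.1 ?_
    intro h0
    have h1 := hl.2
    rw [h0] at h1
    simp at h1
  have hunit : ∀ y ∈ Y, ‖y‖⁻¹ • y ∈ C := by
    intro y hy
    have hy0 : y ≠ 0 := (hYs hy).1.1
    have hyn : 0 < ‖y‖ := norm_pos_iff.mpr hy0
    refine ⟨subset_closure (hYsm y hy _ (inv_pos.mpr hyn)), ?_⟩
    rw [mem_sphere_zero_iff_norm, norm_smul, norm_inv, norm_norm, inv_mul_cancel₀ hyn.ne']
  -- the new member
  obtain ⟨j, hj⟩ : ∃ j : Fin n, ∀ i ∈ s, i.1 ≠ j := by
    by_contra hno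
    push Not at hno
    have h1 : (Finset.univ : Finset (Fin n)) ⊆ s.image Prod.fst := by
      intro j _
      obtain ⟨i, hi, hij⟩ := hno j
      exact Finset.mem_image.mpr ⟨i, hi, hij⟩
    have h2 := (Finset.card_le_card h1).trans Finset.card_image_le
    rw [Finset.card_univ, Fintype.card_fin] at h2
    have h3 := h.hn
    omega
  have hpos : ∀ l ∈ Str K s, ∀ b : Bool, 0 < gg K (j, b) l := by
    intro l hl b
    have h1 := hl.1.2 (j, b)
    have h2 : (j, b) ∉ lab K l := by
      rw [hl.2]; exact fun hmem => hj _ hmem rfl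
    have h3 : gg K (j, b) l ≠ 0 := fun h0 => h2 (by simp [lab, h0])
    exact lt_of_le_of_ne h1 (Ne.symm h3)
  set φ : V → ℝ := fun l => gg K (j, true) l / (gg K (j, true) l + gg K (j, false) l) with hφ
  have hφc : ContinuousOn φ C := by
    refine ContinuousOn.div (gg_cont h _).continuousOn
      ((gg_cont h _).add (gg_cont h _)).continuousOn ?_
    intro l hl
    have h1 := hpos l (hYs (hCY l hl))
    have := add_pos (h1 true) (h1 false)
    exact this.ne'
  obtain ⟨l1, hl1C, hl1min⟩ := hCc.exists_isMinOn ⟨_, hunit x hxY⟩ hφc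
  have hl1Y : l1 ∈ Y := hCY l1 hl1C
  have hl1s : l1 ∈ Str K s := hYs hl1Y
  have hp1 := hpos l1 hl1s
  set m : ℝ := φ l1 with hm
  have hsum1 : 0 < gg K (j, true) l1 + gg K (j, false) l1 := add_pos (hp1 true) (hp1 false)
  have hm' : m * (gg K (j, true) l1 + gg K (j, false) l1) = gg K (j, true) l1 := by
    rw [hm, hφ]; field_simp
  have hm0 : 0 ≤ m := div_nonneg (hp1 true).le hsum1.le
  have hm1 : m ≤ 1 := by
    rw [hm, hφ]
    exact (div_le_one hsum1).mpr (by linarith [hp1 false])
  refine C4c_lagrange h s hs l1 hl1s j hj m hm0 hm1 (Or.inl ?_)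
  -- local minimum
  have hψY : ∀ y ∈ Y, 0 ≤ (1 - m) * gg K (j, true) y - m * gg K (j, false) y := by
    intro y hy
    have hy0 : y ≠ 0 := (hYs hy).1.1
    have hyn : 0 < ‖y‖ := norm_pos_iff.mpr hy0
    have h1 : m ≤ φ (‖y‖⁻¹ • y) := hl1min (hunit y hy)
    have hu := hpos _ (hYs (hCY _ (hunit y hy)))
    have hsu : 0 < gg K (j, true) (‖y‖⁻¹ • y) + gg K (j, false) (‖y‖⁻¹ • y) :=
      add_pos (hu true) (hu false)
    have h2 : m * (gg K (j, true) (‖y‖⁻¹ • y) + gg K (j, false) (‖y‖⁻¹ • y))
        ≤ gg K (j, true) (‖y‖⁻¹ • y) := (le_div_iff₀ hsu).mp h1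
    rw [gg_smul h _ y _ (inv_pos.mpr hyn).le, gg_smul h _ y _ (inv_pos.mpr hyn).le] at h2
    have h3 : ‖y‖⁻¹ * (m * (gg K (j, true) y + gg K (j, false) y)) ≤ ‖y‖⁻¹ * gg K (j, true) y := by
      nlinarith [h2]
    have h4 := le_of_mul_le_mul_left h3 (inv_pos.mpr hyn)
    nlinarith [h4]
  have hψ1 : (1 - m) * gg K (j, true) l1 - m * gg K (j, false) l1 = 0 := by
    nlinarith [hm']
  have hlab : lab K l1 = s := hl1s.2
  obtain ⟨U, hU, hUc⟩ := L2 h s l1 hl1s.1 (by rw [hlab]) hs.le 0
    (fun i _ => inner_zero_right _) (fun i hi his => absurd (hlab ▸ hi) his)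
  have hev := eventually_pos h l1 hl1s.1
  refine eventually_nhdsWithin_iff.mpr ?_
  filter_upwards [hU, hev] with l hlU hle hlE
  rw [hψ1]
  apply hψY
  have hzero : ∀ i ∈ s, gg K i l = 0 := by
    intro i hi
    have h1 := hlE ⟨i, hi⟩
    have h2 : gg K i l1 = 0 := by
      have : i ∈ lab K l1 := hlab ▸ hi
      simpa [lab] using this
    rw [h1]; exact h2
  have hpos' : ∀ i ∉ s, 0 < gg K i l := by
    intro i hi
    exact hle.2.2 i (by rw [hlab]; exact hi)
  have hlS : l ∈ Str K s := by
    refine ⟨⟨hle.1, fun i => ?_⟩, ?_⟩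
    · by_cases hi : i ∈ s
      · rw [hzero i hi]
      · exact (hpos' i hi).le
    · ext i
      simp only [lab, Finset.mem_filter, Finset.mem_univ, true_and]
      constructor
      · intro h0
        by_contra hi
        exact (hpos' i hi).ne' h0
      · exact hzero i
  have h1 := hUc l hlU l1 (mem_of_mem_nhds hU) hlS hl1s
  rw [hY, connectedComponentIn_eq hl1Y, ← h1]
  exact mem_connectedComponentIn hlS

end MP528
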