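import Pool.Agent.Lib.MP_528ca9_co.C1
import Pool.Agent.Lib.MP_528ca9_co.C2

namespace MP528

open Finset

variable {V : Type*} [NormedAddCommGroup V] [InnerProductSpace ℝ V] [FiniteDimensional ℝ V] {n d : ℕ}
  {K : Fin n → Set V} {Om : Set V}

/-- ROW C4a. (paper L1 + L2) At a point `w` of `TT`, the stratum `Str K s` (if it accumulates at `w`
and `s.card ≤ d`) is near `w` contained in one component. -/
theorem one_comp (h : CF K Om d) (s : Finset (Fin n × Bool)) (w : V) (hw : w ∈ TT K)
    (hc : w ∈ closure (Str K s)) (hcard : s.card ≤ d) :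
    ∃ U ∈ nhds w, ∀ x ∈ U, ∀ y ∈ U, x ∈ Str K s → y ∈ Str K s →
      connectedComponentIn (Str K s) x = connectedComponentIn (Str K s) y := by
  obtain ⟨hs, -, δ, h1, h2⟩ := L1 h s w hw hc
  exact L2 h s w hw hs hcard δ h1 h2

/-- ROW C4b. Closures of different components of a stratum are disjoint in `TT`. -/
theorem comp_eq_of_closure (h : CF K Om d) (s : Finset (Fin n × Bool)) (hcard : s.card ≤ d)
    (w x y : V) (hw : w ∈ TT K) (hx : x ∈ Str K s) (hy : y ∈ Str K s)
    (h1 : w ∈ closure (connectedComponentIn (Str K s) x))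
    (h2 : w ∈ closure (connectedComponentIn (Str K s) y)) :
    connectedComponentIn (Str K s) x = connectedComponentIn (Str K s) y := by
  have hc : w ∈ closure (Str K s) := closure_mono (connectedComponentIn_subset _ _) h1
  obtain ⟨U, hU, hUc⟩ := one_comp h s w hw hc hcard
  obtain ⟨x', hx'U, hx'⟩ := mem_closure_iff_nhds.mp h1 U hU
  obtain ⟨y', hy'U, hy'⟩ := mem_closure_iff_nhds.mp h2 U hU
  have e1 := connectedComponentIn_eq hx'
  have e2 := connectedComponentIn_eq hy'
  have := hUc x' hx'U y' hy'U (connectedComponentIn_subset _ _ hx')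
    (connectedComponentIn_subset _ _ hy')
  rw [e1, e2, this]

end MP528
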