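import Pool.Agent.Lib.MP_528ca9_co.C5a

namespace MP528

open Finset

variable {V : Type*} [NormedAddCommGroup V] [InnerProductSpace ℝ V] [FiniteDimensional ℝ V] {n d : ℕ}
  {K : Fin n → Set V} {Om : Set V}

/-- ROW C5b. (paper F3)
Proof. Among the points `w ∈ closure Y ∩ TT K` (`Y = connectedComponentIn (Str K s) x`; `x` is one)
choose one with `(lab K w).card` maximal. If it is `< d`, apply `F1` to
`Y' = connectedComponentIn (Str K (lab K w)) w`: there is `w' ∈ closure Y'`, `w' ≠ 0`, `w' ∉ Y'`.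
`w' ∈ TT K` (`mem_TT_of_closure`), `lab K w ⊆ lab K w'` (`lab_of_closure`). If `lab K w' = lab K w` then
`w' ∈ Y'` by `comp_closed`, contradiction; so `w'` has more labels. By `F2`, `Y' ⊆ closure Y`, so
`w' ∈ closure Y`: contradiction with the maximality. -/
theorem F3 (h : CF K Om d) (s : Finset (Fin n × Bool)) (hs : s.card < d) (x : V)
    (hx : x ∈ Str K s) :
    ∃ w ∈ closure (connectedComponentIn (Str K s) x), w ∈ TT K ∧ d ≤ (lab K w).card := by
  classical
  set C : Set ℕ := (fun w => (lab K w).card) ''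
    (closure (connectedComponentIn (Str K s) x) ∩ TT K) with hC
  have hCne : C.Nonempty :=
    ⟨_, x, ⟨subset_closure (mem_connectedComponentIn hx), hx.1⟩, rfl⟩
  have hCb : BddAbove C := by
    refine ⟨Fintype.card (Fin n × Bool), ?_⟩
    rintro _ ⟨w, _, rfl⟩
    exact Finset.card_le_univ _
  obtain ⟨w, ⟨hwc, hwT⟩, hwm⟩ := Nat.sSup_mem hCne hCb
  have hmax : ∀ w' ∈ closure (connectedComponentIn (Str K s) x), w' ∈ TT K →
      (lab K w').card ≤ (lab K w).card := by
    intro w' h1 h2
    have h3 := le_csSup hCb ⟨w', ⟨h1, h2⟩, rfl⟩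
    have h4 : (lab K w).card = sSup C := hwm
    rw [h4]
    exact h3
  refine ⟨w, hwc, hwT, ?_⟩
  by_contra hlt
  have hlt' : (lab K w).card < d := not_le.1 hlt
  have hwS : w ∈ Str K (lab K w) := ⟨hwT, rfl⟩
  obtain ⟨w', hw'c, hw'0, hw'n⟩ := F1 h (lab K w) hlt' w hwS
  have hsub : connectedComponentIn (Str K (lab K w)) w ⊆ Str K (lab K w) :=
    connectedComponentIn_subset _ _
  have hw'T : w' ∈ TT K :=
    mem_TT_of_closure h w' hw'0 (closure_mono (fun y hy => (hsub hy).1) hw'c)
  have hlab : lab K w ⊆ lab K w' := lab_of_closure h (lab K w) w' (closure_mono hsub hw'c)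
  have hne : lab K w ≠ lab K w' := by
    intro heq
    exact hw'n (comp_closed (lab K w) w w' hwS ⟨hw'T, heq.symm⟩ hw'c)
  have hcard : (lab K w).card < (lab K w').card :=
    Finset.card_lt_card (Finset.ssubset_iff_subset_ne.2 ⟨hlab, hne⟩)
  have hY := F2 h s x w hx hwT hwc hlt'.le
  have h5 := hmax w' (closure_minimal hY isClosed_closure hw'c) hw'T
  omega

end MP528
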