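import Pool.Agent.Lib.MP_528ca9_co.C3
import Pool.Agent.Lib.MP_528ca9_co.C4

namespace MP528

open Finset

variable {V : Type*} [NormedAddCommGroup V] [InnerProductSpace ℝ V] [FiniteDimensional ℝ V] {n d : ℕ}
  {K : Fin n → Set V} {Om : Set V}

/-- ROW C5a. (paper F2, frontier condition)
Proof. `Y = connectedComponentIn (Str K s) x`, `B = lab K w`, `Y' = connectedComponentIn (Str K B) w`.
The set `A = {w' ∈ Y' | w' ∈ closure Y}` contains `w` and is closed in `Y'`. It is open in `Y'`: let
`w' ∈ A`; `w' ∈ TT`, `lab K w' = B`, `w' ∈ closure (Str K s)`; by `one_comp` there is a neighbourhood `U` of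
`w'` in which all points of `Str K s` lie in one component, which is `Y` since `Y` meets `U`
(`s.card ≤ B.card ≤ d` by `lab_of_closure`). For `w'' ∈ Y'` in the interior of `U`: `lab K w'' = B`,
so `w'' ∈ closure (Str K s)` by `dens`, and the points of `Str K s` near `w''` are in `U`, hence in `Y`: so
`w'' ∈ closure Y`. As `Y'` is preconnected, `A = Y'`. -/
theorem F2 (h : CF K Om d) (s : Finset (Fin n × Bool)) (x w : V) (hx : x ∈ Str K s)
    (hw : w ∈ TT K) (hc : w ∈ closure (connectedComponentIn (Str K s) x))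
    (hcard : (lab K w).card ≤ d) :
    connectedComponentIn (Str K (lab K w)) w ⊆ closure (connectedComponentIn (Str K s) x) := by
  have hwB : w ∈ Str K (lab K w) := ⟨hw, rfl⟩
  have hYsub : connectedComponentIn (Str K s) x ⊆ Str K s := connectedComponentIn_subset _ _
  have hpre : IsPreconnected (connectedComponentIn (Str K (lab K w)) w) :=
    isPreconnected_connectedComponentIn
  -- local statement
  have hloc : ∀ w' ∈ connectedComponentIn (Str K (lab K w)) w,
      w' ∈ closure (connectedComponentIn (Str K s) x) →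
      ∃ U : Set V, IsOpen U ∧ w' ∈ U ∧ connectedComponentIn (Str K (lab K w)) w ∩ U ⊆
        closure (connectedComponentIn (Str K s) x) := by
    intro w' hw' hcl
    have hw'B : w' ∈ Str K (lab K w) := connectedComponentIn_subset _ _ hw'
    have hw'T : w' ∈ TT K := hw'B.1
    have hw'l : lab K w' = lab K w := hw'B.2
    have hw'c : w' ∈ closure (Str K s) := closure_mono hYsub hcl
    have hsub : s ⊆ lab K w := hw'l ▸ lab_of_closure h s w' hw'c
    have hscard : s.card ≤ d := (Finset.card_le_card hsub).trans hcard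
    obtain ⟨U, hU, hU2⟩ := one_comp h s w' hw'T hw'c hscard
    refine ⟨interior U, isOpen_interior, mem_interior_iff_mem_nhds.2 hU, ?_⟩
    rintro w'' ⟨hw''Y, hw''U⟩
    have hw''B : w'' ∈ Str K (lab K w) := connectedComponentIn_subset _ _ hw''Y
    have hw''l : lab K w'' = lab K w := hw''B.2
    have hd : w'' ∈ closure (Str K s) :=
      dens h s w'' hw''B.1 (by rw [hw''l]; exact hsub) (by rw [hw''l]; exact hcard)
    obtain ⟨y0, hy0U, hy0Y⟩ := mem_closure_iff.1 hcl (interior U) isOpen_interior
      (mem_interior_iff_mem_nhds.2 hU)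
    rw [mem_closure_iff]
    intro N hN hwN
    obtain ⟨z, hzN, hzS⟩ := mem_closure_iff.1 hd (N ∩ interior U) (hN.inter isOpen_interior)
      ⟨hwN, hw''U⟩
    refine ⟨z, hzN.1, ?_⟩
    have h1 := hU2 z (interior_subset hzN.2) y0 (interior_subset hy0U) hzS (hYsub hy0Y)
    have h2 : connectedComponentIn (Str K s) x = connectedComponentIn (Str K s) y0 :=
      connectedComponentIn_eq hy0Y
    rw [h2, ← h1]
    exact mem_connectedComponentIn hzS
  by_contra hcon
  rw [Set.not_subset] at hcon
  obtain ⟨v, hvY, hvc⟩ := hcon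
  let O : Set V := ⋃₀ {U | IsOpen U ∧ connectedComponentIn (Str K (lab K w)) w ∩ U ⊆
        closure (connectedComponentIn (Str K s) x)}
  have hOopen : IsOpen O := isOpen_sUnion (fun U hU => hU.1)
  have hOsub : connectedComponentIn (Str K (lab K w)) w ∩ O ⊆
      closure (connectedComponentIn (Str K s) x) := by
    rintro z ⟨hz, U, hU, hzU⟩
    exact hU.2 ⟨hz, hzU⟩
  have hcover : connectedComponentIn (Str K (lab K w)) w ⊆
      O ∪ (closure (connectedComponentIn (Str K s) x))ᶜ := by
    intro z hz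
    by_cases hzc : z ∈ closure (connectedComponentIn (Str K s) x)
    · obtain ⟨U, hUo, hzU, hU⟩ := hloc z hz hzc
      exact Or.inl ⟨U, ⟨hUo, hU⟩, hzU⟩
    · exact Or.inr hzc
  obtain ⟨U0, hU0o, hwU0, hU0⟩ := hloc w (mem_connectedComponentIn hwB) hc
  obtain ⟨z, hz, hzO, hzc⟩ := hpre O (closure (connectedComponentIn (Str K s) x))ᶜ hOopen
    isClosed_closure.isOpen_compl hcover
    ⟨w, mem_connectedComponentIn hwB, U0, ⟨hU0o, hU0⟩, hwU0⟩ ⟨v, hvY, hvc⟩
  exact hzc (hOsub ⟨hz, hzO⟩)

end MP528
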