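import Pool.Agent.Lib.MP_528ca9_co.C6a

namespace MP528

open Finset

variable {V : Type*} [NormedAddCommGroup V] [InnerProductSpace ℝ V] [FiniteDimensional ℝ V] {n d : ℕ}
  {K : Fin n → Set V} {Om : Set V}

/-- ROW C6b. (paper F4)
Proof. `R = {c • w | c > 0}`, `S = Str K (lab K w)`. `R ⊆ S` (`Str_smul`). `R` is open in `S`: for
`c • w` use the neighbourhood `c • N`, `N` from C6a. `R` is closed in `S`: a limit of
`c_k • w` is `c • w` with `c ≥ 0`, and `0 ∉ S`. The component is preconnected and meets `R`, so it is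
contained in `R` (`IsPreconnected.subset_isClopen`-type argument in the subtype, or
`isPreconnected_iff_subset_of_disjoint`). -/
theorem F4 (h : CF K Om d) (w : V) (hw : w ∈ TT K) (hd : d ≤ (lab K w).card) :
    connectedComponentIn (Str K (lab K w)) w ⊆ {l | ∃ c : ℝ, 0 < c ∧ l = c • w} := by
  have hwS : w ∈ Str K (lab K w) := ⟨hw, rfl⟩
  have hw0 : w ≠ 0 := hw.1
  have hww : 0 < ‖w‖ ^ 2 := by positivity
  set u : Set V := interior {l | (∀ i ∈ lab K w, gg K i l = 0) → ∃ c : ℝ, 0 < c ∧ l = c • w}
    with hu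
  set v : Set V := {l | l = (inner ℝ w l / ‖w‖ ^ 2) • w ∧ 0 ≤ inner ℝ w l}ᶜ with hv
  have huo : IsOpen u := isOpen_interior
  have hvo : IsOpen v := by
    rw [hv, isOpen_compl_iff]
    have hin : Continuous (fun l : V => inner ℝ w l) := continuous_const.inner continuous_id
    have c1 : IsClosed {l : V | l = (inner ℝ w l / ‖w‖ ^ 2) • w} :=
      isClosed_eq continuous_id ((hin.div_const _).smul continuous_const)
    have c2 : IsClosed {l : V | 0 ≤ inner ℝ w l} := isClosed_le continuous_const hin
    exact c1.inter c2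
  have hRu : ∀ c : ℝ, 0 < c → c • w ∈ u := by
    intro c hc
    have h1 : c • w ∈ Str K (lab K w) := Str_smul h _ w hwS c hc
    have h2 : lab K (c • w) = lab K w := h1.2
    have h3 := ray_local h (c • w) h1.1 (by rw [h2]; exact hd)
    rw [hu, mem_interior_iff_mem_nhds]
    filter_upwards [h3] with l hl hl2
    rw [h2] at hl
    obtain ⟨c', hc', e⟩ := hl hl2
    exact ⟨c' * c, mul_pos hc' hc, by rw [e, smul_smul]⟩
  have huS : ∀ l ∈ Str K (lab K w), l ∈ u → ∃ c : ℝ, 0 < c ∧ l = c • w := by
    intro l hl hlu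
    have h1 := interior_subset hlu
    apply h1
    intro i hi
    have h2 : i ∈ lab K l := by rw [hl.2]; exact hi
    simpa [lab] using h2
  have hinn : ∀ c : ℝ, inner ℝ w (c • w) = c * ‖w‖ ^ 2 := by
    intro c
    rw [inner_smul_right, real_inner_self_eq_norm_sq]
  have hCS : connectedComponentIn (Str K (lab K w)) w ⊆ Str K (lab K w) :=
    connectedComponentIn_subset _ _
  have hpre : IsPreconnected (connectedComponentIn (Str K (lab K w)) w) :=
    isPreconnected_connectedComponentIn
  have hwC : w ∈ connectedComponentIn (Str K (lab K w)) w := mem_connectedComponentIn hwS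
  have hcov : connectedComponentIn (Str K (lab K w)) w ⊆ u ∪ v := by
    intro l hl
    by_cases hlv : l ∈ v
    · exact Or.inr hlv
    · left
      rw [hv, Set.notMem_compl_iff] at hlv
      obtain ⟨h1, h2⟩ := hlv
      have hl0 : l ≠ 0 := (hCS hl).1.1
      have h3 : inner ℝ w l ≠ (0 : ℝ) := by
        intro h4
        apply hl0
        rw [h1, h4]
        simp
      rw [h1]
      exact hRu _ (div_pos (lt_of_le_of_ne h2 (Ne.symm h3)) hww)
  have hdis : connectedComponentIn (Str K (lab K w)) w ∩ (u ∩ v) = ∅ := by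
    rw [Set.eq_empty_iff_forall_notMem]
    rintro l ⟨hl, hlu, hlv⟩
    obtain ⟨c, hc, e⟩ := huS l (hCS hl) hlu
    apply hlv
    constructor
    · rw [e, hinn, mul_div_assoc, div_self hww.ne', mul_one]
    · rw [e, hinn]
      positivity
  rcases isPreconnected_iff_subset_of_disjoint.mp hpre u v huo hvo hcov hdis with h1 | h1
  · intro l hl
    exact huS l (hCS hl) (h1 hl)
  · exfalso
    have h2 := h1 hwC
    apply h2
    constructor
    · rw [real_inner_self_eq_norm_sq, div_self hww.ne', one_smul]
    · exact real_inner_self_nonneg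

end MP528
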