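import Pool.Agent.Lib.MP_528ca9_co.CB2

namespace MP528

open Finset

variable {V : Type*} [NormedAddCommGroup V] [InnerProductSpace ℝ V] [FiniteDimensional ℝ V] {n d : ℕ}
  {K : Fin n → Set V} {Om : Set V}

/-- ROW C6a. (paper F4) `d` labels determine the ray locally.
Proof. Choose `s ⊆ lab K w` with `s.card = d`; `y_i = ct K i w`, `i ∈ s`, are independent (`KK_sep`,
`lab_inj`) and orthogonal to `w` (`⟪y_i,w⟫ = gg i w = 0`), so they span the orthogonal complement of `w`
(dimension `d`): there is `κ > 0` with `max_i |⟪y_i, δ⟫| ≥ κ ‖δ‖` for `δ` orthogonal to `w` (compactness of the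
unit sphere of `wᗮ`, or finite-dimensional injective linear map is bounded below). By `gg_strict`
at `w` there is a neighbourhood `N` of `w` with `|gg i l - gg i w - ⟪y_i, l - w⟫| ≤ (κ/2) ‖l - w‖` on `N`.
If `l ∈ N` near `w` satisfies `gg i l = 0` for all `i ∈ lab K w`, rescale `l' = (‖w‖^2/⟪l,w⟫) • l` so that
`l' - w` is orthogonal to `w` (`⟪l,w⟫ > 0` near `w`; `l'` is still near `w`, `gg i l' = 0`). Then
`κ ‖l' - w‖ ≤ max |⟪y_i, l' - w⟫| ≤ (κ/2) ‖l' - w‖`, so `l' = w`. -/
theorem ray_local (h : CF K Om d) (w : V) (hw : w ∈ TT K) (hd : d ≤ (lab K w).card) :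
    ∀ᶠ l in nhds w, (∀ i ∈ lab K w, gg K i l = 0) → ∃ c : ℝ, 0 < c ∧ l = c • w := by
  classical
  obtain ⟨s, hs, hcard⟩ := Finset.exists_subset_card_eq hd
  have hw0 : w ≠ 0 := hw.1
  have hOm := h.omT w hw
  have hlab : ∀ i ∈ lab K w, gg K i w = 0 := fun i hi => (Finset.mem_filter.1 hi).2
  have hli : LinearIndependent ℝ (fun i : s => ct K i w) :=
    KK_sep h s hcard.le (fun i hi i' hi' he => lab_inj h w hw0 i i' (hs hi) (hs hi') he)
      (fun i => ct K i w) (fun i _ => ct_mem h i w)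
  have horth : ∀ i : s, inner ℝ (ct K i w) w = 0 := fun i => by
    rw [ct_inner h, hlab i (hs i.2)]
  let Φ : V → (s → ℝ) × ℝ := fun l => (fun i => gg K i l, inner ℝ w l)
  let Φ' : V →L[ℝ] (s → ℝ) × ℝ :=
    (ContinuousLinearMap.pi (fun i : s => innerSL ℝ (ct K i w))).prod (innerSL ℝ w)
  have hΦ : HasStrictFDerivAt Φ Φ' w :=
    (hasStrictFDerivAt_pi.2 (fun i : s => gg_strict h i w hOm)).prodMk
      (innerSL ℝ w).hasStrictFDerivAt
  have hww : inner ℝ w w ≠ 0 := inner_self_ne_zero.2 hw0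
  have hinj : Function.Injective (Φ' : V →ₗ[ℝ] (s → ℝ) × ℝ) := by
    rw [← LinearMap.ker_eq_bot, LinearMap.ker_eq_bot']
    intro v hv
    have hv1 : ∀ i : s, inner ℝ (ct K i w) v = 0 := fun i => congrFun (congrArg Prod.fst hv) i
    have hv2 : inner ℝ w v = 0 := congrArg Prod.snd hv
    set S : Submodule ℝ V := Submodule.span ℝ (Set.range (fun i : s => ct K i w)) with hS
    have hfS : Module.finrank ℝ S = d := by
      rw [hS, finrank_span_eq_card hli, Fintype.card_coe, hcard]
    have hfo : Module.finrank ℝ Sᗮ = 1 := by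
      have h1 := Submodule.finrank_add_finrank_orthogonal S
      rw [hfS, h.dim] at h1
      omega
    have hmem : ∀ u : V, (∀ i : s, inner ℝ (ct K i w) u = 0) → u ∈ Sᗮ := by
      intro u hu
      rw [Submodule.mem_orthogonal]
      intro y hy
      induction hy using Submodule.span_induction with
      | mem y hy =>
        obtain ⟨i, rfl⟩ := hy
        exact hu i
      | zero => exact inner_zero_left _
      | add a b _ _ ha hb => rw [inner_add_left, ha, hb, add_zero]
      | smul c a _ ha => rw [inner_smul_left, ha, mul_zero]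
    have hwS : w ∈ Sᗮ := hmem w horth
    have hvS : v ∈ Sᗮ := hmem v hv1
    have hne : (⟨w, hwS⟩ : Sᗮ) ≠ 0 := fun h0 => hw0 (congrArg Subtype.val h0)
    obtain ⟨c, hc⟩ := (finrank_eq_one_iff_of_nonzero' _ hne).1 hfo ⟨v, hvS⟩
    have hc' : c • w = v := congrArg Subtype.val hc
    rw [← hc', inner_smul_right] at hv2
    rcases mul_eq_zero.1 hv2 with h0 | h0
    · rw [← hc', h0, zero_smul]
    · exact absurd h0 hww
  have hdim : Module.finrank ℝ V = Module.finrank ℝ ((s → ℝ) × ℝ) := by
    rw [h.dim, Module.finrank_prod, Module.finrank_fintype_fun_eq_card, Fintype.card_coe, hcard,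
      Module.finrank_self]
  let e : V ≃L[ℝ] (s → ℝ) × ℝ :=
    (LinearEquiv.ofInjectiveOfFinrankEq (Φ' : V →ₗ[ℝ] (s → ℝ) × ℝ) hinj hdim).toContinuousLinearEquiv
  have he : (e : V →L[ℝ] (s → ℝ) × ℝ) = Φ' := by
    ext v <;> rfl
  have hΦe : HasStrictFDerivAt Φ (e : V →L[ℝ] (s → ℝ) × ℝ) w := by
    rw [he]
    exact hΦ
  have hinv := hΦe.eventually_left_inverse
  have hinvw := hinv.self_of_nhds
  have hpos : ∀ᶠ l in nhds w, 0 < inner ℝ w l := by
    have hc : ContinuousAt (fun l : V => inner ℝ w l) w :=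
      (continuous_const.inner continuous_id).continuousAt
    exact hc.eventually_const_lt (real_inner_self_pos.2 hw0)
  have hg : Filter.Tendsto (fun l : V => (inner ℝ w w / inner ℝ w l : ℝ) • l) (nhds w) (nhds w) := by
    have h1 : ContinuousAt (fun l : V => (inner ℝ w w / inner ℝ w l : ℝ) • l) w := by
      refine ContinuousAt.smul (ContinuousAt.div continuousAt_const ?_ hww) continuousAt_id
      exact (continuous_const.inner continuous_id).continuousAt
    have h2 := h1.tendsto
    rw [div_self hww, one_smul] at h2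
    exact h2
  filter_upwards [hpos, hg.eventually hinv] with l hl1 hl2 hl3
  have hΦl : Φ ((inner ℝ w w / inner ℝ w l : ℝ) • l) = Φ w := by
    apply Prod.ext
    · funext i
      show gg K i ((inner ℝ w w / inner ℝ w l : ℝ) • l) = gg K i w
      rw [gg_smul h i l _ (div_nonneg real_inner_self_nonneg hl1.le), hl3 i (hs i.2), mul_zero,
        hlab i (hs i.2)]
    · show inner ℝ w ((inner ℝ w w / inner ℝ w l : ℝ) • l) = inner ℝ w w
      rw [inner_smul_right]
      field_simp
  rw [hΦl, hinvw] at hl2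
  refine ⟨inner ℝ w l / inner ℝ w w, div_pos hl1 (real_inner_self_pos.2 hw0), ?_⟩
  have h5 : (inner ℝ w l / inner ℝ w w : ℝ) • w =
      (inner ℝ w l / inner ℝ w w : ℝ) • ((inner ℝ w w / inner ℝ w l : ℝ) • l) :=
    congrArg (fun u => (inner ℝ w l / inner ℝ w w : ℝ) • u) hl2
  rw [smul_smul, div_mul_div_cancel₀ hww, div_self hl1.ne', one_smul] at h5
  exact h5.symm

end MP528
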