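import Mathlib


namespace MP528

open Finset

theorem C7ab_zero {V ι : Type*} [NormedAddCommGroup V] [InnerProductSpace ℝ V]
    [FiniteDimensional ℝ V] [Fintype ι] [DecidableEq ι] (d : ℕ) (hV : Module.finrank ℝ V = d + 1)
    (w : V) (hw : w ≠ 0) (y : ι → V) (hyw : ∀ i, inner ℝ (y i) w = 0) (S : Finset ι)
    (hS : S.card = d) (hy : LinearIndependent ℝ (fun i : S => y i)) (δ : V)
    (h1 : inner ℝ w δ = 0) (h2 : ∀ i, inner ℝ (y i) δ = 0) : δ = 0 := by
  set U : Submodule ℝ V := Submodule.span ℝ (Set.range (fun i : S => y i)) with hU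
  have hUd : Module.finrank ℝ U = d := by
    rw [hU, finrank_span_eq_card hy, Fintype.card_coe, hS]
  have hUo : Module.finrank ℝ Uᗮ = 1 := by
    have := Submodule.finrank_add_finrank_orthogonal U
    omega
  have hmem : ∀ x : V, (∀ i, inner ℝ (y i) x = 0) → x ∈ Uᗮ := by
    intro x hx
    rw [Submodule.mem_orthogonal]
    intro u hu
    induction hu using Submodule.span_induction with
    | mem z hz =>
      obtain ⟨i, rfl⟩ := hz
      exact hx i
    | zero => exact inner_zero_left _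
    | add a b _ _ ha hb => rw [inner_add_left, ha, hb, add_zero]
    | smul c a _ ha => rw [inner_smul_left, ha, mul_zero]
  have hwU : w ∈ Uᗮ := hmem w hyw
  have hδU : δ ∈ Uᗮ := hmem δ h2
  have hw' : (⟨w, hwU⟩ : Uᗮ) ≠ 0 := by
    intro h
    exact hw (congrArg Subtype.val h)
  obtain ⟨t, ht⟩ := (finrank_eq_one_iff_of_nonzero' _ hw').mp hUo ⟨δ, hδU⟩
  have ht' : t • w = δ := congrArg Subtype.val ht
  rw [← ht', inner_smul_right] at h1
  have h3 : (inner ℝ w w : ℝ) ≠ 0 := inner_self_ne_zero.mpr hw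
  rcases mul_eq_zero.mp h1 with h4 | h4
  · rw [← ht', h4, zero_smul]
  · exact (h3 h4).elim

/-- ROW C7b. A quantitative positivity.
Proof by contradiction and compactness: if no `κ, ε0` work, take for `κ = ε0 = 1/k` a counterexample
`δ_k`, normalise to `‖δ_k‖ = 1` (`δ_k ≠ 0`), pass to a convergent subsequence: the limit `δ` is a unit
vector orthogonal to `w` with `⟪y_i,δ⟫ ≥ 0` for all `i` and `∑ c_i ⟪y_i, δ⟫ ≤ 0`. So all `⟪y_i,δ⟫ = 0`,
and `δ` is orthogonal to `w` and to `d` independent vectors `y_i` (`i ∈ S`) which are orthogonal to `w ≠ 0`: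
these `d + 1` vectors are independent and span `V` (`finrank V = d + 1`), so `δ = 0`, contradiction. -/
theorem quant_pos {V ι : Type*} [NormedAddCommGroup V] [InnerProductSpace ℝ V]
    [FiniteDimensional ℝ V] [Fintype ι] [DecidableEq ι] (d : ℕ) (hV : Module.finrank ℝ V = d + 1)
    (w : V) (hw : w ≠ 0) (y : ι → V) (hyw : ∀ i, inner ℝ (y i) w = 0) (S : Finset ι)
    (hS : S.card = d) (hy : LinearIndependent ℝ (fun i : S => y i)) (c : ι → ℝ)
    (hc : ∀ i, 0 < c i) :
    ∃ κ > 0, ∃ ε0 > 0, ∀ δ : V, inner ℝ w δ = 0 → (∀ i, -ε0 * ‖δ‖ ≤ inner ℝ (y i) δ) →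
      κ * ‖δ‖ ≤ inner ℝ (∑ i, c i • y i) δ := by
  haveI : ProperSpace V := FiniteDimensional.proper ℝ V
  set Y : V := ∑ i, c i • y i with hY
  set φ : V → ℝ := fun δ => max (inner ℝ Y δ) (∑ i, max 0 (-inner ℝ (y i) δ)) with hφ
  have hφc : Continuous φ := by
    refine (continuous_const.inner continuous_id).max
      (continuous_finset_sum _ fun i _ => continuous_const.max
        (continuous_const.inner continuous_id).neg)
  set D : Set V := Metric.sphere (0 : V) 1 ∩ {δ | inner ℝ w δ = 0} with hD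
  have hDc : IsCompact D := (isCompact_sphere (0 : V) 1).inter_right
    (isClosed_eq (continuous_const.inner continuous_id) continuous_const)
  have hpos : ∀ δ ∈ D, 0 < φ δ := by
    rintro δ ⟨hδ1, hδ2⟩
    by_contra hcon
    have hcon' : φ δ ≤ 0 := not_lt.mp hcon
    have h1 : inner ℝ Y δ ≤ 0 := (le_max_left _ _).trans hcon'
    have h2 : ∑ i, max 0 (-inner ℝ (y i) δ) ≤ 0 := (le_max_right _ _).trans hcon'
    have h3 : ∀ i, 0 ≤ inner ℝ (y i) δ := by
      intro i
      have h4 : max 0 (-inner ℝ (y i) δ) ≤ ∑ i, max 0 (-inner ℝ (y i) δ) :=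
        Finset.single_le_sum (f := fun i => max 0 (-inner ℝ (y i) δ))
          (fun i _ => le_max_left _ _) (Finset.mem_univ i)
      have h5 := (le_max_right 0 (-inner ℝ (y i) δ)).trans (h4.trans h2)
      linarith
    have h6 : inner ℝ Y δ = ∑ i, c i * inner ℝ (y i) δ := by
      rw [hY, sum_inner]
      refine Finset.sum_congr rfl fun i _ => ?_
      rw [inner_smul_left]
      simp
    have h7 : ∀ i, inner ℝ (y i) δ = 0 := by
      intro i
      have h8 : c i * inner ℝ (y i) δ ≤ ∑ i, c i * inner ℝ (y i) δ :=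
        Finset.single_le_sum (f := fun i => c i * inner ℝ (y i) δ)
          (fun i _ => mul_nonneg (hc i).le (h3 i)) (Finset.mem_univ i)
      have h9 : c i * inner ℝ (y i) δ ≤ 0 := h8.trans (h6 ▸ h1)
      have h10 : inner ℝ (y i) δ ≤ 0 := by
        by_contra h11
        have := mul_pos (hc i) (not_le.mp h11)
        linarith
      exact le_antisymm h10 (h3 i)
    have h12 := C7ab_zero d hV w hw y hyw S hS hy δ hδ2 h7
    rw [h12] at hδ1
    simp at hδ1
  obtain ⟨m, hm, hmφ⟩ : ∃ m > 0, ∀ δ ∈ D, m ≤ φ δ := by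
    rcases D.eq_empty_or_nonempty with hE | hE
    · exact ⟨1, one_pos, fun δ hδ => by rw [hE] at hδ; exact hδ.elim⟩
    · obtain ⟨δ0, hδ0, hmin⟩ := hDc.exists_isMinOn hE hφc.continuousOn
      exact ⟨φ δ0, hpos δ0 hδ0, fun δ hδ => hmin hδ⟩
  have hcard : (0 : ℝ) ≤ (Fintype.card ι : ℝ) := by positivity
  refine ⟨m, hm, m / (2 * (Fintype.card ι + 1)), by positivity, fun δ hδ hle => ?_⟩
  set ε0 : ℝ := m / (2 * (Fintype.card ι + 1)) with hε0
  have hε0p : 0 < ε0 := by positivity
  rcases eq_or_ne δ 0 with h0 | h0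
  · rw [h0]; simp
  have hn : 0 < ‖δ‖ := norm_pos_iff.mpr h0
  set δ' : V := ‖δ‖⁻¹ • δ with hδ'
  have hδeq : δ = ‖δ‖ • δ' := by
    rw [hδ', smul_smul, mul_inv_cancel₀ hn.ne', one_smul]
  have hδD : δ' ∈ D := by
    refine ⟨?_, ?_⟩
    · rw [mem_sphere_zero_iff_norm, hδ', norm_smul, norm_inv, norm_norm, inv_mul_cancel₀ hn.ne']
    · change inner ℝ w δ' = 0
      rw [hδ', inner_smul_right, hδ, mul_zero]
  have h1 := hmφ δ' hδD
  have h2 : ∀ i, -ε0 ≤ inner ℝ (y i) δ' := by
    intro i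
    have h3 := hle i
    rw [hδeq, inner_smul_right, norm_smul, norm_norm] at h3
    have h4 : ‖δ'‖ = 1 := mem_sphere_zero_iff_norm.mp hδD.1
    rw [h4, mul_one] at h3
    have h5 : ‖δ‖ * (-ε0) ≤ ‖δ‖ * inner ℝ (y i) δ' := by linarith
    exact le_of_mul_le_mul_left h5 hn
  have h6 : ∑ i, max 0 (-inner ℝ (y i) δ') < m := by
    calc ∑ i, max 0 (-inner ℝ (y i) δ') ≤ ∑ _i : ι, ε0 := by
          refine Finset.sum_le_sum fun i _ => max_le hε0p.le ?_
          linarith [h2 i]
      _ = Fintype.card ι * ε0 := by rw [Finset.sum_const, Finset.card_univ, nsmul_eq_mul]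
      _ < m := by
          rw [hε0, mul_div_assoc', div_lt_iff₀ (by positivity)]
          nlinarith
  have h7 : m ≤ inner ℝ Y δ' := by
    rcases le_max_iff.mp h1 with h8 | h8
    · exact h8
    · exact (not_le.mpr h6 h8).elim
  rw [hδeq, inner_smul_right, norm_smul, norm_norm, mem_sphere_zero_iff_norm.mp hδD.1, mul_one,
    mul_comm]
  exact mul_le_mul_of_nonneg_left h7 hn.le

end MP528
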