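import Pool.Agent.Lib.MP_528ca9_co.P1

namespace MP528

open Finset

variable {V : Type*} [NormedAddCommGroup V] [InnerProductSpace ℝ V] [FiniteDimensional ℝ V] {n d : ℕ}
  {K : Fin n → Set V} {Om : Set V}

/-- prescribed inner products with a linearly independent family -/
theorem C7dd_dual {ι : Type*} (x : ι → V) (hx : LinearIndependent ℝ x) (a : ι → ℝ) :
    ∃ v : V, ∀ i, inner ℝ (x i) v = a i := by
  have : CompleteSpace V := FiniteDimensional.complete ℝ V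
  obtain ⟨g, hg⟩ := ((Module.Basis.span hx).constr ℝ a).exists_extend
  refine ⟨(InnerProductSpace.toDual ℝ V).symm (LinearMap.toContinuousLinearMap g), fun i => ?_⟩
  rw [real_inner_comm, InnerProductSpace.toDual_symm_apply]
  have h1 : g (x i) = ((Module.Basis.span hx).constr ℝ a) (Module.Basis.span hx i) := by
    rw [← hg, LinearMap.comp_apply, Submodule.subtype_apply, Module.Basis.span_apply]
  rw [Module.Basis.constr_basis] at h1
  exact h1

/-- a nearby point of the stratum in the slice -/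
theorem C7dd_slice (h : CF K Om d) (w : V) (hw : w ∈ TT K) (s : Finset (Fin n × Bool))
    (hc : w ∈ closure (Str K s)) (τ : ℝ) (hτ : 0 < τ) :
    ∃ l ∈ Str K s, inner ℝ w l = ‖w‖ ^ 2 ∧ ‖l - w‖ < τ := by
  have hw0 : w ≠ 0 := hw.1
  have hww : (0 : ℝ) < ‖w‖ ^ 2 := by
    have := norm_pos_iff.2 hw0
    positivity
  have hin : inner ℝ w w = ‖w‖ ^ 2 := real_inner_self_eq_norm_sq w
  have hcont : ContinuousAt (fun l : V => (‖w‖ ^ 2 / inner ℝ w l) • l) w := by
    have h1 : ContinuousAt (fun l : V => (inner ℝ w l : ℝ)) w :=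
      (continuous_const.inner continuous_id).continuousAt
    have h2 : ContinuousAt (fun l : V => (‖w‖ ^ 2 / inner ℝ w l : ℝ)) w :=
      continuousAt_const.div h1 (by rw [hin]; exact hww.ne')
    exact h2.smul continuousAt_id
  have hval : (fun l : V => (‖w‖ ^ 2 / inner ℝ w l) • l) w = w := by
    simp only
    rw [hin, div_self hww.ne', one_smul]
  have h3 : ∀ᶠ l in nhds w, ‖(‖w‖ ^ 2 / inner ℝ w l) • l - w‖ < τ := by
    have h4 := Metric.tendsto_nhds.1 hcont.tendsto τ hτ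
    filter_upwards [h4] with l hl
    have hval' : (‖w‖ ^ 2 / inner ℝ w w) • w = w := hval
    rw [hval', dist_eq_norm] at hl
    exact hl
  have h5 : ∀ᶠ l in nhds w, (0 : ℝ) < inner ℝ w l := by
    have h6 : ContinuousAt (fun l : V => (inner ℝ w l : ℝ)) w :=
      (continuous_const.inner continuous_id).continuousAt
    exact h6.eventually (lt_mem_nhds (by change (0 : ℝ) < inner ℝ w w; rw [hin]; exact hww))
  obtain ⟨l, ⟨hl1, hl2⟩, hl3⟩ := mem_closure_iff_nhds.1 hc _ (h3.and h5)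
  refine ⟨(‖w‖ ^ 2 / inner ℝ w l) • l, Str_smul h s l hl3 _ (by positivity), ?_, hl1⟩
  rw [inner_smul_right, div_mul_cancel₀ _ hl2.ne']

/-- ROW C7d. Points of the perturbed closed stratum near `w` in the slice.
Proof. Case `s = ∅`: `l = w` (`gg (pert K η) i w = gg K i w + η ‖w‖ ≥ 0`). Case `w ∈ closure (Str K s)`,
`s.card ≤ d`: choose `l1 ∈ Str K s` near `w`, rescaled so that `⟪w, l1 - w⟫ = 0`, `‖l1 - w‖ < τ/2`, and so
near that `gg K i l1 > 0`... : for `i ∈ lab K w \ s` we have `gg K i l1 > 0` (labels of `l1` are `s`).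
Consider `Ψ (l, η) = ((gg K i l + η i.1 * ‖l‖)_{i ∈ s}, ⟪w,l⟫, η)` from `V × (Fin n → ℝ)` to
`(s → ℝ) × ℝ × (Fin n → ℝ)`. It is strictly differentiable at `(l1, 0)` (`gg_strict`; the norm is
strictly differentiable at `l1 ≠ 0`: `contDiffAt_norm`; products) with surjective derivative: the functionals
`⟪ct K i l1, ·⟫` (`i ∈ s`) and `⟪w,·⟫` are independent (if `∑ a_i ct_i + b w = 0`, pair with `l1`:
`⟪ct_i,l1⟫ = 0`, `⟪w,l1⟫ > 0`, so `b = 0`, then `KK_sep`). So (`map_nhds_eq_of_surj`) for all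
`η` near `0` there is `l` near `l1` with `gg K i l + η ‖l‖ = 0` (`i ∈ s`), `⟪w,l⟫ = ⟪w,l1⟫ = ‖w‖^2`, and
still `gg K i l > 0` for `i ∈ lab K w \ s`. -/
theorem near_points (h : CF K Om d) (w : V) (hw : w ∈ TT K) (s : Finset (Fin n × Bool))
    (hs : s ⊆ lab K w) (hcard : s.card ≤ d) (hc : s = ∅ ∨ w ∈ closure (Str K s)) (τ : ℝ)
    (hτ : 0 < τ) :
    ∃ ρ > 0, ∀ η : Fin n → ℝ, (∀ j, 0 ≤ η j ∧ η j < ρ) →
      ∃ l : V, inner ℝ w (l - w) = 0 ∧ ‖l - w‖ < τ ∧ (∀ i ∈ s, gg (pert K η) i l = 0) ∧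
        ∀ i ∈ lab K w, 0 ≤ gg (pert K η) i l := by
  have : CompleteSpace V := FiniteDimensional.complete ℝ V
  rcases hc with hc | hc
  · refine ⟨1, one_pos, fun η hη => ⟨w, by simp, by simpa using hτ, by simp [hc], ?_⟩⟩
    intro i hi
    rw [gg_pert h η (fun j => (hη j).1) i w]
    exact add_nonneg (hw.2 i) (mul_nonneg (hη i.1).1 (norm_nonneg _))
  obtain ⟨l1, hl1, hwl1, hl1w⟩ := C7dd_slice h w hw s hc (τ / 2) (by positivity)
  have hl1T : l1 ∈ TT K := hl1.1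
  have hl1lab : lab K l1 = s := hl1.2
  have hl1Om : l1 ∈ Om := h.omT l1 hl1T
  have hl10 : l1 ≠ 0 := hl1T.1
  have hww : (0 : ℝ) < ‖w‖ ^ 2 := by
    have := norm_pos_iff.2 hw.1
    positivity
  have hmem : ∀ i, i ∈ s ↔ gg K i l1 = 0 := by
    intro i
    rw [← hl1lab]
    simp [lab]
  -- the strict derivative
  obtain ⟨N, hN⟩ : ∃ N : V →L[ℝ] ℝ, HasStrictFDerivAt (fun l : V => ‖l‖) N l1 :=
    ⟨_, (contDiffAt_norm ℝ hl10 (n := 1)).hasStrictFDerivAt one_ne_zero⟩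
  let f1 : V × (Fin n → ℝ) → (s → ℝ) := fun p i => gg K i p.1 + p.2 (i : Fin n × Bool).1 * ‖p.1‖
  let f1' : V × (Fin n → ℝ) →L[ℝ] (s → ℝ) := ContinuousLinearMap.pi fun i : s =>
    (innerSL ℝ (ct K (i : Fin n × Bool) l1)).comp (ContinuousLinearMap.fst ℝ V (Fin n → ℝ)) +
      ((0 : Fin n → ℝ) (i : Fin n × Bool).1 • N.comp (ContinuousLinearMap.fst ℝ V (Fin n → ℝ)) +
        ‖l1‖ • (ContinuousLinearMap.proj (i : Fin n × Bool).1).comp
          (ContinuousLinearMap.snd ℝ V (Fin n → ℝ)))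
  have hf1 : HasStrictFDerivAt f1 f1' (l1, 0) := by
    rw [hasStrictFDerivAt_pi']
    intro i
    have e1 : HasStrictFDerivAt (fun p : V × (Fin n → ℝ) => gg K (i : Fin n × Bool) p.1)
        ((innerSL ℝ (ct K (i : Fin n × Bool) l1)).comp
          (ContinuousLinearMap.fst ℝ V (Fin n → ℝ))) (l1, 0) :=
      HasStrictFDerivAt.comp (l1, (0 : Fin n → ℝ)) (gg_strict h i l1 hl1Om) hasStrictFDerivAt_fst
    have e2 : HasStrictFDerivAt (fun p : V × (Fin n → ℝ) => p.2 (i : Fin n × Bool).1)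
        ((ContinuousLinearMap.proj (i : Fin n × Bool).1).comp
          (ContinuousLinearMap.snd ℝ V (Fin n → ℝ)) : V × (Fin n → ℝ) →L[ℝ] ℝ) (l1, 0) :=
      ((ContinuousLinearMap.proj (i : Fin n × Bool).1).comp
          (ContinuousLinearMap.snd ℝ V (Fin n → ℝ))).hasStrictFDerivAt
    have e3 : HasStrictFDerivAt (fun p : V × (Fin n → ℝ) => ‖p.1‖)
        (N.comp (ContinuousLinearMap.fst ℝ V (Fin n → ℝ))) (l1, 0) :=
      HasStrictFDerivAt.comp (l1, (0 : Fin n → ℝ)) hN hasStrictFDerivAt_fst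
    exact e1.add (e2.mul e3)
  let f2 : V × (Fin n → ℝ) → ℝ := fun p => inner ℝ w p.1
  let f2' : V × (Fin n → ℝ) →L[ℝ] ℝ :=
    (innerSL ℝ w).comp (ContinuousLinearMap.fst ℝ V (Fin n → ℝ))
  have hf2 : HasStrictFDerivAt f2 f2' (l1, 0) := f2'.hasStrictFDerivAt
  let F : V × (Fin n → ℝ) → (s → ℝ) × ℝ × (Fin n → ℝ) := fun p => (f1 p, f2 p, p.2)
  let F' : V × (Fin n → ℝ) →L[ℝ] (s → ℝ) × ℝ × (Fin n → ℝ) :=
    f1'.prod (f2'.prod (ContinuousLinearMap.snd ℝ V (Fin n → ℝ)))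
  have hF : HasStrictFDerivAt F F' (l1, 0) :=
    hf1.prodMk (hf2.prodMk hasStrictFDerivAt_snd)
  have hct0 : ∀ i : s, inner ℝ (ct K (i : Fin n × Bool) l1) l1 = 0 := by
    intro i
    rw [ct_inner h]
    exact (hmem i).1 i.2
  have hli : LinearIndependent ℝ (fun i : s => ct K (i : Fin n × Bool) l1) := by
    refine KK_sep h s hcard ?_ (fun i => ct K i l1) (fun i _ => ct_mem h i l1)
    intro i hi i' hi' he
    exact lab_inj h l1 hl10 i i' (by rw [hl1lab]; exact hi) (by rw [hl1lab]; exact hi') he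
  have hsurj : F'.range = ⊤ := by
    rw [LinearMap.range_eq_top]
    rintro ⟨a, b, δ⟩
    obtain ⟨v0, hv0⟩ := C7dd_dual _ hli (fun i : s => a i - ‖l1‖ * δ (i : Fin n × Bool).1)
    refine ⟨(v0 + ((b - inner ℝ w v0) / ‖w‖ ^ 2) • l1, δ), ?_⟩
    refine Prod.ext ?_ (Prod.ext ?_ rfl)
    · funext i
      change inner ℝ (ct K (i : Fin n × Bool) l1) (v0 + ((b - inner ℝ w v0) / ‖w‖ ^ 2) • l1) +
        ((0 : ℝ) * N (v0 + ((b - inner ℝ w v0) / ‖w‖ ^ 2) • l1) +
          ‖l1‖ * δ (i : Fin n × Bool).1) = a i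
      rw [inner_add_right, inner_smul_right, hct0 i, hv0 i]
      ring
    · change inner ℝ w (v0 + ((b - inner ℝ w v0) / ‖w‖ ^ 2) • l1) = b
      rw [inner_add_right, inner_smul_right, hwl1, div_mul_cancel₀ _ hww.ne']
      ring
  have hmap := hF.map_nhds_eq_of_surj hsurj
  -- the neighbourhood of `(l1, 0)`
  have hN1 : ∀ᶠ p in nhds (l1, (0 : Fin n → ℝ)), ‖p.1 - w‖ < τ ∧
      ∀ i : Fin n × Bool, i ∉ s → 0 < gg K i p.1 := by
    have a1 : ContinuousAt (fun p : V × (Fin n → ℝ) => ‖p.1 - w‖) (l1, 0) :=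
      (continuous_fst.sub continuous_const).norm.continuousAt
    have a2 : ∀ᶠ p in nhds (l1, (0 : Fin n → ℝ)), ‖p.1 - w‖ < τ :=
      a1.eventually (gt_mem_nhds (by simp only; linarith))
    have a3 : ∀ i : Fin n × Bool, ∀ᶠ p in nhds (l1, (0 : Fin n → ℝ)), i ∉ s → 0 < gg K i p.1 := by
      intro i
      by_cases hi : i ∈ s
      · exact Filter.Eventually.of_forall fun p hp => absurd hi hp
      · have a4 : ContinuousAt (fun p : V × (Fin n → ℝ) => gg K i p.1) (l1, 0) :=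
          ((gg_cont h i).comp continuous_fst).continuousAt
        have a5 : 0 < gg K i l1 := lt_of_le_of_ne (hl1T.2 i) (fun h0 => hi ((hmem i).2 h0.symm))
        filter_upwards [a4.eventually (lt_mem_nhds a5)] with p hp _
        exact hp
    filter_upwards [a2, Filter.eventually_all.2 a3] with p hp1 hp2
    exact ⟨hp1, hp2⟩
  have himg := Filter.image_mem_map (m := F) hN1
  rw [hmap] at himg
  have hFl1 : F (l1, 0) = (0, ‖w‖ ^ 2, 0) := by
    refine Prod.ext ?_ (Prod.ext ?_ rfl)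
    · funext i
      change gg K (i : Fin n × Bool) l1 + (0 : ℝ) * ‖l1‖ = 0
      rw [(hmem i).1 i.2]
      ring
    · exact hwl1
  rw [hFl1] at himg
  have hcont : ContinuousAt (fun η : Fin n → ℝ => ((0 : s → ℝ), ‖w‖ ^ 2, η)) 0 := by fun_prop
  have hpre := hcont.preimage_mem_nhds himg
  obtain ⟨ρ, hρ, hball⟩ := Metric.mem_nhds_iff.1 hpre
  refine ⟨ρ, hρ, fun η hη => ?_⟩
  have hηball : η ∈ Metric.ball (0 : Fin n → ℝ) ρ := by
    rw [mem_ball_zero_iff, pi_norm_lt_iff hρ]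
    intro j
    rw [Real.norm_eq_abs, abs_of_nonneg (hη j).1]
    exact (hη j).2
  obtain ⟨⟨l, η'⟩, ⟨hl2, hl3⟩, hl4⟩ := hball hηball
  have b1 : η' = η := congrArg (fun q : (s → ℝ) × ℝ × (Fin n → ℝ) => q.2.2) hl4
  have b2 : inner ℝ w l = ‖w‖ ^ 2 := congrArg (fun q : (s → ℝ) × ℝ × (Fin n → ℝ) => q.2.1) hl4
  have b3 : ∀ i : s, gg K (i : Fin n × Bool) l + η' (i : Fin n × Bool).1 * ‖l‖ = 0 := fun i =>
    congrFun (congrArg (fun q : (s → ℝ) × ℝ × (Fin n → ℝ) => q.1) hl4) i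
  subst b1
  have b4 : ∀ i ∈ s, gg (pert K η') i l = 0 := by
    intro i hi
    rw [gg_pert h η' (fun j => (hη j).1) i l]
    exact b3 ⟨i, hi⟩
  refine ⟨l, ?_, hl2, b4, ?_⟩
  · rw [inner_sub_right, b2, real_inner_self_eq_norm_sq, sub_self]
  · intro i _
    by_cases hi' : i ∈ s
    · exact (b4 i hi').ge
    · rw [gg_pert h η' (fun j => (hη j).1) i l]
      exact add_nonneg (hl3 i hi').le (mul_nonneg (hη i.1).1 (norm_nonneg _))

end MP528
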