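import Pool.Agent.Lib.MP_528ca9_co.P1

namespace MP528

open Finset

variable {V : Type*} [NormedAddCommGroup V] [InnerProductSpace ℝ V] [FiniteDimensional ℝ V] {n d : ℕ}
  {K : Fin n → Set V} {Om : Set V}

/-- the family in question, as a function of the point and of the perturbation -/
noncomputable def C7dfFam {V : Type*} [NormedAddCommGroup V] [InnerProductSpace ℝ V] {n : ℕ}
    (K : Fin n → Set V) (w f : V) (J : Finset (Fin n × Bool)) (p : V × (Fin n → ℝ)) :
    Option (Option J) → V :=
  fun o => Option.casesOn' o w (fun o' : Option J => Option.casesOn' o' f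
    (fun i : J => ct K i p.1 + (p.2 (i : Fin n × Bool).1 / ‖p.1‖) • p.1))

theorem C7df_li {ι : Type*} (y : ι → V) (hy : LinearIndependent ℝ y) (w f : V) (hw : w ≠ 0)
    (hyw : ∀ i, inner ℝ (y i) w = 0) (hfw : inner ℝ f w = 0)
    (hf : f ∉ Submodule.span ℝ (Set.range y)) :
    LinearIndependent ℝ (fun o : Option (Option ι) => Option.casesOn' o w
      (fun o' : Option ι => Option.casesOn' o' f y)) := by
  rw [linearIndependent_option', linearIndependent_option']
  refine ⟨⟨hy, hf⟩, ?_⟩
  intro hmem
  have hle : Submodule.span ℝ (Set.range (fun o' : Option ι => Option.casesOn' o' f y)) ≤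
      (ℝ ∙ w)ᗮ := by
    rw [Submodule.span_le]
    rintro _ ⟨o, rfl⟩
    rw [SetLike.mem_coe, Submodule.mem_orthogonal_singleton_iff_inner_left]
    rcases o with _ | i
    · exact hfw
    · exact hyw i
  have h1 := hle hmem
  rw [Submodule.mem_orthogonal_singleton_iff_inner_left] at h1
  exact hw (inner_self_eq_zero.mp h1)

theorem C7df_cont (h : CF K Om d) (w : V) (hw : w ∈ TT K) (f : V)
    (J : Finset (Fin n × Bool)) : ContinuousAt (C7dfFam K w f J) (w, 0) := by
  have hw0 : w ≠ 0 := hw.1
  rw [continuousAt_pi]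
  intro o
  rcases o with _ | o
  · exact continuousAt_const
  · rcases o with _ | i
    · exact continuousAt_const
    · show ContinuousAt (fun p : V × (Fin n → ℝ) => ct K i p.1 +
        (p.2 (i : Fin n × Bool).1 / ‖p.1‖) • p.1) (w, 0)
      have h1 : ContinuousAt (fun p : V × (Fin n → ℝ) => ct K i p.1) (w, 0) :=
        ContinuousAt.comp (g := ct K (i : Fin n × Bool)) (f := Prod.fst)
          (ct_cont h i w (h.omT w hw)) continuousAt_fst
      have h2 : ContinuousAt (fun p : V × (Fin n → ℝ) => p.2 (i : Fin n × Bool).1) (w, 0) :=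
        ((continuous_apply _).comp continuous_snd).continuousAt
      have h3 : ContinuousAt (fun p : V × (Fin n → ℝ) => ‖p.1‖) (w, 0) :=
        (continuous_norm.comp continuous_fst).continuousAt
      refine h1.add ((h2.div h3 ?_).smul continuousAt_fst)
      simpa using hw0

theorem C7df_one (h : CF K Om d) (w : V) (hw : w ∈ TT K) (f : V) (hf0 : inner ℝ f w = 0)
    (hf : ∀ J ⊆ lab K w, J.card < d →
      f ∉ Submodule.span ℝ ((fun i => ct K i w) '' (J : Set (Fin n × Bool))))
    (J : Finset (Fin n × Bool)) (hJ : J ⊆ lab K w) (hJd : J.card < d) :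
    LinearIndependent ℝ (C7dfFam K w f J (w, 0)) := by
  have hw0 : w ≠ 0 := hw.1
  have hlab : ∀ i ∈ J, gg K i w = 0 := by
    intro i hi
    have := hJ hi
    simpa [lab] using this
  have hli : LinearIndependent ℝ (fun i : J => ct K (i : Fin n × Bool) w) := by
    refine KK_sep h J hJd.le ?_ (fun i => ct K i w) (fun i _ => ct_mem h i w)
    intro i hi i' hi' he
    exact lab_inj h w hw0 i i' (hJ hi) (hJ hi') he
  have key := C7df_li (fun i : J => ct K (i : Fin n × Bool) w) hli w f hw0
    (fun i => by rw [ct_inner h]; exact hlab i i.2) hf0 (by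
      have h2 := hf J hJ hJd
      intro h3
      apply h2
      convert h3 using 2
      ext x
      simp)
  convert key using 1
  funext o
  rcases o with _ | o
  · rfl
  · rcases o with _ | i
    · rfl
    · simp [C7dfFam]

/-- ROW C7f. Independence near `w`.
Proof. For `J ⊆ lab K w`, `J.card < d`, the vectors `ct K i w` (`i ∈ J`), `w`, `f` are linearly independent:
the `ct K i w` are independent (`KK_sep`, `lab_inj`), `f ∉ span`, and all of these are orthogonal to `w ≠ 0`
(`hf0`). Independence of a finite family is an open condition (`isOpen_setOf_linearIndependent`) and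
`l ↦ ct K i l + (η/‖l‖) • l` is continuous at `(w, 0)` (`ct_cont`). Finitely many `J`. -/
theorem indep_near (h : CF K Om d) (w : V) (hw : w ∈ TT K) (f : V) (hf0 : inner ℝ f w = 0)
    (hf : ∀ J ⊆ lab K w, J.card < d →
      f ∉ Submodule.span ℝ ((fun i => ct K i w) '' (J : Set (Fin n × Bool)))) :
    ∃ r > 0, ∃ ρ > 0, ∀ η : Fin n → ℝ, (∀ j, 0 ≤ η j ∧ η j < ρ) → ∀ l : V, ‖l - w‖ < r →
      ∀ J ⊆ lab K w, J.card < d → ∀ (a : Fin n × Bool → ℝ) (b c : ℝ),
        ∑ i ∈ J, a i • (ct K i l + (η i.1 / ‖l‖) • l) + b • w + c • f = 0 →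
          (∀ i ∈ J, a i = 0) ∧ b = 0 ∧ c = 0 := by
  have hall : ∀ᶠ p in nhds ((w, 0) : V × (Fin n → ℝ)),
      ∀ J ∈ (lab K w).powerset, J.card < d → LinearIndependent ℝ (C7dfFam K w f J p) := by
    rw [Filter.eventually_all_finset]
    intro J hJ
    rw [Finset.mem_powerset] at hJ
    by_cases hJd : J.card < d
    · have hopen : IsOpen {v : Option (Option J) → V | LinearIndependent ℝ v} :=
        isOpen_setOfPred_linearIndependent
      have h1 : ∀ᶠ p in nhds ((w, 0) : V × (Fin n → ℝ)),
          C7dfFam K w f J p ∈ {v : Option (Option J) → V | LinearIndependent ℝ v} :=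
        (C7df_cont h w hw f J).eventually
          (hopen.mem_nhds (C7df_one h w hw f hf0 hf J hJ hJd))
      filter_upwards [h1] with p hp _
      exact hp
    · exact Filter.Eventually.of_forall (fun p hp => absurd hp hJd)
  rw [Metric.eventually_nhds_iff] at hall
  obtain ⟨ε, hε, hall⟩ := hall
  refine ⟨ε, hε, ε, hε, ?_⟩
  intro η hη l hl J hJ hJd a b c hsum
  have hp : dist ((l, η) : V × (Fin n → ℝ)) (w, 0) < ε := by
    rw [Prod.dist_eq, max_lt_iff]
    refine ⟨by simpa [dist_eq_norm] using hl, ?_⟩
    show dist η 0 < ε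
    rw [dist_pi_lt_iff hε]
    intro j
    rw [Pi.zero_apply, Real.dist_eq, sub_zero, abs_of_nonneg (hη j).1]
    exact (hη j).2
  have hli := hall hp J (Finset.mem_powerset.mpr hJ) hJd
  rw [Fintype.linearIndependent_iff] at hli
  have h2 := hli (fun o => Option.casesOn' o b (fun o' : Option J => Option.casesOn' o' c
    (fun i : J => a i))) (by
      rw [Fintype.sum_option, Fintype.sum_option]
      simp only [C7dfFam, Option.casesOn'_none, Option.casesOn'_some]
      rw [Finset.sum_coe_sort J (fun i => a i • (ct K i l + (η i.1 / ‖l‖) • l))]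
      rw [← hsum]
      abel)
  refine ⟨fun i hi => ?_, ?_, ?_⟩
  · exact h2 (some (some ⟨i, hi⟩))
  · exact h2 none
  · exact h2 (some none)

end MP528
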