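import Pool.Agent.Lib.MP_528ca9_co.P2bb

namespace MP528

open Finset

variable {V : Type*} [NormedAddCommGroup V] [InnerProductSpace ℝ V] [FiniteDimensional ℝ V] {n d : ℕ}
  {K : Fin n → Set V} {Om : Set V}

/-- ROW P2c. Assembly: small perturbations of a family are families (P1, P2a, P2b). -/
theorem pert_CF (h : CF K Om d) : ∃ ρ > 0, ∀ η : Fin n → ℝ, (∀ j, 0 ≤ η j ∧ η j < ρ) →
    CF (pert K η) Om d := by
  obtain ⟨ρ1, hρ1, H1⟩ := pert_sep h
  obtain ⟨ρ2, hρ2, H2⟩ := pert_TT h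
  refine ⟨min ρ1 ρ2, lt_min hρ1 hρ2, fun η hη => ?_⟩
  have h0 : ∀ j, 0 ≤ η j := fun j => (hη j).1
  have h1 : ∀ j, 0 ≤ η j ∧ η j < ρ1 := fun j => ⟨h0 j, (hη j).2.trans_le (min_le_left _ _)⟩
  have h2 : ∀ j, 0 ≤ η j ∧ η j < ρ2 := fun j => ⟨h0 j, (hη j).2.trans_le (min_le_right _ _)⟩
  exact
    { dim := h.dim
      hd := h.hd
      hn := h.hn
      ne := fun j => (pert_basic h η h0 j).1
      cpt := fun j => (pert_basic h η h0 j).2.1
      cvx := fun j => (pert_basic h η h0 j).2.2.1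
      sep := fun S hS x hx => H1 η h1 S hS x hx
      spn := fun j l hl => by
        obtain ⟨y, hy, hyl⟩ := h.spn j l hl
        exact ⟨y, (pert_basic h η h0 j).2.2.2 hy, hyl⟩
      omO := h.omO
      omS := h.omS
      omZ := h.omZ
      omC := h.omC
      omT := H2 η h2
      omU := fun l hl j y hy y' hy' e1 e2 => pert_uniq h η h0 l hl j y y' hy hy' e1 e2 }

end MP528
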