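import Pool.Agent.Lib.MP_528ca9_co.C1
import Pool.Agent.Lib.MP_528ca9_co.C7a
import Pool.Agent.Lib.MP_528ca9_co.C7d
import Pool.Agent.Lib.MP_528ca9_co.P2b

namespace MP528

open Finset

variable {V : Type*} [NormedAddCommGroup V] [InnerProductSpace ℝ V] [FiniteDimensional ℝ V] {n d : ℕ}
  {K : Fin n → Set V} {Om : Set V}

/-- independence of the contact vectors at `w` -/
private theorem C7_li (h : CF K Om d) (w : V) (hw : w ∈ TT K) (J : Finset (Fin n × Bool))
    (hJ : J ⊆ lab K w) (hc : J.card ≤ d) : LinearIndependent ℝ (fun i : J => ct K i w) :=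
  KK_sep h J hc (fun i hi i' hi' he => lab_inj h w hw.1 i i' (hJ hi) (hJ hi') he)
    (fun i => ct K i w) (fun i _ => ct_mem h i w)

private theorem C7_li' (h : CF K Om d) (w : V) (hw : w ∈ TT K)
    (S : Finset {i : Fin n × Bool // i ∈ lab K w}) (hS : S.card ≤ d) :
    LinearIndependent ℝ (fun i : S => ct K ((i : {i : Fin n × Bool // i ∈ lab K w}) : Fin n × Bool) w) := by
  have h1 := C7_li h w hw (S.map (Function.Embedding.subtype _)) (by
    intro i hi
    obtain ⟨j, -, rfl⟩ := Finset.mem_map.1 hi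
    exact j.2) (by rw [Finset.card_map]; exact hS)
  have h2 := h1.comp (fun i : S =>
    (⟨i.1.1, Finset.mem_map.2 ⟨i.1, i.2, rfl⟩⟩ :
      {x // x ∈ S.map (Function.Embedding.subtype (fun i => i ∈ lab K w))})) (by
    intro i j hij
    have h3 := congrArg (fun z => z.1) hij
    exact Subtype.ext (Subtype.ext h3))
  exact h2

/-- Lagrange multipliers at a local minimum -/
private theorem C7_lagrange {η : Fin n → ℝ} (h : CF K Om d) (h' : CF (pert K η) Om d)
    (hη : ∀ j, 0 ≤ η j) (w f w' : V) (hw' : w' ∈ Om) (J : Finset (Fin n × Bool))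
    (hJ : ∀ i ∈ J, gg (pert K η) i w' = 0)
    (hmin : ∀ᶠ l in nhds w', (∀ i ∈ J, gg (pert K η) i l = 0) →
      inner ℝ w l = inner ℝ w w' → inner ℝ f (w' - w) ≤ inner ℝ f (l - w)) :
    ∃ (a : Fin n × Bool → ℝ) (b c : ℝ),
      ∑ i ∈ J, a i • (ct K i w' + (η i.1 / ‖w'‖) • w') + b • w + c • f = 0 ∧
        ¬ ((∀ i ∈ J, a i = 0) ∧ b = 0 ∧ c = 0) := by
  classical
  let F : Option J → V → ℝ := fun o =>
    Option.elim o (fun l => inner ℝ w l) (fun i l => gg (pert K η) i l)
  let F' : Option J → StrongDual ℝ V := fun o =>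
    Option.elim o (innerSL ℝ w) (fun i => innerSL ℝ (ct (pert K η) i w'))
  have hext : IsLocalExtrOn (fun l => (inner ℝ f (l - w) : ℝ)) {x | ∀ i, F i x = F i w'} w' := by
    left
    change ∀ᶠ l in nhdsWithin w' {x | ∀ i, F i x = F i w'},
      (inner ℝ f (w' - w) : ℝ) ≤ inner ℝ f (l - w)
    rw [eventually_nhdsWithin_iff]
    filter_upwards [hmin] with l hl hmem
    refine hl (fun i hi => ?_) (hmem none)
    have h1 := hmem (some ⟨i, hi⟩)
    change gg (pert K η) i l = gg (pert K η) i w' at h1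
    rw [h1, hJ i hi]
  have hF' : ∀ i, HasStrictFDerivAt (F i) (F' i) w' := by
    intro i
    cases i with
    | none => exact (innerSL ℝ w).hasStrictFDerivAt
    | some i => exact gg_strict h' i w' hw'
  have hφ' : HasStrictFDerivAt (fun l => (inner ℝ f (l - w) : ℝ)) (innerSL ℝ f) w' := by
    have h1 : (fun l => (inner ℝ f (l - w) : ℝ)) = fun l => innerSL ℝ f l - inner ℝ f w := by
      funext l
      rw [inner_sub_right]
      rfl
    rw [h1]
    exact (innerSL ℝ f).hasStrictFDerivAt.sub_const _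
  obtain ⟨Λ, Λ₀, hne, hsum⟩ := hext.exists_multipliers_of_hasStrictFDerivAt hF' hφ'
  let a : Fin n × Bool → ℝ := fun i => if hi : i ∈ J then Λ (some ⟨i, hi⟩) else 0
  have ha : ∀ i : J, a i = Λ (some i) := by
    intro i
    simp [a]
  have hvec : ∑ i : J, Λ (some i) • ct (pert K η) i w' + Λ none • w + Λ₀ • f = 0 := by
    rw [Fintype.sum_option] at hsum
    have h2 : ∀ x : V, (inner ℝ (∑ i : J, Λ (some i) • ct (pert K η) i w' + Λ none • w + Λ₀ • f) x : ℝ)
        = 0 := by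
      intro x
      have h3 := congrArg (fun g : StrongDual ℝ V => g x) hsum
      simp only [F', Option.elim, add_apply, smul_apply,
        _root_.sum_apply, innerSL_apply_apply, smul_eq_mul,
        zero_apply] at h3
      rw [inner_add_left, inner_add_left, sum_inner, real_inner_smul_left, real_inner_smul_left]
      rw [← h3]
      have h4 : ∑ i : J, (inner ℝ (Λ (some i) • ct (pert K η) i w') x : ℝ) =
          ∑ i : J, Λ (some i) * inner ℝ (ct (pert K η) i w') x :=
        Finset.sum_congr rfl fun i _ => real_inner_smul_left _ _ _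
      rw [h4]
      ring
    exact inner_self_eq_zero.1 (h2 _)
  refine ⟨a, Λ none, Λ₀, ?_, ?_⟩
  · rw [← hvec, ← Finset.sum_coe_sort J (fun i => a i • (ct K i w' + (η i.1 / ‖w'‖) • w'))]
    congr 2
    refine Finset.sum_congr rfl fun i _ => ?_
    rw [ha i, ct_pert h η hη i w' hw']
  · rintro ⟨h1, h2, h3⟩
    apply hne
    have h4 : Λ = 0 := by
      funext o
      cases o with
      | none => exact h2
      | some i =>
        rw [← ha i]
        exact h1 i i.2
    rw [h4, h3]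
    rfl

/-- ROW C7. (paper F5) A vertex of the perturbed family near `w` with labels `⊇ s`.
Proof. `B = lab K w`, `y_i = ct K i w` for `i ∈ B` (orthogonal to `w`), `S ⊆ B` with `S.card = d`
(independent: `KK_sep`, `lab_inj`). Apply `pos_comb_generic` and `quant_pos` to the family indexed by
the subtype `B`: coefficients `c_i > 0`, `f = ∑_{i ∈ B} c_i y_i`, constants `κ, ε0`. Let `r ≤ r0`
(`sphere_est`), `r <` radius of `indep_near`, `r` so small that `ball w (2r) ⊆ U`, `0 ∉ closedBall w r`, and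
`gg K i > 0` (`i ∉ B`) and `⊆ Om` on `closedBall w r` (`eventually_pos`). `τ = κ r / (2 (‖f‖ + 1))`, `τ ≤ r/2`;
`ρ` = minimum of the `ρ` of `sphere_est` (for `r`), `near_points` (for `τ`), `indep_near`, `pert_CF`.
Let `η` be given. `R = {l | ⟪w, l - w⟫ = 0, ‖l - w‖ ≤ r, gg' i l = 0 (i ∈ s), 0 ≤ gg' i l (i ∈ B)}`,
`gg' = gg (pert K η)`, is compact, contains the point `l0` of `near_points`, with
`⟪f, l0 - w⟫ ≤ ‖f‖ τ < κ r`. Let `w'` minimise `⟪f, l - w⟫` on `R`. If `‖w' - w‖ = r` then by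
`sphere_est` and `quant_pos` `⟪f, w' - w⟫ ≥ κ r`, contradiction. So `‖w' - w‖ < r`. `w' ≠ 0`,
`gg' i w' ≥ 0` for all `i` (for `i ∉ B`, `gg' i ≥ gg K i > 0`, `gg_pert`), so `w' ∈ TT (pert K η)`,
`J = lab (pert K η) w' ⊆ B`, `s ⊆ J`, `J.card ≤ d` (`hgen`, `w' ∈ Om`). Suppose `J.card < d`. Near `w'` the points
with `gg' i l = 0` (`i ∈ J`) and `⟪w, l⟫ = ⟪w, w'⟫` lie in `R` (`gg' i > 0` near `w'` for `i ∈ B \ J`), so `w'` is a
local minimum of `⟪f,·⟫` on that set: `IsLocalExtrOn.exists_multipliers_of_hasStrictFDerivAt` with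
index type `Option J` (functions `gg' i`, derivative `innerSL (ct (pert K η) i w')` by `gg_strict` for
`pert_CF`, and `⟪w,·⟫`), and `ct_pert`: a nontrivial relation
`∑_{i ∈ J} a_i (ct K i w' + (η/‖w'‖) w') + b w + c f = 0`, contradicting `indep_near`. -/
theorem F5 (h : CF K Om d) (w : V) (hw : w ∈ TT K) (hd : d ≤ (lab K w).card)
    (s : Finset (Fin n × Bool)) (hs : s ⊆ lab K w) (hcard : s.card ≤ d)
    (hc : s = ∅ ∨ w ∈ closure (Str K s)) (U : Set V) (hU : U ∈ nhds w) :
    ∃ ρ > 0, ∀ η : Fin n → ℝ, (∀ j, 0 < η j ∧ η j < ρ) →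
      (∀ l ∈ Om, (lab (pert K η) l).card ≤ d) →
      ∃ w' ∈ U, w' ∈ TT (pert K η) ∧ s ⊆ lab (pert K η) w' ∧ (lab (pert K η) w').card = d := by
  classical
  -- the positive combination
  let y : {i : Fin n × Bool // i ∈ lab K w} → V := fun i => ct K i w
  have hyw : ∀ i, inner ℝ (y i) w = 0 := by
    intro i
    change inner ℝ (ct K i w) w = 0
    rw [ct_inner h i w]
    exact (Finset.mem_filter.1 i.2).2
  obtain ⟨S, -, hS⟩ := Finset.exists_subset_card_eq
    (s := (Finset.univ : Finset {i : Fin n × Bool // i ∈ lab K w})) (n := d) (by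
      rw [Finset.card_univ, Fintype.card_coe]
      exact hd)
  have hy : LinearIndependent ℝ (fun i : S => y i) := C7_li' h w hw S hS.le
  obtain ⟨c, hc1, hc2⟩ := pos_comb_generic d y S hS hy
  obtain ⟨κ, hκ, ε0, hε0, hquant⟩ := quant_pos d h.dim w hw.1 y hyw S hS hy c hc1
  set f : V := ∑ i, c i • y i with hf
  have hf0 : inner ℝ f w = 0 := by
    rw [hf, sum_inner]
    refine Finset.sum_eq_zero fun i _ => ?_
    rw [real_inner_smul_left, hyw i, mul_zero]
  have hfJ : ∀ J ⊆ lab K w, J.card < d →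
      f ∉ Submodule.span ℝ ((fun i => ct K i w) '' (J : Set (Fin n × Bool))) := by
    intro J hJ hJd
    have h1 := hc2 (J.subtype (fun i => i ∈ lab K w)) (by
      rw [Finset.card_subtype]
      exact lt_of_le_of_lt (Finset.card_filter_le _ _) hJd)
    have h2 : y '' ((J.subtype (fun i => i ∈ lab K w) : Finset _) : Set _) =
        (fun i => ct K i w) '' (J : Set (Fin n × Bool)) := by
      ext v
      constructor
      · rintro ⟨i, hi, rfl⟩
        exact ⟨i.1, Finset.mem_subtype.1 hi, rfl⟩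
      · rintro ⟨i, hi, rfl⟩
        exact ⟨⟨i, hJ hi⟩, Finset.mem_subtype.2 hi, rfl⟩
    rw [h2] at h1
    exact h1
  -- the radii
  obtain ⟨r0, hr0, hsph⟩ := sphere_est h w hw ε0 hε0
  obtain ⟨r1, hr1, ρ1, hρ1, hind⟩ := indep_near h w hw f hf0 hfJ
  obtain ⟨r2, hr2, hball⟩ := Metric.mem_nhds_iff.1 (Filter.inter_mem hU (eventually_pos h w hw))
  set r : ℝ := min r0 (min (r1 / 2) (r2 / 2)) with hr
  have hrpos : 0 < r := lt_min hr0 (lt_min (by positivity) (by positivity))
  have hrr0 : r ≤ r0 := min_le_left _ _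
  have hrr1 : r < r1 := lt_of_le_of_lt ((min_le_right _ _).trans (min_le_left _ _)) (by linarith)
  have hrr2 : r < r2 := lt_of_le_of_lt ((min_le_right _ _).trans (min_le_right _ _)) (by linarith)
  set τ : ℝ := min (r / 2) (κ * r / (2 * (‖f‖ + 1))) with hτ
  have hτpos : 0 < τ := lt_min (by positivity) (by positivity)
  obtain ⟨ρ3, hρ3, hnear⟩ := near_points h w hw s hs hcard hc τ hτpos
  obtain ⟨ρ4, hρ4, hsph4⟩ := hsph r hrpos hrr0
  obtain ⟨ρ5, hρ5, hCF⟩ := pert_CF h
  refine ⟨min (min ρ1 ρ3) (min ρ4 ρ5), lt_min (lt_min hρ1 hρ3) (lt_min hρ4 hρ5), ?_⟩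
  intro η hη hgen
  have hη0 : ∀ j, 0 ≤ η j := fun j => (hη j).1.le
  have hη1 : ∀ j, 0 ≤ η j ∧ η j < ρ1 := fun j =>
    ⟨hη0 j, (hη j).2.trans_le ((min_le_left _ _).trans (min_le_left _ _))⟩
  have hη3 : ∀ j, 0 ≤ η j ∧ η j < ρ3 := fun j =>
    ⟨hη0 j, (hη j).2.trans_le ((min_le_left _ _).trans (min_le_right _ _))⟩
  have hη4 : ∀ j, 0 ≤ η j ∧ η j < ρ4 := fun j =>
    ⟨hη0 j, (hη j).2.trans_le ((min_le_right _ _).trans (min_le_left _ _))⟩
  have hη5 : ∀ j, 0 ≤ η j ∧ η j < ρ5 := fun j =>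
    ⟨hη0 j, (hη j).2.trans_le ((min_le_right _ _).trans (min_le_right _ _))⟩
  have h' : CF (pert K η) Om d := hCF η hη5
  have hgc : ∀ i, Continuous (gg (pert K η) i) := fun i => gg_cont h' i
  -- the compact region
  let R : Set V := Metric.closedBall w r ∩ ({l | (inner ℝ w (l - w) : ℝ) = 0} ∩
    ((⋂ i ∈ s, {l | gg (pert K η) i l = 0}) ∩ ⋂ i ∈ lab K w, {l | 0 ≤ gg (pert K η) i l}))
  have hRmem : ∀ l, l ∈ R ↔ ‖l - w‖ ≤ r ∧ (inner ℝ w (l - w) : ℝ) = 0 ∧
      (∀ i ∈ s, gg (pert K η) i l = 0) ∧ ∀ i ∈ lab K w, 0 ≤ gg (pert K η) i l := by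
    intro l
    simp only [R, Set.mem_inter_iff, Metric.mem_closedBall, dist_eq_norm, Set.mem_ofPred_eq,
      Set.mem_iInter]
  have hRc : IsCompact R := by
    refine (isCompact_closedBall w r).inter_right ?_
    refine IsClosed.inter ?_ (IsClosed.inter ?_ ?_)
    · exact isClosed_eq (by fun_prop) continuous_const
    · exact isClosed_biInter fun i _ => isClosed_eq (hgc i) continuous_const
    · exact isClosed_biInter fun i _ => isClosed_le continuous_const (hgc i)
  obtain ⟨l0, hl1, hl2, hl3, hl4⟩ := hnear η hη3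
  have hl0 : l0 ∈ R := by
    rw [hRmem]
    exact ⟨hl2.le.trans ((min_le_left _ _).trans (by linarith)), hl1, hl3, hl4⟩
  obtain ⟨w', hw'R, hw'min⟩ := hRc.exists_isMinOn ⟨l0, hl0⟩
    (f := fun l => (inner ℝ f (l - w) : ℝ)) (by fun_prop)
  have hmin : ∀ l ∈ R, (inner ℝ f (w' - w) : ℝ) ≤ inner ℝ f (l - w) := fun l hl =>
    isMinOn_iff.1 hw'min l hl
  obtain ⟨hb1, hb2, hb3, hb4⟩ := (hRmem w').1 hw'R
  -- the minimum is not on the sphere
  have hlt : ‖w' - w‖ < r := by
    refine lt_of_le_of_ne hb1 fun heq => ?_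
    have h1 := hsph4 η hη4 w' heq hb4
    have h2 := hquant (w' - w) hb2 (fun i => h1 i i.2)
    have h3 : (inner ℝ f (l0 - w) : ℝ) ≤ ‖f‖ * ‖l0 - w‖ := real_inner_le_norm _ _
    have h4 : ‖f‖ * ‖l0 - w‖ ≤ ‖f‖ * τ := mul_le_mul_of_nonneg_left hl2.le (norm_nonneg _)
    have h5 : ‖f‖ * τ ≤ ‖f‖ * (κ * r / (2 * (‖f‖ + 1))) :=
      mul_le_mul_of_nonneg_left (min_le_right _ _) (norm_nonneg _)
    have h6 : ‖f‖ * (κ * r / (2 * (‖f‖ + 1))) < κ * r := by
      rw [← mul_div_assoc, div_lt_iff₀ (by positivity)]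
      have : 0 < κ * r := by positivity
      nlinarith [norm_nonneg f]
    have h7 := hmin l0 hl0
    rw [heq] at h2
    linarith
  have hw'b : w' ∈ Metric.ball w r2 := by
    rw [Metric.mem_ball, dist_eq_norm]
    linarith
  obtain ⟨hw'U, hw'0, hw'Om, hw'pos⟩ := hball hw'b
  have hout : ∀ i, i ∉ lab K w → 0 < gg (pert K η) i w' := by
    intro i hi
    rw [gg_pert h η hη0 i w']
    have := hw'pos i hi
    have := hη0 i.1
    positivity
  have hTT : w' ∈ TT (pert K η) := by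
    refine ⟨hw'0, fun i => ?_⟩
    by_cases hi : i ∈ lab K w
    · exact hb4 i hi
    · exact (hout i hi).le
  have hlabmem : ∀ i, i ∈ lab (pert K η) w' ↔ gg (pert K η) i w' = 0 := by
    intro i
    rw [lab, Finset.mem_filter]
    exact ⟨fun h => h.2, fun h => ⟨Finset.mem_univ _, h⟩⟩
  have hJB : lab (pert K η) w' ⊆ lab K w := by
    intro i hi
    by_contra hi2
    exact (hout i hi2).ne' ((hlabmem i).1 hi)
  have hsJ : s ⊆ lab (pert K η) w' := fun i hi => (hlabmem i).2 (hb3 i hi)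
  refine ⟨w', hw'U, hTT, hsJ, ?_⟩
  refine le_antisymm (hgen w' hw'Om) ?_
  by_contra hJd
  rw [not_le] at hJd
  -- Lagrange
  obtain ⟨a, b, c', hrel, hne⟩ := C7_lagrange h h' hη0 w f w' hw'Om (lab (pert K η) w')
    (fun i hi => (hlabmem i).1 hi) (by
      have e1 : ∀ᶠ l in nhds w', ‖l - w‖ < r := by
        have : Continuous fun l : V => ‖l - w‖ := by fun_prop
        exact this.continuousAt.eventually_lt continuousAt_const hlt
      have e2 : ∀ᶠ l in nhds w', ∀ i : Fin n × Bool, i ∈ lab K w → i ∉ lab (pert K η) w' →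
          0 < gg (pert K η) i l := by
        refine Filter.eventually_all.2 fun i => ?_
        by_cases hi : i ∈ lab K w ∧ i ∉ lab (pert K η) w'
        · have h1 : 0 < gg (pert K η) i w' := by
            refine lt_of_le_of_ne (hb4 i hi.1) fun h0 => hi.2 ((hlabmem i).2 h0.symm)
          have h2 : ∀ᶠ l in nhds w', 0 < gg (pert K η) i l :=
            continuousAt_const.eventually_lt (hgc i).continuousAt h1
          exact h2.mono fun l hl _ _ => hl
        · exact Filter.Eventually.of_forall fun l g1 g2 => absurd ⟨g1, g2⟩ hi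
      filter_upwards [e1, e2] with l g1 g2 g3 g4
      refine hmin l ((hRmem l).2 ⟨g1.le, ?_, fun i hi => g3 i (hsJ hi), fun i hi => ?_⟩)
      · rw [inner_sub_right, g4, ← inner_sub_right]
        exact hb2
      · by_cases hi2 : i ∈ lab (pert K η) w'
        · exact (g3 i hi2).ge
        · exact (g2 i hi hi2).le)
  exact hne (hind η hη1 w' (hlt.trans hrr1) _ hJB hJd a b c' hrel)

end MP528
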