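import Mathlib


namespace MP528

open Finset

/-- ROW C7a helper: a proper subspace meets the moment curve in finitely many points. -/
theorem c7aa_poly {ι : Type*} [Fintype ι] [DecidableEq ι] (P : Submodule ℝ (ι → ℝ)) (hP : P ≠ ⊤)
    (e : ι → ℕ) (he : Function.Injective e) :
    ∃ p : Polynomial ℝ, p ≠ 0 ∧ ∀ t : ℝ, (fun i => t ^ e i) ∈ P → p.eval t = 0 := by
  obtain ⟨f, hf0, hf⟩ := Submodule.exists_le_ker_of_lt_top P (lt_top_iff_ne_top.2 hP)
  refine ⟨∑ i, Polynomial.C (f (fun j => if i = j then 1 else 0)) * Polynomial.X ^ e i, ?_, ?_⟩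
  · intro h0
    apply hf0
    have hc : ∀ i, f (fun j => if i = j then 1 else 0) = 0 := by
      intro i
      have h1 := congrArg (fun q => Polynomial.coeff q (e i)) h0
      simp only [Polynomial.finsetSum_coeff, Polynomial.coeff_C_mul, Polynomial.coeff_X_pow,
        Polynomial.coeff_zero] at h1
      rw [Finset.sum_eq_single i] at h1
      · simpa using h1
      · intro k _ hk
        have : e i ≠ e k := fun h => hk (he h).symm
        rw [if_neg this, mul_zero]
      · intro h
        exact absurd (Finset.mem_univ i) h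
    refine LinearMap.ext (fun x => ?_)
    rw [LinearMap.pi_apply_eq_sum_univ f x, LinearMap.zero_apply]
    refine Finset.sum_eq_zero (fun i _ => ?_)
    rw [hc i, smul_zero]
  · intro t ht
    have h1 : f (fun i => t ^ e i) = 0 := LinearMap.mem_ker.1 (hf ht)
    rw [LinearMap.pi_apply_eq_sum_univ f] at h1
    rw [Polynomial.eval_finsetSum]
    refine Eq.trans ?_ h1
    refine Finset.sum_congr rfl (fun i _ => ?_)
    rw [Polynomial.eval_mul, Polynomial.eval_C, Polynomial.eval_pow, Polynomial.eval_X, smul_eq_mul,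
      mul_comm]

/-- ROW C7a. Positive combinations outside small spans.
Proof. Let `W = span (range y)`, `finrank W ≥ d` (it contains `d` independent vectors). The linear map
`Φ : (ι → ℝ) → V`, `c ↦ ∑ c_i y_i`, has range `W`. For `J` with `J.card < d` the subspace
`span (y '' J)` has dimension `< d`, so it does not contain `W` and `Φ⁻¹ (span (y '' J))` is a proper
subspace of `ι → ℝ`: closed with empty interior, its complement is open and dense. The intersection of
these finitely many dense open sets meets the nonempty open set `{c | ∀ i, 0 < c i}`. -/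
theorem pos_comb_generic {V ι : Type*} [NormedAddCommGroup V] [NormedSpace ℝ V]
    [FiniteDimensional ℝ V] [Fintype ι] [DecidableEq ι] (d : ℕ) (y : ι → V) (S : Finset ι)
    (hS : S.card = d) (hy : LinearIndependent ℝ (fun i : S => y i)) :
    ∃ c : ι → ℝ, (∀ i, 0 < c i) ∧ ∀ J : Finset ι, J.card < d →
      ∑ i, c i • y i ∉ Submodule.span ℝ (y '' (J : Set ι)) := by
  classical
  let Φ : (ι → ℝ) →ₗ[ℝ] V := Fintype.linearCombination ℝ y
  have hΦ : ∀ c : ι → ℝ, Φ c = ∑ i, c i • y i := fun c => Fintype.linearCombination_apply ℝ y c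
  have hprop : ∀ J : Finset ι, J.card < d →
      (Submodule.span ℝ (y '' (J : Set ι))).comap Φ ≠ ⊤ := by
    intro J hJ htop
    have hmem : ∀ i, y i ∈ Submodule.span ℝ (y '' (J : Set ι)) := by
      intro i
      have h1 : Pi.single i (1 : ℝ) ∈ (Submodule.span ℝ (y '' (J : Set ι))).comap Φ := by
        rw [htop]; exact Submodule.mem_top
      rw [Submodule.mem_comap, hΦ] at h1
      rw [Finset.sum_eq_single i] at h1
      · rwa [Pi.single_eq_same, one_smul] at h1
      · intro k _ hk
        rw [Pi.single_eq_of_ne hk, zero_smul]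
      · intro h
        exact absurd (Finset.mem_univ i) h
    have hli : LinearIndependent ℝ
        (fun i : S => (⟨y i, hmem i⟩ : Submodule.span ℝ (y '' (J : Set ι)))) :=
      LinearIndependent.of_comp (Submodule.subtype _) hy
    have h2 := hli.fintype_card_le_finrank
    rw [Fintype.card_coe, hS] at h2
    have h3 : Module.finrank ℝ (Submodule.span ℝ (y '' (J : Set ι))) ≤ J.card := by
      have h4 : y '' (J : Set ι) = ((J.image y : Finset V) : Set V) := by
        rw [Finset.coe_image]
      rw [h4]
      exact (finrank_span_finset_le_card (R := ℝ) (J.image y)).trans Finset.card_image_le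
    omega
  let e : ι → ℕ := fun i => (Fintype.equivFin ι i : ℕ)
  have he : Function.Injective e := fun a b hab =>
    (Fintype.equivFin ι).injective (Fin.ext hab)
  have hpoly : ∀ J : Finset ι, ∃ p : Polynomial ℝ, p ≠ 0 ∧ (J.card < d → ∀ t : ℝ,
      (fun i => t ^ e i) ∈ (Submodule.span ℝ (y '' (J : Set ι))).comap Φ → p.eval t = 0) := by
    intro J
    by_cases hJ : J.card < d
    · obtain ⟨p, hp0, hp⟩ := c7aa_poly _ (hprop J hJ) e he
      exact ⟨p, hp0, fun _ => hp⟩
    · exact ⟨1, one_ne_zero, fun h => absurd h hJ⟩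
  choose p hp0 hp using hpoly
  let q : Polynomial ℝ := ∏ J : Finset ι, p J
  have hq0 : q ≠ 0 := Finset.prod_ne_zero_iff.2 (fun J _ => hp0 J)
  obtain ⟨t, ht0, htq⟩ : ∃ t : ℝ, 0 < t ∧ q.eval t ≠ 0 := by
    by_contra hcon
    have h1 : Set.Ioi (0 : ℝ) ⊆ {t | q.IsRoot t} := by
      intro t ht
      by_contra h2
      exact hcon ⟨t, ht, h2⟩
    have h2 : (Set.Ioi (0 : ℝ)).Finite := (Polynomial.finite_setOfPred_isRoot hq0).subset h1
    exact Set.Ioi_infinite (0 : ℝ) h2
  refine ⟨fun i => t ^ e i, fun i => pow_pos ht0 _, ?_⟩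
  intro J hJ hmem
  apply htq
  have h1 : (fun i => t ^ e i) ∈ (Submodule.span ℝ (y '' (J : Set ι))).comap Φ := by
    rw [Submodule.mem_comap, hΦ]
    exact hmem
  have h2 := hp J hJ t h1
  show Polynomial.eval t (∏ J : Finset ι, p J) = 0
  rw [Polynomial.eval_prod]
  exact Finset.prod_eq_zero (Finset.mem_univ J) h2

end MP528
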