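import Pool.Agent.Lib.MP_528ca9_co.P1

namespace MP528

open Finset

variable {V : Type*} [NormedAddCommGroup V] [InnerProductSpace ℝ V] [FiniteDimensional ℝ V] {n d : ℕ}
  {K : Fin n → Set V} {Om : Set V}

/-- ROW C7c. Lower bound for the gradients on the small sphere around `w` in the slice.
Proof. `y_i = ct K i w`, `gg_strict` at `w`: there is `r0 > 0` (`r0 < ‖w‖`) with
`gg K i l ≤ ⟪y_i, l - w⟫ + (ε0/2) ‖l - w‖` for `‖l - w‖ ≤ r0`, `i ∈ lab K w` (`gg K i w = 0`). Given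
`0 < r ≤ r0` let `ρ = ε0 r / (2 (‖w‖ + r) + 1)`. If `‖l - w‖ = r` and
`0 ≤ gg (pert K η) i l = gg K i l + η ‖l‖` then `⟪y_i, l - w⟫ ≥ -(ε0/2) r - ρ (‖w‖ + r) ≥ -ε0 r`. -/
theorem sphere_est (h : CF K Om d) (w : V) (hw : w ∈ TT K) (ε0 : ℝ) (hε : 0 < ε0) :
    ∃ r0 > 0, ∀ r, 0 < r → r ≤ r0 → ∃ ρ > 0, ∀ η : Fin n → ℝ, (∀ j, 0 ≤ η j ∧ η j < ρ) →
      ∀ l : V, ‖l - w‖ = r → (∀ i ∈ lab K w, 0 ≤ gg (pert K η) i l) →
        ∀ i ∈ lab K w, -ε0 * ‖l - w‖ ≤ inner ℝ (ct K i w) (l - w) := by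
  have hwO : w ∈ Om := h.omT w hw
  have hev : ∀ᶠ l in nhds w, ∀ i : Fin n × Bool,
      ‖gg K i l - gg K i w - (innerSL ℝ (ct K i w)) (l - w)‖ ≤ ε0 / 2 * ‖l - w‖ := by
    rw [Filter.eventually_all]
    intro i
    exact ((gg_strict h i w hwO).hasFDerivAt.isLittleO).def (half_pos hε)
  obtain ⟨r1, hr1, hball⟩ := Metric.eventually_nhds_iff.1 hev
  refine ⟨r1 / 2, half_pos hr1, fun r hr hr0 => ?_⟩
  have hD : (0 : ℝ) < 2 * (‖w‖ + r) + 1 := by positivity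
  refine ⟨ε0 * r / (2 * (‖w‖ + r) + 1), by positivity, fun η hη l hl hpos i hi => ?_⟩
  have h1 := hball (y := l) (by rw [dist_eq_norm, hl]; linarith) i
  have hgw : gg K i w = 0 := by simpa [lab] using hi
  rw [hgw, sub_zero, hl, Real.norm_eq_abs] at h1
  have h2 := (abs_le.1 h1).2
  have h3 : (innerSL ℝ (ct K i w)) (l - w) = inner ℝ (ct K i w) (l - w) := rfl
  rw [h3] at h2
  have h4 := hpos i hi
  rw [gg_pert h η (fun j => (hη j).1) i l] at h4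
  have hnl : ‖l‖ ≤ ‖w‖ + r := by
    have : l = w + (l - w) := by abel
    calc ‖l‖ = ‖w + (l - w)‖ := by rw [← this]
      _ ≤ ‖w‖ + ‖l - w‖ := norm_add_le _ _
      _ = ‖w‖ + r := by rw [hl]
  have h5 : η i.1 * ‖l‖ ≤ ε0 * r / (2 * (‖w‖ + r) + 1) * (‖w‖ + r) :=
    mul_le_mul (hη i.1).2.le hnl (norm_nonneg _) (by positivity)
  have h6 : ε0 * r / (2 * (‖w‖ + r) + 1) * (‖w‖ + r) ≤ ε0 / 2 * r := by
    rw [div_mul_eq_mul_div, div_le_iff₀ hD]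
    have : 0 < ε0 * r := mul_pos hε hr
    nlinarith [norm_nonneg w]
  rw [hl]
  linarith

end MP528
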