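import Pool.Agent.Lib.MP_528ca9_co.C5
import Pool.Agent.Lib.MP_528ca9_co.C6

namespace MP528

open Finset

variable {V : Type*} [NormedAddCommGroup V] [InnerProductSpace ℝ V] [FiniteDimensional ℝ V] {n d : ℕ}
  {K : Fin n → Set V} {Om : Set V}

/-- ROW C8b. The code determines the face (`comp_eq_of_closure` for `flag = false`). -/
theorem code_inj (h : CF K Om d) (Y Y' : Set V) (w : V) (s : Finset (Fin n × Bool)) (flag : Bool)
    (hw : w ∈ TT K) (hs : s.card ≤ d)
    (h1 : flag = true → Y = {l | ∃ c : ℝ, 0 < c ∧ l = c • w})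
    (h2 : flag = false → ∃ x ∈ Str K s, Y = connectedComponentIn (Str K s) x ∧ w ∈ closure Y)
    (h1' : flag = true → Y' = {l | ∃ c : ℝ, 0 < c ∧ l = c • w})
    (h2' : flag = false → ∃ x ∈ Str K s, Y' = connectedComponentIn (Str K s) x ∧ w ∈ closure Y') :
    Y = Y' := by
  cases hf : flag with
  | true => rw [h1 hf, h1' hf]
  | false =>
    obtain ⟨x, hx, hY, hc⟩ := h2 hf
    obtain ⟨x', hx', hY', hc'⟩ := h2' hf
    rw [hY] at hc
    rw [hY'] at hc'
    rw [hY, hY']
    exact comp_eq_of_closure h s hs w x x' hw hx hx' hc hc'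

end MP528
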