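import Pool.Agent.Lib.MP_528ca9_co.C8a
import Pool.Agent.Lib.MP_528ca9_co.C8b

namespace MP528

open Finset

variable {V : Type*} [NormedAddCommGroup V] [InnerProductSpace ℝ V] [FiniteDimensional ℝ V] {n d : ℕ}
  {K : Fin n → Set V} {Om : Set V}

/-- ROW C8c. (paper F6) The count for a finite set of faces.
Proof. For `Y ∈ Φ` choose a code `(w_Y, s_Y, flag_Y)` (C8a). Let `r > 0` be at most half of the distance of
any two distinct `w_Y`, `U_Y = {l | l ≠ 0 ∧ ‖(‖l‖⁻¹) • l - w_Y‖ < r}`, an open neighbourhood of `w_Y`; for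
`w_Y ≠ w_Y'` these are disjoint. `F5` gives `ρ_Y`; let `ρ` be the minimum of the `ρ_Y` and of the
radius of `pert_CF`, `η` from `generic_pert` for `ρ`. For `Y ∈ Φ` `F5` gives
`w'_Y ∈ U_Y ∩ TT (pert K η)` with `s_Y ⊆ lab (pert K η) w'_Y`, of cardinality `d`. Put
`v_Y = w'_Y/‖w'_Y‖` (same labels). The finite set `W = {v_Y}` satisfies the hypotheses of `vertex_bound` for the
family `pert K η`. The map `Y ↦ (v_Y, s_Y, flag_Y)` is injective: if `v_Y = v_Y'` then `w_Y = w_Y'`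
(disjointness of `U`), so the codes are equal and `Y = Y'` (C8b). Its values lie in the set of triples
`(v, s, flag)`, `v ∈ W`, `s ⊆ lab (pert K η) v`, which has `W.card * 2^d * 2` elements. -/
theorem face_count (h : CF K Om d) (Φ : Finset (Set V)) (hΦ : ∀ Y ∈ Φ, Y ∈ AFaces K) :
    Φ.card ≤ 2 * 2 ^ d * (2 * (2 ^ d * ((2 * d + 2) ^ d * n ^ ((d + 1) / 2)))) := by
  classical
  choose w s flag hw1 hw2 hw3 hw4 hw5 hw6 hw7 hw8 using
    fun Y : Φ => face_code h Y.1 (hΦ Y.1 Y.2)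
  -- disjoint neighbourhoods
  obtain ⟨U, hU, hdis⟩ := (Set.finite_range w).t2_separation
  let U' : Φ → Set V := fun Y => {l | (‖l‖⁻¹ : ℝ) • l ∈ U (w Y)}
  have hU' : ∀ Y, U' Y ∈ nhds (w Y) := by
    intro Y
    have hc : ContinuousAt (fun l : V => (‖l‖⁻¹ : ℝ) • l) (w Y) := by
      apply ContinuousAt.smul
      · apply ContinuousAt.inv₀ continuous_norm.continuousAt
        rw [hw2 Y]
        exact one_ne_zero
      · exact continuousAt_id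
    apply hc
    have e : (‖w Y‖⁻¹ : ℝ) • w Y = w Y := by
      rw [hw2 Y, inv_one, one_smul]
    change U (w Y) ∈ nhds ((‖w Y‖⁻¹ : ℝ) • w Y)
    rw [e]
    exact (hU (w Y)).2.mem_nhds (hU (w Y)).1
  choose ρY hρY0 hρY using fun Y : Φ =>
    F5 h (w Y) (hw1 Y) (hw3 Y) (s Y) (hw4 Y) (hw5 Y) (hw6 Y) (U' Y) (hU' Y)
  obtain ⟨ρ0, hρ0, hpert⟩ := pert_CF h
  have hev : ∀ᶠ ρ in nhdsWithin (0 : ℝ) (Set.Ioi 0), 0 < ρ ∧ ρ ≤ ρ0 ∧ ∀ Y : Φ, ρ ≤ ρY Y := by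
    have h1 : ∀ᶠ ρ in nhdsWithin (0 : ℝ) (Set.Ioi 0), ρ ∈ Set.Ioc (0 : ℝ) ρ0 :=
      Ioc_mem_nhdsGT hρ0
    have h2 : ∀ᶠ ρ in nhdsWithin (0 : ℝ) (Set.Ioi 0), ∀ Y : Φ, ρ ∈ Set.Ioc (0 : ℝ) (ρY Y) :=
      Filter.eventually_all.2 fun Y => Ioc_mem_nhdsGT (hρY0 Y)
    filter_upwards [h1, h2] with ρ a1 a2
    exact ⟨a1.1, a1.2, fun Y => (a2 Y).2⟩
  obtain ⟨ρ, hρ, hρ1, hρ2⟩ := hev.exists
  obtain ⟨η, hη, hgen⟩ := generic_pert h ρ hρ
  have h' : CF (pert K η) Om d := hpert η fun j => ⟨(hη j).1.le, (hη j).2.trans_le hρ1⟩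
  choose w' hw'U hw'T hw's hw'c using fun Y : Φ =>
    hρY Y η (fun j => ⟨(hη j).1, (hη j).2.trans_le (hρ2 Y)⟩) hgen
  let v : Φ → V := fun Y => (‖w' Y‖⁻¹ : ℝ) • w' Y
  have hw'0 : ∀ Y, w' Y ≠ 0 := fun Y => (hw'T Y).1
  have hstr : ∀ Y, v Y ∈ Str (pert K η) (lab (pert K η) (w' Y)) := fun Y =>
    Str_smul h' _ _ ⟨hw'T Y, rfl⟩ _ (inv_pos.2 (norm_pos_iff.2 (hw'0 Y)))
  have hvn : ∀ Y, ‖v Y‖ = 1 := by
    intro Y
    rw [norm_smul, norm_inv, norm_norm, inv_mul_cancel₀ (norm_ne_zero_iff.2 (hw'0 Y))]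
  let W : Finset V := Finset.univ.image v
  have hW : ∀ u ∈ W, u ∈ TT (pert K η) ∧ ‖u‖ = 1 ∧ (lab (pert K η) u).card = d := by
    intro u hu
    obtain ⟨Y, -, rfl⟩ := Finset.mem_image.1 hu
    refine ⟨(hstr Y).1, hvn Y, ?_⟩
    rw [(hstr Y).2, hw'c Y]
  have hWb := vertex_bound h' W hW
  let T : Finset (Σ _ : V, Finset (Fin n × Bool) × Bool) :=
    W.sigma (fun u => (lab (pert K η) u).powerset ×ˢ (Finset.univ : Finset Bool))
  have hT : T.card = W.card * (2 ^ d * 2) := by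
    rw [Finset.card_sigma, Finset.sum_const_nat (m := 2 ^ d * 2)]
    intro u hu
    rw [Finset.card_product, Finset.card_powerset, (hW u hu).2.2]
    rfl
  let g : Φ → (Σ _ : V, Finset (Fin n × Bool) × Bool) := fun Y => ⟨v Y, (s Y, flag Y)⟩
  have hg : ∀ Y ∈ (Finset.univ : Finset Φ), g Y ∈ T := by
    intro Y _
    refine Finset.mem_sigma.2 ⟨Finset.mem_image.2 ⟨Y, Finset.mem_univ _, rfl⟩, ?_⟩
    refine Finset.mem_product.2 ⟨Finset.mem_powerset.2 ?_, Finset.mem_univ _⟩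
    change s Y ⊆ lab (pert K η) (v Y)
    rw [(hstr Y).2]
    exact hw's Y
  have hinj : Set.InjOn g (Finset.univ : Finset Φ) := by
    intro Y _ Y' _ hgg
    have hv : v Y = v Y' := congrArg Sigma.fst hgg
    have hrest : (s Y, flag Y) = (s Y', flag Y') := by
      have := (Sigma.mk.inj_iff.1 hgg).2
      exact eq_of_heq this
    have hs : s Y = s Y' := congrArg Prod.fst hrest
    have hf : flag Y = flag Y' := congrArg Prod.snd hrest
    have hww : w Y = w Y' := by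
      by_contra hne
      have h1 := hdis ⟨Y, rfl⟩ ⟨Y', rfl⟩ hne
      have h2 : v Y ∈ U (w Y) := hw'U Y
      have h3 : v Y' ∈ U (w Y') := hw'U Y'
      rw [← hv] at h3
      exact Set.disjoint_left.1 h1 h2 h3
    apply Subtype.ext
    refine code_inj h Y.1 Y'.1 (w Y) (s Y) (flag Y) (hw1 Y) (hw5 Y) (hw7 Y)
      (fun e => (hw8 Y e).2) ?_ ?_
    · intro e
      rw [hww]
      exact hw7 Y' (hf ▸ e)
    · intro e
      obtain ⟨x, hx, hY, hcl⟩ := (hw8 Y' (hf ▸ e)).2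
      refine ⟨x, ?_, ?_, ?_⟩
      · rw [hs]; exact hx
      · rw [hs]; exact hY
      · rw [hww]; exact hcl
  have hcard := Finset.card_le_card_of_injOn g hg hinj
  rw [Finset.card_univ, Fintype.card_coe, hT] at hcard
  calc Φ.card ≤ W.card * (2 ^ d * 2) := hcard
    _ ≤ (2 * (2 ^ d * ((2 * d + 2) ^ d * n ^ ((d + 1) / 2)))) * (2 ^ d * 2) :=
        Nat.mul_le_mul_right _ hWb
    _ = 2 * 2 ^ d * (2 * (2 ^ d * ((2 * d + 2) ^ d * n ^ ((d + 1) / 2)))) := by ring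

end MP528
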