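import Pool.Agent.Lib.MP_528ca9_co.C8c

namespace MP528

open Finset

variable {V : Type*} [NormedAddCommGroup V] [InnerProductSpace ℝ V] [FiniteDimensional ℝ V] {n d : ℕ}
  {K : Fin n → Set V} {Om : Set V}

/-- The constant. -/
def Cd (d : ℕ) : ℕ := 2 * 2 ^ d * (2 * (2 ^ d * (2 * d + 2) ^ d))

/-- ROW C8d. Theorem M. (If the set had more elements than the bound, it would have a finite subset
with more elements: `Set.exists_subset_encard_eq` / `Set.encard_le_coe_iff`-type lemma.) -/
theorem main_abs (h : CF K Om d) :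
    (AFaces K).encard ≤ ((Cd d * n ^ ((d + 1) / 2) : ℕ) : ℕ∞) := by
  by_contra hc
  push Not at hc
  have h1 : ((Cd d * n ^ ((d + 1) / 2) + 1 : ℕ) : ℕ∞) ≤ (AFaces K).encard := by
    have := Order.add_one_le_of_lt hc
    exact_mod_cast this
  obtain ⟨t, ht, htc⟩ := Set.exists_subset_encard_eq h1
  have hfin : t.Finite := Set.finite_of_encard_eq_coe htc
  have h2 := face_count h hfin.toFinset (fun Y hY => ht (hfin.mem_toFinset.mp hY))
  have h3 : hfin.toFinset.card = Cd d * n ^ ((d + 1) / 2) + 1 := by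
    have := hfin.encard_eq_coe_toFinset_card
    rw [htc] at this
    exact_mod_cast this.symm
  rw [h3] at h2
  have h4 : Cd d * n ^ ((d + 1) / 2) =
      2 * 2 ^ d * (2 * (2 ^ d * ((2 * d + 2) ^ d * n ^ ((d + 1) / 2)))) := by
    unfold Cd; ring
  omega

end MP528
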