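import Pool.Agent.Lib.MP_528ca9_co.O1a

namespace MP528

open Finset

variable {V : Type*} [NormedAddCommGroup V] [InnerProductSpace ℝ V] [FiniteDimensional ℝ V] {n d : ℕ}
  {K : Fin n → Set V} {Om : Set V}

/-- ROW O1b. At most two rays. (Three: two of the three products of signs in O1a cannot all be
negative. Enumerate `s` by `e : Fin d ≃ s`.) -/
theorem two_rays (h : CF K Om d) (s : Finset (Fin n × Bool)) (hs : s.card = d)
    (hinj : ∀ i ∈ s, ∀ i' ∈ s, i.1 = i'.1 → i = i') (l : Fin 3 → V) (hl : ∀ a, l a ∈ Om)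
    (hg : ∀ a, ∀ i ∈ s, gg K i (l a) = 0) :
    ∃ a b : Fin 3, a ≠ b ∧ ∃ c : ℝ, 0 < c ∧ l a = c • l b := by
  classical
  by_contra hno
  have hne : ∀ a b : Fin 3, a ≠ b → ¬ ∃ c : ℝ, 0 < c ∧ l a = c • l b :=
    fun a b hab hc => hno ⟨a, b, hab, hc⟩
  let b := Module.finBasisOfFinrankEq ℝ V h.dim
  let e' := (Finset.equivFinOfCardEq hs).symm
  let e : Fin d → Fin n × Bool := fun k => (e' k : Fin n × Bool)
  have he : ∀ k k', (e k).1 = (e k').1 → k = k' := fun k k' hk =>
    e'.injective (Subtype.ext (hinj _ (e' k).2 _ (e' k').2 hk))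
  have hge : ∀ a k, gg K (e k) (l a) = 0 := fun a k => hg a _ (e' k).2
  have key : ∀ a c : Fin 3, a ≠ c →
      b.det (Fin.snoc (fun k => ct K (e k) (l a)) (l a)) *
        b.det (Fin.snoc (fun k => ct K (e k) (l c)) (l c)) < 0 := fun a c hac =>
    sign_opp h b e he (l a) (l c) (hl a) (hl c) (hge a) (hge c) (hne a c hac)
  have h01 := key 0 1 (by decide)
  have h12 := key 1 2 (by decide)
  have h02 := key 0 2 (by decide)
  set D0 := b.det (Fin.snoc (fun k => ct K (e k) (l 0)) (l 0))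
  set D1 := b.det (Fin.snoc (fun k => ct K (e k) (l 1)) (l 1))
  set D2 := b.det (Fin.snoc (fun k => ct K (e k) (l 2)) (l 2))
  have h1 := mul_pos_of_neg_of_neg h01 h12
  have h2 := mul_neg_of_pos_of_neg h1 h02
  nlinarith [sq_nonneg (D0 * D1 * D2)]

end MP528
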