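import Pool.Agent.Lib.MP_528ca9_co.P2b
import Pool.Agent.Lib.MP_528ca9_co.O1

namespace MP528

open Finset

variable {V : Type*} [NormedAddCommGroup V] [InnerProductSpace ℝ V] [FiniteDimensional ℝ V] {n d : ℕ}
  {K : Fin n → Set V} {Om : Set V}

/-- The values of the new radius for which a point with `d` old labels gets the label `i`. -/
def P3bad (K : Fin n → Set V) (Om : Set V) (η : Fin n → ℝ) (s : Finset (Fin n × Bool))
    (i : Fin n × Bool) : Set ℝ :=
  {t | ∃ l ∈ Om, (∀ i' ∈ s, gg (pert K η) i' l = 0) ∧ gg K i l + t * ‖l‖ = 0}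

theorem P3_bad_finite (h : CF K Om d) (η : Fin n → ℝ) (hη : CF (pert K η) Om d)
    (s : Finset (Fin n × Bool)) (hs : s.card = d)
    (hinj : ∀ i ∈ s, ∀ i' ∈ s, i.1 = i'.1 → i = i') (i : Fin n × Bool) :
    (P3bad K Om η s i).Finite := by
  by_contra hinf
  obtain ⟨T, hT, hTc⟩ := Set.Infinite.exists_subset_card_eq hinf 3
  have hTf : Fintype.card T = 3 := by simpa using hTc
  let f : Fin 3 ≃ T := (Fintype.equivFinOfCardEq hTf).symm
  have hmem : ∀ a : Fin 3, ∃ l ∈ Om, (∀ i' ∈ s, gg (pert K η) i' l = 0) ∧
      gg K i l + (f a : ℝ) * ‖l‖ = 0 := fun a => hT (f a).2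
  choose l hl hg ht using hmem
  obtain ⟨a, b, hab, c, hc, hcc⟩ := two_rays hη s hs hinj l hl hg
  have h1 : gg K i (l a) = c * gg K i (l b) := by
    rw [hcc]; exact gg_smul h i (l b) c hc.le
  have h2 : ‖l a‖ = c * ‖l b‖ := by
    rw [hcc, norm_smul, Real.norm_of_nonneg hc.le]
  have h3 := ht a
  rw [h1, h2] at h3
  have h4 := ht b
  have hb0 : l b ≠ 0 := fun h0 => hη.omZ (h0 ▸ hl b)
  have hbn : 0 < ‖l b‖ := norm_pos_iff.mpr hb0
  have h5 : ((f a : ℝ) - (f b : ℝ)) * (c * ‖l b‖) = 0 := by
    have : ((f a : ℝ) - (f b : ℝ)) * (c * ‖l b‖)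
        = (c * gg K i (l b) + (f a : ℝ) * (c * ‖l b‖)) - c * (gg K i (l b) + (f b : ℝ) * ‖l b‖) := by
      ring
    rw [this, h3, h4]; ring
  have h6 : (f a : ℝ) = (f b : ℝ) := by
    rcases mul_eq_zero.mp h5 with h6 | h6
    · linarith
    · exact absurd h6 (mul_pos hc hbn).ne'
  exact hab (f.injective (Subtype.ext h6))

theorem P3_step (h : CF K Om d) (ρ' : ℝ) (hρ' : 0 < ρ')
    (hCF : ∀ η : Fin n → ℝ, (∀ j, 0 ≤ η j ∧ η j < ρ') → CF (pert K η) Om d) (m : ℕ) (hm : m ≤ n) :
    ∃ η : Fin n → ℝ, (∀ j, 0 < η j ∧ η j < ρ') ∧ ∀ l ∈ Om, ∀ s : Finset (Fin n × Bool),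
      (∀ i ∈ s, i.1.val < m) → (∀ i ∈ s, ∀ i' ∈ s, i.1 = i'.1 → i = i') →
      (∀ i ∈ s, gg (pert K η) i l = 0) → s.card ≤ d := by
  classical
  induction m with
  | zero =>
    refine ⟨fun _ => ρ' / 2, fun j => ⟨by positivity, by linarith⟩, ?_⟩
    intro l _ s hs _ _
    have : s = ∅ := Finset.eq_empty_of_forall_notMem (fun i hi => by have := hs i hi; omega)
    rw [this]; simp
  | succ m ih =>
    obtain ⟨η, hη, hP⟩ := ih (by omega)
    have hmn : m < n := by omega
    set jm : Fin n := ⟨m, hmn⟩ with hjm
    have hCη : CF (pert K η) Om d := hCF η (fun j => ⟨(hη j).1.le, (hη j).2⟩)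
    -- the bad set
    let B : Set ℝ := ⋃ s ∈ ((Finset.univ : Finset (Finset (Fin n × Bool))).filter
      (fun s => s.card = d ∧ ∀ i ∈ s, ∀ i' ∈ s, i.1 = i'.1 → i = i') : Set (Finset (Fin n × Bool))),
      ⋃ i : Fin n × Bool, P3bad K Om η s i
    have hB : B.Finite := by
      refine Set.Finite.biUnion (Finset.finite_toSet _) ?_
      intro s hs
      have hs' : s.card = d ∧ ∀ i ∈ s, ∀ i' ∈ s, i.1 = i'.1 → i = i' := by
        simpa using hs
      exact Set.finite_iUnion (fun i => P3_bad_finite h η hCη s hs'.1 hs'.2 i)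
    obtain ⟨t, ht, htB⟩ : ∃ t ∈ Set.Ioo (0 : ℝ) ρ', t ∉ B := by
      have hinf : (Set.Ioo (0 : ℝ) ρ').Infinite := Set.Ioo_infinite hρ'
      exact (hinf.sdiff hB).nonempty.imp (fun t ht => ⟨ht.1, ht.2⟩)
    refine ⟨Function.update η jm t, ?_, ?_⟩
    · intro j
      by_cases hj : j = jm
      · rw [hj, Function.update_self]; exact ⟨ht.1, ht.2⟩
      · rw [Function.update_of_ne hj]; exact hη j
    · intro l hl s hs hinj hg
      have hη0 : ∀ j, 0 ≤ η j := fun j => (hη j).1.le
      have hη'0 : ∀ j, 0 ≤ Function.update η jm t j := by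
        intro j
        by_cases hj : j = jm
        · rw [hj, Function.update_self]; exact ht.1.le
        · rw [Function.update_of_ne hj]; exact hη0 j
      have hgo : ∀ i : Fin n × Bool, i.1 ≠ jm → gg (pert K (Function.update η jm t)) i l = 0 →
          gg (pert K η) i l = 0 := by
        intro i hi hgi
        rw [gg_pert h _ hη'0, Function.update_of_ne hi] at hgi
        rw [gg_pert h _ hη0]; exact hgi
      by_cases hex : ∃ i ∈ s, i.1 = jm
      · obtain ⟨i0, hi0, hi0j⟩ := hex
        have her : ∀ i ∈ s.erase i0, i.1 ≠ jm := by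
          intro i hi hij
          have h1 := Finset.mem_erase.mp hi
          exact h1.1 (hinj i h1.2 i0 hi0 (hij.trans hi0j.symm))
        have h1 : (s.erase i0).card ≤ d := by
          refine hP l hl (s.erase i0) ?_ ?_ ?_
          · intro i hi
            have h2 := hs i (Finset.mem_of_mem_erase hi)
            have h3 := her i hi
            have h4 : i.1.val ≠ m := fun h5 => h3 (Fin.ext (by simpa [hjm] using h5))
            omega
          · intro i hi i' hi'
            exact hinj i (Finset.mem_of_mem_erase hi) i' (Finset.mem_of_mem_erase hi')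
          · intro i hi
            exact hgo i (her i hi) (hg i (Finset.mem_of_mem_erase hi))
        rcases Nat.lt_or_ge (s.erase i0).card d with h2 | h2
        · have h3 : (s.erase i0).card = s.card - 1 := Finset.card_erase_of_mem hi0
          omega
        · exfalso
          have hcd : (s.erase i0).card = d := le_antisymm h1 h2
          apply htB
          refine Set.mem_biUnion (x := s.erase i0) ?_ ?_
          · have : (s.erase i0).card = d ∧ ∀ i ∈ s.erase i0, ∀ i' ∈ s.erase i0,
                i.1 = i'.1 → i = i' :=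
              ⟨hcd, fun i hi i' hi' => hinj i (Finset.mem_of_mem_erase hi) i'
                (Finset.mem_of_mem_erase hi')⟩
            simpa using this
          · refine Set.mem_iUnion.mpr ⟨i0, l, hl, ?_, ?_⟩
            · intro i hi
              exact hgo i (her i hi) (hg i (Finset.mem_of_mem_erase hi))
            · have h3 := hg i0 hi0
              rw [gg_pert h _ hη'0, hi0j, Function.update_self] at h3
              exact h3
      · push Not at hex
        refine hP l hl s ?_ hinj ?_
        · intro i hi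
          have h2 := hs i hi
          have h3 := hex i hi
          have h4 : i.1.val ≠ m := fun h5 => h3 (Fin.ext (by simpa [hjm] using h5))
          omega
        · intro i hi
          exact hgo i (hex i hi) (hg i hi)

/-- ROW P3. (paper 7.2) Generic small perturbations exist.
Proof. Let `ρ' ≤ ρ` also be smaller than the radius of `pert_CF`. Choose `η 0, η 1, ...` successively
in `(0, ρ')` such that (after choosing `η 0 .. η (m-1)`, the others being arbitrary in `[0,ρ')`): no
`l ∈ Om` has `d + 1` labels with first components `< m`. Induction step: let `s` be a set of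
`d` signed indices with distinct first components `< m`, and `i = (m, ±)`. The condition
`gg (pert K η) i' l = 0` for `i' ∈ s` only involves `η 0 .. η (m-1)`. The unit vectors `l ∈ Om` with
`gg (pert K η) i' l = 0` for all `i' ∈ s` are at most two (`two_rays` for the family `pert K η`, e.g.
with `η = 0` beyond `m`; it is a `CF` by `pert_CF`). `gg (pert K η) i l = gg K i l + η m` vanishes at such
a unit vector for at most one value of `η m`. So `η m` has to avoid finitely many values in
`(0,ρ')`. At the end: if `l ∈ Om` had more than `d` labels, choose `d + 1` of them (distinct first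
components by `lab_inj` for `pert K η`) and normalise `l`; let `m` be the largest first component:
contradiction. (Formally: induction on `m ≤ n` with the statement: there is `η` with
`∀ j, 0 < η j < ρ'` and `∀ l ∈ Om`, every set of labels of `l` with first components `< m` and distinct
first components has at most `d` elements; in the step change only the value `η m` with
`Function.update`, which does not affect the labels with first component `< m`.) -/
theorem generic_pert (h : CF K Om d) (ρ : ℝ) (hρ : 0 < ρ) :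
    ∃ η : Fin n → ℝ, (∀ j, 0 < η j ∧ η j < ρ) ∧ ∀ l ∈ Om, (lab (pert K η) l).card ≤ d := by
  obtain ⟨ρ1, hρ1, hCF⟩ := pert_CF h
  obtain ⟨η, hη, hP⟩ := P3_step h (min ρ ρ1) (lt_min hρ hρ1)
    (fun η hη => hCF η (fun j => ⟨(hη j).1, lt_of_lt_of_le (hη j).2 (min_le_right _ _)⟩)) n le_rfl
  refine ⟨η, fun j => ⟨(hη j).1, lt_of_lt_of_le (hη j).2 (min_le_left _ _)⟩, ?_⟩
  intro l hl
  have hCη : CF (pert K η) Om d :=
    hCF η (fun j => ⟨(hη j).1.le, lt_of_lt_of_le (hη j).2 (min_le_right _ _)⟩)
  have hl0 : l ≠ 0 := fun h0 => hCη.omZ (h0 ▸ hl)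
  refine hP l hl (lab (pert K η) l) (fun i _ => i.1.2) ?_ ?_
  · intro i hi i' hi' he
    exact lab_inj hCη l hl0 i i' hi hi' he
  · intro i hi
    simpa [lab] using hi

end MP528
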