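import Pool.Agent.Lib.MP_528ca9_co.V3a

namespace MP528

open Finset

variable {V : Type*} [NormedAddCommGroup V] [InnerProductSpace ℝ V] [FiniteDimensional ℝ V] {n d : ℕ}
  {K : Fin n → Set V} {Om : Set V}

/-- ROW V3b. Number of (normalised) vertices: at most two per label set by `two_rays`
(unit vectors which are positive multiples of each other are equal; `TT K ⊆ Om`). -/
theorem vertex_bound (h : CF K Om d) (W : Finset V)
    (hW : ∀ w ∈ W, w ∈ TT K ∧ ‖w‖ = 1 ∧ (lab K w).card = d) :
    W.card ≤ 2 * (2 ^ d * ((2 * d + 2) ^ d * n ^ ((d + 1) / 2))) := by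
  classical
  have h1 : (W.image (lab K)).card ≤ 2 ^ d * ((2 * d + 2) ^ d * n ^ ((d + 1) / 2)) := by
    apply label_total h
    intro L hL
    obtain ⟨w, hw, rfl⟩ := Finset.mem_image.mp hL
    exact ⟨(hW w hw).2.2, w, (hW w hw).1, rfl⟩
  have h2 : W.card ≤ 2 * (W.image (lab K)).card := by
    apply Finset.card_le_mul_card_image
    intro s hs
    obtain ⟨w0, hw0, rfl⟩ := Finset.mem_image.mp hs
    by_contra hcon
    push Not at hcon
    obtain ⟨x, hx, y, hy, z, hz, hxy, hxz, hyz⟩ := Finset.two_lt_card.mp hcon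
    rw [Finset.mem_filter] at hx hy hz
    have hmem : ∀ a : Fin 3, (![x, y, z] : Fin 3 → V) a ∈ W ∧
        lab K ((![x, y, z] : Fin 3 → V) a) = lab K w0 := by
      intro a
      fin_cases a
      · exact hx
      · exact hy
      · exact hz
    have hinj : Function.Injective (![x, y, z] : Fin 3 → V) := by
      intro a b hab
      fin_cases a <;> fin_cases b <;> simp_all [Ne.symm hxy]
    obtain ⟨a, b, hab, c, hc, he⟩ := two_rays h (lab K w0) (hW w0 hw0).2.2
      (fun i hi i' hi' he => lab_inj h w0 (hW w0 hw0).1.1 i i' hi hi' he)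
      (![x, y, z] : Fin 3 → V) (fun a => h.omT _ (hW _ (hmem a).1).1)
      (fun a i hi => by
        rw [← (hmem a).2] at hi
        simpa [lab] using hi)
    have hna := (hW _ (hmem a).1).2.1
    have hnb := (hW _ (hmem b).1).2.1
    rw [he, norm_smul, hnb, mul_one, Real.norm_eq_abs, abs_of_pos hc] at hna
    rw [hna, one_smul] at he
    exact hab (hinj he)
  calc W.card ≤ 2 * (W.image (lab K)).card := h2
    _ ≤ _ := Nat.mul_le_mul_left 2 h1

end MP528
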