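import Pool.Agent.Lib.MP_528ca9_co.C5
import Pool.Agent.Lib.MP_528ca9_co.C6
import Pool.Agent.Lib.MP_528ca9_co.C7
import Pool.Agent.Lib.MP_528ca9_co.P3
import Pool.Agent.Lib.MP_528ca9_co.V3

namespace MP528

open Finset

variable {V : Type*} [NormedAddCommGroup V] [InnerProductSpace ℝ V] [FiniteDimensional ℝ V] {n d : ℕ}
  {K : Fin n → Set V} {Om : Set V}

/-- ROW C8a. Code of a face: a unit vector `w` with at least `d` labels, a set `s'` of labels, and a
flag. `flag = true`: the face is the ray of `w`; `flag = false`: the face is a component `Y` of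
`Str K s'`, `s'.card < d`, `w ∈ closure Y`.
Proof. `Y = connectedComponentIn (Str K s) x`. If `s.card < d`: `F3` gives `w ∈ closure Y ∩ TT`,
`d ≤ (lab K w).card`; replace `w` by `w/‖w‖` (`closure Y` is closed under positive multiples as `Y` is:
`comp_smul`; labels do not change). If `d ≤ s.card`: `w = x/‖x‖`, `s' = ∅`; the component is contained in the ray
(`F4`; `lab K x = s`), and contains it (`comp_smul`), so `Y = {c • w | c > 0}`. -/
theorem face_code (h : CF K Om d) (Y : Set V) (hY : Y ∈ AFaces K) :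
    ∃ (w : V) (s : Finset (Fin n × Bool)) (flag : Bool), w ∈ TT K ∧ ‖w‖ = 1 ∧
      d ≤ (lab K w).card ∧ s ⊆ lab K w ∧ s.card ≤ d ∧ (s = ∅ ∨ w ∈ closure (Str K s)) ∧
      (flag = true → Y = {l | ∃ c : ℝ, 0 < c ∧ l = c • w}) ∧
      (flag = false → s.card ≤ d ∧ ∃ x ∈ Str K s, Y = connectedComponentIn (Str K s) x ∧
        w ∈ closure Y) := by
  obtain ⟨s, x, hx, rfl⟩ := hY
  rcases Nat.lt_or_ge s.card d with hs | hs
  · obtain ⟨w0, hw0c, hw0T, hw0d⟩ := F3 h s hs x hx
    have hn : 0 < ‖w0‖ := norm_pos_iff.2 hw0T.1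
    have hc : (0 : ℝ) < ‖w0‖⁻¹ := inv_pos.2 hn
    have hstr : (‖w0‖⁻¹ : ℝ) • w0 ∈ Str K (lab K w0) := Str_smul h _ _ ⟨hw0T, rfl⟩ _ hc
    have hcl : (‖w0‖⁻¹ : ℝ) • w0 ∈ closure (connectedComponentIn (Str K s) x) := by
      refine map_mem_closure (f := fun l : V => (‖w0‖⁻¹ : ℝ) • l) (continuous_const_smul _) hw0c ?_
      intro y hy
      have hyS : y ∈ Str K s := connectedComponentIn_subset _ _ hy
      have h1 := comp_smul h s y hyS _ hc
      rw [← connectedComponentIn_eq hy] at h1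
      exact h1
    have hcl' : (‖w0‖⁻¹ : ℝ) • w0 ∈ closure (Str K s) :=
      closure_mono (connectedComponentIn_subset _ _) hcl
    refine ⟨(‖w0‖⁻¹ : ℝ) • w0, s, false, hstr.1, ?_, ?_, lab_of_closure h s _ hcl', hs.le,
      Or.inr hcl', ?_, fun _ => ⟨hs.le, x, hx, rfl, hcl⟩⟩
    · rw [norm_smul, norm_inv, norm_norm, inv_mul_cancel₀ hn.ne']
    · rw [hstr.2]; exact hw0d
    · intro e; exact absurd e (by simp)
  · have hn : 0 < ‖x‖ := norm_pos_iff.2 hx.1.1
    have hc : (0 : ℝ) < ‖x‖⁻¹ := inv_pos.2 hn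
    have hstr : (‖x‖⁻¹ : ℝ) • x ∈ Str K s := Str_smul h _ _ hx _ hc
    refine ⟨(‖x‖⁻¹ : ℝ) • x, ∅, true, hstr.1, ?_, ?_, Finset.empty_subset _, by simp,
      Or.inl rfl, ?_, ?_⟩
    · rw [norm_smul, norm_inv, norm_norm, inv_mul_cancel₀ hn.ne']
    · rw [hstr.2]; exact hs
    · intro _
      apply Set.Subset.antisymm
      · have h4 := F4 h x hx.1 (by rw [hx.2]; exact hs)
        rw [hx.2] at h4
        intro l hl
        obtain ⟨c, hc0, rfl⟩ := h4 hl
        refine ⟨c * ‖x‖, mul_pos hc0 hn, ?_⟩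
        rw [smul_smul, mul_assoc, mul_inv_cancel₀ hn.ne', mul_one]
      · rintro l ⟨c, hc0, rfl⟩
        rw [smul_smul]
        exact comp_smul h s x hx _ (mul_pos hc0 hc)
    · intro e; exact absurd e (by simp)

end MP528
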