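import Pool.Agent.Lib.MP_528ca9_co.CB1a

namespace MP528

open Finset

variable {V : Type*} [NormedAddCommGroup V] [InnerProductSpace ℝ V] [FiniteDimensional ℝ V] {n d : ℕ}
  {K : Fin n → Set V} {Om : Set V}

theorem CB1b_true (j : Fin n) : KK K (j, true) = K j := by
  unfold KK
  rw [if_pos rfl]

theorem CB1b_false (j : Fin n) : KK K (j, false) = (fun y => -y) '' K j := by
  unfold KK
  rw [if_neg (by simp)]

/-- ROW CB1f. Width is positive: if `gg (j,true) l + gg (j,false) l ≤ 0` then all values `⟪y,l⟫`,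
`y ∈ K j`, coincide (max ≤ min); hmm: `gg (j,true) l = max ⟪y,l⟫`, `gg (j,false) l = - min ⟪y,l⟫`,
the sum is `max - min ≥ 0`. It is zero iff `⟪·,l⟫` is constant on `K j`. This lemma only claims
nonnegativity. -/
theorem gg_add_nonneg (h : CF K Om d) (j : Fin n) (l : V) :
    0 ≤ gg K (j, true) l + gg K (j, false) l := by
  obtain ⟨y, hy⟩ := h.ne j
  have h1 := inner_le_gg h (j, true) l y (by rw [CB1b_true]; exact hy)
  have h2 := inner_le_gg h (j, false) l (-y) (by rw [CB1b_false]; exact ⟨y, hy, rfl⟩)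
  rw [inner_neg_left] at h2
  linarith

/-- ROW CB1g. Both signs cannot be labels of the same member: otherwise `⟪y,l⟫ = 0` for all `y ∈ K j`,
contradicting `spn`. -/
theorem gg_not_both (h : CF K Om d) (j : Fin n) (l : V) (hl : l ≠ 0)
    (h1 : gg K (j, true) l = 0) : gg K (j, false) l ≠ 0 := by
  intro h2
  obtain ⟨y, hy, hne⟩ := h.spn j l hl
  have h3 := inner_le_gg h (j, true) l y (by rw [CB1b_true]; exact hy)
  have h4 := inner_le_gg h (j, false) l (-y) (by rw [CB1b_false]; exact ⟨y, hy, rfl⟩)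
  rw [inner_neg_left, h2] at h4
  rw [h1] at h3
  exact hne (le_antisymm h3 (by linarith))

/-- ROW CB1h. -/
theorem lab_inj (h : CF K Om d) (l : V) (hl : l ≠ 0) (i i' : Fin n × Bool) (hi : i ∈ lab K l)
    (hi' : i' ∈ lab K l) (he : i.1 = i'.1) : i = i' := by
  have h1 : gg K i l = 0 := (Finset.mem_filter.1 hi).2
  have h2 : gg K i' l = 0 := (Finset.mem_filter.1 hi').2
  obtain ⟨a, b⟩ := i
  obtain ⟨a', b'⟩ := i'
  have he' : a = a' := he
  subst he'
  cases b <;> cases b'
  · rfl
  · exact absurd h1 (gg_not_both h a l hl h2)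
  · exact absurd h2 (gg_not_both h a l hl h1)
  · rfl

theorem CB1b_gg_false (j : Fin n) (l : V) : gg K (j, false) l = supp (K j) (-l) := by
  unfold gg supp
  rw [CB1b_false, Set.image_image]
  simp only [inner_neg_left, inner_neg_right]

theorem CB1b_gg_true (j : Fin n) (l : V) : gg K (j, true) l = supp (K j) l := by
  unfold gg
  rw [CB1b_true]

/-- ROW CB1i. Uniqueness of maximisers for the signed members (`-l ∈ Om`). -/
theorem KK_uniq (h : CF K Om d) (l : V) (hl : l ∈ Om) (i : Fin n × Bool) (y y' : V)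
    (hy : y ∈ KK K i) (hy' : y' ∈ KK K i) (h1 : inner ℝ y l = gg K i l)
    (h2 : inner ℝ y' l = gg K i l) : y = y' := by
  obtain ⟨j, b⟩ := i
  cases b
  · rw [CB1b_false] at hy hy'
    rw [CB1b_gg_false] at h1 h2
    obtain ⟨z, hz, rfl⟩ := hy
    obtain ⟨z', hz', rfl⟩ := hy'
    have h3 := h.omU (-l) (h.omS l hl) j z hz z' hz'
      (by rw [← h1, inner_neg_left, inner_neg_right]) (by rw [← h2, inner_neg_left, inner_neg_right])
    rw [h3]
  · rw [CB1b_true] at hy hy'
    rw [CB1b_gg_true] at h1 h2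
    exact h.omU l hl j y hy y' hy' h1 h2

/-- ROW CB1j. Independence for signed selections (multiply by signs). -/
theorem KK_sep (h : CF K Om d) (s : Finset (Fin n × Bool)) (hs : s.card ≤ d)
    (hinj : ∀ i ∈ s, ∀ i' ∈ s, i.1 = i'.1 → i = i') (x : Fin n × Bool → V)
    (hx : ∀ i ∈ s, x i ∈ KK K i) : LinearIndependent ℝ (fun i : s => x i) := by
  classical
  let x' : Fin n → V := fun j => if hj : ∃ i ∈ s, i.1 = j then
    (if hj.choose.2 then x hj.choose else - x hj.choose) else 0
  have hx' : ∀ i ∈ s, x' i.1 = if i.2 then x i else - x i := by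
    intro i hi
    have hj : ∃ i' ∈ s, i'.1 = i.1 := ⟨i, hi, rfl⟩
    have h1 : hj.choose = i := hinj _ hj.choose_spec.1 _ hi hj.choose_spec.2
    show (if hj : ∃ i' ∈ s, i'.1 = i.1 then
      (if hj.choose.2 then x hj.choose else - x hj.choose) else 0) = _
    rw [dif_pos hj, h1]
  have hli := h.sep (s.image Prod.fst) (Finset.card_image_le.trans hs) x' (by
    intro j hj
    obtain ⟨i, hi, rfl⟩ := Finset.mem_image.1 hj
    rw [hx' i hi]
    have h2 := hx i hi
    obtain ⟨a, b⟩ := i
    cases b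
    · rw [CB1b_false] at h2
      obtain ⟨z, hz, hz'⟩ := h2
      rw [if_neg (by simp), ← hz', neg_neg]
      exact hz
    · rw [CB1b_true] at h2
      rw [if_pos rfl]
      exact h2)
  have hemb : Function.Injective (fun i : s =>
      (⟨i.1.1, Finset.mem_image_of_mem _ i.2⟩ : s.image Prod.fst)) := by
    intro i i' hii
    apply Subtype.ext
    exact hinj _ i.2 _ i'.2 (congrArg Subtype.val hii)
  have h3 := hli.comp _ hemb
  have h4 := h3.units_smul (fun i : s => if i.1.2 then (1 : ℝˣ) else -1)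
  convert h4 using 1
  funext i
  simp only [Pi.smul_apply', Function.comp_apply]
  rw [hx' i.1 i.2]
  by_cases hb : i.1.2 = true
  · rw [if_pos hb, if_pos hb, one_smul]
  · rw [if_neg hb, if_neg hb]
    simp

end MP528
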