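import Pool.Agent.Lib.MP_528ca9_co.CDefs

namespace MP528

open Finset

variable {V : Type*} [NormedAddCommGroup V] [InnerProductSpace ℝ V] [FiniteDimensional ℝ V] {n d : ℕ}
  {K : Fin n → Set V} {Om : Set V}

/-- ROW CB1a. The signed members are nonempty, compact, convex. -/
theorem KK_ne (h : CF K Om d) (i : Fin n × Bool) : (KK K i).Nonempty := by
  unfold KK
  split_ifs
  · exact h.ne i.1
  · exact (h.ne i.1).image _

theorem KK_cpt (h : CF K Om d) (i : Fin n × Bool) : IsCompact (KK K i) := by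
  unfold KK
  split_ifs
  · exact h.cpt i.1
  · exact (h.cpt i.1).image continuous_neg

theorem KK_cvx (h : CF K Om d) (i : Fin n × Bool) : Convex ℝ (KK K i) := by
  unfold KK
  split_ifs
  · exact h.cvx i.1
  · exact (h.cvx i.1).is_linear_image IsLinearMap.isLinearMap_neg

theorem CB1a_cont (l : V) : Continuous (fun y : V => inner ℝ y l) :=
  continuous_id.inner continuous_const

theorem CB1a_bdd (h : CF K Om d) (i : Fin n × Bool) (l : V) :
    BddAbove ((fun y : V => inner ℝ y l) '' KK K i) :=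
  (KK_cpt h i).bddAbove_image (CB1a_cont l).continuousOn

/-- ROW CB1b. -/
theorem inner_le_gg (h : CF K Om d) (i : Fin n × Bool) (l : V) (y : V) (hy : y ∈ KK K i) :
    inner ℝ y l ≤ gg K i l :=
  le_csSup (CB1a_bdd h i l) ⟨y, hy, rfl⟩

theorem CB1a_exists (h : CF K Om d) (i : Fin n × Bool) (l : V) :
    ∃ y ∈ KK K i, inner ℝ y l = gg K i l := by
  obtain ⟨y, hy, h1⟩ := (KK_cpt h i).exists_sSup_image_eq (KK_ne h i) (CB1a_cont l).continuousOn
  exact ⟨y, hy, h1.symm⟩

/-- ROW CB1c. The maximum is attained (compactness), so `ct` is a maximiser. -/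
theorem ct_mem (h : CF K Om d) (i : Fin n × Bool) (l : V) : ct K i l ∈ KK K i := by
  unfold ct
  rw [dif_pos (CB1a_exists h i l)]
  exact (CB1a_exists h i l).choose_spec.1

theorem ct_inner (h : CF K Om d) (i : Fin n × Bool) (l : V) :
    inner ℝ (ct K i l) l = gg K i l := by
  unfold ct
  rw [dif_pos (CB1a_exists h i l)]
  exact (CB1a_exists h i l).choose_spec.2

/-- ROW CB1d. `gg` is homogeneous. -/
theorem gg_smul (h : CF K Om d) (i : Fin n × Bool) (l : V) (c : ℝ) (hc : 0 ≤ c) :
    gg K i (c • l) = c * gg K i l := by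
  apply le_antisymm
  · rw [← ct_inner h i (c • l), inner_smul_right]
    exact mul_le_mul_of_nonneg_left (inner_le_gg h i l _ (ct_mem h i _)) hc
  · rw [← ct_inner h i l, ← inner_smul_right]
    exact inner_le_gg h i _ _ (ct_mem h i _)

/-- ROW CB1e. `gg` is continuous (Lipschitz with the constant `sup ‖y‖`:
`gg i l - gg i l' ≤ ⟪y, l - l'⟫` with `y = ct i l`). -/
theorem gg_cont (h : CF K Om d) (i : Fin n × Bool) : Continuous (gg K i) := by
  obtain ⟨C, hC⟩ := (KK_cpt h i).isBounded.exists_norm_le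
  have hLip : LipschitzWith (Real.toNNReal C) (gg K i) := by
    apply LipschitzWith.of_le_add_mul
    intro l l'
    have h1 : inner ℝ (ct K i l) l = inner ℝ (ct K i l) l' + inner ℝ (ct K i l) (l - l') := by
      rw [inner_sub_right]
      ring
    have h2 : inner ℝ (ct K i l) (l - l') ≤ ‖ct K i l‖ * ‖l - l'‖ := real_inner_le_norm _ _
    have h3 : ‖ct K i l‖ ≤ C := hC _ (ct_mem h i l)
    have h4 : ‖ct K i l‖ * ‖l - l'‖ ≤ (Real.toNNReal C : ℝ) * dist l l' := by
      rw [dist_eq_norm]
      exact mul_le_mul_of_nonneg_right (h3.trans (Real.le_coe_toNNReal C)) (norm_nonneg _)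
    have h5 := inner_le_gg h i l' _ (ct_mem h i l)
    rw [← ct_inner h i l, h1]
    linarith
  exact hLip.continuous

end MP528
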