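import Pool.Agent.Lib.MP_528ca9_co.CB2a

namespace MP528

open Finset

variable {V : Type*} [NormedAddCommGroup V] [InnerProductSpace ℝ V] [FiniteDimensional ℝ V] {n d : ℕ}
  {K : Fin n → Set V} {Om : Set V}

/-- ROW CB2b. Strict differentiability of the support function at points of `Om`, with gradient the
contact vector. Proof: for `l', l''` near `l`,
`⟪ct l'', l' - l''⟫ ≤ gg l' - gg l'' ≤ ⟪ct l', l' - l''⟫`, so
`|gg l' - gg l'' - ⟪ct l, l' - l''⟫| ≤ max ‖ct l' - ct l‖ ‖ct l'' - ct l‖ * ‖l' - l''‖`; use CB2a.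
(`hasStrictFDerivAt_iff_isLittleO`.) -/
theorem gg_strict (h : CF K Om d) (i : Fin n × Bool) (l : V) (hl : l ∈ Om) :
    HasStrictFDerivAt (gg K i) (innerSL ℝ (ct K i l)) l := by
  rw [hasStrictFDerivAt_iff_isLittleO, Asymptotics.isLittleO_iff]
  intro c hc
  have hct := ct_cont h i l hl
  have h1 : ∀ᶠ l' in nhds l, ‖ct K i l' - ct K i l‖ ≤ c := by
    have := Metric.tendsto_nhds.mp hct c hc
    filter_upwards [this] with l' hl'
    rw [dist_eq_norm] at hl'
    exact hl'.le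
  have h2 : ∀ᶠ p : V × V in nhds (l, l), ‖ct K i p.1 - ct K i l‖ ≤ c ∧
      ‖ct K i p.2 - ct K i l‖ ≤ c := by
    rw [nhds_prod_eq]
    exact h1.prod_mk h1
  filter_upwards [h2] with p hp
  obtain ⟨hp1, hp2⟩ := hp
  have a1 : gg K i p.1 - gg K i p.2 ≤ inner ℝ (ct K i p.1) (p.1 - p.2) := by
    rw [inner_sub_right, ct_inner h i p.1]
    have := inner_le_gg h i p.2 _ (ct_mem h i p.1)
    linarith
  have a2 : inner ℝ (ct K i p.2) (p.1 - p.2) ≤ gg K i p.1 - gg K i p.2 := by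
    rw [inner_sub_right, ct_inner h i p.2]
    have := inner_le_gg h i p.1 _ (ct_mem h i p.2)
    linarith
  have b1 : inner ℝ (ct K i p.1 - ct K i l) (p.1 - p.2) ≤ c * ‖p.1 - p.2‖ :=
    (real_inner_le_norm _ _).trans (mul_le_mul_of_nonneg_right hp1 (norm_nonneg _))
  have b2 : -(c * ‖p.1 - p.2‖) ≤ inner ℝ (ct K i p.2 - ct K i l) (p.1 - p.2) := by
    have := abs_le.mp ((abs_real_inner_le_norm (ct K i p.2 - ct K i l) (p.1 - p.2)).trans
      (mul_le_mul_of_nonneg_right hp2 (norm_nonneg _)))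
    exact this.1
  rw [inner_sub_left] at b1 b2
  rw [Real.norm_eq_abs, innerSL_apply_apply, abs_le]
  constructor <;> linarith

end MP528
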