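import Pool.Agent.Lib.MP_528ca9_co.CB1

namespace MP528

open Finset

variable {V : Type*} [NormedAddCommGroup V] [InnerProductSpace ℝ V] [FiniteDimensional ℝ V] {n d : ℕ}
  {K : Fin n → Set V} {Om : Set V}

/-- ROW CB2c. Strata are cones; a positive multiple lies in the same component (the segment from
`x` to `c • x` stays in the stratum). -/
theorem Str_smul (h : CF K Om d) (s : Finset (Fin n × Bool)) (x : V) (hx : x ∈ Str K s) (c : ℝ)
    (hc : 0 < c) : c • x ∈ Str K s := by
  obtain ⟨⟨hx0, hx1⟩, hx2⟩ := hx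
  refine ⟨⟨smul_ne_zero hc.ne' hx0, fun i => ?_⟩, ?_⟩
  · rw [gg_smul h i x c hc.le]
    exact mul_nonneg hc.le (hx1 i)
  · rw [← hx2]
    ext i
    simp only [lab, mem_filter, mem_univ, true_and]
    rw [gg_smul h i x c hc.le]
    constructor
    · intro h1
      rcases mul_eq_zero.mp h1 with h2 | h2
      · exact (hc.ne' h2).elim
      · exact h2
    · intro h1
      rw [h1, mul_zero]

theorem comp_smul (h : CF K Om d) (s : Finset (Fin n × Bool)) (x : V) (hx : x ∈ Str K s) (c : ℝ)
    (hc : 0 < c) : c • x ∈ connectedComponentIn (Str K s) x := by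
  have hp : IsPreconnected ((fun t : ℝ => t • x) '' Set.Ioi 0) :=
    (convex_Ioi (0 : ℝ)).isPreconnected.image _
      (continuous_id.smul continuous_const).continuousOn
  have hsub : (fun t : ℝ => t • x) '' Set.Ioi 0 ⊆ Str K s := by
    rintro _ ⟨t, ht, rfl⟩
    exact Str_smul h s x hx t ht
  exact hp.subset_connectedComponentIn ⟨1, Set.mem_Ioi.mpr one_pos, one_smul _ _⟩ hsub ⟨c, Set.mem_Ioi.mpr hc, rfl⟩

/-- ROW CB2d. `TT` is closed in `V \ {0}`, and labels can only grow in the limit. -/
theorem mem_TT_of_closure (h : CF K Om d) (w : V) (hw : w ≠ 0) (hc : w ∈ closure (TT K)) :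
    w ∈ TT K := by
  refine ⟨hw, fun i => ?_⟩
  have h1 : IsClosed {l : V | 0 ≤ gg K i l} := isClosed_le continuous_const (gg_cont h i)
  exact closure_minimal (fun l hl => hl.2 i) h1 hc

theorem lab_of_closure (h : CF K Om d) (s : Finset (Fin n × Bool)) (w : V)
    (hc : w ∈ closure (Str K s)) : s ⊆ lab K w := by
  intro i hi
  have h1 : IsClosed {l : V | gg K i l = 0} := isClosed_eq (gg_cont h i) continuous_const
  have h2 : Str K s ⊆ {l : V | gg K i l = 0} := by
    intro l hl
    have h3 : i ∈ lab K l := by rw [hl.2]; exact hi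
    simp only [lab, mem_filter, mem_univ, true_and] at h3
    exact h3
  have h4 : gg K i w = 0 := closure_minimal h2 h1 hc
  simp only [lab, mem_filter, mem_univ, true_and]
  exact h4

/-- ROW CB2e. A component of a stratum is relatively closed. (If `w ∈ closure Y ∩ Str s`, then
`Y ∪ {w}` is preconnected: `IsPreconnected.subset_closure`.) -/
theorem comp_closed (s : Finset (Fin n × Bool)) (x w : V) (hx : x ∈ Str K s) (hw : w ∈ Str K s)
    (hc : w ∈ closure (connectedComponentIn (Str K s) x)) :
    w ∈ connectedComponentIn (Str K s) x := by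
  have hp : IsPreconnected (insert w (connectedComponentIn (Str K s) x)) :=
    isPreconnected_connectedComponentIn.subset_closure (Set.subset_insert _ _)
      (Set.insert_subset hc subset_closure)
  exact hp.subset_connectedComponentIn
    (Set.mem_insert_of_mem _ (mem_connectedComponentIn hx))
    (Set.insert_subset hw (connectedComponentIn_subset _ _)) (Set.mem_insert _ _)

/-- ROW CB2f. Near `w ∈ TT` the non-labels stay positive. -/
theorem eventually_pos (h : CF K Om d) (w : V) (hw : w ∈ TT K) :
    ∀ᶠ l in nhds w, l ≠ 0 ∧ l ∈ Om ∧ ∀ i ∉ lab K w, 0 < gg K i l := by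
  have h1 : ∀ᶠ l in nhds w, l ≠ 0 := isOpen_ne.eventually_mem hw.1
  have h2 : ∀ᶠ l in nhds w, l ∈ Om := h.omO.eventually_mem (h.omT w hw)
  have h3 : ∀ᶠ l in nhds w, ∀ i, i ∉ lab K w → 0 < gg K i l := by
    rw [Filter.eventually_all]
    intro i
    by_cases hi : i ∈ lab K w
    · exact Filter.Eventually.of_forall fun l hl => (hl hi).elim
    · have h4 : gg K i w ≠ 0 := by
        intro h5
        apply hi
        simp only [lab, mem_filter, mem_univ, true_and]
        exact h5
      have h5 : 0 < gg K i w := lt_of_le_of_ne (hw.2 i) h4.symm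
      have h6 : ∀ᶠ l in nhds w, 0 < gg K i l :=
        (gg_cont h i).continuousAt.eventually (lt_mem_nhds h5)
      exact h6.mono fun l hl _ => hl
  filter_upwards [h1, h2, h3] with l a b c
  exact ⟨a, b, c⟩

end MP528
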