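import Pool.Agent.Lib.MP_528ca9_co.CB1

namespace MP528

open Finset

variable {V : Type*} [NormedAddCommGroup V] [InnerProductSpace ℝ V] [FiniteDimensional ℝ V] {n d : ℕ}
  {K : Fin n → Set V} {Om : Set V}

/-- ROW CB2a. The maximiser is continuous at points of `Om`. Proof: if `l_k → l` and
`y_k = ct i l_k` stay away from `y = ct i l`, a subsequence converges to some `y' ∈ KK i` (compact),
`y' ≠ y`, and `⟪y', l⟫ = lim gg i l_k = gg i l` (`gg_cont`), contradicting `KK_uniq`. -/
theorem ct_cont (h : CF K Om d) (i : Fin n × Bool) (l : V) (hl : l ∈ Om) :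
    ContinuousAt (ct K i) l := by
  refine (KK_cpt h i).tendsto_nhds_of_unique_mapClusterPt
    (Filter.Eventually.of_forall fun l' => ct_mem h i l') ?_
  intro y hy hcl
  obtain ⟨C, hC⟩ := (KK_cpt h i).isBounded.exists_norm_le
  have ht : Filter.Tendsto (fun l' => inner ℝ (ct K i l') l) (nhds l) (nhds (gg K i l)) := by
    have h1 : Filter.Tendsto (fun l' => gg K i l' - inner ℝ (ct K i l') (l' - l)) (nhds l)
        (nhds (gg K i l - 0)) := by
      refine ((gg_cont h i).tendsto l).sub ?_
      refine squeeze_zero_norm (a := fun l' => C * ‖l' - l‖) (fun l' => ?_) ?_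
      · exact (norm_inner_le_norm _ _).trans
          (mul_le_mul_of_nonneg_right (hC _ (ct_mem h i l')) (norm_nonneg _))
      · have : Filter.Tendsto (fun l' => C * ‖l' - l‖) (nhds l) (nhds (C * ‖l - l‖)) :=
          ((continuous_const.mul ((continuous_id.sub continuous_const).norm)).tendsto l)
        simpa using this
    rw [sub_zero] at h1
    refine h1.congr fun l' => ?_
    rw [inner_sub_right, ct_inner h i l']
    ring
  have h2 : MapClusterPt (inner ℝ y l) (nhds l) (fun l' => inner ℝ (ct K i l') l) :=
    MapClusterPt.continuousAt_comp (f := fun z : V => inner ℝ z l)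
      (continuous_id.inner continuous_const).continuousAt hcl
  have h3 : inner ℝ y l = gg K i l := by
    have : (nhds (inner ℝ y l) ⊓ nhds (gg K i l)).NeBot :=
      Filter.NeBot.mono h2 (inf_le_inf_left _ ht)
    exact eq_of_nhds_neBot this
  exact KK_uniq h l hl i y _ hy (ct_mem h i l) h3 (ct_inner h i l)

end MP528
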