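import Mathlib

/-!
Block C: abstract families, definitions.
-/

namespace MP528

open Finset

/-- support function -/
noncomputable def supp {V : Type*} [NormedAddCommGroup V] [InnerProductSpace ℝ V]
    (K : Set V) (l : V) : ℝ := sSup ((fun y => inner ℝ y l) '' K)

/-- signed member: `K j` or `-K j` -/
def KK {V : Type*} [NormedAddCommGroup V] [InnerProductSpace ℝ V] {n : ℕ}
    (K : Fin n → Set V) (i : Fin n × Bool) : Set V :=
  if i.2 then K i.1 else (fun y => -y) '' K i.1

/-- support functions of the signed members -/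
noncomputable def gg {V : Type*} [NormedAddCommGroup V] [InnerProductSpace ℝ V] {n : ℕ}
    (K : Fin n → Set V) (i : Fin n × Bool) (l : V) : ℝ := supp (KK K i) l

/-- functionals meeting every member -/
def TT {V : Type*} [NormedAddCommGroup V] [InnerProductSpace ℝ V] {n : ℕ}
    (K : Fin n → Set V) : Set V := {l | l ≠ 0 ∧ ∀ i, 0 ≤ gg K i l}

open Classical in
/-- labels: the signed members that are touched -/
noncomputable def lab {V : Type*} [NormedAddCommGroup V] [InnerProductSpace ℝ V] {n : ℕ}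
    (K : Fin n → Set V) (l : V) : Finset (Fin n × Bool) := univ.filter (fun i => gg K i l = 0)

/-- strata -/
def Str {V : Type*} [NormedAddCommGroup V] [InnerProductSpace ℝ V] {n : ℕ}
    (K : Fin n → Set V) (s : Finset (Fin n × Bool)) : Set V := {l | l ∈ TT K ∧ lab K l = s}

/-- connected components of strata -/
def AFaces {V : Type*} [NormedAddCommGroup V] [InnerProductSpace ℝ V] {n : ℕ}
    (K : Fin n → Set V) : Set (Set V) :=
  {Y | ∃ s, ∃ x ∈ Str K s, Y = connectedComponentIn (Str K s) x}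

/-- The hypotheses on an abstract family. -/
structure CF {V : Type*} [NormedAddCommGroup V] [InnerProductSpace ℝ V] {n : ℕ}
    (K : Fin n → Set V) (Om : Set V) (d : ℕ) : Prop where
  dim : Module.finrank ℝ V = d + 1
  hd : 1 ≤ d
  hn : d ≤ n
  ne : ∀ j, (K j).Nonempty
  cpt : ∀ j, IsCompact (K j)
  cvx : ∀ j, Convex ℝ (K j)
  sep : ∀ S : Finset (Fin n), S.card ≤ d → ∀ x : Fin n → V, (∀ j ∈ S, x j ∈ K j) →
    LinearIndependent ℝ (fun j : S => x j)
  spn : ∀ j, ∀ l : V, l ≠ 0 → ∃ y ∈ K j, inner ℝ y l ≠ 0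
  omO : IsOpen Om
  omS : ∀ l ∈ Om, -l ∈ Om
  omZ : (0 : V) ∉ Om
  omC : ∀ l ∈ Om, ∀ c : ℝ, 0 < c → c • l ∈ Om
  omT : ∀ l ∈ TT K, l ∈ Om
  omU : ∀ l ∈ Om, ∀ j, ∀ y ∈ K j, ∀ y' ∈ K j, inner ℝ y l = supp (K j) l →
    inner ℝ y' l = supp (K j) l → y = y'

/-- A maximiser of `l` on `KK K i` (junk value if there is none). -/
noncomputable def ct {V : Type*} [NormedAddCommGroup V] [InnerProductSpace ℝ V] {n : ℕ}
    (K : Fin n → Set V) (i : Fin n × Bool) (l : V) : V := by
  classical
  exact if h : ∃ y ∈ KK K i, inner ℝ y l = gg K i l then h.choose else 0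

open Pointwise in
/-- perturbed family -/
def pert {V : Type*} [NormedAddCommGroup V] [InnerProductSpace ℝ V] {n : ℕ}
    (K : Fin n → Set V) (η : Fin n → ℝ) : Fin n → Set V :=
  fun j => K j + Metric.closedBall (0 : V) (η j)

end MP528
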