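import Mathlib

/-!
Combinatorial definitions for part A of MP_528ca9_co: alternating pairs, coboundary, the
van Kampen property `VK`.
-/

namespace MP528

open Finset

/-- number of elements of `S` before `x` -/
def rk {α : Type*} [DecidableEq α] (r : α → ℕ) (S : Finset α) (x : α) : ℕ :=
  (S.filter (fun y => r y < r x)).card

/-- The merged word of `σ` and `τ` alternates and starts in `σ`. -/
def AltP {α : Type*} [DecidableEq α] (r : α → ℕ) (σ τ : Finset α) : Prop :=
  (∀ x ∈ σ, Even (rk r (σ ∪ τ) x)) ∧ (∀ x ∈ τ, Odd (rk r (σ ∪ τ) x))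

open Classical in
/-- indicator of `AltP` -/
noncomputable def altA {α : Type*} [DecidableEq α] (r : α → ℕ) (σ τ : Finset α) : ZMod 2 :=
  if AltP r σ τ then 1 else 0

/-- coboundary: sum over all removals of one element -/
def dlt {α : Type*} [DecidableEq α] (h : Finset α → Finset α → ZMod 2) (σ τ : Finset α) : ZMod 2 :=
  (∑ v ∈ σ, h (σ.erase v) τ) + ∑ v ∈ τ, h σ (τ.erase v)

/-- The mod 2 van Kampen cochain in degree `d` is a symmetric coboundary, for all vertex orders. -/
def VK {α : Type*} [DecidableEq α] (Δ : Finset (Finset α)) (d : ℕ) : Prop :=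
  ∀ r : α → ℕ, Function.Injective r → ∃ g : Finset α → Finset α → ZMod 2,
    (∀ σ τ, g σ τ = g τ σ) ∧ ∀ σ ∈ Δ, ∀ τ ∈ Δ, Disjoint σ τ → σ.card + τ.card = d + 2 →
      altA r σ τ + altA r τ σ = dlt g σ τ

/-- closed under subsets -/
def DownC {α : Type*} [DecidableEq α] (Δ : Finset (Finset α)) : Prop :=
  ∀ σ ∈ Δ, ∀ τ, τ ⊆ σ → τ ∈ Δ

/-- number of faces with `s` elements -/
def Fc {α : Type*} [DecidableEq α] (Δ : Finset (Finset α)) (s : ℕ) : ℕ :=
  (Δ.filter (fun σ => σ.card = s)).card

end MP528
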