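import Mathlib

/-!
Definitions for MP_528ca9_co: hyperplane transversals, tangency, separated families,
topological faces.
-/

namespace MP528

open Set

/-- Euclidean space. -/
abbrev E (d : ℕ) := EuclideanSpace ℝ (Fin d)

/-- The affine hyperplane with normal vector `u` and level `t`. -/
def hyp {d : ℕ} (u : E d) (t : ℝ) : Set (E d) := {x | inner ℝ u x = t}

/-- The set of all affine hyperplanes of `ℝ^d`. -/
def Hyp (d : ℕ) : Type := {H : Set (E d) // ∃ u : E d, ∃ t : ℝ, ‖u‖ = 1 ∧ H = hyp u t}

/-- The map sending a unit normal and a level to the hyperplane. -/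
def mkHyp {d : ℕ} (p : Metric.sphere (0 : E d) 1 × ℝ) : Hyp d :=
  ⟨hyp p.1.1 p.2, p.1.1, p.2, by simp, rfl⟩

/-- The usual topology of the space of hyperplanes: the quotient topology of
`S^{d-1} × ℝ` modulo `(u,t) ~ (-u,-t)`. -/
instance (d : ℕ) : TopologicalSpace (Hyp d) :=
  TopologicalSpace.coinduced mkHyp inferInstance

/-- `H` is tangent to `a`: it meets `a` and `a` lies in one closed half-space of `H`. -/
def Tangent {d : ℕ} (H : Hyp d) (a : Set (E d)) : Prop :=
  (H.1 ∩ a).Nonempty ∧ ∃ u : E d, ∃ t : ℝ, ‖u‖ = 1 ∧ H.1 = hyp u t ∧ ∀ x ∈ a, inner ℝ u x ≤ t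

/-- A set is strictly convex if it is convex and every tangent hyperplane meets it in exactly
one point. -/
def SConvex {d : ℕ} (a : Set (E d)) : Prop :=
  Convex ℝ a ∧ ∀ H : Hyp d, Tangent H a → ∃! x, x ∈ H.1 ∩ a

/-- The hyperplane transversals of a family. -/
def Transv {d n : ℕ} (A : Fin n → Set (E d)) : Set (Hyp d) := {H | ∀ i, (H.1 ∩ A i).Nonempty}

/-- The transversals tangent to exactly the members with index in `S`. -/
def stratum {d n : ℕ} (A : Fin n → Set (E d)) (S : Set (Fin n)) : Set (Hyp d) :=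
  {H | H ∈ Transv A ∧ ∀ i, Tangent H (A i) ↔ i ∈ S}

/-- The topological faces: the connected components of the strata. -/
def Faces {d n : ℕ} (A : Fin n → Set (E d)) : Set (Set (Hyp d)) :=
  {F | ∃ S : Set (Fin n), ∃ H ∈ stratum A S, F = connectedComponentIn (stratum A S) H}

/-- `(d-2)`-separated: no `d` members have a common transversal flat of dimension `d-2`. -/
def Separated {d n : ℕ} (A : Fin n → Set (E d)) : Prop :=
  ∀ S : Finset (Fin n), S.card = d → ∀ L : AffineSubspace ℝ (E d), (L : Set (E d)).Nonempty →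
    Module.finrank ℝ L.direction = d - 2 → ∃ i ∈ S, ¬ ((L : Set (E d)) ∩ A i).Nonempty

end MP528
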