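import Pool.Agent.Lib.MP_528ca9_co.Comb

namespace MP528

open Finset

theorem G0f_rk_v {α : Type*} [DecidableEq α] (r : α → ℕ) (v : α) (S : Finset α)
    (hv : ∀ u, u ≠ v → r v < r u) : rk r S v = 0 := by
  unfold rk
  rw [Finset.card_eq_zero, Finset.filter_eq_empty_iff]
  intro y _ hy
  by_cases h : y = v
  · rw [h] at hy
    exact lt_irrefl _ hy
  · exact lt_asymm hy (hv y h)

theorem G0f_rk_insert {α : Type*} [DecidableEq α] (r : α → ℕ) (v : α) (S : Finset α)
    (hv : ∀ u, u ≠ v → r v < r u) (hS : v ∉ S) {x : α} (hx : x ≠ v) :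
    rk r (insert v S) x = rk r S x + 1 := by
  unfold rk
  rw [Finset.filter_insert, if_pos (hv x hx), Finset.card_insert_of_notMem]
  intro h
  exact hS (Finset.mem_filter.1 h).1

theorem G0f_iff {α : Type*} [DecidableEq α] (r : α → ℕ) (v : α) (σ τ : Finset α)
    (hv : ∀ u, u ≠ v → r v < r u) (hvσ : v ∉ σ) (hvτ : v ∉ τ) :
    AltP r (insert v σ) τ ↔ AltP r τ σ := by
  have hS : v ∉ σ ∪ τ := by
    rw [Finset.mem_union, not_or]
    exact ⟨hvσ, hvτ⟩
  have h1 : ∀ x ∈ σ, x ≠ v := fun x hx h => hvσ (h ▸ hx)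
  have h2 : ∀ x ∈ τ, x ≠ v := fun x hx h => hvτ (h ▸ hx)
  unfold AltP
  rw [Finset.insert_union, Finset.union_comm τ σ]
  constructor
  · rintro ⟨ha, hb⟩
    refine ⟨fun x hx => ?_, fun x hx => ?_⟩
    · have := hb x hx
      rw [G0f_rk_insert r v _ hv hS (h2 x hx)] at this
      exact (Nat.not_odd_iff_even.1 (fun h => (Nat.not_odd_iff_even.2 (Odd.add_one h)) this))
    · have := ha x (Finset.mem_insert_of_mem hx)
      rw [G0f_rk_insert r v _ hv hS (h1 x hx)] at this
      exact (Nat.not_even_iff_odd.1 (fun h => (Nat.not_even_iff_odd.2 (Even.add_one h)) this))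
  · rintro ⟨ha, hb⟩
    refine ⟨fun x hx => ?_, fun x hx => ?_⟩
    · rcases Finset.mem_insert.1 hx with h | h
      · rw [h, G0f_rk_v r v _ hv]
        exact Even.zero
      · rw [G0f_rk_insert r v _ hv hS (h1 x h)]
        exact Odd.add_one (hb x h)
    · rw [G0f_rk_insert r v _ hv hS (h2 x hx)]
      exact Even.add_one (ha x hx)

/-- ROW G0f. Putting a new first vertex into the second component never alternates, putting it
into the first component exchanges the roles. (All ranks of old elements grow by one, the rank of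
`v` is `0`.) -/
theorem altA_insert {α : Type*} [DecidableEq α] (r : α → ℕ) (v : α) (σ τ : Finset α)
    (hv : ∀ u, u ≠ v → r v < r u) (hvσ : v ∉ σ) (hvτ : v ∉ τ) :
    altA r (insert v σ) τ = altA r τ σ ∧ altA r σ (insert v τ) = 0 := by
  constructor
  · unfold altA
    by_cases h : AltP r τ σ
    · rw [if_pos h, if_pos ((G0f_iff r v σ τ hv hvσ hvτ).2 h)]
    · rw [if_neg h, if_neg (fun h' => h ((G0f_iff r v σ τ hv hvσ hvτ).1 h'))]
  · unfold altA
    rw [if_neg]
    intro h
    have := h.2 v (Finset.mem_insert_self v τ)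
    rw [G0f_rk_v r v _ hv] at this
    exact absurd this (by decide)

/-- ROW G0g. `altA` only depends on the relative order of the elements involved. -/
theorem altA_congr {α : Type*} [DecidableEq α] (r r' : α → ℕ) (σ τ : Finset α)
    (h : ∀ x ∈ σ ∪ τ, ∀ y ∈ σ ∪ τ, (r x < r y ↔ r' x < r' y)) :
    altA r σ τ = altA r' σ τ := by
  have key : ∀ x ∈ σ ∪ τ, rk r (σ ∪ τ) x = rk r' (σ ∪ τ) x := by
    intro x hx
    unfold rk
    congr 1
    refine Finset.filter_congr fun y hy => ?_
    exact h y hy x hx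
  have hiff : AltP r σ τ ↔ AltP r' σ τ := by
    unfold AltP
    constructor
    · rintro ⟨ha, hb⟩
      exact ⟨fun x hx => key x (Finset.mem_union_left _ hx) ▸ ha x hx,
        fun x hx => key x (Finset.mem_union_right _ hx) ▸ hb x hx⟩
    · rintro ⟨ha, hb⟩
      exact ⟨fun x hx => (key x (Finset.mem_union_left _ hx)).symm ▸ ha x hx,
        fun x hx => (key x (Finset.mem_union_right _ hx)).symm ▸ hb x hx⟩
  unfold altA
  by_cases h' : AltP r σ τ
  · rw [if_pos h', if_pos (hiff.1 h')]
  · rw [if_neg h', if_neg (fun h'' => h' (hiff.2 h''))]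

end MP528
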