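import Pool.Agent.Lib.MP_528ca9_co.Comb

namespace MP528

open Finset

/-- ROW G0a. Counting lemma. `S` nonempty, `r` injective on `S`, `b` a predicate. The number of
`i ∈ S` such that `b` fails for all smaller and holds for all larger elements of `S` is odd iff `b`
is constant on `S`.
Proof. Sort `S` by `r` (or strong induction, or): Let `Z = {i ∈ S | ¬ b i}`, `O = {i ∈ S | b i}`.
If some element of `O` is smaller than some element of `Z`, no `i` works (such an `i` would be
`≤` the former and `≥` the latter) and `b` is not constant. Otherwise all of `Z` is below all of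
`O`, and the `i` that work are exactly `max Z` (if `Z ≠ ∅`) and `min O` (if `O ≠ ∅`): two if both
nonempty, one if one of them is empty. -/
theorem count_cut {α : Type*} [DecidableEq α] (r : α → ℕ) (S : Finset α) (hS : S.Nonempty)
    (hr : Set.InjOn r S) (b : α → Prop) [DecidablePred b] :
    (((S.filter (fun i => (∀ j ∈ S, r j < r i → ¬ b j) ∧ (∀ j ∈ S, r i < r j → b j))).card : ℕ) :
      ZMod 2) = (if ∀ j ∈ S, b j then 1 else 0) + (if ∀ j ∈ S, ¬ b j then 1 else 0) := by
  by_cases hA : ∃ o ∈ S, ∃ z ∈ S, b o ∧ ¬ b z ∧ r o < r z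
  · obtain ⟨o, ho, z, hz, hbo, hbz, hlt⟩ := hA
    have h1 : S.filter (fun i => (∀ j ∈ S, r j < r i → ¬ b j) ∧ (∀ j ∈ S, r i < r j → b j)) = ∅ := by
      apply Finset.filter_eq_empty_iff.2
      rintro i _ ⟨h1, h2⟩
      rcases lt_or_ge (r o) (r i) with h | h
      · exact h1 o ho h hbo
      · exact hbz (h2 z hz (lt_of_le_of_lt h hlt))
    have h2 : ¬ ∀ j ∈ S, b j := fun h => hbz (h z hz)
    have h3 : ¬ ∀ j ∈ S, ¬ b j := fun h => h o ho hbo
    rw [h1, if_neg h2, if_neg h3]
    simp
  · have hB : ∀ o ∈ S, ∀ z ∈ S, b o → ¬ b z → r z < r o := by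
      intro o ho z hz hbo hbz
      rcases lt_trichotomy (r z) (r o) with h | h | h
      · exact h
      · exact absurd (hr hz ho h ▸ hbo) hbz
      · exact absurd ⟨o, ho, z, hz, hbo, hbz, h⟩ hA
    have hsplit := Finset.card_filter_add_card_filter_not
      (s := S.filter (fun i => (∀ j ∈ S, r j < r i → ¬ b j) ∧ (∀ j ∈ S, r i < r j → b j))) b
    have hO : (((S.filter (fun i => (∀ j ∈ S, r j < r i → ¬ b j) ∧ (∀ j ∈ S, r i < r j → b j))).filter
        b).card : ℕ) = if ∀ j ∈ S, ¬ b j then 0 else 1 := by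
      by_cases h0 : ∀ j ∈ S, ¬ b j
      · rw [if_pos h0, Finset.card_eq_zero]
        apply Finset.filter_eq_empty_iff.2
        intro i hi
        exact h0 i (Finset.mem_filter.1 hi).1
      · rw [if_neg h0, Finset.card_eq_one]
        push Not at h0
        obtain ⟨j0, hj0, hbj0⟩ := h0
        obtain ⟨m, hm, hmin⟩ := Finset.exists_min_image (S.filter b) r
          ⟨j0, Finset.mem_filter.2 ⟨hj0, hbj0⟩⟩
        rw [Finset.mem_filter] at hm
        refine ⟨m, ?_⟩
        ext i
        rw [Finset.mem_filter, Finset.mem_filter, Finset.mem_singleton]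
        constructor
        · rintro ⟨⟨hi, h1, _⟩, hbi⟩
          have h3 := hmin i (Finset.mem_filter.2 ⟨hi, hbi⟩)
          rcases lt_or_eq_of_le h3 with h | h
          · exact absurd hm.2 (h1 m hm.1 h)
          · exact (hr hm.1 hi h).symm
        · rintro rfl
          refine ⟨⟨hm.1, ?_, ?_⟩, hm.2⟩
          · intro j hj hlt hbj
            exact absurd (hmin j (Finset.mem_filter.2 ⟨hj, hbj⟩)) (not_le.2 hlt)
          · intro j hj hlt
            by_contra hbj
            exact absurd (hB i hm.1 j hj hm.2 hbj) (not_lt.2 hlt.le)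
    have hZ : (((S.filter (fun i => (∀ j ∈ S, r j < r i → ¬ b j) ∧ (∀ j ∈ S, r i < r j → b j))).filter
        (fun i => ¬ b i)).card : ℕ) = if ∀ j ∈ S, b j then 0 else 1 := by
      by_cases h0 : ∀ j ∈ S, b j
      · rw [if_pos h0, Finset.card_eq_zero]
        apply Finset.filter_eq_empty_iff.2
        intro i hi hbi
        exact hbi (h0 i (Finset.mem_filter.1 hi).1)
      · rw [if_neg h0, Finset.card_eq_one]
        push Not at h0
        obtain ⟨j0, hj0, hbj0⟩ := h0
        obtain ⟨m, hm, hmax⟩ := Finset.exists_max_image (S.filter (fun i => ¬ b i)) r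
          ⟨j0, Finset.mem_filter.2 ⟨hj0, hbj0⟩⟩
        rw [Finset.mem_filter] at hm
        refine ⟨m, ?_⟩
        ext i
        rw [Finset.mem_filter, Finset.mem_filter, Finset.mem_singleton]
        constructor
        · rintro ⟨⟨hi, _, h2⟩, hbi⟩
          have h3 := hmax i (Finset.mem_filter.2 ⟨hi, hbi⟩)
          rcases lt_or_eq_of_le h3 with h | h
          · exact absurd (h2 m hm.1 h) hm.2
          · exact hr hi hm.1 h
        · rintro rfl
          refine ⟨⟨hm.1, ?_, ?_⟩, hm.2⟩
          · intro j hj hlt hbj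
            exact absurd (hB j hj i hm.1 hbj hm.2) (not_lt.2 hlt.le)
          · intro j hj hlt
            by_contra hbj
            exact absurd (hmax j (Finset.mem_filter.2 ⟨hj, hbj⟩)) (not_le.2 hlt)
    rw [hO, hZ] at hsplit
    rw [← hsplit]
    obtain ⟨s, hs⟩ := hS
    by_cases ha : ∀ j ∈ S, b j
    · have hb : ¬ ∀ j ∈ S, ¬ b j := fun h => h s hs (ha s hs)
      rw [if_pos ha, if_neg hb, if_pos ha, if_neg hb]
      simp
    · by_cases hb : ∀ j ∈ S, ¬ b j
      · rw [if_neg ha, if_pos hb, if_neg ha, if_pos hb]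
        simp
      · rw [if_neg ha, if_neg hb, if_neg ha, if_neg hb]
        decide

end MP528
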