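import Pool.Agent.Lib.MP_528ca9_co.Comb
import Pool.Agent.Lib.MP_528ca9_co.G0a

namespace MP528

open Finset

private theorem G0b_rk1 {α : Type*} [DecidableEq α] (r : α → ℕ) (S : Finset α) {v : α} (hv : v ∈ S) {x : α}
    (h : r v < r x) : rk r (S.erase v) x + 1 = rk r S x := by
  have hm : v ∈ S.filter (fun y => r y < r x) := Finset.mem_filter.2 ⟨hv, h⟩
  have e : (S.erase v).filter (fun y => r y < r x) = (S.filter (fun y => r y < r x)).erase v := by
    ext y
    simp only [Finset.mem_filter, Finset.mem_erase]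
    tauto
  rw [rk, rk, e, Finset.card_erase_add_one hm]

private theorem G0b_rk2 {α : Type*} [DecidableEq α] (r : α → ℕ) (S : Finset α) {v : α} {x : α}
    (h : ¬ r v < r x) : rk r (S.erase v) x = rk r S x := by
  have e : (S.erase v).filter (fun y => r y < r x) = S.filter (fun y => r y < r x) := by
    ext y
    simp only [Finset.mem_filter, Finset.mem_erase]
    constructor
    · rintro ⟨⟨_, h1⟩, h2⟩
      exact ⟨h1, h2⟩
    · rintro ⟨h1, h2⟩
      refine ⟨⟨?_, h1⟩, h2⟩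
      rintro rfl
      exact h h2
  rw [rk, rk, e]

/-- `x` is in the wrong place -/
private def G0b_b {α : Type*} [DecidableEq α] (r : α → ℕ) (σ τ : Finset α) (x : α) : Prop :=
  (x ∈ σ ∧ Odd (rk r (σ ∪ τ) x)) ∨ (x ∈ τ ∧ Even (rk r (σ ∪ τ) x))

private theorem G0b_bσ {α : Type*} [DecidableEq α] (r : α → ℕ) {σ τ : Finset α} (hd : Disjoint σ τ) {x : α}
    (hx : x ∈ σ) : G0b_b r σ τ x ↔ Odd (rk r (σ ∪ τ) x) := by
  have hx' : x ∉ τ := Finset.disjoint_left.1 hd hx
  simp [G0b_b, hx, hx']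

private theorem G0b_bτ {α : Type*} [DecidableEq α] (r : α → ℕ) {σ τ : Finset α} (hd : Disjoint σ τ) {x : α}
    (hx : x ∈ τ) : G0b_b r σ τ x ↔ Even (rk r (σ ∪ τ) x) := by
  have hx' : x ∉ σ := Finset.disjoint_right.1 hd hx
  simp [G0b_b, hx, hx']

private theorem G0b_even {α : Type*} [DecidableEq α] (r : α → ℕ) (hr : Function.Injective r) (S : Finset α) {v x : α}
    (hv : v ∈ S) (hxv : x ≠ v) :
    (Even (rk r (S.erase v) x) ↔ (r x < r v ∧ Even (rk r S x)) ∨ (r v < r x ∧ Odd (rk r S x))) ∧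
    (Odd (rk r (S.erase v) x) ↔ (r x < r v ∧ Odd (rk r S x)) ∨ (r v < r x ∧ Even (rk r S x))) := by
  rcases lt_trichotomy (r x) (r v) with h | h | h
  · rw [G0b_rk2 r S (not_lt.2 h.le)]
    simp [h, not_lt.2 h.le]
  · exact absurd (hr h) hxv
  · have h1 := G0b_rk1 r S hv h
    rw [← h1]
    simp only [h, not_lt.2 h.le, false_and, true_and, false_or, Nat.even_add_one, Nat.odd_add_one,
      Nat.not_even_iff_odd, Nat.not_odd_iff_even, and_self]

private def G0b_P {α : Type*} [DecidableEq α] (r : α → ℕ) (σ τ : Finset α) (v : α) : Prop :=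
  (∀ j ∈ σ ∪ τ, r j < r v → ¬ G0b_b r σ τ j) ∧ (∀ j ∈ σ ∪ τ, r v < r j → G0b_b r σ τ j)

private theorem G0b_σ {α : Type*} [DecidableEq α] (r : α → ℕ) (hr : Function.Injective r)
    (σ τ : Finset α) (hd : Disjoint σ τ) {v : α} (hv : v ∈ σ) : AltP r (σ.erase v) τ ↔ G0b_P r σ τ v := by
  have hvτ : v ∉ τ := Finset.disjoint_left.1 hd hv
  have hvS : v ∈ σ ∪ τ := Finset.mem_union_left _ hv
  have hU : σ.erase v ∪ τ = (σ ∪ τ).erase v := by
    ext y
    simp only [Finset.mem_union, Finset.mem_erase]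
    constructor
    · rintro (⟨h1, h2⟩ | h)
      · exact ⟨h1, Or.inl h2⟩
      · exact ⟨fun h' => hvτ (h' ▸ h), Or.inr h⟩
    · rintro ⟨h1, h2 | h2⟩
      · exact Or.inl ⟨h1, h2⟩
      · exact Or.inr h2
  rw [AltP, hU]
  constructor
  · rintro ⟨h1, h2⟩
    refine ⟨fun j hj hlt => ?_, fun j hj hlt => ?_⟩
    · have hjv : j ≠ v := fun h => absurd hlt (by rw [h]; exact lt_irrefl _)
      have hk := G0b_even r hr (σ ∪ τ) hvS hjv
      rcases Finset.mem_union.1 hj with hjσ | hjτ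
      · rw [G0b_bσ r hd hjσ, Nat.not_odd_iff_even]
        rcases hk.1.1 (h1 j (Finset.mem_erase.2 ⟨hjv, hjσ⟩)) with ⟨_, h⟩ | ⟨h, _⟩
        · exact h
        · exact absurd hlt (not_lt.2 h.le)
      · rw [G0b_bτ r hd hjτ, Nat.not_even_iff_odd]
        rcases hk.2.1 (h2 j hjτ) with ⟨_, h⟩ | ⟨h, _⟩
        · exact h
        · exact absurd hlt (not_lt.2 h.le)
    · have hjv : j ≠ v := fun h => absurd hlt (by rw [h]; exact lt_irrefl _)
      have hk := G0b_even r hr (σ ∪ τ) hvS hjv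
      rcases Finset.mem_union.1 hj with hjσ | hjτ
      · rw [G0b_bσ r hd hjσ]
        rcases hk.1.1 (h1 j (Finset.mem_erase.2 ⟨hjv, hjσ⟩)) with ⟨h, _⟩ | ⟨_, h⟩
        · exact absurd hlt (not_lt.2 h.le)
        · exact h
      · rw [G0b_bτ r hd hjτ]
        rcases hk.2.1 (h2 j hjτ) with ⟨h, _⟩ | ⟨_, h⟩
        · exact absurd hlt (not_lt.2 h.le)
        · exact h
  · rintro ⟨h1, h2⟩
    have hcase : ∀ j ∈ σ ∪ τ, j ≠ v → (r j < r v ∧ ¬ G0b_b r σ τ j) ∨ (r v < r j ∧ G0b_b r σ τ j) := by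
      intro j hj hjv
      rcases lt_trichotomy (r j) (r v) with h | h | h
      · exact Or.inl ⟨h, h1 j hj h⟩
      · exact absurd (hr h) hjv
      · exact Or.inr ⟨h, h2 j hj h⟩
    refine ⟨fun j hj => ?_, fun j hj => ?_⟩
    · obtain ⟨hjv, hjσ⟩ := Finset.mem_erase.1 hj
      rw [(G0b_even r hr (σ ∪ τ) hvS hjv).1]
      have := hcase j (Finset.mem_union_left _ hjσ) hjv
      rw [G0b_bσ r hd hjσ, Nat.not_odd_iff_even] at this
      exact this
    · have hjv : j ≠ v := fun h => hvτ (h ▸ hj)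
      rw [(G0b_even r hr (σ ∪ τ) hvS hjv).2]
      have := hcase j (Finset.mem_union_right _ hj) hjv
      rw [G0b_bτ r hd hj, Nat.not_even_iff_odd] at this
      exact this

private theorem G0b_τ {α : Type*} [DecidableEq α] (r : α → ℕ) (hr : Function.Injective r)
    (σ τ : Finset α) (hd : Disjoint σ τ) {v : α} (hv : v ∈ τ) : AltP r σ (τ.erase v) ↔ G0b_P r σ τ v := by
  have hvσ : v ∉ σ := Finset.disjoint_right.1 hd hv
  have hvS : v ∈ σ ∪ τ := Finset.mem_union_right _ hv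
  have hU : σ ∪ τ.erase v = (σ ∪ τ).erase v := by
    ext y
    simp only [Finset.mem_union, Finset.mem_erase]
    constructor
    · rintro (h | ⟨h1, h2⟩)
      · exact ⟨fun h' => hvσ (h' ▸ h), Or.inl h⟩
      · exact ⟨h1, Or.inr h2⟩
    · rintro ⟨h1, h2 | h2⟩
      · exact Or.inl h2
      · exact Or.inr ⟨h1, h2⟩
  rw [AltP, hU]
  constructor
  · rintro ⟨h1, h2⟩
    refine ⟨fun j hj hlt => ?_, fun j hj hlt => ?_⟩
    · have hjv : j ≠ v := fun h => absurd hlt (by rw [h]; exact lt_irrefl _)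
      have hk := G0b_even r hr (σ ∪ τ) hvS hjv
      rcases Finset.mem_union.1 hj with hjσ | hjτ
      · rw [G0b_bσ r hd hjσ, Nat.not_odd_iff_even]
        rcases hk.1.1 (h1 j hjσ) with ⟨_, h⟩ | ⟨h, _⟩
        · exact h
        · exact absurd hlt (not_lt.2 h.le)
      · rw [G0b_bτ r hd hjτ, Nat.not_even_iff_odd]
        rcases hk.2.1 (h2 j (Finset.mem_erase.2 ⟨hjv, hjτ⟩)) with ⟨_, h⟩ | ⟨h, _⟩
        · exact h
        · exact absurd hlt (not_lt.2 h.le)
    · have hjv : j ≠ v := fun h => absurd hlt (by rw [h]; exact lt_irrefl _)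
      have hk := G0b_even r hr (σ ∪ τ) hvS hjv
      rcases Finset.mem_union.1 hj with hjσ | hjτ
      · rw [G0b_bσ r hd hjσ]
        rcases hk.1.1 (h1 j hjσ) with ⟨h, _⟩ | ⟨_, h⟩
        · exact absurd hlt (not_lt.2 h.le)
        · exact h
      · rw [G0b_bτ r hd hjτ]
        rcases hk.2.1 (h2 j (Finset.mem_erase.2 ⟨hjv, hjτ⟩)) with ⟨h, _⟩ | ⟨_, h⟩
        · exact absurd hlt (not_lt.2 h.le)
        · exact h
  · rintro ⟨h1, h2⟩
    have hcase : ∀ j ∈ σ ∪ τ, j ≠ v → (r j < r v ∧ ¬ G0b_b r σ τ j) ∨ (r v < r j ∧ G0b_b r σ τ j) := by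
      intro j hj hjv
      rcases lt_trichotomy (r j) (r v) with h | h | h
      · exact Or.inl ⟨h, h1 j hj h⟩
      · exact absurd (hr h) hjv
      · exact Or.inr ⟨h, h2 j hj h⟩
    refine ⟨fun j hj => ?_, fun j hj => ?_⟩
    · have hjv : j ≠ v := fun h => hvσ (h ▸ hj)
      rw [(G0b_even r hr (σ ∪ τ) hvS hjv).1]
      have := hcase j (Finset.mem_union_left _ hj) hjv
      rw [G0b_bσ r hd hj, Nat.not_odd_iff_even] at this
      exact this
    · obtain ⟨hjv, hjτ⟩ := Finset.mem_erase.1 hj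
      rw [(G0b_even r hr (σ ∪ τ) hvS hjv).2]
      have := hcase j (Finset.mem_union_right _ hjτ) hjv
      rw [G0b_bτ r hd hjτ, Nat.not_even_iff_odd] at this
      exact this

/-- ROW G0b. `δ A = A + T A`.
Proof. Put `S = σ ∪ τ` and `b x = ` (`x ∈ σ` and `rk r S x` odd) or (`x ∈ τ` and `rk r S x` even)
(`x` is in the wrong place). For `v ∈ S` the pair with `v` removed is alternating starting in the
first component iff `b` fails for all `x ∈ S` before `v` (their rank is unchanged) and `b` holds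
for all `x ∈ S` after `v` (their rank drops by one). So the left side is the number in `count_cut`
mod 2. `∀ ¬ b` is `AltP r σ τ`, `∀ b` is `AltP r τ σ`. -/
theorem alt_dlt {α : Type*} [DecidableEq α] (r : α → ℕ) (hr : Function.Injective r)
    (σ τ : Finset α) (hd : Disjoint σ τ) (hne : (σ ∪ τ).Nonempty) :
    dlt (altA r) σ τ = altA r σ τ + altA r τ σ := by
  classical
  have key := count_cut r (σ ∪ τ) hne hr.injOn (G0b_b r σ τ)
  rw [← Finset.sum_boole, Finset.sum_union hd] at key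
  have e1 : ∑ v ∈ σ, altA r (σ.erase v) τ = ∑ v ∈ σ, if ((∀ j ∈ σ ∪ τ, r j < r v → ¬ G0b_b r σ τ j) ∧
      (∀ j ∈ σ ∪ τ, r v < r j → G0b_b r σ τ j)) then (1 : ZMod 2) else 0 :=
    Finset.sum_congr rfl fun v hv => if_congr (G0b_σ r hr σ τ hd hv) rfl rfl
  have e2 : ∑ v ∈ τ, altA r σ (τ.erase v) = ∑ v ∈ τ, if ((∀ j ∈ σ ∪ τ, r j < r v → ¬ G0b_b r σ τ j) ∧
      (∀ j ∈ σ ∪ τ, r v < r j → G0b_b r σ τ j)) then (1 : ZMod 2) else 0 :=
    Finset.sum_congr rfl fun v hv => if_congr (G0b_τ r hr σ τ hd hv) rfl rfl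
  have e3 : (∀ j ∈ σ ∪ τ, G0b_b r σ τ j) ↔ AltP r τ σ := by
    rw [AltP, Finset.union_comm τ σ]
    constructor
    · intro h
      exact ⟨fun x hx => (G0b_bτ r hd hx).1 (h x (Finset.mem_union_right _ hx)),
        fun x hx => (G0b_bσ r hd hx).1 (h x (Finset.mem_union_left _ hx))⟩
    · rintro ⟨h1, h2⟩ j hj
      rcases Finset.mem_union.1 hj with h | h
      · exact (G0b_bσ r hd h).2 (h2 j h)
      · exact (G0b_bτ r hd h).2 (h1 j h)
  have e4 : (∀ j ∈ σ ∪ τ, ¬ G0b_b r σ τ j) ↔ AltP r σ τ := by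
    rw [AltP]
    constructor
    · intro h
      refine ⟨fun x hx => ?_, fun x hx => ?_⟩
      · have := h x (Finset.mem_union_left _ hx)
        rwa [G0b_bσ r hd hx, Nat.not_odd_iff_even] at this
      · have := h x (Finset.mem_union_right _ hx)
        rwa [G0b_bτ r hd hx, Nat.not_even_iff_odd] at this
    · rintro ⟨h1, h2⟩ j hj
      rcases Finset.mem_union.1 hj with h | h
      · rw [G0b_bσ r hd h, Nat.not_odd_iff_even]
        exact h1 j h
      · rw [G0b_bτ r hd h, Nat.not_even_iff_odd]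
        exact h2 j h
  rw [dlt, e1, e2, add_comm (altA r σ τ)]
  refine Eq.trans ?_ (key.trans ?_)
  · congr 1
  · rw [altA, altA]
    congr 1
    · exact if_congr e3 rfl rfl
    · exact if_congr e4 rfl rfl

end MP528
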