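import Pool.Agent.Lib.MP_528ca9_co.Comb

namespace MP528

open Finset

theorem G0c_rk_lt_card {α : Type*} [DecidableEq α] (r : α → ℕ) (S : Finset α) {x : α}
    (hx : x ∈ S) : rk r S x < S.card := by
  apply Finset.card_lt_card
  rw [Finset.ssubset_iff_of_subset (Finset.filter_subset _ _)]
  exact ⟨x, hx, by simp⟩

theorem G0c_rk_lt {α : Type*} [DecidableEq α] (r : α → ℕ) (S : Finset α) {x y : α}
    (hx : x ∈ S) (hxy : r x < r y) : rk r S x < rk r S y := by
  apply Finset.card_lt_card
  rw [Finset.ssubset_iff_of_subset]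
  · exact ⟨x, by simp [hx, hxy], by simp⟩
  · intro z hz
    rw [Finset.mem_filter] at hz ⊢
    exact ⟨hz.1, hz.2.trans hxy⟩

theorem G0c_rk_inj {α : Type*} [DecidableEq α] (r : α → ℕ) (hr : Function.Injective r)
    (S : Finset α) {x y : α} (hx : x ∈ S) (hy : y ∈ S) (h : rk r S x = rk r S y) : x = y := by
  rcases lt_trichotomy (r x) (r y) with h1 | h1 | h1
  · exact absurd h (G0c_rk_lt r S hx h1).ne
  · exact hr h1
  · exact absurd h (G0c_rk_lt r S hy h1).ne'

theorem G0c_image {α : Type*} [DecidableEq α] (r : α → ℕ) (hr : Function.Injective r)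
    (S : Finset α) : S.image (rk r S) = Finset.range S.card := by
  apply Finset.eq_of_subset_of_card_le
  · intro m hm
    obtain ⟨x, hx, rfl⟩ := Finset.mem_image.1 hm
    exact Finset.mem_range.2 (G0c_rk_lt_card r S hx)
  · rw [Finset.card_range, Finset.card_image_of_injOn]
    intro x hx y hy h
    exact G0c_rk_inj r hr S hx hy h

theorem G0c_even_range (n : ℕ) : ((Finset.range n).filter (fun m => Even m)).card = (n + 1) / 2 := by
  induction n with
  | zero => simp
  | succ n ih =>
    rw [Finset.range_add_one, Finset.filter_insert]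
    by_cases h : Even n
    · rw [if_pos h, Finset.card_insert_of_notMem (by simp), ih]
      obtain ⟨m, rfl⟩ := h
      omega
    · rw [if_neg h, ih]
      rw [Nat.not_even_iff_odd] at h
      obtain ⟨m, rfl⟩ := h
      omega

theorem G0c_card_even {α : Type*} [DecidableEq α] (r : α → ℕ) (hr : Function.Injective r)
    (S : Finset α) : (S.filter (fun x => Even (rk r S x))).card = (S.card + 1) / 2 := by
  rw [← G0c_even_range, ← G0c_image r hr S, Finset.filter_image, Finset.card_image_of_injOn]
  intro x hx y hy h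
  have hx' : x ∈ S := (Finset.mem_filter.1 hx).1
  have hy' : y ∈ S := (Finset.mem_filter.1 hy).1
  exact G0c_rk_inj r hr S hx' hy' h

theorem G0c_left {α : Type*} [DecidableEq α] (r : α → ℕ)
    (σ τ S : Finset α) (hS : σ ∪ τ = S) (h : AltP r σ τ) :
    σ = S.filter (fun x => Even (rk r S x)) := by
  subst hS
  ext x
  rw [Finset.mem_filter]
  constructor
  · intro hx
    exact ⟨Finset.mem_union_left _ hx, h.1 x hx⟩
  · rintro ⟨hx, he⟩
    rcases Finset.mem_union.1 hx with hx | hx
    · exact hx
    · exact absurd he (Nat.not_even_iff_odd.2 (h.2 x hx))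

theorem G0c_right {α : Type*} [DecidableEq α] (r : α → ℕ)
    (σ τ S : Finset α) (hS : σ ∪ τ = S) (h : AltP r σ τ) :
    τ = S.filter (fun x => ¬ Even (rk r S x)) := by
  subst hS
  ext x
  rw [Finset.mem_filter]
  constructor
  · intro hx
    exact ⟨Finset.mem_union_right _ hx, Nat.not_even_iff_odd.2 (h.2 x hx)⟩
  · rintro ⟨hx, he⟩
    rcases Finset.mem_union.1 hx with hx | hx
    · exact absurd (h.1 x hx) he
    · exact hx

/-- ROW G0c. Proof: the ranks of the elements of `S = σ ∪ τ` are `0, .., |S|-1`, each once, and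
`σ` is the set of elements of even rank, `τ` the set of elements of odd rank (disjoint!). -/
theorem altP_card {α : Type*} [DecidableEq α] (r : α → ℕ) (hr : Function.Injective r)
    (σ τ : Finset α) (hd : Disjoint σ τ) (h : AltP r σ τ) :
    τ.card ≤ σ.card ∧ σ.card ≤ τ.card + 1 := by
  have h1 := G0c_card_even r hr (σ ∪ τ)
  rw [← G0c_left r σ τ _ rfl h] at h1
  have h2 := Finset.card_union_of_disjoint hd
  omega

/-- ROW G0e. Every `S` with an even number `2k+2` of elements has exactly one alternating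
splitting: `σ` = elements of even rank, `τ` = elements of odd rank. -/
theorem alt_unique {α : Type*} [DecidableEq α] (r : α → ℕ) (hr : Function.Injective r) (k : ℕ)
    (S : Finset α) (hS : S.card = 2 * k + 2) :
    ∃ σ τ : Finset α, Disjoint σ τ ∧ σ ∪ τ = S ∧ σ.card = k + 1 ∧ τ.card = k + 1 ∧ AltP r σ τ ∧
      ∀ σ' τ' : Finset α, Disjoint σ' τ' → σ' ∪ τ' = S → AltP r σ' τ' → σ' = σ ∧ τ' = τ := by
  have h1 := G0c_card_even r hr S
  have h2 := Finset.card_filter_add_card_filter_not (s := S) (fun x => Even (rk r S x))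
  have hu : S.filter (fun x => Even (rk r S x)) ∪ S.filter (fun x => ¬ Even (rk r S x)) = S :=
    Finset.filter_union_filter_not_eq _ S
  refine ⟨S.filter (fun x => Even (rk r S x)), S.filter (fun x => ¬ Even (rk r S x)),
    Finset.disjoint_filter_filter_not _ _ _, hu, by omega, by omega, ⟨?_, ?_⟩, ?_⟩
  · intro x hx
    rw [hu]
    exact (Finset.mem_filter.1 hx).2
  · intro x hx
    rw [hu]
    exact Nat.not_even_iff_odd.1 (Finset.mem_filter.1 hx).2
  · intro σ' τ' _ hS' hA
    exact ⟨G0c_left r σ' τ' S hS' hA, G0c_right r σ' τ' S hS' hA⟩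

end MP528
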