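import Pool.Agent.Lib.MP_528ca9_co.G0b
import Pool.Agent.Lib.MP_528ca9_co.G0c

namespace MP528

open Finset

/-- ROW G0d. From G0b: the terms `altA r (σ.erase v) τ` vanish by G0c
(`τ.card = k+1 > k`). -/
theorem alt_split {α : Type*} [DecidableEq α] (r : α → ℕ) (hr : Function.Injective r) (k : ℕ)
    (σ τ : Finset α) (hd : Disjoint σ τ) (hσ : σ.card = k + 1) (hτ : τ.card = k + 1) :
    altA r σ τ + altA r τ σ = ∑ v ∈ τ, altA r σ (τ.erase v) := by
  have hne : (σ ∪ τ).Nonempty := by
    have : σ.Nonempty := Finset.card_pos.mp (by omega)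
    exact this.mono Finset.subset_union_left
  rw [← alt_dlt r hr σ τ hd hne, dlt]
  have h0 : ∑ v ∈ σ, altA r (σ.erase v) τ = 0 := by
    refine Finset.sum_eq_zero fun v hv => ?_
    rw [altA, if_neg]
    intro h
    have h1 := (altP_card r hr (σ.erase v) τ
      (Finset.disjoint_of_subset_left (Finset.erase_subset _ _) hd) h).1
    rw [Finset.card_erase_of_mem hv] at h1
    omega
  rw [h0, zero_add]

end MP528
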