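import Pool.Agent.Lib.MP_528ca9_co.Comb

namespace MP528

open Finset

/-- extension by zero of a function on the faces with `k+1` elements -/
noncomputable def g1_ext {n : ℕ} {R : Type*} [CommRing R] (Φ : Finset (Finset (Fin n)))
    (w : {σ // σ ∈ Φ} → R) (σ : Finset (Fin n)) : R :=
  open Classical in if h : σ ∈ Φ then w ⟨σ, h⟩ else 0

theorem g1_ext_pos {n : ℕ} {R : Type*} [CommRing R] {Φ : Finset (Finset (Fin n))}
    (w : {σ // σ ∈ Φ} → R) {σ : Finset (Fin n)} (h : σ ∈ Φ) : g1_ext Φ w σ = w ⟨σ, h⟩ := by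
  simp [g1_ext, h]

theorem g1_ext_neg {n : ℕ} {R : Type*} [CommRing R] {Φ : Finset (Finset (Fin n))}
    (w : {σ // σ ∈ Φ} → R) {σ : Finset (Fin n)} (h : σ ∉ Φ) : g1_ext Φ w σ = 0 := by
  simp [g1_ext, h]

/-- the linear map of row G1 -/
noncomputable def g1_map {n : ℕ} {R : Type*} [CommRing R] {N : ℕ} (Φ1 Φ0 : Finset (Finset (Fin n)))
    (q : Fin n → Fin N → R) : ({σ // σ ∈ Φ1} → R) →ₗ[R] ({ρ // ρ ∈ Φ0} × Fin N → R) where
  toFun w b := ∑ u ∈ b.1.1ᶜ, g1_ext Φ1 w (insert u b.1.1) * q u b.2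
  map_add' w w' := by
    funext b
    rw [Pi.add_apply, ← Finset.sum_add_distrib]
    refine Finset.sum_congr rfl fun u _ => ?_
    by_cases h : insert u b.1.1 ∈ Φ1
    · rw [g1_ext_pos _ h, g1_ext_pos _ h, g1_ext_pos _ h, Pi.add_apply, add_mul]
    · rw [g1_ext_neg _ h, g1_ext_neg _ h, g1_ext_neg _ h, zero_mul, add_zero]
  map_smul' c w := by
    funext b
    rw [Pi.smul_apply, RingHom.id_apply, smul_eq_mul, Finset.mul_sum]
    refine Finset.sum_congr rfl fun u _ => ?_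
    by_cases h : insert u b.1.1 ∈ Φ1
    · rw [g1_ext_pos _ h, g1_ext_pos _ h, Pi.smul_apply, smul_eq_mul, mul_assoc]
    · rw [g1_ext_neg _ h, g1_ext_neg _ h, zero_mul, mul_zero]

/-- ROW G1. A nonzero balanced function on the faces with `k+1` elements.
Proof. Let `R = MvPolynomial ..`, `Φ1 = {σ ∈ Δ | card = k+1}`, `Φ0 = {ρ ∈ Δ | card = k}`. The linear
map `(Φ1 → R) → (Φ0 × Fin (2k+2) → R)`,
`w ↦ ((ρ,i) ↦ ∑ u ∈ ρᶜ, w(insert u ρ) * X (u,i))` (with `w = 0` off `Φ1`) is not injective because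
`card (Φ0 × Fin (2k+2)) < card Φ1` and `R` is a nontrivial commutative ring
(`commRing_strongRankCondition`, `card_le_of_injective`-type lemma: `card_le_of_injective`
for `StrongRankCondition`, or `Module` rank). A nonzero kernel element, extended by zero, satisfies
the equations for `ρ ∈ Δ`; for `ρ ∉ Δ` all `insert u ρ ∉ Δ` (`DownC`), so the sum is zero. -/
theorem exists_balanced {n k : ℕ} (Δ : Finset (Finset (Fin n))) (hD : DownC Δ)
    (h : (2 * k + 2) * Fc Δ k < Fc Δ (k + 1)) :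
    ∃ w : Finset (Fin n) → MvPolynomial (Fin n × Fin (2 * k + 2)) (ZMod 2),
      (∃ σ, w σ ≠ 0) ∧ (∀ σ, w σ ≠ 0 → σ ∈ Δ ∧ σ.card = k + 1) ∧
      ∀ ρ : Finset (Fin n), ρ.card = k → ∀ i : Fin (2 * k + 2),
        ∑ u ∈ ρᶜ, w (insert u ρ) * MvPolynomial.X (u, i) = 0 := by
  classical
  set Φ1 := Δ.filter (fun σ => σ.card = k + 1) with hΦ1
  set Φ0 := Δ.filter (fun σ => σ.card = k) with hΦ0
  let q : Fin n → Fin (2 * k + 2) → MvPolynomial (Fin n × Fin (2 * k + 2)) (ZMod 2) :=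
    fun u i => MvPolynomial.X (u, i)
  have hninj : ¬ Function.Injective (g1_map Φ1 Φ0 q) := by
    intro hinj
    have hc := card_le_of_injective _ (g1_map Φ1 Φ0 q) hinj
    rw [Fintype.card_prod, Fintype.card_coe, Fintype.card_coe, Fintype.card_fin] at hc
    have e1 : Φ1.card = Fc Δ (k + 1) := rfl
    have e0 : Φ0.card = Fc Δ k := rfl
    rw [e1, e0, mul_comm] at hc
    omega
  rw [injective_iff_map_eq_zero] at hninj
  push Not at hninj
  obtain ⟨w, hw0, hwne⟩ := hninj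
  refine ⟨g1_ext Φ1 w, ?_, ?_, ?_⟩
  · obtain ⟨a, ha⟩ := Function.ne_iff.1 hwne
    refine ⟨a.1, ?_⟩
    rw [g1_ext_pos w a.2]
    exact ha
  · intro σ hσ
    by_cases hm : σ ∈ Φ1
    · exact Finset.mem_filter.1 hm
    · exact absurd (g1_ext_neg w hm) hσ
  · intro ρ hρ i
    by_cases hρΔ : ρ ∈ Δ
    · have hm : ρ ∈ Φ0 := Finset.mem_filter.2 ⟨hρΔ, hρ⟩
      exact congrFun hw0 (⟨ρ, hm⟩, i)
    · refine Finset.sum_eq_zero fun u _ => ?_
      have hn : insert u ρ ∉ Φ1 := fun hm =>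
        hρΔ (hD _ (Finset.mem_filter.1 hm).1 ρ (Finset.subset_insert _ _))
      rw [g1_ext_neg w hn, zero_mul]

end MP528
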