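import Pool.Agent.Lib.MP_528ca9_co.GDefs

namespace MP528

open Finset

/-- ROW G11e. Every `(k+1)`-set is the image of a map from `Fin (2k+2)` with all fibres of even
size (`i ↦` the element number `i / 2`). -/
theorem exists_two_to_one {n k : ℕ} (U : Finset (Fin n)) (hU : U.card = k + 1) :
    ∃ f : Fin (2 * k + 2) → Fin n, univ.image f = U ∧
      ∀ u, Even (univ.filter (fun i => f i = u)).card := by
  classical
  let e : Fin (k + 1) ↪o Fin n := U.orderEmbOfFin hU
  have hb : ∀ i : Fin (2 * k + 2), (i : ℕ) / 2 < k + 1 := by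
    intro i
    have := i.2
    omega
  let f : Fin (2 * k + 2) → Fin n := fun i => e ⟨(i : ℕ) / 2, hb i⟩
  have himg : ∀ u, u ∈ U ↔ ∃ j, e j = u := by
    intro u
    have h := Finset.range_orderEmbOfFin U hU
    have h2 : u ∈ Set.range e ↔ u ∈ (U : Set (Fin n)) := by rw [h]
    rw [← Finset.mem_coe, ← h2]
    rfl
  refine ⟨f, ?_, ?_⟩
  · ext u
    rw [mem_image, himg]
    constructor
    · rintro ⟨i, -, rfl⟩
      exact ⟨_, rfl⟩
    · rintro ⟨j, rfl⟩
      refine ⟨⟨2 * (j : ℕ), ?_⟩, mem_univ _, ?_⟩
      · have := j.2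
        omega
      · simp only [f]
        congr 1
        apply Fin.ext
        simp
  · intro u
    by_cases hu : u ∈ U
    · obtain ⟨j, rfl⟩ := (himg u).1 hu
      have hj := j.2
      have h1 : 2 * (j : ℕ) < 2 * k + 2 := by omega
      have h2 : 2 * (j : ℕ) + 1 < 2 * k + 2 := by omega
      have : univ.filter (fun i => f i = e j) = {⟨2 * (j : ℕ), h1⟩, ⟨2 * (j : ℕ) + 1, h2⟩} := by
        ext i
        simp only [mem_filter, mem_univ, true_and, mem_insert, mem_singleton, f,
          EmbeddingLike.apply_eq_iff_eq, Fin.ext_iff]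
        omega
      rw [this, card_pair]
      · exact even_two
      · simp [Fin.ext_iff]
    · have : univ.filter (fun i => f i = u) = ∅ := by
        rw [filter_eq_empty_iff]
        intro i _ h
        exact hu ((himg u).2 ⟨_, h⟩)
      rw [this]
      simp

end MP528
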