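import Pool.Agent.Lib.MP_528ca9_co.GDefs

namespace MP528

open Finset

/-- ROW G11a. `Dl` is additive, and squares are constants for it (`pderiv` is a derivation,
`pderiv (c^2) = 2 c pderiv c = 0` over `ZMod 2`). -/
theorem Dl_add {n N : ℕ} (f : Fin N → Fin n) (l : List (Fin N))
    (g h : MvPolynomial (Fin n × Fin N) (ZMod 2)) : Dl f l (g + h) = Dl f l g + Dl f l h := by
  induction l with
  | nil => rfl
  | cons i l ih =>
    show MvPolynomial.pderiv (f i, i) (Dl f l (g + h)) = _
    rw [ih, map_add]
    rfl

theorem Dl_zero {n N : ℕ} (f : Fin N → Fin n) (l : List (Fin N)) :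
    Dl f l (0 : MvPolynomial (Fin n × Fin N) (ZMod 2)) = 0 := by
  induction l with
  | nil => rfl
  | cons i l ih =>
    show MvPolynomial.pderiv (f i, i) (Dl f l 0) = _
    rw [ih, map_zero]

theorem Dl_sum {n N : ℕ} {ι : Type*} (f : Fin N → Fin n) (l : List (Fin N)) (s : Finset ι)
    (g : ι → MvPolynomial (Fin n × Fin N) (ZMod 2)) :
    Dl f l (∑ a ∈ s, g a) = ∑ a ∈ s, Dl f l (g a) := by
  classical
  induction s using Finset.induction_on with
  | empty => rw [Finset.sum_empty, Finset.sum_empty, Dl_zero]
  | insert a s ha ih => rw [Finset.sum_insert ha, Finset.sum_insert ha, Dl_add, ih]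

theorem Dl_sq {n N : ℕ} (f : Fin N → Fin n) (l : List (Fin N))
    (c g : MvPolynomial (Fin n × Fin N) (ZMod 2)) : Dl f l (c ^ 2 * g) = c ^ 2 * Dl f l g := by
  induction l with
  | nil => rfl
  | cons i l ih =>
    show MvPolynomial.pderiv (f i, i) (Dl f l (c ^ 2 * g)) = _
    rw [ih, MvPolynomial.pderiv_mul, MvPolynomial.pderiv_pow]
    have h2 : ((2 : ℕ) : MvPolynomial (Fin n × Fin N) (ZMod 2)) = 0 :=
      CharP.cast_eq_zero (MvPolynomial (Fin n × Fin N) (ZMod 2)) 2
    rw [h2]
    show _ = c ^ 2 * MvPolynomial.pderiv (f i, i) (Dl f l g)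
    ring

theorem G11a_pderiv_prod {n N : ℕ} (φ : Fin N → Fin n) (a : Fin n) (i : Fin N) (s : Finset (Fin N))
    (hi : i ∉ s) : MvPolynomial.pderiv (a, i)
      (∏ j ∈ s, (MvPolynomial.X (φ j, j) : MvPolynomial (Fin n × Fin N) (ZMod 2))) = 0 := by
  classical
  induction s using Finset.induction_on with
  | empty => simp
  | insert j s hj ih =>
    rw [Finset.mem_insert, not_or] at hi
    rw [Finset.prod_insert hj, MvPolynomial.pderiv_mul, ih hi.2, MvPolynomial.pderiv_X_of_ne]
    · ring
    · intro h
      exact hi.1 (Prod.ext_iff.1 h).2.symm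

theorem G11a_list {n N : ℕ} (f φ : Fin N → Fin n) (l : List (Fin N)) (hl : l.Nodup) :
    Dl f l (∏ i, MvPolynomial.X (φ i, i)) =
      (if ∀ i ∈ l, φ i = f i then
        ∏ i ∈ univ.filter (fun i => i ∉ l), MvPolynomial.X (φ i, i) else 0 :
        MvPolynomial (Fin n × Fin N) (ZMod 2)) := by
  classical
  induction l with
  | nil =>
    simp [Dl]
  | cons i l ih =>
    rw [List.nodup_cons] at hl
    show MvPolynomial.pderiv (f i, i) (Dl f l (∏ i, MvPolynomial.X (φ i, i))) = _
    rw [ih hl.2]
    by_cases h : ∀ j ∈ l, φ j = f j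
    · rw [if_pos h]
      have hset : univ.filter (fun j => j ∉ l) =
          insert i (univ.filter (fun j => j ∉ i :: l)) := by
        ext j
        simp only [Finset.mem_filter, Finset.mem_univ, true_and, Finset.mem_insert,
          List.mem_cons, not_or]
        constructor
        · intro hj
          by_cases hji : j = i
          · exact Or.inl hji
          · exact Or.inr ⟨hji, hj⟩
        · rintro (rfl | hj)
          · exact hl.1
          · exact hj.2
      have hni : i ∉ univ.filter (fun j => j ∉ i :: l) := by simp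
      rw [hset, Finset.prod_insert hni, MvPolynomial.pderiv_mul, G11a_pderiv_prod φ (f i) i _ hni,
        mul_zero, add_zero]
      by_cases hi : φ i = f i
      · rw [hi, MvPolynomial.pderiv_X_self, one_mul, if_pos]
        intro j hj
        rcases List.mem_cons.1 hj with rfl | hj
        · exact hi
        · exact h j hj
      · rw [MvPolynomial.pderiv_X_of_ne, zero_mul, if_neg]
        · intro hh
          exact hi (hh i (List.mem_cons_self))
        · intro hh
          exact hi (Prod.ext_iff.1 hh).1
    · rw [if_neg h, map_zero, if_neg]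
      intro hh
      exact h (fun j hj => hh j (List.mem_cons_of_mem i hj))

/-- ROW G11b. Proof: for a list `l` without repetitions, by induction,
`Dl f l (∏_i X (φ i, i)) = if ∀ i ∈ l, φ i = f i then ∏_{i ∉ l} X (φ i, i) else 0`
(`pderiv (f i, i) (X (φ i, i) * rest) = if φ i = f i then rest else 0`, as `rest` does not contain
a variable with second index `i`). -/
theorem Dl_monomial {n N : ℕ} (f φ : Fin N → Fin n) :
    Dl f (List.finRange N) (∏ i, MvPolynomial.X (φ i, i)) =
      (if φ = f then 1 else 0 : MvPolynomial (Fin n × Fin N) (ZMod 2)) := by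
  rw [G11a_list f φ _ (List.nodup_finRange N)]
  have hiff : (∀ i ∈ List.finRange N, φ i = f i) ↔ φ = f := by
    constructor
    · intro h
      funext i
      exact h i (List.mem_finRange i)
    · rintro rfl i _
      rfl
  by_cases h : φ = f
  · rw [if_pos (hiff.2 h), if_pos h]
    apply Finset.prod_eq_one
    intro i hi
    rw [Finset.mem_filter] at hi
    exact absurd (List.mem_finRange i) hi.2
  · rw [if_neg (fun hh => h (hiff.1 hh)), if_neg h]

end MP528
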