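import Pool.Agent.Lib.MP_528ca9_co.GDefs
import Pool.Agent.Lib.MP_528ca9_co.G11a

namespace MP528

open Finset

/-- ROW G11c. The derivation applied to the top coefficient of a product of monomials.
Proof. `∏_{u ∈ U} ∏_{i ∈ t u} (algebraMap (X (u,i)) * x i)`. If some `i` lies in `t u` and `t u'`,
`u ≠ u'` in `U`, the product is `0`; and the condition on the right fails. If the `t u` are pairwise
disjoint with union `T`, the product is `(∏ ∏ X (u,i)) • ∏_{i ∈ T} x i`, so `top` gives zero unless
`T = univ` (if `T ≠ univ` the right side is `0` too, since the fibres of `f` over `U ⊇ im f` cover).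
If `T = univ`, let `φ i` be the `u ∈ U` with `i ∈ t u`: the coefficient is `∏_i X (φ i, i)` and
G11b applies: `φ = f` iff `t u = fibre` for all `u ∈ U` and `im f ⊆ U`. -/
theorem Dl_top_prod {n N : ℕ} {𝔼 : Type*} [CommRing 𝔼]
    [Algebra (MvPolynomial (Fin n × Fin N) (ZMod 2)) 𝔼] (x : Fin N → 𝔼)
    (hx : ∀ i, x i * x i = 0) (top : 𝔼 →ₗ[MvPolynomial (Fin n × Fin N) (ZMod 2)]
      MvPolynomial (Fin n × Fin N) (ZMod 2))
    (htop : ∀ T : Finset (Fin N), top (∏ i ∈ T, x i) = if T = univ then 1 else 0)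
    (f : Fin N → Fin n) (U : Finset (Fin n)) (t : Fin n → Finset (Fin N)) :
    Dl f (List.finRange N) (top (∏ u ∈ U, ∏ i ∈ t u,
      (algebraMap (MvPolynomial (Fin n × Fin N) (ZMod 2)) 𝔼 (MvPolynomial.X (u, i)) * x i))) =
      if (∀ u ∈ U, t u = univ.filter (fun i => f i = u)) ∧ (∀ i, f i ∈ U) then 1 else 0 := by
  classical
  have hfac : (∏ u ∈ U, ∏ i ∈ t u,
      (algebraMap (MvPolynomial (Fin n × Fin N) (ZMod 2)) 𝔼 (MvPolynomial.X (u, i)) * x i)) =
      (∏ u ∈ U, ∏ i ∈ t u, (MvPolynomial.X (u, i) : MvPolynomial (Fin n × Fin N) (ZMod 2))) •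
        (∏ u ∈ U, ∏ i ∈ t u, x i) := by
    rw [Algebra.smul_def, map_prod, ← Finset.prod_mul_distrib]
    refine Finset.prod_congr rfl (fun u _ => ?_)
    rw [map_prod, ← Finset.prod_mul_distrib]
  rw [hfac, map_smul]
  by_cases hdis : (U : Set (Fin n)).PairwiseDisjoint t
  · have hB : (∏ u ∈ U, ∏ i ∈ t u, x i) = ∏ i ∈ U.biUnion t, x i := by
      rw [Finset.prod_biUnion hdis]
    rw [hB, htop]
    by_cases hU : U.biUnion t = univ
    · rw [if_pos hU, smul_eq_mul, mul_one]
      have hex : ∀ i : Fin N, ∃ u, u ∈ U ∧ i ∈ t u := by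
        intro i
        have hi : i ∈ U.biUnion t := by rw [hU]; exact Finset.mem_univ i
        obtain ⟨u, hu, hi⟩ := Finset.mem_biUnion.1 hi
        exact ⟨u, hu, hi⟩
      choose φ hφU hφt using hex
      have huniq : ∀ i u, u ∈ U → i ∈ t u → φ i = u := by
        intro i u hu hi
        by_contra hne
        have := hdis (Finset.mem_coe.2 (hφU i)) (Finset.mem_coe.2 hu) hne
        exact Finset.disjoint_left.1 this (hφt i) hi
      have hA : (∏ u ∈ U, ∏ i ∈ t u,
          (MvPolynomial.X (u, i) : MvPolynomial (Fin n × Fin N) (ZMod 2))) =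
          ∏ i, MvPolynomial.X (φ i, i) := by
        rw [← hU, Finset.prod_biUnion hdis]
        refine Finset.prod_congr rfl (fun u hu => ?_)
        refine Finset.prod_congr rfl (fun i hi => ?_)
        rw [huniq i u hu hi]
      rw [hA, Dl_monomial]
      have hiff : φ = f ↔ (∀ u ∈ U, t u = univ.filter (fun i => f i = u)) ∧ (∀ i, f i ∈ U) := by
        constructor
        · rintro rfl
          refine ⟨fun u hu => ?_, hφU⟩
          ext i
          rw [Finset.mem_filter]
          constructor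
          · intro hi
            exact ⟨Finset.mem_univ i, huniq i u hu hi⟩
          · rintro ⟨_, hi⟩
            rw [← hi]
            exact hφt i
        · rintro ⟨h1, h2⟩
          funext i
          apply huniq i (f i) (h2 i)
          rw [h1 (f i) (h2 i), Finset.mem_filter]
          exact ⟨Finset.mem_univ i, rfl⟩
      by_cases hφf : φ = f
      · rw [if_pos hφf, if_pos (hiff.1 hφf)]
      · rw [if_neg hφf, if_neg (fun h => hφf (hiff.2 h))]
    · rw [if_neg hU, smul_zero, Dl_zero, if_neg]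
      rintro ⟨h1, h2⟩
      apply hU
      ext i
      simp only [Finset.mem_biUnion, Finset.mem_univ, iff_true]
      refine ⟨f i, h2 i, ?_⟩
      rw [h1 (f i) (h2 i), Finset.mem_filter]
      exact ⟨Finset.mem_univ i, rfl⟩
  · rw [Set.PairwiseDisjoint, Set.Pairwise] at hdis
    push Not at hdis
    obtain ⟨u, hu, u', hu', hne, hd⟩ := hdis
    have hd' : ¬ Disjoint (t u) (t u') := hd
    obtain ⟨i, hi, hi'⟩ := Finset.not_disjoint_iff.1 hd'
    have huU : u ∈ U := Finset.mem_coe.1 hu
    have huU' : u' ∈ U := Finset.mem_coe.1 hu'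
    have hB0 : (∏ u ∈ U, ∏ i ∈ t u, x i) = 0 := by
      have hu2 : u' ∈ U.erase u := Finset.mem_erase.2 ⟨fun h => hne h.symm, huU'⟩
      rw [← Finset.mul_prod_erase U _ huU, ← Finset.mul_prod_erase (U.erase u) _ hu2,
        ← Finset.mul_prod_erase (t u) _ hi, ← Finset.mul_prod_erase (t u') _ hi']
      have : ∀ a b c : 𝔼, x i * a * (x i * b * c) = (x i * x i) * (a * b * c) := by
        intro a b c; ring
      rw [this, hx, zero_mul]
    rw [hB0, map_zero, smul_zero, Dl_zero, if_neg]
    rintro ⟨h1, _⟩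
    rw [h1 u huU, Finset.mem_filter] at hi
    rw [h1 u' huU', Finset.mem_filter] at hi'
    exact hne (hi.2.symm.trans hi'.2)

end MP528
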