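import Pool.Agent.Lib.MP_528ca9_co.GDefs

namespace MP528

open Finset

theorem G9d_two {𝔼 : Type*} [CommRing 𝔼] [Algebra (ZMod 2) 𝔼] : (2 : 𝔼) = 0 := by
  have h : (2 : ZMod 2) = 0 := by decide
  have := congrArg (algebraMap (ZMod 2) 𝔼) h
  rwa [map_zero, map_ofNat] at this

theorem G9d_ind {ι 𝔼 : Type*} [DecidableEq ι] [CommRing 𝔼] [Algebra (ZMod 2) 𝔼]
    (y : ι → 𝔼) (hy : ∀ i, y i * y i = 0) (s : Finset ι) :
    (∏ i ∈ s, (1 + y i) = ∑ T ∈ s.powerset.filter (fun T => Even T.card), ∏ i ∈ T, y i
      + ∑ T ∈ s.powerset.filter (fun T => ¬ Even T.card), ∏ i ∈ T, y i) ∧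
    ((∑ i ∈ s, y i) * ∏ i ∈ s, (1 + y i)
      = ∑ T ∈ s.powerset.filter (fun T => ¬ Even T.card), ∏ i ∈ T, y i) := by
  have h2 : (2 : 𝔼) = 0 := G9d_two
  induction s using Finset.induction_on with
  | empty =>
    have e1 : (∅ : Finset ι).powerset.filter (fun T => Even T.card) = {∅} := by
      ext T; simp only [Finset.mem_filter, Finset.powerset_empty, Finset.mem_singleton]
      constructor
      · exact fun h => h.1
      · rintro rfl; simp
    have e2 : (∅ : Finset ι).powerset.filter (fun T => ¬ Even T.card) = ∅ := by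
      ext T; simp only [Finset.mem_filter, Finset.powerset_empty, Finset.mem_singleton]
      constructor
      · rintro ⟨rfl, h⟩; simp at h
      · intro h; simp at h
    rw [e1, e2]; simp
  | insert a s ha ih =>
    obtain ⟨ih1, ih2⟩ := ih
    have key : ∀ P : ℕ → Prop, ∀ _ : DecidablePred P,
        ∑ T ∈ (insert a s).powerset.filter (fun T => P T.card), ∏ i ∈ T, y i
        = ∑ T ∈ s.powerset.filter (fun T => P T.card), ∏ i ∈ T, y i
          + y a * ∑ T ∈ s.powerset.filter (fun T => P (T.card + 1)), ∏ i ∈ T, y i := by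
      intro P _
      rw [Finset.powerset_insert, Finset.filter_union, Finset.sum_union]
      · congr 1
        rw [Finset.filter_image, Finset.sum_image, Finset.mul_sum]
        · refine Finset.sum_congr ?_ ?_
          · refine Finset.filter_congr fun T hT => ?_
            have : a ∉ T := fun h => ha (Finset.mem_powerset.1 hT h)
            rw [Finset.card_insert_of_notMem this]
          · intro T hT
            have : a ∉ T := fun h => ha (Finset.mem_powerset.1 (Finset.mem_filter.1 hT).1 h)
            rw [Finset.prod_insert this]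
        · intro T hT T' hT' h
          have h1 : a ∉ T := fun h => ha (Finset.mem_powerset.1 (Finset.mem_filter.1 hT).1 h)
          have h2 : a ∉ T' := fun h => ha (Finset.mem_powerset.1 (Finset.mem_filter.1 hT').1 h)
          have := congrArg (fun X => Finset.erase X a) h
          simpa [Finset.erase_insert h1, Finset.erase_insert h2] using this
      · rw [Finset.disjoint_left]
        intro T hT hT'
        have h1 : a ∉ T := fun h => ha (Finset.mem_powerset.1 (Finset.mem_filter.1 hT).1 h)
        obtain ⟨T', -, rfl⟩ := Finset.mem_image.1 (Finset.mem_filter.1 hT').1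
        exact h1 (Finset.mem_insert_self _ _)
    have kE := key (fun n => Even n) inferInstance
    have kO := key (fun n => ¬ Even n) inferInstance
    simp only [Nat.even_add_one, not_not] at kE kO
    rw [Finset.prod_insert ha, Finset.sum_insert ha, kE, kO]
    refine ⟨?_, ?_⟩
    · rw [ih1]; ring
    · have : (y a + ∑ i ∈ s, y i) * ((1 + y a) * ∏ i ∈ s, (1 + y i))
          = (y a + y a * y a) * (∏ i ∈ s, (1 + y i))
            + (1 + y a) * ((∑ i ∈ s, y i) * ∏ i ∈ s, (1 + y i)) := by ring
      rw [this, ih2, hy, ih1]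
      linear_combination (y a * ∑ T ∈ s.powerset.filter (fun T => ¬ Even T.card), ∏ i ∈ T, y i) * h2

/-- ROW G9d. In characteristic 2 with `y i * y i = 0`:
`(1 + ∑ y_i) ∏ (1 + y_i) = ∑_{T even} ∏_T y`.
Proof: `∏ (1 + y_i) = ∑_T y_T`, and `(∑_i y_i) y_T = ∑_{i ∉ T} y_{T ∪ i}`, so
`(∑ y_i) ∑_T y_T = ∑_{T'} |T'| y_{T'}`; the total coefficient of `y_T` is `1 + |T|`.
Removing `T = ∅` (adding `1`) gives the statement. (Or induction on the index set.) -/
theorem evf_expand {n N : ℕ} {𝔼 : Type*} [CommRing 𝔼] [Algebra (ZMod 2) 𝔼]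
    (q : Fin n → Fin N → 𝔼) (x : Fin N → 𝔼) (hx : ∀ i, x i * x i = 0) (u : Fin n) :
    1 + evf q x u = ∑ T ∈ (univ : Finset (Fin N)).powerset.filter
      (fun T => Even T.card ∧ T.Nonempty), ∏ i ∈ T, (q u i * x i) := by
  classical
  have h2 : (2 : 𝔼) = 0 := G9d_two
  have hy : ∀ i, (q u i * x i) * (q u i * x i) = 0 := fun i => by
    have := hx i
    linear_combination (q u i * q u i) * this
  obtain ⟨h1, h3⟩ := G9d_ind (fun i => q u i * x i) hy (univ : Finset (Fin N))
  have h4 : ∑ T ∈ (univ : Finset (Fin N)).powerset.filter (fun T => Even T.card),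
      ∏ i ∈ T, (q u i * x i) = 1 + ∑ T ∈ (univ : Finset (Fin N)).powerset.filter
      (fun T => Even T.card ∧ T.Nonempty), ∏ i ∈ T, (q u i * x i) := by
    have : (univ : Finset (Fin N)).powerset.filter (fun T => Even T.card)
        = insert ∅ ((univ : Finset (Fin N)).powerset.filter
          (fun T => Even T.card ∧ T.Nonempty)) := by
      ext T
      simp only [Finset.mem_filter, Finset.mem_insert, Finset.mem_powerset]
      constructor
      · rintro ⟨hT, he⟩
        rcases T.eq_empty_or_nonempty with h | h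
        · exact Or.inl h
        · exact Or.inr ⟨hT, he, h⟩
      · rintro (h | ⟨hT, he, h⟩)
        · subst h; simp
        · exact ⟨hT, he⟩
    rw [this, Finset.sum_insert (by simp)]
    simp
  unfold evf
  have h5 : (1 + ∑ i, q u i * x i) * ∏ i, (1 + q u i * x i)
      = ∏ i, (1 + q u i * x i) + (∑ i, q u i * x i) * ∏ i, (1 + q u i * x i) := by ring
  rw [h5]
  rw [h3, h1, h4]
  linear_combination (1 + ∑ T ∈ (univ : Finset (Fin N)).powerset.filter
    (fun T => ¬ Even T.card), ∏ i ∈ T, (q u i * x i)) * h2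

end MP528
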