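import Pool.Agent.Lib.MP_528ca9_co.GDefs
import Pool.Agent.Lib.MP_528ca9_co.G9d
import Pool.Agent.Lib.MP_528ca9_co.G11c

namespace MP528

open Finset

/-- ROW G11d. Proof. Expand `∏_{u ∈ U} ∑_{T ∈ 𝒯} y_{u,T}` (`evf_expand`, `Finset.prod_sum`; or
`Finset.prod_univ_sum` on the subtype `U`) into a sum over choices `t`, apply `Dl_sum` and G11c:
the value is the number of choices `t` (values in `𝒯` = nonempty sets of even size) with
`t u = fibre u` for `u ∈ U`, and `im f ⊆ U`: it is `1` if all fibres over `U` are nonempty of even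
size and `im f ⊆ U`, i.e. iff `U = im f` (`hf`), and `0` otherwise. -/
theorem Dl_top {n N : ℕ} {𝔼 : Type*} [CommRing 𝔼] [Algebra (ZMod 2) 𝔼]
    [Algebra (MvPolynomial (Fin n × Fin N) (ZMod 2)) 𝔼] (x : Fin N → 𝔼)
    (hx : ∀ i, x i * x i = 0) (top : 𝔼 →ₗ[MvPolynomial (Fin n × Fin N) (ZMod 2)]
      MvPolynomial (Fin n × Fin N) (ZMod 2))
    (htop : ∀ T : Finset (Fin N), top (∏ i ∈ T, x i) = if T = univ then 1 else 0)
    (f : Fin N → Fin n) (hf : ∀ u, Even (univ.filter (fun i => f i = u)).card)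
    (U : Finset (Fin n)) :
    Dl f (List.finRange N) (top (∏ u ∈ U, (1 + evf (fun u i =>
      algebraMap (MvPolynomial (Fin n × Fin N) (ZMod 2)) 𝔼 (MvPolynomial.X (u, i))) x u))) =
      if U = univ.image f then 1 else 0 := by
  classical
  set F : Fin n → Finset (Fin N) → 𝔼 := fun u T => ∏ i ∈ T,
    (algebraMap (MvPolynomial (Fin n × Fin N) (ZMod 2)) 𝔼 (MvPolynomial.X (u, i)) * x i) with hF
  set 𝒯 : Finset (Finset (Fin N)) := (univ : Finset (Fin N)).powerset.filter
    (fun T => Even T.card ∧ T.Nonempty) with h𝒯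
  set t : Fin n → Finset (Finset (Fin N)) := fun u => if u ∈ U then 𝒯 else {∅} with ht
  have h1 : (∏ u ∈ U, (1 + evf (fun u i =>
      algebraMap (MvPolynomial (Fin n × Fin N) (ZMod 2)) 𝔼 (MvPolynomial.X (u, i))) x u)) =
      ∑ p ∈ Fintype.piFinset t, ∏ u ∈ U, F u (p u) := by
    have h2 : (∏ u ∈ U, (1 + evf (fun u i =>
        algebraMap (MvPolynomial (Fin n × Fin N) (ZMod 2)) 𝔼 (MvPolynomial.X (u, i))) x u)) =
        ∏ u ∈ U, ∑ T ∈ t u, F u T := by
      refine Finset.prod_congr rfl fun u hu => ?_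
      rw [evf_expand _ x hx u]
      simp only [ht, hu, if_true]
      rfl
    have h3 : ∏ u ∈ U, ∑ T ∈ t u, F u T = ∏ u, ∑ T ∈ t u, F u T := by
      refine Finset.prod_subset (Finset.subset_univ _) fun u _ hu => ?_
      simp [ht, hu, hF]
    rw [h2, h3, Finset.prod_univ_sum]
    refine Finset.sum_congr rfl fun p hp => ?_
    symm
    refine Finset.prod_subset (Finset.subset_univ _) fun u _ hu => ?_
    have h4 := Fintype.mem_piFinset.1 hp u
    simp only [ht, hu, if_false, Finset.mem_singleton] at h4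
    simp [hF, h4]
  rw [h1, map_sum, Dl_sum]
  have h5 : ∀ p ∈ Fintype.piFinset t, Dl f (List.finRange N) (top (∏ u ∈ U, F u (p u))) =
      if (∀ u ∈ U, p u = univ.filter (fun i => f i = u)) ∧ (∀ i, f i ∈ U) then 1 else 0 :=
    fun p _ => Dl_top_prod x hx top htop f U p
  rw [Finset.sum_congr rfl h5]
  by_cases hU : U = univ.image f
  · rw [if_pos hU]
    have hfib : (fun u => univ.filter (fun i => f i = u)) ∈ Fintype.piFinset t := by
      rw [Fintype.mem_piFinset]
      intro u
      by_cases hu : u ∈ U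
      · simp only [ht, hu, if_true, h𝒯, Finset.mem_filter, Finset.mem_powerset]
        refine ⟨Finset.subset_univ _, hf u, ?_⟩
        rw [hU, Finset.mem_image] at hu
        obtain ⟨i, _, hi⟩ := hu
        exact ⟨i, by simp [hi]⟩
      · simp only [ht, hu, if_false, Finset.mem_singleton]
        rw [Finset.filter_eq_empty_iff]
        intro i _ hi
        apply hu
        rw [hU, ← hi]
        exact Finset.mem_image_of_mem _ (Finset.mem_univ _)
    rw [Finset.sum_eq_single_of_mem _ hfib]
    · rw [if_pos]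
      refine ⟨fun u _ => rfl, fun i => ?_⟩
      rw [hU]
      exact Finset.mem_image_of_mem _ (Finset.mem_univ _)
    · intro p hp hne
      rw [if_neg]
      rintro ⟨h6, -⟩
      apply hne
      funext u
      by_cases hu : u ∈ U
      · exact h6 u hu
      · have h4 := Fintype.mem_piFinset.1 hp u
        have h7 := Fintype.mem_piFinset.1 hfib u
        simp only [ht, hu, if_false, Finset.mem_singleton] at h4 h7
        rw [h4, h7]
  · rw [if_neg hU]
    refine Finset.sum_eq_zero fun p hp => ?_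
    rw [if_neg]
    rintro ⟨h6, h7⟩
    apply hU
    ext u
    rw [Finset.mem_image]
    constructor
    · intro hu
      have h4 := Fintype.mem_piFinset.1 hp u
      simp only [ht, hu, if_true, h𝒯, Finset.mem_filter] at h4
      obtain ⟨i, hi⟩ := h4.2.2
      rw [h6 u hu, Finset.mem_filter] at hi
      exact ⟨i, Finset.mem_univ _, hi.2⟩
    · rintro ⟨i, _, rfl⟩
      exact h7 i

end MP528
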