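import Pool.Agent.Lib.MP_528ca9_co.GDefs

namespace MP528

open Finset

/-- coefficient ring -/
abbrev RR (n N : ℕ) := MvPolynomial (Fin n × Fin N) (ZMod 2)

/-- commutative algebra generated by `x_1..x_N` with squares zero -/
abbrev EE (n N : ℕ) := MvPolynomial (Fin N) (RR n N) ⧸
  Ideal.span (Set.range (fun i : Fin N => (MvPolynomial.X i : MvPolynomial (Fin N) (RR n N)) ^ 2))

/-- the generators -/
noncomputable def xE (n N : ℕ) : Fin N → EE n N := fun i =>
  Ideal.Quotient.mk _ (MvPolynomial.X i)

/-- ROW G13a. -/
theorem xE_sq (n N : ℕ) (i : Fin N) : xE n N i * xE n N i = 0 := by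
  unfold xE
  rw [← map_mul, Ideal.Quotient.eq_zero_iff_mem, ← pow_two]
  exact Ideal.subset_span ⟨i, rfl⟩

/-- the exponent with all entries one -/
noncomputable def G13_ones (N : ℕ) : Fin N →₀ ℕ := ∑ i : Fin N, Finsupp.single i 1

theorem G13_sum_apply {N : ℕ} (T : Finset (Fin N)) (j : Fin N) :
    (∑ i ∈ T, Finsupp.single i (1 : ℕ)) j = if j ∈ T then 1 else 0 := by
  rw [Finsupp.finsetSum_apply]
  simp only [Finsupp.single_apply]
  rw [Finset.sum_ite_eq' T j (fun _ => (1 : ℕ))]

/-- coefficients of squarefree monomials vanish on the ideal -/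
theorem G13_coeff_zero (n N : ℕ) (p : MvPolynomial (Fin N) (RR n N))
    (hp : p ∈ Ideal.span (Set.range
      (fun i : Fin N => (MvPolynomial.X i : MvPolynomial (Fin N) (RR n N)) ^ 2))) :
    ∀ m : Fin N →₀ ℕ, (∀ j, m j ≤ 1) → MvPolynomial.coeff m p = 0 := by
  induction hp using Submodule.span_induction with
  | mem x hx =>
    intro m hm
    obtain ⟨i, rfl⟩ := hx
    have h := MvPolynomial.coeff_mul_monomial' m (Finsupp.single i 2) (1 : RR n N) 1
    rw [one_mul] at h
    simp only
    rw [MvPolynomial.X_pow_eq_monomial, h, if_neg]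
    intro hle
    have h2 := hle i
    rw [Finsupp.single_eq_same] at h2
    have := hm i
    omega
  | zero => intro m _; simp
  | add x y _ _ hx hy =>
    intro m hm
    rw [MvPolynomial.coeff_add, hx m hm, hy m hm, add_zero]
  | smul a x _ ih =>
    intro m hm
    rw [smul_eq_mul, MvPolynomial.coeff_mul]
    refine Finset.sum_eq_zero fun y hy => ?_
    rw [Finset.HasAntidiagonal.mem_antidiagonal] at hy
    rw [ih y.2 (fun j => ?_), mul_zero]
    have h1 : y.1 j + y.2 j = m j := by rw [← Finsupp.add_apply, hy]
    have := hm j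
    omega

/-- ROW G13b. Proof: the `R`-linear functional `coeff` of the monomial with all exponents one
(`MvPolynomial.lcoeff`) vanishes on the ideal: an element of the ideal is a sum of multiples
`g * X_i^2`, whose monomials have exponent `≥ 2` at `i` (`MvPolynomial.coeff_mul_X_pow`-type
lemma, or `coeff_mul_monomial'`). So it factors through the quotient
(`Submodule.liftQ` after `Ideal` restricted to `R`-scalars, or construct the map on the quotient
with `Quotient.lift` / `QuotientAddGroup.lift`). The value on `∏_{i ∈ T} x_i` is the coefficient of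
the all-ones monomial in `∏_{i ∈ T} X_i`. -/
theorem exists_top (n N : ℕ) : ∃ top : EE n N →ₗ[RR n N] RR n N,
    ∀ T : Finset (Fin N), top (∏ i ∈ T, xE n N i) = if T = univ then 1 else 0 := by
  classical
  set I := Ideal.span (Set.range
      (fun i : Fin N => (MvPolynomial.X i : MvPolynomial (Fin N) (RR n N)) ^ 2)) with hI
  have hker : I.restrictScalars (RR n N) ≤
      LinearMap.ker (MvPolynomial.lcoeff (RR n N) (G13_ones N)) := by
    intro p hp
    rw [LinearMap.mem_ker, MvPolynomial.lcoeff_apply]
    refine G13_coeff_zero n N p hp _ fun j => ?_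
    rw [G13_ones, G13_sum_apply]
    split_ifs <;> omega
  refine ⟨(Submodule.liftQ (I.restrictScalars (RR n N)) _ hker).comp
    (Submodule.Quotient.restrictScalarsEquiv (RR n N) I).symm.toLinearMap, fun T => ?_⟩
  have h1 : (∏ i ∈ T, xE n N i) = Ideal.Quotient.mk I (∏ i ∈ T, MvPolynomial.X i) := by
    rw [map_prod]
    rfl
  have h2 : (∏ i ∈ T, (MvPolynomial.X i : MvPolynomial (Fin N) (RR n N))) =
      MvPolynomial.monomial (∑ i ∈ T, Finsupp.single i 1) 1 := by
    rw [MvPolynomial.monomial_sum_one]
    rfl
  have h3 : (if T = univ then (1 : RR n N) else 0) =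
      MvPolynomial.coeff (G13_ones N) (∏ i ∈ T, (MvPolynomial.X i :
        MvPolynomial (Fin N) (RR n N))) := by
    rw [h2, MvPolynomial.coeff_monomial]
    by_cases hT : T = univ
    · rw [if_pos hT, if_pos (by rw [hT]; rfl)]
    · rw [if_neg hT, if_neg]
      intro he
      apply hT
      ext j
      have h := DFunLike.congr_fun he j
      rw [G13_ones, G13_sum_apply, G13_sum_apply, if_pos (Finset.mem_univ j)] at h
      constructor
      · intro _; exact Finset.mem_univ j
      · intro _
        by_contra hj
        rw [if_neg hj] at h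
        omega
  rw [h3, h1]
  rfl

end MP528
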