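import Pool.Agent.Lib.MP_528ca9_co.GDefs
import Pool.Agent.Lib.MP_528ca9_co.G3

namespace MP528

open Finset

theorem G4_split {β 𝔼 : Type*} [Fintype β] [DecidableEq β] [CommRing 𝔼]
    (S : Finset (Finset β)) (f : Finset β → Finset β → 𝔼) (hf : ∀ σ ∈ S, f σ σ = 0) :
    ∑ σ ∈ S, ∑ τ ∈ S, f σ τ =
      ∑ σ ∈ S, ∑ τ ∈ S, if Fintype.equivFin (Finset β) σ < Fintype.equivFin (Finset β) τ then
        f σ τ + f τ σ else 0 := by
  have h1 : ∀ σ ∈ S, ∀ τ ∈ S, f σ τ =
      (if Fintype.equivFin (Finset β) σ < Fintype.equivFin (Finset β) τ then f σ τ else 0) +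
      (if Fintype.equivFin (Finset β) τ < Fintype.equivFin (Finset β) σ then f σ τ else 0) := by
    intro σ hσ τ hτ
    rcases lt_trichotomy (Fintype.equivFin (Finset β) σ) (Fintype.equivFin (Finset β) τ)
      with h | h | h
    · rw [if_pos h, if_neg (lt_asymm h), add_zero]
    · have : σ = τ := (Fintype.equivFin (Finset β)).injective h
      subst this
      simp [hf σ hσ]
    · rw [if_neg (lt_asymm h), if_pos h, zero_add]
  have h2 : ∑ σ ∈ S, ∑ τ ∈ S, f σ τ =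
      ∑ σ ∈ S, ∑ τ ∈ S,
      (if Fintype.equivFin (Finset β) σ < Fintype.equivFin (Finset β) τ then f σ τ else 0) +
      ∑ σ ∈ S, ∑ τ ∈ S,
      (if Fintype.equivFin (Finset β) τ < Fintype.equivFin (Finset β) σ then f σ τ else 0) := by
    rw [← Finset.sum_add_distrib]
    refine Finset.sum_congr rfl fun σ hσ => ?_
    rw [← Finset.sum_add_distrib]
    exact Finset.sum_congr rfl fun τ hτ => h1 σ hσ τ hτ
  rw [h2]
  rw [Finset.sum_comm (s := S) (t := S) (f := fun σ τ =>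
    if Fintype.equivFin (Finset β) τ < Fintype.equivFin (Finset β) σ then f σ τ else 0)]
  rw [← Finset.sum_add_distrib]
  refine Finset.sum_congr rfl fun σ hσ => ?_
  rw [← Finset.sum_add_distrib]
  refine Finset.sum_congr rfl fun τ hτ => ?_
  split_ifs <;> simp

theorem G4_pair {β 𝔼 : Type*} [Fintype β] [DecidableEq β] [CommRing 𝔼]
    (S : Finset (Finset β)) (f h : Finset β → Finset β → 𝔼) (hf : ∀ σ ∈ S, f σ σ = 0)
    (hh : ∀ σ ∈ S, h σ σ = 0)
    (hfh : ∀ σ ∈ S, ∀ τ ∈ S, f σ τ + f τ σ = h σ τ + h τ σ) :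
    ∑ σ ∈ S, ∑ τ ∈ S, f σ τ = ∑ σ ∈ S, ∑ τ ∈ S, h σ τ := by
  rw [G4_split S f hf, G4_split S h hh]
  refine Finset.sum_congr rfl fun σ hσ => Finset.sum_congr rfl fun τ hτ => ?_
  rw [hfh σ hσ τ hτ]

theorem G4_pf_insert {β 𝔼 : Type*} [DecidableEq β] [CommRing 𝔼] (p : β → 𝔼) (ρ : Finset β)
    (v : β) (hv : v ∉ ρ) : pf p (insert v ρ) = p v * pf p ρ := by
  unfold pf
  rw [Finset.prod_insert hv]

theorem G4_pf_zero {β 𝔼 : Type*} [DecidableEq β] [CommRing 𝔼] (p : β → 𝔼)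
    (hp : ∀ v, p v * p v = 0) (τ : Finset β) (v : β) (hv : v ∈ τ) : p v * pf p τ = 0 := by
  unfold pf
  rw [← Finset.mul_prod_erase τ p hv, ← mul_assoc, hp, zero_mul]

/-- ROW G4. If the alternating cochain is a symmetric coboundary on the support of a strictly
balanced `w`, then the form vanishes at `w`.
Proof. Let `X σ τ = w σ * w τ * (pf p σ * pf p τ)` (symmetric). Choose an injective
`enc : Finset β → ℕ`. In the double sum only disjoint (hence, being nonempty, distinct) `σ, τ`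
occur, so grouping the two orders,
`Qf = ∑_{enc σ < enc τ, disjoint} (A σ τ + A τ σ) X σ τ = ∑_{enc σ < enc τ, disj} dlt g σ τ X σ τ`
(`hVK`, and `X = 0` if `w σ = 0` or `w τ = 0`). With `H σ τ = ∑_{v ∈ σ} g (σ.erase v) τ` the
symmetry of `g` gives `dlt g σ τ = H σ τ + H τ σ`, so the sum is
`∑_{σ ≠ τ, disjoint} H σ τ X σ τ = ∑_τ ∑_σ [disjoint] ∑_{v ∈ σ} g (σ.erase v) τ X σ τ`. Reindex
`(σ,v) ↔ (ρ,v)` by `sum_erase_insert`: for fixed `τ` and `ρ` disjoint from `τ` the inner sum is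
`g ρ τ w τ p_τ p_ρ ∑_{v ∈ ρᶜ} w (insert v ρ) p_v = 0` (the terms `v ∈ τ` may be included because
`p_τ p_v = 0`). -/
theorem Qf_zero {β 𝔼 : Type*} [Fintype β] [DecidableEq β] [CommRing 𝔼] [Algebra (ZMod 2) 𝔼]
    (r : β → ℕ) (p : β → 𝔼) (hp : ∀ v, p v * p v = 0) (k : ℕ)
    (w : Finset β → 𝔼) (g : Finset β → Finset β → ZMod 2) (hg : ∀ σ τ, g σ τ = g τ σ)
    (hbal : ∀ ρ : Finset β, ρ.card = k → ∑ v ∈ ρᶜ, w (insert v ρ) * p v = 0)
    (hVK : ∀ σ τ : Finset β, Disjoint σ τ → σ.card = k + 1 → τ.card = k + 1 → w σ ≠ 0 →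
      w τ ≠ 0 → altA r σ τ + altA r τ σ = dlt g σ τ) :
    Qf r p k w = 0 := by
  classical
  set S := powersetCard (k + 1) (univ : Finset β) with hS
  have hcard : ∀ σ ∈ S, σ.card = k + 1 := fun σ hσ => (mem_powersetCard.1 hσ).2
  have hself : ∀ σ ∈ S, ¬ Disjoint σ σ := by
    intro σ hσ h
    rw [disjoint_self] at h
    have := hcard σ hσ
    rw [h] at this
    simp at this
  let f : Finset β → Finset β → 𝔼 := fun σ τ => if Disjoint σ τ then
      algebraMap (ZMod 2) 𝔼 (altA r σ τ) * (w σ * w τ * (pf p σ * pf p τ)) else 0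
  let h : Finset β → Finset β → 𝔼 := fun σ τ => if Disjoint σ τ then
      algebraMap (ZMod 2) 𝔼 (∑ v ∈ σ, g (σ.erase v) τ) * (w σ * w τ * (pf p σ * pf p τ)) else 0
  have e0 : Qf r p k w = ∑ σ ∈ S, ∑ τ ∈ S, f σ τ := rfl
  have e1 : ∑ σ ∈ S, ∑ τ ∈ S, f σ τ = ∑ σ ∈ S, ∑ τ ∈ S, h σ τ := by
    refine G4_pair S f h (fun σ hσ => if_neg (hself σ hσ)) (fun σ hσ => if_neg (hself σ hσ)) ?_
    intro σ hσ τ hτ
    show (if Disjoint σ τ then
        algebraMap (ZMod 2) 𝔼 (altA r σ τ) * (w σ * w τ * (pf p σ * pf p τ)) else 0)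
      + (if Disjoint τ σ then
        algebraMap (ZMod 2) 𝔼 (altA r τ σ) * (w τ * w σ * (pf p τ * pf p σ)) else 0)
      = (if Disjoint σ τ then
        algebraMap (ZMod 2) 𝔼 (∑ v ∈ σ, g (σ.erase v) τ) * (w σ * w τ * (pf p σ * pf p τ)) else 0)
      + (if Disjoint τ σ then
        algebraMap (ZMod 2) 𝔼 (∑ v ∈ τ, g (τ.erase v) σ) * (w τ * w σ * (pf p τ * pf p σ)) else 0)
    by_cases hd : Disjoint σ τ
    · rw [if_pos hd, if_pos hd.symm, if_pos hd, if_pos hd.symm]
      by_cases hσ0 : w σ = 0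
      · simp [hσ0]
      by_cases hτ0 : w τ = 0
      · simp [hτ0]
      have hv := hVK σ τ hd (hcard σ hσ) (hcard τ hτ) hσ0 hτ0
      have hv2 : altA r σ τ + altA r τ σ
          = (∑ v ∈ σ, g (σ.erase v) τ) + ∑ v ∈ τ, g (τ.erase v) σ := by
        rw [hv]
        unfold dlt
        congr 1
        exact Finset.sum_congr rfl fun v _ => hg _ _
      have hv3 := congrArg (algebraMap (ZMod 2) 𝔼) hv2
      rw [map_add, map_add] at hv3
      linear_combination (w σ * w τ * (pf p σ * pf p τ)) * hv3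
    · rw [if_neg hd, if_neg (fun h => hd h.symm), if_neg hd, if_neg (fun h => hd h.symm)]
  rw [e0, e1, Finset.sum_comm]
  refine Finset.sum_eq_zero fun τ hτ => ?_
  -- reindex
  let G : Finset β → β → 𝔼 := fun ρ v => if Disjoint (insert v ρ) τ then
      algebraMap (ZMod 2) 𝔼 (g ρ τ) * (w (insert v ρ) * w τ * (pf p (insert v ρ) * pf p τ)) else 0
  have e2 : ∀ σ ∈ S, h σ τ = ∑ v ∈ σ, G (σ.erase v) v := by
    intro σ hσ
    have e3 : ∀ v ∈ σ, G (σ.erase v) v = if Disjoint σ τ then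
        algebraMap (ZMod 2) 𝔼 (g (σ.erase v) τ) * (w σ * w τ * (pf p σ * pf p τ)) else 0 := by
      intro v hv
      show (if Disjoint (insert v (σ.erase v)) τ then _ else _) = _
      rw [Finset.insert_erase hv]
    rw [Finset.sum_congr rfl e3]
    show (if Disjoint σ τ then _ else _) = _
    by_cases hd : Disjoint σ τ
    · simp only [if_pos hd]
      rw [map_sum, Finset.sum_mul]
    · simp only [if_neg hd, Finset.sum_const_zero]
  rw [Finset.sum_congr rfl e2, hS, sum_erase_insert k G]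
  refine Finset.sum_eq_zero fun ρ hρ => ?_
  have hρc : ρ.card = k := (mem_powersetCard.1 hρ).2
  by_cases hd : Disjoint ρ τ
  · have e4 : ∀ v ∈ ρᶜ, G ρ v =
        (algebraMap (ZMod 2) 𝔼 (g ρ τ) * w τ * pf p ρ * pf p τ) * (w (insert v ρ) * p v) := by
      intro v hv
      have hvρ : v ∉ ρ := Finset.mem_compl.1 hv
      show (if Disjoint (insert v ρ) τ then _ else _) = _
      rw [G4_pf_insert p ρ v hvρ]
      by_cases hvτ : v ∈ τ
      · rw [if_neg (by
          intro h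
          exact Finset.disjoint_left.1 h (Finset.mem_insert_self v ρ) hvτ)]
        have := G4_pf_zero p hp τ v hvτ
        linear_combination -(algebraMap (ZMod 2) 𝔼 (g ρ τ) * w τ * pf p ρ * w (insert v ρ)) * this
      · rw [if_pos (Finset.disjoint_insert_left.2 ⟨hvτ, hd⟩)]
        ring
    rw [Finset.sum_congr rfl e4, ← Finset.mul_sum, hbal ρ hρc, mul_zero]
  · refine Finset.sum_eq_zero fun v hv => ?_
    show (if Disjoint (insert v ρ) τ then _ else _) = _
    rw [if_neg]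
    intro h
    exact hd (Finset.disjoint_insert_left.1 h).2

end MP528
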