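import Pool.Agent.Lib.MP_528ca9_co.G3

namespace MP528

open Finset

/-- ROW G5a. -/
theorem Qf_congr {β 𝔼 : Type*} [Fintype β] [DecidableEq β] [CommRing 𝔼] [Algebra (ZMod 2) 𝔼]
    (r : β → ℕ) (p : β → 𝔼) (k : ℕ) (w w' : Finset β → 𝔼)
    (h : ∀ σ : Finset β, σ.card = k + 1 → w σ = w' σ) : Qf r p k w = Qf r p k w' := by
  unfold Qf
  refine Finset.sum_congr rfl fun σ hσ => Finset.sum_congr rfl fun τ hτ => ?_
  rw [h σ (Finset.mem_powersetCard.1 hσ).2, h τ (Finset.mem_powersetCard.1 hτ).2]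

/-- ROW G5b. -/
theorem Qf_smul {β 𝔼 : Type*} [Fintype β] [DecidableEq β] [CommRing 𝔼] [Algebra (ZMod 2) 𝔼]
    (r : β → ℕ) (p : β → 𝔼) (k : ℕ) (c : 𝔼) (w : Finset β → 𝔼) :
    Qf r p k (fun σ => c * w σ) = c ^ 2 * Qf r p k w := by
  unfold Qf
  rw [Finset.mul_sum]
  refine Finset.sum_congr rfl fun σ _ => ?_
  rw [Finset.mul_sum]
  refine Finset.sum_congr rfl fun τ _ => ?_
  by_cases hd : Disjoint σ τ
  · rw [if_pos hd, if_pos hd]; ring
  · rw [if_neg hd, if_neg hd, mul_zero]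

/-- ROW G5c. -/
theorem Wb_smul {β 𝔼 : Type*} [Fintype β] [DecidableEq β] [CommRing 𝔼]
    (p : β → 𝔼) (k : ℕ) (c : 𝔼) (w : Finset β → 𝔼) (hw : Wb p k w) :
    Wb p k (fun σ => c * w σ) := by
  intro ρ hρ
  have h : ∑ v ∈ ρᶜ, c * w (insert v ρ) * p v = c * ∑ v ∈ ρᶜ, w (insert v ρ) * p v := by
    rw [Finset.mul_sum]
    refine Finset.sum_congr rfl fun v _ => ?_
    ring
  have h2 := hw ρ hρ
  calc pf p ρ * ∑ v ∈ ρᶜ, c * w (insert v ρ) * p v
      = c * (pf p ρ * ∑ v ∈ ρᶜ, w (insert v ρ) * p v) := by rw [h]; ring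
    _ = 0 := by rw [h2, mul_zero]

/-- ROW G5d. Induction on the finite set, with `Qf_add` (`Qf` of the zero function is `0`). -/
theorem Qf_sum {β 𝔼 ι : Type*} [Fintype β] [DecidableEq β] [DecidableEq ι] [CommRing 𝔼]
    [Algebra (ZMod 2) 𝔼]
    (r : β → ℕ) (hr : Function.Injective r) (p : β → 𝔼) (hp : ∀ v, p v * p v = 0) (k : ℕ)
    (s : Finset ι) (f : ι → Finset β → 𝔼) (hf : ∀ a ∈ s, Wb p k (f a)) :
    Qf r p k (fun σ => ∑ a ∈ s, f a σ) = ∑ a ∈ s, Qf r p k (f a) := by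
  induction s using Finset.induction_on with
  | empty => simp [Qf]
  | insert a s ha ih =>
    have h1 : (fun σ => ∑ b ∈ insert a s, f b σ) = fun σ => (∑ b ∈ s, f b σ) + f a σ := by
      funext σ
      rw [Finset.sum_insert ha, add_comm]
    rw [h1, Qf_add r hr p hp k _ (f a) (hf a (Finset.mem_insert_self a s)),
      ih (fun b hb => hf b (Finset.mem_insert_of_mem hb)), Finset.sum_insert ha, add_comm]

end MP528
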