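import Pool.Agent.Lib.MP_528ca9_co.GDefs
import Pool.Agent.Lib.MP_528ca9_co.G0

namespace MP528

open Finset

/-- ROW G7b. Proof: the term of `(σ,τ)` is `∏_{v ∈ σ ∪ τ} lam v p v` if the pair is disjoint and
alternating, else `0`; the map `(σ,τ) ↦ σ ∪ τ` is a bijection from disjoint alternating pairs of
`(k+1)`-sets onto the `(2k+2)`-sets (`alt_unique`). -/
theorem Qf_wlam {β 𝔼 : Type*} [Fintype β] [DecidableEq β] [CommRing 𝔼] [Algebra (ZMod 2) 𝔼]
    (r : β → ℕ) (hr : Function.Injective r) (p : β → 𝔼) (k : ℕ) (lam : β → 𝔼) :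
    Qf r p k (fun σ => ∏ v ∈ σ, lam v) =
      ∑ S ∈ powersetCard (2 * k + 2) (univ : Finset β), ∏ v ∈ S, (lam v * p v) := by
  classical
  have hterm : ∀ σ τ : Finset β,
      (if Disjoint σ τ then
        algebraMap (ZMod 2) 𝔼 (altA r σ τ) * ((∏ v ∈ σ, lam v) * (∏ v ∈ τ, lam v)
          * (pf p σ * pf p τ)) else 0)
      = if Disjoint σ τ ∧ AltP r σ τ then ∏ v ∈ σ ∪ τ, (lam v * p v) else 0 := by
    intro σ τ
    by_cases hd : Disjoint σ τ
    · by_cases ha : AltP r σ τ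
      · rw [if_pos hd, if_pos ⟨hd, ha⟩, altA, if_pos ha, map_one, one_mul, pf, pf,
          Finset.prod_union hd, Finset.prod_mul_distrib, Finset.prod_mul_distrib]
        ring
      · rw [if_pos hd, if_neg (fun h => ha h.2), altA, if_neg ha, map_zero, zero_mul]
    · rw [if_neg hd, if_neg (fun h => hd h.1)]
  rw [Qf]
  simp only [hterm]
  rw [← Finset.sum_product', ← Finset.sum_filter]
  refine Finset.sum_bij (fun x _ => x.1 ∪ x.2) ?_ ?_ ?_ ?_
  · rintro ⟨σ, τ⟩ hx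
    simp only [Finset.mem_filter, Finset.mem_product, Finset.mem_powersetCard] at hx
    obtain ⟨⟨⟨-, h1⟩, ⟨-, h2⟩⟩, hd, -⟩ := hx
    rw [Finset.mem_powersetCard]
    refine ⟨Finset.subset_univ _, ?_⟩
    rw [Finset.card_union_of_disjoint hd, h1, h2]
    ring
  · rintro ⟨σ, τ⟩ hx ⟨σ', τ'⟩ hx' he
    simp only [Finset.mem_filter, Finset.mem_product, Finset.mem_powersetCard] at hx hx'
    obtain ⟨⟨⟨-, h1⟩, ⟨-, h2⟩⟩, hd, ha⟩ := hx
    obtain ⟨⟨⟨-, -⟩, ⟨-, -⟩⟩, hd', ha'⟩ := hx'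
    simp only at he
    have hc : (σ ∪ τ).card = 2 * k + 2 := by
      rw [Finset.card_union_of_disjoint hd, h1, h2]; ring
    obtain ⟨s, t, -, -, -, -, -, hu⟩ := alt_unique r hr k (σ ∪ τ) hc
    obtain ⟨e1, e2⟩ := hu σ τ hd rfl ha
    obtain ⟨e3, e4⟩ := hu σ' τ' hd' he.symm ha'
    rw [Prod.mk.injEq]
    exact ⟨e1.trans e3.symm, e2.trans e4.symm⟩
  · intro S hS
    rw [Finset.mem_powersetCard] at hS
    obtain ⟨s, t, hd, hu, h1, h2, ha, -⟩ := alt_unique r hr k S hS.2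
    refine ⟨(s, t), ?_, hu⟩
    simp only [Finset.mem_filter, Finset.mem_product, Finset.mem_powersetCard]
    exact ⟨⟨⟨Finset.subset_univ _, h1⟩, ⟨Finset.subset_univ _, h2⟩⟩, hd, ha⟩
  · rintro ⟨σ, τ⟩ _
    rfl

end MP528
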