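import Pool.Agent.Lib.MP_528ca9_co.G1
import Pool.Agent.Lib.MP_528ca9_co.G4
import Pool.Agent.Lib.MP_528ca9_co.G5
import Pool.Agent.Lib.MP_528ca9_co.G7
import Pool.Agent.Lib.MP_528ca9_co.G8
import Pool.Agent.Lib.MP_528ca9_co.G9
import Pool.Agent.Lib.MP_528ca9_co.G11
import Pool.Agent.Lib.MP_528ca9_co.G13

namespace MP528

open Finset

/-- ROW G14a. If `w` (with values in `RR n N`, `N = 2k+2`) is supported on `(k+1)`-sets, balanced,
and `Qf` vanishes at `ext0 w`, then `w = 0`.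
Proof. Write `ι = algebraMap (RR n N) (EE n N)`, `q u i = ι (X (u,i))`, `x = xE n N`,
`p = pv q x`, `W σ = ι (w σ)`. By G8b, G5a, G5d, G5b, G5c, G7a, G7c, G7d (the index set of the sum:
pairs `(U,J)`, `J ⊆ U`; term `W U * ∏_{v ∈ σ} lamJ q J v`)
`Qf (rr r) p k (ext0 W) = ∑_U W U ^ 2 * ∑_{J ⊆ U} Qf (ω^{λ_J})`, and by G7b each
`Qf (ω^{λ_J}) = ∑_{|S| = N} ∏_{v ∈ S} (lamJ v * p v)`. Apply `top` (`exists_top`, linear over `RR`,
`W U ^ 2 * y = (w U ^ 2) • y`) and G9c: `0 = ∑_U (w U)^2 * top (∏_{u ∈ U} (1 + evf q x u))`.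
Given `U0` with `k+1` elements take `f` from G11e and apply `Dl f (finRange N)`
(`Dl_sum`, `Dl_sq`, `Dl_top`): `0 = (w U0)^2`. -/
theorem w_zero {n k : ℕ} (r : Fin n → ℕ) (hr : Function.Injective r)
    (w : Finset (Fin n) → RR n (2 * k + 2)) (hs : ∀ σ, w σ ≠ 0 → σ.card = k + 1)
    (hbal : ∀ ρ : Finset (Fin n), ρ.card = k → ∀ i, ∑ u ∈ ρᶜ, w (insert u ρ) *
      MvPolynomial.X (u, i) = 0)
    (hQ : Qf (rr r) (pv (fun u i => algebraMap (RR n (2 * k + 2)) (EE n (2 * k + 2))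
      (MvPolynomial.X (u, i))) (xE n (2 * k + 2))) k
      (ext0 (fun σ => algebraMap (RR n (2 * k + 2)) (EE n (2 * k + 2)) (w σ))) = 0) :
    ∀ σ, w σ = 0 := by
  set ι : RR n (2 * k + 2) →+* EE n (2 * k + 2) :=
    algebraMap (RR n (2 * k + 2)) (EE n (2 * k + 2)) with hι
  obtain ⟨top, htop⟩ := exists_top n (2 * k + 2)
  have hx : ∀ i, xE n (2 * k + 2) i * xE n (2 * k + 2) i = 0 := xE_sq n (2 * k + 2)
  have hw0 : ∀ σ : Finset (Fin n), σ.card ≠ k + 1 → w σ = 0 := by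
    intro σ hσ
    by_contra h
    exact hσ (hs σ h)
  have hs' : ∀ σ : Finset (Fin n), σ.card ≠ k + 1 → ι (w σ) = 0 := by
    intro σ hσ
    rw [hw0 σ hσ, map_zero]
  have hbal' : ∀ ρ : Finset (Fin n), ρ.card = k → ∀ i, ∑ u ∈ ρᶜ, ι (w (insert u ρ)) *
      ι (MvPolynomial.X (u, i)) = 0 := by
    intro ρ hρ i
    have h := congrArg ι (hbal ρ hρ i)
    rw [map_sum, map_zero] at h
    rw [← h]
    exact Finset.sum_congr rfl (fun u _ => (map_mul ι _ _).symm)
  set q : Fin n → Fin (2 * k + 2) → EE n (2 * k + 2) := fun u i => ι (MvPolynomial.X (u, i)) with hq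
  set p := pv q (xE n (2 * k + 2)) with hp
  have hpsq : ∀ v, p v * p v = 0 := fun v => pv_sq q _ hx v
  set I : Finset (Σ _ : Finset (Fin n), Finset (Fin n)) :=
    (powersetCard (k + 1) (univ : Finset (Fin n))).sigma (fun U => U.powerset) with hI
  have h1 : Qf (rr r) p k (ext0 (fun σ => ι (w σ))) =
      Qf (rr r) p k (fun σ => ∑ a ∈ I, (fun a : (Σ _ : Finset (Fin n), Finset (Fin n)) =>
        fun σ : Finset (Fin (2 * k + 2) ⊕ Fin n) => ι (w a.1) * ∏ v ∈ σ, lamJ q a.2 v) a σ) := by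
    apply Qf_congr
    intro σ hσ
    rw [ext0_expand q (fun σ => ι (w σ)) hs' hbal' σ hσ]
    rw [hI, Finset.sum_sigma]
    refine Finset.sum_congr rfl (fun U _ => ?_)
    rw [Finset.mul_sum]
  have h2 : Qf (rr r) p k (ext0 (fun σ => ι (w σ))) =
      ∑ U ∈ powersetCard (k + 1) (univ : Finset (Fin n)), ∑ J ∈ U.powerset,
        ι (w U) ^ 2 * ∑ S ∈ powersetCard (2 * k + 2) (univ : Finset (Fin (2 * k + 2) ⊕ Fin n)),
          ∏ v ∈ S, (lamJ q J v * p v) := by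
    rw [h1, Qf_sum (rr r) (rr_inj r hr) p hpsq k I _ (fun a _ =>
      Wb_smul p k _ _ (wlam_wb p hpsq (lamJ q a.2) (lamJ_sum q _ a.2) k))]
    rw [hI, Finset.sum_sigma]
    refine Finset.sum_congr rfl (fun U _ => Finset.sum_congr rfl (fun J _ => ?_))
    change Qf (rr r) p k (fun σ => ι (w U) * ∏ v ∈ σ, lamJ q J v) = _
    rw [Qf_smul (rr r) p k (ι (w U)) (fun σ => ∏ v ∈ σ, lamJ q J v),
      Qf_wlam (rr r) (rr_inj r hr) p k (lamJ q J)]
  have h3 : ∑ U ∈ powersetCard (k + 1) (univ : Finset (Fin n)),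
      w U ^ 2 * top (∏ u ∈ U, (1 + evf q (xE n (2 * k + 2)) u)) = 0 := by
    have h4 := congrArg top (h2.symm.trans hQ)
    rw [map_zero, map_sum] at h4
    rw [← h4]
    refine Finset.sum_congr rfl (fun U _ => ?_)
    have h5 := top_sum (R := RR n (2 * k + 2)) (𝔼 := EE n (2 * k + 2))
      (fun u i => MvPolynomial.X (u, i)) (xE n (2 * k + 2)) hx top htop U
    rw [map_sum]
    have h6 : top (∏ u ∈ U, (1 + evf q (xE n (2 * k + 2)) u)) =
        ∑ J ∈ U.powerset, top (∑ S ∈ powersetCard (2 * k + 2)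
          (univ : Finset (Fin (2 * k + 2) ⊕ Fin n)), ∏ v ∈ S, (lamJ q J v * p v)) := h5.symm
    rw [h6, Finset.mul_sum]
    refine Finset.sum_congr rfl (fun J _ => ?_)
    rw [← map_pow, ← Algebra.smul_def, map_smul, smul_eq_mul]
  intro σ
  by_cases hσ : σ.card = k + 1
  · obtain ⟨f, hf1, hf2⟩ := exists_two_to_one σ hσ
    have h7 := congrArg (Dl f (List.finRange (2 * k + 2))) h3
    rw [Dl_sum, Dl_zero] at h7
    have h8 : ∀ U ∈ powersetCard (k + 1) (univ : Finset (Fin n)),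
        Dl f (List.finRange (2 * k + 2))
          (w U ^ 2 * top (∏ u ∈ U, (1 + evf q (xE n (2 * k + 2)) u))) =
          if U = σ then w σ ^ 2 else 0 := by
      intro U _
      rw [Dl_sq]
      have h9 := Dl_top (xE n (2 * k + 2)) hx top htop f hf2 U
      rw [hf1] at h9
      rw [show Dl f (List.finRange (2 * k + 2))
        (top (∏ u ∈ U, (1 + evf q (xE n (2 * k + 2)) u))) = if U = σ then 1 else 0 from h9]
      by_cases hU : U = σ
      · rw [if_pos hU, if_pos hU, hU, mul_one]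
      · rw [if_neg hU, if_neg hU, mul_zero]
    rw [Finset.sum_congr rfl h8, Finset.sum_ite_eq' _ σ] at h7
    rw [if_pos (Finset.mem_powersetCard.mpr ⟨Finset.subset_univ _, hσ⟩)] at h7
    exact pow_eq_zero_iff (two_ne_zero) |>.mp h7
  · exact hw0 σ hσ

end MP528
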