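import Pool.Agent.Lib.MP_528ca9_co.G1
import Pool.Agent.Lib.MP_528ca9_co.G4
import Pool.Agent.Lib.MP_528ca9_co.G5
import Pool.Agent.Lib.MP_528ca9_co.G7
import Pool.Agent.Lib.MP_528ca9_co.G8
import Pool.Agent.Lib.MP_528ca9_co.G9
import Pool.Agent.Lib.MP_528ca9_co.G11
import Pool.Agent.Lib.MP_528ca9_co.G13

namespace MP528

open Finset

private theorem G14b_sum_sq {ι R : Type*} [CommRing R] (h2 : ∀ a : R, a + a = 0) (s : Finset ι)
    (f : ι → R) (hf : ∀ i ∈ s, f i * f i = 0) : (∑ i ∈ s, f i) * (∑ i ∈ s, f i) = 0 := by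
  classical
  induction s using Finset.induction_on with
  | empty => simp
  | insert a s ha ih =>
    rw [Finset.sum_insert ha]
    have h3 := ih (fun i hi => hf i (Finset.mem_insert_of_mem hi))
    have h4 := hf a (Finset.mem_insert_self a s)
    have h5 := h2 (f a * ∑ i ∈ s, f i)
    calc (f a + ∑ i ∈ s, f i) * (f a + ∑ i ∈ s, f i)
        = f a * f a + (f a * ∑ i ∈ s, f i + f a * ∑ i ∈ s, f i) +
          (∑ i ∈ s, f i) * (∑ i ∈ s, f i) := by ring
      _ = 0 := by rw [h4, h5, h3]; ring

private theorem G14b_two {R : Type*} [CommRing R] [Algebra (ZMod 2) R] (a : R) : a + a = 0 := by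
  have h : a + a = (algebraMap (ZMod 2) R 2) * a := by
    rw [map_ofNat]; ring
  rw [h, show (2 : ZMod 2) = 0 from by decide, map_zero, zero_mul]

private theorem G14b_rk {n N : ℕ} (r : Fin n → ℕ) (A B : Finset (Fin n)) (x : Fin n) :
    rk (rr (N := N) r) (A.map Function.Embedding.inr ∪ B.map Function.Embedding.inr) (Sum.inr x) =
      rk r (A ∪ B) x := by
  unfold rk
  rw [← Finset.map_union, Finset.filter_map, Finset.card_map]
  congr 1
  apply Finset.filter_congr
  intro y _
  show (N + r y < N + r x) ↔ r y < r x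
  omega

private theorem G14b_alt {n N : ℕ} (r : Fin n → ℕ) (A B : Finset (Fin n)) :
    altA (rr (N := N) r) (A.map Function.Embedding.inr) (B.map Function.Embedding.inr) =
      altA r A B := by
  unfold altA
  have h : AltP (rr (N := N) r) (A.map Function.Embedding.inr) (B.map Function.Embedding.inr) ↔
      AltP r A B := by
    unfold AltP
    constructor
    · rintro ⟨h1, h2⟩
      refine ⟨fun x hx => ?_, fun x hx => ?_⟩
      · rw [← G14b_rk (N := N)]
        exact h1 _ (Finset.mem_map_of_mem _ hx)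
      · rw [← G14b_rk (N := N)]
        exact h2 _ (Finset.mem_map_of_mem _ hx)
    · rintro ⟨h1, h2⟩
      refine ⟨fun x hx => ?_, fun x hx => ?_⟩
      · obtain ⟨y, hy, rfl⟩ := Finset.mem_map.1 hx
        have := h1 y hy
        rw [← G14b_rk (N := N)] at this
        exact this
      · obtain ⟨y, hy, rfl⟩ := Finset.mem_map.1 hx
        have := h2 y hy
        rw [← G14b_rk (N := N)] at this
        exact this
  by_cases hA : AltP r A B
  · rw [if_pos (h.2 hA), if_pos hA]
  · rw [if_neg (fun h' => hA (h.1 h')), if_neg hA]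

private theorem G14b_left {α β : Type*} [DecidableEq α] [DecidableEq β] (A : Finset β) :
    ((A.map Function.Embedding.inr : Finset (α ⊕ β))).toLeft = ∅ := by
  ext x; simp

private theorem G14b_right {α β : Type*} [DecidableEq α] [DecidableEq β] (A : Finset β) :
    ((A.map Function.Embedding.inr : Finset (α ⊕ β))).toRight = A := by
  ext x; simp

private theorem G14b_eq_map {α β : Type*} [DecidableEq α] [DecidableEq β] (σ : Finset (α ⊕ β))
    (h : σ.toLeft = ∅) : σ = σ.toRight.map Function.Embedding.inr := by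
  conv_lhs => rw [← Finset.toLeft_disjSum_toRight (u := σ), h, Finset.empty_disjSum]

/-- the lifted cochain -/
private def G14b_lift {n N : ℕ} (g : Finset (Fin n) → Finset (Fin n) → ZMod 2)
    (σ τ : Finset (Fin N ⊕ Fin n)) : ZMod 2 :=
  if σ.toLeft = ∅ ∧ τ.toLeft = ∅ then g σ.toRight τ.toRight else 0

private theorem G14b_lift_map {n N : ℕ} (g : Finset (Fin n) → Finset (Fin n) → ZMod 2)
    (A B : Finset (Fin n)) :
    G14b_lift (N := N) g (A.map Function.Embedding.inr) (B.map Function.Embedding.inr) = g A B := by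
  unfold G14b_lift
  rw [if_pos ⟨G14b_left A, G14b_left B⟩, G14b_right, G14b_right]

private theorem G14b_dlt {n N : ℕ} (g : Finset (Fin n) → Finset (Fin n) → ZMod 2)
    (A B : Finset (Fin n)) :
    dlt (G14b_lift (N := N) g) (A.map Function.Embedding.inr) (B.map Function.Embedding.inr) =
      dlt g A B := by
  unfold dlt
  rw [Finset.sum_map, Finset.sum_map]
  congr 1
  · apply Finset.sum_congr rfl
    intro u _
    rw [← Finset.map_erase, G14b_lift_map]
  · apply Finset.sum_congr rfl
    intro u _
    rw [← Finset.map_erase, G14b_lift_map]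

/-- ROW G14b. The form vanishes for functions supported on a complex with the van Kampen property.
Proof. Apply `Qf_zero` with `r := rr r` and
`g' σ τ = g σ.toRight τ.toRight` if `σ.toLeft = ∅` and `τ.toLeft = ∅`, else `0`. For `σ` in the
support of `ext0 ..`: `σ.toLeft = ∅`, `σ.toRight ∈ Δ`, and `altA (rr r) σ τ = altA r σ.toRight
τ.toRight` (ranks agree since `rr` restricted to right elements is `N + r`),
`dlt g' σ τ = dlt g σ.toRight τ.toRight`. Balance of `ext0 W` with respect to `pv`: for `ρ` with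
`ρ.toLeft = ∅`, only right `v` contribute: `∑_u W (insert u ρ.toRight) * ∑_i q u i * x i = 0` by
exchanging sums and `hbal`; if `ρ.toLeft ≠ ∅` all terms vanish. -/
theorem Q_zero_VK {n k : ℕ} (Δ : Finset (Finset (Fin n))) (hV : VK Δ (2 * k))
    (r : Fin n → ℕ) (hr : Function.Injective r)
    (w : Finset (Fin n) → RR n (2 * k + 2)) (hs : ∀ σ, w σ ≠ 0 → σ ∈ Δ ∧ σ.card = k + 1)
    (hbal : ∀ ρ : Finset (Fin n), ρ.card = k → ∀ i, ∑ u ∈ ρᶜ, w (insert u ρ) *
      MvPolynomial.X (u, i) = 0) :
    Qf (rr r) (pv (fun u i => algebraMap (RR n (2 * k + 2)) (EE n (2 * k + 2))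
      (MvPolynomial.X (u, i))) (xE n (2 * k + 2))) k
      (ext0 (fun σ => algebraMap (RR n (2 * k + 2)) (EE n (2 * k + 2)) (w σ))) = 0 := by
  classical
  obtain ⟨g, hg, hgd⟩ := hV r hr
  apply Qf_zero (rr r) _ ?_ k _ (G14b_lift g) ?_ ?_ ?_
  · -- squares
    rintro (i | u)
    · exact xE_sq _ _ i
    · simp only [pv, Sum.elim_inr]
      refine G14b_sum_sq (R := EE n (2 * k + 2)) (fun a => G14b_two a) _ _ (fun i _ => ?_)
      have h := xE_sq n (2 * k + 2) i
      calc _ = (algebraMap (RR n (2 * k + 2)) (EE n (2 * k + 2)) (MvPolynomial.X (u, i)) *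
            algebraMap (RR n (2 * k + 2)) (EE n (2 * k + 2)) (MvPolynomial.X (u, i))) *
            (xE n (2 * k + 2) i * xE n (2 * k + 2) i) := by ring
        _ = 0 := by rw [h, mul_zero]
  · -- symmetry
    intro σ τ
    unfold G14b_lift
    by_cases h : σ.toLeft = ∅ ∧ τ.toLeft = ∅
    · rw [if_pos h, if_pos h.symm, hg]
    · rw [if_neg h, if_neg (fun h' => h h'.symm)]
  · -- balance
    intro ρ hρ
    by_cases hL : ρ.toLeft = ∅
    · have hρR : ρ.toRight.card = k := by
        have := Finset.card_toLeft_add_card_toRight (u := ρ)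
        rw [hL, Finset.card_empty] at this
        omega
      have hsplit : ∀ F : (Fin (2 * k + 2) ⊕ Fin n) → EE n (2 * k + 2),
          (∀ i, F (Sum.inl i) = 0) → ∑ v ∈ ρᶜ, F v = ∑ u ∈ ρ.toRightᶜ, F (Sum.inr u) := by
        intro F hF
        have h1 : ∑ v ∈ ρᶜ, F v = ∑ v, if v ∈ ρᶜ then F v else 0 := by
          rw [Finset.sum_ite_mem, Finset.univ_inter]
        have h2 : ∑ u ∈ ρ.toRightᶜ, F (Sum.inr u) =
            ∑ u, if u ∈ ρ.toRightᶜ then F (Sum.inr u) else 0 := by
          rw [Finset.sum_ite_mem, Finset.univ_inter]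
        rw [h1, h2, Fintype.sum_sum_type]
        have h3 : ∑ i : Fin (2 * k + 2), (if Sum.inl i ∈ ρᶜ then F (Sum.inl i) else 0) = 0 := by
          apply Finset.sum_eq_zero
          intro i _
          rw [hF i]; simp
        rw [h3, zero_add]
        apply Finset.sum_congr rfl
        intro u _
        simp only [Finset.mem_compl, Finset.mem_toRight]
      rw [hsplit _ (by
        intro i
        unfold ext0
        rw [if_neg, zero_mul]
        rw [Finset.toLeft_insert_inl]
        exact Finset.insert_ne_empty _ _)]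
      have h4 : ∀ u ∈ ρ.toRightᶜ,
          ext0 (N := 2 * k + 2) (fun σ => algebraMap (RR n (2 * k + 2)) (EE n (2 * k + 2)) (w σ))
            (insert (Sum.inr u) ρ) *
          pv (fun u i => algebraMap (RR n (2 * k + 2)) (EE n (2 * k + 2))
            (MvPolynomial.X (u, i))) (xE n (2 * k + 2)) (Sum.inr u) =
          ∑ i, algebraMap (RR n (2 * k + 2)) (EE n (2 * k + 2))
            (w (insert u ρ.toRight) * MvPolynomial.X (u, i)) * xE n (2 * k + 2) i := by
        intro u _
        unfold ext0
        rw [if_pos (by rw [Finset.toLeft_insert_inr]; exact hL), Finset.toRight_insert_inr]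
        simp only [pv, Sum.elim_inr]
        rw [Finset.mul_sum]
        apply Finset.sum_congr rfl
        intro i _
        rw [map_mul]; ring
      rw [Finset.sum_congr rfl h4, Finset.sum_comm]
      apply Finset.sum_eq_zero
      intro i _
      rw [← Finset.sum_mul, ← map_sum, hbal _ hρR i, map_zero, zero_mul]
    · apply Finset.sum_eq_zero
      intro v _
      unfold ext0
      rw [if_neg, zero_mul]
      intro h
      apply hL
      have h1 : ρ.toLeft ⊆ (insert v ρ).toLeft :=
        Finset.toLeft_subset_toLeft (Finset.subset_insert _ _)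
      rw [h] at h1
      exact Finset.subset_empty.1 h1
  · -- van Kampen
    intro σ τ hd hσ hτ hwσ hwτ
    have hL : ∀ ρ : Finset (Fin (2 * k + 2) ⊕ Fin n),
        ext0 (fun σ => algebraMap (RR n (2 * k + 2)) (EE n (2 * k + 2)) (w σ)) ρ ≠ 0 →
        ρ.toLeft = ∅ ∧ ρ.toRight ∈ Δ ∧ ρ.toRight.card = k + 1 := by
      intro ρ h
      unfold ext0 at h
      by_cases h1 : ρ.toLeft = ∅
      · rw [if_pos h1] at h
        have h2 : w ρ.toRight ≠ 0 := by
          intro h3
          apply h
          show algebraMap (RR n (2 * k + 2)) (EE n (2 * k + 2)) (w ρ.toRight) = 0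
          rw [h3, map_zero]
        exact ⟨h1, hs _ h2⟩
      · rw [if_neg h1] at h
        exact absurd rfl h
    obtain ⟨h1, h2, h3⟩ := hL σ hwσ
    obtain ⟨h4, h5, h6⟩ := hL τ hwτ
    have hd' : Disjoint σ.toRight τ.toRight := by
      rw [Finset.disjoint_left] at hd ⊢
      intro x hx hx'
      exact hd (Finset.mem_toRight.1 hx) (Finset.mem_toRight.1 hx')
    have h7 := hgd _ h2 _ h5 hd' (by omega)
    rw [G14b_eq_map σ h1, G14b_eq_map τ h4, G14b_alt, G14b_alt, G14b_dlt]
    exact h7

end MP528
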