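import Pool.Agent.Lib.MP_528ca9_co.G1
import Pool.Agent.Lib.MP_528ca9_co.G4
import Pool.Agent.Lib.MP_528ca9_co.G5
import Pool.Agent.Lib.MP_528ca9_co.G7
import Pool.Agent.Lib.MP_528ca9_co.G8
import Pool.Agent.Lib.MP_528ca9_co.G9
import Pool.Agent.Lib.MP_528ca9_co.G11
import Pool.Agent.Lib.MP_528ca9_co.G13
import Pool.Agent.Lib.MP_528ca9_co.G14a
import Pool.Agent.Lib.MP_528ca9_co.G14b

namespace MP528

open Finset

/-- The Gruenbaum-Kalai-Sarkaria type theorem (proof: G1, G14a, G14b). -/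
theorem gks {n k : ℕ} (Δ : Finset (Finset (Fin n))) (hD : DownC Δ) (hV : VK Δ (2 * k)) :
    Fc Δ (k + 1) ≤ (2 * k + 2) * Fc Δ k := by
  by_contra hc
  push Not at hc
  obtain ⟨w, ⟨σ0, hσ0⟩, hs, hbal⟩ := exists_balanced Δ hD hc
  exact hσ0 (w_zero (fun i => i.1) Fin.val_injective w (fun σ h => (hs σ h).2) hbal
    (Q_zero_VK Δ hV (fun i => i.1) Fin.val_injective w hs hbal) σ0)

end MP528
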