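import Pool.Agent.Lib.MP_528ca9_co.Comb

namespace MP528

open Finset

/-- ROW G3a. Reindexing `(τ, v ∈ τ) ↔ (ρ, v ∉ ρ)`, `ρ = τ.erase v`, `τ = insert v ρ`
(`Finset.sum_sigma'`, `Finset.sum_bij'` / `sum_nbij'`). -/
theorem sum_erase_insert {β M : Type*} [Fintype β] [DecidableEq β] [AddCommMonoid M] (k : ℕ)
    (F : Finset β → β → M) :
    ∑ τ ∈ powersetCard (k + 1) (univ : Finset β), ∑ v ∈ τ, F (τ.erase v) v =
      ∑ ρ ∈ powersetCard k (univ : Finset β), ∑ v ∈ ρᶜ, F ρ v := by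
  rw [Finset.sum_sigma', Finset.sum_sigma']
  refine Finset.sum_bij' (fun p _ => ⟨p.1.erase p.2, p.2⟩) (fun p _ => ⟨insert p.2 p.1, p.2⟩)
    ?_ ?_ ?_ ?_ ?_
  · rintro ⟨τ, v⟩ hp
    simp only [Finset.mem_sigma, Finset.mem_powersetCard_univ, Finset.mem_compl] at hp ⊢
    obtain ⟨h1, h2⟩ := hp
    refine ⟨?_, Finset.notMem_erase v τ⟩
    rw [Finset.card_erase_of_mem h2, h1]
    rfl
  · rintro ⟨ρ, v⟩ hp
    simp only [Finset.mem_sigma, Finset.mem_powersetCard_univ, Finset.mem_compl] at hp ⊢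
    obtain ⟨h1, h2⟩ := hp
    refine ⟨?_, Finset.mem_insert_self v ρ⟩
    rw [Finset.card_insert_of_notMem h2, h1]
  · rintro ⟨τ, v⟩ hp
    simp only [Finset.mem_sigma, Finset.mem_powersetCard_univ] at hp
    simp only [Finset.insert_erase hp.2]
  · rintro ⟨ρ, v⟩ hp
    simp only [Finset.mem_sigma, Finset.mem_powersetCard_univ, Finset.mem_compl] at hp
    simp only [Finset.erase_insert hp.2]
  · rintro ⟨τ, v⟩ hp
    rfl

end MP528
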