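import Pool.Agent.Lib.MP_528ca9_co.GDefs
import Pool.Agent.Lib.MP_528ca9_co.G0
import Pool.Agent.Lib.MP_528ca9_co.G3a

namespace MP528

open Finset

theorem G3b_pf_mul {β 𝔼 : Type*} [DecidableEq β] [CommRing 𝔼] (p : β → 𝔼)
    (hp : ∀ v, p v * p v = 0) (σ : Finset β) (v : β) (hv : v ∈ σ) : pf p σ * p v = 0 := by
  unfold pf
  rw [← Finset.mul_prod_erase σ p hv, mul_assoc, mul_comm _ (p v), ← mul_assoc, hp, zero_mul]

theorem G3b_cross {β 𝔼 : Type*} [Fintype β] [DecidableEq β] [CommRing 𝔼] [Algebra (ZMod 2) 𝔼]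
    (r : β → ℕ) (hr : Function.Injective r) (p : β → 𝔼) (hp : ∀ v, p v * p v = 0) (k : ℕ)
    (w' : Finset β → 𝔼) (hw' : Wb p k w') (σ : Finset β) (hσ : σ.card = k + 1) :
    ∑ τ ∈ powersetCard (k + 1) (univ : Finset β),
      (if Disjoint σ τ then
        (algebraMap (ZMod 2) 𝔼 (altA r σ τ) + algebraMap (ZMod 2) 𝔼 (altA r τ σ)) *
          (w' τ * (pf p σ * pf p τ)) else 0) = 0 := by
  have h1 : ∀ τ ∈ powersetCard (k + 1) (univ : Finset β),
      (if Disjoint σ τ then
        (algebraMap (ZMod 2) 𝔼 (altA r σ τ) + algebraMap (ZMod 2) 𝔼 (altA r τ σ)) *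
          (w' τ * (pf p σ * pf p τ)) else 0) =
      ∑ v ∈ τ, (fun (ρ : Finset β) (v : β) => if Disjoint σ ρ then
        algebraMap (ZMod 2) 𝔼 (altA r σ ρ) * pf p σ * (pf p ρ * (w' (insert v ρ) * p v))
          else 0) (τ.erase v) v := by
    intro τ hτ
    have hτc : τ.card = k + 1 := (Finset.mem_powersetCard.1 hτ).2
    by_cases hd : Disjoint σ τ
    · rw [if_pos hd, ← map_add, alt_split r hr k σ τ hd hσ hτc, map_sum, Finset.sum_mul]
      refine Finset.sum_congr rfl fun v hv => ?_
      have hd' : Disjoint σ (τ.erase v) := hd.mono_right (Finset.erase_subset _ _)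
      simp only [if_pos hd', Finset.insert_erase hv]
      have hpf : pf p τ = pf p (τ.erase v) * p v := by
        unfold pf
        rw [mul_comm, Finset.mul_prod_erase τ p hv]
      rw [hpf]
      ring
    · rw [if_neg hd]
      symm
      refine Finset.sum_eq_zero fun v hv => ?_
      by_cases hd' : Disjoint σ (τ.erase v)
      · have hvσ : v ∈ σ := by
          by_contra hvσ
          apply hd
          rw [← Finset.insert_erase hv, Finset.disjoint_insert_right]
          exact ⟨hvσ, hd'⟩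
        simp only [if_pos hd']
        have h2 := G3b_pf_mul p hp σ v hvσ
        calc algebraMap (ZMod 2) 𝔼 (altA r σ (τ.erase v)) * pf p σ *
              (pf p (τ.erase v) * (w' (insert v (τ.erase v)) * p v))
            = algebraMap (ZMod 2) 𝔼 (altA r σ (τ.erase v)) *
              (pf p (τ.erase v) * w' (insert v (τ.erase v))) * (pf p σ * p v) := by ring
          _ = 0 := by rw [h2, mul_zero]
      · simp only [if_neg hd']
  rw [Finset.sum_congr rfl h1]
  refine (sum_erase_insert (k := k) (fun (ρ : Finset β) (v : β) => if Disjoint σ ρ then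
        algebraMap (ZMod 2) 𝔼 (altA r σ ρ) * pf p σ * (pf p ρ * (w' (insert v ρ) * p v))
          else 0)).trans ?_
  refine Finset.sum_eq_zero fun ρ hρ => ?_
  have hρc : ρ.card = k := (Finset.mem_powersetCard.1 hρ).2
  by_cases hd : Disjoint σ ρ
  · simp only [if_pos hd]
    rw [← Finset.mul_sum, ← Finset.mul_sum, hw' ρ hρc, mul_zero]
  · simp only [if_neg hd, Finset.sum_const_zero]

/-- ROW G3. Additivity of the form; only `w'` has to be balanced.
Proof. `(w+w')σ (w+w')τ = wσ wτ + w'σ w'τ + (wσ w'τ + w'σ wτ)`; exchanging the names of `σ` and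
`τ` in the last term, the cross terms are
`∑_{σ,τ disjoint} (A σ τ + A τ σ) wσ w'τ p_σ p_τ`, and by `alt_split`
`A σ τ + A τ σ = ∑_{v ∈ τ} A σ (τ.erase v)`. For fixed `σ` reindex by G3a (write
`w'τ p_τ = w'(insert v ρ) p_ρ p_v` with `ρ = τ.erase v`): the sum is
`∑_ρ [Disjoint σ ρ] A σ ρ wσ p_σ p_ρ ∑_{v ∈ ρᶜ} w'(insert v ρ) p_v`, where the terms with `v ∈ σ`
can be added because `p_σ p_v = 0` for `v ∈ σ` (`p v * p v = 0`). This is zero by `Wb`. -/
theorem Qf_add {β 𝔼 : Type*} [Fintype β] [DecidableEq β] [CommRing 𝔼] [Algebra (ZMod 2) 𝔼]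
    (r : β → ℕ) (hr : Function.Injective r) (p : β → 𝔼) (hp : ∀ v, p v * p v = 0) (k : ℕ)
    (w w' : Finset β → 𝔼) (hw' : Wb p k w') :
    Qf r p k (fun σ => w σ + w' σ) = Qf r p k w + Qf r p k w' := by
  have hX : ∑ σ ∈ powersetCard (k + 1) (univ : Finset β),
      ∑ τ ∈ powersetCard (k + 1) (univ : Finset β),
        (if Disjoint σ τ then algebraMap (ZMod 2) 𝔼 (altA r σ τ) *
          (w σ * w' τ * (pf p σ * pf p τ)) else 0) +
      ∑ σ ∈ powersetCard (k + 1) (univ : Finset β),
      ∑ τ ∈ powersetCard (k + 1) (univ : Finset β),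
        (if Disjoint σ τ then algebraMap (ZMod 2) 𝔼 (altA r σ τ) *
          (w' σ * w τ * (pf p σ * pf p τ)) else 0) = 0 := by
    conv_lhs =>
      arg 2
      rw [Finset.sum_comm]
    rw [← Finset.sum_add_distrib]
    refine Finset.sum_eq_zero fun σ hσ => ?_
    rw [← Finset.sum_add_distrib]
    have h := G3b_cross r hr p hp k w' hw' σ (Finset.mem_powersetCard.1 hσ).2
    have h2 := congrArg (fun z => w σ * z) h
    simp only [mul_zero] at h2
    refine Eq.trans ?_ h2
    rw [Finset.mul_sum]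
    refine Finset.sum_congr rfl fun τ _ => ?_
    by_cases hd : Disjoint σ τ
    · rw [if_pos hd, if_pos hd.symm, if_pos hd]
      ring
    · rw [if_neg hd, if_neg (fun h => hd h.symm), if_neg hd]
      ring
  have hE : Qf r p k (fun σ => w σ + w' σ) = Qf r p k w + Qf r p k w' +
      (∑ σ ∈ powersetCard (k + 1) (univ : Finset β),
      ∑ τ ∈ powersetCard (k + 1) (univ : Finset β),
        (if Disjoint σ τ then algebraMap (ZMod 2) 𝔼 (altA r σ τ) *
          (w σ * w' τ * (pf p σ * pf p τ)) else 0) +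
      ∑ σ ∈ powersetCard (k + 1) (univ : Finset β),
      ∑ τ ∈ powersetCard (k + 1) (univ : Finset β),
        (if Disjoint σ τ then algebraMap (ZMod 2) 𝔼 (altA r σ τ) *
          (w' σ * w τ * (pf p σ * pf p τ)) else 0)) := by
    unfold Qf
    simp only [← Finset.sum_add_distrib]
    refine Finset.sum_congr rfl fun σ _ => Finset.sum_congr rfl fun τ _ => ?_
    by_cases hd : Disjoint σ τ
    · simp only [if_pos hd]
      ring
    · simp only [if_neg hd, add_zero]
  rw [hE, hX, add_zero]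

end MP528
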