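import Pool.Agent.Lib.MP_528ca9_co.GDefs

namespace MP528

open Finset

/-- ROW G7a. Proof: `∑_{v ∉ ρ} (∏_{insert v ρ} lam) p v = (∏_ρ lam) ∑_{v ∉ ρ} lam v p v`, and
`pf p ρ * lam v * p v = 0` for `v ∈ ρ`, so we may sum over all `v` and use `hl`. -/
theorem wlam_wb {β 𝔼 : Type*} [Fintype β] [DecidableEq β] [CommRing 𝔼]
    (p : β → 𝔼) (hp : ∀ v, p v * p v = 0) (lam : β → 𝔼) (hl : ∑ v, lam v * p v = 0) (k : ℕ) :
    Wb p k (fun σ => ∏ v ∈ σ, lam v) := by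
  intro ρ _
  have h1 : ∑ v ∈ ρᶜ, (∏ v' ∈ insert v ρ, lam v') * p v = (∏ v ∈ ρ, lam v) * ∑ v ∈ ρᶜ, lam v * p v := by
    rw [mul_sum]
    refine sum_congr rfl fun v hv => ?_
    rw [prod_insert (mem_compl.1 hv)]
    ring
  have h2 : pf p ρ * ∑ v ∈ ρ, lam v * p v = 0 := by
    rw [mul_sum]
    refine sum_eq_zero fun v hv => ?_
    rw [pf, ← mul_prod_erase ρ p hv]
    calc p v * (∏ x ∈ ρ.erase v, p x) * (lam v * p v)
        = (p v * p v) * ((∏ x ∈ ρ.erase v, p x) * lam v) := by ring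
      _ = 0 := by rw [hp, zero_mul]
  have h3 : ∑ v ∈ ρᶜ, lam v * p v = - ∑ v ∈ ρ, lam v * p v := by
    have := sum_add_sum_compl ρ (fun v => lam v * p v)
    rw [hl] at this
    exact eq_neg_of_add_eq_zero_right this
  show pf p ρ * ∑ v ∈ ρᶜ, (∏ v' ∈ insert v ρ, lam v') * p v = 0
  rw [h1, h3]
  calc pf p ρ * ((∏ v ∈ ρ, lam v) * -∑ v ∈ ρ, lam v * p v)
      = -((∏ v ∈ ρ, lam v) * (pf p ρ * ∑ v ∈ ρ, lam v * p v)) := by ring
    _ = 0 := by rw [h2, mul_zero, neg_zero]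

theorem G7a_two {𝔼 : Type*} [CommRing 𝔼] [Algebra (ZMod 2) 𝔼] (a : 𝔼) : a + a = 0 := by
  have h2 : (2 : 𝔼) = 0 := by
    have h : algebraMap (ZMod 2) 𝔼 2 = 0 := by
      have : (2 : ZMod 2) = 0 := by decide
      rw [this, map_zero]
    rw [← h]
    exact (map_ofNat (algebraMap (ZMod 2) 𝔼) 2).symm
  rw [← two_mul, h2, zero_mul]

theorem G7a_sum_sq {ι 𝔼 : Type*} [CommRing 𝔼] [Algebra (ZMod 2) 𝔼] (s : Finset ι) (f : ι → 𝔼)
    (hf : ∀ i, f i * f i = 0) : (∑ i ∈ s, f i) * (∑ i ∈ s, f i) = 0 := by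
  classical
  induction s using Finset.induction_on with
  | empty => simp
  | insert a s ha ih =>
    rw [sum_insert ha]
    calc (f a + ∑ i ∈ s, f i) * (f a + ∑ i ∈ s, f i)
        = f a * f a + (∑ i ∈ s, f i) * (∑ i ∈ s, f i) + (f a * ∑ i ∈ s, f i + f a * ∑ i ∈ s, f i) := by ring
      _ = 0 := by rw [hf, ih, zero_add, zero_add, G7a_two]

/-- ROW G7c. Squares vanish: `(∑ q_i x_i)^2 = ∑ q_i^2 x_i^2 + 2 (...) = 0` in characteristic 2
(`𝔼` is a `ZMod 2` algebra; `CharP 𝔼 2` or `sum_mul_self`-type induction on the sum using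
`(a+b)*(a+b) = a*a + b*b`). -/
theorem pv_sq {n N : ℕ} {𝔼 : Type*} [CommRing 𝔼] [Algebra (ZMod 2) 𝔼] (q : Fin n → Fin N → 𝔼)
    (x : Fin N → 𝔼) (hx : ∀ i, x i * x i = 0) (v : Fin N ⊕ Fin n) :
    pv q x v * pv q x v = 0 := by
  rcases v with i | u
  · exact hx i
  · show (∑ i, q u i * x i) * (∑ i, q u i * x i) = 0
    refine G7a_sum_sq _ _ fun i => ?_
    calc q u i * x i * (q u i * x i) = q u i * q u i * (x i * x i) := by ring
      _ = 0 := by rw [hx, mul_zero]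

/-- ROW G7d. Both parts equal `∑_i ∑_{u ∈ J} q u i x i`, and `a + a = 0`. -/
theorem lamJ_sum {n N : ℕ} {𝔼 : Type*} [CommRing 𝔼] [Algebra (ZMod 2) 𝔼] (q : Fin n → Fin N → 𝔼)
    (x : Fin N → 𝔼) (J : Finset (Fin n)) :
    ∑ v, lamJ q J v * pv q x v = 0 := by
  rw [Fintype.sum_sum_type]
  have h1 : ∑ i : Fin N, lamJ q J (Sum.inl i) * pv q x (Sum.inl i) = ∑ u ∈ J, ∑ i, q u i * x i := by
    show ∑ i : Fin N, (∑ u ∈ J, q u i) * x i = _
    rw [sum_comm]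
    exact sum_congr rfl fun i _ => sum_mul _ _ _
  have h2 : ∑ u : Fin n, lamJ q J (Sum.inr u) * pv q x (Sum.inr u) = ∑ u ∈ J, ∑ i, q u i * x i := by
    show ∑ u : Fin n, (if u ∈ J then (1 : 𝔼) else 0) * (∑ i, q u i * x i) = _
    simp only [ite_mul, one_mul, zero_mul]
    rw [sum_ite_mem, univ_inter]
  rw [h1, h2, G7a_two]

/-- ROW G7e. -/
theorem rr_inj {n N : ℕ} (r : Fin n → ℕ) (hr : Function.Injective r) :
    Function.Injective (rr (N := N) r) := by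
  intro a b h
  rcases a with i | u <;> rcases b with j | v
  · have h1 : i.1 = j.1 := h
    rw [Fin.ext h1]
  · have h1 : i.1 = N + r v := h
    have := i.isLt
    omega
  · have h1 : N + r u = j.1 := h
    have := j.isLt
    omega
  · have h1 : N + r u = N + r v := h
    rw [hr (Nat.add_left_cancel h1)]

end MP528
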