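import Pool.Agent.Lib.MP_528ca9_co.GDefs

namespace MP528

open Finset

/-- ROW G8a. `∑_{J ⊆ U} ∏_{v ∈ σ} ∑_{u ∈ J} c u v = ∑_φ [im φ = U] ∏ c (φ v) v` in characteristic 2
(sum over all `φ : σ → Fin n`).
Proof. `Finset.prod_univ_sum` (over the subtype `σ`): the product is the sum over
`φ ∈ piFinset (fun _ => J)`, i.e. over `φ` with `im φ ⊆ J`. Exchange the sums: `φ` occurs
`#{J | im φ ⊆ J ⊆ U}` times, which is `0` if `im φ ⊄ U` and `2^(|U| - |im φ|)` otherwise, that is
`1` mod 2 iff `im φ = U` (`Finset.card_Icc_finset`, or toggle an element of `U \ im φ`). -/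
theorem sum_powerset_prod {n : ℕ} {β 𝔼 : Type*} [DecidableEq β] [CommRing 𝔼]
    [Algebra (ZMod 2) 𝔼] (c : Fin n → β → 𝔼) (σ : Finset β) (U : Finset (Fin n)) :
    ∑ J ∈ U.powerset, ∏ v ∈ σ, ∑ u ∈ J, c u v =
      ∑ φ : σ → Fin n, if univ.image φ = U then ∏ v : σ, c (φ v) v.1 else 0 := by
  classical
  have h2 : (2 : 𝔼) = 0 := by
    have h : (2 : ZMod 2) = 0 := by decide
    have h' : algebraMap (ZMod 2) 𝔼 2 = 2 := map_ofNat _ 2
    rw [← h', h, map_zero]
  have hJ : ∀ J : Finset (Fin n), ∏ v ∈ σ, ∑ u ∈ J, c u v =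
      ∑ φ : σ → Fin n, if univ.image φ ⊆ J then ∏ v : σ, c (φ v) v.1 else 0 := by
    intro J
    rw [← Finset.prod_coe_sort σ (fun v => ∑ u ∈ J, c u v), Finset.prod_univ_sum,
      ← Finset.sum_filter]
    refine Finset.sum_congr ?_ fun _ _ => rfl
    ext φ
    simp [Fintype.mem_piFinset, Finset.image_subset_iff]
  simp only [hJ]
  rw [Finset.sum_comm]
  refine Finset.sum_congr rfl fun φ _ => ?_
  rw [← Finset.sum_filter, Finset.sum_const]
  by_cases hU : univ.image φ ⊆ U
  · have hI : U.powerset.filter (fun J => univ.image φ ⊆ J) = Finset.Icc (univ.image φ) U := by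
      ext J
      rw [Finset.mem_filter, Finset.mem_powerset, Finset.mem_Icc]
      exact ⟨fun h => ⟨h.2, h.1⟩, fun h => ⟨h.2, h.1⟩⟩
    rw [hI, Finset.card_Icc_finset hU]
    by_cases he : univ.image φ = U
    · rw [if_pos he, he, Nat.sub_self, pow_zero, one_smul]
    · rw [if_neg he]
      have hlt : (univ.image φ).card < U.card :=
        Finset.card_lt_card (Finset.ssubset_iff_subset_ne.2 ⟨hU, he⟩)
      obtain ⟨m, hm⟩ : ∃ m, U.card - (univ.image φ).card = m + 1 :=
        ⟨U.card - (univ.image φ).card - 1, by omega⟩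
      rw [hm, nsmul_eq_mul]
      push_cast
      rw [pow_succ, h2]
      simp
  · have he : ¬ univ.image φ = U := fun h => hU (h ▸ subset_rfl)
    rw [if_neg he]
    have hI : U.powerset.filter (fun J => univ.image φ ⊆ J) = ∅ := by
      rw [Finset.filter_eq_empty_iff]
      intro J hJ h
      exact hU (h.trans (Finset.mem_powerset.1 hJ))
    rw [hI, Finset.card_empty, zero_smul]

end MP528
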