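import Pool.Agent.Lib.MP_528ca9_co.GDefs
import Pool.Agent.Lib.MP_528ca9_co.G8a

namespace MP528

open Finset

private def G8b_c {n N : ℕ} {𝔼 : Type*} [CommRing 𝔼] (q : Fin n → Fin N → 𝔼) :
    Fin n → (Fin N ⊕ Fin n) → 𝔼 :=
  fun u => Sum.elim (fun i => q u i) (fun u' => if u = u' then 1 else 0)

private theorem G8b_lamJ {n N : ℕ} {𝔼 : Type*} [CommRing 𝔼] (q : Fin n → Fin N → 𝔼)
    (J : Finset (Fin n)) (v : Fin N ⊕ Fin n) : lamJ q J v = ∑ u ∈ J, G8b_c q u v := by
  rcases v with i | u'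
  · simp [lamJ, G8b_c]
  · simp [lamJ, G8b_c, Finset.sum_ite_eq']

/-- ROW G8b. Expansion of a balanced function.
Proof. Put `c u (inl i) = q u i`, `c u (inr u') = if u = u' then 1 else 0`; then
`lamJ q J v = ∑_{u ∈ J} c u v`. By G8a and `hs` the right side equals
`∑_{φ : σ → Fin n} w (im φ) ∏_v c (φ v) v` (if `card (im φ) ≠ k+1` then `w (im φ) = 0`).
If `inl i ∈ σ`: write `φ = (φ', u)` with `u = φ (inl i)` (`Equiv.funSplitAt`); for fixed `φ'` with
image `ρ` the inner sum is `∑_u w (insert u ρ) q u i`. If `ρ.card = k` this is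
`∑_{u ∈ ρᶜ} .. + ∑_{u ∈ ρ} w ρ q u i = 0 + 0` (`hbal`, `hs`); if `ρ.card < k` all
`w (insert u ρ) = 0`; `ρ.card ≤ k` because `σ` has `k` other elements. So the sum is `0 = ext0 w σ`
(`σ.toLeft ≠ ∅`). If `σ` has no left elements then `∏_v c (φ v) v = 1` iff `φ v` is the element of
`v` for all `v`, and then `im φ = σ.toRight`; otherwise it is `0`. -/
theorem ext0_expand {n N k : ℕ} {𝔼 : Type*} [CommRing 𝔼] [Algebra (ZMod 2) 𝔼]
    (q : Fin n → Fin N → 𝔼) (w : Finset (Fin n) → 𝔼) (hs : ∀ σ, σ.card ≠ k + 1 → w σ = 0)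
    (hbal : ∀ ρ : Finset (Fin n), ρ.card = k → ∀ i, ∑ u ∈ ρᶜ, w (insert u ρ) * q u i = 0)
    (σ : Finset (Fin N ⊕ Fin n)) (hσ : σ.card = k + 1) :
    ext0 w σ = ∑ U ∈ powersetCard (k + 1) (univ : Finset (Fin n)),
      w U * ∑ J ∈ U.powerset, ∏ v ∈ σ, lamJ q J v := by
  classical
  have h1 : (∑ U ∈ powersetCard (k + 1) (univ : Finset (Fin n)),
      w U * ∑ J ∈ U.powerset, ∏ v ∈ σ, lamJ q J v)
      = ∑ φ : σ → Fin n, w (univ.image φ) * ∏ v : σ, G8b_c q (φ v) v.1 := by
    have h2 : ∀ U ∈ powersetCard (k + 1) (univ : Finset (Fin n)),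
        w U * ∑ J ∈ U.powerset, ∏ v ∈ σ, lamJ q J v
        = ∑ φ : σ → Fin n, if univ.image φ = U then w U * ∏ v : σ, G8b_c q (φ v) v.1 else 0 := by
      intro U _
      have h3 : (∑ J ∈ U.powerset, ∏ v ∈ σ, lamJ q J v)
          = ∑ J ∈ U.powerset, ∏ v ∈ σ, ∑ u ∈ J, G8b_c q u v :=
        Finset.sum_congr rfl (fun J _ => Finset.prod_congr rfl (fun v _ => G8b_lamJ q J v))
      rw [h3, sum_powerset_prod, Finset.mul_sum]
      refine Finset.sum_congr rfl (fun φ _ => ?_)
      rw [mul_ite, mul_zero]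
    rw [Finset.sum_congr rfl h2, Finset.sum_comm]
    refine Finset.sum_congr rfl (fun φ _ => ?_)
    rw [Finset.sum_ite_eq]
    by_cases hc : (univ.image φ).card = k + 1
    · rw [if_pos (Finset.mem_powersetCard.2 ⟨Finset.subset_univ _, hc⟩)]
    · rw [if_neg (fun h => hc (Finset.mem_powersetCard.1 h).2), hs _ hc, zero_mul]
  rw [h1]
  by_cases hL : σ.toLeft = ∅
  · -- no dummies
    have hex : ∀ v : σ, ∃ u : Fin n, v.1 = Sum.inr u := by
      rintro ⟨v, hv⟩
      rcases v with i | u
      · exfalso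
        have : i ∈ σ.toLeft := Finset.mem_toLeft.2 hv
        rw [hL] at this
        simp at this
      · exact ⟨u, rfl⟩
    choose φ0 hφ0 using hex
    rw [Finset.sum_eq_single φ0]
    · have him : univ.image φ0 = σ.toRight := by
        ext u
        simp only [Finset.mem_image, Finset.mem_univ, true_and, Finset.mem_toRight]
        constructor
        · rintro ⟨v, rfl⟩
          rw [← hφ0 v]; exact v.2
        · intro hu
          refine ⟨⟨Sum.inr u, hu⟩, ?_⟩
          have := hφ0 ⟨Sum.inr u, hu⟩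
          exact (Sum.inr.inj this).symm
      have hp : ∏ v : σ, G8b_c q (φ0 v) v.1 = 1 := by
        refine Finset.prod_eq_one (fun v _ => ?_)
        rw [hφ0 v]; simp [G8b_c]
      rw [him, hp, mul_one, ext0, if_pos hL]
    · intro φ _ hne
      have : ∃ v : σ, φ v ≠ φ0 v := by
        by_contra hcon
        push Not at hcon
        exact hne (funext hcon)
      obtain ⟨v, hv⟩ := this
      have h0 : ∏ v : σ, G8b_c q (φ v) v.1 = 0 := by
        refine Finset.prod_eq_zero (Finset.mem_univ v) ?_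
        rw [hφ0 v]; simp [G8b_c, hv]
      rw [h0, mul_zero]
    · intro h; exact absurd (Finset.mem_univ _) h
  · -- some dummy
    obtain ⟨i, hi⟩ := Finset.nonempty_iff_ne_empty.2 hL
    rw [Finset.mem_toLeft] at hi
    rw [ext0, if_neg hL]
    symm
    let v0 : σ := ⟨Sum.inl i, hi⟩
    rw [← (Equiv.funSplitAt v0 (Fin n)).symm.sum_comp, Fintype.sum_prod_type_right]
    refine Finset.sum_eq_zero (fun φ' _ => ?_)
    have himg : ∀ u : Fin n, univ.image ((Equiv.funSplitAt v0 (Fin n)).symm (u, φ'))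
        = insert u (univ.image φ') := by
      intro u
      ext t
      simp only [Finset.mem_image, Finset.mem_univ, true_and, Finset.mem_insert,
        Equiv.funSplitAt_symm_apply]
      constructor
      · rintro ⟨a, ha⟩
        by_cases hav : a = v0
        · subst hav; left; simpa using ha.symm
        · right; refine ⟨⟨a, hav⟩, ?_⟩; simpa [hav] using ha
      · rintro (rfl | ⟨a, rfl⟩)
        · exact ⟨v0, by simp⟩
        · exact ⟨a.1, by simp [a.2]⟩
    have hprod : ∀ u : Fin n, ∏ v : σ, G8b_c q ((Equiv.funSplitAt v0 (Fin n)).symm (u, φ') v) v.1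
        = q u i * ∏ v : {j // j ≠ v0}, G8b_c q (φ' v) v.1.1 := by
      intro u
      rw [Fintype.prod_eq_mul_prod_subtype_ne _ v0]
      congr 1
      · simp [G8b_c, v0]
      · refine Finset.prod_congr rfl (fun j _ => ?_)
        have hj : (Equiv.funSplitAt v0 (Fin n)).symm (u, φ') j.1 = φ' j := by
          simp [j.2]
        rw [hj]
    have hcard : (univ.image φ').card ≤ k := by
      refine Finset.card_image_le.trans ?_
      rw [Finset.card_univ, Fintype.card_subtype_compl, Fintype.card_coe, hσ]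
      simp
    set ρ := univ.image φ' with hρ
    set Pc := ∏ v : {j // j ≠ v0}, G8b_c q (φ' v) v.1.1 with hPc
    have hsum : ∑ u : Fin n, w (insert u ρ) * q u i = 0 := by
      rcases hcard.lt_or_eq with hlt | heq
      · refine Finset.sum_eq_zero (fun u _ => ?_)
        rw [hs _ (by have := Finset.card_insert_le u ρ; omega), zero_mul]
      · rw [← Finset.sum_compl_add_sum ρ, hbal ρ heq i, zero_add]
        refine Finset.sum_eq_zero (fun u hu => ?_)
        rw [Finset.insert_eq_of_mem hu, hs _ (by omega), zero_mul]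
    calc (∑ u : Fin n, w (univ.image ((Equiv.funSplitAt v0 (Fin n)).symm (u, φ')))
          * ∏ v : σ, G8b_c q ((Equiv.funSplitAt v0 (Fin n)).symm (u, φ') v) v.1)
        = ∑ u : Fin n, w (insert u ρ) * q u i * Pc := by
          refine Finset.sum_congr rfl (fun u _ => ?_)
          rw [himg, hprod, ← mul_assoc]
      _ = 0 := by rw [← Finset.sum_mul, hsum, zero_mul]

end MP528
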