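import Pool.Agent.Lib.MP_528ca9_co.GDefs

namespace MP528

open Finset

/-- the products of `m` different `x i` -/
def G9a_gen {N : ℕ} {𝔼 : Type*} [CommRing 𝔼] (x : Fin N → 𝔼) (m : ℕ) : Set 𝔼 :=
  {z | ∃ T : Finset (Fin N), T.card = m ∧ z = ∏ i ∈ T, x i}

lemma G9a_mul {N : ℕ} {R 𝔼 : Type*} [CommRing R] [CommRing 𝔼] [Algebra R 𝔼] (x : Fin N → 𝔼)
    (hx : ∀ i, x i * x i = 0) (m : ℕ) (j : Fin N) (z : 𝔼)
    (hz : z ∈ Submodule.span R (G9a_gen x m)) :
    x j * z ∈ Submodule.span R (G9a_gen x (m + 1)) := by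
  induction hz using Submodule.span_induction with
  | mem z hz =>
    obtain ⟨T, hT, rfl⟩ := hz
    by_cases hj : j ∈ T
    · rw [← Finset.mul_prod_erase T x hj, ← mul_assoc, hx, zero_mul]
      exact Submodule.zero_mem _
    · apply Submodule.subset_span
      refine ⟨insert j T, ?_, ?_⟩
      · rw [Finset.card_insert_of_notMem hj, hT]
      · rw [Finset.prod_insert hj]
  | zero => rw [mul_zero]; exact Submodule.zero_mem _
  | add a b _ _ ha hb => rw [mul_add]; exact Submodule.add_mem _ ha hb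
  | smul c a _ ha => rw [mul_smul_comm]; exact Submodule.smul_mem _ _ ha

lemma G9a_prod {N : ℕ} {R 𝔼 β : Type*} [CommRing R] [CommRing 𝔼] [Algebra R 𝔼]
    [DecidableEq β] (x : Fin N → 𝔼) (hx : ∀ i, x i * x i = 0) (S : Finset β) (y : β → 𝔼)
    (hy : ∀ v ∈ S, ∃ a : Fin N → R, y v = ∑ i, a i • x i) :
    ∏ v ∈ S, y v ∈ Submodule.span R (G9a_gen x S.card) := by
  induction S using Finset.induction_on with
  | empty =>
    apply Submodule.subset_span
    exact ⟨∅, by simp, by simp⟩
  | insert v S hv ih =>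
    rw [Finset.prod_insert hv, Finset.card_insert_of_notMem hv]
    obtain ⟨a, ha⟩ := hy v (Finset.mem_insert_self _ _)
    have h1 := ih (fun w hw => hy w (Finset.mem_insert_of_mem hw))
    rw [ha, Finset.sum_mul]
    refine Submodule.sum_mem _ fun i _ => ?_
    rw [smul_mul_assoc]
    exact Submodule.smul_mem _ _ (G9a_mul x hx _ i _ h1)

/-- ROW G9a. Proof: expand the product of sums (`Finset.prod_sum` / induction on `S`): it is a
combination of products `∏_{v ∈ S} x (φ v)`; if `φ` is injective this is `∏_{i ∈ im φ} x i` with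
`|im φ| = |S| ≠ N`, so `top` is zero; if `φ v = φ v'`, `v ≠ v'`, the product is zero by `hx`.
(Alternative: prove by induction on `S` that `∏_{v ∈ S} y v` is an `R`-combination of the
products `∏_{i ∈ T} x i` with `|T| = |S|`.) -/
theorem top_prod_ne {N : ℕ} {R 𝔼 β : Type*} [CommRing R] [CommRing 𝔼] [Algebra R 𝔼]
    [DecidableEq β] (x : Fin N → 𝔼)
    (hx : ∀ i, x i * x i = 0) (top : 𝔼 →ₗ[R] R)
    (htop : ∀ T : Finset (Fin N), top (∏ i ∈ T, x i) = if T = univ then 1 else 0)
    (S : Finset β) (hS : S.card ≠ N) (y : β → 𝔼)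
    (hy : ∀ v ∈ S, ∃ a : Fin N → R, y v = ∑ i, a i • x i) :
    top (∏ v ∈ S, y v) = 0 := by
  have h := G9a_prod x hx S y hy
  generalize ∏ v ∈ S, y v = z at h
  induction h using Submodule.span_induction with
  | mem z hz =>
    obtain ⟨T, hT, rfl⟩ := hz
    rw [htop, if_neg]
    rintro rfl
    rw [Finset.card_univ, Fintype.card_fin] at hT
    exact hS hT.symm
  | zero => exact map_zero _
  | add a b _ _ ha hb => rw [map_add, ha, hb, add_zero]
  | smul c a _ ha => rw [map_smul, ha, smul_zero]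

end MP528
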