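import Pool.Agent.Lib.MP_528ca9_co.GDefs

namespace MP528

open Finset

theorem G9b_left {n : ℕ} {𝔼 : Type*} [CommRing 𝔼] (a : Fin n → 𝔼) {y : 𝔼} (hy : y * y = 0)
    (J : Finset (Fin n)) : 1 + (∑ u ∈ J, a u) * y = ∏ u ∈ J, (1 + a u * y) := by
  induction J using Finset.induction_on with
  | empty => simp
  | insert u J hu ih =>
    rw [Finset.sum_insert hu, Finset.prod_insert hu, ← ih]
    have h : (a u * y) * ((∑ u ∈ J, a u) * y) = 0 := by
      calc (a u * y) * ((∑ u ∈ J, a u) * y) = a u * (∑ u ∈ J, a u) * (y * y) := by ring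
        _ = 0 := by rw [hy, mul_zero]
    calc 1 + (a u + ∑ u ∈ J, a u) * y = 1 + a u * y + (∑ u ∈ J, a u) * y + 0 := by ring
      _ = 1 + a u * y + (∑ u ∈ J, a u) * y + (a u * y) * ((∑ u ∈ J, a u) * y) := by rw [h]
      _ = (1 + a u * y) * (1 + (∑ u ∈ J, a u) * y) := by ring

/-- ROW G9b. Proof: split the product over `Fin N ⊕ Fin n` (`Fintype.prod_sum_type`): the left part
is `∏_i (1 + (∑_{u ∈ J} q u i) x i) = ∏_i ∏_{u ∈ J} (1 + q u i x i)` (induction on `J`,
`x i * x i = 0`), the right part is `∏_{u ∈ J} (1 + ∑_i q u i x i)`. Exchange the products. -/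
theorem prod_lamJ {n N : ℕ} {𝔼 : Type*} [CommRing 𝔼] (q : Fin n → Fin N → 𝔼) (x : Fin N → 𝔼)
    (hx : ∀ i, x i * x i = 0) (J : Finset (Fin n)) :
    ∏ v, (1 + lamJ q J v * pv q x v) = ∏ u ∈ J, evf q x u := by
  rw [Fintype.prod_sum_type]
  have h1 : ∀ i : Fin N, 1 + lamJ q J (Sum.inl i) * pv q x (Sum.inl i) =
      ∏ u ∈ J, (1 + q u i * x i) := by
    intro i
    change 1 + (∑ u ∈ J, q u i) * x i = _
    exact G9b_left (fun u => q u i) (hx i) J
  have h2 : ∀ u : Fin n, 1 + lamJ q J (Sum.inr u) * pv q x (Sum.inr u) =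
      if u ∈ J then 1 + ∑ i, q u i * x i else 1 := by
    intro u
    change 1 + (if u ∈ J then (1 : 𝔼) else 0) * (∑ i, q u i * x i) = _
    split_ifs
    · rw [one_mul]
    · rw [zero_mul, add_zero]
  rw [Finset.prod_congr rfl fun i _ => h1 i, Finset.prod_congr rfl fun u _ => h2 u,
    Finset.prod_comm, Finset.prod_ite_mem, Finset.univ_inter, ← Finset.prod_mul_distrib]
  refine Finset.prod_congr rfl fun u _ => ?_
  unfold evf
  rw [mul_comm]

end MP528
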