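import Pool.Agent.Lib.MP_528ca9_co.GDefs
import Pool.Agent.Lib.MP_528ca9_co.G9a
import Pool.Agent.Lib.MP_528ca9_co.G9b

namespace MP528

open Finset

/-- the factors are `R`-combinations of the `x i` -/
theorem G9c_comb {n N : ℕ} {R 𝔼 : Type*} [CommRing R] [CommRing 𝔼] [Algebra R 𝔼]
    (a : Fin n → Fin N → R) (x : Fin N → 𝔼) (J : Finset (Fin n)) (v : Fin N ⊕ Fin n) :
    ∃ b : Fin N → R, lamJ (fun u i => algebraMap R 𝔼 (a u i)) J v *
        pv (fun u i => algebraMap R 𝔼 (a u i)) x v = ∑ i, b i • x i := by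
  rcases v with i | u
  · refine ⟨fun j => if j = i then ∑ u ∈ J, a u i else 0, ?_⟩
    have h1 : ∑ j, (if j = i then ∑ u ∈ J, a u i else 0) • x j = (∑ u ∈ J, a u i) • x i := by
      rw [Finset.sum_eq_single i]
      · simp
      · intro j _ hj
        simp [hj]
      · intro h
        exact absurd (Finset.mem_univ i) h
    rw [h1]
    simp only [lamJ, pv, Sum.elim_inl]
    rw [Algebra.smul_def, map_sum]
  · refine ⟨fun j => (if u ∈ J then 1 else 0) * a u j, ?_⟩
    simp only [lamJ, pv, Sum.elim_inr]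
    rw [Finset.mul_sum]
    refine Finset.sum_congr rfl (fun j _ => ?_)
    rw [Algebra.smul_def]
    by_cases h : u ∈ J
    · simp [h]
    · simp [h]

/-- ROW G9c. Proof: by G9a only subsets `S` with `N` elements contribute to
`top (∑_{S} ∏_{v ∈ S} (lamJ v * pv v)) = top (∏_v (1 + lamJ v * pv v))`
(`Finset.prod_one_add` / `Finset.prod_add`); each `lamJ v * pv v` is an `R`-combination of the
`x i` because `q u i = algebraMap R 𝔼 (a u i)`. Then G9b, and
`∑_{J ⊆ U} ∏_{u ∈ J} e u = ∏_{u ∈ U} (1 + e u)`. -/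
theorem top_sum {n N : ℕ} {R 𝔼 : Type*} [CommRing R] [CommRing 𝔼] [Algebra R 𝔼]
    (a : Fin n → Fin N → R) (x : Fin N → 𝔼)
    (hx : ∀ i, x i * x i = 0) (top : 𝔼 →ₗ[R] R)
    (htop : ∀ T : Finset (Fin N), top (∏ i ∈ T, x i) = if T = univ then 1 else 0)
    (U : Finset (Fin n)) :
    ∑ J ∈ U.powerset, top (∑ S ∈ powersetCard N (univ : Finset (Fin N ⊕ Fin n)),
      ∏ v ∈ S, (lamJ (fun u i => algebraMap R 𝔼 (a u i)) J v *
        pv (fun u i => algebraMap R 𝔼 (a u i)) x v)) =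
      top (∏ u ∈ U, (1 + evf (fun u i => algebraMap R 𝔼 (a u i)) x u)) := by
  rw [Finset.prod_one_add, map_sum]
  refine Finset.sum_congr rfl (fun J _ => ?_)
  rw [← prod_lamJ (fun u i => algebraMap R 𝔼 (a u i)) x hx J, Finset.prod_one_add, map_sum, map_sum]
  refine Finset.sum_subset ?_ ?_
  · intro S _
    exact Finset.mem_powerset.2 (Finset.subset_univ S)
  · intro S _ hS
    refine top_prod_ne x hx top htop S ?_ _ (fun v _ => G9c_comb a x J v)
    intro hc
    exact hS (Finset.mem_powersetCard.2 ⟨Finset.subset_univ S, hc⟩)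

end MP528
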