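import Pool.Agent.Lib.MP_528ca9_co.Comb

namespace MP528

open Finset

/-- product over a face -/
def pf {β 𝔼 : Type*} [DecidableEq β] [CommRing 𝔼] (p : β → 𝔼) (σ : Finset β) : 𝔼 := ∏ v ∈ σ, p v

/-- the quadratic form -/
noncomputable def Qf {β 𝔼 : Type*} [Fintype β] [DecidableEq β] [CommRing 𝔼] [Algebra (ZMod 2) 𝔼]
    (r : β → ℕ) (p : β → 𝔼) (k : ℕ) (w : Finset β → 𝔼) : 𝔼 :=
  ∑ σ ∈ powersetCard (k + 1) (univ : Finset β), ∑ τ ∈ powersetCard (k + 1) (univ : Finset β),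
    if Disjoint σ τ then
      algebraMap (ZMod 2) 𝔼 (altA r σ τ) * (w σ * w τ * (pf p σ * pf p τ)) else 0

/-- balanced functions -/
def Wb {β 𝔼 : Type*} [Fintype β] [DecidableEq β] [CommRing 𝔼]
    (p : β → 𝔼) (k : ℕ) (w : Finset β → 𝔼) : Prop :=
  ∀ ρ : Finset β, ρ.card = k → pf p ρ * ∑ v ∈ ρᶜ, w (insert v ρ) * p v = 0

/-- the weights `λ_J` on dummy and real vertices -/
def lamJ {n N : ℕ} {𝔼 : Type*} [CommRing 𝔼] (q : Fin n → Fin N → 𝔼) (J : Finset (Fin n)) :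
    Fin N ⊕ Fin n → 𝔼 :=
  Sum.elim (fun i => ∑ u ∈ J, q u i) (fun u => if u ∈ J then 1 else 0)

/-- the points of dummy and real vertices -/
def pv {n N : ℕ} {𝔼 : Type*} [CommRing 𝔼] (q : Fin n → Fin N → 𝔼) (x : Fin N → 𝔼) :
    Fin N ⊕ Fin n → 𝔼 :=
  Sum.elim x (fun u => ∑ i, q u i * x i)

/-- the order: dummies first -/
def rr {n N : ℕ} (r : Fin n → ℕ) : Fin N ⊕ Fin n → ℕ :=
  Sum.elim (fun i => i.1) (fun u => N + r u)

/-- extension by zero of a function on real faces -/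
def ext0 {n N : ℕ} {𝔼 : Type*} [CommRing 𝔼] (w : Finset (Fin n) → 𝔼) :
    Finset (Fin N ⊕ Fin n) → 𝔼 :=
  fun σ => if σ.toLeft = ∅ then w σ.toRight else 0

/-- the factor of a real vertex -/
def evf {n N : ℕ} {𝔼 : Type*} [CommRing 𝔼] (q : Fin n → Fin N → 𝔼) (x : Fin N → 𝔼)
    (u : Fin n) : 𝔼 :=
  (1 + ∑ i, q u i * x i) * ∏ i, (1 + q u i * x i)

/-- the composition of the derivations with respect to the variables `(f i, i)`, `i` in a list -/
noncomputable def Dl {n N : ℕ} (f : Fin N → Fin n) :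
    List (Fin N) → MvPolynomial (Fin n × Fin N) (ZMod 2) → MvPolynomial (Fin n × Fin N) (ZMod 2)
  | [], g => g
  | i :: l, g => MvPolynomial.pderiv (f i, i) (Dl f l g)

end MP528
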