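import Pool.Agent.Lib.MP_528ca9_co.KDefs

namespace MP528

open Finset

theorem K1a_symm {α : Type*} [DecidableEq α] (A : Finset α) (f : α → α → ZMod 2)
    (hf : ∀ v w, f v w = f w v) : ∑ v ∈ A, ∑ w ∈ A.erase v, f v w = 0 := by
  have e1 : ∑ v ∈ A, ∑ w ∈ A.erase v, f v w = ∑ p ∈ A.offDiag, f p.1 p.2 := by
    have hoff : A.offDiag = (A.sigma (fun v => A.erase v)).image (fun p => (p.1, p.2)) := by
      ext ⟨a, b⟩
      simp only [Finset.mem_offDiag, Finset.mem_image, Finset.mem_sigma, Finset.mem_erase,
        Prod.mk.injEq, Sigma.exists]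
      constructor
      · rintro ⟨ha, hb, hne⟩
        exact ⟨a, b, ⟨ha, Ne.symm hne, hb⟩, rfl, rfl⟩
      · rintro ⟨x, y, ⟨hx, hyx, hy⟩, rfl, rfl⟩
        exact ⟨hx, hy, Ne.symm hyx⟩
    rw [hoff, Finset.sum_image, Finset.sum_sigma]
    rintro ⟨a, b⟩ _ ⟨c, d⟩ _ hab
    simp only [Prod.mk.injEq] at hab
    obtain ⟨rfl, rfl⟩ := hab
    rfl
  rw [e1]
  refine Finset.sum_involution (fun p _ => p.swap) ?_ ?_ ?_ ?_
  · rintro ⟨a, b⟩ _
    simp only [Prod.swap_prod_mk]
    rw [hf a b]
    exact CharTwo.add_self_eq_zero _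
  · rintro ⟨a, b⟩ h _ hc
    simp only [Prod.swap_prod_mk, Prod.mk.injEq] at hc
    rw [Finset.mem_offDiag] at h
    exact h.2.2 hc.2
  · rintro ⟨a, b⟩ h
    rw [Finset.mem_offDiag] at h ⊢
    exact ⟨h.2.1, h.1, Ne.symm h.2.2⟩
  · rintro ⟨a, b⟩ _
    rfl

theorem K1a_drop {α : Type*} [DecidableEq α] (A : Finset α) (f : Finset α → ZMod 2) (v : α) :
    (if (A.erase v).Nonempty then
      ∑ w ∈ A.erase v, (if ((A.erase v).erase w).Nonempty then f ((A.erase v).erase w) else 0) else 0)
      = ∑ w ∈ A.erase v, (if ((A.erase v).erase w).Nonempty then f ((A.erase v).erase w) else 0) := by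
  by_cases hne : (A.erase v).Nonempty
  · rw [if_pos hne]
  · rw [if_neg hne]
    rw [Finset.not_nonempty_iff_eq_empty] at hne
    rw [hne, Finset.sum_empty]

theorem K1a_self {α : Type*} [DecidableEq α] (A : Finset α) (f : Finset α → ZMod 2) :
    ∑ v ∈ A, (if (A.erase v).Nonempty then
      ∑ w ∈ A.erase v, (if ((A.erase v).erase w).Nonempty then f ((A.erase v).erase w) else 0) else 0)
      = 0 := by
  rw [Finset.sum_congr rfl (fun v _ => K1a_drop A f v)]
  refine K1a_symm A (fun v w => if ((A.erase v).erase w).Nonempty then f ((A.erase v).erase w) else 0) ?_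
  intro v w
  rw [Finset.erase_right_comm]

/-- ROW K1a. `cov cov = 0` on pairs with nonempty components.
Proof. Expanding, every pair obtained by removing two elements `v ≠ v'` (in either order, both
results nonempty) occurs exactly twice: `(v,v')` and `(v',v)`; if the pair with both removed has
nonempty components then so have the intermediate pairs. The terms: both from `e.1`: the double sum
over `v ∈ e.1, v' ∈ e.1.erase v` of a symmetric expression is `0` mod 2; both from `e.2`: same; one
from each: occurs once in each of the two mixed double sums with the same conditions. -/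
theorem cov_cov {n : ℕ} (h : Pr n → ZMod 2) (e : Pr n) (h1 : e.1.Nonempty) (h2 : e.2.Nonempty) :
    cov (cov h) e = 0 := by
  obtain ⟨A, B⟩ := e
  unfold cov
  simp only
  have s1 : ∀ (c : Prop) [Decidable c] (x y : ZMod 2), (if c then x + y else 0) = (if c then x else 0) + (if c then y else 0) := by
    intro c _ x y
    by_cases hc : c
    · simp [hc]
    · simp [hc]
  have s2 : ∀ (c : Prop) [Decidable c] (S : Finset (Fin n)) (x : Fin n → ZMod 2),
      (if c then ∑ w ∈ S, x w else 0) = ∑ w ∈ S, (if c then x w else 0) := by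
    intro c _ S x
    by_cases hc : c
    · simp [hc]
    · simp [hc]
  rw [Finset.sum_congr rfl (fun v _ => s1 _ _ _), Finset.sum_add_distrib,
    K1a_self A (fun s => h (s, B))]
  rw [Finset.sum_congr rfl (fun v (_ : v ∈ B) => s1 _ _ _), Finset.sum_add_distrib,
    K1a_self B (fun s => h (A, s))]
  rw [Finset.sum_congr rfl (fun v (_ : v ∈ A) => s2 _ _ _),
    Finset.sum_congr rfl (fun v (_ : v ∈ B) => s2 _ _ _)]
  rw [Finset.sum_comm (s := B) (t := A)]
  rw [zero_add, add_zero, ← Finset.sum_add_distrib]
  refine Finset.sum_eq_zero ?_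
  intro v _
  rw [← Finset.sum_add_distrib]
  refine Finset.sum_eq_zero ?_
  intro w _
  by_cases ha : (A.erase v).Nonempty
  · by_cases hb : (B.erase w).Nonempty
    · simp only [ha, hb, if_true]
      exact CharTwo.add_self_eq_zero _
    · simp [ha, hb]
  · by_cases hb : (B.erase w).Nonempty
    · simp [ha, hb]
    · simp [ha, hb]

/-- ROW K1a'. -/
theorem cov_add {n : ℕ} (h h' : Pr n → ZMod 2) (e : Pr n) :
    cov (fun x => h x + h' x) e = cov h e + cov h' e := by
  unfold cov
  have s1 : ∀ (c : Prop) [Decidable c] (x y : ZMod 2), (if c then x + y else 0) = (if c then x else 0) + (if c then y else 0) := by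
    intro c _ x y
    by_cases hc : c
    · simp [hc]
    · simp [hc]
  rw [Finset.sum_congr rfl (fun v _ => s1 _ _ _), Finset.sum_add_distrib,
    Finset.sum_congr rfl (fun v (_ : v ∈ e.2) => s1 _ _ _), Finset.sum_add_distrib]
  ring

/-- ROW K1a''. `cov` commutes with the exchange of components. -/
theorem cov_swap {n : ℕ} (h : Pr n → ZMod 2) (e : Pr n) :
    cov (fun x => h x.swap) e = cov h e.swap := by
  unfold cov
  simp only [Prod.swap_prod_mk, Prod.fst_swap, Prod.snd_swap]
  rw [add_comm]

/-- ROW K1a'''. Only the values on pairs of faces one level below matter. -/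
theorem cov_congr {n : ℕ} (Δ : Finset (Finset (Fin n))) (hD : DownC Δ) (h h' : Pr n → ZMod 2)
    (e : Pr n) (he : PairOK Δ e)
    (hh : ∀ e', PairOK Δ e' → lev e' + 1 = lev e → e'.1 ⊆ e.1 → e'.2 ⊆ e.2 → h e' = h' e') :
    cov h e = cov h' e := by
  obtain ⟨A, B⟩ := e
  obtain ⟨hA, hB, nA, nB, hd⟩ := he
  simp only at hA hB nA nB hd hh
  unfold cov
  simp only
  congr 1
  · refine Finset.sum_congr rfl ?_
    intro v hv
    by_cases hne : (A.erase v).Nonempty
    · rw [if_pos hne, if_pos hne]
      refine hh (A.erase v, B) ⟨hD A hA _ (Finset.erase_subset _ _), hB, hne, nB, ?_⟩ ?_ (Finset.erase_subset _ _) (Finset.Subset.refl _)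
      · exact Finset.disjoint_of_subset_left (Finset.erase_subset _ _) hd
      · unfold lev
        have := Finset.card_erase_add_one hv
        simp only
        omega
    · rw [if_neg hne, if_neg hne]
  · refine Finset.sum_congr rfl ?_
    intro v hv
    by_cases hne : (B.erase v).Nonempty
    · rw [if_pos hne, if_pos hne]
      refine hh (A, B.erase v) ⟨hA, hD B hB _ (Finset.erase_subset _ _), nA, hne, ?_⟩ ?_ (Finset.Subset.refl _) (Finset.erase_subset _ _)
      · exact Finset.disjoint_of_subset_right (Finset.erase_subset _ _) hd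
      · unfold lev
        have := Finset.card_erase_add_one hv
        simp only
        omega
    · rw [if_neg hne, if_neg hne]

end MP528
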