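import Pool.Agent.Lib.MP_528ca9_co.K1a

namespace MP528

open Finset

theorem K1b_snoc_isFl {n : ℕ} (Δ : Finset (Finset (Fin n))) (m : ℕ)
    (e : Pr n) (he : PairOK Δ e) (hl : lev e = m + 1 + 2) (F : Fin (m + 1) → Pr n)
    (hF : IsFl Δ m F) (h1 : (F (Fin.last m)).1 ⊆ e.1) (h2 : (F (Fin.last m)).2 ⊆ e.2) :
    IsFl Δ (m + 1) (Fin.snoc F e : Fin (m + 1 + 1) → Pr n) := by
  refine ⟨?_, ?_⟩
  · intro i
    refine Fin.lastCases ?_ (fun j => ?_) i
    · rw [Fin.snoc_last]
      refine ⟨he, ?_⟩
      rw [hl, Fin.val_last]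
    · rw [Fin.snoc_castSucc]
      refine ⟨(hF.1 j).1, ?_⟩
      rw [(hF.1 j).2, Fin.val_castSucc]
  · intro i j
    refine Fin.lastCases ?_ (fun j' => ?_) j
    · refine Fin.lastCases ?_ (fun i' => ?_) i
      · intro _
        exact ⟨Finset.Subset.refl _, Finset.Subset.refl _⟩
      · intro _
        rw [Fin.snoc_last, Fin.snoc_castSucc]
        have := hF.2 i' (Fin.last m) (Fin.le_last _)
        exact ⟨this.1.trans h1, this.2.trans h2⟩
    · refine Fin.lastCases ?_ (fun i' => ?_) i
      · intro hle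
        exact absurd hle (not_le.2 (Fin.castSucc_lt_last j'))
      · intro hle
        rw [Fin.snoc_castSucc, Fin.snoc_castSucc]
        exact hF.2 i' j' (by simpa using hle)

/-- ROW K1b. Proof: induction on `m`, with `cov_congr`: for `e'` below `e` (level `m+2`) and a flag
`F` ending at `e'`, `Fin.snoc F e` is a flag ending at `e`. -/
theorem flagSum_congr {n : ℕ} (Δ : Finset (Finset (Fin n))) (hD : DownC Δ) (m : ℕ)
    (a a' : (Fin (m + 1) → Pr n) → ZMod 2) (e : Pr n) (he : PairOK Δ e) (hl : lev e = m + 2)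
    (h : ∀ F, IsFl Δ m F → F (Fin.last m) = e → a F = a' F) :
    flagSum m a e = flagSum m a' e := by
  induction m generalizing e with
  | zero =>
    change a (fun _ => e) = a' (fun _ => e)
    refine h _ ⟨?_, ?_⟩ rfl
    · intro i
      refine ⟨he, ?_⟩
      have : i.1 = 0 := by omega
      rw [hl, this]
    · intro i j _
      exact ⟨Finset.Subset.refl _, Finset.Subset.refl _⟩
  | succ m ih =>
    change cov (fun e' => flagSum m (fun F => a (Fin.snoc F e)) e') e =
      cov (fun e' => flagSum m (fun F => a' (Fin.snoc F e)) e') e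
    refine cov_congr Δ hD _ _ e he ?_
    intro e' he' hl' hs1 hs2
    refine ih (fun F => a (Fin.snoc F e)) (fun F => a' (Fin.snoc F e)) e' he' (by omega) ?_
    intro F hF hFe
    refine h _ (K1b_snoc_isFl Δ m e he hl F hF ?_ ?_) ?_
    · rw [hFe]; exact hs1
    · rw [hFe]; exact hs2
    · rw [Fin.snoc_last]

/-- ROW K1b'. -/
theorem flagSum_add {n : ℕ} (m : ℕ) (a a' : (Fin (m + 1) → Pr n) → ZMod 2) (e : Pr n) :
    flagSum m (fun F => a F + a' F) e = flagSum m a e + flagSum m a' e := by
  induction m generalizing e with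
  | zero => rfl
  | succ m ih =>
    change cov (fun e' => flagSum m (fun F => a (Fin.snoc F e) + a' (Fin.snoc F e)) e') e =
      cov (fun e' => flagSum m (fun F => a (Fin.snoc F e)) e') e +
        cov (fun e' => flagSum m (fun F => a' (Fin.snoc F e)) e') e
    rw [← cov_add]
    congr 1
    funext e'
    exact ih (fun F => a (Fin.snoc F e)) (fun F => a' (Fin.snoc F e)) e'

/-- ROW K1b''. Induction on `m` with `cov_swap`. -/
theorem flagSum_swap {n : ℕ} (m : ℕ) (a : (Fin (m + 1) → Pr n) → ZMod 2) (e : Pr n) :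
    flagSum m (fun F => a (fun i => (F i).swap)) e = flagSum m a e.swap := by
  induction m generalizing e with
  | zero => rfl
  | succ m ih =>
    change cov (fun e' => flagSum m (fun F => a (fun i =>
        ((Fin.snoc F e : Fin (m + 1 + 1) → Pr n) i).swap)) e') e =
      cov (fun e' => flagSum m (fun F => a (Fin.snoc F e.swap)) e') e.swap
    rw [← cov_swap]
    congr 1
    funext e'
    have key : ∀ F : Fin (m + 1) → Pr n,
        (fun i => ((Fin.snoc F e : Fin (m + 1 + 1) → Pr n) i).swap) =
          (Fin.snoc (fun i => (F i).swap) e.swap : Fin (m + 1 + 1) → Pr n) := by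
      intro F
      funext i
      refine Fin.lastCases ?_ (fun j => ?_) i
      · rw [Fin.snoc_last, Fin.snoc_last]
      · rw [Fin.snoc_castSucc, Fin.snoc_castSucc]
    simp only [key]
    exact ih (fun F => a (Fin.snoc F e.swap)) e'

end MP528
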