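import Pool.Agent.Lib.MP_528ca9_co.K1b

namespace MP528

open Finset

private theorem K1e_congr {n : ℕ} (h h' : Pr n → ZMod 2) (e : Pr n) (h1 : e.1.Nonempty) (h2 : e.2.Nonempty)
    (hh : ∀ e' : Pr n, e'.1.Nonempty → e'.2.Nonempty → lev e' + 1 = lev e → h e' = h' e') :
    cov h e = cov h' e := by
  unfold cov
  congr 1
  · refine Finset.sum_congr rfl fun v hv => ?_
    by_cases hn : (e.1.erase v).Nonempty
    · rw [if_pos hn, if_pos hn]
      refine hh _ hn h2 ?_
      have := Finset.card_erase_add_one hv
      simp only [lev]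
      omega
    · rw [if_neg hn, if_neg hn]
  · refine Finset.sum_congr rfl fun v hv => ?_
    by_cases hn : (e.2.erase v).Nonempty
    · rw [if_pos hn, if_pos hn]
      refine hh _ h1 hn ?_
      have := Finset.card_erase_add_one hv
      simp only [lev]
      omega
    · rw [if_neg hn, if_neg hn]

private theorem K1e_one {n : ℕ} (κ : ZMod 2) (S : Finset (Fin n)) (h : S.card = 1) :
    (∑ v ∈ S, if (S.erase v).Nonempty then κ else 0) = 0 := by
  refine Finset.sum_eq_zero fun v hv => ?_
  rw [if_neg]
  rw [Finset.not_nonempty_iff_eq_empty, ← Finset.card_eq_zero, Finset.card_erase_of_mem hv, h]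

private theorem K1e_two {n : ℕ} (κ : ZMod 2) (S : Finset (Fin n)) (h : S.card = 2) :
    (∑ v ∈ S, if (S.erase v).Nonempty then κ else 0) = 0 := by
  have : ∀ v ∈ S, (if (S.erase v).Nonempty then κ else 0) = κ := by
    intro v hv
    rw [if_pos]
    rw [← Finset.card_pos, Finset.card_erase_of_mem hv, h]
    norm_num
  rw [Finset.sum_congr rfl this, Finset.sum_const, h, two_nsmul]
  exact CharTwo.add_self_eq_zero κ

private theorem K1e_const {n : ℕ} (κ : ZMod 2) (e : Pr n) (h1 : e.1.Nonempty) (h2 : e.2.Nonempty)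
    (hl : lev e = 3) : cov (fun _ => κ) e = 0 := by
  have c1 := Finset.card_pos.2 h1
  have c2 := Finset.card_pos.2 h2
  unfold lev at hl
  unfold cov
  have hcase : (e.1.card = 1 ∧ e.2.card = 2) ∨ (e.1.card = 2 ∧ e.2.card = 1) := by omega
  rcases hcase with ⟨a, b⟩ | ⟨a, b⟩
  · rw [K1e_one κ _ a, K1e_two κ _ b, add_zero]
  · rw [K1e_two κ _ a, K1e_one κ _ b, add_zero]

private theorem K1e_snoc {n m : ℕ} (F : Fin (m + 2) → Pr n) (e : Pr n) (s : Fin (m + 2)) :
    (fun i : Fin (m + 2) => (Fin.snoc F e : Fin (m + 3) → Pr n) (s.castSucc.succAbove i)) =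
      (Fin.snoc (fun i : Fin (m + 1) => F (s.succAbove i)) e : Fin (m + 2) → Pr n) := by
  funext i
  refine Fin.lastCases ?_ (fun j => ?_) i
  · have : s.castSucc.succAbove (Fin.last (m + 1)) = Fin.last (m + 2) := by
      rw [Fin.succAbove_of_le_castSucc]
      · simp
      · exact Fin.castSucc_le_castSucc_iff.2 (Fin.le_last _)
    rw [this, Fin.snoc_last, Fin.snoc_last]
  · have : s.castSucc.succAbove j.castSucc = (s.succAbove j).castSucc := Fin.castSucc_succAbove_castSucc
    rw [this, Fin.snoc_castSucc, Fin.snoc_castSucc]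

private theorem K1e_split {n : ℕ} (m : ℕ) (b : (Fin (m + 1) → Pr n) → ZMod 2) (e : Pr n) :
    flagSum (m + 1) (fun F => ∑ s : Fin (m + 2), b (fun i => F (s.succAbove i))) e =
      cov (fun e' => flagSum m (fun F => ∑ s : Fin (m + 1),
        b (fun i => (Fin.snoc F e : Fin (m + 2) → Pr n) (s.castSucc.succAbove i))) e') e +
      cov (fun e' => flagSum m b e') e := by
  have hA : ∀ F : Fin (m + 1) → Pr n,
      ∑ s : Fin (m + 2), b (fun i => (Fin.snoc F e : Fin (m + 2) → Pr n) (s.succAbove i)) =
      (∑ s : Fin (m + 1), b (fun i => (Fin.snoc F e : Fin (m + 2) → Pr n) (s.castSucc.succAbove i))) + b F := by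
    intro F
    rw [Fin.sum_univ_castSucc]
    congr 2
    funext i
    rw [Fin.succAbove_last, Fin.snoc_castSucc]
  have hB : flagSum (m + 1) (fun F => ∑ s : Fin (m + 2), b (fun i => F (s.succAbove i))) e =
      cov (fun e' => flagSum m (fun F : Fin (m + 1) → Pr n =>
        ∑ s : Fin (m + 2), b (fun i => (Fin.snoc F e : Fin (m + 2) → Pr n) (s.succAbove i))) e') e := rfl
  rw [hB, ← cov_add]
  congr 1
  funext e'
  rw [← flagSum_add]
  congr 1
  funext F
  exact hA F

/-- ROW K1e. Summing a boundary over the flags ending at `e` leaves the terms where `e` is omitted.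
Proof. Induction on `m`. By definition the left side is
`cov (fun e' => flagSum m (fun F => ∑_{s : Fin (m+2)} b ((Fin.snoc F e) ∘ s.succAbove)) e') e`.
The term `s = last` is `b F`. For `s = castSucc s'` and `m ≥ 1`,
`(Fin.snoc F e) ∘ s.succAbove = Fin.snoc (F ∘ s'.succAbove) e`. So with
`b' G = b (Fin.snoc G e)` the left side is
`cov (fun e' => flagSum m b e') e + cov (fun e' => flagSum m (∑_{s'} b' (F ∘ s'.succAbove)) e') e`,
and for `m ≥ 1` (write `m = m'+1`) the induction hypothesis for `e'` (nonempty components, level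
`m'+3`) turns the second term into `cov (fun e' => cov (fun e'' => flagSum m' b' e'') e') e = 0`
by `cov_cov` (use a congruence lemma for `cov`: only `e'` with nonempty components one level below
occur).
Case `m = 0`: `lev e = 3`; left side `= cov (fun e' => b (fun _ => e') + b (fun _ => e)) e`, and `e`
has exactly two covers (`|e.1| = 1, |e.2| = 2` or vice versa, the single element of the component
of size 1 cannot be removed), so the constant term cancels. -/
theorem flagSum_bd {n : ℕ} (m : ℕ) (b : (Fin (m + 1) → Pr n) → ZMod 2) (e : Pr n)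
    (h1 : e.1.Nonempty) (h2 : e.2.Nonempty) (hl : lev e = m + 3) :
    flagSum (m + 1) (fun F => ∑ s : Fin (m + 2), b (fun i => F (s.succAbove i))) e =
      cov (fun e' => flagSum m b e') e := by
  induction m generalizing e with
  | zero =>
    rw [K1e_split]
    have : (fun e' : Pr n => flagSum 0 (fun F : Fin 1 → Pr n => ∑ s : Fin 1,
        b (fun i => (Fin.snoc F e : Fin 2 → Pr n) (s.castSucc.succAbove i))) e') =
        fun _ => b (fun _ => e) := by
      funext e'
      simp only [flagSum, Finset.univ_unique, Fin.default_eq_zero, Finset.sum_singleton]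
      congr 1
    rw [this, K1e_const _ e h1 h2 hl, zero_add]
  | succ m ih =>
    rw [K1e_split]
    have : cov (fun e' : Pr n => flagSum (m + 1) (fun F : Fin (m + 2) → Pr n => ∑ s : Fin (m + 2),
        b (fun i => (Fin.snoc F e : Fin (m + 3) → Pr n) (s.castSucc.succAbove i))) e') e = 0 := by
      rw [← cov_cov (fun e' => flagSum m (fun G => b (Fin.snoc G e)) e') e h1 h2]
      refine K1e_congr _ _ e h1 h2 fun e' g1 g2 g3 => ?_
      rw [← ih (fun G => b (Fin.snoc G e)) e' g1 g2 (by omega)]
      congr 1
      funext F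
      refine Finset.sum_congr rfl fun s _ => ?_
      rw [K1e_snoc F e s]
    rw [this, zero_add]

end MP528
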