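import Pool.Agent.Lib.MP_528ca9_co.K1a

namespace MP528

open Finset

theorem K2_swapOK {n : ℕ} {Δ : Finset (Finset (Fin n))} {e : Pr n} (h : PairOK Δ e) :
    PairOK Δ e.swap :=
  ⟨h.2.1, h.1, h.2.2.2.1, h.2.2.1, h.2.2.2.2.symm⟩

theorem K2_lev {n : ℕ} (e : Pr n) : lev e.swap = lev e := by
  simp only [lev, Prod.fst_swap, Prod.snd_swap]
  omega

theorem K2_self (a : ZMod 2) : a + a = 0 := CharTwo.add_self_eq_zero a

/-- ROW K2a. A function symmetric on the pairs of faces of a fixed level is `h + T h`.
Proof: `h e = s e` if `enc e.1 < enc e.2`, else `0`, for an injective `enc : Finset (Fin n) → ℕ`;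
`e.1 ≠ e.2` because they are disjoint and nonempty. -/
theorem sym_split {n : ℕ} (Δ : Finset (Finset (Fin n))) (l : ℕ) (s : Pr n → ZMod 2)
    (hs : ∀ e, PairOK Δ e → lev e = l → s e = s e.swap) :
    ∃ h : Pr n → ZMod 2, ∀ e, PairOK Δ e → lev e = l → s e = h e + h e.swap := by
  have hinj : Function.Injective
      (fun σ : Finset (Fin n) => ((Fintype.equivFin (Finset (Fin n))) σ).1) := by
    intro σ τ h
    exact (Fintype.equivFin (Finset (Fin n))).injective (Fin.ext h)
  refine ⟨fun e => if ((Fintype.equivFin (Finset (Fin n))) e.1).1 <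
    ((Fintype.equivFin (Finset (Fin n))) e.2).1 then s e else 0, ?_⟩
  intro e he hl
  have hne : e.1 ≠ e.2 := by
    intro h
    obtain ⟨x, hx⟩ := he.2.2.1
    exact Finset.disjoint_left.1 he.2.2.2.2 hx (h ▸ hx)
  have hne2 : ((Fintype.equivFin (Finset (Fin n))) e.1).1 ≠
      ((Fintype.equivFin (Finset (Fin n))) e.2).1 := fun h => hne (hinj h)
  simp only [Prod.fst_swap, Prod.snd_swap]
  rcases lt_or_gt_of_ne hne2 with h | h
  · rw [if_pos h, if_neg (by omega), add_zero]
  · rw [if_neg (by omega), if_pos h, zero_add]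
    exact hs e he hl

/-- ROW K2b. Two sequences with the same recursion have cohomologous top terms.
Proof. Let `B m e = A m e + A' m e`. Show by induction on `m ≤ d`: there are `h, h'` with
`B m e = cov h' e + h e + h e.swap` for all pairs of faces of level `m + 2`. `m = 0`:
`B 0 e = B 0 e.swap` (add the relations `h0`, `h0'`), use K2a and `h' = 0`. Step: for `e` of level
`m + 3`, `cov (B m) e = B (m+1) e + B (m+1) e.swap`, and by the induction hypothesis
(`cov_congr`, `cov_cov`, `cov_add`, `cov_swap`) `cov (B m) e = cov h e + cov h e.swap`; so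
`s e = B (m+1) e + cov h e` is symmetric, use K2a for it. At `m = d`:
`A d e + A d e.swap + A' d e + A' d e.swap = B d e + B d e.swap = cov h' e + cov h' e.swap
= cov (fun x => h' x + h' x.swap) e` (the part `h e + h e.swap` cancels). -/
theorem compare {n : ℕ} (Δ : Finset (Finset (Fin n))) (hD : DownC Δ) (d : ℕ)
    (A A' : ℕ → Pr n → ZMod 2)
    (h0 : ∀ e, PairOK Δ e → lev e = 2 → A 0 e + A 0 e.swap = 1)
    (h0' : ∀ e, PairOK Δ e → lev e = 2 → A' 0 e + A' 0 e.swap = 1)
    (h1 : ∀ m < d, ∀ e, PairOK Δ e → lev e = m + 3 → cov (A m) e = A (m + 1) e + A (m + 1) e.swap)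
    (h1' : ∀ m < d, ∀ e, PairOK Δ e → lev e = m + 3 →
      cov (A' m) e = A' (m + 1) e + A' (m + 1) e.swap) :
    ∃ h : Pr n → ZMod 2, ∀ e, PairOK Δ e → lev e = d + 2 →
      A d e + A d e.swap + A' d e + A' d e.swap = cov (fun x => h x + h x.swap) e := by
  have key : ∀ m, m ≤ d → ∃ h h' : Pr n → ZMod 2, ∀ e, PairOK Δ e → lev e = m + 2 →
      A m e + A' m e = cov h' e + (h e + h e.swap) := by
    intro m
    induction m with
    | zero =>
      intro _
      obtain ⟨h, hh⟩ := sym_split Δ 2 (fun e => A 0 e + A' 0 e) (by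
        intro e he hl
        have e1 := h0 e he hl
        have e2 := h0' e he hl
        have e3 : (A 0 e + A' 0 e) + (A 0 e.swap + A' 0 e.swap) = 0 := by
          calc (A 0 e + A' 0 e) + (A 0 e.swap + A' 0 e.swap)
              = (A 0 e + A 0 e.swap) + (A' 0 e + A' 0 e.swap) := by ring
            _ = 1 + 1 := by rw [e1, e2]
            _ = 0 := K2_self 1
        exact CharTwo.add_eq_zero.1 e3)
      refine ⟨h, fun _ => 0, ?_⟩
      intro e he hl
      have hc : cov (fun _ : Pr n => (0 : ZMod 2)) e = 0 := by simp [cov]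
      rw [hc, zero_add]
      exact hh e he hl
    | succ m ih =>
      intro hm
      obtain ⟨h, h', hh⟩ := ih (by omega)
      obtain ⟨h2, hh2⟩ := sym_split Δ (m + 3) (fun e => (A (m + 1) e + A' (m + 1) e) + cov h e) (by
        intro e he hl
        have e1 := h1 m (by omega) e he hl
        have e2 := h1' m (by omega) e he hl
        have e3 : cov (fun x => A m x + A' m x) e = cov (fun x => cov h' x + (h x + h x.swap)) e := by
          refine cov_congr Δ hD _ _ e he ?_
          intro e' he' hl' _ _
          exact hh e' he' (by omega)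
        rw [cov_add, cov_add, cov_add, cov_swap, cov_cov h' e he.2.2.1 he.2.2.2.1, e1, e2] at e3
        have e4 : (A (m + 1) e + A' (m + 1) e + cov h e) +
            (A (m + 1) e.swap + A' (m + 1) e.swap + cov h e.swap) = 0 := by
          calc (A (m + 1) e + A' (m + 1) e + cov h e) +
                (A (m + 1) e.swap + A' (m + 1) e.swap + cov h e.swap)
              = (A (m + 1) e + A (m + 1) e.swap + (A' (m + 1) e + A' (m + 1) e.swap)) +
                (cov h e + cov h e.swap) := by ring
            _ = (0 + (cov h e + cov h e.swap)) + (cov h e + cov h e.swap) := by rw [e3]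
            _ = 0 := by rw [zero_add]; exact K2_self _
        exact CharTwo.add_eq_zero.1 e4)
      refine ⟨h2, h, ?_⟩
      intro e he hl
      have e5 : A (m + 1) e + A' (m + 1) e + cov h e = h2 e + h2 e.swap := hh2 e he hl
      rw [← e5]
      calc A (m + 1) e + A' (m + 1) e
          = A (m + 1) e + A' (m + 1) e + 0 := by rw [add_zero]
        _ = A (m + 1) e + A' (m + 1) e + (cov h e + cov h e) := by rw [K2_self (cov h e)]
        _ = cov h e + (A (m + 1) e + A' (m + 1) e + cov h e) := by ring
  obtain ⟨h, h', hh⟩ := key d le_rfl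
  refine ⟨h', ?_⟩
  intro e he hl
  have e1 := hh e he hl
  have e2 := hh e.swap (K2_swapOK he) (by rw [K2_lev]; exact hl)
  rw [Prod.swap_swap] at e2
  rw [cov_add, cov_swap]
  calc A d e + A d e.swap + A' d e + A' d e.swap
      = (A d e + A' d e) + (A d e.swap + A' d e.swap) := by ring
    _ = (cov h' e + (h e + h e.swap)) + (cov h' e.swap + (h e.swap + h e)) := by rw [e1, e2]
    _ = (cov h' e + cov h' e.swap) + ((h e + h e.swap) + (h e + h e.swap)) := by ring
    _ = cov h' e + cov h' e.swap := by rw [K2_self (h e + h e.swap), add_zero]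

end MP528
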