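import Pool.Agent.Lib.MP_528ca9_co.KDefs

namespace MP528

open Finset

/-- the `j`-th equation -/
noncomputable def K3_S {N : ℕ} (z : Fin N → ℕ → ℝ) (c : Fin N → ℝ) (j : ℕ) : ℝ := ∑ s, c s * z s j

theorem K3_S_lin {N : ℕ} (z : Fin N → ℕ → ℝ) (c v : Fin N → ℝ) (a t : ℝ) (j : ℕ) :
    K3_S z (fun s => a * c s + t * v s) j = a * K3_S z c j + t * K3_S z v j := by
  simp only [K3_S, add_mul, Finset.sum_add_distrib, Finset.mul_sum, mul_assoc]

theorem K3_card {N : ℕ} {c : Fin N → ℝ} (S : Finset (Fin N)) (h : ∀ s ∈ S, c s = 0) :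
    Nat.card {s // c s ≠ 0} ≤ N - S.card := by
  classical
  rw [Nat.card_eq_fintype_card, Fintype.card_subtype]
  have hsub : (univ.filter fun s => c s ≠ 0) ⊆ univ \ S := by
    intro s hs
    rw [mem_sdiff]
    exact ⟨mem_univ _, fun h' => (mem_filter.1 hs).2 (h s h')⟩
  refine (card_le_card hsub).trans ?_
  rw [card_sdiff_of_subset (subset_univ _), card_univ, Fintype.card_fin]

theorem K3_two {m : ℕ} {z : Fin (m + 2) → ℕ → ℝ} (h1 : Gp z m) {c : Fin (m + 2) → ℝ}
    (hc : ∀ j < m, K3_S z c j = 0) {s t : Fin (m + 2)} (hst : s ≠ t) (hs : c s = 0)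
    (ht : c t = 0) : ∀ r, c r = 0 := by
  refine h1 c ?_ hc
  have := K3_card (c := c) {s, t} (by
    intro r hr
    rw [mem_insert, mem_singleton] at hr
    rcases hr with rfl | rfl
    · exact hs
    · exact ht)
  rw [card_pair hst] at this
  exact this

theorem K3_one {m : ℕ} {z : Fin (m + 2) → ℕ → ℝ} (h2 : Gp z (m + 1)) {c : Fin (m + 2) → ℝ}
    (hc : ∀ j < m + 1, K3_S z c j = 0) {s : Fin (m + 2)} (hs : c s = 0) : ∀ r, c r = 0 := by
  refine h2 c ?_ hc
  have := K3_card (c := c) {s} (by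
    intro r hr
    rw [mem_singleton] at hr
    rw [hr]; exact hs)
  rw [card_singleton] at this
  exact this

theorem K3_NI {m : ℕ} (z : Fin (m + 2) → ℕ → ℝ) (s : Fin (m + 2)) :
    NI m (fun i => z (s.succAbove i)) ↔ ∃ c : Fin (m + 2) → ℝ, c s = 0 ∧ (∀ t, t ≠ s → 0 < c t) ∧
      (∀ j < m, K3_S z c j = 0) ∧ 0 < K3_S z c m := by
  constructor
  · rintro ⟨c, hc, hj, hm⟩
    refine ⟨s.insertNth 0 c, by simp, ?_, ?_, ?_⟩
    · intro t ht
      obtain ⟨i, rfl⟩ := Fin.exists_succAbove_eq ht
      simpa using hc i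
    · intro j hjm
      rw [K3_S, Fin.sum_univ_succAbove _ s]
      simpa using hj j hjm
    · rw [K3_S, Fin.sum_univ_succAbove _ s]
      simpa using hm
  · rintro ⟨c, hs, hc, hj, hm⟩
    refine ⟨fun i => c (s.succAbove i), fun i => hc _ (Fin.succAbove_ne s i), ?_, ?_⟩
    · intro j hjm
      have := hj j hjm
      rw [K3_S, Fin.sum_univ_succAbove _ s, hs, zero_mul, zero_add] at this
      exact this
    · rw [K3_S, Fin.sum_univ_succAbove _ s, hs, zero_mul, zero_add] at hm
      exact hm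

/-- an admissible vector vanishing at `t` -/
theorem K3_ex {m : ℕ} (z : Fin (m + 2) → ℕ → ℝ) (t : Fin (m + 2)) :
    ∃ b : Fin (m + 2) → ℝ, b ≠ 0 ∧ b t = 0 ∧ ∀ j < m, K3_S z b j = 0 := by
  obtain ⟨f, hf⟩ : ∃ f : (Fin (m + 2) → ℝ) →ₗ[ℝ] (Fin (m + 1) → ℝ),
      ∀ b, f b = Fin.cons (b t) (fun j : Fin m => K3_S z b j) := by
    refine ⟨{ toFun := fun b => Fin.cons (b t) (fun j : Fin m => K3_S z b j)
              map_add' := ?_, map_smul' := ?_ }, fun b => rfl⟩
    · intro b b'
      funext i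
      refine Fin.cases ?_ (fun j => ?_) i
      · simp
      · simp [K3_S, add_mul, Finset.sum_add_distrib]
    · intro a b
      funext i
      refine Fin.cases ?_ (fun j => ?_) i
      · simp
      · simp [K3_S, Finset.mul_sum, mul_assoc]
  have hk : LinearMap.ker f ≠ ⊥ := by
    refine LinearMap.ker_ne_bot_of_finrank_lt ?_
    simp
  obtain ⟨b, hb, hb0⟩ := (Submodule.ne_bot_iff _).1 hk
  have hfb : f b = 0 := hb
  rw [hf] at hfb
  refine ⟨b, hb0, ?_, ?_⟩
  · have := congrFun hfb 0
    simpa using this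
  · intro j hj
    have := congrFun hfb (Fin.succ ⟨j, hj⟩)
    rw [Fin.cons_succ] at this
    exact this

/-- small perturbation -/
theorem K3_eps {N : ℕ} {c v : Fin N → ℝ} (h : ∀ r, 0 < c r ∨ (c r = 0 ∧ 0 < v r)) :
    ∃ ε : ℝ, 0 < ε ∧ ∀ r, 0 < c r + ε * v r := by
  have hev : ∀ r, ∀ᶠ ε in nhdsWithin (0 : ℝ) (Set.Ioi 0), 0 < c r + ε * v r := by
    intro r
    rcases h r with h | ⟨h, h'⟩
    · have hcont : Continuous fun ε : ℝ => c r + ε * v r := by fun_prop
      have h0 : 0 < c r + 0 * v r := by simpa using h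
      have := (hcont.tendsto 0).eventually (lt_mem_nhds h0)
      exact this.filter_mono nhdsWithin_le_nhds
    · filter_upwards [self_mem_nhdsWithin] with ε hε
      rw [h, zero_add]
      exact mul_pos hε h'
  have := (Filter.eventually_all.2 hev).and self_mem_nhdsWithin
  obtain ⟨ε, h1, h2⟩ := this.exists
  exact ⟨ε, h2, h1⟩

/-- first zero in the direction `v` -/
theorem K3_min {N : ℕ} {c v : Fin N → ℝ} (hc : ∀ s, 0 < c s) (hv : ∃ s, v s < 0) :
    ∃ t : ℝ, ∃ s1, 0 < t ∧ v s1 < 0 ∧ c s1 + t * v s1 = 0 ∧ ∀ s, 0 ≤ c s + t * v s := by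
  classical
  obtain ⟨s0, hs0⟩ := hv
  obtain ⟨s1, h1, h2⟩ := Finset.exists_min_image (univ.filter fun s => v s < 0)
    (fun s => c s / (-v s)) ⟨s0, by simp [hs0]⟩
  rw [mem_filter] at h1
  have hn : 0 < -v s1 := by linarith [h1.2]
  refine ⟨c s1 / (-v s1), s1, div_pos (hc _) hn, h1.2, ?_, fun s => ?_⟩
  · have hne : v s1 ≠ 0 := by linarith [h1.2]
    field_simp
    ring
  · rcases lt_or_ge (v s) 0 with h | h
    · have h3 := h2 s (by simp [h])
      have hns : 0 < -v s := by linarith
      rw [le_div_iff₀ hns] at h3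
      linarith
    · have h3 : 0 ≤ c s1 / (-v s1) * v s := mul_nonneg (div_pos (hc _) hn).le h
      linarith [hc s]

/-- the end of the segment in the direction `v` -/
theorem K3_side {m : ℕ} {z : Fin (m + 2) → ℕ → ℝ} (h1 : Gp z m) (h2 : Gp z (m + 1))
    {c v : Fin (m + 2) → ℝ} (hc : ∀ s, 0 < c s) (hca : ∀ j < m, K3_S z c j = 0)
    (hva : ∀ j < m, K3_S z v j = 0) (hv0 : ∑ s, v s = 0) (hv : ∃ s, v s < 0) :
    ∃ t : ℝ, ∃ s1, 0 < t ∧ v s1 < 0 ∧ c s1 + t * v s1 = 0 ∧ (∀ s, s ≠ s1 → 0 < c s + t * v s) ∧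
      (∀ j < m, K3_S z (fun s => c s + t * v s) j = 0) ∧
      K3_S z (fun s => c s + t * v s) m ≠ 0 := by
  obtain ⟨t, s1, ht, hs1, h0, hle⟩ := K3_min hc hv
  have hadm : ∀ j < m, K3_S z (fun s => c s + t * v s) j = 0 := by
    intro j hj
    have := K3_S_lin z c v 1 t j
    simp only [one_mul] at this
    rw [this, hca j hj, hva j hj, mul_zero, add_zero]
  have hsum : ∑ s, (c s + t * v s) ≠ 0 := by
    rw [Finset.sum_add_distrib, ← Finset.mul_sum, hv0, mul_zero, add_zero]
    exact (Finset.sum_pos (fun s _ => hc s) ⟨0, mem_univ _⟩).ne'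
  refine ⟨t, s1, ht, hs1, h0, fun s hs => ?_, hadm, fun hm => ?_⟩
  · refine lt_of_le_of_ne (hle s) fun h => hsum ?_
    have := K3_two (c := fun s => c s + t * v s) h1 hadm hs h.symm h0
    exact Finset.sum_eq_zero fun s _ => this s
  · refine hsum ?_
    have := K3_one (c := fun s => c s + t * v s) h2 (fun j hj => by
      rcases Nat.lt_succ_iff_lt_or_eq.1 hj with h | h
      · exact hadm j h
      · rw [h]; exact hm) h0
    exact Finset.sum_eq_zero fun s _ => this s

/-- the admissible vectors are spanned by `c` and `v` -/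
theorem K3_span {m : ℕ} {z : Fin (m + 2) → ℕ → ℝ} (h1 : Gp z m)
    {c v : Fin (m + 2) → ℝ} (hc : ∀ s, 0 < c s) (hca : ∀ j < m, K3_S z c j = 0)
    (hva : ∀ j < m, K3_S z v j = 0) (hv0 : ∑ s, v s = 0) (hv : ∃ s, v s < 0)
    {c' : Fin (m + 2) → ℝ} (hc'a : ∀ j < m, K3_S z c' j = 0) :
    ∃ β : ℝ, ∀ s, c' s = (∑ s, c' s) / (∑ s, c s) * c s + β * v s := by
  have hC : 0 < ∑ s, c s := Finset.sum_pos (fun s _ => hc s) ⟨0, mem_univ _⟩
  obtain ⟨α, hα⟩ : ∃ α, α = (∑ s, c' s) / (∑ s, c s) := ⟨_, rfl⟩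
  obtain ⟨t, ht⟩ := hv
  obtain ⟨β, hβ⟩ : ∃ β, β = (c' t - α * c t) / v t := ⟨_, rfl⟩
  refine ⟨β, ?_⟩
  rw [← hα]
  obtain ⟨u, hu⟩ : ∃ u : Fin (m + 2) → ℝ, ∀ s, u s = c' s - α * c s - β * v s :=
    ⟨fun s => c' s - α * c s - β * v s, fun _ => rfl⟩
  have hut : u t = 0 := by
    rw [hu, hβ, div_mul_cancel₀ _ ht.ne]; ring
  have hua : ∀ j < m, K3_S z u j = 0 := by
    intro j hj
    have e : u = fun s => 1 * (fun r => 1 * c' r + (-α) * c r) s + (-β) * v s := by
      funext s; rw [hu]; ring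
    rw [e, K3_S_lin, K3_S_lin, hc'a j hj, hca j hj, hva j hj]; ring
  have hus : ∑ s, u s = 0 := by
    have e : ∑ s, u s = (∑ s, c' s) - α * (∑ s, c s) - β * ∑ s, v s := by
      rw [Finset.mul_sum, Finset.mul_sum, ← Finset.sum_sub_distrib, ← Finset.sum_sub_distrib]
      exact Finset.sum_congr rfl fun s _ => hu s
    rw [e, hv0, hα, div_mul_cancel₀ _ hC.ne']; ring
  have hzero : ∀ s, u s = 0 := by
    by_contra hcon
    obtain ⟨s, hst⟩ := exists_ne t
    have hus0 : u s ≠ 0 := fun h => hcon (K3_two h1 hua hst h hut)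
    obtain ⟨y, hy⟩ : ∃ y : Fin (m + 2) → ℝ, ∀ r, y r = c r - c t / v t * v r -
        (c s - c t / v t * v s) / u s * u r := ⟨_, fun _ => rfl⟩
    have hyt : y t = 0 := by
      rw [hy, hut, div_mul_cancel₀ _ ht.ne]; ring
    have hys : y s = 0 := by
      rw [hy, div_mul_cancel₀ _ hus0]; ring
    have hya : ∀ j < m, K3_S z y j = 0 := by
      intro j hj
      have e : y = fun r => 1 * (fun r => 1 * c r + (-(c t / v t)) * v r) r +
          (-((c s - c t / v t * v s) / u s)) * u r := by
        funext r; rw [hy]; ring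
      rw [e, K3_S_lin, K3_S_lin, hca j hj, hva j hj, hua j hj]; ring
    have hy0 := K3_two h1 hya hst hys hyt
    have e : ∑ r, y r = (∑ r, c r) - c t / v t * (∑ r, v r) -
        (c s - c t / v t * v s) / u s * ∑ r, u r := by
      rw [Finset.mul_sum, Finset.mul_sum, ← Finset.sum_sub_distrib, ← Finset.sum_sub_distrib]
      exact Finset.sum_congr rfl fun r _ => hy r
    rw [Finset.sum_eq_zero fun r _ => hy0 r, hv0, hus] at e
    linarith
  intro s
  have h3 := hzero s
  rw [hu] at h3
  linarith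

/-- a boundary ray in the direction `v` -/
theorem K3_ray {N : ℕ} {c v c' : Fin N → ℝ} {t α β : ℝ} {s s1 : Fin N}
    (hc : ∀ s, 0 < c s) (hs1 : v s1 < 0) (h0 : c s1 + t * v s1 = 0)
    (hpos : ∀ s, s ≠ s1 → 0 < c s + t * v s) (hα : 0 < α) (hβ : 0 < β)
    (hc' : ∀ r, c' r = α * c r + β * v r) (hs : c' s = 0) (hge : ∀ r, r ≠ s → 0 < c' r) :
    s = s1 ∧ ∀ r, c' r = α * (c r + t * v r) := by
  have hvs : v s < 0 := by
    rw [hc'] at hs
    have := mul_pos hα (hc s)
    by_contra h
    have h3 : 0 ≤ β * v s := mul_nonneg hβ.le (not_lt.1 h)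
    linarith
  have hes : 0 ≤ c s + t * v s := by
    by_cases h : s = s1
    · rw [h, h0]
    · exact (hpos s h).le
  have hc1 : 0 ≤ c' s1 := by
    by_cases h : s1 = s
    · rw [h, hs]
    · exact (hge s1 h).le
  have k1 : β ≤ α * t := by
    rw [hc'] at hc1
    have e : c s1 = -(t * v s1) := by linarith
    rw [e] at hc1
    by_contra h
    have h3 : (β - α * t) * v s1 < 0 := mul_neg_of_pos_of_neg (by linarith) hs1
    nlinarith
  have k2 : α * t ≤ β := by
    rw [hc'] at hs
    by_contra h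
    have h3 : (α * t - β) * v s < 0 := mul_neg_of_pos_of_neg (by linarith) hvs
    have h4 : 0 ≤ α * (c s + t * v s) := mul_nonneg hα.le hes
    nlinarith
  have k3 : β = α * t := le_antisymm k1 k2
  have hall : ∀ r, c' r = α * (c r + t * v r) := by
    intro r; rw [hc', k3]; ring
  refine ⟨?_, hall⟩
  by_contra h
  have h3 := hpos s h
  have h4 := hall s
  rw [hs] at h4
  have := mul_pos hα h3
  linarith

theorem K3_ind_true {p : Prop} (h : p) : ind p = 1 := by simp [ind, h]

theorem K3_ind_false {p : Prop} (h : ¬ p) : ind p = 0 := by simp [ind, h]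

/-- the main case -/
theorem K3_main (m : ℕ) (z : Fin (m + 2) → ℕ → ℝ) (h1 : Gp z m) (h2 : Gp z (m + 1))
    {c v : Fin (m + 2) → ℝ} (hc : ∀ s, 0 < c s) (hca : ∀ j < m, K3_S z c j = 0)
    (hva : ∀ j < m, K3_S z v j = 0) (hv0 : ∑ s, v s = 0) (hv : ∃ s, v s < 0)
    (hv' : ∃ s, 0 < v s) :
    ∑ s : Fin (m + 2), ind (NI m (fun i => z (s.succAbove i))) =
      ind (∃ c : Fin (m + 2) → ℝ, (∀ s, 0 < c s) ∧ ∀ j < m + 1, ∑ s, c s * z s j = 0) := by
  classical
  have hC : 0 < ∑ s, c s := Finset.sum_pos (fun s _ => hc s) ⟨0, mem_univ _⟩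
  have hna : ∀ j < m, K3_S z (fun s => -v s) j = 0 := by
    intro j hj
    have e : (fun s => -v s) = fun s => (-1) * v s + 0 * v s := by funext s; ring
    rw [e, K3_S_lin, hva j hj]; ring
  have hn0 : ∑ s, -v s = 0 := by rw [Finset.sum_neg_distrib, hv0, neg_zero]
  obtain ⟨t1, s1, ht1, hs1, z1, p1, a1, f1⟩ := K3_side h1 h2 hc hca hva hv0 hv
  obtain ⟨t2, s2, ht2, hs2, z2, p2, a2, f2⟩ := K3_side h1 h2 hc hca hna hn0 (by
    obtain ⟨s, hs⟩ := hv'
    exact ⟨s, by linarith⟩)
  have hne : s1 ≠ s2 := by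
    rintro rfl
    linarith
  have hs2' : 0 < v s2 := by linarith
  have hspan : ∀ c' : Fin (m + 2) → ℝ, (∀ j < m, K3_S z c' j = 0) → 0 < ∑ s, c' s →
      ∃ α β : ℝ, 0 < α ∧ ∀ s, c' s = α * c s + β * v s := by
    intro c' hc'a hpos
    obtain ⟨β, hβ⟩ := K3_span h1 hc hca hva hv0 hv hc'a
    exact ⟨_, β, div_pos hpos hC, hβ⟩
  have hA : ∀ s, NI m (fun i => z (s.succAbove i)) ↔
      (s = s1 ∧ 0 < K3_S z (fun s => c s + t1 * v s) m) ∨
      (s = s2 ∧ 0 < K3_S z (fun s => c s + t2 * -v s) m) := by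
    intro s
    rw [K3_NI]
    constructor
    · rintro ⟨c', hs, hge, hadm, hm⟩
      obtain ⟨r, hr⟩ := exists_ne s
      have hsum : 0 < ∑ s, c' s := by
        refine Finset.sum_pos' (fun r _ => ?_) ⟨r, mem_univ _, hge r hr⟩
        by_cases h : r = s
        · rw [h, hs]
        · exact (hge r h).le
      obtain ⟨α, β, hα, hαβ⟩ := hspan c' hadm hsum
      rcases lt_trichotomy β 0 with hβ | hβ | hβ
      · right
        obtain ⟨e1, e2⟩ := K3_ray (c := c) (v := fun s => -v s) (c' := c') (β := -β) hc hs2 z2 p2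
          hα (by linarith) (fun r => by rw [hαβ]; ring) hs hge
        refine ⟨e1, ?_⟩
        have e : c' = fun r => α * (fun s => c s + t2 * -v s) r +
          0 * (fun s => c s + t2 * -v s) r := by
          funext r; rw [e2]; ring
        rw [e, K3_S_lin, zero_mul, add_zero] at hm
        exact (mul_pos_iff_of_pos_left hα).1 hm
      · exfalso
        have h3 := hαβ s
        rw [hs, hβ, zero_mul, add_zero] at h3
        have := mul_pos hα (hc s)
        linarith
      · left
        obtain ⟨e1, e2⟩ := K3_ray (c := c) (v := v) (c' := c') hc hs1 z1 p1 hα hβ hαβ hs hge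
        refine ⟨e1, ?_⟩
        have e : c' = fun r => α * (fun s => c s + t1 * v s) r +
          0 * (fun s => c s + t1 * v s) r := by
          funext r; rw [e2]; ring
        rw [e, K3_S_lin, zero_mul, add_zero] at hm
        exact (mul_pos_iff_of_pos_left hα).1 hm
    · rintro (⟨rfl, h⟩ | ⟨rfl, h⟩)
      · exact ⟨_, z1, p1, a1, h⟩
      · exact ⟨_, z2, p2, a2, h⟩
  have hB : (∃ c : Fin (m + 2) → ℝ, (∀ s, 0 < c s) ∧ ∀ j < m + 1, ∑ s, c s * z s j = 0) ↔
      (0 < K3_S z (fun s => c s + t1 * v s) m ∧ K3_S z (fun s => c s + t2 * -v s) m < 0) ∨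
      (K3_S z (fun s => c s + t1 * v s) m < 0 ∧ 0 < K3_S z (fun s => c s + t2 * -v s) m) := by
    have fe1 : K3_S z (fun s => c s + t1 * v s) m = K3_S z c m + t1 * K3_S z v m := by
      have := K3_S_lin z c v 1 t1 m
      simpa only [one_mul] using this
    have fe2 : K3_S z (fun s => c s + t2 * -v s) m = K3_S z c m - t2 * K3_S z v m := by
      have e : (fun s => c s + t2 * -v s) = fun s => 1 * c s + (-t2) * v s := by
        funext s; ring
      rw [e, K3_S_lin]; ring
    constructor
    · rintro ⟨c', hc', hj⟩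
      have hsum : 0 < ∑ s, c' s := Finset.sum_pos (fun s _ => hc' s) ⟨0, mem_univ _⟩
      obtain ⟨α, β, hα, hαβ⟩ := hspan c' (fun j hjm => hj j (by omega)) hsum
      have hm0 : K3_S z c' m = 0 := hj m (Nat.lt_succ_self m)
      have e : c' = fun r => α * c r + β * v r := by funext r; rw [hαβ]
      rw [e, K3_S_lin] at hm0
      have g1 : 0 < α * t1 - β := by
        have h3 := hc' s1
        rw [hαβ] at h3
        have h4 : c s1 = -(t1 * v s1) := by linarith
        rw [h4] at h3
        by_contra h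
        have h5 : 0 ≤ (α * t1 - β) * v s1 := mul_nonneg_of_nonpos_of_nonpos (not_lt.1 h) hs1.le
        nlinarith
      have g2 : 0 < α * t2 + β := by
        have h3 := hc' s2
        rw [hαβ] at h3
        have h4 : c s2 = t2 * v s2 := by linarith
        rw [h4] at h3
        by_contra h
        have h5 : (α * t2 + β) * v s2 ≤ 0 := mul_nonpos_of_nonpos_of_nonneg (not_lt.1 h) hs2'.le
        nlinarith
      have g3 : (α * t1 - β) * K3_S z (fun s => c s + t2 * -v s) m +
          (α * t2 + β) * K3_S z (fun s => c s + t1 * v s) m = 0 := by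
        rw [fe1, fe2]
        linear_combination (t1 + t2) * hm0
      rcases lt_or_gt_of_ne f1 with h | h
      · right
        refine ⟨h, ?_⟩
        by_contra h'
        have h5 := mul_neg_of_pos_of_neg g2 h
        have h6 := mul_nonpos_of_nonneg_of_nonpos g1.le (not_lt.1 h')
        linarith
      · left
        refine ⟨h, ?_⟩
        by_contra h'
        have h5 := mul_pos g2 h
        have h6 := mul_nonneg g1.le (not_lt.1 h')
        linarith
    · intro hopp
      have hgen : ∀ a b : ℝ, 0 < a → 0 < b →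
          a * K3_S z (fun s => c s + t1 * v s) m + b * K3_S z (fun s => c s + t2 * -v s) m = 0 →
          ∃ c : Fin (m + 2) → ℝ, (∀ s, 0 < c s) ∧ ∀ j < m + 1, ∑ s, c s * z s j = 0 := by
        intro a b ha hb hab
        refine ⟨fun s => a * (fun s => c s + t1 * v s) s + b * (fun s => c s + t2 * -v s) s,
          fun s => ?_, fun j hj => ?_⟩
        · by_cases hs : s = s1
          · have h3 := p2 s (by rw [hs]; exact hne)
            have h4 : c s + t1 * v s = 0 := by rw [hs]; exact z1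
            simp only [h4, mul_zero, zero_add]
            exact mul_pos hb h3
          · have h3 := p1 s hs
            have h4 : 0 ≤ c s + t2 * -v s := by
              by_cases hs' : s = s2
              · rw [hs', z2]
              · exact (p2 s hs').le
            have h5 := mul_pos ha h3
            have h6 := mul_nonneg hb.le h4
            simp only
            linarith
        · change K3_S z _ j = 0
          rw [K3_S_lin]
          rcases Nat.lt_succ_iff_lt_or_eq.1 hj with h | h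
          · rw [a1 j h, a2 j h]; ring
          · rw [h]; exact hab
      rcases hopp with ⟨h3, h4⟩ | ⟨h3, h4⟩
      · exact hgen (-K3_S z (fun s => c s + t2 * -v s) m) (K3_S z (fun s => c s + t1 * v s) m)
          (by linarith) h3 (by ring)
      · exact hgen (K3_S z (fun s => c s + t2 * -v s) m) (-K3_S z (fun s => c s + t1 * v s) m)
          h4 (by linarith) (by ring)
  have hL : ∀ s, ind (NI m (fun i => z (s.succAbove i))) =
      (if s = s1 then ind (0 < K3_S z (fun s => c s + t1 * v s) m) else 0) +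
      (if s = s2 then ind (0 < K3_S z (fun s => c s + t2 * -v s) m) else 0) := by
    intro s
    by_cases e1 : s = s1
    · have e2 : s ≠ s2 := by rw [e1]; exact hne
      rw [if_pos e1, if_neg e2, add_zero]
      by_cases h : 0 < K3_S z (fun s => c s + t1 * v s) m
      · rw [K3_ind_true h, K3_ind_true ((hA s).2 (Or.inl ⟨e1, h⟩))]
      · rw [K3_ind_false h, K3_ind_false]
        intro h'
        rcases (hA s).1 h' with h3 | h3
        · exact h h3.2
        · exact e2 h3.1
    · rw [if_neg e1, zero_add]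
      by_cases e2 : s = s2
      · rw [if_pos e2]
        by_cases h : 0 < K3_S z (fun s => c s + t2 * -v s) m
        · rw [K3_ind_true h, K3_ind_true ((hA s).2 (Or.inr ⟨e2, h⟩))]
        · rw [K3_ind_false h, K3_ind_false]
          intro h'
          rcases (hA s).1 h' with h3 | h3
          · exact e1 h3.1
          · exact h h3.2
      · rw [if_neg e2, K3_ind_false]
        intro h'
        rcases (hA s).1 h' with h3 | h3
        · exact e1 h3.1
        · exact e2 h3.1
  rw [Finset.sum_congr rfl fun s _ => hL s, Finset.sum_add_distrib, Finset.sum_ite_eq',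
    Finset.sum_ite_eq', if_pos (mem_univ _), if_pos (mem_univ _)]
  rcases lt_or_gt_of_ne f1 with g1 | g1 <;> rcases lt_or_gt_of_ne f2 with g2 | g2
  · rw [K3_ind_false (not_lt.2 g1.le), K3_ind_false (not_lt.2 g2.le), K3_ind_false, add_zero]
    intro h
    rcases hB.1 h with h3 | h3
    · linarith [h3.1]
    · linarith [h3.2]
  · rw [K3_ind_false (not_lt.2 g1.le), K3_ind_true g2, K3_ind_true (hB.2 (Or.inr ⟨g1, g2⟩)),
      zero_add]
  · rw [K3_ind_true g1, K3_ind_false (not_lt.2 g2.le), K3_ind_true (hB.2 (Or.inl ⟨g1, g2⟩)),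
      add_zero]
  · rw [K3_ind_true g1, K3_ind_true g2, K3_ind_false]
    · decide
    · intro h
      rcases hB.1 h with h3 | h3
      · linarith [h3.2]
      · linarith [h3.1]

/-- ROW K3a. Index lemma.
Proof. Call `c : Fin (m+2) → ℝ` admissible if `∑ c_s z_s j = 0` for all `j < m`, and
`φ c = ∑ c_s z_s m`. (i) Suppose there is an admissible `c > 0` (all coordinates). The space `K` of
admissible vectors has dimension `≥ 2` (`m` equations, `m + 2` unknowns), so there is a nonzero
admissible `v` with `∑_s v_s = 0`... (dimension `≥ 1` left after one more equation; `v ≠ 0`), it has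
positive and negative coordinates. Let `t1 = min {c_s / (-v_s) : v_s < 0}` and
`t2 = min {c_s / v_s : v_s > 0}`. `c + t1 v ≥ 0` and `c - t2 v ≥ 0`; each is nonzero (coordinate
sum unchanged) and has exactly one vanishing coordinate by `h1` (`Gp z m`: two vanishing coordinates
leave support `≤ m`). Call these coordinates `s1` and `s2`; `s1 ≠ s2` as `v_{s1} < 0 < v_{s2}`. If
`c'` is admissible, `c'_s = 0` and the others are `> 0` then `s = s1` or `s = s2` and `c'` is a
multiple of `c + t1 v` resp. `c - t2 v`: (the admissible vectors vanishing at `s` form a line by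
`h1`; more precisely if `s ≠ s1, s2`: `c' ` and `c` span with `v` ... use that `K` is 2-dimensional:
three admissible vectors `c, v, c'`: some nontrivial combination vanishes at two coordinates, hence
is zero, so `c' = α c + β v`, `α > 0` by the coordinate sum, `c'/α = c + (β/α) v ≥ 0` forces
`-t2 ≤ β/α ≤ t1` and a vanishing coordinate forces `β/α = t1` or `-t2`.)
So the left side of the claim is `[φ(c + t1 v) > 0] + [φ(c - t2 v) > 0]`; both values are nonzero by
`h2` (support `≤ m+1`, so `∑ .. = 0` for all `j ≤ m` would give zero). The function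
`t ↦ φ(c + t v)` is affine: it has a zero in `(-t2, t1)` iff the two signs differ. A positive
`c'` with `∑ c' z j = 0` for all `j ≤ m` is (up to scaling) `c + t v` with `t ∈ (-t2,t1)`.
(ii) Suppose there is no admissible `c > 0`. Then both sides vanish: if `c'` is admissible with
`c'_s = 0` and the others `> 0`, take an admissible `v` with `v_s ≠ 0` (exists: `K` has dimension
`≥ 2` and the vectors vanishing at `s` and at another coordinate are zero, so not all of `K`
vanishes at `s`) and `c' ± ε v > 0`.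
Remark: `NI m (z ∘ s.succAbove)` means: there is an admissible `c'` with `c'_s = 0`, others
`> 0`, `φ c' > 0` (`Fin.sum_univ_succAbove`). -/
theorem index_lemma (m : ℕ) (z : Fin (m + 2) → ℕ → ℝ) (h1 : Gp z m) (h2 : Gp z (m + 1)) :
    ∑ s : Fin (m + 2), ind (NI m (fun i => z (s.succAbove i))) =
      ind (∃ c : Fin (m + 2) → ℝ, (∀ s, 0 < c s) ∧ ∀ j < m + 1, ∑ s, c s * z s j = 0) := by
  by_cases hex : ∃ c : Fin (m + 2) → ℝ, (∀ s, 0 < c s) ∧ ∀ j < m, K3_S z c j = 0
  · obtain ⟨c, hc, hca⟩ := hex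
    have hC : 0 < ∑ s, c s := Finset.sum_pos (fun s _ => hc s) ⟨0, mem_univ _⟩
    obtain ⟨b, hb0, hb00, hba⟩ := K3_ex z 0
    obtain ⟨v, hv⟩ : ∃ v : Fin (m + 2) → ℝ, ∀ s, v s = (∑ s, c s) * b s + (-∑ s, b s) * c s :=
      ⟨_, fun _ => rfl⟩
    have hva : ∀ j < m, K3_S z v j = 0 := by
      intro j hj
      have e : v = fun s => (∑ s, c s) * b s + (-∑ s, b s) * c s := by funext s; rw [hv]
      rw [e, K3_S_lin, hba j hj, hca j hj]; ring
    have hv0 : ∑ s, v s = 0 := by
      have e : ∑ s, v s = (∑ s, c s) * (∑ s, b s) + (-∑ s, b s) * (∑ s, c s) := by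
        rw [Finset.mul_sum, Finset.mul_sum, ← Finset.sum_add_distrib]
        exact Finset.sum_congr rfl fun s _ => hv s
      rw [e]; ring
    have hvne : ∃ s, v s ≠ 0 := by
      by_contra hcon
      push Not at hcon
      have hB0 : ∑ s, b s = 0 := by
        by_contra hB
        have h3 := hcon 0
        rw [hv, hb00, mul_zero, zero_add] at h3
        rcases mul_eq_zero.1 h3 with h | h
        · exact hB (neg_eq_zero.1 h)
        · exact (hc 0).ne' h
      apply hb0
      funext s
      have h3 := hcon s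
      rw [hv, hB0, neg_zero, zero_mul, add_zero] at h3
      rcases mul_eq_zero.1 h3 with h | h
      · exact absurd h hC.ne'
      · exact h
    have hneg : ∃ s, v s < 0 := by
      by_contra hcon
      push Not at hcon
      obtain ⟨s, hs⟩ := hvne
      exact hs ((Finset.sum_eq_zero_iff_of_nonneg fun s _ => hcon s).1 hv0 s (mem_univ _))
    have hpos : ∃ s, 0 < v s := by
      by_contra hcon
      push Not at hcon
      obtain ⟨s, hs⟩ := hvne
      exact hs ((Finset.sum_eq_zero_iff_of_nonpos fun s _ => hcon s).1 hv0 s (mem_univ _))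
    exact K3_main m z h1 h2 hc hca hva hv0 hneg hpos
  · have hR : ¬ ∃ c : Fin (m + 2) → ℝ, (∀ s, 0 < c s) ∧ ∀ j < m + 1, ∑ s, c s * z s j = 0 := by
      rintro ⟨c, hc, hj⟩
      exact hex ⟨c, hc, fun j hjm => hj j (by omega)⟩
    rw [K3_ind_false hR]
    refine Finset.sum_eq_zero fun s _ => K3_ind_false ?_
    rw [K3_NI]
    rintro ⟨c', hs, hge, hadm, -⟩
    obtain ⟨t, ht⟩ := exists_ne s
    obtain ⟨b, hb0, hbt, hba⟩ := K3_ex z t
    have hbs : b s ≠ 0 := fun h => hb0 (funext (K3_two h1 hba ht hbt h))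
    obtain ⟨v, hvs, hva⟩ : ∃ v : Fin (m + 2) → ℝ, 0 < v s ∧ ∀ j < m, K3_S z v j = 0 := by
      rcases lt_or_gt_of_ne hbs with h | h
      · refine ⟨fun r => (-1) * b r + 0 * b r, by simp only; linarith, fun j hj => ?_⟩
        rw [K3_S_lin, hba j hj]; ring
      · exact ⟨b, h, hba⟩
    obtain ⟨ε, -, hε⟩ := K3_eps (c := c') (v := v) (fun r => by
      by_cases h : r = s
      · right; rw [h]; exact ⟨hs, hvs⟩
      · left; exact hge r h)
    refine hex ⟨fun r => 1 * c' r + ε * v r, fun r => by simpa using hε r, fun j hj => ?_⟩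
    rw [K3_S_lin, hadm j hj, hva j hj]; ring

end MP528
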