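import Pool.Agent.Lib.MP_528ca9_co.KDefs

namespace MP528

open Finset

/-- ROW K3b. Proof: for a positive `c` with vanishing coordinates `j < m+1` the coordinate `m+1` is
nonzero by `h3` (support `= m+2`). It cannot be positive for one such `c` and negative for another
`c'`: choose `t > 0` with `c - t c' ≥ 0` having a vanishing coordinate; by `h2` it is zero, so the
two are proportional. -/
theorem index_split (m : ℕ) (z : Fin (m + 2) → ℕ → ℝ) (h2 : Gp z (m + 1)) (h3 : Gp z (m + 2)) :
    ind (∃ c : Fin (m + 2) → ℝ, (∀ s, 0 < c s) ∧ ∀ j < m + 1, ∑ s, c s * z s j = 0) =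
      ind (NI (m + 1) z) + ind (NI (m + 1) (fun s j => - z s j)) := by
  classical
  have key1 : ∀ c : Fin (m + 2) → ℝ, (∀ s, 0 < c s) → (∀ j < m + 1, ∑ s, c s * z s j = 0) →
      ∑ s, c s * z s (m + 1) ≠ 0 := by
    intro c hc h0 h1
    have hcard : Nat.card {s // c s ≠ 0} ≤ m + 2 := by
      rw [Nat.card_eq_fintype_card]
      refine (Fintype.card_subtype_le _).trans ?_
      simp
    have := h3 c hcard (by
      intro j hj
      rcases Nat.lt_succ_iff_lt_or_eq.mp hj with h | h
      · exact h0 j h
      · rw [h]; exact h1) 0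
    exact absurd this (ne_of_gt (hc 0))
  have key2 : ¬ (NI (m + 1) z ∧ NI (m + 1) (fun s j => - z s j)) := by
    rintro ⟨⟨c, hc, hc0, hc1⟩, ⟨c', hc', hc0', hc1'⟩⟩
    have e1 : ∀ j, ∑ s, c' s * -z s j = - ∑ s, c' s * z s j := by
      intro j
      rw [← Finset.sum_neg_distrib]
      exact Finset.sum_congr rfl (fun s _ => by ring)
    have hc0'' : ∀ j < m + 1, ∑ s, c' s * z s j = 0 := by
      intro j hj
      have := hc0' j hj
      rw [e1] at this
      linarith
    have hc1'' : ∑ s, c' s * z s (m + 1) < 0 := by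
      rw [e1] at hc1'
      linarith
    set t : ℝ := c 0 / c' 0 with ht
    have htpos : 0 < t := div_pos (hc 0) (hc' 0)
    have hsum : ∀ j, ∑ s, (c s - t * c' s) * z s j = ∑ s, c s * z s j - t * ∑ s, c' s * z s j := by
      intro j
      rw [Finset.mul_sum, ← Finset.sum_sub_distrib]
      exact Finset.sum_congr rfl (fun s _ => by ring)
    have hz : c 0 - t * c' 0 = 0 := by
      rw [ht, div_mul_cancel₀ _ (ne_of_gt (hc' 0)), sub_self]
    have hcard : Nat.card {s // (fun s => c s - t * c' s) s ≠ 0} ≤ m + 1 := by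
      rw [Nat.card_eq_fintype_card]
      have : Fintype.card {s // (fun s => c s - t * c' s) s ≠ 0} < Fintype.card (Fin (m + 2)) :=
        Fintype.card_subtype_lt (x := 0) (by simpa using hz)
      rw [Fintype.card_fin] at this
      omega
    have hall := h2 (fun s => c s - t * c' s) hcard (by
      intro j hj
      rw [hsum, hc0 j hj, hc0'' j hj]
      ring)
    have h0 : ∑ s, (c s - t * c' s) * z s (m + 1) = 0 := by
      refine Finset.sum_eq_zero (fun s _ => ?_)
      rw [show c s - t * c' s = 0 from hall s, zero_mul]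
    rw [hsum] at h0
    nlinarith [mul_pos htpos (neg_pos.mpr hc1'')]
  have key3 : (∃ c : Fin (m + 2) → ℝ, (∀ s, 0 < c s) ∧ ∀ j < m + 1, ∑ s, c s * z s j = 0) ↔
      (NI (m + 1) z ∨ NI (m + 1) (fun s j => - z s j)) := by
    constructor
    · rintro ⟨c, hc, h0⟩
      rcases lt_or_gt_of_ne (key1 c hc h0) with h | h
      · right
        refine ⟨c, hc, fun j hj => ?_, ?_⟩
        · have : ∑ s, c s * -z s j = - ∑ s, c s * z s j := by
            rw [← Finset.sum_neg_distrib]
            exact Finset.sum_congr rfl (fun s _ => by ring)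
          rw [this, h0 j hj, neg_zero]
        · have : ∑ s, c s * -z s (m + 1) = - ∑ s, c s * z s (m + 1) := by
            rw [← Finset.sum_neg_distrib]
            exact Finset.sum_congr rfl (fun s _ => by ring)
          rw [this]
          linarith
      · left
        exact ⟨c, hc, h0, h⟩
    · rintro (⟨c, hc, h0, _⟩ | ⟨c, hc, h0, _⟩)
      · exact ⟨c, hc, h0⟩
      · refine ⟨c, hc, fun j hj => ?_⟩
        have : ∑ s, c s * -z s j = - ∑ s, c s * z s j := by
          rw [← Finset.sum_neg_distrib]
          exact Finset.sum_congr rfl (fun s _ => by ring)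
        have h := h0 j hj
        rw [this] at h
        linarith
  unfold ind
  by_cases hA : NI (m + 1) z
  · have hB : ¬ NI (m + 1) (fun s j => - z s j) := fun h => key2 ⟨hA, h⟩
    rw [if_pos (key3.mpr (Or.inl hA)), if_pos hA, if_neg hB, add_zero]
  · by_cases hB : NI (m + 1) (fun s j => - z s j)
    · rw [if_pos (key3.mpr (Or.inr hB)), if_neg hA, if_pos hB, zero_add]
    · have hC : ¬ (∃ c : Fin (m + 2) → ℝ, (∀ s, 0 < c s) ∧ ∀ j < m + 1, ∑ s, c s * z s j = 0) :=
        fun h => (key3.mp h).elim hA hB
      rw [if_neg hC, if_neg hA, if_neg hB, add_zero]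

end MP528
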