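import Pool.Agent.Lib.MP_528ca9_co.K4def
import Pool.Agent.Lib.MP_528ca9_co.K1e
import Pool.Agent.Lib.MP_528ca9_co.K3
import Pool.Agent.Lib.MP_528ca9_co.K3b

namespace MP528

open Finset

/-- ROW K4b. Proof. `flagSum_bd` for `b F = ind (NI m (Z ∘ F))`, then `flagSum_congr` (for flags the
integrand is given by `index_lemma` and `index_split`), `flagSum_add`, and
`NI (m+1) (- Z ∘ F) = NI (m+1) (Z ∘ swap ∘ F)` with `flagSum_swap`. -/
theorem geoA_succ {n : ℕ} (Δ : Finset (Finset (Fin n))) (hD : DownC Δ) (Z : Pr n → ℕ → ℝ)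
    (hZ : ∀ e j, Z e.swap j = - Z e j) (m : ℕ)
    (hG : ∀ F : Fin (m + 2) → Pr n, IsFl Δ (m + 1) F → Gp (fun s => Z (F s)) m ∧
      Gp (fun s => Z (F s)) (m + 1) ∧ Gp (fun s => Z (F s)) (m + 2))
    (e : Pr n) (he : PairOK Δ e) (hl : lev e = m + 3) :
    cov (geoA Z m) e = geoA Z (m + 1) e + geoA Z (m + 1) e.swap := by
  have h1 : cov (geoA Z m) e = flagSum (m + 1) (fun F => ∑ s : Fin (m + 2),
      (fun F : Fin (m + 1) → Pr n => ind (NI m (fun s => Z (F s))))
        (fun i => F (s.succAbove i))) e :=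
    (flagSum_bd m (fun F : Fin (m + 1) → Pr n => ind (NI m (fun s => Z (F s)))) e he.2.2.1
      he.2.2.2.1 hl).symm
  have h2 : flagSum (m + 1) (fun F => ∑ s : Fin (m + 2),
      (fun F : Fin (m + 1) → Pr n => ind (NI m (fun s => Z (F s))))
        (fun i => F (s.succAbove i))) e =
      flagSum (m + 1) (fun F => (fun F : Fin (m + 2) → Pr n => ind (NI (m + 1) (fun s => Z (F s)))) F
        + (fun F : Fin (m + 2) → Pr n => ind (NI (m + 1) (fun s => Z (F s))))
          (fun i => (F i).swap)) e := by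
    refine flagSum_congr Δ hD (m + 1) _ _ e he (by omega) (fun F hF _ => ?_)
    obtain ⟨g1, g2, g3⟩ := hG F hF
    have e1 := index_lemma m (fun s => Z (F s)) g1 g2
    have e2 := index_split m (fun s => Z (F s)) g2 g3
    have e3 : (fun (s : Fin (m + 2)) (j : ℕ) => - Z (F s) j) =
        fun s => Z ((F s).swap) := by
      funext s j
      exact (hZ (F s) j).symm
    rw [e3] at e2
    exact e1.trans e2
  rw [h1, h2, flagSum_add]
  congr 1
  exact flagSum_swap (m + 1) (fun F : Fin (m + 2) → Pr n => ind (NI (m + 1) (fun s => Z (F s)))) e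

end MP528
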