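import Pool.Agent.Lib.MP_528ca9_co.K4def
import Pool.Agent.Lib.MP_528ca9_co.K1b

namespace MP528

open Finset

private theorem K4a_NI (z : Fin 1 → ℕ → ℝ) : NI 0 z ↔ 0 < z 0 0 := by
  unfold NI
  constructor
  · rintro ⟨c, hc, -, h⟩
    rw [Fin.sum_univ_one] at h
    exact (mul_pos_iff_of_pos_left (hc 0)).1 h
  · intro h
    refine ⟨fun _ => 1, fun _ => one_pos, fun j hj => absurd hj (Nat.not_lt_zero j), ?_⟩
    rw [Fin.sum_univ_one, one_mul]
    exact h

private theorem K4a_geo {n : ℕ} (Z : Pr n → ℕ → ℝ) (e : Pr n) :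
    geoA Z 0 e = ind (0 < Z e 0) := by
  have h : NI 0 (fun _ : Fin 1 => Z e) = (0 < Z e 0) := propext (K4a_NI _)
  show ind (NI 0 (fun _ : Fin 1 => Z e)) = ind (0 < Z e 0)
  rw [h]

/-- ROW K4a. `NI 0` means that coordinate `0` is positive; `Z e 0 ≠ 0` by `Gp .. 1` for the
one-element flag, and `Z e.swap 0 = - Z e 0`. -/
theorem geoA_zero {n : ℕ} (Δ : Finset (Finset (Fin n))) (Z : Pr n → ℕ → ℝ)
    (hZ : ∀ e j, Z e.swap j = - Z e j)
    (hG : ∀ F : Fin 1 → Pr n, IsFl Δ 0 F → Gp (fun s => Z (F s)) 1)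
    (e : Pr n) (he : PairOK Δ e) (hl : lev e = 2) :
    geoA Z 0 e + geoA Z 0 e.swap = 1 := by
  have hfl : IsFl Δ 0 (fun _ : Fin 1 => e) := by
    refine ⟨fun i => ⟨he, ?_⟩, fun i j _ => ⟨Finset.Subset.refl _, Finset.Subset.refl _⟩⟩
    have : i.1 = 0 := by have := i.2; omega
    rw [this]
    exact hl
  have hne : Z e 0 ≠ 0 := by
    intro h0
    have h1 := hG _ hfl (fun _ => (1 : ℝ)) (by
      refine (Nat.card_le_card_of_injective (fun s : {s : Fin 1 // (1 : ℝ) ≠ 0} => s.1)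
        Subtype.val_injective).trans ?_
      simp) (by
      intro j hj
      have : j = 0 := by omega
      subst this
      rw [Fin.sum_univ_one, one_mul]
      exact h0) 0
    exact one_ne_zero h1
  rw [K4a_geo, K4a_geo, hZ]
  rcases lt_or_gt_of_ne hne with h | h
  · have h1 : ¬ (0 < Z e 0) := not_lt.2 h.le
    have h2 : 0 < - Z e 0 := neg_pos.2 h
    simp [ind, h1, h2]
  · have h2 : ¬ (0 < - Z e 0) := by
      rw [not_lt]
      exact (neg_neg_of_pos h).le
    simp [ind, h, h2]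

end MP528
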