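import Pool.Agent.Lib.MP_528ca9_co.KDefs

namespace MP528

open Finset

/-- the geometric sequence -/
noncomputable def geoA {n : ℕ} (Z : Pr n → ℕ → ℝ) (m : ℕ) (e : Pr n) : ZMod 2 :=
  flagSum m (fun F => ind (NI m (fun s => Z (F s)))) e

end MP528
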