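import Pool.Agent.Lib.MP_528ca9_co.KDefs

namespace MP528

open Finset

theorem K5_sa {n : ℕ} (i : Fin (n + 1)) (j : Fin n) :
    (i.succAbove j).1 = if j.1 < i.1 then j.1 else j.1 + 1 := by
  unfold Fin.succAbove
  by_cases h : j.castSucc < i
  · have h' : j.1 < i.1 := h
    rw [if_pos h, if_pos h']
    rfl
  · have h' : ¬ j.1 < i.1 := h
    rw [if_neg h, if_neg h']
    rfl

theorem K5_eq {X : Type*} {d : ℕ} (P Z : Fin (d + 1) → X) (r : Fin (d + 1)) (i : Fin (d + 2))
    (s : Fin (d + 1)) (r' : Fin d)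
    (h : (i.1 < r.1 ∧ s.1 = i.1 ∧ r'.1 + 1 = r.1) ∨ (r.1 + 1 < i.1 ∧ s.1 + 1 = i.1 ∧ r'.1 = r.1)) :
    (fun j => prismvec P Z r (i.succAbove j)) =
      prismvec (fun j => P (s.succAbove j)) (fun j => Z (s.succAbove j)) r' := by
  funext j
  have hp := K5_sa i j
  have hj := j.2
  unfold prismvec
  by_cases h1 : (i.succAbove j).1 ≤ r.1
  · have h2 : j.1 ≤ r'.1 := by
      rw [hp] at h1
      split_ifs at h1 <;> omega
    rw [dif_pos h1, dif_pos h2]
    refine congrArg P (Fin.ext ?_)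
    refine (show (i.succAbove j).1 = (s.succAbove ⟨j.1, by omega⟩).1 from ?_)
    rw [hp, K5_sa]
    dsimp only
    rw [hp] at h1
    split_ifs at h1 ⊢ <;> omega
  · have h2 : ¬ j.1 ≤ r'.1 := by
      rw [hp] at h1
      split_ifs at h1 <;> omega
    rw [dif_neg h1, dif_neg h2]
    refine congrArg Z (Fin.ext ?_)
    refine (show (i.succAbove j).1 - 1 = (s.succAbove ⟨j.1 - 1, by omega⟩).1 from ?_)
    rw [hp, K5_sa]
    dsimp only
    rw [hp] at h1
    split_ifs at h1 ⊢ <;> omega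

/-- the vectors `P_0..P_{r-1}, Z_r..Z_d` -/
def K5_W {X : Type*} {d : ℕ} (P Z : Fin (d + 1) → X) (r : Fin (d + 2)) : Fin (d + 1) → X :=
  fun j => if j.1 < r.1 then P j else Z j

theorem K5_diag1 {X : Type*} {d : ℕ} (P Z : Fin (d + 1) → X) (r : Fin (d + 1)) :
    (fun j => prismvec P Z r (r.castSucc.succAbove j)) = K5_W P Z r.castSucc := by
  funext j
  have hp := K5_sa r.castSucc j
  rw [Fin.val_castSucc] at hp
  unfold prismvec K5_W
  rw [Fin.val_castSucc]
  by_cases h : j.1 < r.1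
  · rw [if_pos h] at hp
    rw [dif_pos (by omega), if_pos h]
    exact congrArg P (Fin.ext hp)
  · rw [if_neg h] at hp
    rw [dif_neg (by omega), if_neg h]
    refine congrArg Z (Fin.ext ?_)
    change (r.castSucc.succAbove j).1 - 1 = j.1
    omega

theorem K5_diag2 {X : Type*} {d : ℕ} (P Z : Fin (d + 1) → X) (r : Fin (d + 1)) :
    (fun j => prismvec P Z r (r.succ.succAbove j)) = K5_W P Z r.succ := by
  funext j
  have hp := K5_sa r.succ j
  rw [Fin.val_succ] at hp
  unfold prismvec K5_W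
  rw [Fin.val_succ]
  by_cases h : j.1 < r.1 + 1
  · rw [if_pos h] at hp
    rw [dif_pos (by omega), if_pos h]
    exact congrArg P (Fin.ext hp)
  · rw [if_neg h] at hp
    rw [dif_neg (by omega), if_neg h]
    refine congrArg Z (Fin.ext ?_)
    change (r.succ.succAbove j).1 - 1 = j.1
    omega

theorem K5_tele {d : ℕ} (T : Fin (d + 2) → ZMod 2) :
    ∑ r : Fin (d + 1), (T r.castSucc + T r.succ) = T 0 + T (Fin.last (d + 1)) := by
  rw [Finset.sum_add_distrib]
  have h1 := Fin.sum_univ_castSucc T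
  have h2 := Fin.sum_univ_succ T
  have h3 : ∀ a : ZMod 2, a + a = 0 := by decide
  have h4 : ∑ r : Fin (d + 1), T r.castSucc = (∑ i, T i) + T (Fin.last (d + 1)) := by
    rw [h1, add_assoc, h3, add_zero]
  have h5 : ∑ r : Fin (d + 1), T r.succ = (∑ i, T i) + T 0 := by
    rw [h2]
    have := h3 (T 0)
    calc ∑ r : Fin (d + 1), T r.succ = (T 0 + T 0) + ∑ r : Fin (d + 1), T r.succ := by
          rw [this, zero_add]
      _ = T 0 + ∑ r : Fin (d + 1), T r.succ + T 0 := by ring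
  rw [h4, h5]
  calc (∑ i, T i) + T (Fin.last (d + 1)) + ((∑ i, T i) + T 0)
      = ((∑ i, T i) + (∑ i, T i)) + (T 0 + T (Fin.last (d + 1))) := by ring
    _ = T 0 + T (Fin.last (d + 1)) := by rw [h3, zero_add]

/-- ROW K5. Prism identity (boundary of the prism, mod 2).
Proof. Split the inner sum over `i : Fin (d+2)` according to `i.1 ≤ r.1` (a `P` is omitted) or
`i.1 > r.1` (a `Z` is omitted). The term `(r, i)` with `i.1 = r.1` is
`(P_0..P_{r-1}, Z_r..Z_d)`, which equals the term `(r-1, i)` with `i.1 = r` (omitting `Z_{r-1}`);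
so with `T_r = f (P_0..P_{r-1}, Z_r..Z_d)`, `r = 0..d+1`, these terms sum to
`∑_{r=0}^{d} (T_r + T_{r+1}) = T_0 + T_{d+1} = f Z + f P`. The remaining terms `(r, i)` with
`i.1 < r.1` or `i.1 > r.1 + 1` are the terms of the last sum: for `i.1 < r.1` put `s = i`,
`r' = r - 1`; for `i.1 > r.1 + 1` put `s = i - 1`, `r' = r`; conversely `(s, r')` with `r' ≥ s`
resp. `r' < s`. -/
theorem prism_identity {X : Type*} (d : ℕ) (f : (Fin (d + 1) → X) → ZMod 2)
    (P Z : Fin (d + 1) → X) :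
    ∑ r : Fin (d + 1), ∑ i : Fin (d + 2), f (fun j => prismvec P Z r (i.succAbove j)) =
      f Z + f P + ∑ s : Fin (d + 1), ∑ r : Fin d,
        f (prismvec (fun j => P (s.succAbove j)) (fun j => Z (s.succAbove j)) r) := by
  classical
  have h1 : ∀ r : Fin (d + 1), ∑ i : Fin (d + 2), f (fun j => prismvec P Z r (i.succAbove j)) =
      (f (K5_W P Z r.castSucc) + f (K5_W P Z r.succ)) +
        ∑ i ∈ (univ.erase r.castSucc).erase r.succ, f (fun j => prismvec P Z r (i.succAbove j)) := by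
    intro r
    have hne : r.succ ∈ (univ : Finset (Fin (d + 2))).erase r.castSucc := by
      refine mem_erase.2 ⟨?_, mem_univ _⟩
      intro h
      have := congrArg Fin.val h
      simp at this
    rw [← Finset.add_sum_erase _ _ (mem_univ r.castSucc), ← Finset.add_sum_erase _ _ hne,
      K5_diag1, K5_diag2]
    exact (add_assoc _ _ _).symm
  rw [Finset.sum_congr rfl fun r _ => h1 r, Finset.sum_add_distrib,
    K5_tele (fun r => f (K5_W P Z r))]
  have e0 : K5_W P Z 0 = Z := by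
    funext j
    simp [K5_W]
  have e1 : K5_W P Z (Fin.last (d + 1)) = P := by
    funext j
    exact if_pos j.2
  rw [e0, e1]
  congr 1
  rw [Finset.sum_sigma', Finset.sum_sigma']
  have hmem : ∀ (r : Fin (d + 1)) (i : Fin (d + 2)),
      i ∈ ((univ : Finset (Fin (d + 2))).erase r.castSucc).erase r.succ ↔ i.1 ≠ r.1 ∧ i.1 ≠ r.1 + 1 := by
    intro r i
    rw [mem_erase, mem_erase, Ne, Ne, Fin.ext_iff, Fin.ext_iff, Fin.val_succ, Fin.val_castSucc]
    constructor
    · rintro ⟨a, b, -⟩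
      exact ⟨b, a⟩
    · rintro ⟨a, b⟩
      exact ⟨b, a, mem_univ _⟩
  refine Finset.sum_bij'
    (fun (a : Σ _ : Fin (d + 1), Fin (d + 2)) ha =>
      if h : a.2.1 < a.1.1 then
        (⟨⟨a.2.1, h.trans a.1.2⟩, ⟨a.1.1 - 1, by have := a.1.2; omega⟩⟩ : Σ _ : Fin (d + 1), Fin d)
      else ⟨⟨a.2.1 - 1, by have := a.2.2; omega⟩, ⟨a.1.1, by
        have h1 := (hmem a.1 a.2).1 (mem_sigma.1 ha).2
        have h2 := a.2.2
        omega⟩⟩)
    (fun (b : Σ _ : Fin (d + 1), Fin d) _ =>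
      if h : b.1.1 ≤ b.2.1 then
        (⟨⟨b.2.1 + 1, by have := b.2.2; omega⟩, ⟨b.1.1, by have := b.1.2; omega⟩⟩ :
          Σ _ : Fin (d + 1), Fin (d + 2))
      else ⟨⟨b.2.1, by have := b.2.2; omega⟩, ⟨b.1.1 + 1, by have := b.1.2; omega⟩⟩)
    ?_ ?_ ?_ ?_ ?_
  · intro a ha
    simp
  · intro b hb
    rw [mem_sigma]
    refine ⟨mem_univ _, ?_⟩
    rw [hmem]
    split_ifs with h
    · dsimp only
      omega
    · dsimp only
      omega
  · rintro ⟨r, i⟩ ha
    have h1 := (hmem r i).1 (mem_sigma.1 ha).2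
    by_cases h : i.1 < r.1
    · have h2 : i.1 ≤ r.1 - 1 := by omega
      simp only [h, dif_pos, h2]
      have e : (⟨r.1 - 1 + 1, by omega⟩ : Fin (d + 1)) = r := Fin.ext (by dsimp only; omega)
      rw [e]
    · have h2 : ¬ i.1 - 1 ≤ r.1 := by omega
      simp only [h, dif_neg, h2, not_false_eq_true]
      have e : (⟨i.1 - 1 + 1, by omega⟩ : Fin (d + 2)) = i := Fin.ext (by dsimp only; omega)
      rw [e]
  · rintro ⟨s, r⟩ hb
    by_cases h : s.1 ≤ r.1
    · have h2 : s.1 < r.1 + 1 := by omega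
      simp only [h, dif_pos, h2]
      rfl
    · have h2 : ¬ s.1 + 1 < r.1 := by omega
      simp only [h, dif_neg, h2, not_false_eq_true]
      rfl
  · rintro ⟨r, i⟩ ha
    have h1 := (hmem r i).1 (mem_sigma.1 ha).2
    by_cases h : i.1 < r.1
    · simp only [h, dif_pos]
      refine congrArg f (K5_eq P Z r i _ _ (Or.inl ⟨h, rfl, ?_⟩))
      dsimp only
      omega
    · simp only [h, dif_neg, not_false_eq_true]
      refine congrArg f (K5_eq P Z r i _ _ (Or.inr ⟨?_, ?_, rfl⟩))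
      · omega
      · dsimp only
        omega

end MP528
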