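import Pool.Agent.Lib.MP_528ca9_co.KDefs

namespace MP528

open Finset

/-- ROW K6a. Sub-families of a family in general position. (Extend the coefficients by zero.) -/
theorem Gp_comp {ι κ : Type*} [Fintype ι] [Fintype κ] (z : ι → ℕ → ℝ) (m : ℕ)
    (h : Gp z m) (f : κ → ι) (hf : Function.Injective f) : Gp (fun s => z (f s)) m := by
  intro c hc hz s
  have hpre : ∀ i, Function.extend f c 0 i ≠ 0 → ∃ s, f s = i ∧ c s ≠ 0 := by
    intro i hi
    by_cases hx : ∃ s, f s = i
    · obtain ⟨s, rfl⟩ := hx
      rw [hf.extend_apply] at hi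
      exact ⟨s, rfl, hi⟩
    · rw [Function.extend_apply' _ _ _ hx] at hi
      exact absurd rfl hi
  have hcard : Nat.card {i // Function.extend f c 0 i ≠ 0} ≤ m := by
    refine le_trans ?_ hc
    choose g hg1 hg2 using hpre
    refine Nat.card_le_card_of_injective
      (fun i : {i // Function.extend f c 0 i ≠ 0} => (⟨g i.1 i.2, hg2 i.1 i.2⟩ : {s // c s ≠ 0})) ?_
    intro i i' he
    have he' : g i.1 i.2 = g i'.1 i'.2 := congrArg Subtype.val he
    apply Subtype.ext
    rw [← hg1 i.1 i.2, ← hg1 i'.1 i'.2, he']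
  have hsum : ∀ j < m, ∑ i, Function.extend f c 0 i * z i j = 0 := by
    intro j hj
    rw [← hz j hj]
    symm
    refine Fintype.sum_of_injective f hf _ _ ?_ ?_
    · intro i hi
      rw [Function.extend_apply' _ _ _ (fun ⟨s, hs⟩ => hi ⟨s, hs⟩)]
      simp
    · intro s
      rw [hf.extend_apply]
  have := h (Function.extend f c 0) hcard hsum (f s)
  rwa [hf.extend_apply] at this

/-- ROW K6b. The prism vectors along a flag are in general position (K6a; index `i ≤ r` goes to
`(i, true)`, index `i > r` to `(i-1, false)`). -/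
theorem Gp_prism {n : ℕ} (Δ : Finset (Finset (Fin n))) (d : ℕ) (P : Pr n → ℕ → ℝ)
    (hP : GeoP Δ d P) (M : ℕ) (hM : M ≤ d) (F : Fin (M + 1) → Pr n) (hF : IsFl Δ M F) (m : ℕ)
    (hm : m ≤ d + 1) (r : Fin (M + 1)) :
    Gp (prismvec (fun s => P (F s)) (fun s j => P (F s) j - P (F s).swap j) r) m := by
  have h := hP.gp M hM F hF m hm
  let f : Fin (M + 1 + 1) → Fin (M + 1) × Bool := fun i =>
    if h : i.1 ≤ r.1 then (⟨i.1, lt_of_le_of_lt h r.2⟩, true) else (⟨i.1 - 1, by omega⟩, false)
  have hf : Function.Injective f := by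
    intro i i' he
    simp only [f] at he
    apply Fin.ext
    split_ifs at he with h1 h2 h2
    · exact congrArg (fun p => p.1.1) he
    · exact absurd (congrArg Prod.snd he) (by simp)
    · exact absurd (congrArg Prod.snd he) (by simp)
    · have : i.1 - 1 = i'.1 - 1 := congrArg (fun p => p.1.1) he
      omega
  have h2 := Gp_comp _ m h f hf
  convert h2 using 1
  funext i j
  simp only [prismvec, f]
  split_ifs <;> simp_all

/-- ROW K6c. No positive combination of prism vectors vanishes.
Proof: `∑_{i ≤ r} c_i P_i + ∑_{i > r} c_i (P_{i-1} - Q_{i-1}) = 0` gives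
`∑ a_s P_s = ∑ b_s Q_s` with `b_s = c_{s+1}` for `s ≥ r`, `a ≥ b ≥ 0`, `a_0 > 0` or so; `c1` gives
`a = 0`, but `c > 0`. -/
theorem prism_pos {n : ℕ} (Δ : Finset (Finset (Fin n))) (d : ℕ) (P : Pr n → ℕ → ℝ)
    (hP : GeoP Δ d P) (F : Fin (d + 1) → Pr n) (hF : IsFl Δ d F) (r : Fin (d + 1)) :
    ¬ ∃ c : Fin (d + 2) → ℝ, (∀ s, 0 < c s) ∧ ∀ j < d + 1, ∑ s, c s *
      prismvec (fun s => P (F s)) (fun s j => P (F s) j - P (F s).swap j) r s j = 0 := by
  rintro ⟨c, hc, hz⟩
  have hab := hP.c1 F hF
    (fun s => (if s.1 ≤ r.1 then c s.castSucc else 0) + (if s.1 + 1 ≤ r.1 then 0 else c s.succ))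
    (fun s => if s.1 + 1 ≤ r.1 then 0 else c s.succ)
    (fun s => by
      have h1 := (hc s.castSucc).le
      have h2 := (hc s.succ).le
      split_ifs <;> linarith)
    (fun s => by
      have h2 := (hc s.succ).le
      split_ifs <;> linarith) ?_
  · have h := hab.1 r
    have h1 := hc r.castSucc
    have h2 := hc r.succ
    simp only [le_refl, if_true] at h
    rw [if_neg (by omega)] at h
    linarith
  · intro j hj
    have hsplit : ∀ i : Fin (d + 2), c i *
        prismvec (fun s => P (F s)) (fun s j => P (F s) j - P (F s).swap j) r i j =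
        (if i.1 ≤ r.1 then c i *
          prismvec (fun s => P (F s)) (fun s j => P (F s) j - P (F s).swap j) r i j else 0) +
        (if i.1 ≤ r.1 then 0 else c i *
          prismvec (fun s => P (F s)) (fun s j => P (F s) j - P (F s).swap j) r i j) := by
      intro i
      split_ifs <;> simp
    have h0 := hz j hj
    rw [Finset.sum_congr rfl (fun i _ => hsplit i), Finset.sum_add_distrib,
      Fin.sum_univ_castSucc, Fin.sum_univ_succ (n := d + 1)] at h0
    have e1 : (if (Fin.last (d + 1)).1 ≤ r.1 then c (Fin.last (d + 1)) *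
          prismvec (fun s => P (F s)) (fun s j => P (F s) j - P (F s).swap j) r
            (Fin.last (d + 1)) j else 0) = 0 := by
      rw [if_neg]
      have := r.2
      simp only [Fin.val_last]
      omega
    have e2 : (if (0 : Fin (d + 2)).1 ≤ r.1 then (0 : ℝ) else c 0 *
          prismvec (fun s => P (F s)) (fun s j => P (F s) j - P (F s).swap j) r 0 j) = 0 := by
      rw [if_pos]
      simp
    rw [e1, e2, add_zero, zero_add] at h0
    refine sub_eq_zero.1 (Eq.trans ?_ h0)
    rw [← Finset.sum_add_distrib, ← Finset.sum_sub_distrib]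
    refine Finset.sum_congr rfl fun s _ => ?_
    simp only [prismvec, Fin.val_castSucc, Fin.val_succ]
    split_ifs with h1 h2 h2
    · simp
    · have hs : (⟨s.1 + 1 - 1, by omega⟩ : Fin (d + 1)) = s := Fin.ext (by simp)
      simp only [hs]
      ring
    · omega
    · have hs : (⟨s.1 + 1 - 1, by omega⟩ : Fin (d + 1)) = s := Fin.ext (by simp)
      simp only [hs]
      ring

end MP528
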