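import Pool.Agent.Lib.MP_528ca9_co.K4
import Pool.Agent.Lib.MP_528ca9_co.K5
import Pool.Agent.Lib.MP_528ca9_co.K6a

namespace MP528

open Finset

theorem K6d_ind_false {p : Prop} (h : ¬ p) : ind p = 0 := by
  unfold ind
  rw [if_neg h]

/-- The integrand along a flag is a boundary. -/
theorem K6d_flag {n : ℕ} (Δ : Finset (Finset (Fin n))) (d : ℕ)
    (P : Pr n → ℕ → ℝ) (hP : GeoP Δ d P) (F : Fin (d + 1) → Pr n) (hF : IsFl Δ d F) :
    ind (NI d (fun s j => P (F s) j - P (F s).swap j)) =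
      ∑ s : Fin (d + 1), ∑ r : Fin d, ind (NI d (prismvec (fun j => P (F (s.succAbove j)))
        (fun j k => P (F (s.succAbove j)) k - P (F (s.succAbove j)).swap k) r)) := by
  have h1 := prism_identity d (fun w : Fin (d + 1) → ℕ → ℝ => ind (NI d w))
    (fun s => P (F s)) (fun s j => P (F s) j - P (F s).swap j)
  have h2 : ∀ r : Fin (d + 1), ∑ i : Fin (d + 2), ind (NI d (fun j =>
      prismvec (fun s => P (F s)) (fun s j => P (F s) j - P (F s).swap j) r (i.succAbove j))) =
      0 := by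
    intro r
    rw [index_lemma d (prismvec (fun s => P (F s)) (fun s j => P (F s) j - P (F s).swap j) r)
      (Gp_prism Δ d P hP d le_rfl F hF d (by omega) r)
      (Gp_prism Δ d P hP d le_rfl F hF (d + 1) le_rfl r)]
    exact K6d_ind_false (prism_pos Δ d P hP F hF r)
  rw [Finset.sum_congr rfl fun r _ => h2 r, Finset.sum_const_zero] at h1
  have h3 : ind (NI d (fun s => P (F s))) = 0 := K6d_ind_false (hP.c2 F hF)
  have h4 : ind (NI d (fun s j => P (F s) j - P (F s).swap j)) +
      ∑ s : Fin (d + 1), ∑ r : Fin d, ind (NI d (prismvec (fun j => P (F (s.succAbove j)))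
        (fun j k => P (F (s.succAbove j)) k - P (F (s.succAbove j)).swap k) r)) = 0 := by
    rw [h1, h3, add_zero]
  exact (CharTwo.add_eq_zero.mp h4)

/-- ROW K6d. The top geometric cochain is a coboundary.
Proof. `d = d' + 1`. For a flag `F : Fin (d+1) → Pr n` apply `index_lemma` (`m = d`) to the `d + 2`
prism vectors, for each `r` (K6b, K6c: the right side is `ind False = 0`), sum over `r` and use
`prism_identity` with `f w = ind (NI d w)` and `c2`: `ind (NI d (Z ∘ F)) = ∑_s a (F ∘ s.succAbove)`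
with `a G = ∑_{r : Fin d} ind (NI d (prismvec (P ∘ G) (Z ∘ G) r))`. Then `flagSum_congr` and
`flagSum_bd` (`m = d'`): `geoA Z d e = cov (fun e' => flagSum d' a e') e`. -/
theorem geoA_top {n : ℕ} (Δ : Finset (Finset (Fin n))) (hD : DownC Δ) (d : ℕ) (hd : 1 ≤ d)
    (P : Pr n → ℕ → ℝ) (hP : GeoP Δ d P) :
    ∃ a' : Pr n → ZMod 2, ∀ e, PairOK Δ e → lev e = d + 2 →
      geoA (fun e j => P e j - P e.swap j) d e = cov a' e := by
  obtain ⟨d', rfl⟩ : ∃ d', d = d' + 1 := ⟨d - 1, by omega⟩
  set a : (Fin (d' + 1) → Pr n) → ZMod 2 := fun G => ∑ r : Fin (d' + 1),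
    ind (NI (d' + 1) (prismvec (fun s => P (G s)) (fun s j => P (G s) j - P (G s).swap j) r))
    with ha
  refine ⟨fun e' => flagSum d' a e', ?_⟩
  intro e he hl
  have hkey : ∀ F, IsFl Δ (d' + 1) F → F (Fin.last (d' + 1)) = e →
      ind (NI (d' + 1) (fun s => (fun (e : Pr n) j => P e j - P e.swap j) (F s))) =
        ∑ s : Fin (d' + 2), a (fun i => F (s.succAbove i)) := by
    intro F hF _
    exact K6d_flag Δ (d' + 1) P hP F hF
  unfold geoA
  rw [flagSum_congr Δ hD (d' + 1) _ (fun F => ∑ s : Fin (d' + 2), a (fun i => F (s.succAbove i)))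
    e he (by omega) hkey]
  exact flagSum_bd d' a e he.2.2.1 he.2.2.2.1 (by omega)

end MP528
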