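import Pool.Agent.Lib.MP_528ca9_co.K2
import Pool.Agent.Lib.MP_528ca9_co.K6
import Pool.Agent.Lib.MP_528ca9_co.G0

namespace MP528

open Finset

theorem K7_altA_left {n : ℕ} (r : Fin n → ℕ) (hr : Function.Injective r)
    (τ : Finset (Fin n)) (hτ : τ.Nonempty) : altA r ∅ τ = 0 := by
  rw [altA, if_neg]
  intro h
  have h1 := (altP_card r hr ∅ τ (Finset.disjoint_empty_left _) h).1
  rw [Finset.card_empty] at h1
  have h2 := Finset.card_pos.2 hτ
  omega

theorem K7_altA_right {n : ℕ} (r : Fin n → ℕ) (hr : Function.Injective r)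
    (σ : Finset (Fin n)) (hσ : 2 ≤ σ.card) : altA r σ ∅ = 0 := by
  rw [altA, if_neg]
  intro h
  have h1 := (altP_card r hr σ ∅ (Finset.disjoint_empty_right _) h).2
  rw [Finset.card_empty] at h1
  omega

theorem K7_altA_single {n : ℕ} (r : Fin n → ℕ) (i : Fin n) : altA r {i} ∅ = 1 := by
  rw [altA, if_pos]
  refine ⟨?_, ?_⟩
  · intro x hx
    rw [Finset.mem_singleton] at hx
    subst hx
    have : rk r ({x} ∪ ∅) x = 0 := by
      rw [rk, Finset.card_eq_zero, Finset.filter_eq_empty_iff]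
      intro y hy
      rw [Finset.union_empty, Finset.mem_singleton] at hy
      subst hy
      exact lt_irrefl _
    rw [this]
    exact ⟨0, rfl⟩
  · intro x hx
    exact absurd hx (Finset.notMem_empty x)

theorem K7_cov_alt {n : ℕ} (r : Fin n → ℕ) (hr : Function.Injective r) (e : Pr n)
    (h2 : e.2.Nonempty) (hl : 3 ≤ lev e) :
    cov (fun x => altA r x.1 x.2) e = dlt (altA r) e.1 e.2 := by
  rw [cov, dlt]
  congr 1
  · refine Finset.sum_congr rfl (fun v _ => ?_)
    by_cases hne : (e.1.erase v).Nonempty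
    · rw [if_pos hne]
    · rw [if_neg hne]
      rw [Finset.not_nonempty_iff_eq_empty] at hne
      rw [hne, K7_altA_left r hr _ h2]
  · refine Finset.sum_congr rfl (fun v hv => ?_)
    by_cases hne : (e.2.erase v).Nonempty
    · rw [if_pos hne]
    · rw [if_neg hne]
      rw [Finset.not_nonempty_iff_eq_empty] at hne
      have h3 := Finset.card_erase_of_mem hv
      rw [hne, Finset.card_empty] at h3
      have h4 := Finset.card_pos.2 h2
      have h5 : 2 ≤ e.1.card := by
        rw [lev] at hl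
        omega
      rw [hne, K7_altA_right r hr _ h5]

theorem K7_swap_ok {n : ℕ} {Δ : Finset (Finset (Fin n))} {e : Pr n} (he : PairOK Δ e) :
    PairOK Δ e.swap :=
  ⟨he.2.1, he.1, he.2.2.2.1, he.2.2.1, he.2.2.2.2.symm⟩

theorem K7_alt_swap {n : ℕ} {Δ : Finset (Finset (Fin n))} (r : Fin n → ℕ)
    (hr : Function.Injective r) {e : Pr n} (he : PairOK Δ e) :
    dlt (altA r) e.1 e.2 = altA r e.1 e.2 + altA r e.2 e.1 :=
  alt_dlt r hr e.1 e.2 he.2.2.2.2 (he.2.2.1.mono Finset.subset_union_left)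

theorem K7_h0 {n : ℕ} {Δ : Finset (Finset (Fin n))} (r : Fin n → ℕ)
    (hr : Function.Injective r) {e : Pr n} (he : PairOK Δ e) (hl : lev e = 2) :
    altA r e.1 e.2 + altA r e.2 e.1 = 1 := by
  rw [← K7_alt_swap r hr he, dlt]
  have h1 := Finset.card_pos.2 he.2.2.1
  have h2 := Finset.card_pos.2 he.2.2.2.1
  rw [lev] at hl
  obtain ⟨i, hi⟩ := Finset.card_eq_one.1 (show e.1.card = 1 by omega)
  obtain ⟨j, hj⟩ := Finset.card_eq_one.1 (show e.2.card = 1 by omega)
  rw [hi, hj, Finset.sum_singleton, Finset.sum_singleton, Finset.erase_singleton,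
    Finset.erase_singleton, K7_altA_single, K7_altA_left r hr _ (Finset.singleton_nonempty j),
    zero_add]

theorem K7_gp {n : ℕ} {Δ : Finset (Finset (Fin n))} {d : ℕ} {P : Pr n → ℕ → ℝ}
    (hP : GeoP Δ d P) (M : ℕ) (hM : M ≤ d) (F : Fin (M + 1) → Pr n) (hF : IsFl Δ M F) (m : ℕ)
    (hm : m ≤ d + 1) : Gp (fun s => (fun (e : Pr n) (j : ℕ) => P e j - P e.swap j) (F s)) m := by
  have h := Gp_comp _ m (hP.gp M hM F hF m hm) (fun s : Fin (M + 1) => (s, false))
    (fun a b hab => (Prod.mk.inj hab).1)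
  simpa using h

theorem K7_char2 (a b c d h : ZMod 2) (H : a + b + c + d = h) : a + b = h + (c + d) := by
  subst h
  revert a b c d
  decide

/-- ROW K7. From the geometric data to the van Kampen property.
Proof. Given `r`. `A m e = altA r e.1 e.2` satisfies `h0` (for `e = ({i},{j})`: the one with smaller
`r` starts) and `h1`: by `alt_dlt`, and `cov (A m) e = dlt (altA r) e.1 e.2` for `lev e ≥ 3`,
because `altA r ∅ τ = 0` and `altA r σ ∅ = 0` when the other set has `≥ 2` elements.
`A' m = geoA Z m`, `Z e j = P e j - P e.swap j`, satisfies `h0'`, `h1'` for `m < d` by K4 (the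
general position of the `Z (F s)` is a case of `gp`, by `Gp_comp` with `s ↦ (s, false)`).
`compare` gives `h`, `geoA_top` gives `a'`: for pairs of level `d+2`
`altA r e.1 e.2 + altA r e.2 e.1 = cov (h + T h) e + cov a' e + cov (a' ∘ swap) e = cov G e` with
`G x = h x + h x.swap + a' x + a' x.swap` symmetric. Put `g σ τ = G (σ, τ)` if `σ` and `τ` are
nonempty, `0` otherwise. For `σ, τ ∈ Δ` disjoint with `|σ| + |τ| = d + 2` and `|σ|, |τ| ≤ d` both
have at least 2 elements, so `dlt g σ τ = cov G (σ,τ)`. -/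
theorem VK_of_GeoP {n : ℕ} (Δ : Finset (Finset (Fin n))) (hD : DownC Δ) (d : ℕ) (hd : 1 ≤ d)
    (hc : ∀ σ ∈ Δ, σ.card ≤ d) (P : Pr n → ℕ → ℝ) (hP : GeoP Δ d P) : VK Δ d := by
  intro r hr
  have hZ : ∀ (e : Pr n) (j : ℕ), (fun (e : Pr n) (j : ℕ) => P e j - P e.swap j) e.swap j =
      - (fun (e : Pr n) (j : ℕ) => P e j - P e.swap j) e j := by
    intro e j
    simp only [Prod.swap_swap]
    ring
  obtain ⟨h, hh⟩ := compare Δ hD d (fun _ e => altA r e.1 e.2)
    (fun m => geoA (fun (e : Pr n) (j : ℕ) => P e j - P e.swap j) m)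
    (fun e he hl => K7_h0 r hr he hl)
    (fun e he hl => geoA_zero Δ _ hZ
      (fun F hF => K7_gp hP 0 (Nat.zero_le _) F hF 1 (by omega)) e he hl)
    (fun m _ e he hl => by
      have h3 : 3 ≤ lev e := by omega
      rw [K7_cov_alt r hr e he.2.2.2.1 h3, K7_alt_swap r hr he]
      rfl)
    (fun m hm e he hl => geoA_succ Δ hD _ hZ m
      (fun F hF => ⟨K7_gp hP (m + 1) hm F hF m (by omega),
        K7_gp hP (m + 1) hm F hF (m + 1) (by omega),
        K7_gp hP (m + 1) hm F hF (m + 2) (by omega)⟩) e he hl)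
  obtain ⟨a', ha'⟩ := geoA_top Δ hD d hd P hP
  set G : Pr n → ZMod 2 := fun x => (h x + h x.swap) + (a' x + a' x.swap) with hGdef
  have hGs : ∀ x, G x.swap = G x := by
    intro x
    simp only [hGdef, Prod.swap_swap]
    ring
  have key : ∀ e, PairOK Δ e → lev e = d + 2 → altA r e.1 e.2 + altA r e.2 e.1 = cov G e := by
    intro e he hl
    have h1 := hh e he hl
    have hls : lev e.swap = d + 2 := by
      rw [lev] at hl ⊢
      rw [Prod.fst_swap, Prod.snd_swap]
      omega
    have h2 := ha' e he hl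
    have h3 := ha' e.swap (K7_swap_ok he) hls
    have h4 := K7_char2 _ _ _ _ _ h1
    rw [h2, h3, ← cov_swap a' e, ← cov_add, ← cov_add] at h4
    exact h4
  refine ⟨fun σ τ => if σ.Nonempty ∧ τ.Nonempty then G (σ, τ) else 0, ?_, ?_⟩
  · intro σ τ
    beta_reduce
    by_cases hne : σ.Nonempty ∧ τ.Nonempty
    · rw [if_pos hne, if_pos hne.symm]
      exact hGs (τ, σ)
    · rw [if_neg hne, if_neg (fun h => hne h.symm)]
  · intro σ hσ τ hτ hdis hcard
    have hσd := hc σ hσ
    have hτd := hc τ hτ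
    have hσ2 : 2 ≤ σ.card := by omega
    have hτ2 : 2 ≤ τ.card := by omega
    have hσn : σ.Nonempty := Finset.card_pos.1 (by omega)
    have hτn : τ.Nonempty := Finset.card_pos.1 (by omega)
    have hk := key (σ, τ) ⟨hσ, hτ, hσn, hτn, hdis⟩ hcard
    rw [show altA r σ τ + altA r τ σ = cov G (σ, τ) from hk, cov, dlt]
    congr 1
    · refine Finset.sum_congr rfl (fun v hv => ?_)
      have hne : (σ.erase v).Nonempty := by
        rw [← Finset.card_pos, Finset.card_erase_of_mem hv]
        omega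
      rw [if_pos hne, if_pos ⟨hne, hτn⟩]
    · refine Finset.sum_congr rfl (fun v hv => ?_)
      have hne : (τ.erase v).Nonempty := by
        rw [← Finset.card_pos, Finset.card_erase_of_mem hv]
        omega
      rw [if_pos hne, if_pos ⟨hσn, hne⟩]

end MP528
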