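import Pool.Agent.Lib.MP_528ca9_co.KDefs

namespace MP528

open Finset

/-- positive independence of a finite family of vectors -/
def PosInd {ι V : Type*} [Fintype ι] [AddCommGroup V] [Module ℝ V] (w : ι → V) : Prop :=
  ∀ c : ι → ℝ, (∀ s, 0 ≤ c s) → ∑ s, c s • w s = 0 → ∀ s, c s = 0

/-- ROW K8a. Positive independence is an open condition.
Proof. `w` is not positively independent iff there is `c` in the standard simplex `stdSimplex ℝ ι`
(compact) with `∑ c_s w_s = 0` (normalise). The set of `(w,c)` with `c ∈ stdSimplex`, `∑ c_s w_s = 0`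
is closed and the projection along a compact space is a closed map
(`isClosedMap_fst_of_compactSpace`, or sequences). -/
theorem posInd_open {ι V : Type*} [Fintype ι] [NormedAddCommGroup V] [NormedSpace ℝ V] :
    IsOpen {w : ι → V | PosInd w} := by
  classical
  have : CompactSpace (stdSimplex ℝ ι) := isCompact_iff_compactSpace.1 (isCompact_stdSimplex ℝ ι)
  have hclosed : IsClosed {p : (ι → V) × (stdSimplex ℝ ι) | ∑ s, (p.2 : ι → ℝ) s • p.1 s = 0} := by
    have hcont : Continuous (fun p : (ι → V) × (stdSimplex ℝ ι) => ∑ s, (p.2 : ι → ℝ) s • p.1 s) := by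
      refine continuous_finsetSum _ (fun s _ => ?_)
      refine Continuous.smul ?_ ?_
      · exact (continuous_apply s).comp (continuous_subtype_val.comp continuous_snd)
      · exact (continuous_apply s).comp continuous_fst
    exact isClosed_singleton.preimage hcont
  have himg := (isClosedMap_fst_of_compactSpace (X := ι → V) (Y := stdSimplex ℝ ι)) _ hclosed
  have hset : {w : ι → V | PosInd w}ᶜ =
      Prod.fst '' {p : (ι → V) × (stdSimplex ℝ ι) | ∑ s, (p.2 : ι → ℝ) s • p.1 s = 0} := by
    ext w
    simp only [Set.mem_compl_iff, Set.mem_ofPred_eq, Set.mem_image, Prod.exists, exists_and_right,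
      exists_eq_right]
    constructor
    · intro h
      simp only [PosInd, not_forall] at h
      obtain ⟨c, hc, hsum, s0, hs0⟩ := h
      have hpos : 0 < ∑ s, c s := by
        refine Finset.sum_pos' (fun s _ => hc s) ⟨s0, Finset.mem_univ _, ?_⟩
        exact lt_of_le_of_ne (hc s0) (Ne.symm hs0)
      refine ⟨⟨fun s => (∑ s, c s)⁻¹ * c s, ?_, ?_⟩, ?_⟩
      · intro s
        exact mul_nonneg (inv_nonneg.2 hpos.le) (hc s)
      · rw [← Finset.mul_sum, inv_mul_cancel₀ hpos.ne']
      · have : ∑ s, ((∑ s, c s)⁻¹ * c s) • w s = (∑ s, c s)⁻¹ • ∑ s, c s • w s := by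
          rw [Finset.smul_sum]
          exact Finset.sum_congr rfl (fun s _ => by rw [smul_smul])
        show ∑ s, ((∑ s, c s)⁻¹ * c s) • w s = 0
        rw [this, hsum, smul_zero]
    · rintro ⟨c, hc⟩ h
      have h0 := h (c : ι → ℝ) c.2.1 hc
      have h1 : ∑ s, (c : ι → ℝ) s = 1 := c.2.2
      rw [Finset.sum_eq_zero (fun s _ => h0 s)] at h1
      exact zero_ne_one h1
  rw [← isClosed_compl_iff, hset]
  exact himg

end MP528
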