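import Pool.Agent.Lib.MP_528ca9_co.KDefs

namespace MP528

open Finset

/-- ROW K8b. Proof: given `x`, the function `t ↦ det (L (x + t (x1 - x))) = det (A + t B)` is a
polynomial in `t` (`Matrix.det` of a matrix over `Polynomial ℝ`, `Polynomial.eval`), nonzero at
`t = 1`, so it has finitely many zeros and there are arbitrarily small `t > 0` where it is nonzero. -/
theorem det_dense {X : Type*} [NormedAddCommGroup X] [NormedSpace ℝ X] (m : ℕ)
    (L : X →ₗ[ℝ] Matrix (Fin m) (Fin m) ℝ) (x1 : X) (h : (L x1).det ≠ 0) :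
    Dense {x : X | (L x).det ≠ 0} := by
  intro x
  set A : Matrix (Fin m) (Fin m) ℝ := L x with hA
  set B : Matrix (Fin m) (Fin m) ℝ := L (x1 - x) with hB
  set P : Polynomial ℝ :=
    (A.map Polynomial.C + (Polynomial.X : Polynomial ℝ) • B.map Polynomial.C).det with hP
  have hev : ∀ t : ℝ, P.eval t = (A + t • B).det := by
    intro t
    have h1 := RingHom.map_det (Polynomial.evalRingHom t)
      (A.map Polynomial.C + (Polynomial.X : Polynomial ℝ) • B.map Polynomial.C)
    rw [← hP, Polynomial.coe_evalRingHom] at h1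
    rw [h1]
    congr 1
    ext i j
    simp
    ring
  have hL : ∀ t : ℝ, L (x + t • (x1 - x)) = A + t • B := by
    intro t
    rw [map_add, map_smul]
  have hP0 : P ≠ 0 := by
    intro h0
    have h1 := hev 1
    rw [h0, Polynomial.eval_zero, ← hL 1, one_smul, add_sub_cancel] at h1
    exact h h1.symm
  have hfin : {t : ℝ | Polynomial.IsRoot P t}.Finite := Polynomial.finite_setOfPred_isRoot hP0
  have hc : IsClosed ({t : ℝ | Polynomial.IsRoot P t} \ {0}) :=
    (hfin.subset Set.sdiff_subset).isClosed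
  have hn : ({t : ℝ | Polynomial.IsRoot P t} \ {0})ᶜ ∈ nhds (0 : ℝ) :=
    hc.isOpen_compl.mem_nhds (by simp)
  have hcont : Filter.Tendsto (fun t : ℝ => x + t • (x1 - x)) (nhdsWithin (0 : ℝ) {0}ᶜ)
      (nhds x) := by
    have h1 : Continuous (fun t : ℝ => x + t • (x1 - x)) := by fun_prop
    have h2 := h1.tendsto 0
    simp only [zero_smul, add_zero] at h2
    exact h2.mono_left nhdsWithin_le_nhds
  refine mem_closure_of_tendsto hcont ?_
  filter_upwards [nhdsWithin_le_nhds hn, self_mem_nhdsWithin] with t ht ht0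
  intro hz
  apply ht
  refine ⟨?_, ht0⟩
  show P.eval t = 0
  rw [hev, ← hL]
  exact hz

/-- ROW K8b'. General position from determinants.
Proof. Let `c` satisfy the equations with `m' = Nat.card {s // c s ≠ 0} ≤ m`; enumerate the support by
an injective `κ : Fin m' → ι`. The equations `j < m'` say that the vector `c ∘ κ` is in the kernel of the
transposed matrix, so `c ∘ κ = 0` (`Matrix.eq_zero_of_vecMul_eq_zero`); but its entries are nonzero, so
`m' = 0` and `c = 0`. -/
theorem Gp_of_det {ι : Type*} [Fintype ι] (z : ι → ℕ → ℝ) (m : ℕ)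
    (h : ∀ m' ≤ m, ∀ κ : Fin m' → ι, Function.Injective κ →
      (Matrix.of (fun (s j : Fin m') => z (κ s) j.1)).det ≠ 0) : Gp z m := by
  intro c hcard heq
  let e : {s // c s ≠ 0} ≃ Fin (Nat.card {s // c s ≠ 0}) := Finite.equivFin _
  have hinj : Function.Injective (fun i => ((e.symm i : {s // c s ≠ 0}) : ι)) :=
    Subtype.val_injective.comp e.symm.injective
  have hdet := h _ hcard (fun i => ((e.symm i : {s // c s ≠ 0}) : ι)) hinj
  have hv : Matrix.vecMul (fun i => c ((e.symm i : {s // c s ≠ 0}) : ι))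
      (Matrix.of (fun (s j : Fin (Nat.card {s // c s ≠ 0})) =>
        z ((e.symm s : {s // c s ≠ 0}) : ι) j.1)) = 0 := by
    funext j
    have h1 : ∑ i, c ((e.symm i : {s // c s ≠ 0}) : ι) * z ((e.symm i : {s // c s ≠ 0}) : ι) j.1
        = ∑ s : {s // c s ≠ 0}, c s.1 * z s.1 j.1 :=
      Equiv.sum_comp e.symm (fun s : {s // c s ≠ 0} => c s.1 * z s.1 j.1)
    have h2 : ∑ s : {s // c s ≠ 0}, c s.1 * z s.1 j.1 = ∑ s, c s * z s j.1 := by
      classical
      rw [← Finset.sum_subtype (Finset.univ.filter (fun s => c s ≠ 0)) (p := fun s => c s ≠ 0)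
        (by simp) (fun s => c s * z s j.1)]
      rw [Finset.sum_filter_of_ne]
      intro s _ hs h0
      exact hs (by rw [h0, zero_mul])
    simp only [Matrix.vecMul, dotProduct, Matrix.of_apply, Pi.zero_apply]
    rw [h1, h2]
    exact heq j.1 (lt_of_lt_of_le j.2 hcard)
  have h0 := Matrix.eq_zero_of_vecMul_eq_zero hdet hv
  intro s
  by_contra hs
  have h1 := congrFun h0 (e ⟨s, hs⟩)
  simp only [Equiv.symm_apply_apply, Pi.zero_apply] at h1
  exact hs h1

end MP528
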