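import Pool.Agent.Lib.MP_528ca9_co.K8co

namespace MP528

open Finset

theorem K8c1_co_add {V : Type*} [AddCommGroup V] [Module ℝ V] {d : ℕ}
    (b : Module.Basis (Fin (d + 1)) ℝ V) (v w : V) (j : ℕ) :
    co b (v + w) j = co b v j + co b w j := by
  unfold co
  split_ifs <;> simp

theorem K8c1_co_sub {V : Type*} [AddCommGroup V] [Module ℝ V] {d : ℕ}
    (b : Module.Basis (Fin (d + 1)) ℝ V) (v w : V) (j : ℕ) :
    co b (v - w) j = co b v j - co b w j := by
  unfold co
  split_ifs <;> simp

theorem K8c1_co_smul {V : Type*} [AddCommGroup V] [Module ℝ V] {d : ℕ}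
    (b : Module.Basis (Fin (d + 1)) ℝ V) (c : ℝ) (v : V) (j : ℕ) :
    co b (c • v) j = c * co b v j := by
  unfold co
  split_ifs <;> simp

theorem K8c1_co_basis {V : Type*} [AddCommGroup V] [Module ℝ V] {d : ℕ}
    (b : Module.Basis (Fin (d + 1)) ℝ V) (i j : ℕ) (hi : i < d + 1) (hj : j < d + 1) :
    co b (b ⟨i, hi⟩) j = if i = j then 1 else 0 := by
  unfold co
  rw [dif_pos hj, Module.Basis.repr_self, Finsupp.single_apply]
  simp only [Fin.mk.injEq]

/-- the matrix as a linear map -/
noncomputable def K8c1_L {V : Type*} [AddCommGroup V] [Module ℝ V]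
    {n d : ℕ} (b : Module.Basis (Fin (d + 1)) ℝ V) (M : ℕ) (F : Fin (M + 1) → Pr n) (m' : ℕ)
    (κ : Fin m' → Fin (M + 1) × Bool) : (Pr n → V) →ₗ[ℝ] Matrix (Fin m') (Fin m') ℝ where
  toFun P := Matrix.of (fun (s j : Fin m') =>
        if (κ s).2 then co b (P (F (κ s).1)) j.1
        else co b (P (F (κ s).1)) j.1 - co b (P (F (κ s).1).swap) j.1)
  map_add' P Q := by
    ext s j
    simp only [Matrix.of_apply, Matrix.add_apply, Pi.add_apply, K8c1_co_add]
    split_ifs <;> ring
  map_smul' c P := by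
    ext s j
    simp only [Matrix.of_apply, Matrix.smul_apply, Pi.smul_apply, K8c1_co_smul, RingHom.id_apply,
      smul_eq_mul]
    split_ifs <;> ring

theorem K8c1_point {V : Type*} [AddCommGroup V] [Module ℝ V]
    {n d : ℕ} (b : Module.Basis (Fin (d + 1)) ℝ V) (Δ : Finset (Finset (Fin n)))
    (M : ℕ) (F : Fin (M + 1) → Pr n) (hF : IsFl Δ M F) (m' : ℕ) (hm : m' ≤ d + 1)
    (κ : Fin m' → Fin (M + 1) × Bool) (hκ : Function.Injective κ) :
    ∃ P1 : Pr n → V, K8c1_L b M F m' κ P1 = 1 := by
  have hFinj : Function.Injective F := by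
    intro i j hij
    have h1 := (hF.1 i).2
    have h2 := (hF.1 j).2
    rw [hij] at h1
    exact Fin.ext (by omega)
  have hswap : Function.Injective (fun i => (F i).swap) := by
    intro i j hij
    exact hFinj (Prod.swap_injective hij)
  have hne : ∀ i j, F i ≠ (F j).swap := by
    intro i j hij
    obtain ⟨v, hv⟩ := (hF.1 0).1.2.2.1
    have h1 := (hF.2 0 i (Fin.zero_le _)).1 hv
    have h2 := (hF.2 0 j (Fin.zero_le _)).1 hv
    rw [hij] at h1
    exact Finset.disjoint_left.1 (hF.1 j).1.2.2.2.2 h2 h1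
  obtain ⟨tg, htg⟩ : ∃ tg : Fin (M + 1) × Bool → V,
      ∀ s : Fin m', tg (κ s) = b ⟨s.1, lt_of_lt_of_le s.2 hm⟩ :=
    ⟨Function.extend κ (fun s => b ⟨s.1, lt_of_lt_of_le s.2 hm⟩) 0, fun s =>
      hκ.extend_apply _ _ s⟩
  obtain ⟨P1, hP1, hP2⟩ : ∃ P1 : Pr n → V, (∀ i, P1 (F i) = tg (i, true)) ∧
      ∀ i, P1 (F i).swap = tg (i, true) - tg (i, false) := by
    refine ⟨Function.extend F (fun i => tg (i, true))
      (Function.extend (fun i => (F i).swap) (fun i => tg (i, true) - tg (i, false)) 0), ?_, ?_⟩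
    · intro i
      exact hFinj.extend_apply _ _ i
    · intro i
      rw [Function.extend_apply' _ _ _ (by
        rintro ⟨j, hj⟩
        exact hne j i hj)]
      exact hswap.extend_apply (fun i => tg (i, true) - tg (i, false)) 0 i
  refine ⟨P1, ?_⟩
  ext s j
  show (if (κ s).2 then co b (P1 (F (κ s).1)) j.1
        else co b (P1 (F (κ s).1)) j.1 - co b (P1 (F (κ s).1).swap) j.1) = _
  rw [hP1, hP2, Matrix.one_apply]
  have hval : co b (tg (κ s)) j.1 = if s = j then 1 else 0 := by
    rw [htg, K8c1_co_basis b _ _ _ (lt_of_lt_of_le j.2 hm)]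
    simp only [Fin.ext_iff]
  rw [← hval]
  by_cases h : (κ s).2 = true
  · rw [if_pos h]
    have : κ s = ((κ s).1, true) := Prod.ext rfl h
    rw [← this]
  · rw [if_neg h, K8c1_co_sub, sub_sub_cancel]
    have h' : (κ s).2 = false := by simpa using h
    have : κ s = ((κ s).1, false) := Prod.ext rfl h'
    rw [← this]

/-- ROW K8c. For one flag, one injective choice of `m' ≤ d+1` of the `2(M+1)` vectors, the determinant is
nonzero on a dense open set.
Proof. `K8b` with the linear map `L P = (matrix)`, and the point `x1`: we need `P1 : Pr n → V` with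
`u (κ s) = b_s` where `u (i, true) = P1 (F i)`, `u (i, false) = P1 (F i) - P1 (F i).swap` (then the
matrix is the identity). The `2(M+1)` pairs `F i`, `(F i).swap` are distinct: `F i ≠ F i'` by the
levels, and `F i ≠ (F i').swap` because `(F 0).1` is a nonempty subset of `(F i).1` and of `(F i').1`,
so `F i = (F i').swap` would put it inside `(F i').2`, which is disjoint from `(F i').1`.
So we may prescribe the values: `target : Fin (M+1) × Bool → V` with `target (κ s) = b_s`, `0`
elsewhere (`κ` injective), `P1 (F i) = target (i,true)`,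
`P1 (F i).swap = target (i,true) - target (i,false)`. -/
theorem det_generic {V : Type*} [NormedAddCommGroup V] [NormedSpace ℝ V] [FiniteDimensional ℝ V]
    {n d : ℕ} (b : Module.Basis (Fin (d + 1)) ℝ V) (Δ : Finset (Finset (Fin n)))
    (M : ℕ) (F : Fin (M + 1) → Pr n) (hF : IsFl Δ M F) (m' : ℕ) (hm : m' ≤ d + 1)
    (κ : Fin m' → Fin (M + 1) × Bool) (hκ : Function.Injective κ) :
    IsOpen {P : Pr n → V | (Matrix.of (fun (s j : Fin m') =>
        if (κ s).2 then co b (P (F (κ s).1)) j.1
        else co b (P (F (κ s).1)) j.1 - co b (P (F (κ s).1).swap) j.1)).det ≠ 0} ∧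
      Dense {P : Pr n → V | (Matrix.of (fun (s j : Fin m') =>
        if (κ s).2 then co b (P (F (κ s).1)) j.1
        else co b (P (F (κ s).1)) j.1 - co b (P (F (κ s).1).swap) j.1)).det ≠ 0} := by
  obtain ⟨P1, hP1⟩ := K8c1_point b Δ M F hF m' hm κ hκ
  constructor
  · have hc : Continuous (K8c1_L b M F m' κ) := LinearMap.continuous_of_finiteDimensional _
    exact isOpen_ne_fun hc.matrix_det continuous_const
  · have h1 : (K8c1_L b M F m' κ P1).det ≠ 0 := by
      rw [hP1, Matrix.det_one]
      exact one_ne_zero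
    exact det_dense m' (K8c1_L b M F m' κ) P1 h1

end MP528
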