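import Pool.Agent.Lib.MP_528ca9_co.K8c1

namespace MP528

open Finset

/-- ROW K8c'. Proof: intersect the finitely many dense open sets of K8c (all `M ≤ d`, all flags `F`
(finitely many functions), all `m' ≤ d+1`, all injective `κ`): the intersection is dense
(`dense_iInter_of_isOpen` or finite induction with `Dense.inter_of_isOpen_left`), meets `O`;
then `Gp_of_det`. -/
theorem generic_exists {V : Type*} [NormedAddCommGroup V] [NormedSpace ℝ V] [FiniteDimensional ℝ V]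
    {n d : ℕ} (b : Module.Basis (Fin (d + 1)) ℝ V) (Δ : Finset (Finset (Fin n)))
    (O : Set (Pr n → V)) (hO : IsOpen O) (hne : O.Nonempty) :
    ∃ P ∈ O, ∀ M ≤ d, ∀ F : Fin (M + 1) → Pr n, IsFl Δ M F → ∀ m ≤ d + 1,
      Gp (fun (s : Fin (M + 1) × Bool) j =>
        if s.2 then co b (P (F s.1)) j else co b (P (F s.1)) j - co b (P (F s.1).swap) j) m := by
  have : CompleteSpace V := FiniteDimensional.complete ℝ V
  let I : Type := Σ M : Fin (d + 1), {F : Fin (M.1 + 1) → Pr n // IsFl Δ M.1 F} ×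
    (Σ m' : Fin (d + 2), {κ : Fin m'.1 → Fin (M.1 + 1) × Bool // Function.Injective κ})
  let U : I → Set (Pr n → V) := fun x => {P : Pr n → V | (Matrix.of (fun (s j : Fin x.2.2.1.1) =>
        if (x.2.2.2.1 s).2 then co b (P (x.2.1.1 (x.2.2.2.1 s).1)) j.1
        else co b (P (x.2.1.1 (x.2.2.2.1 s).1)) j.1 -
          co b (P (x.2.1.1 (x.2.2.2.1 s).1).swap) j.1)).det ≠ 0}
  have hU : ∀ x, IsOpen (U x) ∧ Dense (U x) := fun x =>
    det_generic b Δ x.1.1 x.2.1.1 x.2.1.2 x.2.2.1.1 (by have := x.2.2.1.2; omega) x.2.2.2.1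
      x.2.2.2.2
  have hD : Dense (⋂ x, U x) := dense_iInter_of_isOpen (fun x => (hU x).1) (fun x => (hU x).2)
  obtain ⟨P, hPO, hP⟩ := hD.inter_open_nonempty O hO hne
  refine ⟨P, hPO, fun M hM F hF m hm => ?_⟩
  refine Gp_of_det _ m fun m' hm' κ hκ => ?_
  have := Set.mem_iInter.1 hP
    (⟨⟨M, by omega⟩, ⟨F, hF⟩, ⟨⟨m', by omega⟩, ⟨κ, hκ⟩⟩⟩ : I)
  exact this

end MP528
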