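import Pool.Agent.Lib.MP_528ca9_co.K8a
import Pool.Agent.Lib.MP_528ca9_co.K8b

namespace MP528

open Finset

/-- coordinates with respect to a basis, extended by zero -/
noncomputable def co {V : Type*} [AddCommGroup V] [Module ℝ V] {d : ℕ}
    (b : Module.Basis (Fin (d + 1)) ℝ V) (v : V) (j : ℕ) : ℝ :=
  if h : j < d + 1 then b.repr v ⟨j, h⟩ else 0

end MP528
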