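import Pool.Agent.Lib.MP_528ca9_co.K8c

namespace MP528

open Finset

theorem K8d_basis {V : Type*} [NormedAddCommGroup V] [NormedSpace ℝ V] [FiniteDimensional ℝ V]
    {d : ℕ} (hV : Module.finrank ℝ V = d + 1) (p0 : V) (hp0 : p0 ≠ 0) :
    ∃ b : Module.Basis (Fin (d + 1)) ℝ V, b (Fin.last d) = p0 := by
  classical
  have hs : LinearIndepOn ℝ id ({p0} : Set V) := LinearIndepOn.singleton hp0
  set b0 := Module.Basis.extend hs with hb0
  have hmem : p0 ∈ hs.extend (Set.subset_univ _) :=
    hs.subset_extend (Set.subset_univ _) (Set.mem_singleton p0)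
  have : Fintype (hs.extend (Set.subset_univ ({p0} : Set V))) := FiniteDimensional.fintypeBasisIndex b0
  have hcard : Fintype.card (hs.extend (Set.subset_univ ({p0} : Set V))) = d + 1 := by
    rw [← Module.finrank_eq_card_basis b0, hV]
  set e1 := Fintype.equivFinOfCardEq hcard with he1
  set i0 : hs.extend (Set.subset_univ ({p0} : Set V)) := ⟨p0, hmem⟩ with hi0
  set e2 := e1.trans (Equiv.swap (e1 i0) (Fin.last d)) with he2
  refine ⟨b0.reindex e2, ?_⟩
  rw [Module.Basis.reindex_apply]
  have h1 : e2 i0 = Fin.last d := by
    rw [he2, Equiv.trans_apply, Equiv.swap_apply_left]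
  have h2 : e2.symm (Fin.last d) = i0 := by rw [← h1, Equiv.symm_apply_apply]
  rw [h2, hb0, Module.Basis.extend_apply_self]

/-- ROW K8d. From positively independent vectors to the geometric data.
Proof. Choose a basis `b` of `V` indexed by `Fin (d+1)` with `b (last) = p0` (`p0 ≠ 0`; extend `{p0}` to
a basis and reindex, e.g. `Basis.extend`/`exists_linearIndependent_extension` and an equivalence
moving the element to the last index). Let `O` be the set of `P : Pr n → V` satisfying `hC1`, `hC2`
for all flags (finitely many `F`); it is open by `posInd_open` (the families depend continuously on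
`P`) and contains `P0`. Take `P` from `generic_exists` and put `P' e j = co b (P e) j`.
`gp`: directly. `c1`: equality of all coordinates gives
`∑ a_s • P (F s) - ∑ b_s • P (F s).swap = 0`, use `hC1`. `c2`: if `c > 0` and the first `d`
coordinates of `x = ∑ c_s • P (F s)` vanish and the last is `γ > 0` then `x = γ • p0`, so
`∑ c_s • P (F s) + γ • (-p0) = 0`, contradicting `hC2` (`γ ≠ 0`). -/
theorem exists_GeoP {V : Type*} [NormedAddCommGroup V] [NormedSpace ℝ V] [FiniteDimensional ℝ V]
    {n d : ℕ} (hV : Module.finrank ℝ V = d + 1) (Δ : Finset (Finset (Fin n)))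
    (P0 : Pr n → V) (p0 : V) (hp0 : p0 ≠ 0)
    (hC1 : ∀ F : Fin (d + 1) → Pr n, IsFl Δ d F → PosInd (fun s : Fin (d + 1) × Bool =>
      if s.2 then P0 (F s.1) else - P0 (F s.1).swap))
    (hC2 : ∀ F : Fin (d + 1) → Pr n, IsFl Δ d F → PosInd (fun s : Option (Fin (d + 1)) =>
      s.elim (-p0) (fun i => P0 (F i)))) :
    ∃ P : Pr n → ℕ → ℝ, GeoP Δ d P := by
  classical
  obtain ⟨b, hb⟩ := K8d_basis hV p0 hp0
  -- the open set
  set O1 : Set (Pr n → V) := ⋂ F : Fin (d + 1) → Pr n, ⋂ _ : IsFl Δ d F,
    {P : Pr n → V | PosInd (fun s : Fin (d + 1) × Bool =>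
      if s.2 then P (F s.1) else - P (F s.1).swap)} with hO1
  set O2 : Set (Pr n → V) := ⋂ F : Fin (d + 1) → Pr n, ⋂ _ : IsFl Δ d F,
    {P : Pr n → V | PosInd (fun s : Option (Fin (d + 1)) =>
      s.elim (-p0) (fun i => P (F i)))} with hO2
  have hO1o : IsOpen O1 := by
    refine isOpen_iInter_of_finite (fun F => isOpen_iInter_of_finite (fun _ => ?_))
    have hc : Continuous (fun (P : Pr n → V) (s : Fin (d + 1) × Bool) =>
        if s.2 then P (F s.1) else - P (F s.1).swap) := by
      refine continuous_pi (fun s => ?_)
      by_cases h : s.2 = true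
      · simp only [h, if_true]
        exact continuous_apply _
      · simp only [h]
        exact (continuous_apply _).neg
    exact (posInd_open (ι := Fin (d + 1) × Bool) (V := V)).preimage hc
  have hO2o : IsOpen O2 := by
    refine isOpen_iInter_of_finite (fun F => isOpen_iInter_of_finite (fun _ => ?_))
    have hc : Continuous (fun (P : Pr n → V) (s : Option (Fin (d + 1))) =>
        (s.elim (-p0) (fun i => P (F i)) : V)) := by
      refine continuous_pi (fun s => ?_)
      cases s with
      | none => exact continuous_const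
      | some i => exact continuous_apply _
    exact (posInd_open (ι := Option (Fin (d + 1))) (V := V)).preimage hc
  have hne : (O1 ∩ O2).Nonempty := by
    refine ⟨P0, ?_, ?_⟩
    · rw [hO1, Set.mem_iInter]
      intro F
      rw [Set.mem_iInter]
      intro hF
      exact hC1 F hF
    · rw [hO2, Set.mem_iInter]
      intro F
      rw [Set.mem_iInter]
      intro hF
      exact hC2 F hF
  obtain ⟨P, hPO, hgp⟩ := generic_exists b Δ (O1 ∩ O2) (hO1o.inter hO2o) hne
  have hP1 : ∀ F : Fin (d + 1) → Pr n, IsFl Δ d F → PosInd (fun s : Fin (d + 1) × Bool =>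
      if s.2 then P (F s.1) else - P (F s.1).swap) := by
    intro F hF
    have h := hPO.1
    rw [hO1, Set.mem_iInter] at h
    have h := h F
    rw [Set.mem_iInter] at h
    exact h hF
  have hP2 : ∀ F : Fin (d + 1) → Pr n, IsFl Δ d F → PosInd (fun s : Option (Fin (d + 1)) =>
      s.elim (-p0) (fun i => P (F i))) := by
    intro F hF
    have h := hPO.2
    rw [hO2, Set.mem_iInter] at h
    have h := h F
    rw [Set.mem_iInter] at h
    exact h hF
  have hco : ∀ (v : V) (j : Fin (d + 1)), co b v j.1 = b.repr v j := by
    intro v j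
    rw [co, dif_pos j.2]
  have hsum : ∀ (c : Fin (d + 1) → ℝ) (w : Fin (d + 1) → V) (j : Fin (d + 1)),
      b.repr (∑ s, c s • w s) j = ∑ s, c s * co b (w s) j.1 := by
    intro c w j
    rw [map_sum, Finsupp.finsetSum_apply]
    refine Finset.sum_congr rfl (fun s _ => ?_)
    rw [map_smul, Finsupp.smul_apply, smul_eq_mul, hco]
  refine ⟨fun e j => co b (P e) j, ?_, ?_, ?_⟩
  · intro M hM F hF m hm
    exact hgp M hM F hF m hm
  · intro F hF a b' ha hb' heq
    have hx : ∑ s, a s • P (F s) = ∑ s, b' s • P (F s).swap := by
      apply b.repr.injective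
      ext j
      rw [hsum a (fun s => P (F s)) j, hsum b' (fun s => P (F s).swap) j]
      exact heq j.1 j.2
    have hpi := hP1 F hF (fun s => if s.2 then a s.1 else b' s.1)
      (by
        intro s
        by_cases h : s.2 = true
        · simp only [h, if_true]; exact ha _
        · simp only [h]; exact hb' _)
      (by
        rw [Fintype.sum_prod_type]
        simp only [Fintype.sum_bool, if_true, Bool.false_eq_true, if_false, smul_neg]
        rw [Finset.sum_add_distrib, Finset.sum_neg_distrib, hx, add_neg_cancel])
    refine ⟨fun s => ?_, fun s => ?_⟩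
    · have := hpi (s, true)
      simpa using this
    · have := hpi (s, false)
      simpa using this
  · intro F hF hNI
    obtain ⟨c, hc, h0, hpos⟩ := hNI
    set γ : ℝ := ∑ s, c s * co b (P (F s)) d with hγ
    have hx : ∑ s, c s • P (F s) = γ • p0 := by
      apply b.repr.injective
      ext j
      rw [hsum c (fun s => P (F s)) j, map_smul, Finsupp.smul_apply, smul_eq_mul, ← hb,
        Module.Basis.repr_self]
      by_cases hj : j = Fin.last d
      · rw [hj, Finsupp.single_eq_same, mul_one, hγ]
        rfl
      · rw [Finsupp.single_eq_of_ne hj, mul_zero]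
        have hjd : j.1 < d := by
          have := j.2
          have h2 : j.1 ≠ d := fun h => hj (Fin.ext h)
          omega
        exact h0 j.1 hjd
    have hpi := hP2 F hF (fun s => s.elim γ c)
      (by
        intro s
        cases s with
        | none => exact le_of_lt hpos
        | some i => exact le_of_lt (hc i))
      (by
        rw [Fintype.sum_option]
        simp only [Option.elim_none, Option.elim_some, smul_neg]
        rw [hx, neg_add_cancel])
    have := hpi none
    simp only [Option.elim_none] at this
    rw [this] at hpos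
    exact lt_irrefl _ hpos

end MP528
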