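import Pool.Agent.Lib.MP_528ca9_co.Comb

/-!
Block K: definitions for the geometric van Kampen cochain.
-/

namespace MP528

open Finset

/-- pairs of faces -/
abbrev Pr (n : ℕ) := Finset (Fin n) × Finset (Fin n)

/-- pair of disjoint nonempty faces -/
def PairOK {n : ℕ} (Δ : Finset (Finset (Fin n))) (e : Pr n) : Prop :=
  e.1 ∈ Δ ∧ e.2 ∈ Δ ∧ e.1.Nonempty ∧ e.2.Nonempty ∧ Disjoint e.1 e.2

/-- level of a pair -/
def lev {n : ℕ} (e : Pr n) : ℕ := e.1.card + e.2.card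

/-- coboundary on pairs with nonempty components -/
def cov {n : ℕ} (h : Pr n → ZMod 2) (e : Pr n) : ZMod 2 :=
  (∑ v ∈ e.1, if (e.1.erase v).Nonempty then h (e.1.erase v, e.2) else 0) +
    ∑ v ∈ e.2, if (e.2.erase v).Nonempty then h (e.1, e.2.erase v) else 0

/-- sum of a function over the flags (chains of covers) ending at `e` -/
def flagSum {n : ℕ} : (m : ℕ) → ((Fin (m + 1) → Pr n) → ZMod 2) → Pr n → ZMod 2
  | 0, a, e => a (fun _ => e)
  | (m + 1), a, e => cov (fun e' => flagSum m (fun F => a (Fin.snoc F e)) e') e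

/-- flags of pairs of faces starting at level 2 -/
def IsFl {n : ℕ} (Δ : Finset (Finset (Fin n))) (m : ℕ) (F : Fin (m + 1) → Pr n) : Prop :=
  (∀ i, PairOK Δ (F i) ∧ lev (F i) = i.1 + 2) ∧
    ∀ i j, i ≤ j → (F i).1 ⊆ (F j).1 ∧ (F i).2 ⊆ (F j).2

open Classical in
/-- indicator with values in `ZMod 2` -/
noncomputable def ind (p : Prop) : ZMod 2 := if p then 1 else 0

/-- The open cone of `z_0..z_m` meets the set (first `m` coordinates zero, coordinate `m`
positive). -/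
def NI (m : ℕ) (z : Fin (m + 1) → ℕ → ℝ) : Prop :=
  ∃ c : Fin (m + 1) → ℝ, (∀ s, 0 < c s) ∧ (∀ j < m, ∑ s, c s * z s j = 0) ∧
    0 < ∑ s, c s * z s m

/-- general position: any `m` of the vectors are independent in the first `m` coordinates -/
def Gp {ι : Type*} [Fintype ι] (z : ι → ℕ → ℝ) (m : ℕ) : Prop :=
  ∀ c : ι → ℝ, Nat.card {s // c s ≠ 0} ≤ m → (∀ j < m, ∑ s, c s * z s j = 0) → ∀ s, c s = 0

/-- `P_0..P_r, Z_r..Z_{M-1}` -/
def prismvec {X : Type*} {M : ℕ} (P Z : Fin M → X) (r : Fin M) : Fin (M + 1) → X := fun i =>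
  if h : i.1 ≤ r.1 then P ⟨i.1, lt_of_le_of_lt h r.2⟩ else Z ⟨i.1 - 1, by omega⟩

/-- The geometric data needed for the vanishing of the van Kampen cochain. -/
structure GeoP {n : ℕ} (Δ : Finset (Finset (Fin n))) (d : ℕ) (P : Pr n → ℕ → ℝ) : Prop where
  /-- general position of the vectors `P(F i)` and `P(F i) - P(swap (F i))` along flags -/
  gp : ∀ M ≤ d, ∀ F : Fin (M + 1) → Pr n, IsFl Δ M F → ∀ m ≤ d + 1,
    Gp (fun (s : Fin (M + 1) × Bool) j =>
      if s.2 then P (F s.1) j else P (F s.1) j - P (F s.1).swap j) m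
  /-- positive independence -/
  c1 : ∀ F : Fin (d + 1) → Pr n, IsFl Δ d F → ∀ a b : Fin (d + 1) → ℝ, (∀ s, 0 ≤ a s) →
    (∀ s, 0 ≤ b s) → (∀ j < d + 1, ∑ s, a s * P (F s) j = ∑ s, b s * P (F s).swap j) →
    (∀ s, a s = 0) ∧ ∀ s, b s = 0
  /-- the last coordinate direction is not in the open cone of the `P` -/
  c2 : ∀ F : Fin (d + 1) → Pr n, IsFl Δ d F → ¬ NI d (fun s => P (F s))

end MP528
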