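import Pool.Agent.Lib.MP_528ca9_co.S1
import Pool.Agent.Lib.MP_528ca9_co.KDefs

namespace MP528

open Finset

/-- ROW K9a. Antisymmetric choice of separating functionals. (Choose `l e` by `sep_functional` for
`enc e.1 < enc e.2`, `enc` injective on finsets, and put `l e = - l e.swap` for
`enc e.1 > enc e.2`, `l e = 0` if `e.1 = e.2`.) -/
theorem exists_ls {V : Type*} [NormedAddCommGroup V] [InnerProductSpace ℝ V]
    [FiniteDimensional ℝ V] {n : ℕ} (K : Fin n → Set V) (d : ℕ)
    (hcpt : ∀ j, IsCompact (K j)) (hcvx : ∀ j, Convex ℝ (K j)) (hne : ∀ j, (K j).Nonempty)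
    (hsep : ∀ S : Finset (Fin n), S.card ≤ d → ∀ x : Fin n → V, (∀ j ∈ S, x j ∈ K j) →
      LinearIndependent ℝ (fun j : S => x j)) :
    ∃ l : Pr n → V, (∀ e, l e.swap = - l e) ∧ ∀ e : Pr n, e.1.Nonempty → e.2.Nonempty →
      Disjoint e.1 e.2 → lev e ≤ d →
      (∀ j ∈ e.1, ∀ y ∈ K j, inner ℝ y (l e) < 0) ∧ (∀ j ∈ e.2, ∀ y ∈ K j, 0 < inner ℝ y (l e)) := by
  classical
  have hg : ∀ e : Pr n, ∃ l : V, Disjoint e.1 e.2 → lev e ≤ d →
      (∀ j ∈ e.1, ∀ y ∈ K j, inner ℝ y l < 0) ∧ (∀ j ∈ e.2, ∀ y ∈ K j, 0 < inner ℝ y l) := by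
    intro e
    by_cases h : Disjoint e.1 e.2 ∧ lev e ≤ d
    · have hc : (e.1 ∪ e.2).card ≤ d := by
        rw [Finset.card_union_of_disjoint h.1]; exact h.2
      obtain ⟨l, hl⟩ := sep_functional K d hcpt hcvx hne hsep e.1 e.2 h.1 hc
      exact ⟨l, fun _ _ => hl⟩
    · exact ⟨0, fun h1 h2 => absurd ⟨h1, h2⟩ h⟩
  choose g hg using hg
  set enc : Finset (Fin n) → ℕ := Encodable.encode with henc
  have hinj : Function.Injective enc := Encodable.encode_injective
  refine ⟨fun e => if enc e.1 < enc e.2 then g e else if enc e.2 < enc e.1 then - g e.swap else 0,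
    ?_, ?_⟩
  · intro e
    simp only [Prod.fst_swap, Prod.snd_swap, Prod.swap_swap]
    by_cases h1 : enc e.1 < enc e.2
    · have h2 : ¬ enc e.2 < enc e.1 := by omega
      rw [if_neg h2, if_pos h1, if_pos h1]
    · by_cases h2 : enc e.2 < enc e.1
      · rw [if_pos h2, if_neg h1, if_pos h2, neg_neg]
      · rw [if_neg h2, if_neg h1, if_neg h1, if_neg h2, neg_zero]
  · intro e he1 he2 hd hlev
    have hne' : enc e.1 ≠ enc e.2 := by
      intro h
      have h3 : e.1 = e.2 := hinj h
      rw [h3] at hd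
      exact he2.ne_empty (Finset.disjoint_self_iff_empty _ |>.1 hd)
    by_cases h1 : enc e.1 < enc e.2
    · simp only [if_pos h1]
      exact hg e hd hlev
    · have h2 : enc e.2 < enc e.1 := by omega
      simp only [if_neg h1, if_pos h2]
      have hlev' : lev e.swap ≤ d := by
        unfold lev at hlev ⊢
        simp only [Prod.fst_swap, Prod.snd_swap]
        omega
      obtain ⟨ha, hb⟩ := hg e.swap hd.symm hlev'
      refine ⟨fun j hj y hy => ?_, fun j hj y hy => ?_⟩
      · rw [inner_neg_right]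
        have := hb j hj y hy
        linarith
      · rw [inner_neg_right]
        have := ha j hj y hy
        linarith

end MP528
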