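import Pool.Agent.Lib.MP_528ca9_co.K8a
import Pool.Agent.Lib.MP_528ca9_co.KDefs

namespace MP528

open Finset

private theorem K9b_neg {ι V : Type*} [Fintype ι] [NormedAddCommGroup V] [InnerProductSpace ℝ V]
    (w : ι → V) (y : V) (h : ∀ s, inner ℝ y (w s) < 0) : PosInd w := by
  intro c hc hsum s
  have h1 : ∑ s, c s * inner ℝ y (w s) = 0 := by
    have h2 : inner ℝ y (∑ s, c s • w s) = ∑ s, c s * inner ℝ y (w s) := by
      rw [inner_sum]
      exact Finset.sum_congr rfl (fun s _ => by rw [inner_smul_right])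
    rw [← h2, hsum, inner_zero_right]
  have h3 : ∀ s ∈ (univ : Finset ι), c s * inner ℝ y (w s) ≤ 0 := fun s _ =>
    mul_nonpos_of_nonneg_of_nonpos (hc s) (h s).le
  have h4 := (Finset.sum_eq_zero_iff_of_nonpos h3).1 h1 s (Finset.mem_univ s)
  rcases mul_eq_zero.1 h4 with h5 | h5
  · exact h5
  · exact absurd h5 (h s).ne

private theorem K9b_pos {ι V : Type*} [Fintype ι] [NormedAddCommGroup V] [InnerProductSpace ℝ V]
    (w : ι → V) (y : V) (h : ∀ s, 0 < inner ℝ y (w s)) : PosInd w :=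
  K9b_neg w (-y) (fun s => by rw [inner_neg_left]; exact neg_neg_of_pos (h s))

private theorem K9b_lev {n : ℕ} (e : Pr n) : lev e.swap = lev e := by
  unfold lev
  rw [Prod.fst_swap, Prod.snd_swap, Nat.add_comm]

/-- ROW K9b. Positive independence along flags (paper, (C1)).
Proof. Let `∑ a_s P(F s) = ∑ b_s P(F s).swap`, `a, b ≥ 0`, where `P e = l e` if `lev e ≤ d`, else
`v e.1`. `F s` has level `s + 2`, so only `s = d-1, d` use `v`. Let `i ∈ (F 0).1 ⊆ (F s).1`. On `K i`:
`P (F s) < 0` for all `s` (`l`: K9a; `v (F s).1`: `h1`); `P (F s).swap = l (F s).swap = - l (F s) > 0` for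
`s < d-1`; `P (F s).swap = v (F s).2` for `s = d-1, d`. Likewise for `j ∈ (F 0).2 ⊆ (F s).2`:
`P (F s).swap < 0` on `K j`, `P (F s) > 0` on `K j` for `s < d-1`, `P (F s) = v (F s).1` for
`s = d-1,d`. `F (d-1)` and `F d` differ by one element so `(F (d-1)).2 = (F d).2` or
`(F (d-1)).1 = (F d).1`. In the first case let `t = (F d).2`; `i ∉ t`, take `y ∈ K i` with
`⟪y, v t⟫ > 0` (`h2`). At `y` the left side is `≤ 0`, the right side `≥ 0`, and equality forces all
`a_s = 0`, `b_s = 0`. In the second case use `j` and `t = (F d).1` in the same way. (`d ≥ 1`.) -/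
theorem C1_data {V : Type*} [NormedAddCommGroup V] [InnerProductSpace ℝ V]
    {n : ℕ} (K : Fin n → Set V) (d : ℕ) (hd : 1 ≤ d) (hne : ∀ j, (K j).Nonempty)
    (Δ : Finset (Finset (Fin n))) (v : Finset (Fin n) → V)
    (h1 : ∀ σ ∈ Δ, ∀ i ∈ σ, ∀ y ∈ K i, inner ℝ y (v σ) < 0)
    (h2 : ∀ σ ∈ Δ, ∀ j ∉ σ, ∃ y ∈ K j, 0 < inner ℝ y (v σ))
    (l : Pr n → V) (hl : ∀ e, l e.swap = - l e)
    (hls : ∀ e : Pr n, e.1.Nonempty → e.2.Nonempty → Disjoint e.1 e.2 → lev e ≤ d →
      (∀ j ∈ e.1, ∀ y ∈ K j, inner ℝ y (l e) < 0) ∧ (∀ j ∈ e.2, ∀ y ∈ K j, 0 < inner ℝ y (l e)))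
    (F : Fin (d + 1) → Pr n) (hF : IsFl Δ d F) :
    PosInd (fun s : Fin (d + 1) × Bool =>
      if s.2 then (if lev (F s.1) ≤ d then l (F s.1) else v (F s.1).1)
      else - (if lev (F s.1).swap ≤ d then l (F s.1).swap else v (F s.1).swap.1)) := by
  obtain ⟨hok, hmono⟩ := hF
  have hsub1 : ∀ s : Fin (d + 1), (F 0).1 ⊆ (F s).1 := fun s => (hmono 0 s (Fin.zero_le s)).1
  have hsub2 : ∀ s : Fin (d + 1), (F 0).2 ⊆ (F s).2 := fun s => (hmono 0 s (Fin.zero_le s)).2
  have hlast : ∀ s : Fin (d + 1), s ≤ Fin.last d := fun s => Fin.le_last s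
  have hLs : ∀ s : Fin (d + 1), lev (F s) = s.1 + 2 := fun s => (hok s).2
  obtain ⟨i, hi⟩ := (hok 0).1.2.2.1
  obtain ⟨j, hj⟩ := (hok 0).1.2.2.2.1
  set a : Fin (d + 1) := ⟨d - 1, by omega⟩ with ha
  set b : Fin (d + 1) := Fin.last d with hb
  have hab := hmono a b (Fin.le_last a)
  have hla : (F a).1.card + (F a).2.card = d + 1 := by
    have := hLs a
    unfold lev at this
    rw [this]
    show d - 1 + 2 = d + 1
    omega
  have hlb : (F b).1.card + (F b).2.card = d + 2 := by
    have := hLs b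
    unfold lev at this
    rw [this]
    rfl
  have htop : ∀ s : Fin (d + 1), ¬ lev (F s) ≤ d → s = a ∨ s = b := by
    intro s hs
    rw [hLs s] at hs
    have hs2 := s.2
    rcases Nat.lt_or_ge s.1 d with h | h
    · left
      apply Fin.ext
      show s.1 = d - 1
      omega
    · right
      apply Fin.ext
      show s.1 = d
      omega
  by_cases hcase : (F a).2 = (F b).2
  · -- first case: use `K i`
    have hit : i ∉ (F b).2 := fun h' =>
      (Finset.disjoint_left.1 (hok b).1.2.2.2.2) (hsub1 b hi) h'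
    obtain ⟨y, hy, hyv⟩ := h2 (F b).2 (hok b).1.2.1 i hit
    apply K9b_neg _ y
    rintro ⟨s, t⟩
    cases t with
    | true =>
      show inner ℝ y (if lev (F s) ≤ d then l (F s) else v (F s).1) < 0
      by_cases hs : lev (F s) ≤ d
      · rw [if_pos hs]
        exact (hls (F s) (hok s).1.2.2.1 (hok s).1.2.2.2.1 (hok s).1.2.2.2.2 hs).1 i (hsub1 s hi) y hy
      · rw [if_neg hs]
        exact h1 _ (hok s).1.1 i (hsub1 s hi) y hy
    | false =>
      show inner ℝ y (- (if lev (F s).swap ≤ d then l (F s).swap else v (F s).swap.1)) < 0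
      rw [K9b_lev]
      by_cases hs : lev (F s) ≤ d
      · rw [if_pos hs, hl, neg_neg]
        exact (hls (F s) (hok s).1.2.2.1 (hok s).1.2.2.2.1 (hok s).1.2.2.2.2 hs).1 i (hsub1 s hi) y hy
      · rw [if_neg hs, Prod.fst_swap, inner_neg_right]
        have hst : (F s).2 = (F b).2 := by
          rcases htop s hs with h | h
          · rw [h]; exact hcase
          · rw [h]
        rw [hst]
        exact neg_neg_of_pos hyv
  · -- second case: use `K j`
    have hcase1 : (F a).1 = (F b).1 := by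
      have h3 : (F a).2.card < (F b).2.card :=
        Finset.card_lt_card (Finset.ssubset_iff_subset_ne.2 ⟨hab.2, hcase⟩)
      exact Finset.eq_of_subset_of_card_le hab.1 (by omega)
    have hjt : j ∉ (F b).1 := fun h' =>
      (Finset.disjoint_left.1 (hok b).1.2.2.2.2) h' (hsub2 b hj)
    obtain ⟨y, hy, hyv⟩ := h2 (F b).1 (hok b).1.1 j hjt
    apply K9b_pos _ y
    rintro ⟨s, t⟩
    cases t with
    | true =>
      show 0 < inner ℝ y (if lev (F s) ≤ d then l (F s) else v (F s).1)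
      by_cases hs : lev (F s) ≤ d
      · rw [if_pos hs]
        exact (hls (F s) (hok s).1.2.2.1 (hok s).1.2.2.2.1 (hok s).1.2.2.2.2 hs).2 j (hsub2 s hj) y hy
      · rw [if_neg hs]
        have hst : (F s).1 = (F b).1 := by
          rcases htop s hs with h | h
          · rw [h]; exact hcase1
          · rw [h]
        rw [hst]
        exact hyv
    | false =>
      show 0 < inner ℝ y (- (if lev (F s).swap ≤ d then l (F s).swap else v (F s).swap.1))
      rw [K9b_lev]
      by_cases hs : lev (F s) ≤ d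
      · rw [if_pos hs, hl, neg_neg]
        exact (hls (F s) (hok s).1.2.2.1 (hok s).1.2.2.2.1 (hok s).1.2.2.2.2 hs).2 j (hsub2 s hj) y hy
      · rw [if_neg hs, Prod.fst_swap, inner_neg_right]
        exact neg_pos_of_neg (h1 _ (hok s).1.2.1 j (hsub2 s hj) y hy)

end MP528
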