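import Pool.Agent.Lib.MP_528ca9_co.K8a
import Pool.Agent.Lib.MP_528ca9_co.KDefs

namespace MP528

open Finset

/-- if all vectors of a family are negative at one point then the family is positively
independent -/
theorem K9c_aux {ι V : Type*} [Fintype ι] [NormedAddCommGroup V] [InnerProductSpace ℝ V]
    (w : ι → V) (y : V) (hw : ∀ s, inner ℝ y (w s) < 0) : PosInd w := by
  intro c hc hsum
  have h1 : ∑ s, c s * inner ℝ y (w s) = 0 := by
    have h2 : inner ℝ y (∑ s, c s • w s) = ∑ s, c s * inner ℝ y (w s) := by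
      rw [inner_sum]
      refine Finset.sum_congr rfl (fun s _ => ?_)
      rw [inner_smul_right]
    rw [← h2, hsum, inner_zero_right]
  have h3 : ∀ s ∈ (Finset.univ : Finset ι), c s * inner ℝ y (w s) ≤ 0 := fun s _ =>
    mul_nonpos_of_nonneg_of_nonpos (hc s) (hw s).le
  have h4 := (Finset.sum_eq_zero_iff_of_nonpos h3).1 h1
  intro s
  have h5 := h4 s (Finset.mem_univ s)
  rcases mul_eq_zero.1 h5 with h6 | h6
  · exact h6
  · exact absurd h6 (hw s).ne

/-- ROW K9c. (C2): at a point `y ∈ K i`, `i ∈ (F 0).1`, with `⟪y, v ∅⟫ > 0`. -/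
theorem C2_data {V : Type*} [NormedAddCommGroup V] [InnerProductSpace ℝ V]
    {n : ℕ} (K : Fin n → Set V) (d : ℕ)
    (Δ : Finset (Finset (Fin n))) (h0 : ∅ ∈ Δ) (v : Finset (Fin n) → V)
    (h1 : ∀ σ ∈ Δ, ∀ i ∈ σ, ∀ y ∈ K i, inner ℝ y (v σ) < 0)
    (h2 : ∀ σ ∈ Δ, ∀ j ∉ σ, ∃ y ∈ K j, 0 < inner ℝ y (v σ))
    (l : Pr n → V)
    (hls : ∀ e : Pr n, e.1.Nonempty → e.2.Nonempty → Disjoint e.1 e.2 → lev e ≤ d →
      (∀ j ∈ e.1, ∀ y ∈ K j, inner ℝ y (l e) < 0) ∧ (∀ j ∈ e.2, ∀ y ∈ K j, 0 < inner ℝ y (l e)))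
    (F : Fin (d + 1) → Pr n) (hF : IsFl Δ d F) :
    PosInd (fun s : Option (Fin (d + 1)) => s.elim (-(v ∅))
      (fun i => if lev (F i) ≤ d then l (F i) else v (F i).1)) := by
  obtain ⟨i, hi⟩ := (hF.1 0).1.2.2.1
  have hi' : ∀ s, i ∈ (F s).1 := fun s => (hF.2 0 s (Fin.zero_le s)).1 hi
  obtain ⟨y, hy, hpos⟩ := h2 ∅ h0 i (Finset.notMem_empty i)
  refine K9c_aux _ y ?_
  intro s
  cases s with
  | none =>
    simp only [Option.elim_none]
    rw [inner_neg_right]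
    exact neg_neg_of_pos hpos
  | some s =>
    simp only [Option.elim_some]
    obtain ⟨ha, hb, hc, hd, he⟩ := (hF.1 s).1
    split_ifs with hlev
    · exact (hls (F s) hc hd he hlev).1 i (hi' s) y hy
    · exact h1 (F s).1 ha i (hi' s) y hy

end MP528
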