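import Pool.Agent.Lib.MP_528ca9_co.S1
import Pool.Agent.Lib.MP_528ca9_co.K8d
import Pool.Agent.Lib.MP_528ca9_co.K7
import Pool.Agent.Lib.MP_528ca9_co.K9a
import Pool.Agent.Lib.MP_528ca9_co.K9b
import Pool.Agent.Lib.MP_528ca9_co.K9c

namespace MP528

open Finset

/-- ROW K9d. Assembly. If `∅ ∉ Δ` then `Δ = ∅` and the claim is trivial. If `n = 0`, `Δ ⊆ {∅}` and
there are no pairs of total size `≥ 3`. Otherwise `p0 = v ∅ ≠ 0` by `h2` (some `j`), and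
`exists_GeoP` with `P0 e = if lev e ≤ d then l e else v e.1`, `VK_of_GeoP`. -/
theorem vk_geom {V : Type*} [NormedAddCommGroup V] [InnerProductSpace ℝ V]
    [FiniteDimensional ℝ V] {n : ℕ} (K : Fin n → Set V) (d : ℕ) (hd : 1 ≤ d)
    (hV : Module.finrank ℝ V = d + 1)
    (hcpt : ∀ j, IsCompact (K j)) (hcvx : ∀ j, Convex ℝ (K j)) (hne : ∀ j, (K j).Nonempty)
    (hsep : ∀ S : Finset (Fin n), S.card ≤ d → ∀ x : Fin n → V, (∀ j ∈ S, x j ∈ K j) →
      LinearIndependent ℝ (fun j : S => x j))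
    (Δ : Finset (Finset (Fin n))) (hD : DownC Δ) (hc : ∀ σ ∈ Δ, σ.card ≤ d)
    (v : Finset (Fin n) → V)
    (h1 : ∀ σ ∈ Δ, ∀ i ∈ σ, ∀ y ∈ K i, inner ℝ y (v σ) < 0)
    (h2 : ∀ σ ∈ Δ, ∀ j ∉ σ, ∃ y ∈ K j, 0 < inner ℝ y (v σ)) : VK Δ d := by
  by_cases h0 : (∅ : Finset (Fin n)) ∈ Δ
  · rcases isEmpty_or_nonempty (Fin n) with hemp | ⟨⟨j⟩⟩
    · intro r _
      refine ⟨fun _ _ => 0, fun _ _ => rfl, ?_⟩
      intro σ _ τ _ _ hcard
      exfalso
      have e1 : σ = ∅ := Finset.eq_empty_of_isEmpty σ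
      have e2 : τ = ∅ := Finset.eq_empty_of_isEmpty τ
      rw [e1, e2, Finset.card_empty] at hcard
      omega
    · have hp0 : v ∅ ≠ 0 := by
        intro hz
        obtain ⟨y, _, hy⟩ := h2 ∅ h0 j (Finset.notMem_empty j)
        rw [hz, inner_zero_right] at hy
        exact lt_irrefl _ hy
      obtain ⟨l, hl, hls⟩ := exists_ls K d hcpt hcvx hne hsep
      obtain ⟨P, hP⟩ := exists_GeoP hV Δ (fun e => if lev e ≤ d then l e else v e.1) (v ∅) hp0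
        (fun F hF => C1_data K d hd hne Δ v h1 h2 l hl hls F hF)
        (fun F hF => C2_data K d Δ h0 v h1 h2 l hls F hF)
      exact VK_of_GeoP Δ hD d hd hc P hP
  · intro r _
    refine ⟨fun _ _ => 0, fun _ _ => rfl, ?_⟩
    intro σ hσ
    exact absurd (hD σ hσ ∅ (Finset.empty_subset σ)) h0

end MP528
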