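import Pool.Agent.Lib.MP_528ca9_co.LDefs

namespace MP528

open Finset

theorem L1e_fib {α : Type*} [DecidableEq α] (Δ : Finset (Finset α)) (hD : DownC Δ) (r s : ℕ)
    (hrs : r ≤ s) (ρ : Finset α) (hρ : ρ.card = r) :
    Fc (lkF Δ ρ) (s - r) = ((Δ.filter (fun τ => τ.card = s)).filter (fun τ => ρ ⊆ τ)).card := by
  unfold Fc lkF
  refine Finset.card_bij' (fun σ _ => σ ∪ ρ) (fun τ _ => τ \ ρ) ?_ ?_ ?_ ?_
  · intro σ hσ
    simp only [Finset.mem_filter] at hσ ⊢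
    obtain ⟨⟨h1, h2, h3⟩, h4⟩ := hσ
    refine ⟨⟨h3, ?_⟩, Finset.subset_union_right⟩
    rw [Finset.card_union_of_disjoint h2, h4, hρ]
    omega
  · intro τ hτ
    simp only [Finset.mem_filter] at hτ ⊢
    obtain ⟨⟨h1, h2⟩, h3⟩ := hτ
    refine ⟨⟨hD τ h1 _ Finset.sdiff_subset, Finset.sdiff_disjoint, ?_⟩, ?_⟩
    · rw [Finset.sdiff_union_of_subset h3]
      exact h1
    · rw [Finset.card_sdiff_of_subset h3, h2, hρ]
  · intro σ hσ
    simp only [Finset.mem_filter] at hσ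
    obtain ⟨⟨h1, h2, h3⟩, h4⟩ := hσ
    exact Finset.union_sdiff_cancel_right h2
  · intro τ hτ
    simp only [Finset.mem_filter] at hτ
    exact Finset.sdiff_union_of_subset hτ.2

/-- ROW L1e. Double counting of pairs `ρ ⊆ τ`, `|ρ| = r`, `|τ| = s`, `τ ∈ Δ`
(`σ = τ \ ρ`, `τ = σ ∪ ρ`). -/
theorem sum_Fc_lkF {α : Type*} [DecidableEq α] (Δ : Finset (Finset α)) (hD : DownC Δ) (r s : ℕ)
    (hrs : r ≤ s) :
    ∑ ρ ∈ Δ.filter (fun ρ => ρ.card = r), Fc (lkF Δ ρ) (s - r) = s.choose r * Fc Δ s := by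
  have h1 : ∑ ρ ∈ Δ.filter (fun ρ => ρ.card = r), Fc (lkF Δ ρ) (s - r)
      = ∑ ρ ∈ Δ.filter (fun ρ => ρ.card = r),
        ((Δ.filter (fun τ => τ.card = s)).bipartiteAbove (fun ρ τ => ρ ⊆ τ) ρ).card := by
    refine Finset.sum_congr rfl (fun ρ hρ => ?_)
    exact L1e_fib Δ hD r s hrs ρ (Finset.mem_filter.1 hρ).2
  rw [h1, Finset.sum_card_bipartiteAbove_eq_sum_card_bipartiteBelow]
  have h2 : ∀ τ ∈ Δ.filter (fun τ => τ.card = s),
      ((Δ.filter (fun ρ => ρ.card = r)).bipartiteBelow (fun ρ τ => ρ ⊆ τ) τ).card = s.choose r := by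
    intro τ hτ
    obtain ⟨hτΔ, hτs⟩ := Finset.mem_filter.1 hτ
    have h3 : (Δ.filter (fun ρ => ρ.card = r)).bipartiteBelow (fun ρ τ => ρ ⊆ τ) τ
        = Finset.powersetCard r τ := by
      ext ρ
      simp only [Finset.bipartiteBelow, Finset.mem_filter, Finset.mem_powersetCard]
      constructor
      · rintro ⟨⟨_, h4⟩, h5⟩
        exact ⟨h5, h4⟩
      · rintro ⟨h5, h4⟩
        exact ⟨⟨hD τ hτΔ ρ h5, h4⟩, h5⟩
    rw [h3, Finset.card_powersetCard, hτs]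
  rw [Finset.sum_congr rfl h2, Finset.sum_const, smul_eq_mul, Nat.mul_comm]
  rfl

end MP528
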