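import Pool.Agent.Lib.MP_528ca9_co.LDefs
import Pool.Agent.Lib.MP_528ca9_co.G0

namespace MP528

open Finset

theorem L1a_erase {α : Type*} [DecidableEq α] (v : α) (σ : Finset α) (hv : v ∉ σ) (F : Finset α → ZMod 2) :
    ∑ u ∈ insert v σ, F ((insert v σ).erase u) = F σ + ∑ u ∈ σ, F (insert v (σ.erase u)) := by
  rw [Finset.sum_insert hv, Finset.erase_insert hv]
  congr 1
  refine Finset.sum_congr rfl ?_
  intro u hu
  have hne : v ≠ u := fun h => hv (h ▸ hu)
  rw [Finset.erase_insert_of_ne hne]

/-- ROW L1a. Links inherit the van Kampen property, one degree lower.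
Proof. Given `r`, put `r' v = 0`, `r' u = r u + 1` (`u ≠ v`), and take `g` for `r'`. Define
`G σ τ = g (insert v σ) τ + g (insert v τ) σ` (symmetric). For disjoint `σ, τ ∈ lk Δ v` with
`|σ| + |τ| = d + 2`: the pairs `(insert v σ, τ)` and `(σ, insert v τ)` are disjoint pairs of `Δ` with
total size `d + 3`. By `altA_insert` (for `r'`) and `altA_congr` (`r` and `r'` on `σ ∪ τ ∌ v`)
`altA r τ σ + 0 = dlt g (insert v σ) τ`, `altA r σ τ + 0 = dlt g σ (insert v τ)`. (For the pair
`(insert v σ, τ)`: `altA (insert v σ) τ + altA τ (insert v σ) = altA τ σ + 0`.) Expanding,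
`dlt g (insert v σ) τ = g σ τ + ∑_{u ∈ σ} g (insert v (σ.erase u)) τ + ∑_{u ∈ τ} g (insert v σ) (τ.erase u)`
and similarly for the other; adding, `g σ τ` cancels and the rest is `dlt G σ τ` (use the symmetry
of `g`). -/
theorem VK_lk {α : Type*} [DecidableEq α] (Δ : Finset (Finset α)) (v : α) (d : ℕ)
    (h : VK Δ (d + 1)) : VK (lk Δ v) d := by
  intro r hr
  let r' : α → ℕ := fun u => if u = v then 0 else r u + 1
  have hr'v : r' v = 0 := by simp [r']
  have hr'u : ∀ u, u ≠ v → r' u = r u + 1 := by
    intro u hu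
    simp [r', hu]
  have hinj : Function.Injective r' := by
    intro a b hab
    by_cases ha : a = v
    · by_cases hb : b = v
      · rw [ha, hb]
      · rw [ha, hr'v, hr'u b hb] at hab
        omega
    · by_cases hb : b = v
      · rw [hb, hr'v, hr'u a ha] at hab
        omega
      · rw [hr'u a ha, hr'u b hb] at hab
        exact hr (by omega)
  have hvlt : ∀ u, u ≠ v → r' v < r' u := by
    intro u hu
    rw [hr'v, hr'u u hu]
    omega
  obtain ⟨g, hsym, hg⟩ := h r' hinj
  refine ⟨fun σ τ => g (insert v σ) τ + g (insert v τ) σ, ?_, ?_⟩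
  · intro σ τ
    exact add_comm _ _
  · intro σ hσ τ hτ hd hcard
    obtain ⟨hσΔ, hvσ, hσi⟩ := Finset.mem_filter.1 hσ
    obtain ⟨hτΔ, hvτ, hτi⟩ := Finset.mem_filter.1 hτ
    have e1 := hg (insert v σ) hσi τ hτΔ (by
      rw [Finset.disjoint_insert_left]
      exact ⟨hvτ, hd⟩) (by
      rw [Finset.card_insert_of_notMem hvσ]
      omega)
    have e2 := hg σ hσΔ (insert v τ) hτi (by
      rw [Finset.disjoint_insert_right]
      exact ⟨hvσ, hd⟩) (by
      rw [Finset.card_insert_of_notMem hvτ]
      omega)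
    rw [(altA_insert r' v σ τ hvlt hvσ hvτ).1, (altA_insert r' v τ σ hvlt hvτ hvσ).2] at e1
    rw [(altA_insert r' v σ τ hvlt hvσ hvτ).2, (altA_insert r' v τ σ hvlt hvτ hvσ).1] at e2
    have c1 : altA r σ τ = altA r' σ τ := by
      apply altA_congr
      intro x hx y hy
      have hx' : x ≠ v := by
        rintro rfl
        rcases Finset.mem_union.1 hx with h1 | h1
        · exact hvσ h1
        · exact hvτ h1
      have hy' : y ≠ v := by
        rintro rfl
        rcases Finset.mem_union.1 hy with h1 | h1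
        · exact hvσ h1
        · exact hvτ h1
      rw [hr'u x hx', hr'u y hy']
      omega
    have c2 : altA r τ σ = altA r' τ σ := by
      apply altA_congr
      intro x hx y hy
      have hx' : x ≠ v := by
        rintro rfl
        rcases Finset.mem_union.1 hx with h1 | h1
        · exact hvτ h1
        · exact hvσ h1
      have hy' : y ≠ v := by
        rintro rfl
        rcases Finset.mem_union.1 hy with h1 | h1
        · exact hvτ h1
        · exact hvσ h1
      rw [hr'u x hx', hr'u y hy']
      omega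
    rw [c1, c2]
    unfold dlt at e1 e2 ⊢
    rw [L1a_erase v σ hvσ (fun s => g s τ)] at e1
    rw [L1a_erase v τ hvτ (fun s => g σ s)] at e2
    have e3 : ∑ u ∈ σ, g (σ.erase u) (insert v τ) = ∑ u ∈ σ, g (insert v τ) (σ.erase u) :=
      Finset.sum_congr rfl (fun u _ => hsym _ _)
    have e4 : ∑ u ∈ τ, g σ (insert v (τ.erase u)) = ∑ u ∈ τ, g (insert v (τ.erase u)) σ :=
      Finset.sum_congr rfl (fun u _ => hsym _ _)
    rw [e3, e4] at e2
    rw [Finset.sum_add_distrib, Finset.sum_add_distrib]
    have h2 : g σ τ + g σ τ = 0 := CharTwo.add_self_eq_zero _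
    linear_combination e1 + e2 + h2

end MP528
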