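import Pool.Agent.Lib.MP_528ca9_co.LDefs
import Pool.Agent.Lib.MP_528ca9_co.L1a

namespace MP528

open Finset

/-- ROW L1b. -/
theorem DownC_lkF {α : Type*} [DecidableEq α] (Δ : Finset (Finset α)) (ρ : Finset α)
    (h : DownC Δ) : DownC (lkF Δ ρ) := by
  intro σ hσ τ hτ
  unfold lkF at hσ ⊢
  rw [Finset.mem_filter] at hσ ⊢
  obtain ⟨h1, h2, h3⟩ := hσ
  exact ⟨h σ h1 τ hτ, Finset.disjoint_of_subset_left hτ h2,
    h _ h3 _ (Finset.union_subset_union_left hτ)⟩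

/-- ROW L1c. For a down-closed `Δ`, `lkF Δ (insert v ρ) = lk (lkF Δ ρ) v` (`v ∉ ρ`). -/
theorem lkF_insert {α : Type*} [DecidableEq α] (Δ : Finset (Finset α)) (hD : DownC Δ)
    (ρ : Finset α) (v : α) (hv : v ∉ ρ) : lkF Δ (insert v ρ) = lk (lkF Δ ρ) v := by
  ext σ
  have he : insert v σ ∪ ρ = σ ∪ insert v ρ := by
    rw [Finset.insert_union, Finset.union_insert]
  unfold lk lkF
  simp only [Finset.mem_filter]
  rw [he, Finset.disjoint_insert_right, Finset.disjoint_insert_left]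
  constructor
  · rintro ⟨h1, ⟨h2, h3⟩, h4⟩
    exact ⟨⟨h1, h3, hD _ h4 _ (Finset.union_subset_union_right (Finset.subset_insert v ρ))⟩, h2,
      hD _ h4 _ (by rw [← he]; exact Finset.subset_union_left), ⟨hv, h3⟩, h4⟩
  · rintro ⟨⟨h1, h3, _⟩, h2, _, _, h4⟩
    exact ⟨h1, ⟨h2, h3⟩, h4⟩

/-- ROW L1d. Induction on `ρ` with L1a, L1c. -/
theorem VK_lkF {α : Type*} [DecidableEq α] (Δ : Finset (Finset α)) (hD : DownC Δ) (d : ℕ)
    (h : VK Δ d) (ρ : Finset α) (hρ : ρ.card ≤ d) : VK (lkF Δ ρ) (d - ρ.card) := by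
  induction ρ using Finset.induction_on with
  | empty =>
    have h0 : lkF Δ ∅ = Δ := by
      ext σ
      simp [lkF]
    rw [h0]
    simpa using h
  | insert v ρ hv ih =>
    rw [Finset.card_insert_of_notMem hv] at hρ ⊢
    have h1 := ih (by omega)
    have h2 : d - ρ.card = (d - (ρ.card + 1)) + 1 := by omega
    rw [h2] at h1
    rw [lkF_insert Δ hD ρ v hv]
    exact VK_lk _ v _ h1

end MP528
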