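import Pool.Agent.Lib.MP_528ca9_co.L1
import Pool.Agent.Lib.MP_528ca9_co.G14

namespace MP528

open Finset

/-- ROW L2a. One step of the f-vector inequality.
Proof. `d + 2 ≤ 2 s` and `s ≤ d`; put `r = 2(s-1) - d`, `k = d - s + 1 ≥ 1`, so `d - r = 2k`,
`s - r = k + 1`, `s - 1 - r = k`. For every `ρ ∈ Δ`, `|ρ| = r ≤ d`: `VK_lkF` and `gks` give
`Fc (lkF Δ ρ) (k+1) ≤ (2k+2) Fc (lkF Δ ρ) k`. Sum over `ρ` and use L1e twice:
`choose s r * F_s ≤ (2k+2) * choose (s-1) r * F_{s-1}`, `choose (s-1) r ≤ choose s r`,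
`choose s r > 0`. -/
theorem Fc_step {n d s : ℕ} (Δ : Finset (Finset (Fin n))) (hD : DownC Δ) (hV : VK Δ d)
    (h1 : d + 2 ≤ 2 * s) (h2 : s ≤ d) : Fc Δ s ≤ (2 * (d - s + 1) + 2) * Fc Δ (s - 1) := by
  obtain ⟨r, hr⟩ : ∃ r, r = 2 * (s - 1) - d := ⟨_, rfl⟩
  obtain ⟨k, hk⟩ : ∃ k, k = d - s + 1 := ⟨_, rfl⟩
  have e1 : d - r = 2 * k := by omega
  have e2 : s - r = k + 1 := by omega
  have e3 : s - 1 - r = k := by omega
  have hrd : r ≤ d := by omega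
  have hrs : r ≤ s := by omega
  have hrs1 : r ≤ s - 1 := by omega
  have hstep : ∀ ρ ∈ Δ.filter (fun ρ => ρ.card = r),
      Fc (lkF Δ ρ) (k + 1) ≤ (2 * k + 2) * Fc (lkF Δ ρ) k := by
    intro ρ hρ
    have hc : ρ.card = r := (Finset.mem_filter.1 hρ).2
    have h3 : VK (lkF Δ ρ) (2 * k) := by
      have := VK_lkF Δ hD d hV ρ (by omega)
      rwa [hc, e1] at this
    exact gks (lkF Δ ρ) (DownC_lkF Δ ρ hD) h3
  have hsum : ∑ ρ ∈ Δ.filter (fun ρ => ρ.card = r), Fc (lkF Δ ρ) (k + 1)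
      ≤ (2 * k + 2) * ∑ ρ ∈ Δ.filter (fun ρ => ρ.card = r), Fc (lkF Δ ρ) k := by
    rw [Finset.mul_sum]
    exact Finset.sum_le_sum hstep
  have f1 := sum_Fc_lkF Δ hD r s hrs
  have f2 := sum_Fc_lkF Δ hD r (s - 1) hrs1
  rw [e2] at f1
  rw [e3] at f2
  rw [f1, f2] at hsum
  have hch : (s - 1).choose r ≤ s.choose r := Nat.choose_le_choose r (by omega)
  have hpos : 0 < s.choose r := Nat.choose_pos hrs
  have h4 : s.choose r * Fc Δ s ≤ s.choose r * ((2 * k + 2) * Fc Δ (s - 1)) := by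
    calc s.choose r * Fc Δ s ≤ (2 * k + 2) * ((s - 1).choose r * Fc Δ (s - 1)) := hsum
      _ ≤ (2 * k + 2) * (s.choose r * Fc Δ (s - 1)) :=
        Nat.mul_le_mul_left _ (Nat.mul_le_mul_right _ hch)
      _ = s.choose r * ((2 * k + 2) * Fc Δ (s - 1)) := by ring
  have h5 := Nat.le_of_mul_le_mul_left h4 hpos
  rw [← hk]
  exact h5

theorem L2_Fc_le_pow {n : ℕ} (Δ : Finset (Finset (Fin n))) (s : ℕ) : Fc Δ s ≤ n ^ s := by
  have h1 : Fc Δ s ≤ n.choose s := by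
    have h2 : Δ.filter (fun σ => σ.card = s) ⊆ powersetCard s (univ : Finset (Fin n)) := by
      intro σ hσ
      rw [Finset.mem_powersetCard]
      exact ⟨Finset.subset_univ _, (Finset.mem_filter.1 hσ).2⟩
    have h3 := Finset.card_le_card h2
    rw [Finset.card_powersetCard, Finset.card_univ, Fintype.card_fin] at h3
    exact h3
  exact h1.trans (Nat.choose_le_pow n s)

/-- ROW L2b. `F_d ≤ (2d+2)^d n^{(d+1)/2}`.
Proof. By induction on `j`, for `(d+1)/2 + j ≤ d`: `F_{(d+1)/2 + j} ≤ (2d+2)^j F_{(d+1)/2}`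
(L2a; `2(d-s+1)+2 ≤ 2d+2` for `s ≥ 1`), and `F_s ≤ choose n s ≤ n^s`. -/
theorem Fc_bound {n d : ℕ} (Δ : Finset (Finset (Fin n))) (hD : DownC Δ) (hV : VK Δ d) :
    Fc Δ d ≤ (2 * d + 2) ^ d * n ^ ((d + 1) / 2) := by
  have key : ∀ j, (d + 1) / 2 + j ≤ d →
      Fc Δ ((d + 1) / 2 + j) ≤ (2 * d + 2) ^ j * Fc Δ ((d + 1) / 2) := by
    intro j
    induction j with
    | zero => intro _; simp
    | succ j ih =>
      intro hj
      have h1 := Fc_step (s := (d + 1) / 2 + (j + 1)) Δ hD hV (by omega) hj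
      have h2 : (d + 1) / 2 + (j + 1) - 1 = (d + 1) / 2 + j := by omega
      rw [h2] at h1
      calc Fc Δ ((d + 1) / 2 + (j + 1))
          ≤ (2 * (d - ((d + 1) / 2 + (j + 1)) + 1) + 2) * Fc Δ ((d + 1) / 2 + j) := h1
        _ ≤ (2 * d + 2) * ((2 * d + 2) ^ j * Fc Δ ((d + 1) / 2)) :=
          Nat.mul_le_mul (by omega) (ih (by omega))
        _ = (2 * d + 2) ^ (j + 1) * Fc Δ ((d + 1) / 2) := by ring
  have h1 := key (d - (d + 1) / 2) (by omega)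
  have h2 : (d + 1) / 2 + (d - (d + 1) / 2) = d := by omega
  rw [h2] at h1
  calc Fc Δ d ≤ (2 * d + 2) ^ (d - (d + 1) / 2) * Fc Δ ((d + 1) / 2) := h1
    _ ≤ (2 * d + 2) ^ d * n ^ ((d + 1) / 2) :=
      Nat.mul_le_mul (Nat.pow_le_pow_right (by omega) (Nat.sub_le _ _)) (L2_Fc_le_pow Δ _)

end MP528
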