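import Pool.Agent.Lib.MP_528ca9_co.Comb

namespace MP528

open Finset

/-- link of a vertex -/
def lk {α : Type*} [DecidableEq α] (Δ : Finset (Finset α)) (v : α) : Finset (Finset α) :=
  Δ.filter (fun σ => v ∉ σ ∧ insert v σ ∈ Δ)

/-- link of a face -/
def lkF {α : Type*} [DecidableEq α] (Δ : Finset (Finset α)) (ρ : Finset α) : Finset (Finset α) :=
  Δ.filter (fun σ => Disjoint σ ρ ∧ σ ∪ ρ ∈ Δ)



end MP528
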