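import Pool.Agent.Lib.MP_528ca9_co.CB2

namespace MP528

open Finset

variable {V : Type*} [NormedAddCommGroup V] [InnerProductSpace ℝ V] [FiniteDimensional ℝ V] {n d : ℕ}
  {K : Fin n → Set V} {Om : Set V}

/-- nonvanishing of the contact determinant -/
theorem O1a_det_ne (h : CF K Om d) (b : Module.Basis (Fin (d + 1)) ℝ V)
    (e : Fin d → Fin n × Bool) (he : ∀ k k', (e k).1 = (e k').1 → k = k') (x : Fin d → V) (l : V)
    (hl : l ≠ 0) (hx : ∀ k, x k ∈ KK K (e k)) (hxl : ∀ k, inner ℝ (x k) l = 0) :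
    b.det (Fin.snoc x l : Fin (d + 1) → V) ≠ 0 := by
  classical
  have einj : Function.Injective e := fun k k' hk => he k k' (by rw [hk])
  let s : Finset (Fin n × Bool) := univ.image e
  have hs : s.card ≤ d := by
    refine (Finset.card_image_le).trans ?_
    simp
  have hinj : ∀ i ∈ s, ∀ i' ∈ s, i.1 = i'.1 → i = i' := by
    intro i hi i' hi' hii
    obtain ⟨k, -, rfl⟩ := Finset.mem_image.mp hi
    obtain ⟨k', -, rfl⟩ := Finset.mem_image.mp hi'
    rw [he k k' hii]
  let X : Fin n × Bool → V := Function.extend e x 0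
  have hX : ∀ k, X (e k) = x k := fun k => einj.extend_apply x 0 k
  have hXs : ∀ i ∈ s, X i ∈ KK K i := by
    intro i hi
    obtain ⟨k, -, rfl⟩ := Finset.mem_image.mp hi
    rw [hX]; exact hx k
  have hLI := KK_sep h s hs hinj X hXs
  have hLIx : LinearIndependent ℝ x := by
    let g : Fin d → s := fun k => ⟨e k, Finset.mem_image_of_mem e (Finset.mem_univ k)⟩
    have hg : Function.Injective g := fun k k' hk => einj (congrArg Subtype.val hk)
    have h2 := hLI.comp g hg
    have h3 : ((fun i : s => X i) ∘ g) = x := by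
      funext k; exact hX k
    rwa [h3] at h2
  have hnot : l ∉ Submodule.span ℝ (Set.range x) := by
    intro hmem
    have hle : Submodule.span ℝ (Set.range x) ≤ LinearMap.ker ((innerSL ℝ l : V →L[ℝ] ℝ) : V →ₗ[ℝ] ℝ) := by
      rw [Submodule.span_le]
      rintro _ ⟨k, rfl⟩
      show (innerSL ℝ l) (x k) = 0
      rw [innerSL_apply_apply, real_inner_comm]
      exact hxl k
    have h0 : (innerSL ℝ l) l = 0 := hle hmem
    rw [innerSL_apply_apply] at h0
    exact hl (inner_self_eq_zero.mp h0)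
  have hLIs : LinearIndependent ℝ (Fin.snoc x l : Fin (d + 1) → V) :=
    linearIndependent_finSnoc.mpr ⟨hLIx, hnot⟩
  have hcard : Fintype.card (Fin (d + 1)) = Module.finrank ℝ V := by
    rw [h.dim, Fintype.card_fin]
  have hspan := hLIs.span_eq_top_of_card_eq_finrank hcard
  exact ((Module.Basis.is_basis_iff_det b).mp ⟨hLIs, hspan⟩).ne_zero

/-- ROW O1a. (paper 7.1) The sign of the contact determinant.
`x1, x2 : Fin d → V` are the contact vectors of `l1`, `l2` for the labels `e : Fin d → Fin n × Bool`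
(distinct first components). If `l1`, `l2 ∈ Om` are not positively proportional then
`b.det (Fin.snoc x1 l1)` and `b.det (Fin.snoc x2 l2)` have opposite signs.
Proof. `x1 k = ct K (e k) l1`, `x2 k = ct K (e k) l2`. `a_k = -⟪x1 k, l2⟫ ≥ 0` (as
`⟪x1 k, l2⟫ ≤ gg (e k) l2 = 0`), `b_k = -⟪x2 k, l1⟫ ≥ 0`. If `a_k = 0` then `x1 k` is a maximiser for `l2`,
so `x1 k = x2 k` (`KK_uniq`) and `b_k = 0`; symmetric. Case A: `l2 = -c • l1`, `c > 0`: then
`⟪x1 k, l2⟫ = -c ⟪x1 k, l1⟫ = 0`, so `x1 = x2` and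
`det (x2, l2) = -c det (x1, l1)`. Case B: `l1, l2` linearly independent. For `θ ∈ [0, π/2]` (or
`t ∈ [0,1]`, with `l_t = (1-t) l1 - t l2`) put
`x_k(t) = x1 k` if `a_k = b_k = 0`, else `((1-t) b_k x1 k + t a_k x2 k) / ((1-t) b_k + t a_k)`, a point of
`KK K (e k)` by convexity, continuous in `t`, with
`⟪x_k(t), l_t⟫ = [(1-t) b_k (t a_k) - t a_k (1-t) b_k]/.. = 0` (`⟪x1 k, l_t⟫ = t a_k`,
`⟪x2 k, l_t⟫ = -(1-t) b_k`), `x_k(0) = x1 k`, `x_k(1) = x2 k` (if `a_k, b_k > 0`). `l_t ≠ 0`. The vectors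
`x_k(t)` are independent (`KK_sep`) and orthogonal to `l_t ≠ 0`, so `(x(t), l_t)` is a basis and its
determinant is nonzero for all `t ∈ [0,1]`; by continuity `det (x1, l1)` and
`det (x2, -l2) = - det (x2, l2)` have the same sign. -/
theorem sign_opp (h : CF K Om d) (b : Module.Basis (Fin (d + 1)) ℝ V)
    (e : Fin d → Fin n × Bool) (he : ∀ k k', (e k).1 = (e k').1 → k = k') (l1 l2 : V)
    (h1 : l1 ∈ Om) (h2 : l2 ∈ Om) (hl1 : ∀ k, gg K (e k) l1 = 0) (hl2 : ∀ k, gg K (e k) l2 = 0)
    (hne : ¬ ∃ c : ℝ, 0 < c ∧ l1 = c • l2) :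
    b.det (Fin.snoc (fun k => ct K (e k) l1) l1) * b.det (Fin.snoc (fun k => ct K (e k) l2) l2) < 0 := by
  classical
  have hz1 : l1 ≠ 0 := fun h0 => h.omZ (h0 ▸ h1)
  have hz2 : l2 ≠ 0 := fun h0 => h.omZ (h0 ▸ h2)
  let x1 : Fin d → V := fun k => ct K (e k) l1
  let x2 : Fin d → V := fun k => ct K (e k) l2
  have m1 : ∀ k, x1 k ∈ KK K (e k) := fun k => ct_mem h (e k) l1
  have m2 : ∀ k, x2 k ∈ KK K (e k) := fun k => ct_mem h (e k) l2
  have i1 : ∀ k, inner ℝ (x1 k) l1 = 0 := fun k => (ct_inner h (e k) l1).trans (hl1 k)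
  have i2 : ∀ k, inner ℝ (x2 k) l2 = 0 := fun k => (ct_inner h (e k) l2).trans (hl2 k)
  let a : Fin d → ℝ := fun k => - inner ℝ (x1 k) l2
  let c : Fin d → ℝ := fun k => - inner ℝ (x2 k) l1
  have ha : ∀ k, 0 ≤ a k := by
    intro k
    have := inner_le_gg h (e k) l2 (x1 k) (m1 k)
    rw [hl2 k] at this
    show 0 ≤ - inner ℝ (x1 k) l2
    linarith
  have hc : ∀ k, 0 ≤ c k := by
    intro k
    have := inner_le_gg h (e k) l1 (x2 k) (m2 k)
    rw [hl1 k] at this
    show 0 ≤ - inner ℝ (x2 k) l1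
    linarith
  have hac : ∀ k, a k = 0 → x1 k = x2 k := by
    intro k hk
    have hk' : inner ℝ (x1 k) l2 = 0 := by
      have : - inner ℝ (x1 k) l2 = (0 : ℝ) := hk
      linarith
    exact KK_uniq h l2 h2 (e k) (x1 k) (x2 k) (m1 k) (m2 k) (hk'.trans (hl2 k).symm)
      ((i2 k).trans (hl2 k).symm)
  have hca : ∀ k, c k = 0 → x1 k = x2 k := by
    intro k hk
    have hk' : inner ℝ (x2 k) l1 = 0 := by
      have : - inner ℝ (x2 k) l1 = (0 : ℝ) := hk
      linarith
    exact KK_uniq h l1 h1 (e k) (x1 k) (x2 k) (m1 k) (m2 k) ((i1 k).trans (hl1 k).symm)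
      (hk'.trans (hl1 k).symm)
  let L : ℝ → V := fun t => (1 - t) • l1 - t • l2
  have hL : ∀ t ∈ Set.Icc (0 : ℝ) 1, L t ≠ 0 := by
    intro t ht h0
    have h0' : (1 - t) • l1 = t • l2 := sub_eq_zero.mp h0
    rcases eq_or_lt_of_le ht.2 with h1t | h1t
    · subst h1t
      simp at h0'
      exact hz2 h0'.symm
    · rcases eq_or_lt_of_le ht.1 with h2t | h2t
      · rw [← h2t] at h0'
        simp at h0'
        exact hz1 h0'
      · apply hne
        refine ⟨(1 - t)⁻¹ * t, by have := sub_pos.mpr h1t; positivity, ?_⟩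
        rw [mul_smul, ← h0', smul_smul, inv_mul_cancel₀ (sub_pos.mpr h1t).ne', one_smul]
  let D : Fin d → ℝ → ℝ := fun k t => (1 - t) * c k + t * a k
  let xt : Fin d → ℝ → V := fun k t =>
    if x1 k = x2 k then x1 k else (D k t)⁻¹ • (((1 - t) * c k) • x1 k + (t * a k) • x2 k)
  have hapos : ∀ k, x1 k ≠ x2 k → 0 < a k := fun k hk =>
    lt_of_le_of_ne (ha k) (fun h0 => hk (hac k h0.symm))
  have hcpos : ∀ k, x1 k ≠ x2 k → 0 < c k := fun k hk =>
    lt_of_le_of_ne (hc k) (fun h0 => hk (hca k h0.symm))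
  have hD : ∀ k, x1 k ≠ x2 k → ∀ t ∈ Set.Icc (0 : ℝ) 1, 0 < D k t := by
    intro k hk t ht
    have p1 := hapos k hk
    have p2 := hcpos k hk
    show 0 < (1 - t) * c k + t * a k
    rcases eq_or_lt_of_le ht.1 with h2t | h2t
    · rw [← h2t]; simpa using p2
    · have : 0 ≤ (1 - t) * c k := mul_nonneg (sub_nonneg.mpr ht.2) p2.le
      have : 0 < t * a k := mul_pos h2t p1
      linarith
  have hxmem : ∀ k, ∀ t ∈ Set.Icc (0 : ℝ) 1, xt k t ∈ KK K (e k) := by
    intro k t ht
    by_cases hk : x1 k = x2 k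
    · simp only [xt, hk, if_true]
      exact m2 k
    · simp only [xt, hk, if_false]
      have hDk := hD k hk t ht
      have hconv := KK_cvx h (e k) (m1 k) (m2 k)
        (a := (D k t)⁻¹ * ((1 - t) * c k)) (b := (D k t)⁻¹ * (t * a k))
        (mul_nonneg (inv_nonneg.mpr hDk.le) (mul_nonneg (sub_nonneg.mpr ht.2) (hc k)))
        (mul_nonneg (inv_nonneg.mpr hDk.le) (mul_nonneg ht.1 (ha k)))
        (by rw [← mul_add]; exact inv_mul_cancel₀ hDk.ne')
      rw [smul_add, smul_smul, smul_smul]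
      exact hconv
  have hxin : ∀ k, ∀ t ∈ Set.Icc (0 : ℝ) 1, inner ℝ (xt k t) (L t) = 0 := by
    intro k t ht
    have e1 : inner ℝ (x1 k) (L t) = t * a k := by
      simp only [L, inner_sub_right, inner_smul_right, i1 k, a]
      ring
    have e2 : inner ℝ (x2 k) (L t) = - ((1 - t) * c k) := by
      simp only [L, inner_sub_right, inner_smul_right, i2 k, c]
      ring
    by_cases hk : x1 k = x2 k
    · simp only [xt, hk, if_true]
      have e3 : a k = 0 := by
        have : - inner ℝ (x1 k) l2 = (0 : ℝ) := by rw [hk, i2 k, neg_zero]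
        exact this
      rw [← hk, e1, e3, mul_zero]
    · simp only [xt, hk, if_false]
      rw [inner_smul_left, inner_add_left, inner_smul_left, inner_smul_left, e1, e2]
      simp only [conj_trivial]
      ring
  have hxcont : ∀ k, ContinuousOn (xt k) (Set.Icc 0 1) := by
    intro k
    by_cases hk : x1 k = x2 k
    · simp only [xt, hk, if_true]
      exact continuousOn_const
    · simp only [xt, hk, if_false]
      apply ContinuousOn.smul
      · apply ContinuousOn.inv₀
        · exact Continuous.continuousOn (by simp only [D]; fun_prop)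
        · intro t ht
          exact (hD k hk t ht).ne'
      · exact Continuous.continuousOn (by fun_prop)
  let f : ℝ → ℝ := fun t => b.det (Fin.snoc (fun k => xt k t) (L t) : Fin (d + 1) → V)
  have hfne : ∀ t ∈ Set.Icc (0 : ℝ) 1, f t ≠ 0 := fun t ht =>
    O1a_det_ne h b e he (fun k => xt k t) (L t) (hL t ht) (fun k => hxmem k t ht)
      (fun k => hxin k t ht)
  have hfcont : ContinuousOn f (Set.Icc 0 1) := by
    simp only [f, Module.Basis.det_apply]
    have hv : ∀ j, ContinuousOn (fun t => (Fin.snoc (fun k => xt k t) (L t) : Fin (d + 1) → V) j)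
        (Set.Icc 0 1) := by
      intro j
      refine Fin.lastCases ?_ (fun k => ?_) j
      · simp only [Fin.snoc_last]
        exact Continuous.continuousOn (by simp only [L]; fun_prop)
      · simp only [Fin.snoc_castSucc]
        exact hxcont k
    have hM : ContinuousOn (fun t => b.toMatrix (Fin.snoc (fun k => xt k t) (L t) : Fin (d + 1) → V))
        (Set.Icc 0 1) := by
      refine continuousOn_pi.mpr (fun i => continuousOn_pi.mpr (fun j => ?_))
      have hcoord : Continuous (b.coord i) := (b.coord i).continuous_of_finiteDimensional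
      exact hcoord.comp_continuousOn (hv j)
    exact (Continuous.matrix_det continuous_id).comp_continuousOn hM
  have hf0 : f 0 = b.det (Fin.snoc x1 l1 : Fin (d + 1) → V) := by
    have hx0 : (fun k => xt k 0) = x1 := by
      funext k
      by_cases hk : x1 k = x2 k
      · simp only [xt, hk, if_true]
      · simp only [xt, hk, if_false, D]
        have := hcpos k hk
        simp only [sub_zero, one_mul, zero_mul, add_zero, zero_smul]
        rw [smul_smul, inv_mul_cancel₀ this.ne', one_smul]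
    have hL0 : L 0 = l1 := by simp [L]
    simp only [f, hx0, hL0]
  have hf1 : f 1 = - b.det (Fin.snoc x2 l2 : Fin (d + 1) → V) := by
    have hx0 : (fun k => xt k 1) = x2 := by
      funext k
      by_cases hk : x1 k = x2 k
      · simp only [xt, hk, if_true]
      · simp only [xt, hk, if_false, D]
        have := hapos k hk
        simp only [sub_self, one_mul, zero_mul, zero_add, zero_smul]
        rw [smul_smul, inv_mul_cancel₀ this.ne', one_smul]
    have hL1 : L 1 = (-1 : ℝ) • l2 := by simp [L]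
    have hupd : (Fin.snoc x2 ((-1 : ℝ) • l2) : Fin (d + 1) → V)
        = Function.update (Fin.snoc x2 l2 : Fin (d + 1) → V) (Fin.last d) ((-1 : ℝ) • l2) := by
      rw [Fin.update_snoc_last]
    have hself : Function.update (Fin.snoc x2 l2 : Fin (d + 1) → V) (Fin.last d) l2
        = (Fin.snoc x2 l2 : Fin (d + 1) → V) := by
      rw [Fin.update_snoc_last]
    simp only [f, hx0, hL1]
    rw [hupd, AlternatingMap.map_update_smul, hself]
    simp
  have hpos : 0 < f 0 * f 1 := by
    by_contra hcon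
    push Not at hcon
    have n0 := hfne 0 (by simp)
    have n1 := hfne 1 (by simp)
    have hlt : f 0 * f 1 < 0 := lt_of_le_of_ne hcon (mul_ne_zero n0 n1)
    have hex : ∃ t ∈ Set.Icc (0 : ℝ) 1, f t = 0 := by
      rcases mul_neg_iff.mp hlt with ⟨p, q⟩ | ⟨p, q⟩
      · obtain ⟨t, ht, hft⟩ := intermediate_value_Icc' (zero_le_one) hfcont
          (show (0 : ℝ) ∈ Set.Icc (f 1) (f 0) from ⟨q.le, p.le⟩)
        exact ⟨t, ht, hft⟩
      · obtain ⟨t, ht, hft⟩ := intermediate_value_Icc (zero_le_one) hfcont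
          (show (0 : ℝ) ∈ Set.Icc (f 0) (f 1) from ⟨p.le, q.le⟩)
        exact ⟨t, ht, hft⟩
    obtain ⟨t, ht, hft⟩ := hex
    exact hfne t ht hft
  rw [hf0, hf1] at hpos
  show b.det (Fin.snoc x1 l1 : Fin (d + 1) → V) * b.det (Fin.snoc x2 l2 : Fin (d + 1) → V) < 0
  linarith

end MP528
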