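import Pool.Agent.Lib.MP_528ca9_co.P1a

namespace MP528

open Finset

variable {V : Type*} [NormedAddCommGroup V] [InnerProductSpace ℝ V] [FiniteDimensional ℝ V] {n d : ℕ}
  {K : Fin n → Set V} {Om : Set V}

theorem P1c_pos (K : Fin n → Set V) (j : Fin n) (l : V) : gg K (j, true) l = supp (K j) l := by
  simp [gg, KK]

theorem P1c_neg (K : Fin n → Set V) (j : Fin n) (l : V) :
    gg K (j, false) l = supp (K j) (-l) := by
  simp only [gg, KK, supp, Bool.false_eq_true, if_false, Set.image_image, inner_neg_left,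
    inner_neg_right]

/-- equality in the Cauchy-Schwarz inequality -/
theorem P1c_ball {b l : V} {r : ℝ} (hl : l ≠ 0) (hb : ‖b‖ ≤ r) (h : inner ℝ b l = r * ‖l‖) :
    b = (r / ‖l‖) • l := by
  have hl' : 0 < ‖l‖ := norm_pos_iff.mpr hl
  have h1 : ‖b - (r / ‖l‖) • l‖ ^ 2 ≤ 0 := by
    rw [norm_sub_sq_real, inner_smul_right, h, norm_smul, Real.norm_eq_abs, mul_pow, sq_abs]
    have h2 : r / ‖l‖ * (r * ‖l‖) = r ^ 2 := by field_simp
    have h3 : (r / ‖l‖) ^ 2 * ‖l‖ ^ 2 = r ^ 2 := by field_simp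
    rw [h2, h3]
    have h4 : ‖b‖ ^ 2 ≤ r ^ 2 := pow_le_pow_left₀ (norm_nonneg b) hb 2
    linarith
  have h5 : ‖b - (r / ‖l‖) • l‖ = 0 := by
    have h6 : ‖b - (r / ‖l‖) • l‖ ^ 2 = 0 := le_antisymm h1 (sq_nonneg _)
    exact pow_eq_zero_iff (two_ne_zero) |>.mp h6
  exact sub_eq_zero.mp (norm_eq_zero.mp h5)

/-- ROW P1c. Uniqueness of maximisers: for `l ≠ 0` a maximiser of `l` on `K j + ball` is `y + b` with
`y` a maximiser on `K j` and `b` a maximiser on the ball, and the latter is `(η/‖l‖) • l`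
(equality in Cauchy-Schwarz; `b = 0` if `η = 0`). -/
theorem pert_uniq (h : CF K Om d) (η : Fin n → ℝ) (hη : ∀ j, 0 ≤ η j) (l : V) (hl : l ∈ Om)
    (j : Fin n) (y y' : V) (hy : y ∈ pert K η j) (hy' : y' ∈ pert K η j)
    (h1 : inner ℝ y l = supp (pert K η j) l) (h2 : inner ℝ y' l = supp (pert K η j) l) :
    y = y' := by
  have hl0 : l ≠ 0 := fun h0 => h.omZ (h0 ▸ hl)
  have hs : supp (pert K η j) l = supp (K j) l + η j * ‖l‖ := by
    have h3 := gg_pert h η hη (j, true) l
    rwa [P1c_pos, P1c_pos] at h3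
  have key : ∀ z ∈ pert K η j, inner ℝ z l = supp (pert K η j) l →
      ∃ a ∈ K j, inner ℝ a l = supp (K j) l ∧ z = a + (η j / ‖l‖) • l := by
    intro z hz hzl
    obtain ⟨a, ha, b, hb, rfl⟩ := Set.mem_add.mp hz
    have hb' : ‖b‖ ≤ η j := mem_closedBall_zero_iff.mp hb
    have h3 : inner ℝ a l ≤ supp (K j) l := by
      have h4 := inner_le_gg h (j, true) l a (by simpa [KK] using ha)
      rwa [P1c_pos] at h4
    have h4 : inner ℝ b l ≤ η j * ‖l‖ :=
      (real_inner_le_norm b l).trans (mul_le_mul_of_nonneg_right hb' (norm_nonneg l))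
    rw [inner_add_left, hs] at hzl
    have h5 : inner ℝ a l = supp (K j) l := by linarith
    have h6 : inner ℝ b l = η j * ‖l‖ := by linarith
    refine ⟨a, ha, h5, ?_⟩
    rw [← P1c_ball hl0 hb' h6]
  obtain ⟨a, ha, ha1, rfl⟩ := key y hy h1
  obtain ⟨a', ha', ha1', rfl⟩ := key y' hy' h2
  rw [h.omU l hl j a ha a' ha' ha1 ha1']

/-- ROW P1d. The contact vector of the perturbed member. -/
theorem ct_pert (h : CF K Om d) (η : Fin n → ℝ) (hη : ∀ j, 0 ≤ η j) (i : Fin n × Bool) (l : V)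
    (hl : l ∈ Om) : ct (pert K η) i l = ct K i l + (η i.1 / ‖l‖) • l := by
  have hl0 : l ≠ 0 := fun h0 => h.omZ (h0 ▸ hl)
  have hl' : 0 < ‖l‖ := norm_pos_iff.mpr hl0
  obtain ⟨j, b⟩ := i
  have hball : (η j / ‖l‖) • l ∈ Metric.closedBall (0 : V) (η j) := by
    rw [mem_closedBall_zero_iff, norm_smul, Real.norm_eq_abs, abs_of_nonneg
      (div_nonneg (hη j) hl'.le), div_mul_cancel₀ _ hl'.ne']
  have hin : ct K (j, b) l + (η j / ‖l‖) • l ∈ KK (pert K η) (j, b) := by
    have h3 := ct_mem h (j, b) l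
    cases b with
    | true =>
      simp only [KK, if_true] at h3 ⊢
      exact Set.add_mem_add h3 hball
    | false =>
      simp only [KK, Bool.false_eq_true, if_false] at h3 ⊢
      obtain ⟨a, ha, ha2⟩ := h3
      refine ⟨a + -((η j / ‖l‖) • l), Set.add_mem_add ha ?_, ?_⟩
      · rw [mem_closedBall_zero_iff] at hball ⊢
        rwa [norm_neg]
      · rw [← ha2]
        simp only [neg_add_rev, neg_neg]
        abel
  have hval : inner ℝ (ct K (j, b) l + (η j / ‖l‖) • l) l = gg (pert K η) (j, b) l := by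
    rw [gg_pert h η hη, inner_add_left, ct_inner h, inner_smul_left, real_inner_self_eq_norm_sq]
    simp only [conj_trivial]
    field_simp
  have hex : ∃ y ∈ KK (pert K η) (j, b), inner ℝ y l = gg (pert K η) (j, b) l :=
    ⟨_, hin, hval⟩
  have hct : ct (pert K η) (j, b) l ∈ KK (pert K η) (j, b) ∧
      inner ℝ (ct (pert K η) (j, b) l) l = gg (pert K η) (j, b) l := by
    unfold ct
    rw [dif_pos hex]
    exact hex.choose_spec
  obtain ⟨h3, h4⟩ := hct
  cases b with
  | true =>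
    simp only [KK, if_true] at h3 hin
    rw [P1c_pos] at h4 hval
    exact pert_uniq h η hη l hl j _ _ h3 hin h4 hval
  | false =>
    simp only [KK, Bool.false_eq_true, if_false] at h3 hin
    obtain ⟨z, hz, hz2⟩ := h3
    obtain ⟨z', hz', hz2'⟩ := hin
    rw [P1c_neg, ← hz2] at h4
    rw [P1c_neg] at hval
    simp only at hz2'
    rw [← hz2', inner_neg_left, ← inner_neg_right] at hval
    rw [inner_neg_left, ← inner_neg_right] at h4
    have h5 := pert_uniq h η hη (-l) (h.omS l hl) j z z' hz hz' h4 hval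
    rw [← hz2, h5]
    exact hz2'

end MP528
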