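import Pool.Agent.Lib.MP_528ca9_co.CB2

namespace MP528

open Finset

variable {V : Type*} [NormedAddCommGroup V] [InnerProductSpace ℝ V] [FiniteDimensional ℝ V] {n d : ℕ}
  {K : Fin n → Set V} {Om : Set V}

open Pointwise in
theorem P1a_KK (K : Fin n → Set V) (η : Fin n → ℝ) (i : Fin n × Bool) :
    KK (pert K η) i = KK K i + Metric.closedBall (0 : V) (η i.1) := by
  unfold KK pert
  rcases i with ⟨j, b⟩
  cases b
  · simp only [Bool.false_eq_true, if_false]
    ext x
    constructor
    · rintro ⟨y, hy, rfl⟩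
      obtain ⟨a, ha, c, hc, rfl⟩ := Set.mem_add.mp hy
      refine Set.mem_add.mpr ⟨-a, ⟨a, ha, rfl⟩, -c, ?_, by simp [add_comm]⟩
      simpa using hc
    · intro hx
      obtain ⟨a, ⟨a', ha', rfl⟩, c, hc, rfl⟩ := Set.mem_add.mp hx
      refine ⟨a' + -c, Set.mem_add.mpr ⟨a', ha', -c, by simpa using hc, rfl⟩, by simp [add_comm]⟩
  · simp only [if_true]

open Pointwise in
/-- ROW P1a. Support functions of the perturbed family (`KK (pert K η) i = KK K i + closedBall 0 (η i.1)`,
and the maximum over a sum is the sum of the maxima; the maximum of `⟪b,l⟫` over the ball is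
`η ‖l‖`, attained at `η l/‖l‖`). -/
theorem gg_pert (h : CF K Om d) (η : Fin n → ℝ) (hη : ∀ j, 0 ≤ η j) (i : Fin n × Bool) (l : V) :
    gg (pert K η) i l = gg K i l + η i.1 * ‖l‖ := by
  unfold gg
  rw [P1a_KK]
  have hmax : IsGreatest ((fun y => inner ℝ y l) '' (KK K i + Metric.closedBall (0 : V) (η i.1)))
      (gg K i l + η i.1 * ‖l‖) := by
    constructor
    · refine ⟨ct K i l + (η i.1 / ‖l‖) • l, Set.mem_add.mpr ⟨ct K i l, ct_mem h i l,
        (η i.1 / ‖l‖) • l, ?_, rfl⟩, ?_⟩
      · rw [mem_closedBall_zero_iff, norm_smul, Real.norm_eq_abs, abs_of_nonneg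
          (div_nonneg (hη _) (norm_nonneg _))]
        by_cases hl : ‖l‖ = 0
        · rw [hl]; simpa using hη i.1
        · rw [div_mul_cancel₀ _ hl]
      · show inner ℝ (ct K i l + (η i.1 / ‖l‖) • l) l = _
        rw [inner_add_left, ct_inner h, inner_smul_left, real_inner_self_eq_norm_sq]
        by_cases hl : ‖l‖ = 0
        · rw [hl]; simp
        · simp only [conj_trivial]
          field_simp
    · rintro _ ⟨y, hy, rfl⟩
      obtain ⟨a, ha, c, hc, rfl⟩ := Set.mem_add.mp hy
      show inner ℝ (a + c) l ≤ _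
      rw [inner_add_left]
      refine add_le_add (inner_le_gg h i l a ha) ?_
      have h1 : inner ℝ c l ≤ ‖c‖ * ‖l‖ := real_inner_le_norm c l
      have h2 : ‖c‖ ≤ η i.1 := by simpa using hc
      exact h1.trans (mul_le_mul_of_nonneg_right h2 (norm_nonneg _))
  exact hmax.csSup_eq

open Pointwise in
/-- ROW P1b. Members stay nonempty, compact, convex, and grow. -/
theorem pert_basic (h : CF K Om d) (η : Fin n → ℝ) (hη : ∀ j, 0 ≤ η j) (j : Fin n) :
    (pert K η j).Nonempty ∧ IsCompact (pert K η j) ∧ Convex ℝ (pert K η j) ∧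
      K j ⊆ pert K η j := by
  have h0 : (0 : V) ∈ Metric.closedBall (0 : V) (η j) := by simpa using hη j
  unfold pert
  refine ⟨(h.ne j).add ⟨0, h0⟩, (h.cpt j).add (isCompact_closedBall 0 (η j)),
    (h.cvx j).add (convex_closedBall 0 (η j)), ?_⟩
  intro x hx
  exact Set.mem_add.mpr ⟨x, hx, 0, h0, by simp⟩

end MP528
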