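import Pool.Agent.Lib.MP_528ca9_co.CB2

namespace MP528

open Finset

variable {V : Type*} [NormedAddCommGroup V] [InnerProductSpace ℝ V] [FiniteDimensional ℝ V] {n d : ℕ}
  {K : Fin n → Set V} {Om : Set V}

/-- one index set -/
theorem P2a_one (h : CF K Om d) (S : Finset (Fin n)) (hS : S.card ≤ d) :
    ∃ ρ > 0, ∀ η : Fin n → ℝ, (∀ j, 0 ≤ η j ∧ η j < ρ) →
      ∀ x : Fin n → V, (∀ j ∈ S, x j ∈ pert K η j) → LinearIndependent ℝ (fun j : S => x j) := by
  have hop : IsOpen {x : S → V | LinearIndependent ℝ x} := isOpen_setOfPred_linearIndependent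
  have hc : IsCompact (Set.pi Set.univ (fun j : S => K j)) :=
    isCompact_univ_pi fun j => h.cpt j
  have hsub : Set.pi Set.univ (fun j : S => K j) ⊆ {x : S → V | LinearIndependent ℝ x} := by
    intro x hx
    have := h.sep S hS (fun j => if hj : j ∈ S then x ⟨j, hj⟩ else 0) (fun j hj => by
      simp only [hj, dif_pos]
      exact hx ⟨j, hj⟩ (Set.mem_univ _))
    have he : (fun j : S => if hj : (j : Fin n) ∈ S then x ⟨j, hj⟩ else 0) = x := by
      funext j
      simp
    rw [he] at this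
    exact this
  obtain ⟨ρ, hρ, hρs⟩ := hc.exists_thickening_subset_open hop hsub
  refine ⟨ρ, hρ, fun η hη x hx => ?_⟩
  apply hρs
  have hy : ∀ j : S, ∃ y ∈ K j, dist (x j) y < ρ := by
    intro j
    have := hx j j.2
    unfold pert at this
    obtain ⟨y, hy, b, hb, hyb⟩ := Set.mem_add.mp this
    refine ⟨y, hy, ?_⟩
    rw [← hyb, dist_eq_norm, add_sub_cancel_left]
    rw [mem_closedBall_zero_iff] at hb
    exact hb.trans_lt (hη j).2
  choose y hy hyd using hy
  rw [Metric.mem_thickening_iff]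
  refine ⟨fun j => y j, fun j _ => hy j, ?_⟩
  rw [dist_pi_lt_iff hρ]
  exact hyd

/-- ROW P2a. Independence of selections persists under small perturbations.
Proof. Fix `S`, `S.card ≤ d`. The set of `x : S → V` with `LinearIndependent ℝ x` is open
(`isOpen_setOf_linearIndependent`), and contains the compact set `∏_{j ∈ S} K j`; so there is `ρ > 0`
such that it contains the closed `ρ`-neighbourhood (`IsCompact.exists_cthickening_subset_open` or
`exists_thickening_subset_open`). `x_j ∈ pert K η j` is within `η j` of a point of `K j`. Take the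
minimum of `ρ` over the finitely many `S`. -/
theorem pert_sep (h : CF K Om d) : ∃ ρ > 0, ∀ η : Fin n → ℝ, (∀ j, 0 ≤ η j ∧ η j < ρ) →
    ∀ S : Finset (Fin n), S.card ≤ d → ∀ x : Fin n → V, (∀ j ∈ S, x j ∈ pert K η j) →
      LinearIndependent ℝ (fun j : S => x j) := by
  have H : ∀ S : Finset (Fin n), ∃ ρ > 0, ∀ η : Fin n → ℝ, (∀ j, 0 ≤ η j ∧ η j < ρ) →
      S.card ≤ d → ∀ x : Fin n → V, (∀ j ∈ S, x j ∈ pert K η j) →
        LinearIndependent ℝ (fun j : S => x j) := by
    intro S
    by_cases hS : S.card ≤ d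
    · obtain ⟨ρ, hρ, hh⟩ := P2a_one h S hS
      exact ⟨ρ, hρ, fun η hη _ => hh η hη⟩
    · exact ⟨1, one_pos, fun η hη h' => absurd h' hS⟩
  choose ρ hρ hh using H
  have hne : (univ : Finset (Finset (Fin n))).Nonempty := ⟨∅, mem_univ _⟩
  refine ⟨(univ : Finset (Finset (Fin n))).inf' hne ρ, ?_, fun η hη S hS x hx => ?_⟩
  · rw [gt_iff_lt, Finset.lt_inf'_iff]
    exact fun S _ => hρ S
  · refine hh S η (fun j => ⟨(hη j).1, (hη j).2.trans_le ?_⟩) hS x hx
    exact Finset.inf'_le _ (mem_univ S)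

end MP528
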