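import Pool.Agent.Lib.MP_528ca9_co.P1
import Pool.Agent.Lib.MP_528ca9_co.P2a

namespace MP528

open Finset

variable {V : Type*} [NormedAddCommGroup V] [InnerProductSpace ℝ V] [FiniteDimensional ℝ V] {n d : ℕ}
  {K : Fin n → Set V} {Om : Set V}

/-- ROW P2b. The perturbed transversal set stays in `Om`.
Proof. `C = sphere 0 1 \ Om` is compact, and on `C` the continuous function `min_i gg K i` is negative
(`omT`: a unit vector with all `gg ≥ 0` is in `Om`), so `≤ -μ < 0` (if `C = ∅` take `μ = 1`). For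
`η < μ` and `l ∈ TT (pert K η)`, `u = l/‖l‖`: if `l ∉ Om` then `u ∉ Om` (`omC`), some
`gg K i u ≤ -μ`, so `gg (pert K η) i u = gg K i u + η < 0`, contradiction by homogeneity. -/
theorem pert_TT (h : CF K Om d) : ∃ ρ > 0, ∀ η : Fin n → ℝ, (∀ j, 0 ≤ η j ∧ η j < ρ) →
    ∀ l ∈ TT (pert K η), l ∈ Om := by
  have hn : 0 < n := lt_of_lt_of_le h.hd h.hn
  have huniv : (univ : Finset (Fin n × Bool)).Nonempty := ⟨(⟨0, hn⟩, true), mem_univ _⟩
  set m : V → ℝ := fun l => (univ : Finset (Fin n × Bool)).inf' huniv (fun i => gg K i l) with hm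
  have hmc : Continuous m := by
    have := Continuous.finset_inf'_apply (s := (univ : Finset (Fin n × Bool))) huniv
      (f := fun i => gg K i) (fun i _ => gg_cont h i)
    exact this
  set C : Set V := Metric.sphere (0 : V) 1 \ Om with hC
  have hCc : IsCompact C := (isCompact_sphere (0 : V) 1).diff h.omO
  have hneg : ∀ l ∈ C, m l < 0 := by
    intro l hl
    by_contra hcon
    push Not at hcon
    apply hl.2
    apply h.omT
    have hl1 : ‖l‖ = 1 := by simpa using hl.1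
    refine ⟨fun h0 => by rw [h0, norm_zero] at hl1; exact zero_ne_one hl1, fun i => ?_⟩
    exact hcon.trans (Finset.inf'_le _ (mem_univ i))
  obtain ⟨μ, hμ, hμC⟩ : ∃ μ > 0, ∀ l ∈ C, m l ≤ -μ := by
    by_cases hCe : C.Nonempty
    · obtain ⟨l0, hl0, hmax⟩ := hCc.exists_isMaxOn hCe hmc.continuousOn
      refine ⟨-m l0, by linarith [hneg l0 hl0], fun l hl => ?_⟩
      have := hmax hl
      simp only [Set.mem_setOf_eq] at this
      linarith
    · rw [Set.not_nonempty_iff_eq_empty] at hCe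
      exact ⟨1, one_pos, fun l hl => by rw [hCe] at hl; exact hl.elim⟩
  refine ⟨μ, hμ, fun η hη l hl => ?_⟩
  by_contra hlO
  obtain ⟨hl0, hlg⟩ := hl
  have hnl : 0 < ‖l‖ := norm_pos_iff.mpr hl0
  have hu : (‖l‖⁻¹ : ℝ) • l ∈ C := by
    refine ⟨by simp [norm_smul, hnl.ne'], fun hO => hlO ?_⟩
    have := h.omC _ hO ‖l‖ hnl
    rwa [smul_smul, mul_inv_cancel₀ hnl.ne', one_smul] at this
  have h1 := hμC _ hu
  obtain ⟨i, _, hi⟩ := Finset.exists_mem_eq_inf' huniv (fun i => gg K i ((‖l‖⁻¹ : ℝ) • l))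
  have h2 : gg K i ((‖l‖⁻¹ : ℝ) • l) ≤ -μ := by
    rw [← hi]; exact h1
  rw [gg_smul h i l _ (inv_nonneg.mpr hnl.le)] at h2
  have h3 := hlg i
  rw [gg_pert h η (fun j => (hη j).1) i l] at h3
  have h4 : gg K i l ≤ -μ * ‖l‖ := by
    have := mul_le_mul_of_nonneg_right h2 hnl.le
    rwa [mul_comm (‖l‖⁻¹) (gg K i l), mul_assoc, inv_mul_cancel₀ hnl.ne', mul_one] at this
  have h5 : η i.1 * ‖l‖ < μ * ‖l‖ := mul_lt_mul_of_pos_right (hη i.1).2 hnl
  linarith

end MP528
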