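import Pool.Agent.Lib.MP_528ca9_co.Basic

namespace MP528

open Set

/-- Every subspace is contained in one of any prescribed larger dimension. -/
theorem r08a_extend {V : Type*} [AddCommGroup V] [Module ℝ V] [FiniteDimensional ℝ V]
    (W : Submodule ℝ V) {k : ℕ} (hk : Module.finrank ℝ W ≤ k) :
    k ≤ Module.finrank ℝ V → ∃ W' : Submodule ℝ V, W ≤ W' ∧ Module.finrank ℝ W' = k := by
  induction k, hk using Nat.le_induction with
  | base => exact fun _ => ⟨W, le_rfl, rfl⟩
  | succ k _ ih =>
    intro hV
    obtain ⟨W', h1, h2⟩ := ih (by omega)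
    have hne : W' ≠ ⊤ := by
      rintro rfl
      rw [finrank_top] at h2
      omega
    obtain ⟨v, -, hv⟩ := SetLike.exists_of_lt (lt_top_iff_ne_top.mpr hne)
    have hv0 : v ≠ 0 := fun h => hv (h ▸ W'.zero_mem)
    refine ⟨W' ⊔ Submodule.span ℝ {v}, h1.trans le_sup_left, ?_⟩
    have h3 := Submodule.finrank_sup_add_finrank_inf_eq W' (Submodule.span ℝ {v})
    have h4 : W' ⊓ Submodule.span ℝ {v} = ⊥ := by
      rw [Submodule.eq_bot_iff]
      rintro x ⟨hx1, hx2⟩
      obtain ⟨a, rfl⟩ := Submodule.mem_span_singleton.mp hx2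
      by_contra ha
      have ha0 : a ≠ 0 := by
        rintro rfl
        exact ha (zero_smul _ _)
      exact hv ((Submodule.smul_mem_iff W' ha0).mp hx1)
    rw [h4, finrank_bot, finrank_span_singleton hv0, h2] at h3
    omega

/-- ROW R08a. Separated families have affinely independent selections.
Proof. Let `S.card = d`, `p i ∈ A i` for `i ∈ S` and suppose the points are affinely dependent. Then
the direction of `affineSpan (p '' S)` has finrank `≤ d - 2` (Mathlib:
`affineIndependent_iff_finrank_vectorSpan_eq` / `finrank_vectorSpan_le_iff_not_affineIndependent`,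
with `Fintype.card S = (d-2) + 2`). Enlarge the direction to a submodule `W` with
`finrank W = d - 2` (`Submodule.exists_le_finrank_eq`-type lemma: e.g. by induction, or
`exists_linearIndependent_extension`; possible because `d - 2 ≤ d = finrank (E d)`), and take
`L = AffineSubspace.mk' (p i0) W`. It contains all `p i` (`i ∈ S`), contradicting `Separated`. -/
theorem affInd_of_separated {d n : ℕ} (hd : 2 ≤ d) (A : Fin n → Set (E d)) (hA : Separated A)
    (S : Finset (Fin n)) (hS : S.card = d) (p : Fin n → E d) (hp : ∀ i ∈ S, p i ∈ A i) :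
    AffineIndependent ℝ (fun i : S => p i) := by
  by_contra h
  have hc : Fintype.card S = (d - 2) + 2 := by
    rw [Fintype.card_coe, hS]
    omega
  rw [← finrank_vectorSpan_le_iff_not_affineIndependent ℝ (fun i : S => p i) hc] at h
  obtain ⟨W, hW1, hW2⟩ := r08a_extend (vectorSpan ℝ (Set.range fun i : S => p i)) h (by
    rw [finrank_euclideanSpace_fin]
    omega)
  obtain ⟨i0, hi0⟩ : S.Nonempty := by
    rw [← Finset.card_pos, hS]
    omega
  obtain ⟨i, hi, hne⟩ := hA S hS (AffineSubspace.mk' (p i0) W)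
    ⟨p i0, AffineSubspace.self_mem_mk' _ _⟩ (by rw [AffineSubspace.direction_mk', hW2])
  apply hne
  refine ⟨p i, ?_, hp i hi⟩
  have h5 : p i -ᵥ p i0 ∈ vectorSpan ℝ (Set.range fun i : S => p i) :=
    vsub_mem_vectorSpan ℝ ⟨⟨i, hi⟩, rfl⟩ ⟨⟨i0, hi0⟩, rfl⟩
  exact (AffineSubspace.mem_mk').mpr (hW1 h5)

end MP528
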