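import Pool.Agent.Lib.MP_528ca9_co.RDefs

namespace MP528

open Finset

/-- ROW R1a. -/
theorem ev_inner {d : ℕ} (x : E d) (l : Wd d) :
    inner ℝ (ev x) l = inner ℝ x l.fst + l.snd := by
  rw [WithLp.prod_inner_apply]
  simp [ev]

/-- ROW R1b. Affine independence of points is linear independence of the lifts
(`∑ c_i ev x_i = (∑ c_i x_i, ∑ c_i)`; `affineIndependent_iff` / `affineIndependent_iff_of_fintype`). -/
theorem ev_linInd {d : ℕ} {ι : Type*} [Fintype ι] (x : ι → E d) (h : AffineIndependent ℝ x) :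
    LinearIndependent ℝ (fun i => ev (x i)) := by
  rw [Fintype.linearIndependent_iff]
  intro g hg
  have h1 : (∑ i, g i • ev (x i)).fst = 0 := by rw [hg]; rfl
  have h2 : (∑ i, g i • ev (x i)).snd = 0 := by rw [hg]; rfl
  have h1' : ∑ i, g i • x i = 0 := by
    have h3 : (∑ i, g i • ev (x i)).fst = ∑ i, (g i • ev (x i)).fst :=
      map_sum (WithLp.fstₗ 2 ℝ (E d) ℝ) _ _
    rw [h3] at h1
    exact h1
  have h2' : ∑ i, g i = 0 := by
    have h3 : (∑ i, g i • ev (x i)).snd = ∑ i, (g i • ev (x i)).snd :=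
      map_sum (WithLp.sndₗ 2 ℝ (E d) ℝ) _ _
    rw [h3] at h2
    simpa [ev] using h2
  intro i
  exact affineIndependent_iff.mp h Finset.univ g h2' h1' i (Finset.mem_univ i)

/-- ROW R1c. -/
theorem finrank_Wd (d : ℕ) : Module.finrank ℝ (Wd d) = d + 1 := by
  rw [(WithLp.linearEquiv 2 ℝ (E d × ℝ)).finrank_eq, Module.finrank_prod,
    finrank_euclideanSpace_fin, Module.finrank_self]

/-- ROW R1d. -/
theorem mem_hy {d : ℕ} (l : Wd d) (hl : l.fst ≠ 0) (x : E d) :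
    x ∈ (hy l hl).1 ↔ inner ℝ (ev x) l = 0 := by
  rw [ev_inner, real_inner_comm]
  show inner ℝ l.fst x = -l.snd ↔ _
  rw [eq_neg_iff_add_eq_zero]

/-- ROW R1e. Every hyperplane is `hy l`. -/
theorem hy_surj {d : ℕ} (H : Hyp d) : ∃ (l : Wd d) (hl : l.fst ≠ 0), H = hy l hl := by
  obtain ⟨v, hv, f, _, hH⟩ := hypOf_surj H
  refine ⟨WithLp.toLp 2 (v, -f), hv, ?_⟩
  rw [hH]
  unfold hy
  simp

/-- ROW R1f. `hy` is continuous on `{l | l.fst ≠ 0}` (`continuous_hypOf`). -/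
theorem hy_cont {d : ℕ} : Continuous (fun l : {l : Wd d // l.fst ≠ 0} => hy l.1 l.2) := by
  have h1 : Continuous (fun l : {l : Wd d // l.fst ≠ 0} => l.1.fst) :=
    (WithLp.continuous_fst 2 _ _).comp continuous_subtype_val
  have h2 : Continuous (fun l : {l : Wd d // l.fst ≠ 0} => -l.1.snd) :=
    ((WithLp.continuous_snd 2 _ _).comp continuous_subtype_val).neg
  have h3 : Continuous (fun l : {l : Wd d // l.fst ≠ 0} =>
      ((⟨l.1.fst, l.2⟩, -l.1.snd) : {v : E d // v ≠ 0} × ℝ)) :=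
    Continuous.prodMk (Continuous.subtype_mk h1 _) h2
  exact continuous_hypOf.comp h3

/-- ROW R1g. (`l.snd = ⟪ev x, l⟫ - ⟪x, l.fst⟫`) If `l.fst = 0` then all values are `l.snd`. -/
theorem tangent_hy {d : ℕ} (l : Wd d) (hl : l.fst ≠ 0) (a : Set (E d)) :
    Tangent (hy l hl) a ↔ (∃ x ∈ a, inner ℝ (ev x) l = 0) ∧
      ((∀ x ∈ a, inner ℝ (ev x) l ≤ 0) ∨ (∀ x ∈ a, 0 ≤ inner ℝ (ev x) l)) := by
  have h1 : ∀ x, inner ℝ (ev x) l = inner ℝ l.fst x - (-l.snd) := by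
    intro x
    rw [ev_inner, real_inner_comm]
    ring
  unfold hy
  rw [tangent_hypOf]
  simp only [h1, sub_nonpos, sub_nonneg, sub_eq_zero]

end MP528
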