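import Pool.Agent.Lib.MP_528ca9_co.RDefs
import Pool.Agent.Lib.MP_528ca9_co.R08a

namespace MP528

open Finset

/-- ROW R2a. A strictly convex set which is not a point is not contained in a hyperplane.
Proof: otherwise the hyperplane is tangent to it (nonempty), so it meets it in exactly one point, but the
whole set lies in the hyperplane. (`tangent_hypOf`.) -/
theorem sconvex_not_flat {d : ℕ} (a : Set (E d)) (ha : SConvex a) (hne : a.Nonempty)
    (hp : ¬ ∃ x, a = {x}) (u : E d) (hu : u ≠ 0) (t : ℝ) : ¬ ∀ y ∈ a, inner ℝ u y = t := by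
  intro h
  obtain ⟨x0, hx0⟩ := hne
  have ht : Tangent (hypOf u hu t) a := by
    rw [tangent_hypOf]
    exact ⟨⟨x0, hx0, h x0 hx0⟩, Or.inl fun x hx => (h x hx).le⟩
  obtain ⟨x, _, hx2⟩ := ha.2 _ ht
  apply hp
  refine ⟨x, ?_⟩
  have h1 : ∀ y ∈ a, y = x := fun y hy => hx2 y ⟨h y hy, hy⟩
  ext y
  constructor
  · intro hy
    exact h1 y hy
  · intro hy
    rw [Set.mem_singleton_iff] at hy
    rw [hy, ← h1 x0 hx0]
    exact hx0

/-- ROW R2b. Maximisers of nonzero linear functionals on a strictly convex set are unique: the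
hyperplane `{⟪u,·⟫ = ⟪u,y⟫}` is tangent. -/
theorem sconvex_uniq {d : ℕ} (a : Set (E d)) (ha : SConvex a) (u : E d) (hu : u ≠ 0)
    (y y' : E d) (hy : y ∈ a) (hy' : y' ∈ a) (h1 : ∀ x ∈ a, inner ℝ u x ≤ inner ℝ u y)
    (h2 : ∀ x ∈ a, inner ℝ u x ≤ inner ℝ u y') : y = y' := by
  have ht : Tangent (hypOf u hu (inner ℝ u y)) a := by
    rw [tangent_hypOf]
    exact ⟨⟨y, hy, rfl⟩, Or.inl h1⟩
  obtain ⟨x, _, hx2⟩ := ha.2 _ ht
  have h3 : (inner ℝ u y' : ℝ) = inner ℝ u y := le_antisymm (h1 y' hy') (h2 y hy)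
  rw [hx2 y ⟨rfl, hy⟩, hx2 y' ⟨h3, hy'⟩]

/-- ROW R2c. Subfamilies of at most `d` members of a separated family of at least `d` members have
affinely independent selections (extend to `d` members: `affInd_of_separated`, and choose arbitrary
points in the other members; `AffineIndependent.comp_embedding`/`mono`). -/
theorem affInd_le {d n : ℕ} (hd : 2 ≤ d) (hn : d ≤ n) (A : Fin n → Set (E d)) (hA : Separated A)
    (hne : ∀ i, (A i).Nonempty) (S : Finset (Fin n)) (hS : S.card ≤ d) (p : Fin n → E d)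
    (hp : ∀ i ∈ S, p i ∈ A i) : AffineIndependent ℝ (fun i : S => p i) := by
  classical
  obtain ⟨S', hSS', hS'⟩ := Finset.exists_superset_card_eq hS (by rw [Fintype.card_fin]; exact hn)
  have h1 := affInd_of_separated hd A hA S' hS' (fun i => if i ∈ S then p i else (hne i).some) (by
    intro i _
    by_cases hi : i ∈ S
    · simp only [if_pos hi]
      exact hp i hi
    · simp only [if_neg hi]
      exact (hne i).some_mem)
  have h2 := h1.comp_embedding ⟨fun i : S => (⟨i.1, hSS' i.2⟩ : S'), by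
    intro i j hij
    exact Subtype.ext (congrArg (fun q : S' => (q : Fin n)) hij)⟩
  have h3 : (fun i : S => p i) = (fun i : S' => if (i : Fin n) ∈ S then p i else (hne i).some) ∘
      (fun i : S => (⟨i.1, hSS' i.2⟩ : S')) := by
    funext i
    simp only [Function.comp_apply, if_pos i.2]
  rw [h3]
  exact h2

end MP528
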