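import Pool.Agent.Lib.MP_528ca9_co.R1

namespace MP528

open Finset

/-- the annihilator of the lifted points of the members in `pt` -/
def R3c_V {d n : ℕ} (A : Fin n → Set (E d)) (pt : Finset (Fin n)) : Submodule ℝ (Wd d) where
  carrier := {l | ∀ j ∈ pt, ∀ x ∈ A j, inner ℝ (ev x) l = 0}
  add_mem' := by
    intro a b ha hb j hj x hx
    rw [inner_add_right, ha j hj x hx, hb j hj x hx, add_zero]
  zero_mem' := by
    intro j _ x _
    exact inner_zero_right _
  smul_mem' := by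
    intro c a ha j hj x hx
    rw [inner_smul_right, ha j hj x hx, mul_zero]

/-- ROW R3c. Existence of the link data.
Proof. Let `pt = {j | ∃ x, A j = {x}}`, `V = (span {ev x_j | j ∈ pt})ᗮ`, `n0 = n - pt.card`,
`sg : Fin n0 → Fin n` an injective enumeration of the complement of `pt` (`Finset.orderEmbOfFin` or
`Fintype.equivFin`), `K k = P '' (ev '' A (sg k))` with `P` the orthogonal projection onto `V`
(`⟪P w, l⟫ = ⟪w, l⟫` for `l ∈ V`). -/
theorem exists_link {d n : ℕ} (A : Fin n → Set (E d)) (hcpt : ∀ i, IsCompact (A i))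
    (hsc : ∀ i, SConvex (A i)) (hne : ∀ i, (A i).Nonempty) :
    ∃ (n0 m : ℕ) (V : Submodule ℝ (Wd d)) (K : Fin n0 → Set V) (sg : Fin n0 → Fin n),
      n0 + m = n ∧ Link A V K sg ∧ (∀ k, ¬ ∃ x, A (sg k) = {x}) ∧
      ∃ pt : Finset (Fin n), pt.card = m ∧ (∀ j, j ∈ pt ↔ j ∉ Set.range sg) := by
  classical
  obtain ⟨pt, hpt⟩ : ∃ pt : Finset (Fin n), pt = univ.filter (fun j => ∃ x, A j = {x}) := ⟨_, rfl⟩
  have hmem : ∀ j, j ∈ pt ↔ ∃ x, A j = {x} := by
    intro j
    rw [hpt]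
    simp
  have hrange : ∀ j, j ∈ Set.range (fun k : Fin ptᶜ.card => ptᶜ.orderEmbOfFin rfl k) ↔ j ∉ pt := by
    intro j
    have h1 : Set.range (fun k : Fin ptᶜ.card => ptᶜ.orderEmbOfFin rfl k) = (ptᶜ : Finset (Fin n)) :=
      Finset.range_orderEmbOfFin _ rfl
    rw [h1]
    simp
  have hsg : ∀ k : Fin ptᶜ.card, ptᶜ.orderEmbOfFin rfl k ∉ pt := fun k =>
    (hrange _).mp ⟨k, rfl⟩
  have hnot : ∀ j, j ∉ Set.range (fun k : Fin ptᶜ.card => ptᶜ.orderEmbOfFin rfl k) ↔ j ∈ pt := by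
    intro j
    rw [hrange, not_not]
  have hproj : ∀ (x : E d) (l : R3c_V A pt),
      inner ℝ ((R3c_V A pt).orthogonalProjectionOnto (ev x)) l = inner ℝ (ev x) (l : Wd d) := by
    intro x l
    exact Submodule.inner_orthogonalProjectionOnto_eq_of_mem_right l (ev x)
  refine ⟨ptᶜ.card, pt.card, R3c_V A pt,
    fun k => (fun x => (R3c_V A pt).orthogonalProjectionOnto (ev x)) '' A (ptᶜ.orderEmbOfFin rfl k),
    fun k => ptᶜ.orderEmbOfFin rfl k, ?_, ?_, ?_, pt, rfl, ?_⟩
  · rw [Finset.card_compl, Fintype.card_fin]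
    have := Finset.card_le_univ pt
    rw [Fintype.card_fin] at this
    omega
  · refine ⟨(ptᶜ.orderEmbOfFin rfl).injective, ?_, ?_, ?_, ?_, ?_, ?_, ?_⟩
    · intro j hj
      exact (hmem j).mp ((hnot j).mp hj)
    · intro l
      constructor
      · intro hl j hj x hx
        exact hl j ((hnot j).mp hj) x hx
      · intro hl j hj x hx
        exact hl j ((hnot j).mpr hj) x hx
    · rintro k y ⟨x, hx, rfl⟩
      exact ⟨x, hx, fun l => hproj x l⟩
    · intro k x hx
      exact ⟨_, ⟨x, hx, rfl⟩, fun l => hproj x l⟩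
    · intro k
      exact hcpt _
    · intro k
      exact (hsc _).1
    · intro k
      exact hne _
  · intro k hk
    exact hsg k ((hmem _).mpr hk)
  · intro j
    exact (hnot j).symm

end MP528
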