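import Pool.Agent.Lib.MP_528ca9_co.R1

namespace MP528

open Finset

/-- ROW R3a. Dimension of the annihilator of independent vectors. -/
theorem finrank_annih {W : Type*} [NormedAddCommGroup W] [InnerProductSpace ℝ W]
    [FiniteDimensional ℝ W] {ι : Type*} [Fintype ι] (v : ι → W) (hv : LinearIndependent ℝ v) :
    Module.finrank ℝ ((Submodule.span ℝ (Set.range v))ᗮ : Submodule ℝ W) + Fintype.card ι =
      Module.finrank ℝ W := by
  have h1 := Submodule.finrank_add_finrank_orthogonal (Submodule.span ℝ (Set.range v))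
  rw [finrank_span_eq_card hv] at h1
  omega

/-- ROW R3b. Projection of an independent family: if `v` (indices `ι`) and `w` (indices `κ`) together
are independent, then the orthogonal projections of the `w k` to the orthogonal complement `V` of
`span v` are independent. (If `∑ c_k P w_k = 0` then `∑ c_k w_k ∈ Vᗮ = span v`.) -/
theorem proj_indep {W : Type*} [NormedAddCommGroup W] [InnerProductSpace ℝ W]
    [FiniteDimensional ℝ W] {ι κ : Type*} [Fintype ι] [Fintype κ] (v : ι → W) (w : κ → W)
    (h : LinearIndependent ℝ (Sum.elim v w)) (V : Submodule ℝ W)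
    (hV : V = (Submodule.span ℝ (Set.range v))ᗮ) (w' : κ → V)
    (hw : ∀ k, ∀ l : V, inner ℝ (w' k) l = inner ℝ (w k) (l : W)) : LinearIndependent ℝ w' := by
  rw [Fintype.linearIndependent_iff]
  intro g hg
  have hmem : (∑ k, g k • w k) ∈ Submodule.span ℝ (Set.range v) := by
    have h1 : (∑ k, g k • w k) ∈ ((Submodule.span ℝ (Set.range v))ᗮ)ᗮ := by
      rw [← hV, Submodule.mem_orthogonal']
      intro u hu
      have h2 : inner ℝ (∑ k, g k • w' k) (⟨u, hu⟩ : V) = (0 : ℝ) := by
        rw [hg, inner_zero_left]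
      rw [sum_inner] at h2 ⊢
      rw [← h2]
      refine Finset.sum_congr rfl (fun k _ => ?_)
      rw [real_inner_smul_left, real_inner_smul_left, hw k ⟨u, hu⟩]
    rwa [Submodule.orthogonal_orthogonal] at h1
  obtain ⟨a, ha⟩ := (Submodule.mem_span_range_iff_exists_fun ℝ).1 hmem
  rw [Fintype.linearIndependent_iff] at h
  have h3 := h (Sum.elim (fun i => -a i) g) (by
    rw [Fintype.sum_sum_type]
    simp only [Sum.elim_inl, Sum.elim_inr, neg_smul, Finset.sum_neg_distrib]
    rw [ha]
    simp)
  intro k
  exact h3 (Sum.inr k)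

end MP528
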