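import Pool.Agent.Lib.MP_528ca9_co.R4a

namespace MP528

open Finset

/-- ROW R4c. The tangent members of the hyperplane of a functional `l ∈ TT K` with `l.fst ≠ 0`:
the points, and the members with a label. In particular it only depends on `lab K l`. -/
theorem hy_mem_stratum {d n n0 : ℕ} {A : Fin n → Set (E d)} {V : Submodule ℝ (Wd d)}
    {K : Fin n0 → Set V} {sg : Fin n0 → Fin n} (h : Link A V K sg) (l : V) (hl : l ∈ TT K)
    (hf : (l : Wd d).fst ≠ 0) :
    hy (l : Wd d) hf ∈ stratum A {j | j ∉ Set.range sg ∨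
      ∃ k, sg k = j ∧ ((k, true) ∈ lab K l ∨ (k, false) ∈ lab K l)} := by
  classical
  have hlab : ∀ i : Fin n0 × Bool, i ∈ lab K l ↔ gg K i l = 0 := by
    intro i
    simp [lab]
  have hmeet : ∀ i, ∃ x ∈ A i, inner ℝ (ev x) (l : Wd d) = 0 := by
    intro i
    by_cases hi : i ∈ Set.range sg
    · obtain ⟨k, rfl⟩ := hi
      exact (meets_iff h k l).2 ⟨hl.2 (k, true), hl.2 (k, false)⟩
    · obtain ⟨x, hx⟩ := h.pts i hi
      refine ⟨x, by rw [hx]; exact Set.mem_singleton x, ?_⟩
      exact (h.mem (l : Wd d)).1 l.2 i hi x (by rw [hx]; exact Set.mem_singleton x)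
  refine ⟨?_, ?_⟩
  · intro i
    obtain ⟨x, hx, hx0⟩ := hmeet i
    exact ⟨x, (mem_hy (l : Wd d) hf x).2 hx0, hx⟩
  · intro i
    rw [tangent_hy]
    by_cases hi : i ∈ Set.range sg
    · obtain ⟨k, rfl⟩ := hi
      constructor
      · rintro ⟨_, h1 | h1⟩
        · right
          refine ⟨k, rfl, Or.inl ?_⟩
          rw [hlab]
          exact le_antisymm ((gg_true_le h k l 0).2 h1) (hl.2 (k, true))
        · right
          refine ⟨k, rfl, Or.inr ?_⟩
          rw [hlab]
          refine le_antisymm ((gg_false_le h k l 0).2 ?_) (hl.2 (k, false))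
          intro x hx
          have := h1 x hx
          linarith
      · rintro (h1 | ⟨k', hk', h1⟩)
        · exact absurd ⟨k, rfl⟩ h1
        · have hkk : k' = k := h.inj hk'
          subst hkk
          refine ⟨hmeet _, ?_⟩
          rcases h1 with h1 | h1
          · left
            rw [hlab] at h1
            exact (gg_true_le h k' l 0).1 h1.le
          · right
            rw [hlab] at h1
            intro x hx
            have := (gg_false_le h k' l 0).1 h1.le x hx
            linarith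
    · constructor
      · intro _
        exact Or.inl hi
      · intro _
        refine ⟨hmeet i, Or.inl ?_⟩
        intro x hx
        exact ((h.mem (l : Wd d)).1 l.2 i hi x hx).le

/-- ROW R4d. Every transversal hyperplane comes from a functional in `TT K`. -/
theorem transv_lift {d n n0 : ℕ} {A : Fin n → Set (E d)} {V : Submodule ℝ (Wd d)}
    {K : Fin n0 → Set V} {sg : Fin n0 → Fin n} (h : Link A V K sg) (H : Hyp d)
    (hH : H ∈ Transv A) :
    ∃ (l : V) (hf : (l : Wd d).fst ≠ 0), l ∈ TT K ∧ H = hy (l : Wd d) hf := by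
  obtain ⟨l, hf, rfl⟩ := hy_surj H
  have hlV : l ∈ V := by
    rw [h.mem]
    intro j hj x hx
    obtain ⟨x0, hx0⟩ := h.pts j hj
    obtain ⟨y, hy1, hy2⟩ := hH j
    rw [hx0] at hx hy2
    rw [Set.mem_singleton_iff] at hx hy2
    rw [mem_hy] at hy1
    rw [hx, ← hy2]
    exact hy1
  refine ⟨⟨l, hlV⟩, hf, ⟨?_, ?_⟩, rfl⟩
  · intro h0
    apply hf
    have h1 : l = 0 := congrArg Subtype.val h0
    rw [h1]
    rfl
  · rintro ⟨k, b⟩
    obtain ⟨y, hy1, hy2⟩ := hH (sg k)
    rw [mem_hy] at hy1
    have h2 := (meets_iff h k ⟨l, hlV⟩).1 ⟨y, hy2, hy1⟩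
    cases b
    · exact h2.2
    · exact h2.1

end MP528
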