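import Pool.Agent.Lib.MP_528ca9_co.R4c

namespace MP528

open Finset

/-- ROW R4e. Transfer of the faces.
Proof. For a face `F` of `A` choose `S` and `H ∈ stratum A S` with
`F = connectedComponentIn (stratum A S) H`, and `l ∈ TT K` with `H = hy l` (R4d); let
`Y = connectedComponentIn (Str K (lab K l)) l ∈ AFaces K`. The map `F ↦ Y` is injective: let `F, F'` have
the same `Y`. All points of `Y` have the same labels, so `lab K l = lab K l'` and by R4c (a hyperplane lies
in exactly one stratum) `S = S'`. The image of `Y` under `hy` (continuous on `l.fst ≠ 0`, `hTT`) is a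
preconnected subset of `stratum A S` containing `hy l` and `hy l'` (`l' ∈ Y' = Y`), so both components
agree. -/
theorem faces_le {d n n0 : ℕ} {A : Fin n → Set (E d)} {V : Submodule ℝ (Wd d)}
    {K : Fin n0 → Set V} {sg : Fin n0 → Fin n} (h : Link A V K sg)
    (hTT : ∀ l ∈ TT K, (l : Wd d).fst ≠ 0) : (Faces A).encard ≤ (AFaces K).encard := by
  classical
  -- labels to strata
  set T : Finset (Fin n0 × Bool) → Set (Fin n) := fun s => {j | j ∉ Set.range sg ∨
      ∃ k, sg k = j ∧ ((k, true) ∈ s ∨ (k, false) ∈ s)} with hT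
  have hmem : ∀ (l : V) (hl : l ∈ TT K), hy (l : Wd d) (hTT l hl) ∈ stratum A (T (lab K l)) :=
    fun l hl => hy_mem_stratum h l hl (hTT l hl)
  have huniq : ∀ (S S' : Set (Fin n)) (H : Hyp d), H ∈ stratum A S → H ∈ stratum A S' → S = S' := by
    intro S S' H h1 h2
    ext i
    rw [← h1.2 i, h2.2 i]
  -- choose data for the faces
  have hch : ∀ F ∈ Faces A, ∃ (l : V) (hl : l ∈ TT K),
      F = connectedComponentIn (stratum A (T (lab K l))) (hy (l : Wd d) (hTT l hl)) := by
    rintro F ⟨S, H, hH, rfl⟩
    obtain ⟨l, hf, hl, rfl⟩ := transv_lift h H hH.1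
    refine ⟨l, hl, ?_⟩
    have : S = T (lab K l) := huniq _ _ _ hH (hmem l hl)
    rw [← this]
  choose! g hg using hch
  -- the map
  have hmaps : Set.MapsTo (fun F => connectedComponentIn (Str K (lab K (g F))) (g F))
      (Faces A) (AFaces K) := by
    intro F hF
    obtain ⟨hl, hF'⟩ := hg F hF
    exact ⟨lab K (g F), g F, ⟨hl, rfl⟩, rfl⟩
  have hinj : Set.InjOn (fun F => connectedComponentIn (Str K (lab K (g F))) (g F))
      (Faces A) := by
    intro F hF F' hF' hY
    simp only at hY
    obtain ⟨hl, e1⟩ := hg F hF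
    obtain ⟨hl', e2⟩ := hg F' hF'
    generalize hgl : g F = l at hl e1 hY
    generalize hgl' : g F' = l' at hl' e2 hY
    have hs : l ∈ Str K (lab K l) := ⟨hl, rfl⟩
    have hs' : l' ∈ Str K (lab K l') := ⟨hl', rfl⟩
    have hlY : l ∈ connectedComponentIn (Str K (lab K l)) l := mem_connectedComponentIn hs
    have hlY' : l' ∈ connectedComponentIn (Str K (lab K l)) l := by
      rw [hY]
      exact mem_connectedComponentIn hs'
    have hlab : lab K l' = lab K l := (connectedComponentIn_subset _ _ hlY').2
    -- continuous extension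
    set f : V → Hyp d := fun x => if hx : (x : Wd d).fst ≠ 0 then hy (x : Wd d) hx
      else hy (l : Wd d) (hTT l hl) with hfdef
    have hfval : ∀ (x : V) (hx : (x : Wd d).fst ≠ 0), f x = hy (x : Wd d) hx := by
      intro x hx
      rw [hfdef]
      simp only
      rw [dif_pos hx]
    have hcont : ContinuousOn f {x : V | (x : Wd d).fst ≠ 0} := by
      rw [continuousOn_iff_continuous_restrict]
      have h1 : Continuous (fun x : {x : V | (x : Wd d).fst ≠ 0} =>
          (⟨(x.1 : Wd d), x.2⟩ : {l : Wd d // l.fst ≠ 0})) := by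
        apply Continuous.subtype_mk
        exact continuous_subtype_val.comp continuous_subtype_val
      have h2 := (hy_cont (d := d)).comp h1
      convert h2 using 1
      ext x
      simp only [Set.restrict_apply, Function.comp]
      rw [hfval x.1 x.2]
    have hsub : connectedComponentIn (Str K (lab K l)) l ⊆ {x : V | (x : Wd d).fst ≠ 0} := by
      intro x hx
      exact hTT x (connectedComponentIn_subset _ _ hx).1
    have hpre : IsPreconnected (f '' connectedComponentIn (Str K (lab K l)) l) :=
      isPreconnected_connectedComponentIn.image f (hcont.mono hsub)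
    have himg : f '' connectedComponentIn (Str K (lab K l)) l ⊆ stratum A (T (lab K l)) := by
      rintro _ ⟨x, hx, rfl⟩
      have hx1 := connectedComponentIn_subset _ _ hx
      rw [hfval x (hTT x hx1.1)]
      obtain ⟨hx2, hx3⟩ : x ∈ TT K ∧ lab K x = lab K l := hx1
      have h3 := hmem x hx2
      have h4 : T (lab K x) = T (lab K l) := congrArg T hx3
      exact h4 ▸ h3
    have hin : hy (l : Wd d) (hTT l hl) ∈ f '' connectedComponentIn (Str K (lab K l)) l :=
      ⟨l, hlY, hfval l _⟩
    have hin' : hy (l' : Wd d) (hTT l' hl') ∈ f '' connectedComponentIn (Str K (lab K l)) l :=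
      ⟨l', hlY', hfval l' _⟩
    have hfin := hpre.subset_connectedComponentIn hin himg hin'
    rw [e1, e2, hlab]
    exact connectedComponentIn_eq hfin
  exact Set.encard_le_encard_of_injOn hmaps hinj

end MP528
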