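import Pool.Agent.Lib.MP_528ca9_co.R1
import Pool.Agent.Lib.MP_528ca9_co.CDefs

namespace MP528

open Finset

theorem r4a_cont {d : ℕ} (l : Wd d) : Continuous (fun x : E d => inner ℝ (ev x) l) := by
  simp_rw [ev_inner]
  fun_prop

theorem r4a_true {d n n0 : ℕ} {A : Fin n → Set (E d)} {V : Submodule ℝ (Wd d)}
    {K : Fin n0 → Set V} {sg : Fin n0 → Fin n} (h : Link A V K sg) (k : Fin n0) (l : V) :
    gg K (k, true) l = sSup ((fun x : E d => inner ℝ (ev x) (l : Wd d)) '' A (sg k)) := by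
  unfold gg supp
  congr 1
  ext t
  simp only [KK, if_true, Set.mem_image]
  constructor
  · rintro ⟨y, hy, rfl⟩
    obtain ⟨x, hx, hxl⟩ := h.val1 k y hy
    exact ⟨x, hx, (hxl l).symm⟩
  · rintro ⟨x, hx, rfl⟩
    obtain ⟨y, hy, hyl⟩ := h.val2 k x hx
    exact ⟨y, hy, hyl l⟩

theorem r4a_false {d n n0 : ℕ} {A : Fin n → Set (E d)} {V : Submodule ℝ (Wd d)}
    {K : Fin n0 → Set V} {sg : Fin n0 → Fin n} (h : Link A V K sg) (k : Fin n0) (l : V) :
    gg K (k, false) l = sSup ((fun x : E d => -inner ℝ (ev x) (l : Wd d)) '' A (sg k)) := by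
  unfold gg supp
  congr 1
  ext t
  simp only [KK, Bool.false_eq_true, if_false, Set.mem_image]
  constructor
  · rintro ⟨z, ⟨y, hy, rfl⟩, rfl⟩
    obtain ⟨x, hx, hxl⟩ := h.val1 k y hy
    exact ⟨x, hx, by rw [inner_neg_left, hxl l]⟩
  · rintro ⟨x, hx, rfl⟩
    obtain ⟨y, hy, hyl⟩ := h.val2 k x hx
    exact ⟨-y, ⟨y, hy, rfl⟩, by rw [inner_neg_left, hyl l]⟩

theorem r4a_le {X : Type*} [TopologicalSpace X] {A : Set X} (hA : IsCompact A) (hne : A.Nonempty)
    {f : X → ℝ} (hf : Continuous f) (c : ℝ) : sSup (f '' A) ≤ c ↔ ∀ x ∈ A, f x ≤ c := by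
  rw [csSup_le_iff (hA.image hf).bddAbove (hne.image f)]
  simp

theorem r4a_att {X : Type*} [TopologicalSpace X] {A : Set X} (hA : IsCompact A) (hne : A.Nonempty)
    {f : X → ℝ} (hf : Continuous f) : ∃ x ∈ A, f x = sSup (f '' A) :=
  (hA.image hf).sSup_mem (hne.image f)

/-- ROW R4a. Values of the support functions of the abstract family in terms of the original
members: maxima and minima of `x ↦ ⟪ev x, l⟫` on `A (sg k)`. -/
theorem gg_true_le {d n n0 : ℕ} {A : Fin n → Set (E d)} {V : Submodule ℝ (Wd d)}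
    {K : Fin n0 → Set V} {sg : Fin n0 → Fin n} (h : Link A V K sg) (k : Fin n0) (l : V) (c : ℝ) :
    gg K (k, true) l ≤ c ↔ ∀ x ∈ A (sg k), inner ℝ (ev x) (l : Wd d) ≤ c := by
  rw [r4a_true h]
  exact r4a_le (h.cpt k) (h.ne k) (r4a_cont _) c

theorem gg_false_le {d n n0 : ℕ} {A : Fin n → Set (E d)} {V : Submodule ℝ (Wd d)}
    {K : Fin n0 → Set V} {sg : Fin n0 → Fin n} (h : Link A V K sg) (k : Fin n0) (l : V) (c : ℝ) :
    gg K (k, false) l ≤ c ↔ ∀ x ∈ A (sg k), -inner ℝ (ev x) (l : Wd d) ≤ c := by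
  rw [r4a_false h]
  exact r4a_le (h.cpt k) (h.ne k) (r4a_cont _).neg c

theorem gg_true_attain {d n n0 : ℕ} {A : Fin n → Set (E d)} {V : Submodule ℝ (Wd d)}
    {K : Fin n0 → Set V} {sg : Fin n0 → Fin n} (h : Link A V K sg) (k : Fin n0) (l : V) :
    ∃ x ∈ A (sg k), inner ℝ (ev x) (l : Wd d) = gg K (k, true) l := by
  rw [r4a_true h]
  exact r4a_att (h.cpt k) (h.ne k) (r4a_cont _)

theorem gg_false_attain {d n n0 : ℕ} {A : Fin n → Set (E d)} {V : Submodule ℝ (Wd d)}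
    {K : Fin n0 → Set V} {sg : Fin n0 → Fin n} (h : Link A V K sg) (k : Fin n0) (l : V) :
    ∃ x ∈ A (sg k), -inner ℝ (ev x) (l : Wd d) = gg K (k, false) l := by
  rw [r4a_false h]
  exact r4a_att (h.cpt k) (h.ne k) (r4a_cont _).neg

/-- ROW R4b. The member `A (sg k)` is met iff both support functions are nonnegative
(the values on the convex set `A (sg k)` form an interval: intermediate value). -/
theorem meets_iff {d n n0 : ℕ} {A : Fin n → Set (E d)} {V : Submodule ℝ (Wd d)}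
    {K : Fin n0 → Set V} {sg : Fin n0 → Fin n} (h : Link A V K sg) (k : Fin n0) (l : V) :
    (∃ x ∈ A (sg k), inner ℝ (ev x) (l : Wd d) = 0) ↔
      0 ≤ gg K (k, true) l ∧ 0 ≤ gg K (k, false) l := by
  constructor
  · rintro ⟨x, hx, hxl⟩
    constructor
    · by_contra hlt
      push Not at hlt
      have h1 := (gg_true_le h k l (gg K (k, true) l)).1 le_rfl x hx
      rw [hxl] at h1
      linarith
    · by_contra hlt
      push Not at hlt
      have h1 := (gg_false_le h k l (gg K (k, false) l)).1 le_rfl x hx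
      rw [hxl] at h1
      linarith
  · rintro ⟨h1, h2⟩
    obtain ⟨x1, hx1, e1⟩ := gg_true_attain h k l
    obtain ⟨x2, hx2, e2⟩ := gg_false_attain h k l
    have hpre : IsPreconnected (A (sg k)) := (h.cvx k).isPreconnected
    have hiv := hpre.intermediate_value hx2 hx1 (r4a_cont (l : Wd d)).continuousOn
    have h0 : (0 : ℝ) ∈ Set.Icc (inner ℝ (ev x2) (l : Wd d)) (inner ℝ (ev x1) (l : Wd d)) :=
      ⟨by linarith, by linarith⟩
    obtain ⟨x, hx, hxl⟩ := hiv h0
    exact ⟨x, hx, hxl⟩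

end MP528
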