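import Pool.Agent.Lib.MP_528ca9_co.R1
import Pool.Agent.Lib.MP_528ca9_co.R2

namespace MP528

open Finset

/-- two nonzero vectors orthogonal to `d` independent vectors of a space of dimension `d + 1` are
proportional -/
theorem R5b_prop {d : ℕ} {ι : Type} [Fintype ι] (v : ι → Wd d) (hv : LinearIndependent ℝ v)
    (hc : Fintype.card ι = d) (l l' : Wd d) (hl : l ≠ 0) (h : ∀ i, inner ℝ (v i) l = 0)
    (h' : ∀ i, inner ℝ (v i) l' = 0) : ∃ c : ℝ, l' = c • l := by
  have hfr : Module.finrank ℝ (Submodule.span ℝ (Set.range v)) = d := by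
    rw [finrank_span_eq_card hv, hc]
  have h1 : Module.finrank ℝ ((Submodule.span ℝ (Set.range v))ᗮ : Submodule ℝ (Wd d)) = 1 := by
    have h2 := Submodule.finrank_add_finrank_orthogonal (Submodule.span ℝ (Set.range v))
    rw [finrank_Wd, hfr] at h2
    omega
  have hmem : ∀ z : Wd d, (∀ i, inner ℝ (v i) z = 0) →
      z ∈ (Submodule.span ℝ (Set.range v))ᗮ := by
    intro z hz
    rw [Submodule.mem_orthogonal]
    intro u hu
    induction hu using Submodule.span_induction with
    | mem x hx =>
      obtain ⟨i, rfl⟩ := hx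
      exact hz i
    | zero => exact inner_zero_left _
    | add x y _ _ hx hy => rw [inner_add_left, hx, hy, add_zero]
    | smul a x _ hx => rw [inner_smul_left, hx, mul_zero]
  have h3 := (finrank_eq_one_iff_of_nonzero'
    (⟨l, hmem l h⟩ : ((Submodule.span ℝ (Set.range v))ᗮ : Submodule ℝ (Wd d)))
    (fun h0 => hl (congrArg Subtype.val h0))).mp h1 ⟨l', hmem l' h'⟩
  obtain ⟨c, hc'⟩ := h3
  exact ⟨c, (congrArg Subtype.val hc').symm⟩

/-- ROW R5b. With at least `d` points there is at most one transversal, hence at most one face.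
Proof. Two hyperplanes containing `d` affinely independent points are equal: let `hy l`, `hy l'` contain the
points `x_j`, `j ∈ S`, `S.card = d`. The vectors `ev x_j` are independent, orthogonal to `l` and `l'`, so `l` and
`l'` are proportional (`finrank (Wd d) = d + 1`) and the hyperplanes agree. Then `Transv A` has at most one
element, and `Faces A` at most one (a face is a nonempty subset of `Transv A`). -/
theorem few_faces {d n : ℕ} (hd : 2 ≤ d) (hn : d ≤ n) (A : Fin n → Set (E d))
    (hne : ∀ i, (A i).Nonempty) (hA : Separated A) (pt : Finset (Fin n)) (hpt : d ≤ pt.card)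
    (hp : ∀ j ∈ pt, ∃ x, A j = {x}) : (Faces A).encard ≤ 1 := by
  obtain ⟨S, hSpt, hScard⟩ := Finset.exists_subset_card_eq hpt
  have hchoice : ∀ j : Fin n, ∃ x, x ∈ A j := hne
  choose x hx using hchoice
  have hpx : ∀ j ∈ pt, A j = {x j} := by
    intro j hj
    obtain ⟨y, hy⟩ := hp j hj
    have h1 := hx j
    rw [hy, Set.mem_singleton_iff] at h1
    rw [h1, hy]
  have haff := affInd_le hd hn A hA hne S hScard.le x (fun i _ => hx i)
  have hlin := ev_linInd _ haff
  have huniq : ∀ H ∈ Transv A, ∀ H' ∈ Transv A, H = H' := by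
    intro H hH H' hH'
    obtain ⟨l, hl, rfl⟩ := hy_surj H
    obtain ⟨l', hl', rfl⟩ := hy_surj H'
    have hz : ∀ i : S, inner ℝ (ev (x i)) l = 0 := by
      intro i
      obtain ⟨y, hy1, hy2⟩ := hH i
      rw [hpx i (hSpt i.2), Set.mem_singleton_iff] at hy2
      rw [← mem_hy l hl, ← hy2]
      exact hy1
    have hz' : ∀ i : S, inner ℝ (ev (x i)) l' = 0 := by
      intro i
      obtain ⟨y, hy1, hy2⟩ := hH' i
      rw [hpx i (hSpt i.2), Set.mem_singleton_iff] at hy2
      rw [← mem_hy l' hl', ← hy2]
      exact hy1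
    have hl0 : l ≠ 0 := fun h0 => hl (by rw [h0]; rfl)
    obtain ⟨c, hc⟩ := R5b_prop (fun i : S => ev (x i)) hlin (by simpa using hScard) l l' hl0 hz hz'
    have hc0 : c ≠ 0 := by
      intro h0
      rw [h0, zero_smul] at hc
      exact hl' (by rw [hc]; rfl)
    apply Subtype.ext
    ext z
    rw [mem_hy, mem_hy, hc, inner_smul_right, mul_eq_zero, or_iff_right hc0]
  rw [Set.encard_le_one_iff]
  rintro F G ⟨S1, H1, hH1, rfl⟩ ⟨S2, H2, hH2, rfl⟩
  have h12 : H1 = H2 := huniq H1 hH1.1 H2 hH2.1
  have hface : ∀ (T : Set (Fin n)) (H : Hyp d), H ∈ stratum A T →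
      connectedComponentIn (stratum A T) H = {H} := by
    intro T H hH
    refine Set.Subset.antisymm ?_ ?_
    · intro G hG
      exact huniq G (connectedComponentIn_subset _ _ hG).1 H hH.1
    · intro G hG
      rw [Set.mem_singleton_iff] at hG
      rw [hG]
      exact mem_connectedComponentIn hH
  rw [hface S1 H1 hH1, hface S2 H2 hH2, h12]

/-- ROW R5c. If a member is empty there are no transversals and no faces. -/
theorem no_faces {d n : ℕ} (A : Fin n → Set (E d)) (i : Fin n) (hi : ¬ (A i).Nonempty) :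
    (Faces A).encard = 0 := by
  rw [Set.encard_eq_zero, Set.eq_empty_iff_forall_notMem]
  rintro F ⟨S, H, hH, _⟩
  exact hi (hH.1 i).right

end MP528
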