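import Pool.Agent.Lib.MP_528ca9_co.R2
import Pool.Agent.Lib.MP_528ca9_co.R3
import Pool.Agent.Lib.MP_528ca9_co.R4

namespace MP528

open Finset

theorem R5a_Wd_ext {d : ℕ} {a b : Wd d} (h1 : a.fst = b.fst) (h2 : a.snd = b.snd) : a = b := by
  have h : a.ofLp = b.ofLp := Prod.ext h1 h2
  exact (WithLp.ofLp_injective 2) h

theorem R5a_ev_cont {d : ℕ} : Continuous (ev : E d → Wd d) := by
  have h1 : Continuous (fun x : E d => (x, (1 : ℝ))) := by fun_prop
  exact (WithLp.prod_continuous_toLp 2 (E d) ℝ).comp h1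

theorem R5a_cpt {d n n0 : ℕ} {A : Fin n → Set (E d)} {V : Submodule ℝ (Wd d)}
    {K : Fin n0 → Set V} {sg : Fin n0 → Fin n} (h : Link A V K sg) (k : Fin n0) :
    IsCompact (K k) := by
  have key : K k = (fun w : Wd d => V.orthogonalProjectionOnto w) '' (ev '' A (sg k)) := by
    have hP : ∀ (w : Wd d) (l : V), inner ℝ (V.orthogonalProjectionOnto w) l =
        inner ℝ w (l : Wd d) := by
      intro w l
      exact Submodule.inner_orthogonalProjectionOnto_eq_of_mem_right l w
    ext y
    constructor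
    · intro hy
      obtain ⟨x, hx, hxy⟩ := h.val1 k y hy
      refine ⟨ev x, ⟨x, hx, rfl⟩, ?_⟩
      refine ext_inner_right ℝ (fun l => ?_)
      rw [hxy l]
      exact hP (ev x) l
    · rintro ⟨_, ⟨x, hx, rfl⟩, rfl⟩
      obtain ⟨y, hy, hxy⟩ := h.val2 k x hx
      have : y = V.orthogonalProjectionOnto (ev x) := by
        refine ext_inner_right ℝ (fun l => ?_)
        rw [hxy l]
        exact (hP (ev x) l).symm
      show V.orthogonalProjectionOnto (ev x) ∈ K k
      rw [← this]
      exact hy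
  rw [key]
  exact ((h.cpt k).image R5a_ev_cont).image V.orthogonalProjectionOnto.continuous

theorem R5a_cvx {d n n0 : ℕ} {A : Fin n → Set (E d)} {V : Submodule ℝ (Wd d)}
    {K : Fin n0 → Set V} {sg : Fin n0 → Fin n} (h : Link A V K sg) (k : Fin n0) :
    Convex ℝ (K k) := by
  intro y1 hy1 y2 hy2 a b ha hb hab
  obtain ⟨x1, hx1, h1⟩ := h.val1 k y1 hy1
  obtain ⟨x2, hx2, h2⟩ := h.val1 k y2 hy2
  obtain ⟨y, hy, h3⟩ := h.val2 k _ (h.cvx k hx1 hx2 ha hb hab)
  have : a • y1 + b • y2 = y := by
    refine ext_inner_right ℝ (fun l => ?_)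
    have e1 : (inner ℝ (a • y1 + b • y2) l : ℝ) = a * inner ℝ y1 l + b * inner ℝ y2 l := by
      rw [inner_add_left]
      exact congrArg₂ (· + ·) (real_inner_smul_left y1 l a) (real_inner_smul_left y2 l b)
    rw [e1, h3 l, h1 l, h2 l, ev_inner,
      ev_inner, ev_inner, inner_add_left, real_inner_smul_left, real_inner_smul_left]
    have : (l : Wd d).snd = (a + b) * (l : Wd d).snd := by rw [hab, one_mul]
    linear_combination (-1 : ℝ) * this
  rw [this]
  exact hy

theorem R5a_sep {d n n0 m : ℕ} (hd : 2 ≤ d) (hn : d ≤ n) (hm : m < d)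
    (A : Fin n → Set (E d)) (hne : ∀ i, (A i).Nonempty) (hA : Separated A)
    (V : Submodule ℝ (Wd d)) (K : Fin n0 → Set V) (sg : Fin n0 → Fin n) (h : Link A V K sg)
    (pt : Finset (Fin n)) (hpt : pt.card = m) (hpt' : ∀ j, j ∈ pt ↔ j ∉ Set.range sg)
    (xp : Fin n → E d) (hxp : ∀ j, xp j ∈ A j)
    (hV : V = (Submodule.span ℝ (Set.range (fun i : pt => ev (xp i))))ᗮ)
    (S : Finset (Fin n0)) (hS : S.card ≤ d - m) (x : Fin n0 → V) (hx : ∀ j ∈ S, x j ∈ K j) :
    LinearIndependent ℝ (fun j : S => x j) := by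
  classical
  have h1 : ∀ j : Fin n0, ∃ x' : E d, j ∈ S → (x' ∈ A (sg j) ∧
      ∀ l : V, inner ℝ (x j) l = inner ℝ (ev x') (l : Wd d)) := by
    intro j
    by_cases hj : j ∈ S
    · obtain ⟨x', hx', hxx⟩ := h.val1 j (x j) (hx j hj)
      exact ⟨x', fun _ => ⟨hx', hxx⟩⟩
    · exact ⟨0, fun h' => absurd h' hj⟩
  choose x' hx' using h1
  -- the selection
  let p : Fin n → E d := fun i => if hi : ∃ k, k ∈ S ∧ sg k = i then x' hi.choose else xp i
  have hp1 : ∀ k ∈ S, p (sg k) = x' k := by
    intro k hk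
    have hi : ∃ k', k' ∈ S ∧ sg k' = sg k := ⟨k, hk, rfl⟩
    have : hi.choose = k := h.inj hi.choose_spec.2
    show (if hi : ∃ k', k' ∈ S ∧ sg k' = sg k then x' hi.choose else xp (sg k)) = x' k
    rw [dif_pos hi, this]
  have hp2 : ∀ i ∈ pt, p i = xp i := by
    intro i hi
    have hni : ¬ ∃ k, k ∈ S ∧ sg k = i := by
      rintro ⟨k, _, hk⟩
      exact (hpt' i).1 hi ⟨k, hk⟩
    show (if hi : ∃ k', k' ∈ S ∧ sg k' = i then x' hi.choose else xp i) = xp i
    rw [dif_neg hni]
  set S' : Finset (Fin n) := pt ∪ S.image sg with hS'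
  have hcard : S'.card ≤ d := by
    have h2 : S'.card ≤ pt.card + (S.image sg).card := card_union_le pt (S.image sg)
    have h3 : (S.image sg).card ≤ S.card := card_image_le
    omega
  have hai := affInd_le hd hn A hA hne S' hcard p (by
    intro i hi
    rw [hS', mem_union, mem_image] at hi
    rcases hi with hi | ⟨k, hk, rfl⟩
    · rw [hp2 i hi]; exact hxp i
    · rw [hp1 k hk]; exact (hx' k hk).1)
  have hli := ev_linInd (fun i : S' => p i) hai
  -- the injection
  let f : pt ⊕ S → S' := Sum.elim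
    (fun i => ⟨i.1, by rw [hS']; exact mem_union_left _ i.2⟩)
    (fun k => ⟨sg k.1, by rw [hS']; exact mem_union_right _ (mem_image_of_mem _ k.2)⟩)
  have hf : Function.Injective f := by
    rintro (i | k) (i' | k') hff
    · have h0 : (f (Sum.inl i)).1 = (f (Sum.inl i')).1 := congrArg (fun a : S' => a.1) hff
      exact congrArg Sum.inl (Subtype.ext h0)
    · exfalso
      have h0 : (f (Sum.inl i)).1 = (f (Sum.inr k')).1 := congrArg (fun a : S' => a.1) hff
      have h0' : i.1 = sg k'.1 := h0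
      exact (hpt' i.1).1 i.2 ⟨k'.1, h0'.symm⟩
    · exfalso
      have h0 : (f (Sum.inr k)).1 = (f (Sum.inl i')).1 := congrArg (fun a : S' => a.1) hff
      have h0' : sg k.1 = i'.1 := h0
      exact (hpt' i'.1).1 i'.2 ⟨k.1, h0'⟩
    · have h0 : (f (Sum.inr k)).1 = (f (Sum.inr k')).1 := congrArg (fun a : S' => a.1) hff
      have h0' : sg k.1 = sg k'.1 := h0
      exact congrArg Sum.inr (Subtype.ext (h.inj h0'))
  have hli2 := hli.comp f hf
  have hfun : (fun i : S' => ev (p i)) ∘ f =
      Sum.elim (fun i : pt => ev (xp i)) (fun k : S => ev (x' k)) := by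
    funext a
    rcases a with i | k
    · show ev (p i.1) = ev (xp i.1)
      rw [hp2 i.1 i.2]
    · show ev (p (sg k.1)) = ev (x' k.1)
      rw [hp1 k.1 k.2]
  rw [hfun] at hli2
  exact proj_indep _ _ hli2 V hV (fun j : S => x j) (fun k l => (hx' k.1 k.2).2 l)

/-- ROW R5a. The abstract family of a separated strictly convex family with fewer than `d` points.
Proof. `Om = {l : V | (l : Wd d).fst ≠ 0}`. `dim`: R3a, R1b, R1c with the `m` independent vectors `ev x_j`
(`affInd_le`), `mem` of the link says `V = (span (ev x_j))ᗮ`. `ne, cpt, cvx` of `K k`: `K k` is the image of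
`A (sg k)` under the continuous affine map `x ↦ y` determined by `val1, val2` (for each `x` the vector
`y` with `⟪y,l⟫ = ⟪ev x, l⟫` for all `l : V` is the orthogonal projection of `ev x`; so
`K k = P '' (ev '' A (sg k))`). `sep`: R3b with the points and the selected members: at most `m + (d - m) = d`
members, `affInd_le`, `ev_linInd`. `spn`: for `l ≠ 0`: if `l.fst ≠ 0` use `sconvex_not_flat`; if
`l.fst = 0` then `⟪ev x, l⟫ = l.snd ≠ 0`. `omO, omS, omZ, omC`: clear. `omT`: if `l ∈ TT K` and `l.fst = 0`, then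
`gg (k,true) l = l.snd`, `gg (k,false) l = -l.snd` for any `k` (`n0 ≥ d - m ≥ 1`), so `l.snd = 0`, `l = 0`,
contradiction. `omU`: two maximisers `y, y'` of `l` on `K k` come from `x, x' ∈ A (sg k)` maximising
`⟪l.fst, ·⟫`, so `x = x'` (`sconvex_uniq`), and `y = y'` since `⟪y - y', l'⟫ = 0` for all `l' : V`. -/
theorem link_CF {d n n0 m : ℕ} (hd : 2 ≤ d) (hn : d ≤ n) (hm : m < d) (hnm : n0 + m = n)
    (A : Fin n → Set (E d)) (hcpt : ∀ i, IsCompact (A i)) (hsc : ∀ i, SConvex (A i))
    (hne : ∀ i, (A i).Nonempty) (hA : Separated A)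
    (V : Submodule ℝ (Wd d)) (K : Fin n0 → Set V) (sg : Fin n0 → Fin n) (h : Link A V K sg)
    (hnp : ∀ k, ¬ ∃ x, A (sg k) = {x}) (pt : Finset (Fin n)) (hpt : pt.card = m)
    (hpt' : ∀ j, j ∈ pt ↔ j ∉ Set.range sg) :
    CF K {l : V | (l : Wd d).fst ≠ 0} (d - m) := by
  classical
  choose xp hxp using hne
  have hne : ∀ i, (A i).Nonempty := fun i => ⟨xp i, hxp i⟩
  have hV : V = (Submodule.span ℝ (Set.range (fun i : pt => ev (xp i))))ᗮ := by
    ext l
    rw [h.mem l, Submodule.mem_orthogonal]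
    constructor
    · intro hl u hu
      induction hu using Submodule.span_induction with
      | mem u hu =>
        obtain ⟨i, rfl⟩ := hu
        exact hl i.1 ((hpt' i.1).1 i.2) _ (hxp i.1)
      | zero => exact inner_zero_left _
      | add a b _ _ ha hb => rw [inner_add_left, ha, hb, add_zero]
      | smul c a _ ha => rw [real_inner_smul_left, ha, mul_zero]
    · intro hl j hj x hx
      obtain ⟨x0, hx0⟩ := h.pts j hj
      have e1 : x = xp j := by
        have h1 := hxp j
        rw [hx0] at hx h1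
        rw [Set.mem_singleton_iff.1 hx, Set.mem_singleton_iff.1 h1]
      rw [e1]
      exact hl _ (Submodule.subset_span ⟨⟨j, (hpt' j).2 hj⟩, rfl⟩)
  have hext : ∀ y y' : V, (∀ l : V, (inner ℝ y l : ℝ) = inner ℝ y' l) → y = y' := fun y y' hh =>
    ext_inner_right ℝ hh
  have hzero : ∀ l : V, (l : Wd d).fst = 0 → (l : Wd d).snd = 0 → l = 0 := by
    intro l h1 h2
    apply Subtype.ext
    exact R5a_Wd_ext (by rw [h1]; rfl) (by rw [h2]; rfl)
  refine
    { dim := ?_
      hd := by omega
      hn := by omega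
      ne := ?_
      cpt := fun j => R5a_cpt h j
      cvx := fun j => R5a_cvx h j
      sep := fun S hS x hx => R5a_sep hd hn hm A hne hA V K sg h pt hpt hpt' xp hxp hV S hS x hx
      spn := ?_
      omO := ?_
      omS := ?_
      omZ := ?_
      omC := ?_
      omT := ?_
      omU := ?_ }
  · have h1 := finrank_annih (fun i : pt => ev (xp i))
      (ev_linInd (fun i : pt => xp i) (affInd_le hd hn A hA hne pt (by omega) xp
        (fun i _ => hxp i)))
    rw [← hV, finrank_Wd, Fintype.card_coe, hpt] at h1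
    omega
  · intro j
    obtain ⟨x, hx⟩ := hne (sg j)
    obtain ⟨y, hy, _⟩ := h.val2 j x hx
    exact ⟨y, hy⟩
  · intro j l hl
    by_contra hcon
    push Not at hcon
    have hall : ∀ x ∈ A (sg j), inner ℝ x (l : Wd d).fst + (l : Wd d).snd = 0 := by
      intro x hx
      obtain ⟨y, hy, hyl⟩ := h.val2 j x hx
      rw [← ev_inner, ← hyl l]
      exact hcon y hy
    by_cases hf : (l : Wd d).fst = 0
    · apply hl
      apply hzero l hf
      have := hall _ (hxp (sg j))
      rw [hf, inner_zero_right, zero_add] at this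
      exact this
    · refine sconvex_not_flat (A (sg j)) (hsc _) (hne _) (hnp j) (l : Wd d).fst hf
        (-(l : Wd d).snd) ?_
      intro y hy
      have := hall y hy
      rw [real_inner_comm]
      linarith
  · have hc : Continuous (fun l : V => (l : Wd d).fst) := by
      exact (continuous_fst.comp (WithLp.prod_continuous_ofLp 2 (E d) ℝ)).comp
        continuous_subtype_val
    exact isOpen_ne.preimage hc
  · intro l hl
    show (((-l : V) : Wd d)).fst ≠ 0
    intro h0
    apply hl
    have h1 : (((-l : V) : Wd d)).fst = - (l : Wd d).fst := rfl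
    rw [h1] at h0
    exact neg_eq_zero.1 h0
  · intro h0
    exact h0 rfl
  · intro l hl c hc
    show (((c • l : V) : Wd d)).fst ≠ 0
    intro h0
    have h1 : (((c • l : V) : Wd d)).fst = c • (l : Wd d).fst := rfl
    rw [h1] at h0
    rcases smul_eq_zero.1 h0 with h2 | h2
    · exact hc.ne' h2
    · exact hl h2
  · intro l hl hf
    have hn0 : 0 < n0 := by omega
    obtain ⟨x, hx, hxv⟩ := gg_true_attain h ⟨0, hn0⟩ l
    obtain ⟨x', hx', hxv'⟩ := gg_false_attain h ⟨0, hn0⟩ l
    have h1 := hl.2 (⟨0, hn0⟩, true)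
    have h2 := hl.2 (⟨0, hn0⟩, false)
    rw [← hxv, ev_inner, hf, inner_zero_right, zero_add] at h1
    rw [← hxv', ev_inner, hf, inner_zero_right, zero_add] at h2
    exact hl.1 (hzero l hf (by linarith))
  · intro l hl j y hy y' hy' hyl hyl'
    obtain ⟨x, hx, hxy⟩ := h.val1 j y hy
    obtain ⟨x', hx', hxy'⟩ := h.val1 j y' hy'
    have hgg : gg K (j, true) l = supp (K j) l := by
      simp [gg, KK]
    have hle := (gg_true_le h j l (supp (K j) l)).1 (le_of_eq hgg)
    have e1 : inner ℝ x (l : Wd d).fst + (l : Wd d).snd = supp (K j) l := by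
      rw [← ev_inner, ← hxy l, hyl]
    have e2 : inner ℝ x' (l : Wd d).fst + (l : Wd d).snd = supp (K j) l := by
      rw [← ev_inner, ← hxy' l, hyl']
    have hxx : x = x' := by
      refine sconvex_uniq (A (sg j)) (hsc _) (l : Wd d).fst hl x x' hx hx' ?_ ?_
      · intro z hz
        have := hle z hz
        rw [ev_inner] at this
        rw [real_inner_comm, real_inner_comm x]
        linarith
      · intro z hz
        have := hle z hz
        rw [ev_inner] at this
        rw [real_inner_comm, real_inner_comm x']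
        linarith
    apply hext
    intro l'
    rw [hxy l', hxy' l', hxx]

end MP528
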