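import Pool.Agent.Lib.MP_528ca9_co.R5
import Pool.Agent.Lib.MP_528ca9_co.C8

namespace MP528

open Finset

/-- ROW R6. Final theorem.
Proof. `C = ∑_{d' ≤ d} Cd d' + 1`. Cases: some member empty (R5c, bound `0`); otherwise `exists_link`. If
`m ≥ d`: R5b, and `C n^.. ≥ 1` (`n ≥ d ≥ 2`). If `m < d`: `link_CF`, `faces_le` (with `omT`), `main_abs`
with `d - m`: `Cd (d-m) * n0^((d-m+1)/2) ≤ C * n^((d+1)/2)`. -/
theorem upper_bound (d : ℕ) (hd : 2 ≤ d) : ∃ C : ℕ, ∀ n : ℕ, d ≤ n → ∀ A : Fin n → Set (E d),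
    (∀ i, IsCompact (A i) ∧ SConvex (A i)) → Separated A →
      (Faces A).encard ≤ ((C * n ^ ((d + 1) / 2) : ℕ) : ℕ∞) := by
  refine ⟨∑ d' ∈ Finset.range (d + 1), Cd d' + 1, fun n hn A hA hsep => ?_⟩
  have hn1 : 1 ≤ n := by omega
  by_cases hne : ∀ i, (A i).Nonempty
  swap
  · push Not at hne
    obtain ⟨i, hi⟩ := hne
    rw [no_faces A i (by rw [hi]; exact Set.not_nonempty_empty)]
    exact zero_le
  obtain ⟨n0, m, V, K, sg, hnm, hlink, hnp, pt, hpt, hpt'⟩ :=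
    exists_link A (fun i => (hA i).1) (fun i => (hA i).2) hne
  have hpow1 : 1 ≤ n ^ ((d + 1) / 2) := Nat.one_le_pow _ _ hn1
  by_cases hm : m < d
  · have hCF := link_CF hd hn hm hnm A (fun i => (hA i).1) (fun i => (hA i).2) hne hsep V K sg
      hlink hnp pt hpt hpt'
    refine (faces_le hlink (fun l hl => hCF.omT l hl)).trans ((main_abs hCF).trans ?_)
    have h1 : Cd (d - m) ≤ ∑ d' ∈ Finset.range (d + 1), Cd d' + 1 :=
      (Finset.single_le_sum (f := Cd) (fun _ _ => Nat.zero_le _)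
        (Finset.mem_range.2 (by omega : d - m < d + 1))).trans (Nat.le_succ _)
    have h2 : n0 ^ ((d - m + 1) / 2) ≤ n ^ ((d + 1) / 2) :=
      (Nat.pow_le_pow_left (by omega : n0 ≤ n) _).trans
        (Nat.pow_le_pow_right hn1 (Nat.div_le_div_right (by omega)))
    exact_mod_cast Nat.mul_le_mul h1 h2
  · refine (few_faces hd hn A hne hsep pt (by omega) (fun j hj => ?_)).trans ?_
    · exact hlink.pts j ((hpt' j).1 hj)
    · have h3 : 1 ≤ (∑ d' ∈ Finset.range (d + 1), Cd d' + 1) * n ^ ((d + 1) / 2) :=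
        Nat.one_le_iff_ne_zero.2 (Nat.mul_ne_zero (Nat.succ_ne_zero _)
          (Nat.one_le_iff_ne_zero.1 hpow1))
      exact_mod_cast h3

end MP528
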