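import Pool.Agent.Lib.MP_528ca9_co.Basic
import Pool.Agent.Lib.MP_528ca9_co.CDefs

/-!
Block R: from the problem to abstract families.
-/

namespace MP528

open Finset

/-- the space of affine functionals `x ↦ ⟪x, l.fst⟫ + l.snd` on `ℝ^d` (also containing the lifted
points) -/
abbrev Wd (d : ℕ) := WithLp 2 (E d × ℝ)

/-- lift of a point: evaluation -/
def ev {d : ℕ} (x : E d) : Wd d := WithLp.toLp 2 (x, (1 : ℝ))

/-- the hyperplane of a functional with nonzero linear part -/
def hy {d : ℕ} (l : Wd d) (hl : l.fst ≠ 0) : Hyp d := hypOf l.fst hl (-l.snd)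

/-- Data connecting a family of convex sets in `ℝ^d` with an abstract family of subsets of a subspace
`V` of functionals: `sg` enumerates the members which are not points. -/
structure Link {d n n0 : ℕ} (A : Fin n → Set (E d)) (V : Submodule ℝ (Wd d))
    (K : Fin n0 → Set V) (sg : Fin n0 → Fin n) : Prop where
  inj : Function.Injective sg
  /-- members not in the range of `sg` are points, and `V` is their annihilator -/
  pts : ∀ j, j ∉ Set.range sg → ∃ x, A j = {x}
  mem : ∀ l : Wd d, l ∈ V ↔ ∀ j, j ∉ Set.range sg → ∀ x ∈ A j, inner ℝ (ev x) l = 0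
  /-- `K k` has the same values as the lift of `A (sg k)` -/
  val1 : ∀ k, ∀ y ∈ K k, ∃ x ∈ A (sg k), ∀ l : V, inner ℝ y l = inner ℝ (ev x) (l : Wd d)
  val2 : ∀ k, ∀ x ∈ A (sg k), ∃ y ∈ K k, ∀ l : V, inner ℝ y l = inner ℝ (ev x) (l : Wd d)
  cpt : ∀ k, IsCompact (A (sg k))
  cvx : ∀ k, Convex ℝ (A (sg k))
  ne : ∀ k, (A (sg k)).Nonempty

end MP528
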