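import Mathlib

namespace MP528

open Finset

/-- The set of convex combinations of points of the sets with index in `S`. -/
def S1C {V : Type*} [NormedAddCommGroup V] [InnerProductSpace ℝ V] {n : ℕ}
    (K : Fin n → Set V) (S : Finset (Fin n)) : Set V :=
  {v | ∃ c : Fin n → ℝ, ∃ x : Fin n → V, (∀ j, 0 ≤ c j) ∧ (∀ j, j ∉ S → c j = 0) ∧
    ∑ j, c j = 1 ∧ (∀ j, x j ∈ K j) ∧ ∑ j, c j • x j = v}

lemma S1_convex {V : Type*} [NormedAddCommGroup V] [InnerProductSpace ℝ V] {n : ℕ}
    (K : Fin n → Set V) (hcvx : ∀ j, Convex ℝ (K j)) (S : Finset (Fin n)) :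
    Convex ℝ (S1C K S) := by
  rintro _ ⟨c, x, hc0, hcS, hc1, hx, rfl⟩ _ ⟨c', x', hc0', hcS', hc1', hx', rfl⟩ a b ha hb hab
  have hs0 : ∀ j, 0 ≤ a * c j := fun j => mul_nonneg ha (hc0 j)
  have hs0' : ∀ j, 0 ≤ b * c' j := fun j => mul_nonneg hb (hc0' j)
  refine ⟨fun j => a * c j + b * c' j,
    fun j => if a * c j + b * c' j = 0 then x j else
      (a * c j / (a * c j + b * c' j)) • x j + (b * c' j / (a * c j + b * c' j)) • x' j,
    ?_, ?_, ?_, ?_, ?_⟩
  · intro j
    exact add_nonneg (hs0 j) (hs0' j)
  · intro j hj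
    simp [hcS j hj, hcS' j hj]
  · rw [sum_add_distrib, ← mul_sum, ← mul_sum, hc1, hc1']
    simpa using hab
  · intro j
    by_cases h : a * c j + b * c' j = 0
    · simp only [h, if_true]
      exact hx j
    · simp only [h, if_false]
      have hpos : 0 < a * c j + b * c' j :=
        lt_of_le_of_ne (add_nonneg (hs0 j) (hs0' j)) (Ne.symm h)
      refine hcvx j (hx j) (hx' j) (div_nonneg (hs0 j) hpos.le) (div_nonneg (hs0' j) hpos.le) ?_
      rw [← add_div, div_self h]
  · rw [smul_sum, smul_sum, ← sum_add_distrib]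
    refine sum_congr rfl fun j _ => ?_
    by_cases h : a * c j + b * c' j = 0
    · have h1 : a * c j = 0 := by
        have := hs0 j; have := hs0' j; linarith
      have h2 : b * c' j = 0 := by
        have := hs0 j; have := hs0' j; linarith
      simp only [h, if_true, zero_smul, smul_smul, h1, h2, add_zero]
    · simp only [h, if_false, smul_add, smul_smul]
      rw [mul_div_cancel₀ _ h, mul_div_cancel₀ _ h]

lemma S1_compact {V : Type*} [NormedAddCommGroup V] [InnerProductSpace ℝ V] {n : ℕ}
    (K : Fin n → Set V) (hcpt : ∀ j, IsCompact (K j)) (S : Finset (Fin n)) :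
    IsCompact (S1C K S) := by
  have hA : IsCompact ({c : Fin n → ℝ | c ∈ stdSimplex ℝ (Fin n) ∧ ∀ j, j ∉ S → c j = 0}) := by
    have h1 : IsClosed {c : Fin n → ℝ | ∀ j, j ∉ S → c j = 0} := by
      simp only [Set.setOf_forall]
      refine isClosed_iInter fun j => isClosed_iInter fun _ => ?_
      exact isClosed_eq (continuous_apply j) continuous_const
    exact (isCompact_stdSimplex ℝ (Fin n)).inter_right h1
  have hB : IsCompact (Set.pi Set.univ K) := isCompact_univ_pi hcpt
  have hAB := hA.prod hB
  have hf : Continuous (fun p : (Fin n → ℝ) × (Fin n → V) => ∑ j, p.1 j • p.2 j) := by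
    fun_prop
  have := hAB.image hf
  convert this using 1
  ext v
  constructor
  · rintro ⟨c, x, hc0, hcS, hc1, hx, rfl⟩
    refine ⟨(c, x), ⟨⟨⟨hc0, hc1⟩, hcS⟩, ?_⟩, rfl⟩
    intro j _
    exact hx j
  · rintro ⟨⟨c, x⟩, ⟨⟨⟨hc0, hc1⟩, hcS⟩, hx⟩, rfl⟩
    exact ⟨c, x, hc0, hcS, hc1, fun j => hx j (Set.mem_univ j), rfl⟩

lemma S1_mem {V : Type*} [NormedAddCommGroup V] [InnerProductSpace ℝ V] {n : ℕ}
    (K : Fin n → Set V) (hne : ∀ j, (K j).Nonempty) (S : Finset (Fin n)) {i : Fin n} (hi : i ∈ S)
    {y : V} (hy : y ∈ K i) : y ∈ S1C K S := by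
  classical
  choose z hz using hne
  refine ⟨Pi.single i 1, Function.update z i y, ?_, ?_, ?_, ?_, ?_⟩
  · intro j
    by_cases h : j = i
    · subst h; simp
    · simp [Pi.single_eq_of_ne h]
  · intro j hj
    have h : j ≠ i := fun h => hj (h ▸ hi)
    simp [Pi.single_eq_of_ne h]
  · simp
  · intro j
    by_cases h : j = i
    · subst h; simpa using hy
    · simpa [Function.update_of_ne h] using hz j
  · rw [sum_eq_single i]
    · simp
    · intro j _ h
      simp [Pi.single_eq_of_ne h]
    · simp

/-- ROW S1. Separating functional.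
Proof. Let `K' j = K j` for `j ∈ P`, `K' j = -K j` for `j ∈ N`, `S = P ∪ N`, and let `C` be the set of
all `∑_{j ∈ S} c_j • x_j` with `c ≥ 0`, `∑ c_j = 1`, `x_j ∈ K' j`. `C` is compact (image of the compact set
simplex × ∏ K' j under a continuous map; or: convex hull of a finite union of compact convex sets, e.g.
`convexHull ℝ (⋃ j ∈ S, K' j)`, `IsCompact.convexHull` in finite dimension) and convex (if
`c_j x_j` and `c'_j x'_j` then `(a c_j x_j + b c'_j x'_j) = (a c_j + b c'_j) x''_j` with `x''_j ∈ K' j` by
convexity). `0 ∉ C`: otherwise `∑ (± c_j) • y_j = 0` with `y_j ∈ K j`, contradicting the linear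
independence in `sep` (not all `c_j` are zero). If `S = ∅` take `l = 0`. Otherwise separate:
`geometric_hahn_banach_point_compact`-type theorem gives a continuous functional `f` with `f < 0` on
`C` (`f 0 = 0`); represent it by `l` (`InnerProductSpace.toDual`); each `K' j ⊆ C`. -/
theorem sep_functional {V : Type*} [NormedAddCommGroup V] [InnerProductSpace ℝ V]
    [FiniteDimensional ℝ V] {n : ℕ} (K : Fin n → Set V) (d : ℕ)
    (hcpt : ∀ j, IsCompact (K j)) (hcvx : ∀ j, Convex ℝ (K j)) (hne : ∀ j, (K j).Nonempty)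
    (hsep : ∀ S : Finset (Fin n), S.card ≤ d → ∀ x : Fin n → V, (∀ j ∈ S, x j ∈ K j) →
      LinearIndependent ℝ (fun j : S => x j))
    (P N : Finset (Fin n)) (hd : Disjoint P N) (hc : (P ∪ N).card ≤ d) :
    ∃ l : V, (∀ j ∈ P, ∀ y ∈ K j, inner ℝ y l < 0) ∧ (∀ j ∈ N, ∀ y ∈ K j, 0 < inner ℝ y l) := by
  classical
  set S := P ∪ N with hS
  set K' : Fin n → Set V := fun j => if j ∈ N then -(K j) else K j with hK'
  have hcpt' : ∀ j, IsCompact (K' j) := by
    intro j
    by_cases h : j ∈ N
    · simp only [hK', h, if_true]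
      exact (hcpt j).neg
    · simp only [hK', h, if_false]
      exact hcpt j
  have hcvx' : ∀ j, Convex ℝ (K' j) := by
    intro j
    by_cases h : j ∈ N
    · simp only [hK', h, if_true]
      exact (hcvx j).neg
    · simp only [hK', h, if_false]
      exact hcvx j
  have hne' : ∀ j, (K' j).Nonempty := by
    intro j
    by_cases h : j ∈ N
    · simp only [hK', h, if_true]
      exact (hne j).neg
    · simp only [hK', h, if_false]
      exact hne j
  have h0 : (0 : V) ∉ S1C K' S := by
    rintro ⟨c, x, hc0, hcS, hc1, hx, hsum⟩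
    set y : Fin n → V := fun j => if j ∈ N then -(x j) else x j with hy
    have hyK : ∀ j ∈ S, y j ∈ K j := by
      intro j _
      have := hx j
      by_cases h : j ∈ N
      · simp only [hK', h, if_true] at this
        simp only [hy, h, if_true]
        exact this
      · simp only [hK', h, if_false] at this
        simp only [hy, h, if_false]
        exact this
    have hli := hsep S hc y hyK
    rw [Fintype.linearIndependent_iff] at hli
    have hz := hli (fun j => if (j : Fin n) ∈ N then -(c j) else c j) (by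
      rw [Finset.sum_coe_sort S (fun j => (if j ∈ N then -(c j) else c j) • y j)]
      rw [← hsum]
      rw [← Finset.sum_subset (Finset.subset_univ S)]
      · refine sum_congr rfl fun j _ => ?_
        by_cases h : j ∈ N
        · simp [hy, h]
        · simp [hy, h]
      · intro j _ hj
        simp [hcS j hj])
    have hc0' : ∀ j, c j = 0 := by
      intro j
      by_cases hj : j ∈ S
      · have := hz ⟨j, hj⟩
        by_cases h : j ∈ N
        · simpa [h] using this
        · simpa [h] using this
      · exact hcS j hj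
    simp [hc0'] at hc1
  obtain ⟨f, u, hf1, hf2⟩ := geometric_hahn_banach_closed_point (S1_convex K' hcvx' S)
    (S1_compact K' hcpt' S).isClosed h0
  simp only [map_zero] at hf2
  have hrep : ∀ y : V, f y = inner ℝ y ((InnerProductSpace.toDual ℝ V).symm f) := by
    intro y
    rw [real_inner_comm, InnerProductSpace.toDual_symm_apply]
  refine ⟨(InnerProductSpace.toDual ℝ V).symm f, ?_, ?_⟩
  · intro j hj y hy
    rw [← hrep]
    have hjN : j ∉ N := Finset.disjoint_left.mp hd hj
    have hyC : y ∈ S1C K' S := by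
      refine S1_mem K' hne' S (Finset.mem_union_left _ hj) ?_
      simp only [hK', hjN, if_false]
      exact hy
    exact (hf1 y hyC).trans hf2
  · intro j hj y hy
    rw [← hrep]
    have hyC : -y ∈ S1C K' S := by
      refine S1_mem K' hne' S (Finset.mem_union_right _ hj) ?_
      simp only [hK', hj, if_true]
      simpa using hy
    have := (hf1 (-y) hyC).trans hf2
    rw [map_neg] at this
    linarith

end MP528
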