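import Pool.Agent.Lib.MP_528ca9_co.CB1
import Pool.Agent.Lib.MP_528ca9_co.S1

namespace MP528

open Finset

variable {V : Type*} [NormedAddCommGroup V] [InnerProductSpace ℝ V] [FiniteDimensional ℝ V] {n d : ℕ}
  {K : Fin n → Set V} {Om : Set V}

/-- ROW V1. (paper section 2) The vectors `v_σ`.
Proof. Let `K' j = KK K (j, ε j)` (compact, convex, nonempty, and selections of at most `d` distinct
members are independent: `KK_sep`), `B = (lab K w).image Prod.fst`. `sep_functional` for `K'` with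
`P = σ`, `N = B \ σ` gives `l` with `l < 0` on `K' j` (`j ∈ σ`) and `> 0` on `K' j` (`j ∈ B \ σ`). Put
`v = w + t • l`, `t > 0` small. For `j ∈ σ`, `y ∈ K' j`: `⟪y, w⟫ ≤ gg (j, ε j) w = 0` and `⟪y,l⟫ < 0`. For
`j ∈ B \ σ`: `y = ct K (j, ε j) w` has `⟪y,w⟫ = 0`, `⟪y,l⟫ > 0`. For `j ∉ B`:
`y = ct K (j, ε j) w` has `⟪y,w⟫ = gg (j, ε j) w > 0`, so `⟪y,v⟫ > 0` for small `t` (finitely many `j`). -/
theorem v_exists (h : CF K Om d) (ε : Fin n → Bool) (w : V) (hw : w ∈ TT K)
    (hε : ∀ i ∈ lab K w, i.2 = ε i.1) (hcard : (lab K w).card ≤ d) (σ : Finset (Fin n))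
    (hσ : σ ⊆ (lab K w).image Prod.fst) :
    ∃ v : V, (∀ j ∈ σ, ∀ y ∈ KK K (j, ε j), inner ℝ y v < 0) ∧
      ∀ j ∉ σ, ∃ y ∈ KK K (j, ε j), 0 < inner ℝ y v := by
  classical
  set B := (lab K w).image Prod.fst with hB
  have hmemB : ∀ j, j ∈ B ↔ gg K (j, ε j) w = 0 := by
    intro j
    constructor
    · intro hj
      obtain ⟨i, hi, rfl⟩ := Finset.mem_image.1 hj
      have h1 : (i.1, ε i.1) = i := by rw [← hε i hi]
      rw [h1]
      exact (Finset.mem_filter.1 hi).2
    · intro hj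
      exact Finset.mem_image.2 ⟨(j, ε j), Finset.mem_filter.2 ⟨Finset.mem_univ _, hj⟩, rfl⟩
  have hsep : ∀ S : Finset (Fin n), S.card ≤ d → ∀ x : Fin n → V,
      (∀ j ∈ S, x j ∈ KK K (j, ε j)) → LinearIndependent ℝ (fun j : S => x j) := by
    intro S hS x hx
    let s : Finset (Fin n × Bool) := S.image (fun j => (j, ε j))
    have h1 := KK_sep h s (Finset.card_image_le.trans hS) (by
      intro i hi i' hi' hii
      obtain ⟨j, hj, rfl⟩ := Finset.mem_image.1 hi
      obtain ⟨j', hj', rfl⟩ := Finset.mem_image.1 hi'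
      have : j = j' := hii
      rw [this]) (fun i => x i.1) (by
      intro i hi
      obtain ⟨j, hj, rfl⟩ := Finset.mem_image.1 hi
      exact hx j hj)
    let f : S → s := fun j => ⟨((j : Fin n), ε j), Finset.mem_image.2 ⟨j, j.2, rfl⟩⟩
    have hf : Function.Injective f := by
      intro j j' hjj
      have h2 := congrArg (fun i : s => (i : Fin n × Bool).1) hjj
      exact Subtype.ext h2
    exact h1.comp f hf
  have hcardB : (σ ∪ (B \ σ)).card ≤ d := by
    rw [Finset.union_sdiff_of_subset hσ]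
    exact Finset.card_image_le.trans hcard
  obtain ⟨l, hl1, hl2⟩ := sep_functional (fun j => KK K (j, ε j)) d (fun j => KK_cpt h _)
    (fun j => KK_cvx h _) (fun j => KK_ne h _) hsep σ (B \ σ) Finset.disjoint_sdiff hcardB
  have hev : ∀ᶠ t in nhdsWithin (0 : ℝ) (Set.Ioi 0), 0 < t ∧
      ∀ j, j ∉ B → 0 < gg K (j, ε j) w + t * inner ℝ (ct K (j, ε j) w) l := by
    refine Filter.Eventually.and self_mem_nhdsWithin (Filter.eventually_all.2 fun j => ?_)
    by_cases hj : j ∈ B
    · exact Filter.Eventually.of_forall fun t hn => absurd hj hn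
    have hpos : 0 < gg K (j, ε j) w :=
      lt_of_le_of_ne (hw.2 _) fun e => hj ((hmemB j).2 e.symm)
    have hc : ContinuousAt (fun t : ℝ => gg K (j, ε j) w + t * inner ℝ (ct K (j, ε j) w) l) 0 := by
      fun_prop
    have h1 := hc.eventually (lt_mem_nhds (a := 0) (by simpa using hpos))
    filter_upwards [nhdsWithin_le_nhds h1] with t ht _
    exact ht
  obtain ⟨t, ht0, ht⟩ := hev.exists
  refine ⟨w + t • l, ?_, ?_⟩
  · intro j hj y hy
    have h0 : gg K (j, ε j) w = 0 := (hmemB j).1 (hσ hj)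
    have h1 := inner_le_gg h (j, ε j) w y hy
    have h2 := hl1 j hj y hy
    rw [inner_add_right, inner_smul_right]
    nlinarith
  · intro j hj
    refine ⟨ct K (j, ε j) w, ct_mem h _ _, ?_⟩
    rw [inner_add_right, inner_smul_right, ct_inner h]
    by_cases hjB : j ∈ B
    · have h2 := hl2 j (Finset.mem_sdiff.2 ⟨hjB, hj⟩) _ (ct_mem h (j, ε j) w)
      rw [(hmemB j).1 hjB, zero_add]
      exact mul_pos ht0 h2
    · exact ht j hjB

end MP528
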