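import Pool.Agent.Lib.MP_528ca9_co.V1
import Pool.Agent.Lib.MP_528ca9_co.K9
import Pool.Agent.Lib.MP_528ca9_co.L2

namespace MP528

open Finset

variable {V : Type*} [NormedAddCommGroup V] [InnerProductSpace ℝ V] [FiniteDimensional ℝ V] {n d : ℕ}
  {K : Fin n → Set V} {Om : Set V}

theorem V2_mem_iff (ε : Fin n → Bool) (L : Finset (Fin n × Bool)) (hL : ∀ i ∈ L, i.2 = ε i.1)
    (i : Fin n × Bool) : i ∈ L ↔ i.1 ∈ L.image Prod.fst ∧ i.2 = ε i.1 := by
  constructor
  · intro hi
    exact ⟨mem_image_of_mem _ hi, hL i hi⟩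
  · rintro ⟨h1, h2⟩
    obtain ⟨i', hi', he⟩ := mem_image.mp h1
    have h3 := hL i' hi'
    have h4 : i' = i := by
      refine Prod.ext he ?_
      rw [h3, he, h2]
    rw [← h4]
    exact hi'

/-- ROW V2. Number of label sets compatible with a sign vector.
Proof. `Δ = univ.filter (fun σ => ∃ L ∈ 𝓛, σ ⊆ L.image Prod.fst)` is down-closed, its faces have at most
`d` elements. For `σ ∈ Δ` choose `L` and `w` and take `v σ` from `v_exists`. `vk_geom` for
`K' j = KK K (j, ε j)` (`sep` from `KK_sep`) gives `VK Δ d`, and `Fc_bound`. The map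
`L ↦ L.image Prod.fst` is injective on `𝓛` (`i ∈ L ↔ i.1 ∈ L.image fst ∧ i.2 = ε i.1`) with values in the
faces with `d` elements (first components are distinct by compatibility). -/
theorem label_bound (h : CF K Om d) (ε : Fin n → Bool) (LL : Finset (Finset (Fin n × Bool)))
    (hL : ∀ L ∈ LL, L.card = d ∧ (∀ i ∈ L, i.2 = ε i.1) ∧ ∃ w ∈ TT K, lab K w = L) :
    LL.card ≤ (2 * d + 2) ^ d * n ^ ((d + 1) / 2) := by
  classical
  set Δ : Finset (Finset (Fin n)) :=
    univ.filter (fun σ => ∃ L ∈ LL, σ ⊆ L.image Prod.fst) with hΔ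
  have hD : DownC Δ := by
    intro σ hσ τ hτ
    rw [hΔ, mem_filter] at hσ ⊢
    obtain ⟨-, L, hLL, hσL⟩ := hσ
    exact ⟨mem_univ _, L, hLL, hτ.trans hσL⟩
  have hc : ∀ σ ∈ Δ, σ.card ≤ d := by
    intro σ hσ
    rw [hΔ, mem_filter] at hσ
    obtain ⟨-, L, hLL, hσL⟩ := hσ
    exact (card_le_card hσL).trans (card_image_le.trans (hL L hLL).1.le)
  have hv : ∀ σ ∈ Δ, ∃ v : V, (∀ j ∈ σ, ∀ y ∈ KK K (j, ε j), inner ℝ y v < 0) ∧
      ∀ j ∉ σ, ∃ y ∈ KK K (j, ε j), 0 < inner ℝ y v := by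
    intro σ hσ
    rw [hΔ, mem_filter] at hσ
    obtain ⟨-, L, hLL, hσL⟩ := hσ
    obtain ⟨h1, h2, w, hw, hwL⟩ := hL L hLL
    exact v_exists h ε w hw (by rw [hwL]; exact h2) (by rw [hwL]; exact h1.le) σ
      (by rw [hwL]; exact hσL)
  choose! v hv1 hv2 using hv
  have hsep : ∀ S : Finset (Fin n), S.card ≤ d → ∀ x : Fin n → V,
      (∀ j ∈ S, x j ∈ KK K (j, ε j)) → LinearIndependent ℝ (fun j : S => x j) := by
    intro S hS x hx
    have h1 := KK_sep h (S.image (fun j => (j, ε j))) (card_image_le.trans hS)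
      (by
        intro i hi i' hi' he
        obtain ⟨j, -, rfl⟩ := mem_image.mp hi
        obtain ⟨j', -, rfl⟩ := mem_image.mp hi'
        have h2 : j = j' := he
        rw [h2])
      (fun i => x i.1)
      (by
        intro i hi
        obtain ⟨j, hj, rfl⟩ := mem_image.mp hi
        exact hx j hj)
    have h3 := h1.comp (fun j : S => (⟨((j : Fin n), ε j), mem_image_of_mem _ j.2⟩ :
      (S.image (fun j => (j, ε j)) : Finset (Fin n × Bool)))) (by
        intro j j' hjj
        have h4 := congrArg (fun z : (S.image (fun j => (j, ε j)) : Finset (Fin n × Bool)) =>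
          z.1.1) hjj
        exact Subtype.ext h4)
    exact h3
  have hVK : VK Δ d := vk_geom (fun j => KK K (j, ε j)) d h.hd h.dim
    (fun j => KK_cpt h _) (fun j => KK_cvx h _) (fun j => KK_ne h _) hsep Δ hD hc v hv1 hv2
  refine le_trans ?_ (Fc_bound Δ hD hVK)
  unfold Fc
  refine card_le_card_of_injOn (fun L => L.image Prod.fst) ?_ ?_
  · intro L hLL
    have hLL' : L ∈ LL := hLL
    obtain ⟨h1, h2, -⟩ := hL L hLL'
    have h3 : (L.image Prod.fst).card = d := by
      rw [← h1]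
      refine card_image_of_injOn ?_
      intro i hi i' hi' he
      have e1 := h2 i hi
      have e2 := h2 i' hi'
      refine Prod.ext he ?_
      rw [e1, e2, he]
    simp only [coe_filter, Set.mem_setOf_eq]
    refine ⟨?_, h3⟩
    rw [hΔ, mem_filter]
    exact ⟨mem_univ _, L, hLL', Subset.refl _⟩
  · intro L hLL L' hLL' he
    have he' : L.image Prod.fst = L'.image Prod.fst := he
    have hLL1 : L ∈ LL := hLL
    have hLL2 : L' ∈ LL := hLL'
    ext i
    rw [V2_mem_iff ε L (hL L hLL1).2.1 i, V2_mem_iff ε L' (hL L' hLL2).2.1 i, he']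

end MP528
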