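import Pool.Agent.Lib.MP_528ca9_co.V2
import Pool.Agent.Lib.MP_528ca9_co.O1

namespace MP528

open Finset

variable {V : Type*} [NormedAddCommGroup V] [InnerProductSpace ℝ V] [FiniteDimensional ℝ V] {n d : ℕ}
  {K : Fin n → Set V} {Om : Set V}

open Classical in
theorem V3a_count (L : Finset (Fin n × Bool)) (hL : L.card = d)
    (hinj : ∀ i ∈ L, ∀ i' ∈ L, i.1 = i'.1 → i = i') :
    2 ^ (n - d) ≤ ((univ : Finset (Fin n → Bool)).filter (fun ε => ∀ i ∈ L, i.2 = ε i.1)).card := by
  set J : Finset (Fin n) := L.image Prod.fst with hJ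
  have hJc : J.card ≤ d := card_image_le.trans hL.le
  have h1 : (univ \ J : Finset (Fin n)).powerset.card = 2 ^ (n - J.card) := by
    rw [card_powerset, card_sdiff_of_subset (subset_univ _), card_univ, Fintype.card_fin]
  have h2 : 2 ^ (n - d) ≤ (univ \ J : Finset (Fin n)).powerset.card := by
    rw [h1]
    exact Nat.pow_le_pow_right (by norm_num) (by omega)
  refine h2.trans ?_
  refine card_le_card_of_injOn
    (fun T j => if j ∈ J then decide ((j, true) ∈ L) else decide (j ∈ T)) ?_ ?_
  · intro T _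
    rw [mem_coe, mem_filter]
    refine ⟨mem_univ _, fun i hi => ?_⟩
    have hiJ : i.1 ∈ J := mem_image_of_mem _ hi
    simp only [hiJ, if_true]
    rcases i with ⟨j, b⟩
    cases b with
    | true => simpa using hi
    | false =>
      have h3 : (j, true) ∉ L := by
        intro h4
        have h5 := hinj _ hi _ h4 rfl
        simp at h5
      simp [h3]
  · intro T hT T' hT' he
    rw [mem_coe, mem_powerset] at hT hT'
    ext j
    by_cases hj : j ∈ J
    · constructor
      · intro h3
        exact ((mem_sdiff.mp (hT h3)).2 hj).elim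
      · intro h3
        exact ((mem_sdiff.mp (hT' h3)).2 hj).elim
    · have h3 := congrFun he j
      simp only [hj, if_false] at h3
      simpa using h3

/-- ROW V3a. Averaging over the sign vectors.
Proof. Double count the pairs `(L, ε)`, `L ∈ LL`, `ε` compatible with `L`: each `L` (distinct first
components, `d` elements, `lab_inj`) is compatible with exactly `2^(n-d)` of the `2^n` sign vectors; each `ε` has
at most `(2d+2)^d n^((d+1)/2)` compatible `L ∈ LL` (`label_bound`). So
`LL.card * 2^(n-d) ≤ 2^n * (..)`. (It suffices to show that the number of compatible `ε` is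
`≥ 2^(n-d)`.) -/
theorem label_total (h : CF K Om d) (LL : Finset (Finset (Fin n × Bool)))
    (hL : ∀ L ∈ LL, L.card = d ∧ ∃ w ∈ TT K, lab K w = L) :
    LL.card ≤ 2 ^ d * ((2 * d + 2) ^ d * n ^ ((d + 1) / 2)) := by
  classical
  set B : ℕ := (2 * d + 2) ^ d * n ^ ((d + 1) / 2) with hB
  have h1 : ∀ L ∈ LL, 2 ^ (n - d) ≤
      ((univ : Finset (Fin n → Bool)).filter (fun ε => ∀ i ∈ L, i.2 = ε i.1)).card := by
    intro L hLL
    obtain ⟨h2, w, hw, hwL⟩ := hL L hLL
    refine V3a_count L h2 ?_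
    intro i hi i' hi' he
    rw [← hwL] at hi hi'
    exact lab_inj h w hw.1 i i' hi hi' he
  have h2 : ∀ ε : Fin n → Bool, (LL.filter (fun L => ∀ i ∈ L, i.2 = ε i.1)).card ≤ B := by
    intro ε
    refine label_bound h ε _ ?_
    intro L hLL
    rw [mem_filter] at hLL
    obtain ⟨h3, h4⟩ := hL L hLL.1
    exact ⟨h3, hLL.2, h4⟩
  have h3 : ∑ L ∈ LL, ((univ : Finset (Fin n → Bool)).filter
      (fun ε => ∀ i ∈ L, i.2 = ε i.1)).card =
      ∑ ε : Fin n → Bool, (LL.filter (fun L => ∀ i ∈ L, i.2 = ε i.1)).card :=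
    Finset.sum_card_bipartiteAbove_eq_sum_card_bipartiteBelow
      (fun (L : Finset (Fin n × Bool)) (ε : Fin n → Bool) => ∀ i ∈ L, i.2 = ε i.1)
  have h4 : LL.card * 2 ^ (n - d) ≤ 2 ^ n * B := by
    calc LL.card * 2 ^ (n - d) = ∑ _L ∈ LL, 2 ^ (n - d) := by rw [sum_const, smul_eq_mul]
      _ ≤ ∑ L ∈ LL, ((univ : Finset (Fin n → Bool)).filter
          (fun ε => ∀ i ∈ L, i.2 = ε i.1)).card := sum_le_sum h1
      _ = _ := h3
      _ ≤ ∑ _ε : Fin n → Bool, B := sum_le_sum fun ε _ => h2 ε
      _ = 2 ^ n * B := by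
        rw [sum_const, smul_eq_mul, card_univ]
        simp
  have h5 : 2 ^ n = 2 ^ (n - d) * 2 ^ d := by
    rw [← pow_add]
    congr 1
    have := h.hn
    omega
  rw [h5, mul_comm, mul_assoc] at h4
  exact Nat.le_of_mul_le_mul_left (by linarith [h4]) (by positivity : 0 < 2 ^ (n - d))

end MP528
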